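import Pool.Agent.Lib.MP_407fc5_gt.RDefs

/-!
# A01: the second representation in terms of a conjugation (about 45 minutes)

Notation of `exists_alpha2` (T11): `a = tc g 0 * tc g 1`, `b = tc g 2 * tc g 3`, `c = g 3 * g 4`,
`m = mSL a b c`, `E = a⁻¹ c⁻¹ m`, `h = a E a E⁻¹`, `e2 = h⁻¹ (c⁻¹ a⁻¹ c) g4 (c⁻¹ a⁻¹ c)⁻¹ h`.
`rel_D₁`: as in the proof of `exists_alpha2` (`run_eq_one`, `rel_box1` …).
`h⁻¹ c⁻¹ a⁻¹ c = a⁻¹ c⁻¹ m a⁻¹ m⁻¹ a⁻¹ c`, and `(a m)³ = 1` (`mSL_props`) gives `a⁻¹ m⁻¹ a⁻¹ = m a m`, so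
this is `kap g`.  Moreover `h E h⁻¹ = c⁻¹ a⁻¹ c a c` (`key_two`), i.e. `E = κ c κ⁻¹`, so
`second g 3 = E e2⁻¹ = κ g3 κ⁻¹`.
-/

namespace TorMut

open Matrix MatrixGroups

theorem rel_D₁ (α₁ : LinkGroup D₁ →* SL(2, ℂ)) (g : ℕ → SL(2, ℂ))
    (hg : g = fun k => α₁ (mer D₁ k)) (a b c : SL(2, ℂ)) (ha : a = tc g 0 * tc g 1)
    (hb : b = tc g 2 * tc g 3) (hc : c = g 3 * g 4) :
    a * (c * a * b * c⁻¹) * b = c * a * b * c⁻¹ := by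
  have hR1 : ∀ r ∈ (run g 0 [] D₁).2, r = 1 := fun r hr => by
    rw [hg] at hr
    exact run_eq_one D₁ α₁ r hr
  unfold D₁ at hR1
  rw [t11_rel g box1 t11_births_box1] at hR1
  obtain ⟨U, hU⟩ : ∃ U, U = c * a * b * c⁻¹ := ⟨_, rfl⟩
  have hbox1 := run_box1 g 3 (tc g 0) (tc g 1) (tc g 2) (tc g 3) [tc g 4, tc g 5] a b c U
    ha hb hc hU
  rw [hbox1] at hR1
  simp only [List.cons_append, List.nil_append, List.forall_mem_cons] at hR1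
  obtain ⟨r1, r2, r3⟩ := hR1
  obtain ⟨q1, q2, q3⟩ := rel_box1 (tc g 0) (tc g 1) (tc g 2) (tc g 3) a b U _ ha hb r1 r2
  rw [← hU]
  exact q3

theorem second_conj (α₁ : LinkGroup D₁ →* SL(2, ℂ)) (g : ℕ → SL(2, ℂ))
    (hg : g = fun k => α₁ (mer D₁ k)) (ht : TraceOK g) :
    second g 3 = kap g * g 3 * (kap g)⁻¹ ∧ second g 4 = kap g * g 4 * (kap g)⁻¹ ∧
    (mSL (tc g 0 * tc g 1) (tc g 2 * tc g 3) (g 3 * g 4)).1 =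
      mMat (tc g 0 * tc g 1) (tc g 2 * tc g 3) (g 3 * g 4) := by
  obtain ⟨a, ha⟩ : ∃ a, a = tc g 0 * tc g 1 := ⟨_, rfl⟩
  obtain ⟨b, hb⟩ : ∃ b, b = tc g 2 * tc g 3 := ⟨_, rfl⟩
  obtain ⟨c, hc⟩ : ∃ c, c = g 3 * g 4 := ⟨_, rfl⟩
  have hrel := rel_D₁ α₁ g hg a b c ha hb hc
  have htr : (c * a * b * c⁻¹).1.trace ≠ 2 := by
    have h1 : c * a * b * c⁻¹ = (g 3 * g 4) * (tc g 0 * tc g 1) * (tc g 2 * tc g 3) *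
        (g 3 * g 4)⁻¹ := by rw [hc, ha, hb]
    rw [h1]
    exact ht
  obtain ⟨m, hm⟩ : ∃ m, m = mSL a b c := ⟨_, rfl⟩
  obtain ⟨E, hE⟩ : ∃ E, E = a⁻¹ * c⁻¹ * m := ⟨_, rfl⟩
  obtain ⟨h, hh⟩ : ∃ h, h = a * E * a * E⁻¹ := ⟨_, rfl⟩
  obtain ⟨e2, he2⟩ : ∃ e2, e2 = h⁻¹ * ((c⁻¹ * a⁻¹ * c) * g 4 * (c⁻¹ * a⁻¹ * c)⁻¹) * h :=
    ⟨_, rfl⟩
  obtain ⟨e1, he1⟩ : ∃ e1, e1 = E * e2⁻¹ := ⟨_, rfl⟩
  have hsec : ∀ k, second g k = if k < 3 then g k else if k = 3 then e1 else e2 := by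
    intro k
    unfold second
    simp only
    rw [← ha, ← hb, ← hc, ← hm, ← hE, ← hh, ← he2, ← he1]
  obtain ⟨p1, p2, p3, p4, -, -⟩ := mSL_props a b c hrel htr
  rw [← hm] at p1 p2 p3 p4
  obtain ⟨o0, o1, o2, o3, o4⟩ := box_eq a b m (g 3) (g 4) c E h e1 e2 hc hE hh he2 he1 hrel
    p2 p3 p4
  have hmam : m * a * m = a⁻¹ * m⁻¹ * a⁻¹ := by
    have h1 : (a * m) * (a * m) * (a * m) = 1 := by rw [← p2, pow_succ, pow_two]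
    calc m * a * m = a⁻¹ * ((a * m) * (a * m) * (a * m)) * m⁻¹ * a⁻¹ := by group
      _ = a⁻¹ * m⁻¹ * a⁻¹ := by rw [h1, mul_one]
  have hkap : kap g = h⁻¹ * (c⁻¹ * a⁻¹ * c) := by
    unfold kap
    rw [← ha, ← hb, ← hc, ← hm]
    calc a⁻¹ * c⁻¹ * m ^ 2 * a * m * c = a⁻¹ * c⁻¹ * m * (m * a * m) * c := by
          rw [pow_two]; simp only [mul_assoc]
      _ = h⁻¹ * (c⁻¹ * a⁻¹ * c) := by rw [hmam, hh, hE]; group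
  refine ⟨?_, ?_, ?_⟩
  · rw [hsec 3, if_neg (by norm_num), if_pos rfl, hkap]
    calc e1 = h⁻¹ * (h * e1 * h⁻¹) * h := by group
      _ = h⁻¹ * (c⁻¹ * a⁻¹ * c) * g 3 * (h⁻¹ * (c⁻¹ * a⁻¹ * c))⁻¹ := by rw [o1]; group
  · rw [hsec 4, if_neg (by norm_num), if_neg (by norm_num), hkap]
    calc e2 = h⁻¹ * (h * e2 * h⁻¹) * h := by group
      _ = h⁻¹ * (c⁻¹ * a⁻¹ * c) * g 4 * (h⁻¹ * (c⁻¹ * a⁻¹ * c))⁻¹ := by rw [o2]; group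
  · rw [← ha, ← hb, ← hc]
    exact mSL_coe a b c hrel htr

end TorMut
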