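import Pool.Agent.Lib.MP_407fc5_gt.B01

/-!
# B02: ball arithmetic, signs, bounds, inverse (about 45 minutes)

`inv_sound`: let `δ = 1 - x w`, `‖δ‖ 2^sc ≤ E` with `2 E ≤ 2^sc`, so `‖δ‖ ≤ 1/2`, `x ≠ 0` and
`x⁻¹ - w = w δ / (1 - δ)`, so `‖x⁻¹ - w‖ ≤ 2 ‖w‖ ‖δ‖` (here `w` is the midpoint divided by `2^sc`).
-/

namespace TorMut

open ComplexConjugate

theorem B02_pos : (0 : ℝ) < 2 ^ sc := by positivity

theorem B02_cast : ((2 : ℂ) ^ sc) = (((2 : ℝ) ^ sc : ℝ) : ℂ) := by push_cast; rfl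

theorem B02_norm : ‖(2 : ℂ) ^ sc‖ = 2 ^ sc := by
  rw [B02_cast, Complex.norm_real, Real.norm_of_nonneg B02_pos.le]

theorem B02_re (x : ℂ) : (x * 2 ^ sc).re = x.re * 2 ^ sc := by
  rw [B02_cast, Complex.re_mul_ofReal]

theorem B02_im (x : ℂ) : (x * 2 ^ sc).im = x.im * 2 ^ sc := by
  rw [B02_cast, Complex.im_mul_ofReal]

theorem B02_ne : ((2 : ℂ) ^ sc) ≠ 0 := pow_ne_zero _ two_ne_zero

theorem ab_sound (b : CB) : ‖b.val‖ ≤ (b.ab : ℝ) := by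
  have h := Complex.norm_le_abs_re_add_abs_im b.val
  have h2 : (b.ab : ℝ) = |b.val.re| + |b.val.im| := by
    show (((Int.natAbs b.re + Int.natAbs b.im : ℕ)) : ℝ) = |((b.re : ℤ) : ℝ)| + |((b.im : ℤ) : ℝ)|
    rw [Nat.cast_add, Nat.cast_natAbs, Nat.cast_natAbs, Int.cast_abs, Int.cast_abs]
  rw [h2]
  exact h

theorem up_sound {x : ℂ} {b : CB} (h : Mem x b) : ‖x‖ * 2 ^ sc ≤ (b.up : ℝ) := by
  have h1 : ‖x‖ * 2 ^ sc = ‖x * 2 ^ sc‖ := by rw [norm_mul, B02_norm]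
  have h2 : (b.up : ℝ) = (b.ab : ℝ) + (b.rad : ℝ) := by
    show ((b.ab + b.rad : ℕ) : ℝ) = _
    rw [Nat.cast_add]
  have h3 : x * 2 ^ sc = b.val + (x * 2 ^ sc - b.val) := by ring
  rw [h1, h2, h3]
  exact (norm_add_le _ _).trans (add_le_add (ab_sound b) h)

theorem B02_re_le {x : ℂ} {b : CB} (h : Mem x b) : |x.re * 2 ^ sc - (b.re : ℝ)| ≤ (b.rad : ℝ) := by
  have h1 := Complex.abs_re_le_norm (x * 2 ^ sc - b.val)
  rw [Complex.sub_re, B02_re] at h1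
  exact h1.trans h

theorem B02_im_le {x : ℂ} {b : CB} (h : Mem x b) : |x.im * 2 ^ sc - (b.im : ℝ)| ≤ (b.rad : ℝ) := by
  have h1 := Complex.abs_im_le_norm (x * 2 ^ sc - b.val)
  rw [Complex.sub_im, B02_im] at h1
  exact h1.trans h

theorem B02_rePos {b : CB} (hb : b.rePos = true) : (b.rad : ℝ) + 1 ≤ (b.re : ℝ) := by
  rcases b with ⟨re, im, rad⟩
  cases re with
  | ofNat a =>
    have h : Nat.succ rad ≤ a := Nat.le_of_ble_eq_true hb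
    have h2 : ((Nat.succ rad : ℕ) : ℝ) ≤ (a : ℝ) := by exact_mod_cast h
    have h3 : ((Int.ofNat a : ℤ) : ℝ) = (a : ℝ) := by simp
    show (rad : ℝ) + 1 ≤ ((Int.ofNat a : ℤ) : ℝ)
    rw [h3]
    rw [Nat.cast_succ] at h2
    exact h2
  | negSucc a => exact absurd hb (by simp [CB.rePos])

theorem B02_imPos {b : CB} (hb : b.imPos = true) : (b.rad : ℝ) + 1 ≤ (b.im : ℝ) := by
  rcases b with ⟨re, im, rad⟩
  cases im with
  | ofNat a =>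
    have h : Nat.succ rad ≤ a := Nat.le_of_ble_eq_true hb
    have h2 : ((Nat.succ rad : ℕ) : ℝ) ≤ (a : ℝ) := by exact_mod_cast h
    have h3 : ((Int.ofNat a : ℤ) : ℝ) = (a : ℝ) := by simp
    show (rad : ℝ) + 1 ≤ ((Int.ofNat a : ℤ) : ℝ)
    rw [h3]
    rw [Nat.cast_succ] at h2
    exact h2
  | negSucc a => exact absurd hb (by simp [CB.imPos])

theorem rePos_sound {x : ℂ} {b : CB} (h : Mem x b) (hb : b.rePos = true) : 0 < x.re := by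
  have h1 := abs_le.1 (B02_re_le h)
  have h2 := B02_rePos hb
  have h3 : 0 < x.re * 2 ^ sc := by linarith [h1.1]
  exact pos_of_mul_pos_left h3 B02_pos.le

theorem imPos_sound {x : ℂ} {b : CB} (h : Mem x b) (hb : b.imPos = true) : 0 < x.im := by
  have h1 := abs_le.1 (B02_im_le h)
  have h2 := B02_imPos hb
  have h3 : 0 < x.im * 2 ^ sc := by linarith [h1.1]
  exact pos_of_mul_pos_left h3 B02_pos.le

theorem reNeg_sound {x : ℂ} {b : CB} (h : Mem x b) (hb : b.reNeg = true) : x.re < 0 := by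
  have h1 := rePos_sound (mem_neg h) hb
  rw [Complex.neg_re] at h1
  linarith

theorem imNeg_sound {x : ℂ} {b : CB} (h : Mem x b) (hb : b.imNeg = true) : x.im < 0 := by
  have h1 := imPos_sound (mem_neg h) hb
  rw [Complex.neg_im] at h1
  linarith

theorem ne0_sound {x : ℂ} {b : CB} (h : Mem x b) (hb : b.ne0 = true) : x ≠ 0 := by
  rintro rfl
  unfold CB.ne0 at hb
  rw [Bool.or_eq_true, Bool.or_eq_true, Bool.or_eq_true] at hb
  rcases hb with ((hb | hb) | hb) | hb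
  · exact lt_irrefl _ (rePos_sound h hb)
  · exact lt_irrefl _ (reNeg_sound h hb)
  · exact lt_irrefl _ (imPos_sound h hb)
  · exact lt_irrefl _ (imNeg_sound h hb)

theorem B02_shift (m : ℕ) : (m : ℝ) / 2 ^ sc ≤ ((Nat.shiftRight m sc + 1 : ℕ) : ℝ) := by
  have h1 : Nat.shiftRight m sc = m / 2 ^ sc := Nat.shiftRight_eq_div_pow m sc
  rw [h1, div_le_iff₀ B02_pos]
  have h2 : m < (m / 2 ^ sc + 1) * 2 ^ sc := by
    have h3 : 0 < 2 ^ sc := Nat.pow_pos (by norm_num)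
    have h4 := Nat.lt_mul_div_succ m h3
    rw [mul_comm]
    exact h4
  have h5 : ((m : ℕ) : ℝ) ≤ (((m / 2 ^ sc + 1) * 2 ^ sc : ℕ) : ℝ) := by exact_mod_cast h2.le
  rw [Nat.cast_mul, Nat.cast_pow, Nat.cast_ofNat] at h5
  exact h5

theorem inv_sound {x : ℂ} {b w : CB} (h : Mem x b) (hb : CB.invOK b w = true) :
    x ≠ 0 ∧ Mem x⁻¹ (CB.inv b w) := by
  obtain ⟨W, hW⟩ : ∃ W : CB, W = ⟨w.re, w.im, 0⟩ := ⟨_, rfl⟩
  obtain ⟨z, hz⟩ : ∃ z : ℂ, z = w.val / 2 ^ sc := ⟨_, rfl⟩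
  obtain ⟨E, hE⟩ : ∃ E : ℕ, E = CB.up (CB.sub CB.one (CB.mul b W)) := ⟨_, rfl⟩
  have hz2 : z * 2 ^ sc = w.val := by rw [hz, div_mul_cancel₀ _ B02_ne]
  have hmz : Mem z W := by
    show ‖z * 2 ^ sc - W.val‖ ≤ (W.rad : ℝ)
    have h1 : W.val = w.val := by rw [hW]; rfl
    have h2 : W.rad = 0 := by rw [hW]
    rw [hz2, h1, h2, sub_self, norm_zero, Nat.cast_zero]
  have hd : ‖1 - x * z‖ * 2 ^ sc ≤ (E : ℝ) := by
    rw [hE]
    exact up_sound (mem_sub mem_one (mem_mul h hmz))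
  have hE2 : (2 : ℝ) * E ≤ 2 ^ sc := by
    have h1 : 2 * E ≤ 2 ^ sc := by
      rw [hE, hW]
      exact Nat.le_of_ble_eq_true hb
    have h2 : ((2 * E : ℕ) : ℝ) ≤ ((2 ^ sc : ℕ) : ℝ) := by exact_mod_cast h1
    rw [Nat.cast_mul, Nat.cast_pow, Nat.cast_ofNat] at h2
    exact h2
  have hS := B02_pos
  have hd2 : ‖1 - x * z‖ ≤ 1 / 2 := by
    by_contra hc
    push Not at hc
    have h1 : 1 / 2 * 2 ^ sc < ‖1 - x * z‖ * 2 ^ sc := mul_lt_mul_of_pos_right hc hS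
    linarith
  have hx : x ≠ 0 := by
    rintro rfl
    rw [zero_mul, sub_zero, norm_one] at hd2
    norm_num at hd2
  refine ⟨hx, ?_⟩
  have hxz : 1 / 2 ≤ ‖x‖ * ‖z‖ := by
    have h1 : (1 : ℂ) = x * z + (1 - x * z) := by ring
    have h2 : ‖(1 : ℂ)‖ ≤ ‖x * z‖ + ‖1 - x * z‖ := by
      calc ‖(1 : ℂ)‖ = ‖x * z + (1 - x * z)‖ := by rw [← h1]
        _ ≤ _ := norm_add_le _ _
    rw [norm_one, norm_mul] at h2
    linarith
  have hxn : 0 < ‖x‖ := norm_pos_iff.2 hx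
  have hxi : ‖x⁻¹‖ ≤ 2 * ‖z‖ := by
    rw [norm_inv, inv_le_iff_one_le_mul₀ hxn]
    linarith
  have hdiff : x⁻¹ - z = x⁻¹ * (1 - x * z) := by
    field_simp
  have hnd : ‖x⁻¹ - z‖ ≤ 2 * ‖z‖ * ‖1 - x * z‖ := by
    rw [hdiff, norm_mul]
    exact mul_le_mul_of_nonneg_right hxi (norm_nonneg _)
  have hzn : ‖z‖ * 2 ^ sc ≤ (w.ab : ℝ) := by
    have h1 : ‖z‖ * 2 ^ sc = ‖w.val‖ := by rw [← hz2, norm_mul, B02_norm]
    rw [h1]
    exact ab_sound w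
  show ‖x⁻¹ * 2 ^ sc - (CB.inv b w).val‖ ≤ ((CB.inv b w).rad : ℝ)
  have hv : (CB.inv b w).val = w.val := rfl
  have hr : (CB.inv b w).rad = Nat.shiftRight (2 * (w.ab * E)) sc + 1 := by
    rw [hE, hW]
    rfl
  have h1 : x⁻¹ * 2 ^ sc - w.val = (x⁻¹ - z) * 2 ^ sc := by rw [sub_mul, hz2]
  rw [hv, hr, h1, norm_mul, B02_norm]
  refine le_trans ?_ (B02_shift _)
  rw [le_div_iff₀ hS]
  have h2 : ‖x⁻¹ - z‖ * 2 ^ sc * 2 ^ sc ≤ 2 * (‖z‖ * 2 ^ sc) * (‖1 - x * z‖ * 2 ^ sc) := by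
    have h3 : 2 * (‖z‖ * 2 ^ sc) * (‖1 - x * z‖ * 2 ^ sc) =
        2 * ‖z‖ * ‖1 - x * z‖ * 2 ^ sc * 2 ^ sc := by ring
    rw [h3]
    exact mul_le_mul_of_nonneg_right (mul_le_mul_of_nonneg_right hnd hS.le) hS.le
  refine h2.trans ?_
  have h4 : ((2 * (w.ab * E) : ℕ) : ℝ) = 2 * (w.ab : ℝ) * (E : ℝ) := by
    push_cast
    ring
  rw [h4]
  have h5 : 0 ≤ ‖1 - x * z‖ * 2 ^ sc := mul_nonneg (norm_nonneg _) hS.le
  have h6 : 0 ≤ (w.ab : ℝ) := Nat.cast_nonneg _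
  exact mul_le_mul (by linarith) hd h5 (by linarith)

/-- balls with a larger radius -/
theorem mem_mono {x : ℂ} {a b : CB} (h : Mem x a) (hre : a.re = b.re) (him : a.im = b.im)
    (hr : a.rad ≤ b.rad) : Mem x b := by
  have h1 : a.val = b.val := by
    unfold CB.val
    rw [hre, him]
  have h2 : (a.rad : ℝ) ≤ (b.rad : ℝ) := by exact_mod_cast hr
  have h3 : ‖x * 2 ^ sc - a.val‖ ≤ (a.rad : ℝ) := h
  show ‖x * 2 ^ sc - b.val‖ ≤ (b.rad : ℝ)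
  rw [← h1]
  exact h3.trans h2

/-- a ball is a disk -/
theorem mem_iff_norm (x : ℂ) (b : CB) :
    Mem x b ↔ ‖x - b.val / 2 ^ sc‖ ≤ (b.rad : ℝ) / 2 ^ sc := by
  have h1 : x * 2 ^ sc - b.val = (x - b.val / 2 ^ sc) * 2 ^ sc := by
    rw [sub_mul, div_mul_cancel₀ _ B02_ne]
  show ‖x * 2 ^ sc - b.val‖ ≤ (b.rad : ℝ) ↔ _
  rw [le_div_iff₀ B02_pos, h1, norm_mul, B02_norm]

end TorMut
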