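import Pool.Agent.Lib.MP_407fc5_gt.B01

/-!
# B03: vectors of balls (about 20 minutes)
-/

namespace TorMut

open Tile Matrix

theorem memV_Dt {u v : V2} {a b : VB} (hu : MemV u a) (hv : MemV v b) : Mem (Dt u v) (DtB a b) := by
  obtain ⟨a0, a1⟩ := a
  obtain ⟨b0, b1⟩ := b
  exact mem_sub (mem_mul hu.1 hv.2) (mem_mul hu.2 hv.1)

theorem memV_add {u v : V2} {a b : VB} (hu : MemV u a) (hv : MemV v b) :
    MemV (u + v) (addV a b) := by
  obtain ⟨a0, a1⟩ := a
  obtain ⟨b0, b1⟩ := b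
  exact ⟨mem_add hu.1 hv.1, mem_add hu.2 hv.2⟩

theorem memV_sub {u v : V2} {a b : VB} (hu : MemV u a) (hv : MemV v b) :
    MemV (u - v) (subV a b) := by
  obtain ⟨a0, a1⟩ := a
  obtain ⟨b0, b1⟩ := b
  exact ⟨mem_sub hu.1 hv.1, mem_sub hu.2 hv.2⟩

theorem memV_smul {x : ℂ} {v : V2} {a : CB} {b : VB} (hx : Mem x a) (hv : MemV v b) :
    MemV (x • v) (smulV a b) := by
  obtain ⟨b0, b1⟩ := b
  exact ⟨mem_mul hx hv.1, mem_mul hx hv.2⟩

theorem PB_true (a v : VB) : PB true a v = addV v (smulV (DtB a v) a) := by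
  unfold PB
  rw [fC_eq]

theorem PB_false (a v : VB) : PB false a v = subV v (smulV (DtB a v) a) := by
  unfold PB
  rw [fC_eq]

theorem PV_mulVec (a v : V2) : (PV a).1.mulVec v = v + Dt a v • a := by
  ext i
  fin_cases i
  · simp [PV, Matrix.mulVec, dotProduct, Fin.sum_univ_two, Dt]
    ring
  · simp [PV, Matrix.mulVec, dotProduct, Fin.sum_univ_two, Dt]
    ring

theorem PV_inv_mulVec (a v : V2) : ((PV a)⁻¹).1.mulVec v = v - Dt a v • a := by
  rw [Matrix.SpecialLinearGroup.SL2_inv_expl]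
  ext i
  fin_cases i
  · simp [PV, Matrix.mulVec, dotProduct, Fin.sum_univ_two, Dt]
    ring
  · simp [PV, Matrix.mulVec, dotProduct, Fin.sum_univ_two, Dt]
    ring

theorem memV_PB_true {a v : V2} {x y : VB} (ha : MemV a x) (hv : MemV v y) :
    MemV ((PV a).1.mulVec v) (PB true x y) := by
  rw [PV_mulVec, PB_true]
  exact memV_add hv (memV_smul (memV_Dt ha hv) ha)

theorem memV_PB_false {a v : V2} {x y : VB} (ha : MemV a x) (hv : MemV v y) :
    MemV (((PV a)⁻¹).1.mulVec v) (PB false x y) := by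
  rw [PV_inv_mulVec, PB_false]
  exact memV_sub hv (memV_smul (memV_Dt ha hv) ha)

theorem memV_opB {o c : V2} {x y : VB} (s : Bool) (ho : MemV o x) (hc : MemV c y) :
    MemV (opV s o c) (opB s x y) := by
  unfold opB
  cases s
  · rw [Bool.not_false, PB_true]
    exact memV_add hc (memV_smul (memV_Dt ho hc) ho)
  · rw [Bool.not_true, PB_false]
    exact memV_sub hc (memV_smul (memV_Dt ho hc) ho)

end TorMut
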