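import Pool.Agent.Lib.MP_407fc5_gt.TDefs

/-!
# T02: general lemmas on `run` (about 50 minutes)

All by induction on the word, with `k` and the list of colours general.
* `run_map`: a group homomorphism commutes with `run` (`List.map_take`, `List.getD_map` with
  `f 1 = 1`, `map_mul`, `map_inv`).
* `run_relators`: apply `run_map` to `foxHom Φ z` and to `gen D` (for `k < births D` the image of
  `gen D k` is `⟨Φ k, z k⟩`, otherwise `1`).
* `run_sub`: if a homomorphism `f : LinkGroup D →* H` is given, the relators are killed.
* `lift_run`: the converse: if all relators become `1` there is a homomorphism.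
-/

namespace TorMut

open Matrix

variable {G H : Type*} [Group G] [Group H]

lemma map_getD (f : G →* H) (s : List G) (i : ℕ) : (s.map f).getD i 1 = f (s.getD i 1) := by
  rw [List.getD_eq_getElem?_getD, List.getD_eq_getElem?_getD, List.getElem?_map]
  cases s[i]? with
  | none => simp
  | some a => simp

theorem run_map (f : G →* H) (g : ℕ → G) (k : ℕ) (s : List G) (w : Word) :
    run (fun n => f (g n)) k (s.map f) w = ((run g k s w).1.map f, (run g k s w).2.map f) := by
  induction w generalizing k s with
  | nil => simp [run]
  | cons l w ih =>
    cases l with
    | birth i =>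
      simp only [run]
      rw [← ih]
      simp
    | death i =>
      simp only [run]
      have h := ih k (s.take i ++ s.drop (i + 2))
      simp only [List.map_append, List.map_take, List.map_drop] at h
      rw [h, map_getD, map_getD, List.map_cons, map_mul]
    | cross i b =>
      cases b <;>
      · simp only [run]
        rw [← ih]
        simp only [map_getD, List.map_append, List.map_take, List.map_drop, List.map_cons,
          List.map_nil, map_mul, map_inv]

lemma births_append (u v : Word) : births (u ++ v) = births u + births v := by
  induction u with
  | nil => simp [births]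
  | cons l u ih =>
    cases l <;> simp [births, ih]; omega

theorem run_append (g : ℕ → G) (k : ℕ) (s : List G) (u v : Word) :
    run g k s (u ++ v) = ((run g (k + births u) (run g k s u).1 v).1,
      (run g k s u).2 ++ (run g (k + births u) (run g k s u).1 v).2) := by
  induction u generalizing k s with
  | nil => simp [run, births]
  | cons l u ih =>
    cases l with
    | birth i =>
      simp only [List.cons_append, run, births]
      rw [ih, show k + 1 + births u = k + (births u + 1) by omega]
    | death i =>
      simp only [List.cons_append, run, births]
      rw [ih]
    | cross i b =>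
      cases b <;>
      · simp only [List.cons_append, run, births]
        rw [ih]

theorem run_congr (g g' : ℕ → G) (k : ℕ) (s : List G) (w : Word)
    (h : ∀ n, k ≤ n → n < k + births w → g n = g' n) : run g k s w = run g' k s w := by
  induction w generalizing k s with
  | nil => simp [run]
  | cons l w ih =>
    cases l with
    | birth i =>
      simp only [run]
      simp only [births] at h
      rw [h k le_rfl (by omega)]
      exact ih _ _ fun n h1 h2 => h n (by omega) (by omega)
    | death i =>
      simp only [run]
      simp only [births] at h
      rw [ih _ _ h]
    | cross i b =>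
      simp only [births] at h
      cases b <;>
      · simp only [run]
        rw [ih _ _ h]

theorem run_length (g : ℕ → G) (k : ℕ) (s : List G) (w : Word) (h : OK s.length w) :
    (run g k s w).1.length = width s.length w := by
  induction w generalizing k s with
  | nil => simp [run, width]
  | cons l w ih =>
    obtain ⟨h1, h2⟩ := h
    cases l with
    | birth i =>
      simp only [Layer.ok, Layer.out] at h1 h2
      simp only [run, width, Layer.out]
      have e : (s.take i ++ [g k, (g k)⁻¹] ++ s.drop i).length = s.length + 2 := by
        simp; omega
      rw [ih _ _ (by rw [e]; exact h2), e]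
    | death i =>
      simp only [Layer.ok, Layer.out] at h1 h2
      simp only [run, width, Layer.out]
      have e : (s.take i ++ s.drop (i + 2)).length = s.length - 2 := by
        simp; omega
      rw [ih _ _ (by rw [e]; exact h2), e]
    | cross i b =>
      simp only [Layer.ok, Layer.out] at h1 h2
      cases b
      · simp only [run, width, Layer.out]
        have e : (s.take i ++ [s.getD i 1 * s.getD (i + 1) 1 * (s.getD i 1)⁻¹, s.getD i 1]
            ++ s.drop (i + 2)).length = s.length := by
          simp; omega
        rw [ih _ _ (by rw [e]; exact h2), e]
      · simp only [run, width, Layer.out]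
        have e : (s.take i ++ [s.getD (i + 1) 1,
            (s.getD (i + 1) 1)⁻¹ * s.getD i 1 * s.getD (i + 1) 1] ++ s.drop (i + 2)).length =
            s.length := by
          simp; omega
        rw [ih _ _ (by rw [e]; exact h2), e]

theorem run_relators {F : Type*} [Field F] (D : Word) (Φ : Fin (births D) → GL (Fin 2) F)
    (z : Fin (births D) → Fin 2 → F) :
    (relators D).map (foxHom Φ z) =
      (run (fun k => if h : k < births D then (⟨Φ ⟨k, h⟩, z ⟨k, h⟩⟩ : Aff F) else 1) 0 [] D).2 := by
  have h := run_map (foxHom Φ z) (gen D) 0 [] D
  have h1 : (fun n => foxHom Φ z (gen D n)) =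
      fun k => if h : k < births D then (⟨Φ ⟨k, h⟩, z ⟨k, h⟩⟩ : Aff F) else 1 := by
    funext n
    unfold gen
    split_ifs with hn
    · simp [foxHom]
    · simp
  rw [h1] at h
  simp only [List.map_nil] at h
  rw [h, relators]

/-- the relators hold in the link group, hence in every homomorphic image -/
theorem run_eq_one (D : Word) (f : LinkGroup D →* H) (r : H)
    (h : r ∈ (run (fun k => f (mer D k)) 0 [] D).2) : r = 1 := by
  have h0 := run_map (f.comp (PresentedGroup.mk {r | r ∈ relators D})) (gen D) 0 [] D
  simp only [List.map_nil, MonoidHom.comp_apply] at h0
  change run (fun k => f (mer D k)) 0 [] D = _ at h0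
  rw [h0] at h
  obtain ⟨q, hq, rfl⟩ := List.mem_map.1 h
  have : PresentedGroup.mk {r | r ∈ relators D} q = 1 := by
    rw [PresentedGroup.mk_eq_one_iff]
    exact Subgroup.subset_normalClosure hq
  rw [MonoidHom.comp_apply, this, map_one]

/-- homomorphisms from the link group -/
theorem exists_hom (D : Word) (g : ℕ → H) (h : ∀ r ∈ (run g 0 [] D).2, r = 1) :
    ∃ f : LinkGroup D →* H, ∀ k, k < births D → f (mer D k) = g k := by
  have h0 := run_map (FreeGroup.lift fun k : Fin (births D) => g k) (gen D) 0 [] D
  simp only [List.map_nil] at h0
  have h1 : run (fun n => (FreeGroup.lift fun k : Fin (births D) => g k) (gen D n)) 0 [] D =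
      run g 0 [] D := by
    apply run_congr
    intro n _ hn
    have hn' : n < births D := by omega
    simp [gen, hn']
  rw [h1] at h0
  have h2 : ∀ r ∈ {r | r ∈ relators D}, FreeGroup.lift (fun k : Fin (births D) => g k) r = 1 := by
    intro r hr
    apply h
    rw [h0]
    exact List.mem_map.2 ⟨r, hr, rfl⟩
  refine ⟨PresentedGroup.toGroup h2, ?_⟩
  intro k hk
  simp only [mer, gen, hk, dif_pos]
  exact PresentedGroup.toGroup.of h2

end TorMut
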