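import Pool.Agent.Lib.MP_407fc5_gt.FDefs
import Pool.Agent.Lib.MP_407fc5_gt.T02

/-!
# F01: colours in terms of arcs (about 60 minutes)

Induction on the word.  In `run` the left strand of the maximum number `k` has the colour
`g k = col X (n, σ k)`, the right one `(g k)⁻¹ = col X (n, !σ k)` (`X n = ori σ g k`); at a crossing
`true` the new strand has the colour `x⁻¹ y x` with `x = col X (o, so)`, `y = col X (c, sc)`, which is
`col X (n, sc)` for `X n = opG so (X o) (X c)`; at a crossing `false` it is `x y x⁻¹`, and
`X n = opG (!so) (X o) (X c)`.  The condition `OK` makes `getD` independent of the default value.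
-/

namespace TorMut

variable {G : Type*} [Group G]

theorem F01_getD (X : ℕ → G) (st : List SA) (i : ℕ) (h : i < st.length) :
    (st.map (col X)).getD i 1 = col X (st.getD i sa0) := by
  rw [List.getD_eq_getElem _ _ (by rw [List.length_map]; exact h), List.getD_eq_getElem _ _ h,
    List.getElem_map]

theorem F01_birth (σ : ℕ → Bool) (g X : ℕ → G) (n k : ℕ) (h : X n = ori σ g k) :
    col X (n, σ k) = g k ∧ col X (n, !σ k) = (g k)⁻¹ := by
  unfold ori at h
  unfold col
  cases hs : σ k <;> simp [hs] at h ⊢ <;> simp [h]

theorem F01_true (X : ℕ → G) (n o c : ℕ) (so sc : Bool) (h : X n = opG so (X o) (X c)) :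
    col X (n, sc) = (col X (o, so))⁻¹ * col X (c, sc) * col X (o, so) := by
  unfold opG at h
  unfold col
  cases so <;> cases sc <;> simp at h ⊢ <;> rw [h] <;> group

theorem F01_false (X : ℕ → G) (n o c : ℕ) (so sc : Bool) (h : X n = opG (!so) (X o) (X c)) :
    col X (n, sc) = col X (o, so) * col X (c, sc) * (col X (o, so))⁻¹ := by
  unfold opG at h
  unfold col
  cases so <;> cases sc <;> simp at h ⊢ <;> rw [h] <;> group

theorem run_frun (σ : ℕ → Bool) (g X : ℕ → G) (n k : ℕ) (st : List SA) (w : Word)
    (hok : OK st.length w)
    (hX : ∀ (j : ℕ) (r : Arc), (arcRun σ n k st w).2.1[j]? = some r →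
      X (n + j) = r.eval opG (ori σ g) X) :
    run g k (st.map (col X)) w =
      ((arcRun σ n k st w).1.map (col X),
        (arcRun σ n k st w).2.2.map fun c => col X c.1 * col X c.2) := by
  induction w generalizing n k st with
  | nil => simp [run, arcRun]
  | cons l w ih =>
    obtain ⟨h1, h2⟩ := hok
    cases l with
    | birth i =>
      simp only [Layer.ok, Layer.out] at h1 h2
      have hX0 := hX 0 (.born k) (by simp [arcRun])
      obtain ⟨e1, e2⟩ := F01_birth σ g X n k hX0
      have hlen : (st.take i ++ [(n, σ k), (n, !σ k)] ++ st.drop i).length = st.length + 2 := by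
        simp; omega
      have hi := ih (n + 1) (k + 1) (st.take i ++ [(n, σ k), (n, !σ k)] ++ st.drop i)
        (by rw [hlen]; exact h2) (by
          intro j r hj
          have := hX (j + 1) r (by
            rw [arcRun, List.getElem?_cons_succ]
            exact hj)
          rwa [show n + (j + 1) = n + 1 + j by omega] at this)
      have e3 : (st.take i ++ [(n, σ k), (n, !σ k)] ++ st.drop i).map (col X) =
          (st.map (col X)).take i ++ [g k, (g k)⁻¹] ++ (st.map (col X)).drop i := by
        rw [List.map_append, List.map_append, List.map_take, List.map_drop, List.map_cons,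
          List.map_cons, List.map_nil, e1, e2]
      rw [e3] at hi
      rw [run, hi, arcRun]
    | death i =>
      simp only [Layer.ok, Layer.out] at h1 h2
      have hlen : (st.take i ++ st.drop (i + 2)).length = st.length - 2 := by
        simp; omega
      have hi := ih n k (st.take i ++ st.drop (i + 2)) (by rw [hlen]; exact h2) (by
          intro j r hj
          exact hX j r (by
            rw [arcRun]
            exact hj))
      have e3 : (st.take i ++ st.drop (i + 2)).map (col X) =
          (st.map (col X)).take i ++ (st.map (col X)).drop (i + 2) := by
        rw [List.map_append, List.map_take, List.map_drop]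
      rw [e3] at hi
      rw [run, hi, arcRun, F01_getD X st i (by omega), F01_getD X st (i + 1) (by omega),
        List.map_cons]
    | cross i b =>
      simp only [Layer.ok, Layer.out] at h1 h2
      have g1 := F01_getD X st i (by omega)
      have g2 := F01_getD X st (i + 1) (by omega)
      cases b with
      | true =>
        have hX0 := hX 0 (.cross (st.getD (i + 1) sa0).1 (st.getD (i + 1) sa0).2
          (st.getD i sa0).1) (by simp [arcRun])
        have e1 := F01_true X n (st.getD (i + 1) sa0).1 (st.getD i sa0).1
          (st.getD (i + 1) sa0).2 (st.getD i sa0).2 hX0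
        have hlen : (st.take i ++ [st.getD (i + 1) sa0, (n, (st.getD i sa0).2)]
            ++ st.drop (i + 2)).length = st.length := by
          simp; omega
        have hi := ih (n + 1) k (st.take i ++ [st.getD (i + 1) sa0, (n, (st.getD i sa0).2)]
            ++ st.drop (i + 2)) (by rw [hlen]; exact h2) (by
          intro j r hj
          have := hX (j + 1) r (by
            rw [arcRun, List.getElem?_cons_succ]
            exact hj)
          rwa [show n + (j + 1) = n + 1 + j by omega] at this)
        have e3 : (st.take i ++ [st.getD (i + 1) sa0, (n, (st.getD i sa0).2)]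
            ++ st.drop (i + 2)).map (col X) =
            (st.map (col X)).take i ++ [(st.map (col X)).getD (i + 1) 1,
              ((st.map (col X)).getD (i + 1) 1)⁻¹ * (st.map (col X)).getD i 1 *
                (st.map (col X)).getD (i + 1) 1] ++ (st.map (col X)).drop (i + 2) := by
          rw [List.map_append, List.map_append, List.map_take, List.map_drop, List.map_cons,
            List.map_cons, List.map_nil, g1, g2, e1]
        rw [e3] at hi
        rw [run, hi, arcRun]
      | false =>
        have hX0 := hX 0 (.cross (st.getD i sa0).1 (!(st.getD i sa0).2)
          (st.getD (i + 1) sa0).1) (by simp [arcRun])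
        have e1 := F01_false X n (st.getD i sa0).1 (st.getD (i + 1) sa0).1
          (st.getD i sa0).2 (st.getD (i + 1) sa0).2 hX0
        have hlen : (st.take i ++ [(n, (st.getD (i + 1) sa0).2), st.getD i sa0]
            ++ st.drop (i + 2)).length = st.length := by
          simp; omega
        have hi := ih (n + 1) k (st.take i ++ [(n, (st.getD (i + 1) sa0).2), st.getD i sa0]
            ++ st.drop (i + 2)) (by rw [hlen]; exact h2) (by
          intro j r hj
          have := hX (j + 1) r (by
            rw [arcRun, List.getElem?_cons_succ]
            exact hj)
          rwa [show n + (j + 1) = n + 1 + j by omega] at this)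
        have e3 : (st.take i ++ [(n, (st.getD (i + 1) sa0).2), st.getD i sa0]
            ++ st.drop (i + 2)).map (col X) =
            (st.map (col X)).take i ++ [(st.map (col X)).getD i 1 *
              (st.map (col X)).getD (i + 1) 1 * ((st.map (col X)).getD i 1)⁻¹,
                (st.map (col X)).getD i 1] ++ (st.map (col X)).drop (i + 2) := by
          rw [List.map_append, List.map_append, List.map_take, List.map_drop, List.map_cons,
            List.map_cons, List.map_nil, g1, g2, e1]
        rw [e3] at hi
        rw [run, hi, arcRun]

theorem F01_OK (w : Word) : ∀ (m L : ℕ), OK m w → OK m (w.take L) := by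
  induction w with
  | nil => intro m L _; simp [OK]
  | cons l w ih =>
    intro m L h
    cases L with
    | zero => simp [OK]
    | succ L =>
      rw [List.take_succ_cons]
      exact ⟨h.1, ih _ L h.2⟩

theorem F01_prefix (σ : ℕ → Bool) (w : Word) : ∀ (n k : ℕ) (st : List SA) (L j : ℕ) (r : Arc),
    (arcRun σ n k st (w.take L)).2.1[j]? = some r → (arcRun σ n k st w).2.1[j]? = some r := by
  induction w with
  | nil => intro n k st L j r h; simpa using h
  | cons l w ih =>
    intro n k st L j r h
    cases L with
    | zero => simp [arcRun] at h
    | succ L =>
      rw [List.take_succ_cons] at h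
      cases l with
      | birth i =>
        rw [arcRun] at h ⊢
        cases j with
        | zero => simpa using h
        | succ j =>
          rw [List.getElem?_cons_succ] at h ⊢
          exact ih _ _ _ L j r h
      | death i =>
        rw [arcRun] at h ⊢
        exact ih _ _ _ L j r h
      | cross i b =>
        cases b with
        | true =>
          rw [arcRun] at h ⊢
          cases j with
          | zero => simpa using h
          | succ j =>
            rw [List.getElem?_cons_succ] at h ⊢
            exact ih _ _ _ L j r h
        | false =>
          rw [arcRun] at h ⊢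
          cases j with
          | zero => simpa using h
          | succ j =>
            rw [List.getElem?_cons_succ] at h ⊢
            exact ih _ _ _ L j r h

/-- strands below a prefix of the word -/
theorem run_frun_take (σ : ℕ → Bool) (g X : ℕ → G) (w : Word) (hok : OK 0 w) (L : ℕ)
    (hX : IsSol opG (ori σ g) (arcRun σ 0 0 [] w).2.1 X) :
    (run g 0 [] (w.take L)).1 = (arcRun σ 0 0 [] (w.take L)).1.map (col X) := by
  have h := run_frun σ g X 0 0 [] (w.take L) (F01_OK w 0 L hok) (by
    intro j r hj
    rw [Nat.zero_add]
    exact hX j r (F01_prefix σ w 0 0 [] L j r hj))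
  rw [List.map_nil] at h
  rw [h]

end TorMut
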