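import Pool.Agent.Lib.MP_407fc5_gt.PDefs

/-!
# MP_407fc5_gt, part B: ball arithmetic (definitions)

A ball `b : CB` has the midpoint `(b.re + b.im i) / 2 ^ sc` and the radius `b.rad / 2 ^ sc`; the
predicate `Mem x b` says that the complex number `x` lies in the closed ball.  All functions are
evaluated by the kernel; `fN`, `fI`, `fC`, `fV` only force the evaluation of their first argument
(`fC b k = k b`).
-/

namespace TorMut



/-- number of bits after the point -/
def sc : ℕ := 800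

/-- balls -/
structure CB where
  re : Int
  im : Int
  rad : Nat

/-! ### forcing evaluation -/

def fN {α : Type*} (n : Nat) (k : Nat → α) : α :=
  match n with
  | 0 => k 0
  | m + 1 => k (m + 1)

def fI {α : Type*} (n : Int) (k : Int → α) : α :=
  match n with
  | Int.ofNat m => fN m fun m => k (Int.ofNat m)
  | Int.negSucc m => fN m fun m => k (Int.negSucc m)

def fC {α : Type*} (b : CB) (k : CB → α) : α :=
  match b with
  | ⟨re, im, rad⟩ => fI re fun re => fI im fun im => fN rad fun rad => k ⟨re, im, rad⟩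

/-! ### arithmetic -/

namespace CB

/-- midpoint times `2 ^ sc` -/
noncomputable def val (b : CB) : ℂ := ⟨(b.re : ℝ), (b.im : ℝ)⟩

/-- the dyadic number `(x + y i) / 2 ^ sc` -/
def exact (x y : Int) : CB := ⟨x, y, 0⟩

def zero : CB := ⟨0, 0, 0⟩

def one : CB := ⟨Int.ofNat (Nat.pow 2 sc), 0, 0⟩

def add : CB → CB → CB
  | ⟨a, b, r⟩, ⟨c, d, s⟩ => ⟨Int.add a c, Int.add b d, Nat.add r s⟩

def neg : CB → CB
  | ⟨a, b, r⟩ => ⟨Int.neg a, Int.neg b, r⟩

def sub : CB → CB → CB
  | ⟨a, b, r⟩, ⟨c, d, s⟩ => ⟨Int.sub a c, Int.sub b d, Nat.add r s⟩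

def cj : CB → CB
  | ⟨a, b, r⟩ => ⟨a, Int.neg b, r⟩

/-- upper bound for the modulus of the midpoint times `2 ^ sc` -/
def ab : CB → Nat
  | ⟨a, b, _⟩ => Nat.add (Int.natAbs a) (Int.natAbs b)

def mul (x y : CB) : CB :=
  match x, y with
  | ⟨a, b, r⟩, ⟨c, d, s⟩ =>
    ⟨Int.shiftRight (Int.sub (Int.mul a c) (Int.mul b d)) sc,
     Int.shiftRight (Int.add (Int.mul a d) (Int.mul b c)) sc,
     Nat.add (Nat.shiftRight (Nat.add (Nat.add
       (Nat.mul (Nat.add (Int.natAbs a) (Int.natAbs b)) s)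
       (Nat.mul (Nat.add (Int.natAbs c) (Int.natAbs d)) r)) (Nat.mul r s)) sc) 3⟩

/-- upper bound for the modulus times `2 ^ sc` -/
def up (x : CB) : Nat := Nat.add (ab x) x.rad

/-- `0 < Re` for all elements of the ball -/
def rePos : CB → Bool
  | ⟨Int.ofNat a, _, r⟩ => Nat.ble (Nat.succ r) a
  | ⟨Int.negSucc _, _, _⟩ => false

/-- `0 < Im` for all elements of the ball -/
def imPos : CB → Bool
  | ⟨_, Int.ofNat a, r⟩ => Nat.ble (Nat.succ r) a
  | ⟨_, Int.negSucc _, _⟩ => false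

/-- `Im < 0` for all elements of the ball -/
def imNeg (x : CB) : Bool := imPos (neg x)

/-- `Re < 0` for all elements of the ball -/
def reNeg (x : CB) : Bool := rePos (neg x)

/-- no element of the ball is `0` -/
def ne0 (x : CB) : Bool := rePos x || reNeg x || imPos x || imNeg x

/-- the inverse; `w` is an approximation of the inverse (without radius) -/
def inv (x w : CB) : CB :=
  ⟨w.re, w.im, Nat.add (Nat.shiftRight (Nat.mul 2 (Nat.mul (ab w)
    (up (sub one (mul x ⟨w.re, w.im, 0⟩))))) sc) 1⟩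

/-- the check needed for `inv` -/
def invOK (x w : CB) : Bool :=
  Nat.ble (Nat.mul 2 (up (sub one (mul x ⟨w.re, w.im, 0⟩)))) (Nat.pow 2 sc)

end CB

/-- `x` lies in the ball `b` -/
def Mem (x : ℂ) (b : CB) : Prop := ‖x * 2 ^ sc - b.val‖ ≤ (b.rad : ℝ)

/-! ### vectors -/

/-- balls for vectors of `ℂ²` -/
abbrev VB := CB × CB

def MemV (u : Tile.V2) (b : VB) : Prop := Mem (u 0) b.1 ∧ Mem (u 1) b.2

def fV {α : Type*} (b : VB) (k : VB → α) : α :=
  match b with
  | ⟨x, y⟩ => fC x fun x => fC y fun y => k (x, y)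

/-- determinant -/
def DtB (u v : VB) : CB :=
  match u, v with
  | ⟨u0, u1⟩, ⟨v0, v1⟩ => CB.sub (CB.mul u0 v1) (CB.mul u1 v0)

def addV : VB → VB → VB
  | ⟨u0, u1⟩, ⟨v0, v1⟩ => (CB.add u0 v0, CB.add u1 v1)

def subV : VB → VB → VB
  | ⟨u0, u1⟩, ⟨v0, v1⟩ => (CB.sub u0 v0, CB.sub u1 v1)

def smulV (d : CB) : VB → VB
  | ⟨v0, v1⟩ => (CB.mul d v0, CB.mul d v1)

/-- the parabolic element `v ↦ v + Dt(a, v) a` (`s = true`) or its inverse (`s = false`) -/
def PB (s : Bool) (a v : VB) : VB :=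
  fC (DtB a v) fun d =>
    match s with
    | true => addV v (smulV d a)
    | false => subV v (smulV d a)

/-- the parabolic element `v ↦ v + Dt(a, v) a` of `SL(2, ℂ)` -/
noncomputable def PV (a : Tile.V2) : Matrix.SpecialLinearGroup (Fin 2) ℂ :=
  ⟨!![1 - a 0 * a 1, a 0 ^ 2; -(a 1) ^ 2, 1 + a 0 * a 1], by
    rw [Matrix.det_fin_two_of]; ring⟩

/-- the operation of the conjugation quandle on spinors:
`PV (opV true o c) = (PV o)⁻¹ * PV c * PV o`, `PV (opV false o c) = PV o * PV c * (PV o)⁻¹` -/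
noncomputable def opV (s : Bool) (o c : Tile.V2) : Tile.V2 :=
  match s with
  | true => fun i => c i - Tile.Dt o c * o i
  | false => fun i => c i + Tile.Dt o c * o i

/-- the same for balls -/
def opB (s : Bool) (o c : VB) : VB := PB (!s) o c

end TorMut
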