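import Pool.Agent.Lib.MP_407fc5_gt.TDefs
import Pool.Agent.Lib.MP_407fc5_gt.BDefs

/-!
# MP_407fc5_gt, part F: arcs of a diagram (definitions)

The arcs of the diagram (pieces which end at undercrossings, local minima, or begin at local maxima)
are numbered in the order of their appearance from top to bottom.  A strand of a diagram is a signed
arc `(f, s)`; if `X f` is the meridian of the arc `f` with respect to an orientation of the knot, then
the colour of the strand is `X f` for `s = true` and `(X f)⁻¹` for `s = false`.
-/

namespace TorMut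

/-- signed arcs -/
abbrev SA := ℕ × Bool

/-- how an arc begins: at the local maximum number `k`, or below a crossing, `X = o⁻¹ c o` for
`s = true` and `X = o c o⁻¹` for `s = false` -/
inductive Arc where
  | born (k : ℕ)
  | cross (o : ℕ) (s : Bool) (c : ℕ)
deriving DecidableEq

/-- default strand -/
def sa0 : SA := (0, true)

/-- run down a word: strands below the word, list of new arcs, pairs of strands joined by the local
minima; `n` is the number of the next arc, `k` the number of the next maximum -/
def arcRun (σ : ℕ → Bool) : ℕ → ℕ → List SA → Word → List SA × List Arc × List (SA × SA)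
  | _, _, st, [] => (st, [], [])
  | n, k, st, .birth i :: w =>
    ((arcRun σ (n + 1) (k + 1) (st.take i ++ [(n, σ k), (n, !σ k)] ++ st.drop i) w).1,
      .born k :: (arcRun σ (n + 1) (k + 1) (st.take i ++ [(n, σ k), (n, !σ k)] ++ st.drop i) w).2.1,
      (arcRun σ (n + 1) (k + 1) (st.take i ++ [(n, σ k), (n, !σ k)] ++ st.drop i) w).2.2)
  | n, k, st, .death i :: w =>
    ((arcRun σ n k (st.take i ++ st.drop (i + 2)) w).1,
      (arcRun σ n k (st.take i ++ st.drop (i + 2)) w).2.1,
      (st.getD i sa0, st.getD (i + 1) sa0) :: (arcRun σ n k (st.take i ++ st.drop (i + 2)) w).2.2)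
  | n, k, st, .cross i true :: w =>
    ((arcRun σ (n + 1) k (st.take i ++ [st.getD (i + 1) sa0, (n, (st.getD i sa0).2)]
        ++ st.drop (i + 2)) w).1,
      .cross (st.getD (i + 1) sa0).1 (st.getD (i + 1) sa0).2 (st.getD i sa0).1 ::
        (arcRun σ (n + 1) k (st.take i ++ [st.getD (i + 1) sa0, (n, (st.getD i sa0).2)]
        ++ st.drop (i + 2)) w).2.1,
      (arcRun σ (n + 1) k (st.take i ++ [st.getD (i + 1) sa0, (n, (st.getD i sa0).2)]
        ++ st.drop (i + 2)) w).2.2)
  | n, k, st, .cross i false :: w =>
    ((arcRun σ (n + 1) k (st.take i ++ [(n, (st.getD (i + 1) sa0).2), st.getD i sa0]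
        ++ st.drop (i + 2)) w).1,
      .cross (st.getD i sa0).1 (!(st.getD i sa0).2) (st.getD (i + 1) sa0).1 ::
        (arcRun σ (n + 1) k (st.take i ++ [(n, (st.getD (i + 1) sa0).2), st.getD i sa0]
        ++ st.drop (i + 2)) w).2.1,
      (arcRun σ (n + 1) k (st.take i ++ [(n, (st.getD (i + 1) sa0).2), st.getD i sa0]
        ++ st.drop (i + 2)) w).2.2)

/-- value of an arc -/
def Arc.eval {α : Type*} (op : Bool → α → α → α) (b : ℕ → α) (A : ℕ → α) : Arc → α
  | .born k => b k
  | .cross o s c => op s (A o) (A c)

/-- the arc number `n` uses only previous arcs -/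
def Arc.wf (n : ℕ) : Arc → Bool
  | .born _ => true
  | .cross o _ c => Nat.blt o n && Nat.blt c n

/-- all arcs use only previous arcs; `n` is the number of the first one -/
def wfR : ℕ → List Arc → Bool
  | _, [] => true
  | n, r :: R => r.wf n && wfR (n + 1) R

/-- the values `A f` of the arcs satisfy the equations of the diagram -/
def IsSol {α : Type*} (op : Bool → α → α → α) (b : ℕ → α) (R : List Arc) (A : ℕ → α) : Prop :=
  ∀ (f : ℕ) (r : Arc), R[f]? = some r → A f = r.eval op b A

/-- the conjugation quandle -/
def opG {G : Type*} [Group G] (s : Bool) (o c : G) : G :=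
  match s with
  | true => o⁻¹ * c * o
  | false => o * c * o⁻¹

/-- colour of a strand -/
def col {G : Type*} [Group G] (X : ℕ → G) (a : SA) : G :=
  match a.2 with
  | true => X a.1
  | false => (X a.1)⁻¹

/-- meridians at the maxima, with the orientation of the knot -/
def ori {G : Type*} [Group G] (σ : ℕ → Bool) (g : ℕ → G) (k : ℕ) : G :=
  match σ k with
  | true => g k
  | false => (g k)⁻¹

/-- signs of the left strands of the five maxima -/
def sg : ℕ → Bool
  | 0 => true
  | 1 => false
  | 2 => false
  | 3 => true
  | _ => false

/-- evaluation of all arcs; the newest arc is the head of the list, `n` is the length of the list;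
`frc` forces the evaluation -/
def evalR {β : Type*} (frc : β → (β → List β) → List β) (op : Bool → β → β → β) (b : ℕ → β)
    (d : β) : List Arc → ℕ → List β → List β
  | [], _, acc => acc
  | .born k :: R, n, acc => frc (b k) fun x => evalR frc op b d R (n + 1) (x :: acc)
  | .cross o s c :: R, n, acc =>
    frc (op s (acc.getD (Nat.sub (Nat.sub n 1) o) d) (acc.getD (Nat.sub (Nat.sub n 1) c) d))
      fun x => evalR frc op b d R (n + 1) (x :: acc)

/-- the arcs of the first knot -/
def R₁ : List Arc := (arcRun sg 0 0 [] D₁).2.1

/-- the arcs of the second knot -/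
def R₂ : List Arc := (arcRun sg 0 0 [] D₂).2.1

end TorMut
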