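import Pool.Agent.Lib.MP_407fc5_gt.PDefs

/-!
# P01: algebra of `Dt`, `B`, `hact`, `Lf`
-/

namespace TorMut.Tile

open Matrix MatrixGroups ComplexConjugate

lemma p01_nsq (z : ℂ) : ((Complex.normSq z : ℝ) : ℂ) = z * conj z := (Complex.mul_conj z).symm

lemma p01_two_re (z : ℂ) : ((2 * z.re : ℝ) : ℂ) = z + conj z := (Complex.add_conj z).symm

lemma p01_im_eq {z w : ℂ} (h : z - conj z = w - conj w) : z.im = w.im := by
  rw [Complex.sub_conj, Complex.sub_conj] at h
  have h1 := congrArg Complex.im h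
  simp at h1
  exact h1

lemma p01_det (g : SL(2, ℂ)) : g.1 0 0 * g.1 1 1 - g.1 0 1 * g.1 1 0 = 1 := by
  rw [← Matrix.det_fin_two]
  exact g.2

lemma p01_mv0 (g : SL(2, ℂ)) (u : V2) : g.1.mulVec u 0 = g.1 0 0 * u 0 + g.1 0 1 * u 1 := by
  simp [Matrix.mulVec, dotProduct, Fin.sum_univ_two]

lemma p01_mv1 (g : SL(2, ℂ)) (u : V2) : g.1.mulVec u 1 = g.1 1 0 * u 0 + g.1 1 1 * u 1 := by
  simp [Matrix.mulVec, dotProduct, Fin.sum_univ_two]

lemma p01_act1 (g : SL(2, ℂ)) (P : Herm) : (((hact g P).1 : ℝ) : ℂ) =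
    g.1 0 0 * conj (g.1 0 0) * P.1 + g.1 0 0 * conj (g.1 0 1) * P.2.2 +
      conj (g.1 0 0) * g.1 0 1 * conj P.2.2 + g.1 0 1 * conj (g.1 0 1) * P.2.1 := by
  simp only [hact]
  push_cast
  rw [p01_nsq, p01_nsq]
  have h := p01_two_re (g.1 0 0 * conj (g.1 0 1) * P.2.2)
  push_cast at h
  rw [h]
  simp only [map_mul, Complex.conj_conj]
  ring

lemma p01_act2 (g : SL(2, ℂ)) (P : Herm) : (((hact g P).2.1 : ℝ) : ℂ) =
    g.1 1 0 * conj (g.1 1 0) * P.1 + g.1 1 0 * conj (g.1 1 1) * P.2.2 +
      conj (g.1 1 0) * g.1 1 1 * conj P.2.2 + g.1 1 1 * conj (g.1 1 1) * P.2.1 := by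
  simp only [hact]
  push_cast
  rw [p01_nsq, p01_nsq]
  have h := p01_two_re (g.1 1 0 * conj (g.1 1 1) * P.2.2)
  push_cast at h
  rw [h]
  simp only [map_mul, Complex.conj_conj]
  ring

lemma p01_act3 (g : SL(2, ℂ)) (P : Herm) : (hact g P).2.2 =
    g.1 0 0 * conj (g.1 1 0) * P.1 + g.1 0 0 * conj (g.1 1 1) * P.2.2 +
      g.1 0 1 * conj (g.1 1 0) * conj P.2.2 + g.1 0 1 * conj (g.1 1 1) * P.2.1 := rfl

lemma p01_ext {P Q : Herm} (h1 : ((P.1 : ℝ) : ℂ) = Q.1) (h2 : ((P.2.1 : ℝ) : ℂ) = Q.2.1)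
    (h3 : P.2.2 = Q.2.2) : P = Q :=
  Prod.ext (Complex.ofReal_injective h1) (Prod.ext (Complex.ofReal_injective h2) h3)

lemma B_N (x u v : V2) : B (N x) u v = Dt u x * conj (Dt v x) := by
  simp only [B, N, Dt, p01_nsq, map_sub, map_mul, Complex.conj_conj]
  ring

lemma B_conj (P : Herm) (u v : V2) : B P v u = conj (B P u v) := by
  simp only [B, map_sub, map_add, map_mul, Complex.conj_conj, Complex.conj_ofReal]
  ring

lemma Dt_act (g : SL(2, ℂ)) (u v : V2) : Dt (g.1.mulVec u) (g.1.mulVec v) = Dt u v := by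
  simp only [Dt, p01_mv0, p01_mv1]
  linear_combination (u 0 * v 1 - u 1 * v 0) * p01_det g

lemma hact_N (g : SL(2, ℂ)) (u : V2) : hact g (N u) = N (g.1.mulVec u) := by
  apply p01_ext
  · rw [p01_act1]
    simp only [N, p01_nsq, p01_mv0, map_add, map_mul, Complex.conj_conj]
    ring
  · rw [p01_act2]
    simp only [N, p01_nsq, p01_mv1, map_add, map_mul, Complex.conj_conj]
    ring
  · rw [p01_act3]
    simp only [N, p01_nsq, p01_mv0, p01_mv1, map_add, map_mul, Complex.conj_conj]
    ring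

lemma N_neg (u : V2) : N (-u) = N u := by
  simp [N]

lemma B_act (g : SL(2, ℂ)) (P : Herm) (u v : V2) :
    B (hact g P) (g.1.mulVec u) (g.1.mulVec v) = B P u v := by
  have h1 := p01_det g
  have h2 := congrArg conj h1
  simp only [map_sub, map_mul, map_one] at h2
  simp only [B, p01_act1, p01_act2, p01_act3, p01_mv0, p01_mv1, map_add, map_mul,
    Complex.conj_conj, Complex.conj_ofReal]
  linear_combination
    (P.1 * u 1 * conj (v 1) - P.2.2 * u 1 * conj (v 0) - conj P.2.2 * u 0 * conj (v 1)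
      + P.2.1 * u 0 * conj (v 0)) *
      ((conj (g.1 0 0) * conj (g.1 1 1) - conj (g.1 0 1) * conj (g.1 1 0)) * h1 + h2)

lemma hact_one (P : Herm) : hact 1 P = P := by
  apply p01_ext
  · rw [p01_act1]; simp
  · rw [p01_act2]; simp
  · rw [p01_act3]; simp

lemma hact_mul (g h : SL(2, ℂ)) (P : Herm) : hact (g * h) P = hact g (hact h P) := by
  have e : ∀ i j, (g * h).1 i j = g.1 i 0 * h.1 0 j + g.1 i 1 * h.1 1 j := by
    intro i j
    change (g.1 * h.1) i j = _
    rw [Matrix.mul_apply, Fin.sum_univ_two]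
  apply p01_ext
  · rw [p01_act1, p01_act1, p01_act1, p01_act2, p01_act3]
    simp only [e, map_add, map_mul, Complex.conj_conj, Complex.conj_ofReal]
    ring
  · rw [p01_act2, p01_act2, p01_act1, p01_act2, p01_act3]
    simp only [e, map_add, map_mul, Complex.conj_conj, Complex.conj_ofReal]
    ring
  · rw [p01_act3, p01_act3, p01_act1, p01_act2, p01_act3]
    simp only [e, map_add, map_mul, Complex.conj_conj, Complex.conj_ofReal]
    ring

lemma hdet_act (g : SL(2, ℂ)) (P : Herm) : hdet (hact g P) = hdet P := by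
  have h1 := p01_det g
  have h2 := congrArg conj h1
  simp only [map_sub, map_mul, map_one] at h2
  apply Complex.ofReal_injective
  simp only [hdet]
  push_cast
  rw [p01_act1, p01_act2, p01_nsq, p01_nsq, p01_act3]
  simp only [map_add, map_mul, Complex.conj_conj, Complex.conj_ofReal]
  linear_combination
    (P.1 * P.2.1 - P.2.2 * conj P.2.2) *
      ((conj (g.1 0 0) * conj (g.1 1 1) - conj (g.1 0 1) * conj (g.1 1 0)) * h1 + h2)

/-- positivity of the form: `B P u u` is real and positive for `u ≠ 0` -/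
lemma B_pos (P : Herm) (hP : Pos P) (u : V2) (hu : u ≠ 0) :
    0 < (B P u u).re ∧ (B P u u).im = 0 := by
  have him : (B P u u).im = 0 := by
    have h := B_conj P u u
    have h1 := congrArg Complex.im h
    rw [Complex.conj_im] at h1
    linarith
  refine ⟨?_, him⟩
  obtain ⟨hp, hd⟩ := hP
  have hkey : P.1 * (B P u u).re = Complex.normSq (P.1 * u 1 - conj P.2.2 * u 0) +
      hdet P * Complex.normSq (u 0) := by
    have h0 : ((B P u u).re : ℂ) = B P u u := by
      apply Complex.ext
      · simp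
      · simp [him]
    apply Complex.ofReal_injective
    push_cast
    rw [h0, p01_nsq, p01_nsq]
    simp only [B, hdet]
    push_cast
    rw [p01_nsq]
    simp only [map_sub, map_mul, Complex.conj_conj, Complex.conj_ofReal]
    ring
  have hpos : 0 < P.1 * (B P u u).re := by
    rw [hkey]
    by_cases h0 : u 0 = 0
    · have h1 : u 1 ≠ 0 := by
        intro h1
        apply hu
        funext i
        fin_cases i
        · exact h0
        · exact h1
      rw [h0, mul_zero, sub_zero, map_zero, mul_zero, add_zero]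
      apply Complex.normSq_pos.2
      exact mul_ne_zero (by exact_mod_cast hp.ne') h1
    · have h1 : 0 < hdet P * Complex.normSq (u 0) := mul_pos hd (Complex.normSq_pos.2 h0)
      have h2 := Complex.normSq_nonneg (P.1 * u 1 - conj P.2.2 * u 0)
      linarith
  exact (mul_pos_iff_of_pos_left hp).1 hpos

lemma Pos_act (g : SL(2, ℂ)) (P : Herm) (hP : Pos P) : Pos (hact g P) := by
  refine ⟨?_, by rw [hdet_act]; exact hP.2⟩
  have h1 := p01_det g
  have hu : (![-g.1 0 1, g.1 0 0] : V2) ≠ 0 := by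
    intro h
    have e0 := congrFun h 0
    have e1 := congrFun h 1
    simp only [Matrix.cons_val_zero, Matrix.cons_val_one, Pi.zero_apply, neg_eq_zero] at e0 e1
    rw [e0, e1] at h1
    simp at h1
  have h2 := (B_pos P hP _ hu).1
  rw [← B_act g P] at h2
  have h3 : g.1.mulVec ![-g.1 0 1, g.1 0 0] = ![0, 1] := by
    funext i
    fin_cases i
    · change g.1.mulVec ![-g.1 0 1, g.1 0 0] 0 = _
      rw [p01_mv0]
      simp only [Matrix.cons_val_zero, Matrix.cons_val_one, Fin.zero_eta]
      ring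
    · change g.1.mulVec ![-g.1 0 1, g.1 0 0] 1 = _
      rw [p01_mv1]
      simp only [Matrix.cons_val_zero, Matrix.cons_val_one, Fin.mk_one]
      linear_combination h1
  rw [h3] at h2
  have h4 : B (hact g P) ![0, 1] ![0, 1] = ((hact g P).1 : ℂ) := by
    simp [B]
  rw [h4, Complex.ofReal_re] at h2
  exact h2

lemma hact_add (g : SL(2, ℂ)) (P Q : Herm) : hact g (P + Q) = hact g P + hact g Q := by
  apply p01_ext
  · rw [Prod.fst_add, Complex.ofReal_add, p01_act1, p01_act1, p01_act1]
    simp only [Prod.fst_add, Prod.snd_add, Complex.ofReal_add, map_add]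
    ring
  · rw [Prod.snd_add, Prod.fst_add, Complex.ofReal_add, p01_act2, p01_act2, p01_act2]
    simp only [Prod.fst_add, Prod.snd_add, Complex.ofReal_add, map_add]
    ring
  · rw [Prod.snd_add, Prod.snd_add, p01_act3, p01_act3, p01_act3]
    simp only [Prod.fst_add, Prod.snd_add, Complex.ofReal_add, map_add]
    ring

lemma hact_smul (g : SL(2, ℂ)) (c : ℝ) (P : Herm) : hact g (c • P) = c • hact g P := by
  apply p01_ext
  · rw [Prod.smul_fst, smul_eq_mul, Complex.ofReal_mul, p01_act1, p01_act1]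
    simp only [Prod.smul_fst, Prod.smul_snd, smul_eq_mul, Complex.real_smul, Complex.ofReal_mul,
      map_mul, Complex.conj_ofReal]
    ring
  · rw [Prod.smul_snd, Prod.smul_fst, smul_eq_mul, Complex.ofReal_mul, p01_act2, p01_act2]
    simp only [Prod.smul_fst, Prod.smul_snd, smul_eq_mul, Complex.real_smul, Complex.ofReal_mul,
      map_mul, Complex.conj_ofReal]
    ring
  · rw [Prod.smul_snd, Prod.smul_snd, Complex.real_smul, p01_act3, p01_act3]
    simp only [Prod.smul_fst, Prod.smul_snd, smul_eq_mul, Complex.real_smul, Complex.ofReal_mul,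
      map_mul, Complex.conj_ofReal]
    ring

lemma p01_B_add (P Q : Herm) (u v : V2) : B (P + Q) u v = B P u v + B Q u v := by
  simp only [B, Prod.fst_add, Prod.snd_add, Complex.ofReal_add, map_add]
  ring

lemma p01_B_smul (r : ℝ) (P : Herm) (u v : V2) : B (r • P) u v = r * B P u v := by
  simp only [B, Prod.smul_fst, Prod.smul_snd, smul_eq_mul, Complex.real_smul, Complex.ofReal_mul,
    map_mul, Complex.conj_ofReal]
  ring

lemma Lf_add (a b c : V2) (P Q : Herm) : Lf a b c (P + Q) = Lf a b c P + Lf a b c Q := by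
  simp only [Lf, p01_B_add, mul_add, Complex.add_im]

lemma Lf_smul (a b c : V2) (r : ℝ) (P : Herm) : Lf a b c (r • P) = r * Lf a b c P := by
  simp only [Lf, p01_B_smul]
  rw [show conj (Dt a c) * Dt b c * (r * B P a b) = r * (conj (Dt a c) * Dt b c * B P a b) by ring,
    Complex.im_ofReal_mul]

lemma Lf_act (g : SL(2, ℂ)) (a b c : V2) (P : Herm) :
    Lf (g.1.mulVec a) (g.1.mulVec b) (g.1.mulVec c) (hact g P) = Lf a b c P := by
  simp only [Lf, Dt_act, B_act]

lemma p01_Dt_neg_left (a b : V2) : Dt (-a) b = -Dt a b := by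
  simp only [Dt, Pi.neg_apply]
  ring

lemma p01_Dt_neg_right (a b : V2) : Dt a (-b) = -Dt a b := by
  simp only [Dt, Pi.neg_apply]
  ring

lemma p01_B_neg_left (P : Herm) (a b : V2) : B P (-a) b = -B P a b := by
  simp only [B, Pi.neg_apply]
  ring

lemma p01_B_neg_right (P : Herm) (a b : V2) : B P a (-b) = -B P a b := by
  simp only [B, Pi.neg_apply, map_neg]
  ring

lemma Lf_neg1 (a b c : V2) (P : Herm) : Lf (-a) b c P = Lf a b c P := by
  simp only [Lf, p01_Dt_neg_left, p01_B_neg_left, map_neg]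
  congr 1
  ring

lemma Lf_neg2 (a b c : V2) (P : Herm) : Lf a (-b) c P = Lf a b c P := by
  simp only [Lf, p01_Dt_neg_left, p01_B_neg_right]
  congr 1
  ring

lemma Lf_neg3 (a b c : V2) (P : Herm) : Lf a b (-c) P = Lf a b c P := by
  simp only [Lf, p01_Dt_neg_right, map_neg]
  congr 1
  ring

lemma Lf_swap (a b c : V2) (P : Herm) : Lf b a c P = -Lf a b c P := by
  simp only [Lf]
  rw [← Complex.neg_im]
  apply p01_im_eq
  rw [B_conj P a b]
  simp only [map_neg, map_mul, Complex.conj_conj]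
  ring

lemma Lf_cyc (a b c : V2) (P : Herm) : Lf b c a P = Lf a b c P := by
  simp only [Lf]
  apply p01_im_eq
  simp only [B, Dt, map_add, map_sub, map_mul, Complex.conj_conj, Complex.conj_ofReal]
  ring

lemma Lf_N1 (a b c : V2) : Lf a b c (N a) = 0 := by
  simp only [Lf, B_N]
  have : Dt a a = 0 := by
    simp only [Dt]
    ring
  rw [this]
  simp

/-- alternating in all four vectors -/
lemma Lf_N_swap (a b c d : V2) : Lf a b d (N c) = -Lf a b c (N d) := by
  simp only [Lf, B_N]
  rw [← Complex.neg_im]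
  apply p01_im_eq
  simp only [map_neg, map_mul, Complex.conj_conj]
  ring

end TorMut.Tile
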