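import Pool.Agent.Lib.MP_407fc5_gt.BDefs
import Pool.Agent.Lib.MP_407fc5_gt.FDefs
import Pool.Agent.Lib.MP_407fc5_gt.P01

/-!
# B04: algebra of the parabolic elements `PV a` (about 40 minutes)

`PV a` is `v ↦ v + Dt(a, v) a`; everything is a polynomial identity (`ext`, `fin_cases`, `simp`, `ring`)
using `Dt (g u) (g v) = Dt u v` (`Dt_act` in `P01`).  `PV_inj`: `a 0 ^ 2`, `a 1 ^ 2`, `a 0 * a 1` are
determined by `PV a`.
-/

namespace TorMut

open Tile Matrix MatrixGroups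

theorem B04_coe (a : V2) : (PV a).1 = !![1 - a 0 * a 1, a 0 ^ 2; -(a 1) ^ 2, 1 + a 0 * a 1] := rfl

theorem B04_inv_coe (a : V2) :
    ((PV a)⁻¹).1 = !![1 + a 0 * a 1, -(a 0 ^ 2); (a 1) ^ 2, 1 - a 0 * a 1] := by
  rw [Matrix.SpecialLinearGroup.SL2_inv_expl]
  ext i j
  fin_cases i <;> fin_cases j <;> simp [PV]

theorem B04_mulVec (a v : V2) : (PV a).1.mulVec v = v + Dt a v • a := by
  ext i
  fin_cases i
  · simp [PV, Matrix.mulVec, dotProduct, Fin.sum_univ_two, Dt]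
    ring
  · simp [PV, Matrix.mulVec, dotProduct, Fin.sum_univ_two, Dt]
    ring

theorem B04_inv_mulVec (a v : V2) : ((PV a)⁻¹).1.mulVec v = v - Dt a v • a := by
  rw [B04_inv_coe]
  ext i
  fin_cases i
  · simp [Matrix.mulVec, dotProduct, Fin.sum_univ_two, Dt]
    ring
  · simp [Matrix.mulVec, dotProduct, Fin.sum_univ_two, Dt]
    ring

theorem B04_ext {M N : SL(2, ℂ)} (h : ∀ v : V2, M.1.mulVec v = N.1.mulVec v) : M = N := by
  apply Subtype.ext
  ext i j
  have h1 := congrFun (h (Pi.single j 1)) i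
  simpa using h1

theorem B04_mul_mulVec (g h : SL(2, ℂ)) (v : V2) :
    (g * h).1.mulVec v = g.1.mulVec (h.1.mulVec v) := by
  rw [Matrix.mulVec_mulVec]
  rfl

theorem B04_one_mulVec (v : V2) : (1 : SL(2, ℂ)).1.mulVec v = v := Matrix.one_mulVec v

theorem PV_act (g : SL(2, ℂ)) (a : V2) : PV (g.1.mulVec a) = g * PV a * g⁻¹ := by
  apply B04_ext
  intro v
  rw [B04_mul_mulVec, B04_mul_mulVec, B04_mulVec, B04_mulVec, Matrix.mulVec_add, Matrix.mulVec_smul]
  have h1 : g.1.mulVec ((g⁻¹).1.mulVec v) = v := by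
    rw [← B04_mul_mulVec, mul_inv_cancel, B04_one_mulVec]
  rw [h1]
  congr 2
  conv_lhs => rw [← h1]
  exact Dt_act g _ _

theorem PV_neg (a : V2) : PV (-a) = PV a := by
  apply B04_ext
  intro v
  rw [B04_mulVec, B04_mulVec]
  congr 1
  have h : Dt (-a) v = -Dt a v := by
    simp only [Dt, Pi.neg_apply]
    ring
  rw [h, smul_neg, neg_smul, neg_neg]

theorem PV_inj (a b : V2) (h : PV a = PV b) : a = b ∨ a = -b := by
  have h1 : (PV a).1 = (PV b).1 := congrArg Subtype.val h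
  rw [B04_coe, B04_coe] at h1
  have h00 := congrFun (congrFun h1 0) 0
  have h01 := congrFun (congrFun h1 0) 1
  have h10 := congrFun (congrFun h1 1) 0
  simp at h00 h01 h10
  have e01 : a 0 = b 0 ∨ a 0 = -b 0 := sq_eq_sq_iff_eq_or_eq_neg.1 h01
  have e10 : a 1 = b 1 ∨ a 1 = -b 1 := sq_eq_sq_iff_eq_or_eq_neg.1 h10
  have mk : ∀ c d : V2, c 0 = d 0 → c 1 = d 1 → c = d := by
    intro c d h0 h1
    ext i
    fin_cases i
    · exact h0
    · exact h1
  rcases e01 with e0 | e0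
  · by_cases hb : b 0 = 0
    · rcases e10 with e1 | e1
      · exact Or.inl (mk _ _ e0 e1)
      · refine Or.inr (mk _ _ ?_ e1)
        rw [Pi.neg_apply, e0, hb, neg_zero]
    · refine Or.inl (mk _ _ e0 ?_)
      rw [e0] at h00
      exact mul_left_cancel₀ hb h00
  · by_cases hb : b 0 = 0
    · rcases e10 with e1 | e1
      · refine Or.inl (mk _ _ ?_ e1)
        rw [e0, hb, neg_zero]
      · exact Or.inr (mk _ _ e0 e1)
    · refine Or.inr (mk _ _ e0 ?_)
      rw [e0] at h00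
      refine mul_left_cancel₀ hb ?_
      rw [Pi.neg_apply]
      linear_combination -h00

theorem opV_true (o c : V2) : opV true o c = ((PV o)⁻¹).1.mulVec c := by
  rw [B04_inv_mulVec]
  rfl

theorem opV_false (o c : V2) : opV false o c = (PV o).1.mulVec c := by
  rw [B04_mulVec]
  rfl

theorem PV_opV (s : Bool) (o c : V2) : PV (opV s o c) = opG s (PV o) (PV c) := by
  cases s
  · rw [opV_false, PV_act]
    rfl
  · rw [opV_true, PV_act, inv_inv]
    rfl

theorem PV_trace (a : V2) : (PV a).1.trace = 2 := by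
  rw [B04_coe, Matrix.trace_fin_two_of]
  ring

theorem PV_inv_trace (a : V2) : ((PV a)⁻¹).1.trace = 2 := by
  rw [B04_inv_coe, Matrix.trace_fin_two_of]
  ring

theorem B04_Dt_self (a : V2) : Dt a a = 0 := by
  simp only [Dt]
  ring

/-- `PV a` fixes `a` -/
theorem PV_self (a : V2) : (PV a).1.mulVec a = a := by
  rw [B04_mulVec, B04_Dt_self, zero_smul, add_zero]

theorem PV_inv_self (a : V2) : ((PV a)⁻¹).1.mulVec a = a := by
  rw [B04_inv_mulVec, B04_Dt_self, zero_smul, sub_zero]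

/-- an element which commutes with `PV a`, `a ≠ 0`, fixes `a` up to sign -/
theorem PV_comm (g : SL(2, ℂ)) (a : V2) (ha : a ≠ 0) (h : g * PV a = PV a * g) :
    g.1.mulVec a = a ∨ g.1.mulVec a = -a := by
  apply PV_inj
  rw [PV_act, h, mul_inv_cancel_right]

/-- the last two minima: if `Dt p p' = 0`, `Dt p q ≠ 0` and
`PV q (PV q')⁻¹ PV p (PV p')⁻¹ = 1`, then both factors are trivial.
Proof: `p' = λ p`, `PV p (PV p')⁻¹ = 1 + (1 - λ²) p p^⊥`, so
`PV q' = (1 + (1 - λ²) p p^⊥) PV q`, and the trace is `2 = 2 - (1 - λ²) Dt(p, q)²`. -/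
theorem PV_last (p p' q q' : V2) (h0 : Dt p p' = 0) (hne : Dt p q ≠ 0)
    (h : PV q * (PV q')⁻¹ * (PV p * (PV p')⁻¹) = 1) : PV q = PV q' ∧ PV p = PV p' := by
  obtain ⟨l, hl0, hl1⟩ : ∃ l : ℂ, p' 0 = l * p 0 ∧ p' 1 = l * p 1 := by
    simp only [Dt] at h0 hne
    by_cases hp : p 0 = 0
    · have hp1 : p 1 ≠ 0 := by
        intro h1
        apply hne
        rw [hp, h1]
        ring
      refine ⟨p' 1 / p 1, ?_, ?_⟩
      · rw [hp, mul_zero]
        rw [hp, zero_mul, zero_sub, neg_eq_zero] at h0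
        exact (mul_eq_zero.1 h0).resolve_left hp1
      · rw [div_mul_cancel₀ _ hp1]
    · refine ⟨p' 0 / p 0, ?_, ?_⟩
      · rw [div_mul_cancel₀ _ hp]
      · field_simp
        linear_combination h0
  have h1 : PV p * (PV p')⁻¹ * PV q = PV q' := by
    have h2 : PV p * (PV p')⁻¹ = (PV q * (PV q')⁻¹)⁻¹ := by
      rw [eq_inv_iff_mul_eq_one]
      have h3 : (PV q * (PV q')⁻¹) * (PV p * (PV p')⁻¹) = 1 := h
      exact mul_eq_one_comm.1 h3
    rw [h2, _root_.mul_inv_rev, inv_inv, inv_mul_cancel_right]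
  have h4 : ((PV p).1 * ((PV p')⁻¹).1 * (PV q).1).trace = 2 := by
    have h5 : (PV p).1 * ((PV p')⁻¹).1 * (PV q).1 = (PV q').1 := congrArg Subtype.val h1
    rw [h5, PV_trace]
  rw [B04_inv_coe, B04_coe, B04_coe, hl0, hl1, Matrix.trace_fin_two] at h4
  simp [Matrix.mul_apply, Fin.sum_univ_two] at h4
  have h6 : (1 - l ^ 2) * (Dt p q) ^ 2 = 0 := by
    simp only [Dt]
    linear_combination -h4
  have h7 : l ^ 2 = 1 := by
    rcases mul_eq_zero.1 h6 with h8 | h8
    · exact (sub_eq_zero.1 h8).symm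
    · exact absurd (pow_eq_zero_iff (two_ne_zero)|>.1 h8) hne
  have h9 : PV p = PV p' := by
    apply Subtype.ext
    rw [B04_coe, B04_coe, hl0, hl1]
    have e1 : l * p 0 * (l * p 1) = p 0 * p 1 := by linear_combination p 0 * p 1 * h7
    have e2 : (l * p 0) ^ 2 = p 0 ^ 2 := by linear_combination p 0 ^ 2 * h7
    have e3 : (l * p 1) ^ 2 = p 1 ^ 2 := by linear_combination p 1 ^ 2 * h7
    rw [e1, e2, e3]
  refine ⟨?_, h9⟩
  rw [← h1, h9, mul_inv_cancel, one_mul]

end TorMut
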