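import Pool.Agent.Lib.MP_407fc5_gt.FDefs

/-!
# F02: solutions of the arc equations, evaluation (about 60 minutes)

* `exists_sol`: define the values by recursion (for example the list of the values of the first `n`
  arcs, or strong recursion on `n` with `wfR`).
* `evalR_rel`: invariant of `evalR`: after `n` arcs the list `acc` has length `n` and contains the
  values of the arcs `n - 1, …, 0` (related to `A` by `Rl`); `evalR` at the end has length
  `R.length`, and `acc.getD (n - 1 - o) d` is the value of the arc `o < n`.
* `sol_hom`: strong induction on the arc.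
-/

namespace TorMut

theorem F02_wf_get (R : List Arc) : ∀ (n : ℕ), wfR n R = true → ∀ (j : ℕ) (r : Arc),
    R[j]? = some r → r.wf (n + j) = true := by
  induction R with
  | nil => intro n _ j r h; simp at h
  | cons a R ih =>
    intro n h j r hj
    rw [wfR, Bool.and_eq_true] at h
    cases j with
    | zero =>
      simp only [List.getElem?_cons_zero, Option.some.injEq] at hj
      rw [← hj]
      exact h.1
    | succ j =>
      rw [List.getElem?_cons_succ] at hj
      have := ih (n + 1) h.2 j r hj
      rwa [show n + 1 + j = n + (j + 1) by omega] at this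

theorem F02_append (R : List Arc) (r : Arc) : ∀ n : ℕ, wfR n (R ++ [r]) = true →
    wfR n R = true ∧ r.wf (n + R.length) = true := by
  induction R with
  | nil =>
    intro n h
    rw [List.nil_append, wfR, Bool.and_eq_true] at h
    exact ⟨rfl, by simpa using h.1⟩
  | cons a R ih =>
    intro n h
    rw [List.cons_append, wfR, Bool.and_eq_true] at h
    obtain ⟨h1, h2⟩ := ih (n + 1) h.2
    refine ⟨?_, ?_⟩
    · rw [wfR, h.1, h1]
      rfl
    · rw [List.length_cons, show n + (R.length + 1) = n + 1 + R.length by omega]
      exact h2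

theorem F02_wf_cross {n o : ℕ} {s : Bool} {c : ℕ} (h : (Arc.cross o s c).wf n = true) :
    o < n ∧ c < n := by
  rw [Arc.wf, Bool.and_eq_true] at h
  exact ⟨Nat.blt_eq.mp h.1, Nat.blt_eq.mp h.2⟩

theorem F02_eval_congr {α : Type*} (op : Bool → α → α → α) (b : ℕ → α) (A A' : ℕ → α) (n : ℕ)
    (h : ∀ o, o < n → A o = A' o) (r : Arc) (hr : r.wf n = true) :
    r.eval op b A = r.eval op b A' := by
  cases r with
  | born k => rfl
  | cross o s c =>
    obtain ⟨h1, h2⟩ := F02_wf_cross hr
    show op s (A o) (A c) = op s (A' o) (A' c)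
    rw [h o h1, h c h2]

theorem exists_sol {α : Type*} [Nonempty α] (op : Bool → α → α → α) (b : ℕ → α) (R : List Arc)
    (hR : wfR 0 R = true) : ∃ A : ℕ → α, IsSol op b R A := by
  induction R using List.reverseRecOn with
  | nil =>
    obtain ⟨a⟩ := ‹Nonempty α›
    exact ⟨fun _ => a, fun f r h => by simp at h⟩
  | append_singleton R r ih =>
    obtain ⟨h1, h2⟩ := F02_append R r 0 hR
    rw [Nat.zero_add] at h2
    obtain ⟨A, hA⟩ := ih h1
    refine ⟨Function.update A R.length (r.eval op b A), fun f r' hf => ?_⟩
    have hlt : ∀ o, o < R.length → A o = Function.update A R.length (r.eval op b A) o := by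
      intro o ho
      rw [Function.update_of_ne (by omega)]
    rcases lt_trichotomy f R.length with h | h | h
    · rw [List.getElem?_append_left h] at hf
      have h3 := F02_wf_get R 0 h1 f r' hf
      rw [Nat.zero_add] at h3
      rw [← hlt f h, hA f r' hf]
      exact F02_eval_congr op b _ _ f (fun o ho => hlt o (ho.trans h)) r' h3
    · subst h
      rw [List.getElem?_append_right le_rfl, Nat.sub_self, List.getElem?_cons_zero,
        Option.some.injEq] at hf
      subst hf
      rw [Function.update_self]
      exact F02_eval_congr op b _ _ R.length hlt r h2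
    · rw [List.getElem?_eq_none (by rw [List.length_append, List.length_singleton]; omega)] at hf
      exact absurd hf (by simp)

theorem F02_inv {α β : Type*} (Rl : α → β → Prop) (opα : Bool → α → α → α)
    (opβ : Bool → β → β → β) (bα : ℕ → α) (bβ : ℕ → β) (d : β)
    (frc : β → (β → List β) → List β) (hfrc : ∀ x k, frc x k = k x)
    (hop : ∀ s o c o' c', Rl o o' → Rl c c' → Rl (opα s o c) (opβ s o' c')) (A : ℕ → α)
    (R : List Arc) : ∀ (n : ℕ) (acc : List β), acc.length = n →
    (∀ o, o < n → Rl (A o) (acc.getD (n - 1 - o) d)) →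
    (∀ k, Arc.born k ∈ R → Rl (bα k) (bβ k)) → wfR n R = true →
    (∀ (j : ℕ) (r : Arc), R[j]? = some r → A (n + j) = r.eval opα bα A) →
    ∀ f, f < n + R.length →
      Rl (A f) ((evalR frc opβ bβ d R n acc).getD (n + R.length - 1 - f) d) := by
  induction R with
  | nil =>
    intro n acc hn h1 _ _ _ f hf
    rw [List.length_nil, Nat.add_zero] at hf ⊢
    exact h1 f hf
  | cons r R ih =>
    intro n acc hn h1 hb hw hA f hf
    rw [wfR, Bool.and_eq_true] at hw
    have hA0 : A n = r.eval opα bα A := hA 0 r rfl
    have key : ∀ x : β, Rl (A n) x →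
        Rl (A f) ((evalR frc opβ bβ d R (n + 1) (x :: acc)).getD (n + (R.length + 1) - 1 - f) d) := by
      intro x hx
      have := ih (n + 1) (x :: acc) (by rw [List.length_cons, hn]) (by
        intro o ho
        rcases Nat.lt_succ_iff_lt_or_eq.1 ho with h | h
        · have e : n + 1 - 1 - o = (n - 1 - o) + 1 := by omega
          rw [e, List.getD_cons_succ]
          exact h1 o h
        · subst h
          have e : o + 1 - 1 - o = 0 := by omega
          rw [e, List.getD_cons_zero]
          exact hx) (fun k hk => hb k (List.mem_cons_of_mem _ hk)) hw.2 (by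
        intro j r' hj
        have := hA (j + 1) r' (by rw [List.getElem?_cons_succ]; exact hj)
        rwa [show n + (j + 1) = n + 1 + j by omega] at this) f (by
        rw [List.length_cons] at hf
        omega)
      rwa [show n + 1 + R.length = n + (R.length + 1) by omega] at this
    cases r with
    | born k =>
      rw [evalR, hfrc, List.length_cons]
      apply key
      rw [hA0]
      exact hb k List.mem_cons_self
    | cross o s c =>
      rw [evalR, hfrc, List.length_cons]
      apply key
      rw [hA0]
      obtain ⟨h3, h4⟩ := F02_wf_cross hw.1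
      exact hop _ _ _ _ _ (h1 o h3) (h1 c h4)

theorem evalR_rel {α β : Type*} (Rl : α → β → Prop) (opα : Bool → α → α → α)
    (opβ : Bool → β → β → β) (bα : ℕ → α) (bβ : ℕ → β) (d : β)
    (frc : β → (β → List β) → List β) (hfrc : ∀ x k, frc x k = k x)
    (hop : ∀ s o c o' c', Rl o o' → Rl c c' → Rl (opα s o c) (opβ s o' c'))
    (R : List Arc) (hb : ∀ k, Arc.born k ∈ R → Rl (bα k) (bβ k)) (hR : wfR 0 R = true)
    (A : ℕ → α) (hA : IsSol opα bα R A) (f : ℕ) (hf : f < R.length) :
    Rl (A f) ((evalR frc opβ bβ d R 0 []).getD (R.length - 1 - f) d) := by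
  have := F02_inv Rl opα opβ bα bβ d frc hfrc hop A R 0 [] rfl (fun o ho => by omega) hb hR
    (fun j r hj => by rw [Nat.zero_add]; exact hA j r hj) f (by omega)
  rwa [Nat.zero_add] at this

/-- two solutions related by a map compatible with the operations -/
theorem sol_hom {α β : Type*} (Rl : α → β → Prop) (opα : Bool → α → α → α)
    (opβ : Bool → β → β → β) (bα : ℕ → α) (bβ : ℕ → β)
    (hop : ∀ s o c o' c', Rl o o' → Rl c c' → Rl (opα s o c) (opβ s o' c'))
    (R : List Arc) (hb : ∀ k, Arc.born k ∈ R → Rl (bα k) (bβ k)) (hR : wfR 0 R = true)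
    (A : ℕ → α) (B : ℕ → β)
    (hA : IsSol opα bα R A) (hB : IsSol opβ bβ R B) (f : ℕ) (hf : f < R.length) :
    Rl (A f) (B f) := by
  induction f using Nat.strong_induction_on with
  | _ f ih =>
    obtain ⟨r, hr⟩ : ∃ r, R[f]? = some r := ⟨R[f], List.getElem?_eq_getElem hf⟩
    have hw := F02_wf_get R 0 hR f r hr
    rw [Nat.zero_add] at hw
    rw [hA f r hr, hB f r hr]
    cases r with
    | born k => exact hb k (List.mem_of_getElem? hr)
    | cross o s c =>
      obtain ⟨h1, h2⟩ := F02_wf_cross hw
      exact hop _ _ _ _ _ (ih o h1 (h1.trans hf)) (ih c h2 (h2.trans hf))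

theorem wf_R₁ : wfR 0 R₁ = true := by decide +kernel

theorem wf_R₂ : wfR 0 R₂ = true := by decide +kernel

theorem len_R₁ : R₁.length = 38 := by decide +kernel

theorem len_R₂ : R₂.length = 38 := by decide +kernel

end TorMut
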