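import Pool.Agent.Lib.MP_407fc5_gt.F01
import Pool.Agent.Lib.MP_407fc5_gt.F02
import Pool.Agent.Lib.MP_407fc5_gt.B04

/-!
# F03: the arcs in the link group (about 45 minutes)

`X` exists by `exists_sol`; the relators of the link group are trivial (`run_eq_one` with the
identity), so by `run_frun` the two strands of every minimum satisfy `col X c.1 * col X c.2 = 1`; if
their signs are opposite, then `X c.1.1 = X c.2.1`.  `frame_hom`: `sol_hom` with
`Rl x a := α x = PV a` (`PV_opV`).
-/

namespace TorMut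

open Tile

theorem caps_X (D : Word) (hD : OK 0 D) (X : ℕ → LinkGroup D)
    (hX : IsSol opG (ori sg (mer D)) (arcRun sg 0 0 [] D).2.1 X) (c : SA × SA)
    (hc : c ∈ (arcRun sg 0 0 [] D).2.2) (hs : c.1.2 = !c.2.2) : X c.1.1 = X c.2.1 := by
  have h := run_frun sg (mer D) X 0 0 [] D hD (by
    intro j r hj
    rw [Nat.zero_add]
    exact hX j r hj)
  rw [List.map_nil] at h
  have h2 : col X c.1 * col X c.2 = 1 := by
    refine run_eq_one D (MonoidHom.id _) _ ?_
    have h3 : run (fun k => (MonoidHom.id (LinkGroup D)) (mer D k)) 0 [] D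
        = run (mer D) 0 [] D := rfl
    rw [h3, h]
    exact List.mem_map.2 ⟨c, hc, rfl⟩
  obtain ⟨⟨a, s⟩, ⟨b, t⟩⟩ := c
  cases t with
  | false =>
    have hs' : s = true := hs
    subst hs'
    exact mul_inv_eq_one.1 (show X a * (X b)⁻¹ = 1 from h2)
  | true =>
    have hs' : s = false := hs
    subst hs'
    exact inv_mul_eq_one.1 (show (X a)⁻¹ * X b = 1 from h2)

theorem frame_hom (D : Word) (R : List Arc) (hR : wfR 0 R = true) (X : ℕ → LinkGroup D)
    (hX : IsSol opG (ori sg (mer D)) R X) (b A : ℕ → V2) (hA : IsSol opV b R A)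
    (α : LinkGroup D →* Matrix.SpecialLinearGroup (Fin 2) ℂ)
    (hα : ∀ k, k < 5 → α (mer D k) = ori sg (fun k => PV (b k)) k)
    (hb : ∀ k, Arc.born k ∈ R → k < 5) (f : ℕ) (hf : f < R.length) : α (X f) = PV (A f) := by
  refine sol_hom (fun x a => α x = PV a) opG opV (ori sg (mer D)) b ?_ R ?_ hR X A hX hA f hf
  · intro s o c o' c' ho hc
    rw [PV_opV, ← ho, ← hc]
    cases s
    · change α (o * c * o⁻¹) = α o * α c * (α o)⁻¹
      rw [map_mul, map_mul, map_inv]
    · change α (o⁻¹ * c * o) = (α o)⁻¹ * α c * α o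
      rw [map_mul, map_mul, map_inv]
  · intro k hk
    have h := hα k (hb k hk)
    unfold ori at h ⊢
    cases hs : sg k
    · rw [hs] at h
      change α (mer D k)⁻¹ = PV (b k)
      have h' : α (mer D k) = (PV (b k))⁻¹ := h
      rw [map_inv, h', inv_inv]
    · rw [hs] at h
      exact h

theorem caps_D₂ : (arcRun sg 0 0 [] D₂).2.2 = [((30, false), (18, true)), ((28, true), (17, false)),
    ((35, false), (3, true)), ((37, true), (6, false)), ((32, true), (36, false))] := by
  decide +kernel

end TorMut
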