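import Pool.Agent.Lib.MP_407fc5_gt.GDefs
import Pool.Agent.Lib.MP_407fc5_gt.F02

/-!
# G01: words, free reduction, certificates (about 50 minutes)

`feed_sound`: induction on the word (with the stack generalised); `flp` changes `2 f` to `2 f + 1` and
back (`Nat.xor a 1`), so `evL X (flp a) = (evL X a)⁻¹`.  `relL_sound`: the relator of the arc
`X n = o⁻¹ c o` is `X n⁻¹ X o⁻¹ X c X o` (all arcs replaced by their representatives).
-/

namespace TorMut

open Tile

variable {G : Type*} [Group G] (X : ℕ → G)

theorem G01_even (f : ℕ) : evL X (2 * f) = X f := by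
  unfold evL
  have h1 : Nat.mod (2 * f) 2 = 0 := Nat.mul_mod_right 2 f
  have h2 : Nat.div (2 * f) 2 = f := Nat.mul_div_cancel_left f (by norm_num)
  rw [h1, h2]

theorem G01_odd (f : ℕ) : evL X (2 * f + 1) = (X f)⁻¹ := by
  unfold evL
  have h1 : Nat.mod (2 * f + 1) 2 = 1 := by
    change (2 * f + 1) % 2 = 1
    omega
  have h2 : Nat.div (2 * f + 1) 2 = f := by
    change (2 * f + 1) / 2 = f
    omega
  rw [h1, h2]

theorem G01_flp_even (f : ℕ) : flp (2 * f) = 2 * f + 1 := by
  change (2 * f) ^^^ 1 = 2 * f + 1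
  apply Nat.eq_of_testBit_eq
  intro i
  rw [Nat.testBit_xor]
  cases i with
  | zero => simp
  | succ i =>
    rw [Nat.testBit_succ, Nat.testBit_succ, Nat.testBit_succ]
    have h1 : 2 * f / 2 = f := by omega
    have h2 : (2 * f + 1) / 2 = f := by omega
    rw [h1, h2]
    simp

theorem G01_flp_odd (f : ℕ) : flp (2 * f + 1) = 2 * f := by
  change (2 * f + 1) ^^^ 1 = 2 * f
  apply Nat.eq_of_testBit_eq
  intro i
  rw [Nat.testBit_xor]
  cases i with
  | zero => simp
  | succ i =>
    rw [Nat.testBit_succ, Nat.testBit_succ, Nat.testBit_succ]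
    have h1 : 2 * f / 2 = f := by omega
    have h2 : (2 * f + 1) / 2 = f := by omega
    rw [h1, h2]
    simp

theorem evL_flp (a : ℕ) : evL X (flp a) = (evL X a)⁻¹ := by
  obtain ⟨f, hf⟩ := Nat.even_or_odd' a
  rcases hf with rfl | rfl
  · rw [G01_flp_even, G01_odd, G01_even]
  · rw [G01_flp_odd, G01_odd, G01_even, inv_inv]

theorem evW_nil : evW X [] = 1 := rfl

theorem evW_cons (a : ℕ) (w : List ℕ) : evW X (a :: w) = evL X a * evW X w := by
  unfold evW
  rw [List.map_cons, List.prod_cons]

theorem evW_append (v w : List ℕ) : evW X (v ++ w) = evW X v * evW X w := by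
  unfold evW
  rw [List.map_append, List.prod_append]

theorem evW_invW (w : List ℕ) : evW X (invW w) = (evW X w)⁻¹ := by
  induction w with
  | nil => rw [evW_nil, inv_one]; rfl
  | cons a w ih =>
    have h1 : invW (a :: w) = invW w ++ [flp a] := by
      unfold invW
      rw [List.map_cons, List.reverse_cons]
    rw [h1, evW_append, ih, evW_cons, evW_cons, evW_nil, evL_flp, mul_one, mul_inv_rev]

theorem feed_sound (st w : List ℕ) :
    evW X (feed st w).reverse = evW X st.reverse * evW X w := by
  induction w generalizing st with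
  | nil => rw [feed, evW_nil, mul_one]
  | cons a w ih =>
    cases st with
    | nil =>
      rw [feed, ih, List.reverse_nil, evW_nil, one_mul, evW_cons]
      have h1 : [a].reverse = [a] := rfl
      rw [h1, evW_cons, evW_nil, mul_one]
    | cons b st =>
      rw [feed]
      cases hb : Nat.beq b (flp a) with
      | true =>
        have h1 : b = flp a := Nat.eq_of_beq_eq_true hb
        change evW X (feed st w).reverse = _
        rw [ih, List.reverse_cons, evW_append, evW_cons, evW_nil, evW_cons, h1, evL_flp, mul_one,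
          mul_assoc, inv_mul_cancel_left]
      | false =>
        change evW X (feed (a :: b :: st) w).reverse = _
        rw [ih, List.reverse_cons, evW_append, evW_cons, evW_nil, mul_one, evW_cons, mul_assoc]

theorem G01_getR (rel : List (List ℕ)) (hrel : ∀ r ∈ rel, evW X r = 1) (j : ℕ) :
    evW X (getR rel j) = 1 := by
  have h1 : ∀ i, evW X (rel.getD i []) = 1 := by
    intro i
    by_cases h : i < rel.length
    · rw [List.getD_eq_getElem _ _ h]
      exact hrel _ (List.getElem_mem h)
    · rw [List.getD_eq_default _ _ (not_lt.1 h), evW_nil]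
  unfold getR
  cases Nat.beq (Nat.mod j 2) 0 with
  | true => exact h1 _
  | false =>
    change evW X (invW (rel.getD (Nat.div j 2) [])) = 1
    rw [evW_invW, h1, inv_one]

theorem feedC_sound (rel : List (List ℕ)) (hrel : ∀ r ∈ rel, evW X r = 1) (st : List ℕ)
    (c : List (List ℕ × ℕ)) : evW X (feedC rel st c).reverse = evW X st.reverse := by
  induction c generalizing st with
  | nil => rw [feedC]
  | cons p c ih =>
    obtain ⟨u, j⟩ := p
    rw [feedC, ih, feed_sound, feed_sound, feed_sound, G01_getR X rel hrel, evW_invW, mul_one,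
      mul_inv_cancel_right]

theorem isNil_sound (st : List ℕ) (h : isNil st = true) : st = [] := by
  cases st with
  | nil => rfl
  | cons a st => exact absurd h (by simp [isNil])

theorem rp_sound (rp : List ℕ) (caps : List (ℕ × ℕ)) (hcap : ∀ c ∈ caps, X c.1 = X c.2)
    (h : rpOK rp caps = true) (f : ℕ) (hf : f < 38) : X (rp.getD f 0) = X f := by
  unfold rpOK at h
  have h1 := List.all_eq_true.1 h f (List.mem_range.2 hf)
  rw [Bool.or_eq_true] at h1
  rcases h1 with h1 | h1
  · rw [Nat.eq_of_beq_eq_true h1]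
  · obtain ⟨c, hc, h2⟩ := List.any_eq_true.1 h1
    rw [Bool.or_eq_true, Bool.and_eq_true, Bool.and_eq_true] at h2
    rcases h2 with ⟨h3, h4⟩ | ⟨h3, h4⟩
    · rw [← Nat.eq_of_beq_eq_true h4, ← Nat.eq_of_beq_eq_true h3]
      exact (hcap c hc).symm
    · rw [← Nat.eq_of_beq_eq_true h4, ← Nat.eq_of_beq_eq_true h3]
      exact hcap c hc

theorem G01_relA {ρ : G →* Matrix.SpecialLinearGroup (Fin 2) ℂ} {A : ℕ → V2} {R : List Arc}
    {caps : List (ℕ × ℕ)} (F : Frame X ρ A R caps) (rp : List ℕ) (h : rpOK rp caps = true)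
    (n : ℕ) (r : Arc) (hr : R[n]? = some r) : evW X (relA rp n r) = 1 := by
  have hrp := rp_sound X rp caps F.capX h
  have hn : n < 38 := by
    rw [← F.len]
    by_contra hcon
    rw [List.getElem?_eq_none (not_lt.1 hcon)] at hr
    exact absurd hr (by simp)
  cases r with
  | born k => exact evW_nil X
  | cross o s c =>
    have hwf := F02_wf_get R 0 F.wf n _ hr
    rw [Nat.zero_add] at hwf
    obtain ⟨ho, hc⟩ := F02_wf_cross hwf
    have hX := F.relX n o s c hr
    have e1 := hrp n hn
    have e2 := hrp o (by omega)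
    have e3 := hrp c (by omega)
    cases s with
    | true =>
      change evW X [2 * rp.getD n 0 + 1, 2 * rp.getD o 0 + 1, 2 * rp.getD c 0,
        2 * rp.getD o 0] = 1
      rw [evW_cons, evW_cons, evW_cons, evW_cons, evW_nil, G01_odd, G01_odd, G01_even, G01_even,
        e1, e2, e3, hX]
      unfold opG
      group
    | false =>
      change evW X [2 * rp.getD n 0 + 1, 2 * rp.getD o 0, 2 * rp.getD c 0,
        2 * rp.getD o 0 + 1] = 1
      rw [evW_cons, evW_cons, evW_cons, evW_cons, evW_nil, G01_odd, G01_odd, G01_even, G01_even,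
        e1, e2, e3, hX]
      unfold opG
      group

theorem G01_relL (rp : List ℕ) (R' : List Arc) (n : ℕ) (P : List ℕ → Prop)
    (h : ∀ j r, R'[j]? = some r → P (relA rp (n + j) r)) : ∀ w ∈ relL rp n R', P w := by
  induction R' generalizing n with
  | nil =>
    intro w hw
    rw [relL] at hw
    exact absurd hw (by simp)
  | cons a R' ih =>
    intro w hw
    rw [relL, List.mem_cons] at hw
    rcases hw with rfl | hw
    · exact h 0 a (by simp)
    · refine ih (n + 1) ?_ w hw
      intro j r hj
      have h1 := h (j + 1) r (by simpa using hj)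
      rwa [show n + (j + 1) = n + 1 + j by omega] at h1

theorem relL_sound {ρ : G →* Matrix.SpecialLinearGroup (Fin 2) ℂ} {A : ℕ → V2} {R : List Arc}
    {caps : List (ℕ × ℕ)} (F : Frame X ρ A R caps) (rp : List ℕ) (h : rpOK rp caps = true) :
    ∀ r ∈ relL rp 0 R, evW X r = 1 := by
  refine G01_relL rp R 0 (fun w => evW X w = 1) ?_
  intro j r hj
  rw [Nat.zero_add]
  exact G01_relA X F rp h j r hj

theorem G01_pow {ρ : G →* Matrix.SpecialLinearGroup (Fin 2) ℂ} (a : V2) (b : ℕ)
    (ha : (ρ (evL X b)).1.mulVec a = a) (st : List ℕ) (h : ∀ x ∈ st, x = b) :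
    (ρ (evW X st.reverse)).1.mulVec a = a := by
  induction st with
  | nil =>
    rw [List.reverse_nil, evW_nil, map_one]
    exact Matrix.one_mulVec a
  | cons x st ih =>
    have hx : x = b := h x (List.mem_cons_self ..)
    rw [List.reverse_cons, evW_append, evW_cons, evW_nil, mul_one, map_mul, hx]
    change ((ρ (evW X st.reverse)).1 * (ρ (evL X b)).1).mulVec a = a
    rw [← Matrix.mulVec_mulVec, ha]
    exact ih fun y hy => h y (List.mem_cons_of_mem _ hy)

/-- a word which is a power of the base letter `m` fixes every vector fixed by `ρ (X m)` -/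
theorem powOK_sound {ρ : G →* Matrix.SpecialLinearGroup (Fin 2) ℂ} (T : TD) (a : V2)
    (ha : (ρ (X T.m)).1.mulVec a = a) (st : List ℕ) (h : T.powOK st = true) :
    (ρ (evW X st.reverse)).1.mulVec a = a := by
  unfold TD.powOK at h
  rw [Bool.or_eq_true] at h
  rcases h with h | h
  · refine G01_pow X a (2 * T.m) ?_ st fun x hx => ?_
    · rw [G01_even]
      exact ha
    · exact Nat.eq_of_beq_eq_true (List.all_eq_true.1 h x hx)
  · refine G01_pow X a (2 * T.m + 1) ?_ st fun x hx => ?_
    · rw [G01_odd]
      have h1 : ((ρ (X T.m)⁻¹).1 * (ρ (X T.m)).1).mulVec a = a := by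
        change (ρ (X T.m)⁻¹ * ρ (X T.m)).1.mulVec a = a
        rw [← map_mul, inv_mul_cancel, map_one]
        exact Matrix.one_mulVec a
      rw [← Matrix.mulVec_mulVec, ha] at h1
      exact h1
    · exact Nat.eq_of_beq_eq_true (List.all_eq_true.1 h x hx)

end TorMut
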