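import Pool.Agent.Lib.MP_407fc5_gt.GDefs

/-!
# G02: the table of permutations, the combinatorial axioms (about 60 minutes)

The statements on `pm` are finite: `decide +kernel` (the numbers bounded by 24; write them with
`List.range` or `Fin 24` if necessary).  `chk1` contains everything else: `nb (nb i k) (s i k k) = i`,
`s (nb i k) (s i k k) * s i k = 1`, all `s` are odd, the labels are inverse words (`isNil`; the word
lemma is `feed_sound` of `G01`, here only the combinatorial part).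
-/

namespace TorMut

open Tile

theorem G02_apply : ∀ c : Fin 24, ∀ j : Fin 4, ((pm c.1 j : Fin 4) : ℕ) = pmV c.1 j.1 := by
  decide +kernel

theorem G02_lt : ∀ c : Fin 24, ∀ j : Fin 4, pmV c.1 j.1 < 4 := by
  decide +kernel

theorem G02_mulV : ∀ c d : Fin 24, pmM c.1 d.1 < 24 ∧
    ∀ j : Fin 4, pmV c.1 (pmV d.1 j.1) = pmV (pmM c.1 d.1) j.1 := by
  decide +kernel

theorem G02_even : ∀ c d : Fin 24, 12 ≤ c.1 → d.1 < 12 →
    12 ≤ pmM c.1 d.1 ∧ pmM c.1 d.1 < 24 ∧ pmM (pmM c.1 d.1) sw23 < 12 := by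
  decide +kernel

theorem pm_apply (c : ℕ) (hc : c < 24) (j : Fin 4) : ((pm c j : Fin 4) : ℕ) = pmV c j.1 :=
  G02_apply ⟨c, hc⟩ j

theorem pmV_lt (c j : ℕ) (hc : c < 24) (hj : j < 4) : pmV c j < 4 :=
  G02_lt ⟨c, hc⟩ ⟨j, hj⟩

theorem pm_mul (c d : ℕ) (hc : c < 24) (hd : d < 24) :
    pm c * pm d = pm (pmM c d) ∧ pmM c d < 24 := by
  obtain ⟨h1, h2⟩ := G02_mulV ⟨c, hc⟩ ⟨d, hd⟩
  refine ⟨?_, h1⟩
  refine Equiv.ext fun j => Fin.ext ?_
  have e1 : (pm c * pm d) j = pm c (pm d j) := rfl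
  rw [e1, pm_apply c hc, pm_apply d hd, pm_apply _ h1]
  exact h2 j

theorem pmM_even (c d : ℕ) (hc : 12 ≤ c) (hc' : c < 24) (hd : d < 12) :
    12 ≤ pmM c d ∧ pmM c d < 24 ∧ pmM (pmM c d) sw23 < 12 :=
  G02_even ⟨c, hc'⟩ ⟨d, by omega⟩ hc hd

theorem G02_sign : ∀ c : Fin 24, Equiv.Perm.sign (pm c.1) = if c.1 < 12 then 1 else -1 := by
  decide +kernel

theorem pm_sign_even (c : ℕ) (hc : c < 12) : Equiv.Perm.sign (pm c) = 1 := by
  have := G02_sign ⟨c, by omega⟩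
  rw [this, if_pos hc]

theorem pm_sign_odd (c : ℕ) (hc : 12 ≤ c) (hc' : c < 24) : Equiv.Perm.sign (pm c) = -1 := by
  have := G02_sign ⟨c, hc'⟩
  rw [this, if_neg (by simpa using hc)]

theorem G02_surj : ∀ π : Equiv.Perm (Fin 4), ∃ c : Fin 24, ∀ j : Fin 4, (π j).1 = pmV c.1 j.1 := by
  decide +kernel

theorem pm_surj (π : Equiv.Perm (Fin 4)) (h : Equiv.Perm.sign π = 1) : ∃ c < 12, π = pm c := by
  obtain ⟨c, hc⟩ := G02_surj π
  have e : π = pm c.1 := by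
    refine Equiv.ext fun j => Fin.ext ?_
    rw [hc j, pm_apply c.1 c.2]
  by_cases h12 : c.1 < 12
  · exact ⟨c.1, h12, e⟩
  · exfalso
    have h1 := pm_sign_odd c.1 (by omega) c.2
    rw [← e, h] at h1
    exact absurd h1 (by decide)

theorem pm_zero : pm 0 = 1 := by
  decide +kernel

theorem pm_sw23 : pm sw23 = Equiv.swap 2 3 := by
  decide +kernel

variable {G : Type*} [Group G] (X : ℕ → G) (T : TD)

/-- what the check says -/
theorem G02_chk (h : T.chk1 = true) (i k : ℕ) (hi : i ≤ T.k) (hk : k < 4) :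
    T.nbN i k ≤ T.k ∧ 12 ≤ T.sN i k ∧ T.sN i k < 24 ∧
    T.nbN (T.nbN i k) (pmV (T.sN i k) k) = i ∧
    pmM (T.sN (T.nbN i k) (pmV (T.sN i k) k)) (T.sN i k) = 0 := by
  unfold TD.chk1 at h
  rw [List.all_eq_true] at h
  have h1 := h i (List.mem_range.2 (by omega))
  rw [List.all_eq_true] at h1
  have h2 := h1 k (List.mem_range.2 hk)
  simp only [Bool.and_eq_true, Nat.ble_eq] at h2
  obtain ⟨⟨⟨⟨⟨a, b⟩, c⟩, d⟩, e⟩, f⟩ := h2
  refine ⟨a, b, by omega, ?_, ?_⟩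
  · exact Nat.eq_of_beq_eq_true d
  · exact Nat.eq_of_beq_eq_true e

/-- the codes behind the functions of `comb` -/
theorem comb_codes (h : T.chk1 = true) (i : Fin (T.k + 1)) (k : Fin 4) :
    ((T.comb X).nb i k).1 = T.nbN i.1 k.1 ∧ T.nbN i.1 k.1 ≤ T.k ∧
    (∀ l : Fin 4, ((T.comb X).s i k l).1 = pmV (T.sN i.1 k.1) l.1) ∧
    12 ≤ T.sN i.1 k.1 ∧ T.sN i.1 k.1 < 24 := by
  obtain ⟨h1, h2, h3, h4, h5⟩ := G02_chk T h i.1 k.1 (by omega) k.2
  refine ⟨?_, h1, fun l => pm_apply _ h3 l, h2, h3⟩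
  change (Fin.ofNat (T.k + 1) (T.nbN i.1 k.1)).1 = _
  exact Nat.mod_eq_of_lt (by omega)

theorem comb_nb_nb (h : T.chk1 = true) (i : Fin (T.k + 1)) (k : Fin 4) :
    (T.comb X).nb ((T.comb X).nb i k) ((T.comb X).s i k k) = i := by
  obtain ⟨h1, h2, h3, h4, h5⟩ := G02_chk T h i.1 k.1 (by omega) k.2
  obtain ⟨c1, c2, c3, c4, c5⟩ := comb_codes X T h i k
  obtain ⟨d1, -⟩ := comb_codes X T h ((T.comb X).nb i k) ((T.comb X).s i k k)
  apply Fin.ext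
  rw [d1, c1, c3, h4]

theorem comb_s_s (h : T.chk1 = true) (i : Fin (T.k + 1)) (k : Fin 4) :
    (T.comb X).s ((T.comb X).nb i k) ((T.comb X).s i k k) = ((T.comb X).s i k)⁻¹ := by
  obtain ⟨h1, h2, h3, h4, h5⟩ := G02_chk T h i.1 k.1 (by omega) k.2
  obtain ⟨c1, c2, c3, c4, c5⟩ := comb_codes X T h i k
  obtain ⟨-, -, -, -, d5⟩ := comb_codes X T h ((T.comb X).nb i k) ((T.comb X).s i k k)
  rw [c1, c3] at d5
  have e1 : (T.comb X).s ((T.comb X).nb i k) ((T.comb X).s i k k) =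
      pm (T.sN (T.nbN i.1 k.1) (pmV (T.sN i.1 k.1) k.1)) := by
    change pm (T.sN ((T.comb X).nb i k).1 ((T.comb X).s i k k).1) = _
    rw [c1, c3]
  rw [e1]
  refine eq_inv_of_mul_eq_one_left ?_
  change pm _ * pm (T.sN i.1 k.1) = 1
  rw [(pm_mul _ _ d5 c5).1, h5, pm_zero]

theorem comb_odd (h : T.chk1 = true) (i : Fin (T.k + 1)) (k : Fin 4) :
    Equiv.Perm.sign ((T.comb X).s i k) = -1 := by
  obtain ⟨-, -, -, c4, c5⟩ := comb_codes X T h i k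
  exact pm_sign_odd _ c4 c5

theorem rot_toFlag (h : T.chk1 = true) (f : ℕ × ℕ) (h1 : f.1 ≤ T.k) (h2 : f.2 < 12) :
    (T.comb X).rot (T.toFlag f) = T.toFlag (T.rotN f) ∧ (T.rotN f).1 ≤ T.k ∧
      (T.rotN f).2 < 12 := by
  have hv : pmV f.2 2 < 4 := pmV_lt f.2 2 (by omega) (by omega)
  obtain ⟨g1, g2, g3, g4, g5⟩ := G02_chk T h f.1 (pmV f.2 2) h1 hv
  obtain ⟨m1, m2, m3⟩ := pmM_even _ f.2 g2 g3 h2
  refine ⟨?_, g1, m3⟩
  have e1 : (Fin.ofNat (T.k + 1) f.1).1 = f.1 := Nat.mod_eq_of_lt (by omega)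
  have e2 : (pm f.2 2 : Fin 4).1 = pmV f.2 2 := pm_apply f.2 (by omega) 2
  refine Prod.ext ?_ ?_
  · change Fin.ofNat (T.k + 1) (T.nbN (Fin.ofNat (T.k + 1) f.1).1 (pm f.2 2 : Fin 4).1) =
      Fin.ofNat (T.k + 1) (T.nbN f.1 (pmV f.2 2))
    rw [e1, e2]
  · change pm (T.sN (Fin.ofNat (T.k + 1) f.1).1 (pm f.2 2 : Fin 4).1) * pm f.2 *
      Equiv.swap 2 3 = pm (pmM (pmM (T.sN f.1 (pmV f.2 2)) f.2) sw23)
    rw [e1, e2, (pm_mul _ _ g3 (by omega)).1, ← pm_sw23, (pm_mul _ _ m2 (by decide)).1]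

end TorMut
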