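import Pool.Agent.Lib.MP_407fc5_gt.VDefs
import Pool.Agent.Lib.MP_407fc5_gt.B02
import Pool.Agent.Lib.MP_407fc5_gt.B03
import Pool.Agent.Lib.MP_407fc5_gt.G01
import Pool.Agent.Lib.MP_407fc5_gt.G02

/-!
# V01: enclosures of the vertices (about 60 minutes)

`appW_sound`: `appR` applies the letters from the right to the left (`memV_PB_true`, `memV_PB_false`).
`tab_sound`: read off from `tabOK`; the vertex `k` of `i` is the opposite vertex of the neighbour
`j = nb i k` across its face `k' = s i k k`, and every pair `(j, k')` is of this form (`comb_nb_nb`).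
-/

namespace TorMut

open Tile Matrix MatrixGroups

variable {G : Type*} [Group G] (X : ℕ → G) (T : TD)

theorem inB_sound {x : ℂ} {b c : CB} (h : Mem x b) (hb : inB b c = true) : Mem x c := by
  rcases b with ⟨a, b, r⟩
  rcases c with ⟨a', b', r'⟩
  have h1 : Int.natAbs (a - a') + Int.natAbs (b - b') + r ≤ r' := Nat.le_of_ble_eq_true hb
  have h2 : |(a : ℝ) - a'| + |(b : ℝ) - b'| + r ≤ (r' : ℝ) := by
    have h3 : (((Int.natAbs (a - a') + Int.natAbs (b - b') + r : ℕ)) : ℝ) ≤ ((r' : ℕ) : ℝ) := by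
      exact_mod_cast h1
    rw [Nat.cast_add, Nat.cast_add, Nat.cast_natAbs, Nat.cast_natAbs, Int.cast_abs, Int.cast_abs,
      Int.cast_sub, Int.cast_sub] at h3
    exact h3
  have h4 : ‖CB.val ⟨a, b, r⟩ - CB.val ⟨a', b', r'⟩‖ ≤ |(a : ℝ) - a'| + |(b : ℝ) - b'| :=
    Complex.norm_le_abs_re_add_abs_im (CB.val ⟨a, b, r⟩ - CB.val ⟨a', b', r'⟩)
  have h5 : ‖x * 2 ^ sc - CB.val ⟨a, b, r⟩‖ ≤ (r : ℝ) := h
  have h6 : x * 2 ^ sc - CB.val ⟨a', b', r'⟩ =
      (x * 2 ^ sc - CB.val ⟨a, b, r⟩) + (CB.val ⟨a, b, r⟩ - CB.val ⟨a', b', r'⟩) := by ring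
  show ‖x * 2 ^ sc - CB.val ⟨a', b', r'⟩‖ ≤ (r' : ℝ)
  rw [h6]
  refine (norm_add_le _ _).trans ?_
  linarith

theorem V01_inV {v : V2} {b c : VB} (h : MemV v b) (hb : inV b c = true) : MemV v c := by
  unfold inV at hb
  rw [Bool.and_eq_true] at hb
  exact ⟨inB_sound h.1 hb.1, inB_sound h.2 hb.2⟩

theorem V01_mul_mulVec (g h : SL(2, ℂ)) (v : V2) :
    (g * h).1.mulVec v = g.1.mulVec (h.1.mulVec v) := by
  rw [Matrix.mulVec_mulVec]
  rfl

theorem V01_appR {ρ : G →* SL(2, ℂ)} {A : ℕ → V2} (hom : ∀ f, f < 38 → ρ (X f) = PV (A f))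
    (AB : ℕ → VB) (hAB : ∀ f, f < 38 → MemV (A f) (AB f)) (w : List ℕ) :
    ∀ (_ : ∀ a ∈ w, a < 76) (v : V2) (vb : VB) (_ : MemV v vb),
    MemV ((ρ (evW X w.reverse)).1.mulVec v) (appR AB w vb) := by
  induction w with
  | nil =>
    intro _ v vb hv
    rw [List.reverse_nil, evW_nil, map_one]
    show MemV ((1 : Matrix (Fin 2) (Fin 2) ℂ).mulVec v) vb
    rw [Matrix.one_mulVec]
    exact hv
  | cons a w ih =>
    intro hw v vb hv
    rw [List.reverse_cons, evW_append, evW_cons, evW_nil, mul_one, map_mul, V01_mul_mulVec]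
    show MemV _ (fV (PB (Nat.beq (Nat.mod a 2) 0) (AB (Nat.div a 2)) vb) fun v' => appR AB w v')
    rw [fV_eq]
    refine ih (fun b hb => hw b (List.mem_cons_of_mem _ hb)) _ _ ?_
    have ha : a < 76 := hw a List.mem_cons_self
    have ha2 : a / 2 < 38 := by omega
    unfold evL
    show MemV ((ρ (match Nat.beq (Nat.mod a 2) 0 with
      | true => X (a / 2)
      | false => (X (a / 2))⁻¹)).1.mulVec v) (PB (Nat.beq (Nat.mod a 2) 0) (AB (a / 2)) vb)
    cases Nat.beq (Nat.mod a 2) 0 with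
    | true =>
      show MemV ((ρ (X (a / 2))).1.mulVec v) (PB true (AB (a / 2)) vb)
      rw [hom _ ha2]
      exact memV_PB_true (hAB _ ha2) hv
    | false =>
      show MemV ((ρ (X (a / 2))⁻¹).1.mulVec v) (PB false (AB (a / 2)) vb)
      rw [map_inv, hom _ ha2]
      exact memV_PB_false (hAB _ ha2) hv

theorem appW_sound {ρ : G →* SL(2, ℂ)} {A : ℕ → V2} (hom : ∀ f, f < 38 → ρ (X f) = PV (A f))
    (AB : ℕ → VB) (hAB : ∀ f, f < 38 → MemV (A f) (AB f)) (w : List ℕ)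
    (hw : ∀ a ∈ w, a < 76) (v : V2) (vb : VB) (hv : MemV v vb) :
    MemV ((ρ (evW X w)).1.mulVec v) (appW AB w vb) := by
  have h := V01_appR X hom AB hAB w.reverse (fun a ha => hw a (List.mem_reverse.1 ha)) v vb hv
  rw [List.reverse_reverse] at h
  exact h

/-- all letters occurring in the data are below 76 -/
def lettersOK (T : TD) : Bool :=
  (List.range (T.k + 1)).all fun i => (List.range 4).all fun k =>
    ((T.WN i k).all fun a => Nat.ble a 75) && (T.hN i k).all fun a => Nat.ble a 75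

theorem V01_letters (hl : lettersOK T = true) (i k : ℕ) (hi : i < T.k + 1) (hk : k < 4) :
    (∀ a ∈ T.WN i k, a < 76) ∧ (∀ a ∈ T.hN i k, a < 76) := by
  unfold lettersOK at hl
  rw [List.all_eq_true] at hl
  have h1 := hl i (List.mem_range.2 hi)
  rw [List.all_eq_true] at h1
  have h2 := h1 k (List.mem_range.2 hk)
  rw [Bool.and_eq_true, List.all_eq_true, List.all_eq_true] at h2
  exact ⟨fun a ha => Nat.lt_succ_of_le (Nat.le_of_ble_eq_true (h2.1 a ha)),
    fun a ha => Nat.lt_succ_of_le (Nat.le_of_ble_eq_true (h2.2 a ha))⟩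

theorem V01_tab (AB : ℕ → VB) (ab : VB) (VL UL : LT) (ht : tabOK T AB ab VL UL = true)
    (i k : ℕ) (hi : i < T.k + 1) (hk : k < 4) :
    inV (appW AB (T.WN i k) ab) (getV VL i k) = true ∧
    inV (appW AB (T.hN (T.nbN i k) (pmV (T.sN i k) k)) (appW AB (T.WN i k) ab))
      (getV UL (T.nbN i k) (pmV (T.sN i k) k)) = true := by
  unfold tabOK at ht
  rw [List.all_eq_true] at ht
  have h1 := ht i (List.mem_range.2 hi)
  rw [List.all_eq_true] at h1
  have h2 := h1 k (List.mem_range.2 hk)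
  rw [fV_eq, Bool.and_eq_true, fN_eq, fN_eq] at h2
  exact h2

theorem tab_sound {ρ : G →* SL(2, ℂ)} {A : ℕ → V2} (hom : ∀ f, f < 38 → ρ (X f) = PV (A f))
    (AB : ℕ → VB) (hAB : ∀ f, f < 38 → MemV (A f) (AB f)) (h : T.chk1 = true)
    (hl : lettersOK T = true) (a : V2) (ab : VB) (ha : MemV a ab) (VL UL : LT)
    (ht : tabOK T AB ab VL UL = true) (i : Fin (T.k + 1)) (k : Fin 4) :
    MemV (T.vtx X ρ a i k) (getV VL i.1 k.1) ∧
    MemV ((ρ ((T.comb X).h i k)).1.mulVec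
      (T.vtx X ρ a ((T.comb X).nb i k) ((T.comb X).s i k k))) (getV UL i.1 k.1) := by
  have hW : ∀ (i : Fin (T.k + 1)) (k : Fin 4), MemV (T.vtx X ρ a i k) (appW AB (T.WN i.1 k.1) ab) :=
    fun i k => appW_sound X hom AB hAB _ (V01_letters T hl i.1 k.1 i.2 k.2).1 a ab ha
  refine ⟨V01_inV (hW i k) (V01_tab T AB ab VL UL ht i.1 k.1 i.2 k.2).1, ?_⟩
  obtain ⟨i0, hi0⟩ : ∃ i0, i0 = (T.comb X).nb i k := ⟨_, rfl⟩
  obtain ⟨k0, hk0⟩ : ∃ k0, k0 = (T.comb X).s i k k := ⟨_, rfl⟩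
  have h1 : (T.comb X).nb i0 k0 = i := by
    rw [hi0, hk0]
    exact comb_nb_nb X T h i k
  have h2 : (T.comb X).s i0 k0 k0 = k := by
    have h3 := comb_s_s X T h i k
    rw [← hi0, ← hk0] at h3
    rw [h3, hk0]
    exact Equiv.symm_apply_apply _ _
  obtain ⟨c1, _, c3, _⟩ := comb_codes X T h i0 k0
  rw [h1] at c1
  have c4 := c3 k0
  rw [h2] at c4
  have h5 := (V01_tab T AB ab VL UL ht i0.1 k0.1 i0.2 k0.2).2
  rw [← c1, ← c4] at h5
  rw [← hi0, ← hk0]
  exact V01_inV (appW_sound X hom AB hAB _ (V01_letters T hl i.1 k.1 i.2 k.2).2 _ _ (hW i0 k0)) h5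

end TorMut
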