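import Pool.Agent.Lib.MP_407fc5_gt.RDefs
import Pool.Agent.Lib.MP_407fc5_gt.F01
import Pool.Agent.Lib.MP_407fc5_gt.F03
import Pool.Agent.Lib.MP_407fc5_gt.V01
import Pool.Agent.Lib.MP_407fc5_gt.B02
import Pool.Agent.Lib.MP_407fc5_gt.B03
import Pool.Agent.Lib.MP_407fc5_gt.A01

/-!
# A02: enclosures for the conjugating element (about 60 minutes)

`tc_words`: the strands below `top` are `[(0, true), (4, false), (8, true), (2, false), (6, false), (3, true)]`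
(`run_frun_take` with `L = 9`, `top = D₁.take 9`), and the maxima `3`, `4` are the arcs `9`, `10`; so
`tc g 0 * tc g 1 = α (evW X wordA)` etc.  `appW_sound` (V01) for the words.  The matrix
`mMat a b c = (2 - tr u)⁻¹ • (a⁻¹ (s - 1) (1 - u⁻¹))`, `s = a b`, `u = c a b c⁻¹` is applied to a vector in
the order of `mB`; `2 - tr u` is enclosed by `deltaB` (trace = first entry of `u e₁` plus second entry of
`u e₂`), its inverse by `deltaI` (`inv_sound`, `delta_ok`).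
-/

namespace TorMut

open Tile Matrix MatrixGroups

theorem delta_ok : CB.invOK deltaB deltaW = true := by decide +kernel

theorem A02_ok : OK 0 D₁ := by
  simp [OK, D₁, top, box1, bot, rib, Layer.ok, Layer.out]

theorem A02_strands : (arcRun sg 0 0 [] (D₁.take 9)).1 =
    [(0, true), (4, false), (8, true), (2, false), (6, false), (3, true)] := by decide +kernel

theorem A02_born3 : R₁[9]? = some (.born 3) := by decide +kernel

theorem A02_born4 : R₁[10]? = some (.born 4) := by decide +kernel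

theorem A02_top (X : ℕ → LinkGroup D₁) (hX : IsSol opG (ori sg (mer D₁)) R₁ X) :
    tc (mer D₁) 0 = X 0 ∧ tc (mer D₁) 1 = (X 4)⁻¹ ∧ tc (mer D₁) 2 = X 8 ∧
      tc (mer D₁) 3 = (X 2)⁻¹ ∧ mer D₁ 3 = X 9 ∧ mer D₁ 4 = (X 10)⁻¹ := by
  have h1 : (run (mer D₁) 0 [] top).1 = [X 0, (X 4)⁻¹, X 8, (X 2)⁻¹, (X 6)⁻¹, X 3] := by
    have h2 := run_frun_take sg (mer D₁) X D₁ A02_ok 9 hX
    rw [A02_strands] at h2
    exact h2
  have h3 : X 9 = mer D₁ 3 := hX 9 (.born 3) A02_born3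
  have h4 : X 10 = (mer D₁ 4)⁻¹ := hX 10 (.born 4) A02_born4
  unfold tc
  rw [h1]
  refine ⟨rfl, rfl, rfl, rfl, h3.symm, ?_⟩
  rw [h4, inv_inv]

theorem tc_words (α₁ : LinkGroup D₁ →* SL(2, ℂ)) (X : ℕ → LinkGroup D₁)
    (hX : IsSol opG (ori sg (mer D₁)) R₁ X) (g : ℕ → SL(2, ℂ))
    (hg : g = fun k => α₁ (mer D₁ k)) :
    tc g 0 * tc g 1 = α₁ (evW X wordA) ∧
    (tc g 0 * tc g 1) * (tc g 2 * tc g 3) = α₁ (evW X wordS) ∧
    g 3 * g 4 = α₁ (evW X wordC) ∧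
    (g 3 * g 4) * (tc g 0 * tc g 1) * (tc g 2 * tc g 3) * (g 3 * g 4)⁻¹ =
      α₁ (evW X wordU) := by
  obtain ⟨e0, e1, e2, e3, m3, m4⟩ := A02_top X hX
  have t0 : tc g 0 = α₁ (X 0) := by rw [hg, t11_tc_map, e0]
  have t1 : tc g 1 = (α₁ (X 4))⁻¹ := by rw [hg, t11_tc_map, e1, map_inv]
  have t2 : tc g 2 = α₁ (X 8) := by rw [hg, t11_tc_map, e2]
  have t3 : tc g 3 = (α₁ (X 2))⁻¹ := by rw [hg, t11_tc_map, e3, map_inv]
  have g3 : g 3 = α₁ (X 9) := by rw [hg, ← m3]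
  have g4 : g 4 = (α₁ (X 10))⁻¹ := by
    rw [hg, ← map_inv, ← m4]
  have hA : evW X wordA = X 0 * ((X 4)⁻¹ * 1) := rfl
  have hS : evW X wordS = X 0 * ((X 4)⁻¹ * (X 8 * ((X 2)⁻¹ * 1))) := rfl
  have hC : evW X wordC = X 9 * ((X 10)⁻¹ * 1) := rfl
  have hU : evW X wordU = X 9 * ((X 10)⁻¹ * (X 0 * ((X 4)⁻¹ * (X 8 * ((X 2)⁻¹ *
      (X 10 * ((X 9)⁻¹ * 1))))))) := rfl
  rw [hA, hS, hC, hU, t0, t1, t2, t3, g3, g4]
  simp only [map_mul, map_inv, mul_one, _root_.mul_inv_rev, inv_inv, mul_assoc,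
    and_self]

theorem A02_letters : (∀ a ∈ wordA, a < 76) ∧ (∀ a ∈ wordS, a < 76) ∧ (∀ a ∈ wordC, a < 76) ∧
    (∀ a ∈ wordU, a < 76) ∧ (∀ a ∈ invW wordA, a < 76) ∧ (∀ a ∈ invW wordC, a < 76) ∧
    (∀ a ∈ invW wordU, a < 76) := by
  decide

section
variable (α₁ : LinkGroup D₁ →* SL(2, ℂ)) (X : ℕ → LinkGroup D₁) (A : ℕ → V2)
    (caps : List (ℕ × ℕ))

theorem A02_word (h : Rep D₁ R₁ caps AB1 α₁ X A) (w : List ℕ) (hw : ∀ a ∈ w, a < 76) (v : V2)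
    (vb : VB) (hv : MemV v vb) : MemV ((α₁ (evW X w)).1.mulVec v) (appW AB1 w vb) :=
  appW_sound X h.frame.hom AB1 h.mem w hw v vb hv

theorem A02_inv (h : Rep D₁ R₁ caps AB1 α₁ X A) (w : List ℕ) (hw : ∀ a ∈ invW w, a < 76) (v : V2)
    (vb : VB) (hv : MemV v vb) :
    MemV (((α₁ (evW X w))⁻¹).1.mulVec v) (appW AB1 (invW w) vb) := by
  have h1 := A02_word α₁ X A caps h (invW w) hw v vb hv
  rw [evW_invW, map_inv] at h1
  exact h1

theorem A02_delta (h : Rep D₁ R₁ caps AB1 α₁ X A) :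
    Mem (2 - (α₁ (evW X wordU)).1.trace) deltaB := by
  obtain ⟨M, hM⟩ : ∃ M, M = α₁ (evW X wordU) := ⟨_, rfl⟩
  have h1 := A02_word α₁ X A caps h wordU A02_letters.2.2.2.1 ![1, 0] (CB.one, CB.zero)
    ⟨mem_one, mem_zero⟩
  have h2 := A02_word α₁ X A caps h wordU A02_letters.2.2.2.1 ![0, 1] (CB.zero, CB.one)
    ⟨mem_zero, mem_one⟩
  rw [← hM] at h1 h2 ⊢
  have e1 : M.1.mulVec ![1, 0] 0 = M.1 0 0 := by
    simp [Matrix.mulVec, dotProduct, Fin.sum_univ_two]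
  have e2 : M.1.mulVec ![0, 1] 1 = M.1 1 1 := by
    simp [Matrix.mulVec, dotProduct, Fin.sum_univ_two]
  have h3 := h1.1
  have h4 := h2.2
  rw [e1] at h3
  rw [e2] at h4
  unfold deltaB trB
  rw [Matrix.trace_fin_two, show (2 : ℂ) = 1 + 1 by norm_num]
  exact mem_sub (mem_add mem_one mem_one) (mem_add h3 h4)

end

theorem traceOK_of_rep (α₁ : LinkGroup D₁ →* SL(2, ℂ)) (X : ℕ → LinkGroup D₁) (A : ℕ → V2)
    (caps : List (ℕ × ℕ)) (h : Rep D₁ R₁ caps AB1 α₁ X A) :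
    TraceOK fun k => α₁ (mer D₁ k) := by
  obtain ⟨g, hg⟩ : ∃ g : ℕ → SL(2, ℂ), g = fun k => α₁ (mer D₁ k) := ⟨_, rfl⟩
  rw [← hg]
  unfold TraceOK
  obtain ⟨-, -, -, hU⟩ := tc_words α₁ X h.sol g hg
  rw [hU]
  intro h2
  refine (inv_sound (A02_delta α₁ X A caps h) delta_ok).1 ?_
  rw [h2, sub_self]

/-- the matrix `m` -/
theorem A02_m (α₁ : LinkGroup D₁ →* SL(2, ℂ)) (X : ℕ → LinkGroup D₁) (A : ℕ → V2)
    (caps : List (ℕ × ℕ)) (h : Rep D₁ R₁ caps AB1 α₁ X A) (g : ℕ → SL(2, ℂ))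
    (hg : g = fun k => α₁ (mer D₁ k)) (v : V2) (vb : VB) (hv : MemV v vb) :
    MemV ((mSL (tc g 0 * tc g 1) (tc g 2 * tc g 3) (g 3 * g 4)).1.mulVec v) (mB deltaI vb) := by
  obtain ⟨hA, hS, -, hU⟩ := tc_words α₁ X h.sol g hg
  obtain ⟨lA, lS, lC, lU, lA', lC', lU'⟩ := A02_letters
  have ht : TraceOK g := by
    rw [hg]
    exact traceOK_of_rep α₁ X A caps h
  rw [(second_conj α₁ g hg ht).2.2]
  have hd := (inv_sound (A02_delta α₁ X A caps h) delta_ok).2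
  unfold mMat mB
  rw [hU, hS, hA, fV_eq, fV_eq, fV_eq, Matrix.smul_mulVec, ← Matrix.mulVec_mulVec,
    ← Matrix.mulVec_mulVec, Matrix.sub_mulVec, Matrix.sub_mulVec, Matrix.one_mulVec,
    Matrix.one_mulVec]
  refine memV_smul hd ?_
  refine A02_inv α₁ X A caps h wordA lA' _ _ ?_
  have h1 := memV_sub hv (A02_inv α₁ X A caps h wordU lU' _ _ hv)
  exact memV_sub (A02_word α₁ X A caps h wordS lS _ _ h1) h1

theorem kap_sound (α₁ : LinkGroup D₁ →* SL(2, ℂ)) (X : ℕ → LinkGroup D₁) (A : ℕ → V2)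
    (caps : List (ℕ × ℕ)) (h : Rep D₁ R₁ caps AB1 α₁ X A) (v : V2) (vb : VB) (hv : MemV v vb) :
    MemV ((kap fun k => α₁ (mer D₁ k)).1.mulVec v) (kapB deltaI vb) := by
  obtain ⟨g, hg⟩ : ∃ g : ℕ → SL(2, ℂ), g = fun k => α₁ (mer D₁ k) := ⟨_, rfl⟩
  rw [← hg]
  obtain ⟨hA, -, hC, -⟩ := tc_words α₁ X h.sol g hg
  obtain ⟨lA, lS, lC, lU, lA', lC', lU'⟩ := A02_letters
  have hm := A02_m α₁ X A caps h g hg
  unfold kap kapB
  obtain ⟨m, hm'⟩ : ∃ m, m = mSL (tc g 0 * tc g 1) (tc g 2 * tc g 3) (g 3 * g 4) := ⟨_, rfl⟩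
  rw [← hm'] at hm ⊢
  rw [hA, hC, fV_eq, fV_eq, fV_eq, fV_eq, fV_eq, fV_eq, sq, V01_mul_mulVec, V01_mul_mulVec,
    V01_mul_mulVec, V01_mul_mulVec, V01_mul_mulVec, V01_mul_mulVec]
  have h1 := A02_word α₁ X A caps h wordC lC _ _ hv
  have h2 := hm _ _ h1
  have h3 := A02_word α₁ X A caps h wordA lA _ _ h2
  have h4 := hm _ _ (hm _ _ h3)
  exact A02_inv α₁ X A caps h wordA lA' _ _ (A02_inv α₁ X A caps h wordC lC' _ _ h4)

end TorMut
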