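import Pool.Agent.Lib.MP_407fc5_gt.VDefs
import Pool.Agent.Lib.MP_407fc5_gt.SData

/-!
# MP_407fc5_gt, part A: the spinors of the second knot (definitions)

With `a = X 0 (X 4)⁻¹`, `b = X 8 (X 2)⁻¹`, `c = X 9 (X 10)⁻¹` (in the group of the first knot), `s = a b`,
`u = c s c⁻¹` and the matrix `m` of `T05`, the second representation is the first one on the maxima
`0, 1, 2` and its conjugate by `κ = a⁻¹ c⁻¹ m² a m c` on the maxima `3, 4`.
-/

namespace TorMut

open Tile Matrix MatrixGroups

/-- balls of the 38 arcs of the first knot -/
def arcs1 : List VB := evalR fV opB (bB xBK) vb0 R₁ 0 []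

def AB1 : ℕ → VB := nth vb0 arcs1

def wordA : List ℕ := [0, 9]
def wordS : List ℕ := [0, 9, 16, 5]
def wordC : List ℕ := [18, 21]
def wordU : List ℕ := [18, 21, 0, 9, 16, 5, 20, 19]

/-- the trace of `u` -/
def trB : CB :=
  CB.add (appW AB1 wordU (CB.one, CB.zero)).1 (appW AB1 wordU (CB.zero, CB.one)).2

/-- `2 - tr u` -/
def deltaB : CB := CB.sub (CB.add CB.one CB.one) trB

/-- approximation of `1 / (2 - tr u)` -/
def deltaW : CB :=
  ⟨1581072155462152302219397742604033581417259075364804802770243368722277125314828726817946810545505240173719530319092940399819203641780729044574857080057274928356556393955483551923445046787459783635089423352225379641928767179599525094279580918, 32036462458730756650168660124225767101928092217648379409115500780395854600260018428662777217018550628642891795500980168934188486410830823100164089598946719813311632887737180082652185279008290642106246137203722387241942427287035953689000111, 0⟩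

/-- the inverse of `2 - tr u` -/
def deltaI : CB := CB.inv deltaB deltaW

/-- the matrix `m`; `di` is a ball for the inverse of `2 - tr u` -/
def mB (di : CB) (v : VB) : VB :=
  fV (subV v (appW AB1 (invW wordU) v)) fun w =>
  fV (subV (appW AB1 wordS w) w) fun w' =>
  fV (appW AB1 (invW wordA) w') fun w'' => smulV di w''

/-- the element `κ` -/
def kapB (di : CB) (v : VB) : VB :=
  fV (appW AB1 wordC v) fun v1 => fV (mB di v1) fun v2 => fV (appW AB1 wordA v2) fun v3 =>
  fV (mB di v3) fun v4 => fV (mB di v4) fun v5 => fV (appW AB1 (invW wordC) v5) fun v6 =>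
    appW AB1 (invW wordA) v6

/-- balls for the spinors of the maxima of the second knot -/
def bB2 : ℕ → VB
  | 0 => bB xBK 0
  | 1 => bB xBK 1
  | 2 => bB xBK 2
  | 3 => fC deltaI fun di => kapB di (bB xBK 3)
  | _ => fC deltaI fun di => kapB di (bB xBK 4)

/-- balls of the 38 arcs of the second knot -/
def arcs2 : List VB := evalR fV opB bB2 vb0 R₂ 0 []

def AB2 : ℕ → VB := nth vb0 arcs2

end TorMut
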