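import Pool.Agent.Lib.MP_407fc5_gt.FDefs

/-!
# MP_407fc5_gt, part S: balls with slopes, the system of equations (definitions)

The vertex vectors (spinors) of the five maxima of the first knot are
`(1, 0)`, `(0, x₀)`, `(x₁, x₂)`, `(x₃, x₄)`, `(x₅, x₆)`; the seven equations `F7` say that three of the
local minima close up exactly and the fourth one up to a factor.
-/

namespace TorMut

open Tile

/-- the seven unknowns -/
abbrev E7 := Fin 7 → ℂ

/-- the box given by seven balls -/
def Box (xB : List CB) : Set E7 := {x | ∀ j : Fin 7, Mem (x j) (xB.getD j CB.zero)}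

/-- a ball and seven slopes -/
structure SB where
  v : CB
  s : List CB

/-- `b` encloses the values of `q` on the box and the slopes of `q` between any two points -/
def SMem (xB : List CB) (q : E7 → ℂ) (b : SB) : Prop :=
  (∀ x ∈ Box xB, Mem (q x) b.v) ∧ b.s.length = 7 ∧
    ∀ x ∈ Box xB, ∀ y ∈ Box xB, ∃ σ : Fin 7 → ℂ,
      (∀ j : Fin 7, Mem (σ j) (b.s.getD j CB.zero)) ∧ q x - q y = ∑ j, σ j * (x j - y j)

/-- `zipWith` with forced evaluation -/
def zipF {α : Type*} (f : CB → CB → CB) : List CB → List CB → (List CB → α) → α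
  | a :: s, b :: t, k => fC (f a b) fun x => zipF f s t fun l => k (x :: l)
  | [], _, k => k []
  | _ :: _, [], k => k []

namespace SB

def addF {α : Type*} (b c : SB) (k : SB → α) : α :=
  match b, c with
  | ⟨v, s⟩, ⟨w, t⟩ => fC (CB.add v w) fun x => zipF CB.add s t fun l => k ⟨x, l⟩

def subF {α : Type*} (b c : SB) (k : SB → α) : α :=
  match b, c with
  | ⟨v, s⟩, ⟨w, t⟩ => fC (CB.sub v w) fun x => zipF CB.sub s t fun l => k ⟨x, l⟩

def mulF {α : Type*} (b c : SB) (k : SB → α) : α :=
  match b, c with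
  | ⟨v, s⟩, ⟨w, t⟩ =>
    fC (CB.mul v w) fun x =>
      zipF (fun p q => CB.add (CB.mul v q) (CB.mul p w)) s t fun l => k ⟨x, l⟩

end SB

abbrev SV := SB × SB

def SMemV (xB : List CB) (q : E7 → V2) (b : SV) : Prop :=
  SMem xB (fun x => q x 0) b.1 ∧ SMem xB (fun x => q x 1) b.2

/-- determinant -/
def DtS {α : Type*} (u v : SV) (k : SB → α) : α :=
  match u, v with
  | (u0, u1), (v0, v1) => SB.mulF u0 v1 fun p => SB.mulF u1 v0 fun q => SB.subF p q k

/-- the quandle operation -/
def opSF {α : Type*} (s : Bool) (o c : SV) (k : SV → α) : α :=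
  DtS o c fun d =>
    match o, c with
    | (o0, o1), (c0, c1) =>
      SB.mulF d o0 fun x => SB.mulF d o1 fun y =>
        match s with
        | true => SB.subF c0 x fun u => SB.subF c1 y fun w => k (u, w)
        | false => SB.addF c0 x fun u => SB.addF c1 y fun w => k (u, w)

def opS (s : Bool) (o c : SV) : SV := opSF s o c fun x => x

def frcS (x : SV) (k : SV → List SV) : List SV :=
  match x with
  | (u, w) => k (u, w)

/-- a constant -/
def constS (v : CB) : SB := ⟨v, [CB.zero, CB.zero, CB.zero, CB.zero, CB.zero, CB.zero, CB.zero]⟩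

/-- the unknown number `j` -/
def varS (xB : List CB) (j : ℕ) : SB :=
  ⟨xB.getD j CB.zero, (List.range 7).map fun i => match Nat.beq i j with
    | true => CB.one
    | false => CB.zero⟩

/-- spinors of the maxima as functions of the unknowns -/
noncomputable def bV (x : E7) : ℕ → V2
  | 0 => ![1, 0]
  | 1 => ![0, x 0]
  | 2 => ![x 1, x 2]
  | 3 => ![x 3, x 4]
  | _ => ![x 5, x 6]

/-- balls with slopes for the maxima -/
def bS (xB : List CB) : ℕ → SV
  | 0 => (constS CB.one, constS CB.zero)
  | 1 => (constS CB.zero, varS xB 0)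
  | 2 => (varS xB 1, varS xB 2)
  | 3 => (varS xB 3, varS xB 4)
  | _ => (varS xB 5, varS xB 6)

/-- balls for the maxima -/
def bB (xB : List CB) : ℕ → VB
  | 0 => (CB.one, CB.zero)
  | 1 => (CB.zero, xB.getD 0 CB.zero)
  | 2 => (xB.getD 1 CB.zero, xB.getD 2 CB.zero)
  | 3 => (xB.getD 3 CB.zero, xB.getD 4 CB.zero)
  | _ => (xB.getD 5 CB.zero, xB.getD 6 CB.zero)

/-- the seven equations for the first knot -/
noncomputable def F7 (A : ℕ → V2) : E7 :=
  ![A 21 0 + A 32 0, A 21 1 + A 32 1, A 22 0 + A 34 0, A 22 1 + A 34 1,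
    A 35 0 - A 3 0, A 35 1 - A 3 1, Dt (A 37) (A 6)]

/-- balls for the seven equations -/
def F7B (L : ℕ → VB) : List CB :=
  [CB.add (L 21).1 (L 32).1, CB.add (L 21).2 (L 32).2, CB.add (L 22).1 (L 34).1,
    CB.add (L 22).2 (L 34).2, CB.sub (L 35).1 (L 3).1, CB.sub (L 35).2 (L 3).2, DtB (L 37) (L 6)]

/-- balls with slopes for the seven equations -/
def F7S (L : ℕ → SV) (k : List SB → Bool) : Bool :=
  SB.addF (L 21).1 (L 32).1 fun e0 => SB.addF (L 21).2 (L 32).2 fun e1 =>
  SB.addF (L 22).1 (L 34).1 fun e2 => SB.addF (L 22).2 (L 34).2 fun e3 =>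
  SB.subF (L 35).1 (L 3).1 fun e4 => SB.subF (L 35).2 (L 3).2 fun e5 =>
  DtS (L 37) (L 6) fun e6 => k [e0, e1, e2, e3, e4, e5, e6]

/-- access to the list of the values of all arcs (38 arcs, the last one first) -/
def nth {β : Type*} (d : β) (l : List β) (f : ℕ) : β := l.getD (Nat.sub 37 f) d

def sv0 : SV := (⟨CB.zero, []⟩, ⟨CB.zero, []⟩)

def vb0 : VB := (CB.zero, CB.zero)

/-- scalar product of a row of numbers with a column of balls -/
def dotB : List CB → List CB → CB → CB
  | a :: s, b :: t, acc => fC (CB.add acc (CB.mul a b)) fun x => dotB s t x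
  | _, _, acc => acc

/-- column number `j` of the slopes -/
def colS (E : List SB) (j : ℕ) : List CB := E.map fun e => e.s.getD j CB.zero

/-- force the evaluation of a list -/
def fL {α : Type*} : List CB → (List CB → α) → α
  | [], k => k []
  | a :: l, k => fC a fun x => fL l fun l' => k (x :: l')

/-- the matrix `1 - A S` has row sums at most `1 / 2` -/
def rowsOK (A : List (List CB)) (E : List SB) : Bool :=
  (List.range 7).all fun i =>
    Nat.ble (Nat.mul 2 (((List.range 7).map fun j =>
      CB.up (CB.sub (match Nat.beq i j with | true => CB.one | false => CB.zero)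
        (dotB (A.getD i []) (colS E j) CB.zero))).foldl Nat.add 0)) (Nat.pow 2 sc)

/-- Krawczyk's test: slopes -/
def kraw1 (R : List Arc) (xB : List CB) (A : List (List CB)) : Bool :=
  F7S (nth sv0 (evalR frcS opS (bS xB) sv0 R 0 [])) fun E => rowsOK A E

/-- Krawczyk's test: the value at the centre `x₀`; `r` is the radius of the box -/
def kraw2 (R : List Arc) (x0 : List CB) (r : ℕ) (A : List (List CB)) : Bool :=
  fL (F7B (nth vb0 (evalR fV opB (bB x0) vb0 R 0 []))) fun l =>
    (List.range 7).all fun i =>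
      Nat.ble (Nat.mul 2 (CB.up (dotB (A.getD i []) l CB.zero))) r

end TorMut
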