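import Pool.Agent.Lib.MP_407fc5_gt.E01
import Pool.Agent.Lib.MP_407fc5_gt.F01
import Pool.Agent.Lib.MP_407fc5_gt.B04
import Pool.Agent.Lib.MP_407fc5_gt.SDefs

/-!
# E02: the relators of the first knot are satisfied (about 60 minutes)

With `X f = PV (A f)` (a solution for `opG`, by `PV_opV`) `run_frun` gives the relators
`[P21⁻¹ P32, P22 P34⁻¹, P35⁻¹ P3, P37 P6⁻¹, P18 P36⁻¹]` (`(arcRun sg 0 0 [] D₁).2.2` by `decide`/`rfl`:
`[((21, false), (32, true)), ((22, true), (34, false)), ((35, false), (3, true)), ((37, true), (6, false)),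
((18, true), (36, false))]`).  `F7 A = 0` gives `A 21 = - A 32`, `A 22 = - A 34`, `A 35 = A 3`, so the first
three are trivial (`PV_neg`), and `Dt (A 37) (A 6) = 0`.  Before the last three minima (the word
`D₁.take (D₁.length - 3)`, whose relators are the first two) the six colours have the product `1`
(`run_prod`): `P18 P36⁻¹ P37 P6⁻¹ (P35⁻¹ P3) = 1`; `PV_last` gives the last two.
-/

namespace TorMut

open Tile

/-- the meridians of the five maxima given by spinors -/
noncomputable def gSL (b : ℕ → V2) : ℕ → Matrix.SpecialLinearGroup (Fin 2) ℂ :=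
  ori sg fun k => PV (b k)

theorem caps_D₁ : (arcRun sg 0 0 [] D₁).2.2 = [((21, false), (32, true)), ((22, true), (34, false)),
    ((35, false), (3, true)), ((37, true), (6, false)), ((18, true), (36, false))] := by
  decide +kernel

/-- the first knot without the last three minima -/
def e02u : Word := top ++ box1 ++ [.cross 3 true, .cross 1 true, .cross 1 true]

theorem e02_st : (arcRun sg 0 0 [] e02u).1 =
    [(18, true), (36, false), (37, true), (6, false), (35, false), (3, true)] := by
  decide +kernel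

theorem e02_caps : (arcRun sg 0 0 [] e02u).2.2 =
    [((21, false), (32, true)), ((22, true), (34, false))] := by
  decide +kernel

theorem e02_arcs : (arcRun sg 0 0 [] e02u).2.1 = R₁ := by
  decide +kernel

theorem e02_ori (b : ℕ → V2) (k : ℕ) : ori sg (gSL b) k = PV (b k) := by
  unfold gSL ori
  cases sg k <;> simp

theorem e02_eval (b A : ℕ → V2) (r : Arc) :
    PV (r.eval opV b A) = r.eval opG (ori sg (gSL b)) (fun f => PV (A f)) := by
  cases r with
  | born k => exact (e02_ori b k).symm
  | cross o s c => exact PV_opV s (A o) (A c)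

theorem relators_one (b A : ℕ → V2) (hA : IsSol opV b R₁ A) (hF : F7 A = 0)
    (hne : Dt (A 37) (A 18) ≠ 0) : ∀ r ∈ (run (gSL b) 0 [] D₁).2, r = 1 := by
  have hX : ∀ (j : ℕ) (r : Arc), R₁[j]? = some r →
      PV (A (0 + j)) = r.eval opG (ori sg (gSL b)) (fun f => PV (A f)) := by
    intro j r hr
    rw [← e02_eval, ← hA j r hr, Nat.zero_add]
  have hOK : OK 0 D₁ := by
    simp [OK, D₁, top, box1, bot, rib, Layer.ok, Layer.out]
  have hOKu : OK 0 e02u := by
    simp [OK, e02u, top, box1, rib, Layer.ok, Layer.out]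
  have h1 := run_frun sg (gSL b) (fun f => PV (A f)) 0 0 [] D₁ hOK hX
  have h2 := run_frun sg (gSL b) (fun f => PV (A f)) 0 0 [] e02u hOKu
    (by rw [e02_arcs]; exact hX)
  rw [caps_D₁] at h1
  rw [e02_caps, e02_st] at h2
  simp only [List.map_nil, List.map_cons, col] at h1 h2
  have f0 := congrFun hF 0
  have f1 := congrFun hF 1
  have f2 := congrFun hF 2
  have f3 := congrFun hF 3
  have f4 := congrFun hF 4
  have f5 := congrFun hF 5
  have f6 := congrFun hF 6
  simp only [F7, Pi.zero_apply] at f0 f1 f2 f3 f4 f5 f6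
  change A 21 0 + A 32 0 = 0 at f0
  change A 21 1 + A 32 1 = 0 at f1
  change A 22 0 + A 34 0 = 0 at f2
  change A 22 1 + A 34 1 = 0 at f3
  change A 35 0 - A 3 0 = 0 at f4
  change A 35 1 - A 3 1 = 0 at f5
  change Dt (A 37) (A 6) = 0 at f6
  have e1 : PV (A 21) = PV (A 32) := by
    have h : A 21 = -A 32 := by
      funext i
      fin_cases i
      · exact eq_neg_of_add_eq_zero_left f0
      · exact eq_neg_of_add_eq_zero_left f1
    rw [h, PV_neg]
  have e2 : PV (A 22) = PV (A 34) := by
    have h : A 22 = -A 34 := by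
      funext i
      fin_cases i
      · exact eq_neg_of_add_eq_zero_left f2
      · exact eq_neg_of_add_eq_zero_left f3
    rw [h, PV_neg]
  have e3 : PV (A 35) = PV (A 3) := by
    have h : A 35 = A 3 := by
      funext i
      fin_cases i
      · exact sub_eq_zero.1 f4
      · exact sub_eq_zero.1 f5
    rw [h]
  have hu2 : (run (gSL b) 0 [] e02u).2 = [(PV (A 21))⁻¹ * PV (A 32), PV (A 22) * (PV (A 34))⁻¹] :=
    congrArg Prod.snd h2
  have hu1 : (run (gSL b) 0 [] e02u).1 = [PV (A 18), (PV (A 36))⁻¹, PV (A 37), (PV (A 6))⁻¹,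
      (PV (A 35))⁻¹, PV (A 3)] := congrArg Prod.fst h2
  have hprod := run_prod (gSL b) 0 [] e02u hOKu (by
    intro r hr
    rw [hu2] at hr
    simp only [List.mem_cons, List.not_mem_nil, or_false] at hr
    rcases hr with h | h
    · rw [h, e1, inv_mul_cancel]
    · rw [h, e2, mul_inv_cancel])
  rw [hu1, e3] at hprod
  have hlast : PV (A 18) * (PV (A 36))⁻¹ * (PV (A 37) * (PV (A 6))⁻¹) = 1 := by
    simp only [List.prod_cons, List.prod_nil, mul_one, inv_mul_cancel] at hprod
    rw [← hprod]
    group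
  obtain ⟨e4, e5⟩ := PV_last (A 37) (A 6) (A 18) (A 36) f6 hne hlast
  intro r hr
  rw [h1] at hr
  simp only [List.mem_cons, List.not_mem_nil, or_false] at hr
  rcases hr with h | h | h | h | h
  · rw [h, e1, inv_mul_cancel]
  · rw [h, e2, mul_inv_cancel]
  · rw [h, e3, inv_mul_cancel]
  · rw [h, e5, mul_inv_cancel]
  · rw [h, e4, mul_inv_cancel]

end TorMut
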