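import Pool.Agent.Lib.MP_407fc5_gt.S04
import Pool.Agent.Lib.MP_407fc5_gt.E02
import Pool.Agent.Lib.MP_407fc5_gt.ADefs

/-!
# E03: existence of the representation of the first knot group (about 30 minutes)

`exists_zero` (S04), `exists_sol`, `relators_one` (E02), `exists_hom` (T02).  `Dt (A 37) (A 18) ≠ 0` from
the kernel computation `gen1_true` (`evalR_rel` with `Rl := MemV`, `memV_bB`, `memV_Dt`, `ne0_sound`).
-/

namespace TorMut

open Tile

theorem gen1_true : CB.ne0 (DtB (nth vb0 arcs1 37) (nth vb0 arcs1 18)) = true := by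
  decide +kernel

theorem arcs1_mem (x : E7) (hx : x ∈ Box xBK) (A : ℕ → V2) (hA : IsSol opV (bV x) R₁ A) (f : ℕ)
    (hf : f < 38) : MemV (A f) (nth vb0 arcs1 f) := by
  have h := evalR_rel MemV opV opB (bV x) (bB xBK) vb0 fV fV_eq
    (fun s o c o' c' h1 h2 => memV_opB s h1 h2) R₁ (fun k _ => memV_bB x hx k) wf_R₁ A hA f
    (by rw [len_R₁]; exact hf)
  rw [len_R₁] at h
  exact h

theorem e03_births : births D₁ = 5 := by decide +kernel

theorem exists_alpha1 : ∃ (x : E7) (A : ℕ → V2)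
    (α : LinkGroup D₁ →* Matrix.SpecialLinearGroup (Fin 2) ℂ),
    x ∈ Box xBK ∧ IsSol opV (bV x) R₁ A ∧ ∀ k, k < 5 → α (mer D₁ k) = gSL (bV x) k := by
  obtain ⟨x, hx, hF⟩ := exists_zero
  obtain ⟨A, hA⟩ := exists_sol opV (bV x) R₁ wf_R₁
  have hne : Dt (A 37) (A 18) ≠ 0 :=
    ne0_sound (memV_Dt (arcs1_mem x hx A hA 37 (by norm_num))
      (arcs1_mem x hx A hA 18 (by norm_num))) gen1_true
  obtain ⟨α, hα⟩ := exists_hom D₁ (gSL (bV x)) (relators_one (bV x) A hA (hF A hA) hne)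
  refine ⟨x, A, α, hx, hA, fun k hk => hα k ?_⟩
  rw [e03_births]
  exact hk

end TorMut
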