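import Pool.Agent.Lib.MP_407fc5_gt.RDefs
import Pool.Agent.Lib.MP_407fc5_gt.E03
import Pool.Agent.Lib.MP_407fc5_gt.F03
import Pool.Agent.Lib.MP_407fc5_gt.Dat1
import Pool.Agent.Lib.MP_407fc5_gt.Dat2

/-!
# A03: frames (about 45 minutes)

`frame_of`: `X` is a solution of the arc equations in the link group, `A` one for the spinors `b`;
`Frame.hom` is `frame_hom` (F03), `capX` is `caps_X` (F03), `gen`: the arcs `0, 1, 2, 9, 10` are the
maxima, so their `X` are the meridians `mer D k`, `k < 5`, or their inverses, and these generate the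
link group (`PresentedGroup.closure_range_of` or induction).
-/

namespace TorMut

open Tile Matrix MatrixGroups

theorem A03_mer (D : Word) (k : ℕ) (h : k < births D) :
    (PresentedGroup.of ⟨k, h⟩ : LinkGroup D) = mer D k := by
  unfold mer gen
  rw [dif_pos h]
  rfl

theorem A03_mem {G : Type*} [Group G] (H : Subgroup G) (σ : ℕ → Bool) (g : ℕ → G) (k : ℕ)
    (h : ori σ g k ∈ H) : g k ∈ H := by
  unfold ori at h
  cases hs : σ k
  · rw [hs] at h
    exact inv_mem_iff.1 h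
  · rw [hs] at h
    exact h

theorem A03_gen (D : Word) (hb : births D = 5) (X : ℕ → LinkGroup D)
    (h0 : X 0 = ori sg (mer D) 0) (h1 : X 1 = ori sg (mer D) 1) (h2 : X 2 = ori sg (mer D) 2)
    (h3 : X 9 = ori sg (mer D) 3) (h4 : X 10 = ori sg (mer D) 4) :
    Subgroup.closure {g : LinkGroup D | ∃ f ∈ ([0, 1, 2, 9, 10] : List ℕ), g = X f} = ⊤ := by
  rw [eq_top_iff, ← PresentedGroup.closure_range_of, Subgroup.closure_le]
  rintro _ ⟨⟨k, hk⟩, rfl⟩
  rw [SetLike.mem_coe, A03_mer D k hk]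
  apply A03_mem _ sg
  rw [hb] at hk
  interval_cases k
  · exact Subgroup.subset_closure ⟨0, by decide, h0.symm⟩
  · exact Subgroup.subset_closure ⟨1, by decide, h1.symm⟩
  · exact Subgroup.subset_closure ⟨2, by decide, h2.symm⟩
  · exact Subgroup.subset_closure ⟨9, by decide, h3.symm⟩
  · exact Subgroup.subset_closure ⟨10, by decide, h4.symm⟩

theorem frame_of (D : Word) (R : List Arc) (caps : List (ℕ × ℕ)) (hD : OK 0 D)
    (hb : births D = 5) (hR : (arcRun sg 0 0 [] D).2.1 = R) (hlen : R.length = 38)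
    (hwf : wfR 0 R = true)
    (hborn : R[0]? = some (.born 0) ∧ R[1]? = some (.born 1) ∧ R[2]? = some (.born 2) ∧
      R[9]? = some (.born 3) ∧ R[10]? = some (.born 4) ∧ ∀ k, Arc.born k ∈ R → k < 5)
    (hc : ∀ c ∈ caps, ∃ c' ∈ (arcRun sg 0 0 [] D).2.2, c.1 = c'.1.1 ∧ c.2 = c'.2.1 ∧
      c'.1.2 = !c'.2.2)
    (X : ℕ → LinkGroup D) (hX : IsSol opG (ori sg (mer D)) R X) (b A : ℕ → V2)
    (hA : IsSol opV b R A) (hb0 : b 0 = ![1, 0]) (α : LinkGroup D →* SL(2, ℂ))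
    (hα : ∀ k, k < 5 → α (mer D k) = ori sg (fun k => PV (b k)) k) :
    Frame X α A R caps := by
  obtain ⟨h0, h1, h2, h3, h4, h5⟩ := hborn
  refine ⟨hlen, hwf, fun n o s c h => hX n _ h, fun n o s c h => hA n _ h, ?_, ?_, ?_, ?_⟩
  · intro c hcc
    obtain ⟨c', hc', e1, e2, e3⟩ := hc c hcc
    rw [e1, e2]
    exact caps_X D hD X (by rw [hR]; exact hX) c' hc' e3
  · intro f hf
    exact frame_hom D R hwf X hX b A hA α hα h5 f (by rw [hlen]; exact hf)
  · exact A03_gen D hb X (hX 0 _ h0) (hX 1 _ h1) (hX 2 _ h2) (hX 9 _ h3) (hX 10 _ h4)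
  · exact (hA 0 _ h0).trans hb0

def A03_bd (a : Arc) : Bool :=
  match a with
  | .born k => Nat.blt k 5
  | .cross _ _ _ => true

theorem A03_born (R : List Arc) (hR : R.all A03_bd = true) (k : ℕ) (hk : Arc.born k ∈ R) :
    k < 5 :=
  Nat.blt_eq.mp (List.all_eq_true.mp hR _ hk)

theorem A03_bd1 : R₁.all A03_bd = true := by decide +kernel

theorem A03_bd2 : R₂.all A03_bd = true := by decide +kernel

theorem A03_h1 : R₁[0]? = some (.born 0) ∧ R₁[1]? = some (.born 1) ∧ R₁[2]? = some (.born 2) ∧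
    R₁[9]? = some (.born 3) ∧ R₁[10]? = some (.born 4) := by decide +kernel

theorem A03_h2 : R₂[0]? = some (.born 0) ∧ R₂[1]? = some (.born 1) ∧ R₂[2]? = some (.born 2) ∧
    R₂[9]? = some (.born 3) ∧ R₂[10]? = some (.born 4) := by decide +kernel

theorem A03_births₂ : births D₂ = 5 := by decide +kernel

theorem A03_OK₁ : OK 0 D₁ := by
  simp [OK, D₁, top, box1, bot, rib, Layer.ok, Layer.out]

theorem A03_OK₂ : OK 0 D₂ := by
  simp [OK, D₂, top, box2, bot, rib, Layer.ok, Layer.out]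

theorem frame_D₁ (X : ℕ → LinkGroup D₁) (hX : IsSol opG (ori sg (mer D₁)) R₁ X)
    (b A : ℕ → V2) (hA : IsSol opV b R₁ A) (hb0 : b 0 = ![1, 0])
    (α : LinkGroup D₁ →* SL(2, ℂ))
    (hα : ∀ k, k < 5 → α (mer D₁ k) = ori sg (fun k => PV (b k)) k) :
    Frame X α A R₁ caps1 := by
  obtain ⟨h0, h1, h2, h3, h4⟩ := A03_h1
  refine frame_of D₁ R₁ caps1 A03_OK₁ e03_births rfl len_R₁ wf_R₁
    ⟨h0, h1, h2, h3, h4, A03_born R₁ A03_bd1⟩ ?_ X hX b A hA hb0 α hα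
  rw [caps_D₁]
  decide

theorem frame_D₂ (X : ℕ → LinkGroup D₂) (hX : IsSol opG (ori sg (mer D₂)) R₂ X)
    (b A : ℕ → V2) (hA : IsSol opV b R₂ A) (hb0 : b 0 = ![1, 0])
    (α : LinkGroup D₂ →* SL(2, ℂ))
    (hα : ∀ k, k < 5 → α (mer D₂ k) = ori sg (fun k => PV (b k)) k) :
    Frame X α A R₂ caps2 := by
  obtain ⟨h0, h1, h2, h3, h4⟩ := A03_h2
  refine frame_of D₂ R₂ caps2 A03_OK₂ A03_births₂ rfl len_R₂ wf_R₂
    ⟨h0, h1, h2, h3, h4, A03_born R₂ A03_bd2⟩ ?_ X hX b A hA hb0 α hα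
  rw [caps_D₂]
  decide

theorem exists_rep1 : ∃ (x : E7) (α : LinkGroup D₁ →* SL(2, ℂ)) (X : ℕ → LinkGroup D₁)
    (A : ℕ → V2), x ∈ Box xBK ∧ IsSol opV (bV x) R₁ A ∧
      (∀ k, k < 5 → α (mer D₁ k) = ori sg (fun k => PV (bV x k)) k) ∧
      Rep D₁ R₁ caps1 AB1 α X A := by
  obtain ⟨x, A, α, hx, hA, hα⟩ := exists_alpha1
  obtain ⟨X, hX⟩ := exists_sol opG (ori sg (mer D₁)) R₁ wf_R₁
  exact ⟨x, α, X, A, hx, hA, hα, frame_D₁ X hX (bV x) A hA rfl α hα, hX,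
    fun f hf => arcs1_mem x hx A hA f hf⟩

end TorMut
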