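import Pool.Agent.Lib.MP_407fc5_gt.A01
import Pool.Agent.Lib.MP_407fc5_gt.A02
import Pool.Agent.Lib.MP_407fc5_gt.A03

/-!
# A04: the representation of the second knot (about 40 minutes)

`exists_alpha2` (T11) with `traceOK_of_rep`.  With `b = bV2 x (kap g)`: `second g k = g k` for `k < 3`, and
`second g 3 = κ PV (bV x 3) κ⁻¹ = PV (κ bV x 3)` (`PV_act`), `second g 4 = κ (PV (bV x 4))⁻¹ κ⁻¹`.
Enclosures: `bB2` (`fC_eq`), `kap_sound`, `memV_bB`, and `evalR_rel` as in `arcs1_mem` (E03).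
-/

namespace TorMut

open Tile Matrix MatrixGroups

theorem A04_mem_b (x : E7) (hx : x ∈ Box xBK) (κ : SL(2, ℂ))
    (hκ : ∀ (v : V2) (vb : VB), MemV v vb → MemV (κ.1.mulVec v) (kapB deltaI vb)) (k : ℕ) :
    MemV (bV2 x κ k) (bB2 k) := by
  match k with
  | 0 => exact memV_bB x hx 0
  | 1 => exact memV_bB x hx 1
  | 2 => exact memV_bB x hx 2
  | 3 =>
    show MemV (κ.1.mulVec (bV x 3)) (fC deltaI fun di => kapB di (bB xBK 3))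
    rw [fC_eq]
    exact hκ _ _ (memV_bB x hx 3)
  | _ + 4 =>
    show MemV (κ.1.mulVec (bV x 4)) (fC deltaI fun di => kapB di (bB xBK 4))
    rw [fC_eq]
    exact hκ _ _ (memV_bB x hx 4)

theorem A04_arcs2 (b A : ℕ → V2) (hb : ∀ k, MemV (b k) (bB2 k)) (hA : IsSol opV b R₂ A) (f : ℕ)
    (hf : f < 38) : MemV (A f) (nth vb0 arcs2 f) := by
  have h := evalR_rel MemV opV opB b bB2 vb0 fV fV_eq
    (fun s o c o' c' h1 h2 => memV_opB s h1 h2) R₂ (fun k _ => hb k) wf_R₂ A hA f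
    (by rw [len_R₂]; exact hf)
  rw [len_R₂] at h
  exact h

theorem A04_ori (x : E7) (g : ℕ → SL(2, ℂ)) (κ : SL(2, ℂ))
    (hg : ∀ k, k < 5 → g k = ori sg (fun k => PV (bV x k)) k)
    (h3 : second g 3 = κ * g 3 * κ⁻¹) (h4 : second g 4 = κ * g 4 * κ⁻¹) (k : ℕ) (hk : k < 5) :
    second g k = ori sg (fun k => PV (bV2 x κ k)) k := by
  have hlt : ∀ k, k < 3 → second g k = g k := by
    intro k hk
    unfold second
    simp only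
    rw [if_pos hk]
  match k, hk with
  | 0, _ => rw [hlt 0 (by norm_num), hg 0 (by norm_num)]; rfl
  | 1, _ => rw [hlt 1 (by norm_num), hg 1 (by norm_num)]; rfl
  | 2, _ => rw [hlt 2 (by norm_num), hg 2 (by norm_num)]; rfl
  | 3, _ =>
    have e : g 3 = PV (bV x 3) := hg 3 (by norm_num)
    rw [h3, e]
    exact (PV_act κ (bV x 3)).symm
  | 4, _ =>
    have e : g 4 = (PV (bV x 4))⁻¹ := hg 4 (by norm_num)
    rw [h4, e]
    have e2 : PV (κ.1.mulVec (bV x 4)) = κ * PV (bV x 4) * κ⁻¹ := PV_act κ (bV x 4)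
    show _ = (PV (κ.1.mulVec (bV x 4)))⁻¹
    rw [e2]
    group

theorem exists_rep2 (x : E7) (hx : x ∈ Box xBK) (α₁ : LinkGroup D₁ →* SL(2, ℂ))
    (X₁ : ℕ → LinkGroup D₁) (A₁ : ℕ → V2)
    (hα : ∀ k, k < 5 → α₁ (mer D₁ k) = ori sg (fun k => PV (bV x k)) k)
    (h : Rep D₁ R₁ caps1 AB1 α₁ X₁ A₁) :
    ∃ (α₂ : LinkGroup D₂ →* SL(2, ℂ)) (X₂ : ℕ → LinkGroup D₂) (A₂ : ℕ → V2),
      (∀ k, k < 5 → α₂ (mer D₂ k) = second (fun k => α₁ (mer D₁ k)) k) ∧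
      (∀ k, k < 5 → α₂ (mer D₂ k) =
        ori sg (fun k => PV (bV2 x (kap fun k => α₁ (mer D₁ k)) k)) k) ∧
      Rep D₂ R₂ caps2 AB2 α₂ X₂ A₂ := by
  have ht := traceOK_of_rep α₁ X₁ A₁ caps1 h
  have hκ := kap_sound α₁ X₁ A₁ caps1 h
  obtain ⟨α₂, h₂⟩ := exists_alpha2 α₁ ht
  obtain ⟨g, hg⟩ : ∃ g : ℕ → SL(2, ℂ), g = fun k => α₁ (mer D₁ k) := ⟨_, rfl⟩
  rw [← hg] at ht hκ h₂ ⊢
  obtain ⟨s3, s4, -⟩ := second_conj α₁ g hg ht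
  obtain ⟨κ, hk⟩ : ∃ κ, κ = kap g := ⟨_, rfl⟩
  rw [← hk] at hκ s3 s4 ⊢
  have hori : ∀ k, k < 5 → α₂ (mer D₂ k) = ori sg (fun k => PV (bV2 x κ k)) k := by
    intro k hk5
    rw [h₂ k hk5]
    exact A04_ori x g κ (fun k hk5 => by rw [hg]; exact hα k hk5) s3 s4 k hk5
  obtain ⟨X₂, hX₂⟩ := exists_sol opG (ori sg (mer D₂)) R₂ wf_R₂
  obtain ⟨A₂, hA₂⟩ := exists_sol opV (bV2 x κ) R₂ wf_R₂
  refine ⟨α₂, X₂, A₂, h₂, hori, ?_, hX₂, ?_⟩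
  · exact frame_D₂ X₂ hX₂ (bV2 x κ) A₂ hA₂ rfl α₂ hori
  · exact A04_arcs2 (bV2 x κ) A₂ (A04_mem_b x hx κ hκ) hA₂

end TorMut
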