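import Pool.Agent.Lib.MP_407fc5_gt.BDefs

/-!
# B01: ball arithmetic, the ring operations (about 45 minutes)

`‖x * 2 ^ sc - b.val‖ ≤ b.rad` is stable under the operations.  For `mul`: with `X = x 2^sc = a + e`,
`Y = y 2^sc = c + e'`, `‖e‖ ≤ r`, `‖e'‖ ≤ s`: `‖X Y - a c‖ ≤ ‖a‖ s + ‖c‖ r + r s`, `‖a‖ ≤ |Re a| + |Im a|`;
divide by `2^sc`; the shifts are floors (`Int.shiftRight_eq_div_pow`, `Nat.shiftRight_eq_div_pow`): each
of the real and imaginary parts loses less than `1`, the radius less than `1`.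
-/

namespace TorMut

open ComplexConjugate

theorem fN_eq {α : Type*} (n : Nat) (k : Nat → α) : fN n k = k n := by
  cases n <;> rfl

theorem fI_eq {α : Type*} (n : Int) (k : Int → α) : fI n k = k n := by
  cases n with
  | ofNat m => exact fN_eq m (fun m => k (Int.ofNat m))
  | negSucc m => exact fN_eq m (fun m => k (Int.negSucc m))

theorem fC_eq {α : Type*} (b : CB) (k : CB → α) : fC b k = k b := by
  obtain ⟨re, im, rad⟩ := b
  change fI re (fun re => fI im fun im => fN rad fun rad => k ⟨re, im, rad⟩) = _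
  rw [fI_eq, fI_eq, fN_eq]

theorem fV_eq {α : Type*} (b : VB) (k : VB → α) : fV b k = k b := by
  obtain ⟨x, y⟩ := b
  change fC x (fun x => fC y fun y => k (x, y)) = _
  rw [fC_eq, fC_eq]

theorem B01_pos : (0 : ℝ) < 2 ^ sc := pow_pos (by norm_num) _

theorem B01_ne : (2 : ℂ) ^ sc ≠ 0 := pow_ne_zero _ (by norm_num)

theorem mem_exact (x y : Int) : Mem ((⟨(x : ℝ), (y : ℝ)⟩ : ℂ) / 2 ^ sc) (CB.exact x y) := by
  have h : ((⟨(x : ℝ), (y : ℝ)⟩ : ℂ) / 2 ^ sc) * 2 ^ sc - (CB.exact x y).val = 0 := by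
    rw [div_mul_cancel₀ _ B01_ne]
    exact sub_self _
  unfold Mem
  rw [h, norm_zero]
  exact Nat.cast_nonneg _

theorem mem_zero : Mem 0 CB.zero := by
  have h : (0 : ℂ) * 2 ^ sc - CB.zero.val = 0 := by
    rw [zero_mul, zero_sub, neg_eq_zero]
    apply Complex.ext
    · exact Int.cast_zero
    · exact Int.cast_zero
  unfold Mem
  rw [h, norm_zero]
  exact Nat.cast_nonneg _

theorem mem_one : Mem 1 CB.one := by
  have h : (1 : ℂ) * 2 ^ sc - CB.one.val = 0 := by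
    rw [one_mul, sub_eq_zero]
    have h1 : (2 : ℂ) ^ sc = (((2 : ℝ) ^ sc : ℝ) : ℂ) := by push_cast; rfl
    rw [h1]
    apply Complex.ext
    · rw [Complex.ofReal_re]
      change (2 : ℝ) ^ sc = ((Int.ofNat (Nat.pow 2 sc) : ℤ) : ℝ)
      rw [Int.ofNat_eq_natCast, Int.cast_natCast]
      change (2 : ℝ) ^ sc = ((2 ^ sc : ℕ) : ℝ)
      rw [Nat.cast_pow]
      rfl
    · rw [Complex.ofReal_im]
      exact Int.cast_zero.symm
  unfold Mem
  rw [h, norm_zero]
  exact Nat.cast_nonneg _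

theorem B01_val_add (a b : CB) : (CB.add a b).val = a.val + b.val := by
  obtain ⟨p, q, r⟩ := a
  obtain ⟨c, d, s⟩ := b
  apply Complex.ext
  · exact Int.cast_add p c
  · exact Int.cast_add q d

theorem B01_val_neg (a : CB) : (CB.neg a).val = -a.val := by
  obtain ⟨a, b, r⟩ := a
  apply Complex.ext
  · exact Int.cast_neg a
  · exact Int.cast_neg b

theorem B01_val_sub (a b : CB) : (CB.sub a b).val = a.val - b.val := by
  obtain ⟨p, q, r⟩ := a
  obtain ⟨c, d, s⟩ := b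
  apply Complex.ext
  · exact Int.cast_sub p c
  · exact Int.cast_sub q d

theorem B01_rad_add (a b : CB) : ((CB.add a b).rad : ℝ) = a.rad + b.rad := by
  obtain ⟨p, q, r⟩ := a
  obtain ⟨c, d, s⟩ := b
  exact Nat.cast_add r s

theorem B01_rad_sub (a b : CB) : ((CB.sub a b).rad : ℝ) = a.rad + b.rad := by
  obtain ⟨p, q, r⟩ := a
  obtain ⟨c, d, s⟩ := b
  exact Nat.cast_add r s

theorem mem_add {x y : ℂ} {a b : CB} (hx : Mem x a) (hy : Mem y b) : Mem (x + y) (CB.add a b) := by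
  unfold Mem at *
  rw [B01_val_add, B01_rad_add]
  have h : (x + y) * 2 ^ sc - (a.val + b.val) = (x * 2 ^ sc - a.val) + (y * 2 ^ sc - b.val) := by
    ring
  rw [h]
  exact (norm_add_le _ _).trans (add_le_add hx hy)

theorem mem_neg {x : ℂ} {a : CB} (hx : Mem x a) : Mem (-x) (CB.neg a) := by
  unfold Mem at *
  rw [B01_val_neg]
  have h : -x * 2 ^ sc - -a.val = -(x * 2 ^ sc - a.val) := by ring
  rw [h, norm_neg]
  obtain ⟨a, b, r⟩ := a
  exact hx

theorem mem_sub {x y : ℂ} {a b : CB} (hx : Mem x a) (hy : Mem y b) : Mem (x - y) (CB.sub a b) := by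
  unfold Mem at *
  rw [B01_val_sub, B01_rad_sub]
  have h : (x - y) * 2 ^ sc - (a.val - b.val) = (x * 2 ^ sc - a.val) - (y * 2 ^ sc - b.val) := by
    ring
  rw [h]
  exact (norm_sub_le _ _).trans (add_le_add hx hy)

theorem mem_cj {x : ℂ} {a : CB} (hx : Mem x a) : Mem (conj x) (CB.cj a) := by
  unfold Mem at *
  have h1 : (CB.cj a).val = conj a.val := by
    obtain ⟨a, b, r⟩ := a
    apply Complex.ext
    · rfl
    · exact Int.cast_neg b
  have h : conj x * 2 ^ sc - (CB.cj a).val = conj (x * 2 ^ sc - a.val) := by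
    rw [h1, map_sub, map_mul, map_pow, Complex.conj_ofNat]
  rw [h, Complex.norm_conj]
  obtain ⟨a, b, r⟩ := a
  exact hx

theorem B01_shiftZ (m : ℤ) : |(m : ℝ) / 2 ^ sc - ((Int.shiftRight m sc : ℤ) : ℝ)| ≤ 1 := by
  have h0 : Int.shiftRight m sc = m / ((2 ^ sc : ℕ) : ℤ) := Int.shiftRight_eq_div_pow m sc
  rw [h0]
  generalize hn : (2 ^ sc : ℕ) = N
  have hN : (0 : ℤ) < (N : ℤ) := by
    rw [← hn]
    exact_mod_cast Nat.pow_pos (n := sc) (by norm_num : 0 < 2)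
  have hNr : ((2 : ℝ) ^ sc) = (N : ℝ) := by
    rw [← hn, Nat.cast_pow]
    rfl
  rw [hNr]
  have hNp : (0 : ℝ) < (N : ℝ) := by exact_mod_cast hN
  have h1 : (m / (N : ℤ)) * (N : ℤ) ≤ m := Int.ediv_mul_le m hN.ne'
  have h2 : m < (m / (N : ℤ) + 1) * (N : ℤ) := Int.lt_ediv_add_one_mul_self m hN
  have h1' : ((m / (N : ℤ) : ℤ) : ℝ) * (N : ℝ) ≤ (m : ℝ) := by exact_mod_cast h1
  have h2' : (m : ℝ) < (((m / (N : ℤ) : ℤ) : ℝ) + 1) * (N : ℝ) := by exact_mod_cast h2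
  have h3 : ((m / (N : ℤ) : ℤ) : ℝ) ≤ (m : ℝ) / N := (le_div_iff₀ hNp).2 h1'
  have h4 : (m : ℝ) / N < ((m / (N : ℤ) : ℤ) : ℝ) + 1 := (div_lt_iff₀ hNp).2 h2'
  rw [abs_le]
  constructor <;> linarith

theorem B01_shiftN (m : ℕ) : (m : ℝ) / 2 ^ sc ≤ ((Nat.shiftRight m sc : ℕ) : ℝ) + 1 := by
  have h0 : Nat.shiftRight m sc = m / (2 ^ sc : ℕ) := Nat.shiftRight_eq_div_pow m sc
  rw [h0]
  generalize hn : (2 ^ sc : ℕ) = N
  have hN : 0 < N := by
    rw [← hn]
    exact Nat.pow_pos (by norm_num : 0 < 2)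
  have hNr : ((2 : ℝ) ^ sc) = (N : ℝ) := by
    rw [← hn, Nat.cast_pow]
    rfl
  rw [hNr]
  have hNp : (0 : ℝ) < (N : ℝ) := by exact_mod_cast hN
  have h2 : m < (m / N + 1) * N := by
    have e1 := Nat.div_add_mod m N
    have e2 := Nat.mod_lt m hN
    nlinarith
  have h2' : (m : ℝ) < (((m / N : ℕ) : ℝ) + 1) * (N : ℝ) := by exact_mod_cast h2
  exact ((div_lt_iff₀ hNp).2 h2').le

theorem B01_norm_val (a b : ℤ) (r : ℕ) :
    ‖(CB.mk a b r).val‖ ≤ ((Nat.add (Int.natAbs a) (Int.natAbs b) : ℕ) : ℝ) := by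
  have h := Complex.norm_le_abs_re_add_abs_im (CB.mk a b r).val
  have h1 : ((Nat.add (Int.natAbs a) (Int.natAbs b) : ℕ) : ℝ) = |(a : ℝ)| + |(b : ℝ)| := by
    change ((Int.natAbs a + Int.natAbs b : ℕ) : ℝ) = _
    rw [Nat.cast_add, Nat.cast_natAbs, Nat.cast_natAbs, Int.cast_abs, Int.cast_abs]
  rw [h1]
  exact h

theorem mem_mul {x y : ℂ} {a b : CB} (hx : Mem x a) (hy : Mem y b) : Mem (x * y) (CB.mul a b) := by
  obtain ⟨p, q, r⟩ := a
  obtain ⟨c, d, s⟩ := b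
  unfold Mem at *
  set va := (CB.mk p q r).val with hva
  set vb := (CB.mk c d s).val with hvb
  have hx' : ‖x * 2 ^ sc - va‖ ≤ (r : ℝ) := hx
  have hy' : ‖y * 2 ^ sc - vb‖ ≤ (s : ℝ) := hy
  have hA := B01_norm_val p q r
  have hB := B01_norm_val c d s
  set A : ℕ := Nat.add (Int.natAbs p) (Int.natAbs q) with hAd
  set B : ℕ := Nat.add (Int.natAbs c) (Int.natAbs d) with hBd
  set R : ℕ := Nat.add (Nat.add (Nat.mul A s) (Nat.mul B r)) (Nat.mul r s) with hR
  set P : ℤ := Int.sub (Int.mul p c) (Int.mul q d) with hP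
  set Q : ℤ := Int.add (Int.mul p d) (Int.mul q c) with hQ
  have hRr : (R : ℝ) = A * s + B * r + r * s := by
    have : R = A * s + B * r + r * s := rfl
    rw [this]
    push_cast
    rfl
  have hPQ : va * vb = ⟨(P : ℝ), (Q : ℝ)⟩ := by
    have hP' : P = p * c - q * d := rfl
    have hQ' : Q = p * d + q * c := rfl
    rw [hP', hQ']
    apply Complex.ext
    · rw [Complex.mul_re]
      push_cast
      rfl
    · rw [Complex.mul_im]
      push_cast
      rfl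
  have hpos := B01_pos
  have hnorm : ‖(2 : ℂ) ^ sc‖ = (2 : ℝ) ^ sc := by
    rw [norm_pow]
    congr 1
    exact Complex.norm_ofNat 2
  set M : ℂ := ⟨((Int.shiftRight P sc : ℤ) : ℝ), ((Int.shiftRight Q sc : ℤ) : ℝ)⟩ with hM
  have hgoal : ‖x * y * 2 ^ sc - M‖ ≤ ((Nat.shiftRight R sc : ℕ) : ℝ) + 3 := by
    have e1 : x * y * 2 ^ sc - M =
        ((x * 2 ^ sc) * (y * 2 ^ sc) - va * vb) / 2 ^ sc + (va * vb / 2 ^ sc - M) := by
      have := B01_ne
      field_simp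
      ring
    have h1 : ‖((x * 2 ^ sc) * (y * 2 ^ sc) - va * vb) / 2 ^ sc‖ ≤
        ((Nat.shiftRight R sc : ℕ) : ℝ) + 1 := by
      refine le_trans ?_ (B01_shiftN R)
      rw [norm_div, hnorm]
      refine div_le_div_of_nonneg_right ?_ hpos.le
      have e2 : (x * 2 ^ sc) * (y * 2 ^ sc) - va * vb =
          va * (y * 2 ^ sc - vb) + vb * (x * 2 ^ sc - va) +
            (x * 2 ^ sc - va) * (y * 2 ^ sc - vb) := by ring
      rw [e2, hRr]
      refine (norm_add_le _ _).trans (add_le_add ((norm_add_le _ _).trans (add_le_add ?_ ?_)) ?_)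
      · rw [norm_mul]
        exact mul_le_mul hA hy' (norm_nonneg _) (Nat.cast_nonneg _)
      · rw [norm_mul]
        exact mul_le_mul hB hx' (norm_nonneg _) (Nat.cast_nonneg _)
      · rw [norm_mul]
        exact mul_le_mul hx' hy' (norm_nonneg _) (Nat.cast_nonneg _)
    have h2 : ‖va * vb / 2 ^ sc - M‖ ≤ 2 := by
      refine (Complex.norm_le_abs_re_add_abs_im _).trans ?_
      have e3 : va * vb / 2 ^ sc = ⟨(P : ℝ) / 2 ^ sc, (Q : ℝ) / 2 ^ sc⟩ := by
        rw [hPQ]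
        have h1 : (2 : ℂ) ^ sc = (((2 : ℝ) ^ sc : ℝ) : ℂ) := by push_cast; rfl
        rw [h1]
        apply Complex.ext
        · rw [Complex.div_ofReal_re]
        · rw [Complex.div_ofReal_im]
      have hre : (va * vb / 2 ^ sc - M).re = (P : ℝ) / 2 ^ sc - ((Int.shiftRight P sc : ℤ) : ℝ) := by
        rw [Complex.sub_re, e3]
      have him : (va * vb / 2 ^ sc - M).im = (Q : ℝ) / 2 ^ sc - ((Int.shiftRight Q sc : ℤ) : ℝ) := by
        rw [Complex.sub_im, e3]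
      rw [hre, him]
      have := B01_shiftZ P
      have := B01_shiftZ Q
      linarith
    rw [e1]
    have h3 := norm_add_le (((x * 2 ^ sc) * (y * 2 ^ sc) - va * vb) / 2 ^ sc)
      (va * vb / 2 ^ sc - M)
    linarith
  have e4 : (((CB.mul ⟨p, q, r⟩ ⟨c, d, s⟩).rad : ℕ) : ℝ) = ((Nat.shiftRight R sc : ℕ) : ℝ) + 3 := by
    change ((Nat.shiftRight R sc + 3 : ℕ) : ℝ) = _
    push_cast
    rfl
  rw [e4]
  exact hgoal

end TorMut
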