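import Pool.Agent.Lib.MP_407fc5_gt.CDefs

/-!
# C01: basic properties of `ev` (about 30 minutes)

Everything by induction on the word.
* `ev_append`: induction on `w₁`, `s` general.
* lengths: `ins`, `rem`, `cr` are `take ++ .. ++ drop`; `simp`/`omega`.
* `ev_congr`: induction on `w`; the lengths of the intermediate lists are `l.out m`.
* `ev_ctx`: `w` acting on the middle part of `u ++ s ++ v` with `u.length = p`: the layer
  `l.shift p` only touches the part `s` (because `OK s.length w`).  Induction on `w`; for each
  layer show `ins (i + p) g (u ++ s ++ v) = u ++ ins i g s ++ v` if `i ≤ s.length`,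
  `rem (i + p) (u ++ s ++ v) = u ++ rem i s ++ v`, `cr (i + p) b (u ++ s ++ v) = u ++ cr i b s ++ v`
  and `(u ++ s ++ v).getD (i + p) 1 = s.getD i 1` if `i + 2 ≤ s.length`.
-/

namespace TorMut.Core

variable {G : Type*} [Group G]

omit [Group G] in
lemma c01_take (i : ℕ) (u s v : List G) (h : i ≤ s.length) :
    (u ++ s ++ v).take (i + u.length) = u ++ s.take i := by
  rw [List.append_assoc, Nat.add_comm, List.take_length_add_append,
    List.take_append_of_le_length h]

omit [Group G] in
lemma c01_drop (i : ℕ) (u s v : List G) (h : i ≤ s.length) :
    (u ++ s ++ v).drop (i + u.length) = s.drop i ++ v := by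
  rw [List.append_assoc, Nat.add_comm, List.drop_length_add_append,
    List.drop_append_of_le_length h]

lemma c01_getD (i : ℕ) (u s v : List G) (h : i < s.length) :
    (u ++ s ++ v).getD (i + u.length) 1 = s.getD i 1 := by
  rw [List.append_assoc, List.getD_append_right _ _ _ _ (by omega), Nat.add_sub_cancel,
    List.getD_append _ _ _ _ h]

omit [Group G] in
lemma ins_length [Group G] (i : ℕ) (g : G) (s : List G) : (ins i g s).length = s.length + 2 := by
  unfold ins
  simp only [List.length_append, List.length_take, List.length_drop, List.length_cons,
    List.length_nil]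
  omega

lemma rem_length (i : ℕ) (s : List G) (h : i + 2 ≤ s.length) :
    (rem i s).length = s.length - 2 := by
  unfold rem
  simp only [List.length_append, List.length_take, List.length_drop]
  omega

lemma cr_length (i : ℕ) (b : Bool) (s : List G) (h : i + 2 ≤ s.length) :
    (cr i b s).length = s.length := by
  cases b <;>
  · simp only [cr, List.length_append, List.length_take, List.length_drop, List.length_cons,
      List.length_nil]
    omega

lemma ins_ctx (i : ℕ) (g : G) (u s v : List G) (h : i ≤ s.length) :
    ins (i + u.length) g (u ++ s ++ v) = u ++ ins i g s ++ v := by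
  unfold ins
  rw [c01_take i u s v h, c01_drop i u s v h]
  simp only [List.append_assoc]

lemma rem_ctx (i : ℕ) (u s v : List G) (h : i + 2 ≤ s.length) :
    rem (i + u.length) (u ++ s ++ v) = u ++ rem i s ++ v := by
  unfold rem
  have e : i + u.length + 2 = i + 2 + u.length := by omega
  rw [c01_take i u s v (by omega), e, c01_drop (i + 2) u s v h]
  simp only [List.append_assoc]

lemma cr_ctx (i : ℕ) (b : Bool) (u s v : List G) (h : i + 2 ≤ s.length) :
    cr (i + u.length) b (u ++ s ++ v) = u ++ cr i b s ++ v := by
  have e : i + u.length + 2 = i + 2 + u.length := by omega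
  have e1 : i + u.length + 1 = i + 1 + u.length := by omega
  cases b <;>
  · simp only [cr]
    rw [e, e1, c01_take i u s v (by omega), c01_drop (i + 2) u s v h,
      c01_getD i u s v (by omega), c01_getD (i + 1) u s v (by omega)]
    simp only [List.append_assoc]

variable [Fintype G] [DecidableEq G]

theorem ev_append (w₁ w₂ : Word) (f : List G → ℕ) (s : List G) :
    ev (w₁ ++ w₂) f s = ev w₁ (ev w₂ f) s := by
  induction w₁ generalizing s with
  | nil => rfl
  | cons l w ih => cases l <;> simp only [List.cons_append, ev, ih]

/-- only the values of `f` on lists of the right length matter -/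
theorem ev_congr (w : Word) (f g : List G → ℕ) (s : List G) (hw : OK s.length w)
    (h : ∀ t : List G, t.length = width s.length w → f t = g t) : ev w f s = ev w g s := by
  induction w generalizing s with
  | nil => exact h s rfl
  | cons l w ih =>
    obtain ⟨h1, h2⟩ := hw
    cases l with
    | birth i =>
      simp only [ev]
      refine Finset.sum_congr rfl fun a _ => ?_
      refine ih _ ?_ fun t ht => h t ?_
      · rw [ins_length]; exact h2
      · rw [ht, ins_length]; rfl
    | death i =>
      simp only [ev]
      split_ifs
      · refine ih _ ?_ fun t ht => h t ?_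
        · rw [rem_length i s h1]; exact h2
        · rw [ht, rem_length i s h1]; rfl
      · rfl
    | cross i b =>
      simp only [ev]
      refine ih _ ?_ fun t ht => h t ?_
      · rw [cr_length i b s h1]; exact h2
      · rw [ht, cr_length i b s h1]; rfl

/-- locality -/
theorem ev_ctx (w : Word) (f : List G → ℕ) (u s v : List G) (hw : OK s.length w) :
    ev (shift u.length w) f (u ++ s ++ v) = ev w (fun t => f (u ++ t ++ v)) s := by
  induction w generalizing s with
  | nil => rfl
  | cons l w ih =>
    obtain ⟨h1, h2⟩ := hw
    cases l with
    | birth i =>
      show ∑ g : G, ev (shift u.length w) f (ins (i + u.length) g (u ++ s ++ v)) =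
        ∑ g : G, ev w (fun t => f (u ++ t ++ v)) (ins i g s)
      refine Finset.sum_congr rfl fun a _ => ?_
      rw [ins_ctx i a u s v h1]
      refine ih _ ?_
      rw [ins_length]; exact h2
    | death i =>
      have h3 : i + 2 ≤ s.length := h1
      have e1 : i + u.length + 1 = i + 1 + u.length := by omega
      show (if (u ++ s ++ v).getD (i + u.length) 1 = (u ++ s ++ v).getD (i + u.length + 1) 1
        then ev (shift u.length w) f (rem (i + u.length) (u ++ s ++ v)) else 0) =
        if s.getD i 1 = s.getD (i + 1) 1 then ev w (fun t => f (u ++ t ++ v)) (rem i s) else 0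
      rw [e1, c01_getD i u s v (by omega), c01_getD (i + 1) u s v (by omega),
        rem_ctx i u s v h3]
      split_ifs
      · refine ih _ ?_
        rw [rem_length i s h3]; exact h2
      · rfl
    | cross i b =>
      have h3 : i + 2 ≤ s.length := h1
      show ev (shift u.length w) f (cr (i + u.length) b (u ++ s ++ v)) =
        ev w (fun t => f (u ++ t ++ v)) (cr i b s)
      rw [cr_ctx i b u s v h3]
      refine ih _ ?_
      rw [cr_length i b s h3]; exact h2

/-- positive: `ev` of a nonnegative function is positive iff some colouring exists; we only need
this form: if `f ≤ g` then `ev w f s ≤ ev w g s` -/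
theorem ev_mono (w : Word) (f g : List G → ℕ) (s : List G) (h : ∀ t, f t ≤ g t) :
    ev w f s ≤ ev w g s := by
  induction w generalizing s with
  | nil => exact h s
  | cons l w ih =>
    cases l with
    | birth i => exact Finset.sum_le_sum fun a _ => ih _
    | death i =>
      simp only [ev]
      split_ifs
      · exact ih _
      · exact le_rfl
    | cross i b => exact ih _

end TorMut.Core
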