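import Pool.Agent.Lib.MP_407fc5_gt.C01

/-!
# C02: the commutation moves

For each of the nine commutation moves `Move m a b` and every list `s` of length `m`:
`ev a f s = ev b f s`.  The two layers act at disjoint positions of the list: write
`s = u ++ x ++ v ++ y ++ z`.
-/

namespace TorMut.Core

variable {G : Type*} [Group G]

/-- the two colours below a crossing -/
def c02_x (b : Bool) (x y : G) : G × G :=
  if b then (y, y * x⁻¹ * y) else (x * y⁻¹ * x, x)

omit [Group G] in
lemma c02_split (s : List G) (n : ℕ) (h : n ≤ s.length) :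
    ∃ u t, s = u ++ t ∧ u.length = n ∧ t.length = s.length - n :=
  ⟨s.take n, s.drop n, (List.take_append_drop n s).symm, by simp [h], by simp⟩

omit [Group G] in
lemma c02_two (t : List G) (h : 2 ≤ t.length) :
    ∃ a b t', t = a :: b :: t' ∧ t'.length = t.length - 2 := by
  match t, h with
  | a :: b :: t', _ => exact ⟨a, b, t', rfl, by simp⟩

lemma c02_ins (p : ℕ) (g : G) (u t : List G) (h : u.length = p) :
    ins p g (u ++ t) = u ++ g :: g :: t := by
  subst h
  simp [ins]

lemma c02_rem (p : ℕ) (a b : G) (u t : List G) (h : u.length = p) :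
    rem p (u ++ a :: b :: t) = u ++ t := by
  subst h
  simp [rem]

lemma c02_get0 (p : ℕ) (a : G) (u t : List G) (h : u.length = p) :
    (u ++ a :: t).getD p 1 = a := by
  subst h
  simp

lemma c02_get1 (p : ℕ) (a b : G) (u t : List G) (h : u.length = p) :
    (u ++ a :: b :: t).getD (p + 1) 1 = b := by
  subst h
  simp [List.getD_eq_getElem?_getD]

lemma c02_cr (p : ℕ) (c : Bool) (a b : G) (u t : List G) (h : u.length = p) :
    cr p c (u ++ a :: b :: t) = u ++ (c02_x c a b).1 :: (c02_x c a b).2 :: t := by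
  have h0 := c02_get0 p a u (b :: t) h
  have h1 := c02_get1 p a b u t h
  cases c
  · simp only [cr, c02_x, h0, h1]
    subst h
    simp
  · simp only [cr, c02_x, h0, h1]
    subst h
    simp

variable [Fintype G] [DecidableEq G]

theorem move_cc (m i j : ℕ) (b c : Bool) (h : i + 2 ≤ j) (f : List G → ℕ) (s : List G)
    (hs : s.length = m) (ha : OK m [.cross i b, .cross j c]) :
    ev [.cross i b, .cross j c] f s = ev [.cross j c, .cross i b] f s := by
  simp only [OK, Layer.ok, Layer.out] at ha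
  obtain ⟨u, t, rfl, hu, ht⟩ := c02_split s i (by omega)
  obtain ⟨x1, x2, t, rfl, ht'⟩ := c02_two t (by omega)
  simp only [List.length_append, List.length_cons] at *
  obtain ⟨v, t, rfl, hv, ht''⟩ := c02_split t (j - (i + 2)) (by omega)
  simp only [List.length_append, List.length_cons] at *
  obtain ⟨y1, y2, z, rfl, hz⟩ := c02_two t (by omega)
  simp only [ev]
  have e1 : ∀ a b : G, (u ++ a :: b :: v).length = j := by intro a b; simp; omega
  have r : ∀ a b c d : G, u ++ a :: b :: (v ++ c :: d :: z) = (u ++ a :: b :: v) ++ c :: d :: z := by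
    intros; simp
  rw [c02_cr i b x1 x2 u _ hu, r, c02_cr j c y1 y2 _ z (e1 _ _), r, c02_cr j c y1 y2 _ z (e1 _ _),
    ← r, ← r, c02_cr i b x1 x2 u _ hu]

theorem move_bc (m i j : ℕ) (c : Bool) (h : i + 2 ≤ j) (f : List G → ℕ) (s : List G)
    (hs : s.length = m) (ha : OK m [.birth i, .cross j c]) :
    ev [.birth i, .cross j c] f s = ev [.cross (j - 2) c, .birth i] f s := by
  simp only [OK, Layer.ok, Layer.out] at ha
  obtain ⟨u, t, rfl, hu, ht⟩ := c02_split s i (by omega)
  simp only [List.length_append] at *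
  obtain ⟨v, t, rfl, hv, ht''⟩ := c02_split t (j - (i + 2)) (by omega)
  simp only [List.length_append] at *
  obtain ⟨y1, y2, z, rfl, hz⟩ := c02_two t (by omega)
  simp only [ev]
  have e1 : ∀ a b : G, (u ++ a :: b :: v).length = j := by intro a b; simp; omega
  have e2 : (u ++ v).length = j - 2 := by simp; omega
  have r : ∀ a b c d : G, u ++ a :: b :: (v ++ c :: d :: z) = (u ++ a :: b :: v) ++ c :: d :: z := by
    intros; simp
  rw [← List.append_assoc u v, c02_cr (j - 2) c y1 y2 _ z e2]
  refine Finset.sum_congr rfl fun g _ => ?_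
  rw [List.append_assoc u v, List.append_assoc u v, c02_ins i g u _ hu, c02_ins i g u _ hu, r,
    c02_cr j c y1 y2 _ z (e1 _ _), r]

theorem move_cb (m i j : ℕ) (c : Bool) (h : j + 2 ≤ i) (f : List G → ℕ) (s : List G)
    (hs : s.length = m) (ha : OK m [.birth i, .cross j c]) :
    ev [.birth i, .cross j c] f s = ev [.cross j c, .birth i] f s := by
  simp only [OK, Layer.ok, Layer.out] at ha
  obtain ⟨u, t, rfl, hu, ht⟩ := c02_split s j (by omega)
  obtain ⟨x1, x2, t, rfl, ht'⟩ := c02_two t (by omega)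
  simp only [List.length_append, List.length_cons] at *
  obtain ⟨v, z, rfl, hv, ht''⟩ := c02_split t (i - (j + 2)) (by omega)
  simp only [ev]
  have e1 : ∀ a b : G, (u ++ a :: b :: v).length = i := by intro a b; simp; omega
  have r : ∀ a b : G, ∀ z : List G, u ++ a :: b :: (v ++ z) = (u ++ a :: b :: v) ++ z := by
    intros; simp
  rw [c02_cr j c x1 x2 u _ hu]
  refine Finset.sum_congr rfl fun g _ => ?_
  rw [r, r, c02_ins i g _ z (e1 _ _), c02_ins i g _ z (e1 _ _), ← r, ← r, c02_cr j c x1 x2 u _ hu]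

theorem move_dc (m i j : ℕ) (c : Bool) (h : i ≤ j) (f : List G → ℕ) (s : List G)
    (hs : s.length = m) (ha : OK m [.death i, .cross j c]) :
    ev [.death i, .cross j c] f s = ev [.cross (j + 2) c, .death i] f s := by
  simp only [OK, Layer.ok, Layer.out] at ha
  obtain ⟨u, t, rfl, hu, ht⟩ := c02_split s i (by omega)
  obtain ⟨x1, x2, t, rfl, ht'⟩ := c02_two t (by omega)
  simp only [List.length_append, List.length_cons] at *
  obtain ⟨v, t, rfl, hv, ht''⟩ := c02_split t (j - i) (by omega)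
  simp only [List.length_append, List.length_cons] at *
  obtain ⟨y1, y2, z, rfl, hz⟩ := c02_two t (by omega)
  simp only [ev]
  have e1 : ∀ a b : G, (u ++ a :: b :: v).length = j + 2 := by intro a b; simp; omega
  have e2 : (u ++ v).length = j := by simp; omega
  have r : ∀ a b c d : G, u ++ a :: b :: (v ++ c :: d :: z) = (u ++ a :: b :: v) ++ c :: d :: z := by
    intros; simp
  rw [c02_get0 i x1 u _ hu, c02_get1 i x1 x2 u _ hu, c02_rem i x1 x2 u _ hu,
    ← List.append_assoc u v, c02_cr j c y1 y2 _ z e2, r, c02_cr (j + 2) c y1 y2 _ z (e1 _ _), ← r,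
    c02_get0 i x1 u _ hu, c02_get1 i x1 x2 u _ hu, c02_rem i x1 x2 u _ hu,
    List.append_assoc u v]

theorem move_cd (m i j : ℕ) (c : Bool) (h : j + 2 ≤ i) (f : List G → ℕ) (s : List G)
    (hs : s.length = m) (ha : OK m [.death i, .cross j c]) :
    ev [.death i, .cross j c] f s = ev [.cross j c, .death i] f s := by
  simp only [OK, Layer.ok, Layer.out] at ha
  obtain ⟨u, t, rfl, hu, ht⟩ := c02_split s j (by omega)
  obtain ⟨x1, x2, t, rfl, ht'⟩ := c02_two t (by omega)
  simp only [List.length_append, List.length_cons] at *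
  obtain ⟨v, t, rfl, hv, ht''⟩ := c02_split t (i - (j + 2)) (by omega)
  simp only [List.length_append, List.length_cons] at *
  obtain ⟨y1, y2, z, rfl, hz⟩ := c02_two t (by omega)
  simp only [ev]
  have e1 : ∀ a b : G, (u ++ a :: b :: v).length = i := by intro a b; simp; omega
  have r : ∀ a b : G, ∀ z : List G, u ++ a :: b :: (v ++ z) = (u ++ a :: b :: v) ++ z := by
    intros; simp
  rw [c02_cr j c x1 x2 u _ hu, r, r, c02_get0 i y1 _ _ (e1 _ _), c02_get1 i y1 y2 _ _ (e1 _ _),
    c02_rem i y1 y2 _ _ (e1 _ _), c02_get0 i y1 _ _ (e1 _ _), c02_get1 i y1 y2 _ _ (e1 _ _),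
    c02_rem i y1 y2 _ _ (e1 _ _), ← r, ← r, c02_cr j c x1 x2 u _ hu]

theorem move_bb (m i j : ℕ) (h : i + 2 ≤ j) (f : List G → ℕ) (s : List G)
    (hs : s.length = m) (ha : OK m [.birth i, .birth j]) :
    ev [.birth i, .birth j] f s = ev [.birth (j - 2), .birth i] f s := by
  simp only [OK, Layer.ok, Layer.out] at ha
  obtain ⟨u, t, rfl, hu, ht⟩ := c02_split s i (by omega)
  simp only [List.length_append] at *
  obtain ⟨v, z, rfl, hv, ht''⟩ := c02_split t (j - (i + 2)) (by omega)
  simp only [ev]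
  have e1 : ∀ a b : G, (u ++ a :: b :: v).length = j := by intro a b; simp; omega
  have e2 : (u ++ v).length = j - 2 := by simp; omega
  have r : ∀ a b : G, ∀ z : List G, u ++ a :: b :: (v ++ z) = (u ++ a :: b :: v) ++ z := by
    intros; simp
  rw [Finset.sum_comm]
  refine Finset.sum_congr rfl fun g _ => Finset.sum_congr rfl fun g' _ => ?_
  rw [c02_ins i g' u _ hu, r, c02_ins j g _ z (e1 _ _), ← List.append_assoc u v,
    c02_ins (j - 2) g _ z e2, List.append_assoc u v, c02_ins i g' u _ hu, r]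

theorem move_dd (m i j : ℕ) (h : i ≤ j) (f : List G → ℕ) (s : List G)
    (hs : s.length = m) (ha : OK m [.death i, .death j]) :
    ev [.death i, .death j] f s = ev [.death (j + 2), .death i] f s := by
  simp only [OK, Layer.ok, Layer.out] at ha
  obtain ⟨u, t, rfl, hu, ht⟩ := c02_split s i (by omega)
  obtain ⟨x1, x2, t, rfl, ht'⟩ := c02_two t (by omega)
  simp only [List.length_append, List.length_cons] at *
  obtain ⟨v, t, rfl, hv, ht''⟩ := c02_split t (j - i) (by omega)
  simp only [List.length_append, List.length_cons] at *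
  obtain ⟨y1, y2, z, rfl, hz⟩ := c02_two t (by omega)
  simp only [ev]
  have e1 : ∀ a b : G, (u ++ a :: b :: v).length = j + 2 := by intro a b; simp; omega
  have e2 : (u ++ v).length = j := by simp; omega
  have r : ∀ a b : G, ∀ z : List G, u ++ a :: b :: (v ++ z) = (u ++ a :: b :: v) ++ z := by
    intros; simp
  have g0 : (u ++ x1 :: x2 :: (v ++ y1 :: y2 :: z)).getD (j + 2) 1 = y1 := by
    rw [r]; exact c02_get0 _ _ _ _ (e1 _ _)
  have g1 : (u ++ x1 :: x2 :: (v ++ y1 :: y2 :: z)).getD (j + 2 + 1) 1 = y2 := by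
    rw [r]; exact c02_get1 _ _ _ _ _ (e1 _ _)
  have g2 : rem (j + 2) (u ++ x1 :: x2 :: (v ++ y1 :: y2 :: z)) = u ++ x1 :: x2 :: (v ++ z) := by
    rw [r, c02_rem (j + 2) y1 y2 _ _ (e1 _ _), r]
  have g3 : (u ++ (v ++ y1 :: y2 :: z)).getD j 1 = y1 := by
    rw [← List.append_assoc]; exact c02_get0 _ _ _ _ e2
  have g4 : (u ++ (v ++ y1 :: y2 :: z)).getD (j + 1) 1 = y2 := by
    rw [← List.append_assoc]; exact c02_get1 _ _ _ _ _ e2
  have g5 : rem j (u ++ (v ++ y1 :: y2 :: z)) = u ++ (v ++ z) := by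
    rw [← List.append_assoc, c02_rem j y1 y2 _ _ e2, List.append_assoc]
  rw [c02_get0 i x1 u _ hu, c02_get1 i x1 x2 u _ hu, c02_rem i x1 x2 u _ hu, g3, g4, g5, g0, g1, g2,
    c02_get0 i x1 u _ hu, c02_get1 i x1 x2 u _ hu, c02_rem i x1 x2 u _ hu]
  split_ifs <;> rfl

theorem move_bd (m i j : ℕ) (h : i + 2 ≤ j) (f : List G → ℕ) (s : List G)
    (hs : s.length = m) (ha : OK m [.birth i, .death j]) :
    ev [.birth i, .death j] f s = ev [.death (j - 2), .birth i] f s := by
  simp only [OK, Layer.ok, Layer.out] at ha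
  obtain ⟨u, t, rfl, hu, ht⟩ := c02_split s i (by omega)
  simp only [List.length_append] at *
  obtain ⟨v, t, rfl, hv, ht''⟩ := c02_split t (j - (i + 2)) (by omega)
  simp only [List.length_append] at *
  obtain ⟨y1, y2, z, rfl, hz⟩ := c02_two t (by omega)
  simp only [ev]
  have e1 : ∀ a b : G, (u ++ a :: b :: v).length = j := by intro a b; simp; omega
  have e2 : (u ++ v).length = j - 2 := by simp; omega
  have r : ∀ a b : G, ∀ z : List G, u ++ a :: b :: (v ++ z) = (u ++ a :: b :: v) ++ z := by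
    intros; simp
  rw [← List.append_assoc u v, c02_get0 (j - 2) y1 _ _ e2, c02_get1 (j - 2) y1 y2 _ _ e2,
    c02_rem (j - 2) y1 y2 _ _ e2, List.append_assoc u v, List.append_assoc u v]
  have g : ∀ g : G, (if (ins i g (u ++ (v ++ y1 :: y2 :: z))).getD j 1 =
      (ins i g (u ++ (v ++ y1 :: y2 :: z))).getD (j + 1) 1 then
        f (rem j (ins i g (u ++ (v ++ y1 :: y2 :: z)))) else 0) =
      if y1 = y2 then f (ins i g (u ++ (v ++ z))) else 0 := by
    intro g
    rw [c02_ins i g u _ hu, c02_ins i g u _ hu, r, c02_get0 j y1 _ _ (e1 _ _),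
      c02_get1 j y1 y2 _ _ (e1 _ _), c02_rem j y1 y2 _ _ (e1 _ _), r]
  rw [Finset.sum_congr rfl fun x _ => g x]
  split_ifs
  · rfl
  · simp

theorem move_db (m i j : ℕ) (h : j + 2 ≤ i) (f : List G → ℕ) (s : List G)
    (hs : s.length = m) (ha : OK m [.birth i, .death j]) :
    ev [.birth i, .death j] f s = ev [.death j, .birth (i - 2)] f s := by
  simp only [OK, Layer.ok, Layer.out] at ha
  obtain ⟨u, t, rfl, hu, ht⟩ := c02_split s j (by omega)
  obtain ⟨x1, x2, t, rfl, ht'⟩ := c02_two t (by omega)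
  simp only [List.length_append, List.length_cons] at *
  obtain ⟨v, z, rfl, hv, ht''⟩ := c02_split t (i - (j + 2)) (by omega)
  simp only [ev]
  have e1 : ∀ a b : G, (u ++ a :: b :: v).length = i := by intro a b; simp; omega
  have e2 : (u ++ v).length = i - 2 := by simp; omega
  have r : ∀ a b : G, ∀ z : List G, u ++ a :: b :: (v ++ z) = (u ++ a :: b :: v) ++ z := by
    intros; simp
  rw [c02_get0 j x1 u _ hu, c02_get1 j x1 x2 u _ hu, c02_rem j x1 x2 u _ hu]
  have g : ∀ g : G, (if (ins i g (u ++ x1 :: x2 :: (v ++ z))).getD j 1 =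
      (ins i g (u ++ x1 :: x2 :: (v ++ z))).getD (j + 1) 1 then
        f (rem j (ins i g (u ++ x1 :: x2 :: (v ++ z)))) else 0) =
      if x1 = x2 then f (ins (i - 2) g (u ++ (v ++ z))) else 0 := by
    intro g
    rw [r, c02_ins i g _ z (e1 _ _), ← r, c02_get0 j x1 u _ hu, c02_get1 j x1 x2 u _ hu,
      c02_rem j x1 x2 u _ hu, ← List.append_assoc u v z, c02_ins (i - 2) g _ z e2,
      List.append_assoc]
  rw [Finset.sum_congr rfl fun x _ => g x]
  split_ifs
  · rfl
  · simp

end TorMut.Core
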