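import Pool.Agent.Lib.MP_407fc5_gt.C01

/-!
# C03: the Reidemeister moves (about 60 minutes)

Write `s = u ++ x ++ v` with `u.length = i` and `x` the block of at most three touched colours and
compute with `ins_ctx`, `rem_ctx`, `cr_ctx` (or directly with `simp`).  Group identities:
* zigzag: colours `x` of the strand, new colour `g`; the death forces `g = x`
  (`Finset.sum_ite_eq`);
* R1: `g * g⁻¹ * g = g`; * R2: `y * (y * x⁻¹ * y)⁻¹ * y = x`;
* R3 (`b = true`): both sides give `(z, z y⁻¹ z, z y⁻¹ x y⁻¹ z)`; check by `group`/`simp [mul_assoc]`;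
* slides: birth: left side `(g, y, y g⁻¹ y)` (for `b = true`), right side with the new colour
  `h`: `(y h⁻¹ y, y, h)`; substitute `h = y g⁻¹ y` (`Fintype.sum_equiv` with the involution
  `g ↦ y * g⁻¹ * y`).
-/

namespace TorMut.Core

variable {G : Type*} [Group G]

/-- the two colours below a crossing -/
def c03_x (b : Bool) (x y : G) : G × G :=
  if b then (y, y * x⁻¹ * y) else (x * y⁻¹ * x, x)

omit [Group G] in
lemma c03_split (s : List G) (n : ℕ) (h : n ≤ s.length) :
    ∃ u t, s = u ++ t ∧ u.length = n ∧ t.length = s.length - n :=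
  ⟨s.take n, s.drop n, (List.take_append_drop n s).symm, by simp [h], by simp⟩

omit [Group G] in
lemma c03_one (t : List G) (h : 1 ≤ t.length) :
    ∃ a t', t = a :: t' ∧ t'.length = t.length - 1 := by
  match t, h with
  | a :: t', _ => exact ⟨a, t', rfl, by simp⟩

lemma c03_ins (p : ℕ) (g : G) (u t : List G) (h : u.length = p) :
    ins p g (u ++ t) = u ++ g :: g :: t := by
  subst h
  simp [ins]

lemma c03_ins1 (p : ℕ) (g a : G) (u t : List G) (h : u.length = p) :
    ins (p + 1) g (u ++ a :: t) = u ++ a :: g :: g :: t := by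
  have := c03_ins (p + 1) g (u ++ [a]) t (by simp [h])
  simpa using this

lemma c03_rem (p : ℕ) (a b : G) (u t : List G) (h : u.length = p) :
    rem p (u ++ a :: b :: t) = u ++ t := by
  subst h
  simp [rem]

lemma c03_rem1 (p : ℕ) (a b c : G) (u t : List G) (h : u.length = p) :
    rem (p + 1) (u ++ a :: b :: c :: t) = u ++ a :: t := by
  have := c03_rem (p + 1) b c (u ++ [a]) t (by simp [h])
  simpa using this

lemma c03_get0 (p : ℕ) (a : G) (u t : List G) (h : u.length = p) :
    (u ++ a :: t).getD p 1 = a := by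
  subst h
  simp

lemma c03_get1 (p : ℕ) (a b : G) (u t : List G) (h : u.length = p) :
    (u ++ a :: b :: t).getD (p + 1) 1 = b := by
  subst h
  simp [List.getD_eq_getElem?_getD]

lemma c03_get2 (p : ℕ) (a b c : G) (u t : List G) (h : u.length = p) :
    (u ++ a :: b :: c :: t).getD (p + 1 + 1) 1 = c := by
  subst h
  simp [List.getD_eq_getElem?_getD, add_assoc]

lemma c03_cr (p : ℕ) (c : Bool) (a b : G) (u t : List G) (h : u.length = p) :
    cr p c (u ++ a :: b :: t) = u ++ (c03_x c a b).1 :: (c03_x c a b).2 :: t := by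
  have h0 := c03_get0 p a u (b :: t) h
  have h1 := c03_get1 p a b u t h
  cases c
  · simp only [cr, c03_x, h0, h1]
    subst h
    simp
  · simp only [cr, c03_x, h0, h1]
    subst h
    simp

lemma c03_cr1 (p : ℕ) (c : Bool) (a b d : G) (u t : List G) (h : u.length = p) :
    cr (p + 1) c (u ++ a :: b :: d :: t) =
      u ++ a :: (c03_x c b d).1 :: (c03_x c b d).2 :: t := by
  have := c03_cr (p + 1) c b d (u ++ [a]) t (by simp [h])
  simpa using this

variable [Fintype G] [DecidableEq G]

theorem move_zl (m i : ℕ) (h : i < m) (f : List G → ℕ) (s : List G) (hs : s.length = m) :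
    ev [.birth i, .death (i + 1)] f s = ev [] f s := by
  obtain ⟨u, t, rfl, hu, ht⟩ := c03_split s i (by omega)
  obtain ⟨x, t, rfl, ht'⟩ := c03_one t (by omega)
  simp only [ev]
  have g : ∀ g : G, (if (ins i g (u ++ x :: t)).getD (i + 1) 1 =
      (ins i g (u ++ x :: t)).getD (i + 1 + 1) 1 then
        f (rem (i + 1) (ins i g (u ++ x :: t))) else 0) =
      if g = x then f (u ++ g :: t) else 0 := by
    intro g
    rw [c03_ins i g u _ hu, c03_get1 i g g u _ hu, c03_get2 i g g x u _ hu, c03_rem1 i g g x u _ hu]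
  rw [Finset.sum_congr rfl fun x _ => g x]
  simp

theorem move_zr (m i : ℕ) (h : i < m) (f : List G → ℕ) (s : List G) (hs : s.length = m) :
    ev [.birth (i + 1), .death i] f s = ev [] f s := by
  obtain ⟨u, t, rfl, hu, ht⟩ := c03_split s i (by omega)
  obtain ⟨x, t, rfl, ht'⟩ := c03_one t (by omega)
  simp only [ev]
  have g : ∀ g : G, (if (ins (i + 1) g (u ++ x :: t)).getD i 1 =
      (ins (i + 1) g (u ++ x :: t)).getD (i + 1) 1 then
        f (rem i (ins (i + 1) g (u ++ x :: t))) else 0) =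
      if x = g then f (u ++ g :: t) else 0 := by
    intro g
    rw [c03_ins1 i g x u _ hu, c03_get0 i x u _ hu, c03_get1 i x g u _ hu, c03_rem i x g u _ hu]
  rw [Finset.sum_congr rfl fun x _ => g x]
  simp

theorem move_r1b (m i : ℕ) (b : Bool) (f : List G → ℕ) (s : List G) (hs : s.length = m)
    (ha : OK m [.birth i]) : ev [.birth i, .cross i b] f s = ev [.birth i] f s := by
  simp only [OK, Layer.ok] at ha
  obtain ⟨u, t, rfl, hu, ht⟩ := c03_split s i (by omega)
  simp only [ev]
  refine Finset.sum_congr rfl fun g _ => ?_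
  rw [c03_ins i g u _ hu, c03_cr i b g g u _ hu]
  cases b <;> simp [c03_x]

theorem move_r1d (m i : ℕ) (b : Bool) (f : List G → ℕ) (s : List G) (hs : s.length = m)
    (ha : OK m [.death i]) : ev [.cross i b, .death i] f s = ev [.death i] f s := by
  simp only [OK, Layer.ok] at ha
  obtain ⟨u, t, rfl, hu, ht⟩ := c03_split s i (by omega)
  obtain ⟨x, t, rfl, ht'⟩ := c03_one t (by omega)
  obtain ⟨y, t, rfl, ht''⟩ := c03_one t (by omega)
  simp only [ev]
  rw [c03_cr i b x y u _ hu, c03_get0 i _ u _ hu, c03_get1 i _ _ u _ hu, c03_rem i _ _ u _ hu,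
    c03_get0 i _ u _ hu, c03_get1 i _ _ u _ hu, c03_rem i _ _ u _ hu]
  refine if_congr ?_ rfl rfl
  cases b
  · simp only [c03_x, Bool.false_eq_true, if_false]
    constructor
    · intro h
      have h2 : x * y⁻¹ = 1 := mul_eq_right.mp h
      exact mul_inv_eq_one.mp h2
    · rintro rfl
      simp
  · simp only [c03_x, if_true]
    constructor
    · intro h
      have h2 : y * x⁻¹ = 1 := mul_eq_right.mp h.symm
      exact (mul_inv_eq_one.mp h2).symm
    · rintro rfl
      simp

theorem move_r2 (m i : ℕ) (b : Bool) (h : i + 2 ≤ m) (f : List G → ℕ) (s : List G)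
    (hs : s.length = m) : ev [.cross i b, .cross i (!b)] f s = ev [] f s := by
  obtain ⟨u, t, rfl, hu, ht⟩ := c03_split s i (by omega)
  obtain ⟨x, t, rfl, ht'⟩ := c03_one t (by omega)
  obtain ⟨y, t, rfl, ht''⟩ := c03_one t (by omega)
  simp only [ev]
  rw [c03_cr i b x y u _ hu, c03_cr i (!b) _ _ u _ hu]
  cases b <;> simp [c03_x, mul_assoc]

theorem move_r3 (m i : ℕ) (b : Bool) (f : List G → ℕ) (s : List G) (hs : s.length = m)
    (ha : OK m [.cross i b, .cross (i + 1) b, .cross i b]) :
    ev [.cross i b, .cross (i + 1) b, .cross i b] f s =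
      ev [.cross (i + 1) b, .cross i b, .cross (i + 1) b] f s := by
  simp only [OK, Layer.ok, Layer.out] at ha
  obtain ⟨u, t, rfl, hu, ht⟩ := c03_split s i (by omega)
  obtain ⟨x, t, rfl, ht'⟩ := c03_one t (by omega)
  obtain ⟨y, t, rfl, ht''⟩ := c03_one t (by omega)
  obtain ⟨z, t, rfl, ht'''⟩ := c03_one t (by omega)
  simp only [ev]
  rw [c03_cr i b x y u _ hu, c03_cr1 i b _ _ _ u _ hu, c03_cr i b _ _ u _ hu,
    c03_cr1 i b _ _ _ u _ hu, c03_cr i b _ _ u _ hu, c03_cr1 i b _ _ _ u _ hu]
  cases b <;> simp [c03_x, mul_assoc]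

theorem move_sb (m i : ℕ) (b : Bool) (f : List G → ℕ) (s : List G) (hs : s.length = m)
    (ha : OK m [.birth i, .cross (i + 1) b]) :
    ev [.birth i, .cross (i + 1) b] f s = ev [.birth (i + 1), .cross i (!b)] f s := by
  simp only [OK, Layer.ok, Layer.out] at ha
  obtain ⟨u, t, rfl, hu, ht⟩ := c03_split s i (by omega)
  obtain ⟨y, t, rfl, ht'⟩ := c03_one t (by omega)
  simp only [ev]
  cases b
  · refine Finset.sum_congr rfl fun g _ => ?_
    rw [c03_ins i g u _ hu, c03_cr1 i _ _ _ _ u _ hu, c03_ins1 i g y u _ hu, c03_cr i _ _ _ u _ hu]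
    simp [c03_x]
  · have hinv : ∀ g : G, y * (y * g⁻¹ * y)⁻¹ * y = g := by intro g; simp [mul_assoc]
    refine Fintype.sum_equiv ⟨fun g => y * g⁻¹ * y, fun g => y * g⁻¹ * y, hinv, hinv⟩ _ _
      fun g => ?_
    rw [c03_ins i g u _ hu, c03_cr1 i _ _ _ _ u _ hu, c03_ins1 i _ y u _ hu, c03_cr i _ _ _ u _ hu]
    simp [c03_x, mul_assoc]

theorem move_sd (m i : ℕ) (b : Bool) (f : List G → ℕ) (s : List G) (hs : s.length = m)
    (ha : OK m [.cross (i + 1) b, .death i]) :
    ev [.cross (i + 1) b, .death i] f s = ev [.cross i (!b), .death (i + 1)] f s := by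
  simp only [OK, Layer.ok, Layer.out] at ha
  obtain ⟨u, t, rfl, hu, ht⟩ := c03_split s i (by omega)
  obtain ⟨x, t, rfl, ht'⟩ := c03_one t (by omega)
  obtain ⟨y, t, rfl, ht''⟩ := c03_one t (by omega)
  obtain ⟨z, t, rfl, ht'''⟩ := c03_one t (by omega)
  simp only [ev]
  rw [c03_cr1 i b _ _ _ u _ hu, c03_get0 i _ u _ hu, c03_get1 i _ _ u _ hu, c03_rem i _ _ u _ hu,
    c03_cr i _ _ _ u _ hu, c03_get1 i _ _ u _ hu, c03_get2 i _ _ _ u _ hu, c03_rem1 i _ _ _ u _ hu]
  cases b
  · simp only [c03_x, Bool.false_eq_true, if_false, Bool.not_false, if_true]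
    refine if_congr ?_ rfl rfl
    constructor
    · rintro rfl
      simp [mul_assoc]
    · rintro rfl
      simp [mul_assoc]
  · simp only [c03_x, Bool.false_eq_true, if_false, Bool.not_true, if_true]
    by_cases hxz : x = z
    · subst hxz
      simp
    · simp [hxz]

end TorMut.Core
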