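import Pool.Agent.Lib.MP_407fc5_gt.C01

/-!
# C04: colours seen from behind (about 60 minutes)

`hat [x, y, z] = [x, x y⁻¹ x, x y⁻¹ z y⁻¹ x]`.  General induction on the list with a general
accumulator `a` in `hatAux`; all accumulators that occur are of the form `z ↦ p * z * q` or
`z ↦ p * z⁻¹ * q`, hence bijective and they satisfy `a (x * y⁻¹ * x) = a x * (a y)⁻¹ * a x`
(call this property `IsRefl a`: preserved by `a ↦ fun z => a (x * z⁻¹ * x)`).

Facts, for `IsRefl a`, bijective:
* appending `g, g` changes the accumulator by `z ↦ a (g * (g * z⁻¹ * g)⁻¹ * g) = a z`: hence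
  `hatAux a (ins i g s) = ins i (a' g) (hatAux a s)` with a bijection `a'` depending on `i`, `s`;
* crossing (`b = true`): the colours `(x, y)` at `i, i+1` with accumulator `a` have hats
  `(a x, a (x y⁻¹ x))`, the colours `(y, y x⁻¹ y)` have hats `(a y, a x)`, later accumulators
  agree because `y (y x⁻¹ y)⁻¹ … = x y⁻¹ …`.
-/

namespace TorMut.Core

variable {G : Type*} [Group G]

/-- property of the accumulators -/
def c04_Refl (a : G → G) : Prop := ∀ x y, a (x * y⁻¹ * x) = a x * (a y)⁻¹ * a x

/-- the accumulator after a list -/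
def c04_acc : (G → G) → List G → (G → G)
  | a, [] => a
  | a, x :: s => c04_acc (fun z => a (x * z⁻¹ * x)) s

lemma c04_refl_step {a : G → G} (ha : c04_Refl a) (x : G) :
    c04_Refl (fun z => a (x * z⁻¹ * x)) := by
  intro u v
  change a (x * (u * v⁻¹ * u)⁻¹ * x) = a (x * u⁻¹ * x) * (a (x * v⁻¹ * x))⁻¹ * a (x * u⁻¹ * x)
  rw [← ha]
  congr 1
  group

lemma c04_bij_step {a : G → G} (ha : Function.Bijective a) (x : G) :
    Function.Bijective (fun z => a (x * z⁻¹ * x)) := by
  have h : Function.Bijective (fun z : G => x * z⁻¹ * x) := by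
    apply Function.Involutive.bijective
    intro z
    change x * (x * z⁻¹ * x)⁻¹ * x = z
    group
  exact ha.comp h

lemma c04_refl_acc (s : List G) : ∀ {a : G → G}, c04_Refl a → c04_Refl (c04_acc a s) := by
  induction s with
  | nil => intro a ha; exact ha
  | cons x s ih => intro a ha; exact ih (c04_refl_step ha x)

lemma c04_bij_acc (s : List G) : ∀ {a : G → G}, Function.Bijective a →
    Function.Bijective (c04_acc a s) := by
  induction s with
  | nil => intro a ha; exact ha
  | cons x s ih => intro a ha; exact ih (c04_bij_step ha x)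

lemma c04_refl_id : c04_Refl (id : G → G) := fun _ _ => rfl

lemma c04_append (s t : List G) : ∀ a : G → G,
    hatAux a (s ++ t) = hatAux a s ++ hatAux (c04_acc a s) t := by
  induction s with
  | nil => intro a; rfl
  | cons x s ih =>
    intro a
    change a x :: hatAux (fun z => a (x * z⁻¹ * x)) (s ++ t) =
      a x :: (hatAux (fun z => a (x * z⁻¹ * x)) s ++ _)
    rw [ih]
    rfl

lemma c04_len (s : List G) : ∀ a : G → G, (hatAux a s).length = s.length := by
  induction s with
  | nil => intro a; rfl
  | cons x s ih => intro a; simp [hatAux, ih]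

lemma c04_two (a : G → G) (x y : G) (t : List G) :
    hatAux a (x :: y :: t) = a x :: a (x * y⁻¹ * x) :: hatAux (fun z => a (x * y⁻¹ * z * y⁻¹ * x)) t := by
  have h : (fun z => a (x * (y * z⁻¹ * y)⁻¹ * x)) = fun z => a (x * y⁻¹ * z * y⁻¹ * x) := by
    funext z
    congr 1
    group
  simp only [hatAux]
  rw [h]

lemma c04_two_same (a : G → G) (x : G) (t : List G) :
    hatAux a (x :: x :: t) = a x :: a x :: hatAux a t := by
  rw [c04_two]
  have h1 : x * x⁻¹ * x = x := by group
  have h2 : (fun z => a (x * x⁻¹ * z * x⁻¹ * x)) = a := by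
    funext z
    congr 1
    group
  rw [h1, h2]

lemma c04_inv (s : List G) : ∀ a b : G → G, c04_Refl a → (∀ z, b (a z) = z) →
    hatAux b (hatAux a s) = s := by
  induction s with
  | nil => intro a b _ _; rfl
  | cons x s ih =>
    intro a b ha hb
    change b (a x) :: hatAux (fun z => b (a x * z⁻¹ * a x))
      (hatAux (fun z => a (x * z⁻¹ * x)) s) = x :: s
    rw [hb, ih _ _ (c04_refl_step ha x)]
    intro z
    change b (a x * (a (x * z⁻¹ * x))⁻¹ * a x) = z
    rw [ha x z]
    have : a x * (a x * (a z)⁻¹ * a x)⁻¹ * a x = a z := by group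
    rw [this, hb]

lemma c04_split (i : ℕ) (s : List G) (h : i + 2 ≤ s.length) :
    ∃ u x y t, s = u ++ x :: y :: t ∧ u.length = i ∧ s.length = i + 2 + t.length := by
  have h1 : i < s.length := by omega
  have h2 : i + 1 < s.length := by omega
  refine ⟨s.take i, s[i], s[i + 1], s.drop (i + 2), ?_, ?_, ?_⟩
  · rw [List.getElem_cons_drop, List.getElem_cons_drop, List.take_append_drop]
  · simp; omega
  · simp; omega

lemma c04_ins (u t : List G) (g : G) : ins u.length g (u ++ t) = u ++ g :: g :: t := by
  simp [ins]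

lemma c04_rem (u t : List G) (x y : G) : rem u.length (u ++ x :: y :: t) = u ++ t := by
  simp [rem]

lemma c04_getD0 (u t : List G) (x y : G) : (u ++ x :: y :: t).getD u.length 1 = x := by
  simp [List.getD]

lemma c04_getD1 (u t : List G) (x y : G) : (u ++ x :: y :: t).getD (u.length + 1) 1 = y := by
  simp [List.getD]

lemma c04_crt (u t : List G) (x y : G) :
    cr u.length true (u ++ x :: y :: t) = u ++ y :: (y * x⁻¹ * y) :: t := by
  simp only [cr]
  rw [c04_getD0, c04_getD1]
  simp

lemma c04_crf (u t : List G) (x y : G) :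
    cr u.length false (u ++ x :: y :: t) = u ++ (x * y⁻¹ * x) :: x :: t := by
  simp only [cr]
  rw [c04_getD0, c04_getD1]
  simp

lemma hat_length (s : List G) : (hat s).length = s.length := c04_len s id

lemma rhat_length (s : List G) : (rhat s).length = s.length := by
  rw [rhat, List.length_reverse, hat_length]

/-- `hat` is an involution -/
theorem hat_hat (s : List G) : hat (hat s) = s :=
  c04_inv s id id c04_refl_id (fun _ => rfl)

theorem hat_ins (i : ℕ) (s : List G) (h : i ≤ s.length) :
    ∃ e : G ≃ G, ∀ g, hat (ins i g s) = ins i (e g) (hat s) := by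
  obtain ⟨u, t, rfl, rfl⟩ : ∃ u t, s = u ++ t ∧ u.length = i :=
    ⟨s.take i, s.drop i, (List.take_append_drop i s).symm, by simp [h]⟩
  refine ⟨Equiv.ofBijective _ (c04_bij_acc u Function.bijective_id), fun g => ?_⟩
  rw [c04_ins]
  simp only [hat]
  rw [c04_append, c04_append, c04_two_same, Equiv.ofBijective_apply]
  conv_rhs => rw [← c04_len u id]
  rw [c04_ins]

theorem hat_death (i : ℕ) (s : List G) (h : i + 2 ≤ s.length) :
    (hat s).getD i 1 = (hat s).getD (i + 1) 1 ↔ s.getD i 1 = s.getD (i + 1) 1 := by
  obtain ⟨u, x, y, t, rfl, rfl, -⟩ := c04_split i s h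
  rw [c04_getD0, c04_getD1]
  simp only [hat]
  rw [c04_append, c04_two, ← c04_len u id, c04_getD0, c04_getD1,
    (c04_bij_acc u Function.bijective_id).injective.eq_iff]
  constructor
  · intro h1
    have h2 : x * y⁻¹ = 1 := by
      have := congrArg (fun z => z * x⁻¹) h1
      simpa using this.symm
    exact mul_inv_eq_one.1 h2
  · rintro rfl
    group

theorem hat_rem (i : ℕ) (s : List G) (h : i + 2 ≤ s.length)
    (hs : s.getD i 1 = s.getD (i + 1) 1) : hat (rem i s) = rem i (hat s) := by
  obtain ⟨u, x, y, t, rfl, rfl, -⟩ := c04_split i s h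
  rw [c04_getD0, c04_getD1] at hs
  subst hs
  rw [c04_rem]
  simp only [hat]
  rw [c04_append, c04_append, c04_two_same]
  conv_rhs => rw [← c04_len u id]
  rw [c04_rem]

/-- rotation about the horizontal axis -/
theorem cr_hat_cr (i : ℕ) (b : Bool) (s : List G) (h : i + 2 ≤ s.length) :
    cr i b (hat (cr i b s)) = hat s := by
  obtain ⟨u, x, y, t, rfl, rfl, -⟩ := c04_split i s h
  have hr := c04_refl_acc u (c04_refl_id (G := G))
  cases b
  · rw [c04_crf]
    simp only [hat]
    rw [c04_append, c04_append, c04_two, c04_two]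
    conv_lhs => rw [← c04_len u id]
    rw [c04_crf]
    congr 2
    · rw [← hr]
      congr 1
      group
    · congr 2
      funext z
      congr 1
      group
  · rw [c04_crt]
    simp only [hat]
    rw [c04_append, c04_append, c04_two, c04_two]
    conv_lhs => rw [← c04_len u id]
    rw [c04_crt]
    have e1 : y * (y * x⁻¹ * y)⁻¹ * y = x := by group
    rw [e1]
    congr 2
    rw [← hr]
    congr 2
    funext z
    congr 1
    group

lemma c04_rev_ins (i : ℕ) (g : G) (s : List G) (h : i ≤ s.length) :
    (ins i g s).reverse = ins (s.length - i) g s.reverse := by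
  obtain ⟨u, t, rfl, rfl⟩ : ∃ u t, s = u ++ t ∧ u.length = i :=
    ⟨s.take i, s.drop i, (List.take_append_drop i s).symm, by simp [h]⟩
  have e : (u ++ t).length - u.length = t.reverse.length := by simp
  rw [c04_ins, e, List.reverse_append, List.reverse_append, c04_ins]
  simp

theorem rhat_ins (i : ℕ) (s : List G) (h : i ≤ s.length) :
    ∃ e : G ≃ G, ∀ g, rhat (ins i g s) = ins (s.length - i) (e g) (rhat s) := by
  obtain ⟨e, he⟩ := hat_ins i s h
  refine ⟨e, fun g => ?_⟩
  rw [rhat, he, c04_rev_ins i _ _ (by rw [hat_length]; exact h), hat_length, rhat]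

theorem rhat_death (i : ℕ) (s : List G) (h : i + 2 ≤ s.length) :
    (rhat s).getD (s.length - 2 - i) 1 = (rhat s).getD (s.length - 2 - i + 1) 1 ↔
      s.getD i 1 = s.getD (i + 1) 1 := by
  rw [← hat_death i s h, rhat, ← hat_length s]
  have h' : i + 2 ≤ (hat s).length := by rw [hat_length]; exact h
  generalize hat s = H at h'
  obtain ⟨u, x, y, t, rfl, rfl, hl⟩ := c04_split i H h'
  have e : (u ++ x :: y :: t).length - 2 - u.length = t.reverse.length := by
    rw [hl, List.length_reverse]; omega
  have e2 : (u ++ x :: y :: t).reverse = t.reverse ++ y :: x :: u.reverse := by simp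
  rw [e, e2, c04_getD0, c04_getD1, c04_getD0, c04_getD1]
  exact eq_comm

theorem rhat_rem (i : ℕ) (s : List G) (h : i + 2 ≤ s.length)
    (hs : s.getD i 1 = s.getD (i + 1) 1) : rhat (rem i s) = rem (s.length - 2 - i) (rhat s) := by
  rw [rhat, rhat, hat_rem i s h hs, ← hat_length s]
  have h' : i + 2 ≤ (hat s).length := by rw [hat_length]; exact h
  generalize hat s = H at h'
  obtain ⟨u, x, y, t, rfl, rfl, hl⟩ := c04_split i H h'
  have e : (u ++ x :: y :: t).length - 2 - u.length = t.reverse.length := by
    rw [hl, List.length_reverse]; omega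
  have e2 : (u ++ x :: y :: t).reverse = t.reverse ++ y :: x :: u.reverse := by simp
  rw [e, e2, c04_rem, c04_rem, List.reverse_append]

/-- rotation about the vertical axis -/
theorem cr_rhat (i : ℕ) (b : Bool) (s : List G) (h : i + 2 ≤ s.length) :
    cr (s.length - 2 - i) b (rhat s) = rhat (cr i b s) := by
  have hcl : (cr i b s).length = s.length := by
    obtain ⟨u, x, y, t, rfl, rfl, -⟩ := c04_split i s h
    cases b
    · rw [c04_crf]; simp
    · rw [c04_crt]; simp
  rw [rhat, rhat, ← cr_hat_cr i b s h, ← hcl, ← hat_length (cr i b s)]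
  have h' : i + 2 ≤ (hat (cr i b s)).length := by rw [hat_length, hcl]; exact h
  generalize hat (cr i b s) = H at h'
  obtain ⟨u, x, y, t, rfl, rfl, hl⟩ := c04_split i H h'
  have e : (u ++ x :: y :: t).length - 2 - u.length = t.reverse.length := by
    rw [hl, List.length_reverse]; omega
  rw [e]
  cases b
  · rw [c04_crf]
    have e2 : (u ++ (x * y⁻¹ * x) :: x :: t).reverse =
      t.reverse ++ x :: (x * y⁻¹ * x) :: u.reverse := by simp
    have e3 : (u ++ x :: y :: t).reverse = t.reverse ++ y :: x :: u.reverse := by simp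
    rw [e2, e3, c04_crf]
    congr 2
    group
  · rw [c04_crt]
    have e2 : (u ++ y :: (y * x⁻¹ * y) :: t).reverse =
      t.reverse ++ (y * x⁻¹ * y) :: y :: u.reverse := by simp
    have e3 : (u ++ x :: y :: t).reverse = t.reverse ++ y :: x :: u.reverse := by simp
    rw [e2, e3, c04_crt]
    congr 3
    group

end TorMut.Core
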