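import Pool.Agent.Lib.MP_407fc5_gt.C04

/-!
# C05: colourings of the word rotated about the vertical axis (about 25 minutes)

Induction on `w` with `s` general and `m = s.length`; use C04 (`rhat_ins`, `rhat_death`,
`rhat_rem`, `cr_rhat`); for births `Fintype.sum_equiv`.
-/

namespace TorMut.Core

variable {G : Type*} [Group G] [Fintype G] [DecidableEq G]

theorem ev_rotY (w : Word) (f : List G → ℕ) (s : List G) (hw : OK s.length w) :
    ev (rotY s.length w) f (rhat s) = ev w (fun t => f (rhat t)) s := by
  induction w generalizing s with
  | nil => rfl
  | cons l w ih =>
    cases l with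
    | birth i =>
      obtain ⟨h1, h2⟩ := hw
      have h1' : i ≤ s.length := h1
      obtain ⟨e, he⟩ := rhat_ins i s h1'
      change ∑ g : G, ev (rotY (s.length + 2) w) f (ins (s.length - i) g (rhat s)) =
        ∑ g : G, ev w (fun t => f (rhat t)) (ins i g s)
      symm
      apply Fintype.sum_equiv e
      intro g
      have hl : (ins i g s).length = s.length + 2 := by
        simp only [ins, List.length_append, List.length_take, List.length_drop, List.length_cons,
          List.length_nil]
        omega
      rw [← ih (ins i g s) (by rw [hl]; exact h2), he, hl]
    | death i =>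
      obtain ⟨h1, h2⟩ := hw
      have h1' : i + 2 ≤ s.length := h1
      change (if (rhat s).getD (s.length - 2 - i) 1 = (rhat s).getD (s.length - 2 - i + 1) 1 then
        ev (rotY (s.length - 2) w) f (rem (s.length - 2 - i) (rhat s)) else 0) =
        if s.getD i 1 = s.getD (i + 1) 1 then ev w (fun t => f (rhat t)) (rem i s) else 0
      have hl : (rem i s).length = s.length - 2 := by
        simp only [rem, List.length_append, List.length_take, List.length_drop]
        omega
      by_cases hs : s.getD i 1 = s.getD (i + 1) 1
      · rw [if_pos hs, if_pos ((rhat_death i s h1').2 hs), ← ih (rem i s) (by rw [hl]; exact h2),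
          rhat_rem i s h1' hs, hl]
      · rw [if_neg hs, if_neg (fun h => hs ((rhat_death i s h1').1 h))]
    | cross i b =>
      obtain ⟨h1, h2⟩ := hw
      have h1' : i + 2 ≤ s.length := h1
      change ev (rotY s.length w) f (cr (s.length - 2 - i) b (rhat s)) =
        ev w (fun t => f (rhat t)) (cr i b s)
      have hl : (cr i b s).length = s.length := by
        cases b <;>
        · simp only [cr, List.length_append, List.length_take, List.length_drop, List.length_cons,
            List.length_nil]
          omega
      rw [← ih (cr i b s) (by rw [hl]; exact h2), cr_rhat i b s h1', hl]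

end TorMut.Core
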