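import Pool.Agent.Lib.MP_407fc5_gt.C04

/-!
# C06: colourings of the word rotated about the horizontal axis (about 75 minutes)

`S m F` is the sum of `F` over all lists of length `m`.  Adjointness:
`S m (f · ev w g) = S n (g · f')` with `f' s' = ev (rotX w) (f ∘ hat) (hat s')`.

Single layers:
* `S_cross`: `S m (fun s => F (cr i b s)) = S m F` for `i + 2 ≤ m` (bijection `(x, y) ↦ (y, y x⁻¹ y)` of
  `G × G`; induction on `i`);
* `S_birth`: `S m (fun s => ∑ g, F (ins i g s)) = S (m+2) (fun t => if t_i = t_{i+1} then F t else 0)`.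
With these and C04 one gets the one-layer case; then induction on `w`: if `w = l :: w'` apply the
one-layer case to `f` and `G = ev w' g`, then the induction hypothesis to
`f₁ = fun t => ev [l.rotX] (f ∘ hat) (hat t)`; note `f₁ ∘ hat = ev [l.rotX] (f ∘ hat)` by `hat_hat`
and `rotX (l :: w') = rotX w' ++ [l.rotX]`, `ev_append`.
-/

namespace TorMut.Core

variable {G : Type*} [Group G] [Fintype G] [DecidableEq G]

omit [DecidableEq G] in
lemma S_congr (m : ℕ) (F F' : List G → ℕ) (h : ∀ s, s.length = m → F s = F' s) :
    S m F = S m F' := by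
  induction m generalizing F F' with
  | zero => exact h [] rfl
  | succ m ih =>
    simp only [S]
    refine Finset.sum_congr rfl fun g _ => ih _ _ fun s hs => h _ (by simp [hs])

omit [DecidableEq G] in
lemma c06_sum (m : ℕ) {ι : Type*} (A : Finset ι) (F : ι → List G → ℕ) :
    S m (fun s => ∑ g ∈ A, F g s) = ∑ g ∈ A, S m (F g) := by
  induction m generalizing F with
  | zero => rfl
  | succ m ih =>
    simp only [S]
    rw [Finset.sum_comm]
    exact Finset.sum_congr rfl fun g _ => ih _

omit [DecidableEq G] in
lemma c06_zero (m : ℕ) : S m (fun _ : List G => 0) = 0 := by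
  induction m with
  | zero => rfl
  | succ m ih => simp only [S, ih, Finset.sum_const_zero]

omit [Fintype G] [DecidableEq G] in
lemma c06_ins_zero (g : G) (s : List G) : ins 0 g s = g :: g :: s := by simp [ins]

omit [Fintype G] [DecidableEq G] in
lemma c06_ins_succ (i : ℕ) (g x : G) (s : List G) : ins (i + 1) g (x :: s) = x :: ins i g s := by
  simp [ins]

omit [Fintype G] [DecidableEq G] in
lemma c06_cr_true (x y : G) (s : List G) : cr 0 true (x :: y :: s) = y :: (y * x⁻¹ * y) :: s := by
  simp [cr]

omit [Fintype G] [DecidableEq G] in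
lemma c06_cr_false (x y : G) (s : List G) : cr 0 false (x :: y :: s) = (x * y⁻¹ * x) :: x :: s := by
  simp [cr]

omit [Fintype G] [DecidableEq G] in
lemma c06_cr_succ (i : ℕ) (b : Bool) (x : G) (s : List G) :
    cr (i + 1) b (x :: s) = x :: cr i b s := by
  cases b <;> simp [cr]

omit [Fintype G] [DecidableEq G] in
lemma c06_rem_ins (i : ℕ) (g : G) (s : List G) (h : i ≤ s.length) : rem i (ins i g s) = s := by
  induction i generalizing s with
  | zero => simp [rem, ins]
  | succ i ih =>
    cases s with
    | nil => simp at h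
    | cons x s =>
      have h' : i ≤ s.length := by simpa using h
      have := ih s h'
      rw [c06_ins_succ]
      have hr : rem (i + 1) (x :: ins i g s) = x :: rem i (ins i g s) := by simp [rem]
      rw [hr, this]

omit [DecidableEq G] in
theorem S_cross (m i : ℕ) (b : Bool) (h : i + 2 ≤ m) (F : List G → ℕ) :
    S m (fun s => F (cr i b s)) = S m F := by
  induction i generalizing m F with
  | zero =>
    obtain ⟨m, rfl⟩ : ∃ k, m = k + 2 := ⟨m - 2, by omega⟩
    cases b with
    | true =>
      simp only [S, c06_cr_true]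
      rw [Finset.sum_comm]
      refine Finset.sum_congr rfl fun y _ => ?_
      refine Fintype.sum_equiv
        ((Equiv.inv G).trans ((Equiv.mulLeft y).trans (Equiv.mulRight y))) _ _ fun x => ?_
      simp
    | false =>
      simp only [S, c06_cr_false]
      rw [Finset.sum_comm (s := (Finset.univ : Finset G)) (t := (Finset.univ : Finset G))
        (f := fun x y => S m (fun s => F (x :: y :: s)))]
      refine Finset.sum_congr rfl fun x _ => ?_
      refine Fintype.sum_equiv
        ((Equiv.inv G).trans ((Equiv.mulLeft x).trans (Equiv.mulRight x))) _ _ fun y => ?_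
      simp
  | succ i ih =>
    obtain ⟨m, rfl⟩ : ∃ k, m = k + 1 := ⟨m - 1, by omega⟩
    simp only [S, c06_cr_succ]
    refine Finset.sum_congr rfl fun g _ => ?_
    exact ih m (by omega) (fun s => F (g :: s))

theorem S_birth (m i : ℕ) (h : i ≤ m) (F : List G → ℕ) :
    S m (fun s => ∑ g : G, F (ins i g s)) =
      S (m + 2) (fun t => if t.getD i 1 = t.getD (i + 1) 1 then F t else 0) := by
  induction i generalizing m F with
  | zero =>
    simp only [c06_ins_zero]
    rw [c06_sum]
    simp only [S, List.getD_cons_zero, List.getD_cons_succ]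
    refine Finset.sum_congr rfl fun g _ => ?_
    rw [Finset.sum_eq_single g]
    · simp
    · intro x _ hx
      simp only [if_neg (Ne.symm hx)]
      exact c06_zero m
    · simp
  | succ i ih =>
    obtain ⟨m, rfl⟩ : ∃ k, m = k + 1 := ⟨m - 1, by omega⟩
    have e1 : S (m + 1) (fun s => ∑ g : G, F (ins (i + 1) g s)) =
        ∑ x : G, S m (fun s => ∑ g : G, F (x :: ins i g s)) := by
      simp only [S, c06_ins_succ]
    have e2 : S (m + 1 + 2) (fun t => if t.getD (i + 1) 1 = t.getD (i + 1 + 1) 1 then F t else 0) =
        ∑ x : G, S (m + 2) (fun t => if t.getD i 1 = t.getD (i + 1) 1 then F (x :: t) else 0) := by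
      have : m + 1 + 2 = (m + 2) + 1 := by ring
      rw [this]
      simp only [S, List.getD_cons_succ]
    rw [e1, e2]
    exact Finset.sum_congr rfl fun x _ => ih m (by omega) (fun s => F (x :: s))

theorem S_rem (m i : ℕ) (h : i ≤ m) (F : List G → ℕ) (K : List G → ℕ) :
    S (m + 2) (fun t => if t.getD i 1 = t.getD (i + 1) 1 then F t * K (rem i t) else 0) =
      S m (fun s => K s * ∑ g : G, F (ins i g s)) := by
  rw [← S_birth m i h (fun t => F t * K (rem i t))]
  refine S_congr m _ _ fun s hs => ?_
  rw [Finset.mul_sum]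
  refine Finset.sum_congr rfl fun g _ => ?_
  rw [c06_rem_ins i g s (by omega), mul_comm]

/-- one layer -/
lemma c06_layer (m : ℕ) (l : Layer) (hl : l.ok m) (f g : List G → ℕ) :
    S m (fun s => f s * ev [l] g s) =
      S (l.out m) (fun t => g t * ev [l.rotX] (fun s => f (hat s)) (hat t)) := by
  cases l with
  | birth i =>
    have hi : i ≤ m := hl
    simp only [Layer.rotX, ev, Layer.out]
    rw [← S_rem m i hi g f]
    refine S_congr _ _ _ fun t ht => ?_
    have hlen : i + 2 ≤ t.length := by omega
    by_cases he : t.getD i 1 = t.getD (i + 1) 1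
    · rw [if_pos he, if_pos ((hat_death i t hlen).2 he), ← hat_rem i t hlen he, hat_hat]
    · rw [if_neg he, if_neg (fun h => he ((hat_death i t hlen).1 h)), mul_zero]
  | death i =>
    have hi : i + 2 ≤ m := hl
    obtain ⟨m, rfl⟩ : ∃ k, m = k + 2 := ⟨m - 2, by omega⟩
    simp only [Layer.rotX, ev, Layer.out, Nat.add_sub_cancel]
    have hi' : i ≤ m := by omega
    have e1 : S (m + 2) (fun s => f s *
          (if s.getD i 1 = s.getD (i + 1) 1 then g (rem i s) else 0)) =
        S (m + 2) (fun t => if t.getD i 1 = t.getD (i + 1) 1 then f t * g (rem i t) else 0) := by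
      refine S_congr _ _ _ fun t _ => ?_
      split_ifs <;> simp
    rw [e1, S_rem m i hi' f g]
    refine S_congr _ _ _ fun t ht => ?_
    congr 1
    obtain ⟨e, he⟩ := hat_ins i (hat t) (by rw [hat_length]; omega)
    rw [hat_hat] at he
    symm
    refine Fintype.sum_equiv e _ _ fun x => ?_
    rw [he x]
  | cross i b =>
    have hi : i + 2 ≤ m := hl
    simp only [Layer.rotX, ev, Layer.out]
    rw [← S_cross m i b hi (fun t => g t * f (hat (cr i b (hat t))))]
    refine S_congr _ _ _ fun t ht => ?_
    rw [cr_hat_cr i b t (by omega), hat_hat, mul_comm]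

theorem ev_rotX (m n : ℕ) (w : Word) (hw : Tangle m n w) (f g : List G → ℕ) :
    S m (fun s => f s * ev w g s) =
      S n (fun t => g t * ev (rotX w) (fun s => f (hat s)) (hat t)) := by
  induction w generalizing m f with
  | nil =>
    obtain ⟨_, h⟩ := hw
    simp only [width] at h
    subst h
    refine S_congr _ _ _ fun t _ => ?_
    simp only [rotX, List.map_nil, List.reverse_nil, ev, hat_hat, mul_comm]
  | cons l w ih =>
    obtain ⟨⟨hl, hok⟩, hwd⟩ := hw
    have e0 : ∀ s : List G, ev (l :: w) g s = ev [l] (ev w g) s := by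
      intro s
      have : l :: w = [l] ++ w := rfl
      rw [this, ev_append]
    have e1 : S m (fun s => f s * ev (l :: w) g s) = S m (fun s => f s * ev [l] (ev w g) s) :=
      S_congr _ _ _ fun s _ => by rw [e0]
    rw [e1, c06_layer m l hl f (ev w g)]
    have e2 : S (l.out m) (fun t => ev w g t * ev [l.rotX] (fun s => f (hat s)) (hat t)) =
        S (l.out m) (fun t => ev [l.rotX] (fun s => f (hat s)) (hat t) * ev w g t) :=
      S_congr _ _ _ fun s _ => mul_comm _ _
    rw [e2, ih (l.out m) ⟨hok, hwd⟩ (fun t => ev [l.rotX] (fun s => f (hat s)) (hat t))]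
    refine S_congr _ _ _ fun t _ => ?_
    congr 1
    have e3 : rotX (l :: w) = rotX w ++ [l.rotX] := by simp [rotX]
    rw [e3, ev_append]
    congr 1
    funext s
    rw [hat_hat]

omit [Group G] in
lemma c06_two (a b : G) (H : List G → ℕ) :
    S 2 (fun s => (if s = [a, b] then 1 else 0) * H s) = H [a, b] := by
  simp only [S]
  rw [Finset.sum_eq_single a, Finset.sum_eq_single b]
  · simp
  · intro y _ hy
    simp [hy]
  · simp
  · intro x _ hx
    refine Finset.sum_eq_zero fun y _ => ?_
    simp [hx]
  · simp

omit [Fintype G] [DecidableEq G] in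
lemma c06_hat_two (x y : G) : hat [x, y] = [x, x * y⁻¹ * x] := by
  simp [hat, hatAux]

/-- for a tangle with two upper and two lower end points: the kernel of the rotated tangle -/
theorem kernel_rotX (T : Word) (hT : Tangle 2 2 T) (x y x' y' : G) :
    ev (rotX T) (fun s => if s = [x', y'] then 1 else 0) [x, y] =
      ev T (fun s => if s = [x, x * y⁻¹ * x] then 1 else 0) [x', x' * y'⁻¹ * x'] := by
  have h := ev_rotX 2 2 T hT (fun s => if s = [x', x' * y'⁻¹ * x'] then 1 else 0)
    (fun s => if s = [x, x * y⁻¹ * x] then 1 else 0)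
  rw [c06_two, c06_two] at h
  rw [h, ← c06_hat_two x y, hat_hat]
  congr 1
  funext s
  rw [← c06_hat_two x' y']
  by_cases hs : s = [x', y']
  · rw [if_pos hs, hs, if_pos rfl]
  · rw [if_neg hs, if_neg]
    intro h2
    apply hs
    have := congrArg hat h2
    rwa [hat_hat, hat_hat] at this

end TorMut.Core
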