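import Pool.Agent.Lib.MP_407fc5_gt.C01

/-!
# C07: symmetries of colourings, the two conserved products (about 60 minutes)

* `ev_equiv`: if `θ : G ≃ G` satisfies `θ (x * y⁻¹ * x) = θ x * (θ y)⁻¹ * θ x` then
  `ev w f (s.map θ) = ev w (fun t => f (t.map θ)) s` for `OK s.length w`: induction on `w`.
* `alt s = x₀ x₁⁻¹ x₂ x₃⁻¹ ⋯` is the same at the top and at the bottom of every colouring, and
  similarly `alt' s = x₀⁻¹ x₁ x₂⁻¹ x₃ ⋯`: if `f` vanishes on the lists with `alt t = alt s` then
  `ev w f s = 0`.
-/

namespace TorMut.Core

variable {G : Type*} [Group G]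

/-- `x₀ x₁⁻¹ x₂ x₃⁻¹ ⋯` (for `b = true`), `x₀⁻¹ x₁ x₂⁻¹ x₃ ⋯` (for `b = false`) -/
def alt : Bool → List G → G
  | _, [] => 1
  | true, x :: s => x * alt false s
  | false, x :: s => x⁻¹ * alt true s

/-- splitting a list at two consecutive positions -/
theorem c07_split (i : ℕ) (s : List G) (h : i + 2 ≤ s.length) :
    s = s.take i ++ [s.getD i 1, s.getD (i + 1) 1] ++ s.drop (i + 2) := by
  have h1 : s.drop i = s.getD i 1 :: s.getD (i + 1) 1 :: s.drop (i + 2) := by
    rw [List.getD_eq_getElem _ _ (by omega : i < s.length),
      List.getD_eq_getElem _ _ (by omega : i + 1 < s.length),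
      List.drop_eq_getElem_cons (by omega : i < s.length),
      List.drop_eq_getElem_cons (by omega : i + 1 < s.length)]
  conv_lhs => rw [← List.take_append_drop i s, h1]
  simp

theorem c07_alt_append : ∀ (u : List G) (b : Bool) (v : List G),
    alt b (u ++ v) = alt b u * alt (if Even u.length then b else !b) v
  | [], b, v => by simp [alt]
  | x :: u, true, v => by
    have := c07_alt_append u false v
    simp only [List.cons_append, alt, this, mul_assoc, List.length_cons, Nat.even_add_one]
    by_cases h : Even u.length <;> simp [h]
  | x :: u, false, v => by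
    have := c07_alt_append u true v
    simp only [List.cons_append, alt, this, mul_assoc, List.length_cons, Nat.even_add_one]
    by_cases h : Even u.length <;> simp [h]

theorem c07_alt_block (b : Bool) (u v : List G) (x y x' y' : G) (h1 : x * y⁻¹ = x' * y'⁻¹)
    (h2 : x⁻¹ * y = x'⁻¹ * y') : alt b (u ++ [x, y] ++ v) = alt b (u ++ [x', y'] ++ v) := by
  rw [List.append_assoc, List.append_assoc, c07_alt_append u, c07_alt_append u]
  congr 1
  cases hb : (if Even u.length then b else !b) with
  | true => simp only [List.cons_append, List.nil_append, alt, ← mul_assoc, h1]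
  | false => simp only [List.cons_append, List.nil_append, alt, ← mul_assoc, h2]

theorem c07_alt_pair (b : Bool) (u v : List G) (x : G) :
    alt b (u ++ [x, x] ++ v) = alt b (u ++ v) := by
  rw [List.append_assoc, c07_alt_append u, c07_alt_append u]
  congr 1
  cases hb : (if Even u.length then b else !b) with
  | true => simp only [List.cons_append, List.nil_append, alt, ← mul_assoc, mul_inv_cancel, one_mul]
  | false => simp only [List.cons_append, List.nil_append, alt, ← mul_assoc, inv_mul_cancel, one_mul]

theorem c07_alt_ins (b : Bool) (i : ℕ) (g : G) (s : List G) : alt b (ins i g s) = alt b s := by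
  unfold ins
  rw [c07_alt_pair, List.take_append_drop]

theorem c07_alt_rem (b : Bool) (i : ℕ) (s : List G) (h : i + 2 ≤ s.length)
    (hs : s.getD i 1 = s.getD (i + 1) 1) : alt b (rem i s) = alt b s := by
  conv_rhs => rw [c07_split i s h, ← hs]
  rw [c07_alt_pair]
  rfl

theorem c07_alt_cr (b : Bool) (i : ℕ) (c : Bool) (s : List G) (h : i + 2 ≤ s.length) :
    alt b (cr i c s) = alt b s := by
  conv_rhs => rw [c07_split i s h]
  cases c with
  | true =>
    unfold cr
    refine c07_alt_block b _ _ _ _ _ _ ?_ ?_ <;> group
  | false =>
    unfold cr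
    refine c07_alt_block b _ _ _ _ _ _ ?_ ?_ <;> group

variable [Fintype G] [DecidableEq G]

theorem ev_equiv (θ : G ≃ G) (hθ : ∀ x y, θ (x * y⁻¹ * x) = θ x * (θ y)⁻¹ * θ x)
    (w : Word) (f : List G → ℕ) (s : List G) (hw : OK s.length w) :
    ev w f (s.map θ) = ev w (fun t => f (t.map θ)) s := by
  induction w generalizing s with
  | nil => rfl
  | cons l w ih =>
    obtain ⟨hl, hw⟩ := hw
    have hgetD : ∀ j, j < s.length → (s.map θ).getD j 1 = θ (s.getD j 1) := by
      intro j hj
      rw [List.getD_eq_getElem _ _ (by simpa using hj), List.getD_eq_getElem _ _ hj]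
      simp
    cases l with
    | birth i =>
      simp only [ev]
      rw [← Equiv.sum_comp θ]
      refine Finset.sum_congr rfl fun g _ => ?_
      rw [← ih (ins i g s) (by rw [ins_length]; exact hw)]
      congr 1
      simp [ins, List.map_take, List.map_drop]
    | death i =>
      have hl : i + 2 ≤ s.length := hl
      simp only [ev]
      rw [hgetD i (by omega), hgetD (i + 1) (by omega)]
      by_cases h : s.getD i 1 = s.getD (i + 1) 1
      · rw [if_pos (by rw [h]), if_pos h, ← ih (rem i s) (by rw [rem_length i s hl]; exact hw)]
        congr 1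
        simp [rem, List.map_take, List.map_drop]
      · rw [if_neg (fun h' => h (θ.injective h')), if_neg h]
    | cross i b =>
      have hl : i + 2 ≤ s.length := hl
      simp only [ev]
      rw [← ih (cr i b s) (by rw [cr_length i b s hl]; exact hw)]
      congr 1
      cases b with
      | true =>
        simp only [cr]
        rw [hgetD i (by omega), hgetD (i + 1) (by omega)]
        simp [List.map_take, List.map_drop, hθ]
      | false =>
        simp only [cr]
        rw [hgetD i (by omega), hgetD (i + 1) (by omega)]
        simp [List.map_take, List.map_drop, hθ]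

theorem ev_alt (b : Bool) (w : Word) (f : List G → ℕ) (s : List G) (hw : OK s.length w)
    (hf : ∀ t, alt b t = alt b s → f t = 0) : ev w f s = 0 := by
  induction w generalizing s with
  | nil => exact hf s rfl
  | cons l w ih =>
    obtain ⟨hl, hw⟩ := hw
    cases l with
    | birth i =>
      simp only [ev]
      refine Finset.sum_eq_zero fun g _ => ih _ (by rw [ins_length]; exact hw) ?_
      intro t ht
      exact hf t (by rw [ht, c07_alt_ins])
    | death i =>
      have hl : i + 2 ≤ s.length := hl
      simp only [ev]
      split_ifs with h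
      · refine ih _ (by rw [rem_length i s hl]; exact hw) ?_
        intro t ht
        exact hf t (by rw [ht, c07_alt_rem b i s hl h])
      · rfl
    | cross i c =>
      have hl : i + 2 ≤ s.length := hl
      simp only [ev]
      refine ih _ (by rw [cr_length i c s hl]; exact hw) ?_
      intro t ht
      exact hf t (by rw [ht, c07_alt_cr b i c s hl])

end TorMut.Core
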