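import Pool.Agent.Lib.MP_407fc5_gt.C05
import Pool.Agent.Lib.MP_407fc5_gt.C06
import Pool.Agent.Lib.MP_407fc5_gt.C07

/-!
# C08: mutation invariance for a tangle (about 60 minutes)

Kernel `K T (x,y) (x',y') = ev T (1 if s = [x', y'] else 0) [x, y]`.  If it does not vanish then
`x y⁻¹ = x' y'⁻¹ =: k` and `x⁻¹ y = x'⁻¹ y'` (C07, `ev_alt`).
* rotY: by C05 with `s = [y, y x⁻¹ y]` (so that `rhat s = [x, y]`):
  `K (rotY T) (x,y) (x',y') = K T (y, y x⁻¹ y) (y', y' x'⁻¹ y')`, and `θ z = k z` maps
  `(y, y x⁻¹ y)` to `(x, y)` and `(y', y' x'⁻¹ y')` to `(x', y')` (`ev_equiv`).  If the two quotients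
  `x y⁻¹`, `x' y'⁻¹` differ, both sides vanish.
* rotX: by `kernel_rotX`: `K (rotX T) (x,y) (x',y') = K T (x', x' y'⁻¹ x') (x, x y⁻¹ x)`;
  `θ z = x z⁻¹ x'` maps `(x', x' y'⁻¹ x')` to `(x, x x'⁻¹ y')`; one has `x x'⁻¹ y' = y` and
  `θ (x y⁻¹ x) = x x⁻¹ y x⁻¹ x' = y x⁻¹ x' = y'` because `x' x⁻¹` commutes with `k`
  (from `x⁻¹ k⁻¹ x = x⁻¹ y x⁻¹ x …`, see the two equations).
* general `f`: `f = ∑_{t} f t · 1_t` on lists of length 2 (`ev_sum` below, linearity).
-/

namespace TorMut.Core

/-- `OK` of a concatenation -/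
theorem c08_ok_append (m : ℕ) (u v : Word) :
    OK m (u ++ v) ↔ OK m u ∧ OK (width m u) v := by
  induction u generalizing m with
  | nil => simp [OK, width]
  | cons l u ih => simp [OK, width, ih, and_assoc]

theorem c08_width_append (m : ℕ) (u v : Word) : width m (u ++ v) = width (width m u) v := by
  induction u generalizing m with
  | nil => simp [width]
  | cons l u ih => simp [width, ih]

theorem c08_tangle_rotX (m n : ℕ) (w : Word) (h : Tangle m n w) : Tangle n m (rotX w) := by
  induction w generalizing m with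
  | nil =>
    obtain ⟨_, h2⟩ := h
    simp only [width] at h2
    subst h2
    exact ⟨trivial, rfl⟩
  | cons l w ih =>
    obtain ⟨⟨h1, h2⟩, h3⟩ := h
    have h4 := ih (l.out m) ⟨h2, h3⟩
    have h5 : rotX (l :: w) = rotX w ++ [l.rotX] := by simp [rotX]
    rw [h5]
    refine ⟨(c08_ok_append _ _ _).2 ⟨h4.1, ?_⟩, ?_⟩
    · rw [h4.2]
      refine ⟨?_, trivial⟩
      cases l <;> simp only [Layer.ok, Layer.out, Layer.rotX] at h1 ⊢ <;> omega
    · rw [c08_width_append, h4.2]
      cases l <;> simp only [Layer.ok, Layer.out, Layer.rotX, width] at h1 ⊢ <;> omega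

theorem c08_tangle_rotY (m n : ℕ) (w : Word) (h : Tangle m n w) : Tangle m n (rotY m w) := by
  induction w generalizing m with
  | nil => exact h
  | cons l w ih =>
    obtain ⟨⟨h1, h2⟩, h3⟩ := h
    have h4 := ih (l.out m) ⟨h2, h3⟩
    cases l with
    | birth i =>
      simp only [Layer.ok] at h1
      exact ⟨⟨(show m - i ≤ m by omega), h4.1⟩, h4.2⟩
    | death i =>
      simp only [Layer.ok] at h1
      exact ⟨⟨(show m - 2 - i + 2 ≤ m by omega), h4.1⟩, h4.2⟩
    | cross i b =>
      simp only [Layer.ok] at h1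
      exact ⟨⟨(show m - 2 - i + 2 ≤ m by omega), h4.1⟩, h4.2⟩

variable {G : Type*} [Group G] [Fintype G] [DecidableEq G]

/-- `ev` is linear in the function -/
theorem c08_ev_sum {ι : Type*} (I : Finset ι) (c : ι → ℕ) (F : ι → List G → ℕ) (w : Word)
    (s : List G) :
    ev w (fun t => ∑ p ∈ I, c p * F p t) s = ∑ p ∈ I, c p * ev w (F p) s := by
  induction w generalizing s with
  | nil => rfl
  | cons l w ih =>
    cases l with
    | birth i =>
      simp only [ev, ih]
      rw [Finset.sum_comm]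
      refine Finset.sum_congr rfl fun p _ => ?_
      rw [Finset.mul_sum]
    | death i =>
      simp only [ev, ih]
      split_ifs with h
      · rfl
      · simp
    | cross i b => simp only [ev, ih]

/-- linearity -/
theorem ev_kernel (T : Word) (hT : Tangle 2 2 T) (f : List G → ℕ) (x y : G) :
    ev T f [x, y] = ∑ p : G × G, f [p.1, p.2] * ev T (fun s => if s = [p.1, p.2] then 1 else 0) [x, y] := by
  rw [← c08_ev_sum]
  refine ev_congr T _ _ _ hT.1 fun t ht => ?_
  rw [show width ([x, y] : List G).length T = 2 from hT.2] at ht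
  obtain ⟨a, b, rfl⟩ := List.length_eq_two.mp ht
  rw [Finset.sum_eq_single (a, b)]
  · simp
  · rintro ⟨a', b'⟩ _ hne
    have : ¬ ([a, b] : List G) = [a', b'] := by
      intro h
      simp only [List.cons.injEq, and_true] at h
      exact hne (by rw [h.1, h.2])
    simp [this]
  · intro h
    exact absurd (Finset.mem_univ _) h

/-- the kernel vanishes if a conserved product differs -/
theorem c08_kernel_zero (b : Bool) (T : Word) (hT : Tangle 2 2 T) (x y x' y' : G)
    (h : alt b [x, y] ≠ alt b [x', y']) :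
    ev T (fun s => if s = [x', y'] then 1 else 0) [x, y] = 0 := by
  refine ev_alt b T _ _ hT.1 fun t ht => if_neg ?_
  rintro rfl
  exact h ht.symm

/-- the kernel is invariant under symmetries -/
theorem c08_kernel_equiv (T : Word) (hT : Tangle 2 2 T) (θ : G ≃ G)
    (hθ : ∀ x y, θ (x * y⁻¹ * x) = θ x * (θ y)⁻¹ * θ x) (x y x' y' : G) :
    ev T (fun s => if s = [θ x', θ y'] then 1 else 0) [θ x, θ y] =
      ev T (fun s => if s = [x', y'] then 1 else 0) [x, y] := by
  have h := ev_equiv θ hθ T (fun s => if s = [θ x', θ y'] then 1 else 0) [x, y] hT.1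
  simp only [List.map_cons, List.map_nil] at h
  rw [h]
  congr 1
  funext t
  have : List.map (⇑θ) t = [θ x', θ y'] ↔ t = [x', y'] := by
    constructor
    · intro h
      exact (List.map_injective_iff.mpr θ.injective) (by simpa using h)
    · rintro rfl
      simp
  simp only [this]

/-- the kernel is invariant under symmetries, second form -/
theorem c08_kernel_equiv' (T : Word) (hT : Tangle 2 2 T) (θ : G ≃ G)
    (hθ : ∀ x y, θ (x * y⁻¹ * x) = θ x * (θ y)⁻¹ * θ x) {x y x' y' X Y X' Y' : G}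
    (h1 : θ x = X) (h2 : θ y = Y) (h3 : θ x' = X') (h4 : θ y' = Y') :
    ev T (fun s => if s = [X', Y'] then 1 else 0) [X, Y] =
      ev T (fun s => if s = [x', y'] then 1 else 0) [x, y] := by
  subst h1 h2 h3 h4
  exact c08_kernel_equiv T hT θ hθ x y x' y'

omit [Fintype G] [DecidableEq G] in
theorem c08_rhat_two (a b : G) : rhat [a, b] = [a * b⁻¹ * a, a] := by
  simp [rhat, hat, hatAux]

theorem c08_kernelY (T : Word) (hT : Tangle 2 2 T) (x y x' y' : G) :
    ev (rotY 2 T) (fun s => if s = [x', y'] then 1 else 0) [x, y] =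
      ev T (fun s => if s = [x', y'] then 1 else 0) [x, y] := by
  have h1 : ([x, y] : List G) = rhat [y, y * x⁻¹ * y] := by
    rw [c08_rhat_two]
    congr 1
    group
  have h2 := ev_rotY T (fun s => if s = [x', y'] then 1 else 0) [y, y * x⁻¹ * y] hT.1
  rw [← h1] at h2
  refine h2.trans ?_
  have h3 : ev T (fun t => (fun s => if s = [x', y'] then 1 else 0) (rhat t)) [y, y * x⁻¹ * y] =
      ev T (fun t => if t = [y', y' * x'⁻¹ * y'] then 1 else 0) [y, y * x⁻¹ * y] := by
    refine ev_congr T _ _ _ hT.1 fun t ht => ?_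
    rw [show width ([y, y * x⁻¹ * y] : List G).length T = 2 from hT.2] at ht
    obtain ⟨a, b, rfl⟩ := List.length_eq_two.mp ht
    have h4 : rhat [a, b] = [x', y'] ↔ [a, b] = [y', y' * x'⁻¹ * y'] := by
      rw [c08_rhat_two]
      simp only [List.cons.injEq, and_true]
      constructor
      · rintro ⟨h5, rfl⟩
        refine ⟨rfl, ?_⟩
        rw [← h5]
        group
      · rintro ⟨rfl, rfl⟩
        refine ⟨?_, rfl⟩
        group
    simp only [h4]
  rw [h3]
  by_cases hk : x * y⁻¹ = x' * y'⁻¹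
  · have e1 : x * y⁻¹ * y = x := by group
    have e2 : x * y⁻¹ * (y * x⁻¹ * y) = y := by group
    have e3 : x * y⁻¹ * y' = x' := by rw [hk]; group
    have e4 : x * y⁻¹ * (y' * x'⁻¹ * y') = y' := by rw [hk]; group
    exact (c08_kernel_equiv' T hT (Equiv.mulLeft (x * y⁻¹))
      (fun a b => by simp only [Equiv.coe_mulLeft]; group) e1 e2 e3 e4).symm
  · rw [c08_kernel_zero true T hT, c08_kernel_zero true T hT]
    · simpa [alt] using hk
    · intro h
      apply hk
      simp only [alt, mul_one] at h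
      have e1 : y * (y * x⁻¹ * y)⁻¹ = x * y⁻¹ := by group
      have e2 : y' * (y' * x'⁻¹ * y')⁻¹ = x' * y'⁻¹ := by group
      rw [e1, e2] at h
      exact h

theorem c08_kernelX (T : Word) (hT : Tangle 2 2 T) (x y x' y' : G) :
    ev (rotX T) (fun s => if s = [x', y'] then 1 else 0) [x, y] =
      ev T (fun s => if s = [x', y'] then 1 else 0) [x, y] := by
  rw [kernel_rotX T hT]
  by_cases hk : x * y⁻¹ = x' * y'⁻¹
  · by_cases hl : x⁻¹ * y = x'⁻¹ * y'
    · set θ : G ≃ G := (Equiv.inv G).trans ((Equiv.mulLeft x).trans (Equiv.mulRight x')) with hθd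
      have hθv : ∀ z, θ z = x * z⁻¹ * x' := fun z => rfl
      have e1 : x * x'⁻¹ * x' = x := by group
      have e2 : x * (x' * y'⁻¹ * x')⁻¹ * x' = y := by
        have : x * (x' * y'⁻¹ * x')⁻¹ * x' = x * (x'⁻¹ * y') := by group
        rw [this, ← hl]
        group
      have e3 : x * x⁻¹ * x' = x' := by group
      have e4 : x * (x * y⁻¹ * x)⁻¹ * x' = y' := by
        have : x * (x * y⁻¹ * x)⁻¹ * x' = (x * y⁻¹)⁻¹ * x' := by group
        rw [this, hk]
        group
      exact (c08_kernel_equiv' T hT θ (fun a b => by simp only [hθv]; group) e1 e2 e3 e4).symm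
    · rw [c08_kernel_zero false T hT, c08_kernel_zero false T hT]
      · simpa [alt] using hl
      · intro h
        apply hl
        simp only [alt, mul_one] at h
        have e1 : x'⁻¹ * (x' * y'⁻¹ * x') = (x'⁻¹ * y')⁻¹ := by group
        have e2 : x⁻¹ * (x * y⁻¹ * x) = (x⁻¹ * y)⁻¹ := by group
        rw [e1, e2] at h
        exact (inv_injective h).symm
  · rw [c08_kernel_zero true T hT, c08_kernel_zero true T hT]
    · simpa [alt] using hk
    · intro h
      apply hk
      simp only [alt, mul_one] at h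
      have e1 : x' * (x' * y'⁻¹ * x')⁻¹ = (x' * y'⁻¹)⁻¹ := by group
      have e2 : x * (x * y⁻¹ * x)⁻¹ = (x * y⁻¹)⁻¹ := by group
      rw [e1, e2] at h
      exact (inv_injective h).symm

theorem ev_mutY (T : Word) (hT : Tangle 2 2 T) (f : List G → ℕ) (x y : G) :
    ev (rotY 2 T) f [x, y] = ev T f [x, y] := by
  rw [ev_kernel T hT, ev_kernel (rotY 2 T) (c08_tangle_rotY 2 2 T hT)]
  exact Finset.sum_congr rfl fun p _ => by rw [c08_kernelY T hT]

theorem ev_mutX (T : Word) (hT : Tangle 2 2 T) (f : List G → ℕ) (x y : G) :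
    ev (rotX T) f [x, y] = ev T f [x, y] := by
  rw [ev_kernel T hT, ev_kernel (rotX T) (c08_tangle_rotX 2 2 T hT)]
  exact Finset.sum_congr rfl fun p _ => by rw [c08_kernelX T hT]

end TorMut.Core
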