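import Pool.Agent.Lib.MP_407fc5_gt.C02
import Pool.Agent.Lib.MP_407fc5_gt.C03
import Pool.Agent.Lib.MP_407fc5_gt.C08

/-!
# C09: the number of core colourings is a mutation invariant (about 45 minutes)

`Step`: write `ev (u ++ a ++ v) = ev u (ev a (ev v _))` (`ev_append`) and use `ev_congr` for `u`: the
lists `s` that occur below `u` have length `m`, and `ev a F s = ev b F s` by C02, C03 (all
constructors of `Move`).  For the mutations write `s = u' ++ [x, y] ++ v'` with `u'.length = p` and
use `ev_ctx` and C08; `rotX (rotY 2 T)`: both, with `Tangle 2 2 (rotY 2 T)`.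
Then `Mutants` by induction on `Relation.EqvGen`.
-/

namespace TorMut.Core

variable {G : Type*} [Group G] [Fintype G] [DecidableEq G]

lemma tangle_rotX (m n : ℕ) (w : Word) (h : Tangle m n w) : Tangle n m (rotX w) :=
  c08_tangle_rotX m n w h

lemma tangle_rotY (m n : ℕ) (w : Word) (h : Tangle m n w) : Tangle m n (rotY m w) :=
  c08_tangle_rotY m n w h

theorem ev_move (m : ℕ) (a b : Word) (h : Move m a b) (ha : OK m a) (hb : OK m b)
    (f : List G → ℕ) (s : List G) (hs : s.length = m) : ev a f s = ev b f s := by
  cases h with
  | cc i j b c h => exact move_cc m i j b c h f s hs ha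
  | bc i j c h => exact move_bc m i j c h f s hs ha
  | cb i j c h => exact move_cb m i j c h f s hs ha
  | dc i j c h => exact move_dc m i j c h f s hs ha
  | cd i j c h => exact move_cd m i j c h f s hs ha
  | bb i j h => exact move_bb m i j h f s hs ha
  | dd i j h => exact move_dd m i j h f s hs ha
  | bd i j h => exact move_bd m i j h f s hs ha
  | db i j h => exact move_db m i j h f s hs ha
  | zl i h => exact move_zl m i h f s hs
  | zr i h => exact move_zr m i h f s hs
  | r1b i b => exact move_r1b m i b f s hs hb
  | r1d i b => exact move_r1d m i b f s hs hb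
  | r2 i b h => exact move_r2 m i b h f s hs
  | r3 i b => exact move_r3 m i b f s hs ha
  | sb i b => exact move_sb m i b f s hs ha
  | sd i b => exact move_sd m i b f s hs ha

/-- replacing the middle part of a closed diagram -/
theorem c09_replace (u v a b : Word) (m : ℕ) (hu : Tangle 0 m u)
    (h : ∀ (f : List G → ℕ) (s : List G), s.length = m → ev a f s = ev b f s) :
    total G (u ++ a ++ v) = total G (u ++ b ++ v) := by
  unfold total
  rw [ev_append, ev_append, ev_append, ev_append]
  refine ev_congr u _ _ [] hu.1 fun t ht => ?_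
  exact h _ t (by rw [ht]; exact hu.2)

/-- replacing a tangle in a row of strands -/
theorem c09_ctx (T T' : Word) (p q : ℕ) (hT : Tangle 2 2 T) (hT' : Tangle 2 2 T')
    (h : ∀ (f : List G → ℕ) (x y : G), ev T f [x, y] = ev T' f [x, y]) (f : List G → ℕ)
    (s : List G) (hs : s.length = p + 2 + q) : ev (shift p T) f s = ev (shift p T') f s := by
  have h1 : s = s.take p ++ [s.getD p 1, s.getD (p + 1) 1] ++ s.drop (p + 2) :=
    c07_split p s (by omega)
  have h2 : (s.take p).length = p := by rw [List.length_take]; omega
  rw [h1]
  have h3 := ev_ctx T f (s.take p) [s.getD p 1, s.getD (p + 1) 1] (s.drop (p + 2)) hT.1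
  have h4 := ev_ctx T' f (s.take p) [s.getD p 1, s.getD (p + 1) 1] (s.drop (p + 2)) hT'.1
  rw [h2] at h3 h4
  rw [h3, h4, h]

theorem total_step (D D' : Word) (h : Step D D') : total G D = total G D' := by
  cases h with
  | move u v a b m hu hab ha hb hv =>
    exact c09_replace u v a b m hu fun f s hs => ev_move m a b hab ha hb f s hs
  | mutX u v T p q hu hT hv =>
    exact c09_replace u v _ _ _ hu fun f s hs =>
      c09_ctx T (rotX T) p q hT (tangle_rotX 2 2 T hT) (fun f x y => (ev_mutX T hT f x y).symm)
        f s hs
  | mutY u v T p q hu hT hv =>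
    exact c09_replace u v _ _ _ hu fun f s hs =>
      c09_ctx T (rotY 2 T) p q hT (tangle_rotY 2 2 T hT) (fun f x y => (ev_mutY T hT f x y).symm)
        f s hs
  | mutZ u v T p q hu hT hv =>
    have hY := tangle_rotY 2 2 T hT
    exact c09_replace u v _ _ _ hu fun f s hs =>
      c09_ctx T (rotX (rotY 2 T)) p q hT (tangle_rotX 2 2 _ hY)
        (fun f x y => by rw [ev_mutX _ hY, ev_mutY T hT]) f s hs

theorem total_mutants (D D' : Word) (h : Mutants D D') : total G D = total G D' := by
  induction h with
  | rel x y h => exact total_step x y h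
  | refl x => rfl
  | symm x y _ ih => exact ih.symm
  | trans x y z _ _ ih1 ih2 => exact ih1.trans ih2

end TorMut.Core
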