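import Pool.Agent.Lib.MP_407fc5_gt.Defs

/-!
# MP_407fc5_gt, part C: core colourings (definitions)

For a finite group `G` the strands of a diagram are coloured by elements of `G` such that at every
crossing `under' = over * under⁻¹ * over`; at maxima and minima the two strands have equal colours.
(The number of such colourings is `|G|` times the number of homomorphisms from the fundamental
group of the double branched cover to `G`, hence invariant under mutation.)

`ev w f s` is the sum of `f (colours at the bottom)` over all colourings of `w` with colours `s`
at the top.
-/

namespace TorMut.Core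

variable {G : Type*} [Group G]

/-- insert `g, g` at position `i` -/
def ins (i : ℕ) (g : G) (s : List G) : List G := s.take i ++ [g, g] ++ s.drop i

/-- remove the positions `i`, `i + 1` -/
def rem (i : ℕ) (s : List G) : List G := s.take i ++ s.drop (i + 2)

/-- colours below a crossing -/
def cr (i : ℕ) : Bool → List G → List G
  | true, s => s.take i ++ [s.getD (i + 1) 1, s.getD (i + 1) 1 * (s.getD i 1)⁻¹ * s.getD (i + 1) 1]
      ++ s.drop (i + 2)
  | false, s => s.take i ++ [s.getD i 1 * (s.getD (i + 1) 1)⁻¹ * s.getD i 1, s.getD i 1]
      ++ s.drop (i + 2)

variable [Fintype G] [DecidableEq G]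

/-- sum of `f` over the colourings of `w` with top colours `s` -/
def ev : Word → (List G → ℕ) → List G → ℕ
  | [], f, s => f s
  | .birth i :: w, f, s => ∑ g : G, ev w f (ins i g s)
  | .death i :: w, f, s => if s.getD i 1 = s.getD (i + 1) 1 then ev w f (rem i s) else 0
  | .cross i b :: w, f, s => ev w f (cr i b s)

/-- number of core colourings of a closed diagram by the group `G` -/
def total (G : Type*) [Group G] [Fintype G] [DecidableEq G] (D : Word) : ℕ :=
  ev D (fun _ => 1) ([] : List G)

/-- iterated sum over all lists of length `m` -/
def S : ℕ → (List G → ℕ) → ℕ
  | 0, F => F []
  | m + 1, F => ∑ g : G, S m (fun s => F (g :: s))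

omit [Fintype G] [DecidableEq G] in
/-- colours seen from behind: the `j`-th colour is reflected successively at the colours to the
left of it (`a` is the accumulated reflection `z ↦ p * z^(±1) * q`, here as a function) -/
def hatAux (a : G → G) : List G → List G
  | [] => []
  | x :: s => a x :: hatAux (fun z => a (x * z⁻¹ * x)) s

omit [Fintype G] [DecidableEq G] in
/-- colours seen from behind -/
def hat (s : List G) : List G := hatAux id s

omit [Fintype G] [DecidableEq G] in
/-- colours seen from behind, read from right to left -/
def rhat (s : List G) : List G := (hat s).reverse

end TorMut.Core
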