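import Mathlib

/-!
# MP_407fc5_gt: definitions

Links in `S^3` are described by *tangle words*: a generic link diagram is cut into horizontal
layers, each containing exactly one elementary piece.  We read a diagram from top to bottom.

* `birth i` : a local maximum; two new strands appear at the positions `i`, `i+1`
  (positions are counted from the left, starting with `0`);
* `death i` : a local minimum; the strands at the positions `i`, `i+1` are joined and disappear;
* `cross i b` : the strands at the positions `i`, `i+1` cross; for `b = true` the strand running
  from the upper right to the lower left is the over-strand, for `b = false` the strand running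
  from the upper left to the lower right is the over-strand.
-/

namespace TorMut

open Matrix

/-- elementary layers of a (tangle) diagram -/
inductive Layer where
  | birth (i : ℕ)
  | death (i : ℕ)
  | cross (i : ℕ) (b : Bool)
deriving DecidableEq

/-- tangle words, read from top to bottom -/
abbrev Word := List Layer

/-- the layer can be attached below `m` strands -/
def Layer.ok : Layer → ℕ → Prop
  | .birth i, m => i ≤ m
  | .death i, m => i + 2 ≤ m
  | .cross i _, m => i + 2 ≤ m

/-- number of strands below the layer -/
def Layer.out : Layer → ℕ → ℕ
  | .birth _, m => m + 2
  | .death _, m => m - 2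
  | .cross _ _, m => m

/-- the word can be attached below `m` strands -/
def OK : ℕ → Word → Prop
  | _, [] => True
  | m, l :: w => l.ok m ∧ OK (l.out m) w

/-- number of strands below the word, if there are `m` strands above it -/
def width : ℕ → Word → ℕ
  | m, [] => m
  | m, l :: w => width (l.out m) w

/-- `w` is a tangle diagram with `m` upper and `n` lower end points -/
def Tangle (m n : ℕ) (w : Word) : Prop := OK m w ∧ width m w = n

/-- move a layer / a word to the right by `k` positions -/
def Layer.shift (k : ℕ) : Layer → Layer
  | .birth i => .birth (i + k)
  | .death i => .death (i + k)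
  | .cross i b => .cross (i + k) b

def shift (k : ℕ) (w : Word) : Word := w.map (Layer.shift k)

/-! ## Isotopy: the Reidemeister moves for tangle words (Turaev, Freyd–Yetter) -/

/-- the elementary moves; `m` is the number of strands above the two words -/
inductive Move : ℕ → Word → Word → Prop
  -- distant pieces commute
  | cc (m i j b c) (h : i + 2 ≤ j) : Move m [.cross i b, .cross j c] [.cross j c, .cross i b]
  | bc (m i j c) (h : i + 2 ≤ j) : Move m [.birth i, .cross j c] [.cross (j - 2) c, .birth i]
  | cb (m i j c) (h : j + 2 ≤ i) : Move m [.birth i, .cross j c] [.cross j c, .birth i]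
  | dc (m i j c) (h : i ≤ j) : Move m [.death i, .cross j c] [.cross (j + 2) c, .death i]
  | cd (m i j c) (h : j + 2 ≤ i) : Move m [.death i, .cross j c] [.cross j c, .death i]
  | bb (m i j) (h : i + 2 ≤ j) : Move m [.birth i, .birth j] [.birth (j - 2), .birth i]
  | dd (m i j) (h : i ≤ j) : Move m [.death i, .death j] [.death (j + 2), .death i]
  | bd (m i j) (h : i + 2 ≤ j) : Move m [.birth i, .death j] [.death (j - 2), .birth i]
  | db (m i j) (h : j + 2 ≤ i) : Move m [.birth i, .death j] [.death j, .birth (i - 2)]
  -- straightening a zigzag
  | zl (m i) (h : i < m) : Move m [.birth i, .death (i + 1)] []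
  | zr (m i) (h : i < m) : Move m [.birth (i + 1), .death i] []
  -- first Reidemeister move
  | r1b (m i b) : Move m [.birth i, .cross i b] [.birth i]
  | r1d (m i b) : Move m [.cross i b, .death i] [.death i]
  -- second Reidemeister move
  | r2 (m i b) (h : i + 2 ≤ m) : Move m [.cross i b, .cross i (!b)] []
  -- third Reidemeister move
  | r3 (m i b) : Move m [.cross i b, .cross (i + 1) b, .cross i b]
      [.cross (i + 1) b, .cross i b, .cross (i + 1) b]
  -- pulling a strand over or under a maximum or a minimum
  | sb (m i b) : Move m [.birth i, .cross (i + 1) b] [.birth (i + 1), .cross i (!b)]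
  | sd (m i b) : Move m [.cross (i + 1) b, .death i] [.cross i (!b), .death (i + 1)]

/-! ## Mutation: the three rotations of a tangle with two upper and two lower end points -/

/-- rotation by `π` about the horizontal axis in the projection plane -/
def Layer.rotX : Layer → Layer
  | .birth i => .death i
  | .death i => .birth i
  | .cross i b => .cross i b

def rotX (w : Word) : Word := (w.map Layer.rotX).reverse

/-- rotation by `π` about the vertical axis in the projection plane
(`m` = number of strands above) -/
def rotY : ℕ → Word → Word
  | _, [] => []
  | m, .birth i :: w => .birth (m - i) :: rotY (m + 2) w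
  | m, .death i :: w => .death (m - 2 - i) :: rotY (m - 2) w
  | m, .cross i b :: w => .cross (m - 2 - i) b :: rotY m w

/-- one elementary step: an isotopy move or a mutation -/
inductive Step : Word → Word → Prop
  | move (u v a b : Word) (m : ℕ) (hu : Tangle 0 m u) (hab : Move m a b)
      (ha : OK m a) (hb : OK m b) (hv : Tangle (width m a) 0 v) :
      Step (u ++ a ++ v) (u ++ b ++ v)
  | mutX (u v T : Word) (p q : ℕ) (hu : Tangle 0 (p + 2 + q) u) (hT : Tangle 2 2 T)
      (hv : Tangle (p + 2 + q) 0 v) :
      Step (u ++ shift p T ++ v) (u ++ shift p (rotX T) ++ v)
  | mutY (u v T : Word) (p q : ℕ) (hu : Tangle 0 (p + 2 + q) u) (hT : Tangle 2 2 T)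
      (hv : Tangle (p + 2 + q) 0 v) :
      Step (u ++ shift p T ++ v) (u ++ shift p (rotY 2 T) ++ v)
  | mutZ (u v T : Word) (p q : ℕ) (hu : Tangle 0 (p + 2 + q) u) (hT : Tangle 2 2 T)
      (hv : Tangle (p + 2 + q) 0 v) :
      Step (u ++ shift p T ++ v) (u ++ shift p (rotX (rotY 2 T)) ++ v)

/-- two link diagrams represent mutant links: finite sequences of isotopies and mutations -/
def Mutants (D D' : Word) : Prop := Relation.EqvGen Step D D'

/-! ## Knots, knot groups -/

/-- number of local maxima -/
def births : Word → ℕ
  | [] => 0
  | .birth _ :: w => births w + 1
  | _ :: w => births w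

section run
variable {G : Type*} [Group G]

/-- Run down the word with group colours.  Every strand carries the element of the link group
which is the meridian of the strand oriented *upwards*; the two strands of the `k`-th local
maximum get the colours `g k` and `(g k)⁻¹`, and every local minimum gives the relator `left
colour times right colour`.  Output: colours of the lower end points, list of relators. -/
def run (g : ℕ → G) : ℕ → List G → Word → List G × List G
  | _, s, [] => (s, [])
  | k, s, .birth i :: w => run g (k + 1) (s.take i ++ [g k, (g k)⁻¹] ++ s.drop i) w
  | k, s, .death i :: w =>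
      ((run g k (s.take i ++ s.drop (i + 2)) w).1,
        (s.getD i 1 * s.getD (i + 1) 1) :: (run g k (s.take i ++ s.drop (i + 2)) w).2)
  | k, s, .cross i true :: w =>
      run g k (s.take i ++ [s.getD (i + 1) 1,
        (s.getD (i + 1) 1)⁻¹ * s.getD i 1 * s.getD (i + 1) 1] ++ s.drop (i + 2)) w
  | k, s, .cross i false :: w =>
      run g k (s.take i ++ [s.getD i 1 * s.getD (i + 1) 1 * (s.getD i 1)⁻¹, s.getD i 1]
        ++ s.drop (i + 2)) w

end run

/-- the `k`-th generator of the free group on the local maxima of `D` -/
def gen (D : Word) (k : ℕ) : FreeGroup (Fin (births D)) :=
  if h : k < births D then FreeGroup.of ⟨k, h⟩ else 1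

/-- the relators (one for each local minimum) -/
def relators (D : Word) : List (FreeGroup (Fin (births D))) := (run (gen D) 0 [] D).2

/-- the group of the link: one generator for each local maximum, one relator for each local
minimum (the Wirtinger presentation with the crossing relations used to eliminate generators) -/
abbrev LinkGroup (D : Word) : Type := PresentedGroup {r | r ∈ relators D}

/-- the meridian at the `k`-th local maximum -/
def mer (D : Word) (k : ℕ) : LinkGroup D := PresentedGroup.mk _ (gen D k)

/-- run down the word with component labels -/
def labels (l : ℕ → Bool) : ℕ → List Bool → Word → Prop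
  | _, _, [] => True
  | k, s, .birth i :: w => labels l (k + 1) (s.take i ++ [l k, l k] ++ s.drop i) w
  | k, s, .death i :: w => s.getD i true = s.getD (i + 1) true ∧
      labels l k (s.take i ++ s.drop (i + 2)) w
  | k, s, .cross i _ :: w =>
      labels l k (s.take i ++ [s.getD (i + 1) true, s.getD i true] ++ s.drop (i + 2)) w

/-- `D` is the diagram of a knot: a closed diagram with exactly one component, i.e. any labelling
of the maxima by `true`, `false` which is constant along the components is constant -/
def IsKnot (D : Word) : Prop :=
  Tangle 0 0 D ∧ 0 < births D ∧
    ∀ l : ℕ → Bool, labels l 0 [] D → ∀ k, k < births D → l k = l 0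

end TorMut
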