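import Pool.Agent.Lib.MP_407fc5_gt.T02

/-!
# E01: the product of the colours (about 30 minutes)

If all relators met while running down the word are trivial, then the product of the colours (from
left to right) does not change: a maximum inserts `x x⁻¹`, a crossing replaces `x y` by
`y (y⁻¹ x y)` or `(x y x⁻¹) x`, a minimum removes two neighbouring colours with the product `1`.
(Write the list as `take i ++ [x, y] ++ drop (i + 2)`, using `OK`.)
-/

namespace TorMut

variable {G : Type*} [Group G]

theorem e01_split (s : List G) (i : ℕ) (h : i + 2 ≤ s.length) :
    s.prod = (s.take i).prod * (s.getD i 1 * s.getD (i + 1) 1) * (s.drop (i + 2)).prod := by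
  have h1 : i < s.length := by omega
  have h2 : i + 1 < s.length := by omega
  have e : s.drop i = s.getD i 1 :: s.getD (i + 1) 1 :: s.drop (i + 2) := by
    rw [List.drop_eq_getElem_cons h1, List.drop_eq_getElem_cons h2]
    rw [List.getD_eq_getElem _ _ h1, List.getD_eq_getElem _ _ h2]
  have e2 := List.prod_take_mul_prod_drop s i
  rw [e, List.prod_cons, List.prod_cons] at e2
  rw [← e2]
  group

theorem run_prod (g : ℕ → G) (k : ℕ) (s : List G) (w : Word) (hok : OK s.length w)
    (h : ∀ r ∈ (run g k s w).2, r = 1) : (run g k s w).1.prod = s.prod := by
  induction w generalizing k s with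
  | nil => rfl
  | cons l w ih =>
    obtain ⟨h1, h2⟩ := hok
    cases l with
    | birth i =>
      simp only [Layer.ok, Layer.out] at h1 h2
      simp only [run] at h ⊢
      have e : (s.take i ++ [g k, (g k)⁻¹] ++ s.drop i).length = s.length + 2 := by
        simp; omega
      rw [ih _ _ (by rw [e]; exact h2) h]
      simp
    | death i =>
      simp only [Layer.ok, Layer.out] at h1 h2
      simp only [run] at h ⊢
      have e : (s.take i ++ s.drop (i + 2)).length = s.length - 2 := by
        simp; omega
      rw [ih _ _ (by rw [e]; exact h2) (fun r hr => h r (List.mem_cons_of_mem _ hr))]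
      have h3 := h _ List.mem_cons_self
      rw [e01_split s i h1, h3]
      simp
    | cross i b =>
      simp only [Layer.ok, Layer.out] at h1 h2
      cases b
      · simp only [run] at h ⊢
        have e : (s.take i ++ [s.getD i 1 * s.getD (i + 1) 1 * (s.getD i 1)⁻¹, s.getD i 1]
            ++ s.drop (i + 2)).length = s.length := by
          simp; omega
        rw [ih _ _ (by rw [e]; exact h2) h, e01_split s i h1]
        simp [mul_assoc]
      · simp only [run] at h ⊢
        have e : (s.take i ++ [s.getD (i + 1) 1,
            (s.getD (i + 1) 1)⁻¹ * s.getD i 1 * s.getD (i + 1) 1] ++ s.drop (i + 2)).length =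
            s.length := by
          simp; omega
        rw [ih _ _ (by rw [e]; exact h2) h, e01_split s i h1]
        simp [mul_assoc]

end TorMut
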