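import Pool.Agent.Lib.MP_407fc5_gt.P05

/-!
# P05b: a lemma on rays in the plane, second version

As `sectors`, but the two halves of the full turn are counted from another ray `w s`.
-/

namespace TorMut.Tile

open ComplexConjugate

theorem p05b_unique (w : ℕ → ℂ) (d r s : ℕ) (p : ℂ) (hd : w (s + d) = w s)
    (hc : ∀ q, 0 < wedge (w q) (w (q + 1)))
    (h1 : ∀ q, 1 ≤ q → q ≤ r → 0 < wedge (w s) (w (s + q)))
    (h2 : ∀ q, r < q → q < d → wedge (w s) (w (s + q)) < 0)
    (hne : ∀ q, wedge (w q) p ≠ 0)
    (a b : ℕ) (hab : a < b) (hb : b < d)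
    (ha1 : wedge (w (s + a)) p < 0) (ha2 : 0 < wedge (w (s + (a + 1))) p)
    (hb1 : wedge (w (s + b)) p < 0) (hb2 : 0 < wedge (w (s + (b + 1))) p) : False := by
  have e : ∀ q, wedge (w s) (w (s + q)) * wedge (w (s + (q + 1))) p =
      wedge (w s) (w (s + (q + 1))) * wedge (w (s + q)) p -
        wedge (w (s + q)) (w (s + (q + 1))) * wedge (w s) p := fun q =>
    p05_pluecker (w s) (w (s + q)) (w (s + (q + 1))) p
  have hc' : ∀ q, 0 < wedge (w (s + q)) (w (s + (q + 1))) := fun q => hc (s + q)
  have h2' : ∀ q, r < q → q < d → wedge (w s) (w (s + (q + 1))) ≤ 0 := by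
    intro q hq hqd
    rcases Nat.lt_or_ge (q + 1) d with h | h
    · exact (h2 (q + 1) (by omega) h).le
    · have : q + 1 = d := by omega
      rw [this, hd]
      unfold wedge
      apply le_of_eq
      ring
  rcases lt_or_gt_of_ne (hne s) with h0 | h0
  · -- the point is on the negative side of the ray `w s`
    have c1 : ∀ q, 1 ≤ q → q + 1 ≤ r → 0 < wedge (w (s + q)) p →
        0 < wedge (w (s + (q + 1))) p := by
      intro q hq hqr hw
      have b1 := mul_pos (h1 (q + 1) (by omega) hqr) hw
      have b2 := mul_neg_of_pos_of_neg (hc' q) h0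
      have b3 : 0 < wedge (w s) (w (s + q)) * wedge (w (s + (q + 1))) p := by
        rw [e]; linarith
      exact (pos_iff_pos_of_mul_pos b3).mp (h1 q hq (by omega))
    have c2 : ∀ q, r < q → q < d → wedge (w (s + q)) p < 0 →
        wedge (w (s + (q + 1))) p < 0 := by
      intro q hq hqd hw
      have b1 := mul_nonneg_of_nonpos_of_nonpos (h2' q hq hqd) hw.le
      have b2 := mul_neg_of_pos_of_neg (hc' q) h0
      have b3 : 0 < wedge (w s) (w (s + q)) * wedge (w (s + (q + 1))) p := by
        rw [e]; linarith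
      by_contra hcon
      push Not at hcon
      have := mul_nonpos_of_nonpos_of_nonneg (h2 q hq hqd).le hcon
      linarith
    have hbr : b ≤ r := by
      by_contra hcon
      have := c2 b (by omega) hb hb1
      linarith
    have key : ∀ q, a + 1 ≤ q → q ≤ r → 0 < wedge (w (s + q)) p := by
      intro q hq
      induction q, hq using Nat.le_induction with
      | base => intro _; exact ha2
      | succ q hq ih => intro hqr; exact c1 q (by omega) hqr (ih (by omega))
    have := key b (by omega) hbr
    linarith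
  · have c1 : ∀ q, 1 ≤ q → q + 1 ≤ r → wedge (w (s + q)) p < 0 →
        wedge (w (s + (q + 1))) p < 0 := by
      intro q hq hqr hw
      have b1 := mul_neg_of_pos_of_neg (h1 (q + 1) (by omega) hqr) hw
      have b2 := mul_pos (hc' q) h0
      have b3 : wedge (w s) (w (s + q)) * wedge (w (s + (q + 1))) p < 0 := by
        rw [e]; linarith
      have b4 := h1 q hq (by omega)
      by_contra hcon
      push Not at hcon
      have := mul_nonneg b4.le hcon
      linarith
    have c2 : ∀ q, r < q → q < d → 0 < wedge (w (s + q)) p →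
        0 < wedge (w (s + (q + 1))) p := by
      intro q hq hqd hw
      have b1 := mul_nonpos_of_nonpos_of_nonneg (h2' q hq hqd) hw.le
      have b2 := mul_pos (hc' q) h0
      have b3 : wedge (w s) (w (s + q)) * wedge (w (s + (q + 1))) p < 0 := by
        rw [e]; linarith
      have b4 := h2 q hq hqd
      by_contra hcon
      push Not at hcon
      have := mul_nonneg_of_nonpos_of_nonpos b4.le hcon
      linarith
    have har : r ≤ a := by
      by_contra hcon
      rcases Nat.eq_zero_or_pos a with ha | ha
      · subst ha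
        rw [add_zero] at ha1
        linarith
      · have := c1 a ha (by omega) ha1
        linarith
    have key : ∀ q, a + 1 ≤ q → q ≤ d → 0 < wedge (w (s + q)) p := by
      intro q hq
      induction q, hq using Nat.le_induction with
      | base => intro _; exact ha2
      | succ q hq ih => intro hqr; exact c2 q (by omega) (by omega) (ih (by omega))
    have := key b (by omega) (by omega)
    linarith

theorem sectors' (w : ℕ → ℂ) (d r s : ℕ) (p : ℂ) (hd0 : 0 < d) (hper : ∀ q, w (q + d) = w q)
    (hc : ∀ q, 0 < wedge (w q) (w (q + 1)))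
    (h1 : ∀ q, 1 ≤ q → q ≤ r → 0 < wedge (w s) (w (s + q)))
    (h2 : ∀ q, r < q → q < d → wedge (w s) (w (s + q)) < 0)
    (hp0 : wedge (w 0) p < 0) (hp1 : 0 < wedge (w 1) p)
    (hne : ∀ q, wedge (w q) p ≠ 0) :
    ∃ t, 2 ≤ t ∧ t ≤ d ∧ (∀ q, 1 ≤ q → q < t → 0 < wedge (w q) p) ∧
      (∀ q, t ≤ q → q ≤ d → wedge (w q) p < 0) := by
  classical
  have hP : Function.Periodic w d := hper
  have hmod : ∀ x y, x % d = y % d → w x = w y := by
    intro x y hxy
    rw [← hP.map_mod_nat x, ← hP.map_mod_nat y, hxy]
  -- index in the window starting at `s`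
  set m : ℕ → ℕ := fun q => (q + (d - 1) * s) % d with hm
  have hmm : ∀ q, (s + m q) % d = q % d := by
    intro q
    have h3 : s + (q + (d - 1) * s) = q + d * s := by
      obtain ⟨e, rfl⟩ : ∃ e, d = e + 1 := ⟨d - 1, by omega⟩
      simp only [Nat.add_sub_cancel]
      ring
    calc (s + m q) % d = (s + (q + (d - 1) * s)) % d := by rw [hm]; simp [Nat.add_mod]
      _ = q % d := by rw [h3, Nat.add_mul_mod_self_left]
  have hmlt : ∀ q, m q < d := fun q => Nat.mod_lt _ hd0
  have hw0 : ∀ q, w (s + m q) = w q := fun q => hmod _ _ (hmm q)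
  have hw1 : ∀ q, w (s + (m q + 1)) = w (q + 1) := by
    intro q
    apply hmod
    rw [← add_assoc, Nat.add_mod (s + m q) 1, hmm q, ← Nat.add_mod]
  -- only one change of sign from negative to positive
  have huniq : ∀ x y, x < d → y < d → wedge (w x) p < 0 → 0 < wedge (w (x + 1)) p →
      wedge (w y) p < 0 → 0 < wedge (w (y + 1)) p → x = y := by
    intro x y hx hy hx1 hx2 hy1 hy2
    rcases lt_trichotomy (m x) (m y) with h | h | h
    · exact (p05b_unique w d r s p (hper s) hc h1 h2 hne (m x) (m y) h (hmlt y)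
        (by rw [hw0]; exact hx1) (by rw [hw1]; exact hx2) (by rw [hw0]; exact hy1)
        (by rw [hw1]; exact hy2)).elim
    · have h3 := hmm x
      rw [h, hmm y, Nat.mod_eq_of_lt hx, Nat.mod_eq_of_lt hy] at h3
      exact h3.symm
    · exact (p05b_unique w d r s p (hper s) hc h1 h2 hne (m y) (m x) h (hmlt x)
        (by rw [hw0]; exact hy1) (by rw [hw1]; exact hy2) (by rw [hw0]; exact hx1)
        (by rw [hw1]; exact hx2)).elim
  have hwd : w d = w 0 := by have := hper 0; rwa [zero_add] at this
  have hneg : ∀ q, 1 ≤ q → q < d → wedge (w q) p < 0 → wedge (w (q + 1)) p < 0 := by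
    intro q hq hqd hw
    rcases lt_or_gt_of_ne (hne (q + 1)) with h | h
    · exact h
    · have := huniq 0 q hd0 hqd hp0 (by rw [zero_add]; exact hp1) hw h
      omega
  have hex : ∃ t, 1 ≤ t ∧ wedge (w t) p < 0 := ⟨d, hd0, by rw [hwd]; exact hp0⟩
  have hspec := Nat.find_spec hex
  have hmin : ∀ q, q < Nat.find hex → ¬ (1 ≤ q ∧ wedge (w q) p < 0) := fun q hq =>
    Nat.find_min hex hq
  have hle : Nat.find hex ≤ d := Nat.find_min' hex ⟨hd0, by rw [hwd]; exact hp0⟩
  have hne1 : Nat.find hex ≠ 1 := by
    intro h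
    have := hspec.2
    rw [h] at this
    linarith
  refine ⟨Nat.find hex, by have := hspec.1; omega, hle, ?_, ?_⟩
  · intro q hq1 hqt
    have h3 := hmin q hqt
    have h4 : ¬ wedge (w q) p < 0 := fun h5 => h3 ⟨hq1, h5⟩
    exact lt_of_le_of_ne (not_lt.mp h4) (hne q).symm
  · intro q hq
    induction q, hq using Nat.le_induction with
    | base => intro _; exact hspec.2
    | succ q hq ih =>
      intro hqd
      exact hneg q (by have := hspec.1; omega) (by omega) (ih (by omega))

end TorMut.Tile
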