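import Pool.Agent.Lib.MP_407fc5_gt.P06
import Pool.Agent.Lib.MP_407fc5_gt.P05b

/-!
# P07: local confluence (about 75 minutes)

Let `P` be positive and on no wall.  If `Red x y` across the face `k` and `Red x z` across the
face `l`, `k ≠ l` (if `k = l` then `y = z`).  Choose an even permutation `π` with `π 2 = k`,
`π 3 = l` (the other two labels in the right order) and rotate about the edge from the flag
`(x.2, π)`; tile number `r` is `T r = (x.1 * hprod r, (flag r).1)`, `T (r+1) = step (T r) (π r 2)`,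
`T d = T 0 = x`.  With `P' = rel ρ x P` and `w r = ray r`, `p = pt P'` the lemma `sectors` (P05)
applies (`edge` gives `d`, `r`; `wedge (w 0) (w q) > 0 ↔ 0 < (zprod q).im` because
`w q = w 0 * zprod q`; `w d = w 0` because the flag and the product return; `hp0`, `hp1` are
`co l < 0`, `co k < 0` by `co_three`, `co_two` at `r = 0`; `hne` is genericity).  With its `t`:
forward `T 0 → T 1 → ⋯ → T (t-1)` are reductions (`co_two` at `q - 1` for `q < t`), and backward
`T d → T (d-1) → ⋯ → T (t-1)` are reductions (crossing the face `π q 3` of `T q` leads to `T (q-1)`: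
`step_step`; `co_three` at `q`, `t ≤ q ≤ d`).  `y = T 1`, `z = T (d-1)`.
Note `rel ρ (T r) P = hact (ρ (hprod r))⁻¹ (rel ρ x P)`.
-/

namespace TorMut.Tile

open Matrix MatrixGroups ComplexConjugate

variable {G : Type*} [Group G] {ρ : G →* SL(2, ℂ)} {n : ℕ} {C : Comb G n} {v : Fin n → Fin 4 → V2}

/-- `P` lies on no wall of a tile -/
def OffWalls (ρ : G →* SL(2, ℂ)) (v : Fin n → Fin 4 → V2) (P : Herm) : Prop :=
  ∀ (x : G × Fin n) (k : Fin 4), co (v x.2) k (rel ρ x P) ≠ 0

lemma p07_perm (k l : Fin 4) (h : k ≠ l) :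
    ∃ π : Equiv.Perm (Fin 4), Equiv.Perm.sign π = 1 ∧ π 2 = k ∧ π 3 = l := by
  revert k l
  decide +kernel

/-- the tiles around the edge -/
noncomputable def p07_T (C : Comb G n) (x : G × Fin n) (π : Equiv.Perm (Fin 4)) (q : ℕ) :
    G × Fin n :=
  (x.1 * C.hprod (x.2, π) q, (C.flag (x.2, π) q).1)

lemma p07_T_zero (x : G × Fin n) (π : Equiv.Perm (Fin 4)) : p07_T C x π 0 = x := by
  unfold p07_T
  simp [Comb.hprod, Comb.flag]

lemma p07_T_succ (x : G × Fin n) (π : Equiv.Perm (Fin 4)) (q : ℕ) :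
    p07_T C x π (q + 1) = C.step (p07_T C x π q) ((C.flag (x.2, π) q).2 2) := by
  unfold p07_T Comb.step
  rw [p06_hprod_succ, p06_flag_succ, mul_assoc]
  rfl

lemma p07_T_pred (H : Good ρ C v) (x : G × Fin n) (π : Equiv.Perm (Fin 4)) (q : ℕ) :
    p07_T C x π q = C.step (p07_T C x π (q + 1)) ((C.flag (x.2, π) (q + 1)).2 3) := by
  have h := step_step H (p07_T C x π q) ((C.flag (x.2, π) q).2 2)
  rw [p07_T_succ]
  have h2 : (C.flag (x.2, π) (q + 1)).2 3 =
      C.s (p07_T C x π q).2 ((C.flag (x.2, π) q).2 2) ((C.flag (x.2, π) q).2 2) := by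
    rw [p06_flag_succ]
    simp only [Comb.rot, Equiv.Perm.mul_apply, Equiv.swap_apply_right, p07_T]
  rw [h2, h]

lemma p07_rel (x : G × Fin n) (π : Equiv.Perm (Fin 4)) (q : ℕ) (P : Herm) :
    rel ρ (p07_T C x π q) P = hact (ρ (C.hprod (x.2, π) q))⁻¹ (rel ρ x P) := by
  have h : (ρ (C.hprod (x.2, π) q))⁻¹ * ρ x.1⁻¹ = ρ (x.1 * C.hprod (x.2, π) q)⁻¹ := by
    rw [← map_inv, ← map_mul, _root_.mul_inv_rev]
  unfold rel p07_T
  rw [← hact_mul, h]

/-- the coordinate opposite to the vertex 3 -/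
lemma p07_three (H : Good ρ C v) (P : Herm) (hP : Pos P) (x : G × Fin n)
    (π : Equiv.Perm (Fin 4)) (hπ : Equiv.Perm.sign π = 1) (q : ℕ) :
    ∃ c > 0, co (v (p07_T C x π q).2) ((C.flag (x.2, π) q).2 3) (rel ρ (p07_T C x π q) P) =
      c * wedge (ray ρ C v (x.2, π) q) (pt ρ C v (x.2, π) (rel ρ x P)) := by
  rw [p07_rel]
  exact co_three H x.2 π hπ q (rel ρ x P) (Pos_act _ _ hP)

lemma p07_two (H : Good ρ C v) (P : Herm) (hP : Pos P) (x : G × Fin n)
    (π : Equiv.Perm (Fin 4)) (hπ : Equiv.Perm.sign π = 1) (q : ℕ) :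
    ∃ c > 0, co (v (p07_T C x π q).2) ((C.flag (x.2, π) q).2 2) (rel ρ (p07_T C x π q) P) =
      -(c * wedge (ray ρ C v (x.2, π) (q + 1)) (pt ρ C v (x.2, π) (rel ρ x P))) := by
  rw [p07_rel]
  exact co_two H x.2 π hπ q (rel ρ x P) (Pos_act _ _ hP)

lemma p07_flag_add (f : Fin n × Equiv.Perm (Fin 4)) (a b : ℕ) :
    C.flag f (a + b) = C.flag (C.flag f a) b := by
  unfold Comb.flag
  rw [add_comm, Function.iterate_add_apply]

lemma p07_hprod_add (f : Fin n × Equiv.Perm (Fin 4)) (a b : ℕ) :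
    C.hprod f (a + b) = C.hprod f a * C.hprod (C.flag f a) b := by
  induction b with
  | zero => simp [Comb.hprod]
  | succ b ih =>
    rw [← add_assoc, p06_hprod_succ, ih, p06_hprod_succ, p07_flag_add, mul_assoc]

lemma p07_ray_add (H : Good ρ C v) (i : Fin n) (π : Equiv.Perm (Fin 4))
    (hπ : Equiv.Perm.sign π = 1) (s q : ℕ) :
    ray ρ C v (i, π) (s + q) = ray ρ C v (i, π) s * C.zprod v (C.flag (i, π) s) q := by
  induction q with
  | zero => simp [Comb.zprod]
  | succ q ih =>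
    rw [← add_assoc, p06_ray_succ H, ih, p06_zprod_succ, p07_flag_add, mul_assoc]

theorem local_confluence (H : Good ρ C v) (P : Herm) (hP : Pos P) (hne : OffWalls ρ v P)
    (x y z : G × Fin n) (hy : Red ρ C v P x y) (hz : Red ρ C v P x z) :
    ∃ w, Relation.ReflTransGen (Red ρ C v P) y w ∧ Relation.ReflTransGen (Red ρ C v P) z w := by
  obtain ⟨k, hk, rfl⟩ := hy
  obtain ⟨l, hl, rfl⟩ := hz
  by_cases hkl : k = l
  · subst hkl
    exact ⟨_, Relation.ReflTransGen.refl, Relation.ReflTransGen.refl⟩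
  obtain ⟨π, hπ, hπ2, hπ3⟩ := p07_perm k l hkl
  obtain ⟨d, r, s, hr, hrd, hflag, hprod, hz1, hz2⟩ := H.edge x.2 π hπ
  set f : Fin n × Equiv.Perm (Fin 4) := (x.2, π) with hf
  set p := pt ρ C v f (rel ρ x P) with hp
  have hTd : p07_T C x π d = x := by
    unfold p07_T
    rw [← hf, hflag, hprod, mul_one]
  have hT0 := p07_T_zero (C := C) x π
  have hw : ∀ q, wedge (ray ρ C v f s) (ray ρ C v f (s + q)) =
      Complex.normSq (ray ρ C v f s) * (C.zprod v (C.flag f s) q).im := by
    intro q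
    rw [p07_ray_add H x.2 π hπ s q]
    simp only [wedge, Complex.mul_im, Complex.mul_re, Complex.normSq_apply]
    ring
  have hn0 : 0 < Complex.normSq (ray ρ C v f s) := Complex.normSq_pos.2 (ray_ne_zero H x.2 π s)
  have hwd : ∀ q, ray ρ C v f (q + d) = ray ρ C v f q := by
    intro q
    unfold ray vx
    rw [add_comm q d, p07_flag_add, p07_hprod_add, hflag, hprod, one_mul]
  have hp0 : wedge (ray ρ C v f 0) p < 0 := by
    obtain ⟨c, hc, h⟩ := p07_three H P hP x π hπ 0
    have h1 : (C.flag (x.2, π) 0).2 3 = l := hπ3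
    rw [hT0, h1] at h
    rw [h] at hl
    by_contra hcon
    exact absurd hl (not_lt.2 (mul_nonneg hc.le (not_lt.1 hcon)))
  have hp1 : 0 < wedge (ray ρ C v f 1) p := by
    obtain ⟨c, hc, h⟩ := p07_two H P hP x π hπ 0
    have h1 : (C.flag (x.2, π) 0).2 2 = k := hπ2
    rw [hT0, h1] at h
    rw [h] at hk
    have h2 : 0 < c * wedge (ray ρ C v f (0 + 1)) p := by linarith
    exact (mul_pos_iff_of_pos_left hc).1 h2
  have hnew : ∀ q, wedge (ray ρ C v f q) p ≠ 0 := by
    intro q h0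
    obtain ⟨c, hc, h⟩ := p07_three H P hP x π hπ q
    have := hne (p07_T C x π q) ((C.flag (x.2, π) q).2 3)
    rw [h] at this
    exact this (by rw [← hf, ← hp, h0, mul_zero])
  obtain ⟨t, ht2, htd, hfor, hback⟩ := sectors' (fun q => ray ρ C v f q) d r s p (by omega) hwd
    (fun q => ray_wedge H x.2 π hπ q)
    (fun q hq1 hq2 => by
      show 0 < wedge (ray ρ C v f s) (ray ρ C v f (s + q))
      rw [hw q]; exact mul_pos hn0 (hz1 q hq1 hq2))
    (fun q hq1 hq2 => by
      show wedge (ray ρ C v f s) (ray ρ C v f (s + q)) < 0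
      rw [hw q]; exact mul_neg_of_pos_of_neg hn0 (hz2 q hq1 hq2))
    hp0 hp1 hnew
  have hstepf : ∀ q, q + 1 < t → Red ρ C v P (p07_T C x π q) (p07_T C x π (q + 1)) := by
    intro q hq
    obtain ⟨c, hc, h⟩ := p07_two H P hP x π hπ q
    refine ⟨(C.flag (x.2, π) q).2 2, ?_, p07_T_succ x π q⟩
    rw [h]
    have := hfor (q + 1) (by omega) hq
    have := mul_pos hc this
    simpa using this
  have hstepb : ∀ q, t ≤ q + 1 → q + 1 ≤ d →
      Red ρ C v P (p07_T C x π (q + 1)) (p07_T C x π q) := by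
    intro q hq hqd
    obtain ⟨c, hc, h⟩ := p07_three H P hP x π hπ (q + 1)
    refine ⟨(C.flag (x.2, π) (q + 1)).2 3, ?_, p07_T_pred H x π q⟩
    rw [h]
    exact mul_neg_of_pos_of_neg hc (hback (q + 1) hq hqd)
  have hy1 : C.step x k = p07_T C x π 1 := by
    rw [p07_T_succ x π 0, hT0]
    have h1 : (C.flag (x.2, π) 0).2 2 = k := hπ2
    rw [h1]
  obtain ⟨e, rfl⟩ : ∃ e, d = e + 1 := ⟨d - 1, by omega⟩
  have hz3 : C.step x l = p07_T C x π e := by
    rw [p07_T_pred H x π e, hTd]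
    have h1 : (C.flag (x.2, π) (e + 1)).2 3 = l := by
      rw [← hf, hflag]; exact hπ3
    rw [h1]
  refine ⟨p07_T C x π (t - 1), ?_, ?_⟩
  · rw [hy1]
    have key : ∀ m, m + 1 < t → Relation.ReflTransGen (Red ρ C v P) (p07_T C x π 1)
        (p07_T C x π (m + 1)) := by
      intro m
      induction m with
      | zero => intro _; exact Relation.ReflTransGen.refl
      | succ m ih =>
        intro hm
        exact (ih (by omega)).tail (hstepf (m + 1) hm)
    have h := key (t - 2) (by omega)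
    rwa [show t - 2 + 1 = t - 1 by omega] at h
  · rw [hz3]
    have key : ∀ m, t ≤ m + 1 → m ≤ e → Relation.ReflTransGen (Red ρ C v P) (p07_T C x π m)
        (p07_T C x π (t - 1)) := by
      intro m
      induction m with
      | zero => intro h1 _; omega
      | succ m ih =>
        intro h1 h2
        rcases Nat.lt_or_ge (m + 1) t with h3 | h3
        · rw [show t - 1 = m + 1 by omega]
        · exact Relation.ReflTransGen.head (hstepb m h3 (by omega)) (ih h3 (by omega))
    exact key e (by omega) le_rfl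

end TorMut.Tile
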