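import Pool.Agent.Lib.MP_407fc5_gt.G01
import Pool.Agent.Lib.MP_407fc5_gt.G02
import Pool.Agent.Lib.MP_407fc5_gt.P07

/-!
# G03: the edges (about 75 minutes)

`edgeGo_sound`: induction on `d`.  `edge_all`: `covOK` gives the edge `o` and the position `a` of the
flag with the code `12 i + c` (`orbL` is the list of the codes of the flags `rotN^[a] (o.i, o.c)`); for
the flag `f = flag f₀ a` the closing up follows from that of `f₀`: `hprod f₀ (a + d) = hprod f₀ a * hprod f d`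
and `hprod f₀ (d + a) = hprod f₀ d * hprod f₀ a` (`p07_hprod_add`, `p07_flag_add` in `P07`).
-/

namespace TorMut

open Tile

variable {G : Type*} [Group G] (X : ℕ → G) (T : TD)

theorem G03_fN {α : Type*} (n : Nat) (k : Nat → α) : fN n k = k n := by
  cases n <;> rfl

theorem edgeGo_sound (h : T.chk1 = true) (d : ℕ) (i c : ℕ) (hi : i ≤ T.k) (hc : c < 12)
    (st : List ℕ) :
    (T.edgeGo d i c st).2 = T.rotN^[d] (i, c) ∧ (T.rotN^[d] (i, c)).1 ≤ T.k ∧
    (T.rotN^[d] (i, c)).2 < 12 ∧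
    (T.comb X).flag (T.toFlag (i, c)) d = T.toFlag (T.rotN^[d] (i, c)) ∧
    evW X (T.edgeGo d i c st).1.reverse =
      evW X st.reverse * (T.comb X).hprod (T.toFlag (i, c)) d := by
  induction d generalizing i c st with
  | zero =>
    refine ⟨rfl, hi, hc, rfl, ?_⟩
    show evW X st.reverse = evW X st.reverse * 1
    rw [mul_one]
  | succ d ih =>
    have hr := rot_toFlag X T h (i, c) hi hc
    have hrot : T.rotN (i, c) =
        (T.nbN i (pmV c 2), pmM (pmM (T.sN i (pmV c 2)) c) sw23) := rfl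
    set i' := T.nbN i (pmV c 2) with hi'
    set c' := pmM (pmM (T.sN i (pmV c 2)) c) sw23 with hc'
    rw [hrot] at hr
    obtain ⟨hr1, hr2, hr3⟩ := hr
    have hgo : T.edgeGo (d + 1) i c st = T.edgeGo d i' c' (feed st (T.hN i (pmV c 2))) := by
      rw [TD.edgeGo, G03_fN, G03_fN]
    obtain ⟨h1, h2, h3, h4, h5⟩ := ih i' c' hr2 hr3 (feed st (T.hN i (pmV c 2)))
    have hit : T.rotN^[d + 1] (i, c) = T.rotN^[d] (i', c') := by
      rw [Function.iterate_succ_apply, hrot]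
    have hfl : (T.comb X).flag (T.toFlag (i, c)) (d + 1) =
        (T.comb X).flag (T.toFlag (i', c')) d := by
      unfold Comb.flag
      rw [Function.iterate_succ_apply, hr1]
    have hh : (T.comb X).hprod (T.toFlag (i, c)) (d + 1) =
        evW X (T.hN i (pmV c 2)) * (T.comb X).hprod (T.toFlag (i', c')) d := by
      rw [add_comm d 1, p07_hprod_add]
      have e1 : (T.comb X).flag (T.toFlag (i, c)) 1 = T.toFlag (i', c') := by
        show (T.comb X).rot (T.toFlag (i, c)) = _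
        exact hr1
      have e2 : (T.comb X).hprod (T.toFlag (i, c)) 1 = evW X (T.hN i (pmV c 2)) := by
        show 1 * evW X (T.hN (Fin.ofNat (T.k + 1) i).1 ((pm c 2 : Fin 4) : ℕ)) = _
        have e3 : (Fin.ofNat (T.k + 1) i).1 = i := Nat.mod_eq_of_lt (by omega)
        rw [one_mul, e3, pm_apply c (by omega) 2]
        rfl
      rw [e1, e2]
    rw [hgo, hit, hfl, hh]
    refine ⟨h1, h2, h3, h4, ?_⟩
    rw [h5, feed_sound, mul_assoc]

theorem orb_close (h : T.chk1 = true) (rel : List (List ℕ)) (hrel : ∀ r ∈ rel, evW X r = 1)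
    (o : Orb) (ho : T.orbOK rel o = true) :
    (T.comb X).flag (T.toFlag (o.i, o.c)) o.d = T.toFlag (o.i, o.c) ∧
    (T.comb X).hprod (T.toFlag (o.i, o.c)) o.d = 1 ∧ o.i ≤ T.k ∧ o.c < 12 ∧ 1 ≤ o.r ∧
    o.r + 2 ≤ o.d := by
  unfold TD.orbOK at ho
  rcases hgo : T.edgeGo o.d o.i o.c [] with ⟨st, i', c'⟩
  rw [hgo] at ho
  simp only [Bool.and_eq_true] at ho
  obtain ⟨⟨⟨⟨⟨⟨h1, h2⟩, h3⟩, h4⟩, h5⟩, h6⟩, h7⟩ := ho
  have hi : i' = o.i := Nat.eq_of_beq_eq_true h1
  have hc : c' = o.c := Nat.eq_of_beq_eq_true h2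
  have hik : o.i ≤ T.k := Nat.le_of_ble_eq_true h3
  have hck : o.c ≤ 11 := Nat.le_of_ble_eq_true h4
  have hr1 : 1 ≤ o.r := Nat.le_of_ble_eq_true h6
  have hr2 : o.r + 2 ≤ o.d := Nat.le_of_ble_eq_true h7
  have hnil := isNil_sound _ h5
  obtain ⟨e1, e2, e3, e4, e5⟩ := edgeGo_sound X T h o.d o.i o.c hik (by omega) []
  rw [hgo] at e1 e5
  have e1' : (i', c') = T.rotN^[o.d] (o.i, o.c) := e1
  have e5' : evW X st.reverse = evW X ([] : List ℕ).reverse *
      (T.comb X).hprod (T.toFlag (o.i, o.c)) o.d := e5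
  refine ⟨?_, ?_, hik, by omega, hr1, hr2⟩
  · rw [e4, ← e1', hi, hc]
  · have h8 := feedC_sound X rel hrel st o.cert
    rw [hnil, List.reverse_nil, evW_nil, e5', List.reverse_nil, evW_nil, one_mul] at h8
    exact h8.symm

/-- closing up does not depend on the first flag -/
theorem flag_close (C : Comb G (T.k + 1)) (f : Fin (T.k + 1) × Equiv.Perm (Fin 4)) (d a : ℕ)
    (h1 : C.flag f d = f) (h2 : C.hprod f d = 1) :
    C.flag (C.flag f a) d = C.flag f a ∧ C.hprod (C.flag f a) d = 1 := by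
  constructor
  · rw [← p07_flag_add, add_comm a d, p07_flag_add, h1]
  · have h3 : C.hprod f (a + d) = C.hprod f a * C.hprod (C.flag f a) d := p07_hprod_add ..
    have h4 : C.hprod f (d + a) = C.hprod f d * C.hprod (C.flag f d) a := p07_hprod_add ..
    rw [h2, h1, one_mul, add_comm d a, h3] at h4
    exact mul_eq_left.1 h4

theorem G03_orbL (d i c y : ℕ) (hy : y ∈ T.orbL d i c) :
    ∃ a < d, y = 12 * (T.rotN^[a] (i, c)).1 + (T.rotN^[a] (i, c)).2 := by
  induction d generalizing i c with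
  | zero =>
    rw [TD.orbL] at hy
    exact absurd hy (by simp)
  | succ d ih =>
    rw [TD.orbL, G03_fN, G03_fN, List.mem_cons] at hy
    rcases hy with hy | hy
    · exact ⟨0, Nat.succ_pos d, hy⟩
    · obtain ⟨a, ha, hya⟩ := ih _ _ hy
      refine ⟨a + 1, Nat.succ_lt_succ ha, ?_⟩
      rw [Function.iterate_succ_apply]
      exact hya

theorem edge_all (h : T.chk1 = true) (rel : List (List ℕ)) (hrel : ∀ r ∈ rel, evW X r = 1)
    (E : List Orb) (hE : (E.all fun o => T.orbOK rel o) = true) (hcov : T.covOK E = true)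
    (i : Fin (T.k + 1)) (π : Equiv.Perm (Fin 4)) (hπ : Equiv.Perm.sign π = 1) :
    ∃ o ∈ E, ∃ a < o.d, (i, π) = (T.comb X).flag (T.toFlag (o.i, o.c)) a ∧
      (T.comb X).flag (i, π) o.d = (i, π) ∧ (T.comb X).hprod (i, π) o.d = 1 := by
  obtain ⟨c, hc, rfl⟩ := pm_surj π hπ
  unfold TD.covOK at hcov
  have hlt : 12 * i.1 + c < 12 * (T.k + 1) := by
    have := i.2
    omega
  have h1 := List.all_eq_true.1 hcov (12 * i.1 + c) (List.mem_range.2 hlt)
  obtain ⟨l, hl, h2⟩ := List.any_eq_true.1 h1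
  obtain ⟨y, hy, h3⟩ := List.any_eq_true.1 h2
  obtain ⟨o, ho, rfl⟩ := List.mem_map.1 hl
  have hxy : 12 * i.1 + c = y := Nat.eq_of_beq_eq_true h3
  obtain ⟨a, ha, h4⟩ := G03_orbL T o.d o.i o.c y hy
  have hoOK := List.all_eq_true.1 hE o ho
  obtain ⟨c1, c2, c3, c4, -, -⟩ := orb_close X T h rel hrel o hoOK
  obtain ⟨-, g2, g3, g4, -⟩ := edgeGo_sound X T h a o.i o.c c3 c4 []
  have e1 : (T.rotN^[a] (o.i, o.c)).1 = i.1 := by omega
  have e2 : (T.rotN^[a] (o.i, o.c)).2 = c := by omega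
  have hfl : (i, pm c) = (T.comb X).flag (T.toFlag (o.i, o.c)) a := by
    rw [g4]
    unfold TD.toFlag
    rw [e1, e2]
    refine Prod.ext ?_ rfl
    exact Fin.ext (Nat.mod_eq_of_lt i.2).symm
  refine ⟨o, ho, a, ha, hfl, ?_⟩
  rw [hfl]
  exact flag_close T (T.comb X) (T.toFlag (o.i, o.c)) o.d a c1 c2

end TorMut
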