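import Pool.Agent.Lib.MP_407fc5_gt.G03
import Pool.Agent.Lib.MP_407fc5_gt.B04

/-!
# G04: the vertices of neighbouring tetrahedra agree up to sign (about 90 minutes)

Call the link `(i, k, l)`, `l ≠ k`, good if `ρ (h i k) v (nb i k) (s i k l) = ± v i l`; equivalently
`ρ (W_il⁻¹ h_ik W_(nb, s l))` fixes the base vector `a = A T.m` up to sign.
* `link_pow`: a power of the base letter fixes `a` (`powOK_sound`, `PV_self`, `feed_sound`).
* `link_rev`: the opposite link `(nb i k, s i k k, s i k l)` is good (`h (nb i k) (s i k k) = (h i k)⁻¹`).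
* `link_comm`: if the word `z` commutes with `X m`, then `ρ z` fixes `a` up to sign (`PV_comm`, `a ≠ 0`).
* `link_close`: rotate about an edge from the flag `f`, `flag f d = f`, `hprod f d = 1`; if the links
  `(i_q, π_q 2, π_q 0)` of the flags number `q = 1, …, d - 1` are good, so is the link of `f`: the vectors
  `x q = ρ (hprod f q) v (i_q) (π_q 0)` satisfy `x (q+1) = ± x q` for `1 ≤ q < d` and `x d = x 0`.
* `vert_all`: the lists `K` of known links in `vsteps` contain codes of good links only (invariant: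
  every code in `K` is `linkC i k l` with `i ≤ T.k`, `k, l < 4` of a good link; `linkC` is injective
  on such triples).
-/

namespace TorMut

open Tile Matrix MatrixGroups

variable {G : Type*} [Group G] (X : ℕ → G) (T : TD)

/-- the two tetrahedra have the same vertex up to sign -/
def GoodLink (ρ : G →* SL(2, ℂ)) (a : V2) (i : Fin (T.k + 1)) (k l : Fin 4) : Prop :=
  (ρ ((T.comb X).h i k)).1.mulVec (T.vtx X ρ a ((T.comb X).nb i k) ((T.comb X).s i k l)) =
      T.vtx X ρ a i l ∨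
  (ρ ((T.comb X).h i k)).1.mulVec (T.vtx X ρ a ((T.comb X).nb i k) ((T.comb X).s i k l)) =
      -T.vtx X ρ a i l

theorem comb_h_h (h : T.chk1 = true) (i : Fin (T.k + 1)) (k : Fin 4) :
    (T.comb X).h ((T.comb X).nb i k) ((T.comb X).s i k k) = ((T.comb X).h i k)⁻¹ := by
  obtain ⟨c1, c2, c3, c4, c5⟩ := comb_codes X T h i k
  have h1 := h
  unfold TD.chk1 at h1
  rw [List.all_eq_true] at h1
  have h2 := h1 i.1 (List.mem_range.2 i.2)
  rw [List.all_eq_true] at h2
  have h3 := h2 k.1 (List.mem_range.2 k.2)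
  rw [Bool.and_eq_true] at h3
  have h4 := isNil_sound _ h3.2
  have h5 := feed_sound X (feed [] (T.hN i.1 k.1))
    (T.hN (T.nbN i.1 k.1) (pmV (T.sN i.1 k.1) k.1))
  rw [h4, feed_sound, List.reverse_nil, evW_nil, one_mul] at h5
  have h6 : (T.comb X).h ((T.comb X).nb i k) ((T.comb X).s i k k) =
      evW X (T.hN (T.nbN i.1 k.1) (pmV (T.sN i.1 k.1) k.1)) := by
    show evW X (T.hN ((T.comb X).nb i k).1 ((T.comb X).s i k k).1) = _
    rw [c1, c3 k]
  rw [h6]
  exact eq_inv_of_mul_eq_one_right h5.symm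

/-- the word of a link -/
theorem linkW_sound (h : T.chk1 = true) (i : Fin (T.k + 1)) (k l : Fin 4) :
    evW X (T.linkW i.1 k.1 l.1).reverse = (evW X (T.WN i.1 l.1))⁻¹ * (T.comb X).h i k *
      evW X (T.WN ((T.comb X).nb i k).1 ((T.comb X).s i k l).1) := by
  obtain ⟨c1, c2, c3, c4, c5⟩ := comb_codes X T h i k
  unfold TD.linkW
  rw [feed_sound, feed_sound, feed_sound, List.reverse_nil, evW_nil, one_mul, evW_invW, c1, c3 l]
  rfl

lemma g04_mul (ρ : G →* SL(2, ℂ)) (x y : G) (v : V2) :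
    (ρ (x * y)).1.mulVec v = (ρ x).1.mulVec ((ρ y).1.mulVec v) := by
  rw [map_mul]
  exact B04_mul_mulVec _ _ _

lemma g04_one (ρ : G →* SL(2, ℂ)) (v : V2) : (ρ 1).1.mulVec v = v := by
  rw [map_one]
  exact B04_one_mulVec v

lemma g04_inv (ρ : G →* SL(2, ℂ)) (x : G) (v w : V2) :
    (ρ x⁻¹).1.mulVec v = w ↔ v = (ρ x).1.mulVec w := by
  constructor
  · intro h
    rw [← h, ← g04_mul, mul_inv_cancel, g04_one]
  · intro h
    rw [h, ← g04_mul, inv_mul_cancel, g04_one]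

lemma g04_neg (ρ : G →* SL(2, ℂ)) (x : G) (v : V2) :
    (ρ x).1.mulVec (-v) = -(ρ x).1.mulVec v := Matrix.mulVec_neg _ _

theorem goodLink_iff (h : T.chk1 = true) (ρ : G →* SL(2, ℂ)) (a : V2) (i : Fin (T.k + 1))
    (k l : Fin 4) : GoodLink X T ρ a i k l ↔
      ((ρ (evW X (T.linkW i.1 k.1 l.1).reverse)).1.mulVec a = a ∨
        (ρ (evW X (T.linkW i.1 k.1 l.1).reverse)).1.mulVec a = -a) := by
  rw [linkW_sound X T h, mul_assoc, g04_mul, g04_mul, g04_inv, g04_inv, g04_neg]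
  rfl

theorem link_rev (h : T.chk1 = true) (ρ : G →* SL(2, ℂ)) (a : V2) (i : Fin (T.k + 1))
    (k l : Fin 4) (hg : GoodLink X T ρ a i k l) :
    GoodLink X T ρ a ((T.comb X).nb i k) ((T.comb X).s i k k) ((T.comb X).s i k l) := by
  unfold GoodLink
  have e1 : ((T.comb X).s i k)⁻¹ ((T.comb X).s i k l) = l := by simp
  rw [comb_h_h X T h, comb_nb_nb X T h, comb_s_s X T h, e1, g04_inv, g04_inv, g04_neg]
  rcases hg with hg | hg
  · exact Or.inl hg.symm
  · right
    rw [hg, neg_neg]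

theorem link_close (h : T.chk1 = true) (ρ : G →* SL(2, ℂ)) (a : V2)
    (f : Fin (T.k + 1) × Equiv.Perm (Fin 4)) (d : ℕ) (hd : 1 ≤ d)
    (h1 : (T.comb X).flag f d = f) (h2 : (T.comb X).hprod f d = 1)
    (h3 : ∀ q, 1 ≤ q → q < d → GoodLink X T ρ a ((T.comb X).flag f q).1
      (((T.comb X).flag f q).2 2) (((T.comb X).flag f q).2 0)) :
    GoodLink X T ρ a f.1 (f.2 2) (f.2 0) := by
  have _ := h
  set C := T.comb X with hC
  have hflag : ∀ q, C.flag f (q + 1) = C.rot (C.flag f q) := by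
    intro q
    unfold Comb.flag
    rw [Function.iterate_succ_apply']
  let x : ℕ → V2 := fun q => (ρ (C.hprod f q)).1.mulVec
    (T.vtx X ρ a (C.flag f q).1 ((C.flag f q).2 0))
  have hx : ∀ q, x (q + 1) = (ρ (C.hprod f q)).1.mulVec
      ((ρ (C.h (C.flag f q).1 ((C.flag f q).2 2))).1.mulVec
        (T.vtx X ρ a (C.nb (C.flag f q).1 ((C.flag f q).2 2))
          (C.s (C.flag f q).1 ((C.flag f q).2 2) ((C.flag f q).2 0)))) := by
    intro q
    show (ρ (C.hprod f (q + 1))).1.mulVec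
      (T.vtx X ρ a (C.flag f (q + 1)).1 ((C.flag f (q + 1)).2 0)) = _
    rw [hflag q]
    have e1 : (C.rot (C.flag f q)).2 0 =
        C.s (C.flag f q).1 ((C.flag f q).2 2) ((C.flag f q).2 0) := by
      simp only [Comb.rot, Equiv.Perm.mul_apply]
      congr 2
    rw [e1]
    show (ρ (C.hprod f q * C.h (C.flag f q).1 ((C.flag f q).2 2))).1.mulVec _ = _
    rw [g04_mul]
    rfl
  have hstep : ∀ q, 1 ≤ q → q < d → x (q + 1) = x q ∨ x (q + 1) = -x q := by
    intro q hq1 hq2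
    rcases h3 q hq1 hq2 with h4 | h4
    · left
      rw [hx, h4]
    · right
      rw [hx, h4, g04_neg]
  have hall : ∀ q, q < d → x (q + 1) = x 1 ∨ x (q + 1) = -x 1 := by
    intro q
    induction q with
    | zero => intro _; exact Or.inl rfl
    | succ q ih =>
      intro hq
      rcases ih (by omega) with h5 | h5 <;> rcases hstep (q + 1) (by omega) hq with h6 | h6
      · left; rw [h6, h5]
      · right; rw [h6, h5]
      · right; rw [h6, h5]
      · left; rw [h6, h5, neg_neg]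
  have hx0 : x 0 = T.vtx X ρ a f.1 (f.2 0) := by
    show (ρ (1 : G)).1.mulVec _ = _
    rw [g04_one]
    rfl
  have hxd : x d = T.vtx X ρ a f.1 (f.2 0) := by
    show (ρ (C.hprod f d)).1.mulVec (T.vtx X ρ a (C.flag f d).1 ((C.flag f d).2 0)) = _
    rw [h2, h1, g04_one]
  have hx1 := hx 0
  have e0 : C.hprod f 0 = 1 := rfl
  have e1 : C.flag f 0 = f := rfl
  rw [e0, e1, g04_one] at hx1
  obtain ⟨e, rfl⟩ : ∃ e, d = e + 1 := ⟨d - 1, by omega⟩
  unfold GoodLink
  rw [← hC]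
  rcases hall e (by omega) with h7 | h7
  · left
    rw [hxd] at h7
    rw [← hx1, ← h7]
  · right
    rw [hxd] at h7
    rw [← hx1, h7, neg_neg]

lemma g04_linkC (i k l i' k' l' : ℕ) (hk : k < 4) (hl : l < 4) (hk' : k' < 4) (hl' : l' < 4)
    (h : TD.linkC i k l = TD.linkC i' k' l') : i = i' ∧ k = k' ∧ l = l' := by
  have h1 : 16 * i + (4 * k + l) = 16 * i' + (4 * k' + l') := h
  omega

/-- invariant: the codes in the list belong to good links -/
def KInv (ρ : G →* SL(2, ℂ)) (a : V2) (K : List ℕ) : Prop :=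
  ∀ (i : Fin (T.k + 1)) (k l : Fin 4), TD.linkC i.1 k.1 l.1 ∈ K → GoodLink X T ρ a i k l

lemma KInv_cons (ρ : G →* SL(2, ℂ)) (a : V2) (K : List ℕ) (hK : KInv X T ρ a K)
    (i : Fin (T.k + 1)) (k l : Fin 4) (hg : GoodLink X T ρ a i k l) (x : ℕ)
    (hx : x = TD.linkC i.1 k.1 l.1) : KInv X T ρ a (x :: K) := by
  intro i' k' l' hm
  rcases List.mem_cons.1 hm with hm | hm
  · rw [hx] at hm
    obtain ⟨e1, e2, e3⟩ := g04_linkC _ _ _ _ _ _ k'.2 l'.2 k.2 l.2 hm
    have e1' := Fin.ext e1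
    have e2' := Fin.ext e2
    have e3' := Fin.ext e3
    subst e1' e2' e3'
    exact hg
  · exact hK i' k' l' hm

lemma KInv_two (h : T.chk1 = true) (ρ : G →* SL(2, ℂ)) (a : V2) (K : List ℕ)
    (hK : KInv X T ρ a K) (i : Fin (T.k + 1)) (k l : Fin 4) (hg : GoodLink X T ρ a i k l) :
    KInv X T ρ a (TD.linkC i.1 k.1 l.1 :: T.revC i.1 k.1 l.1 :: K) := by
  obtain ⟨c1, c2, c3, c4, c5⟩ := comb_codes X T h i k
  refine KInv_cons X T ρ a _ ?_ i k l hg _ rfl
  refine KInv_cons X T ρ a _ hK _ _ _ (link_rev X T h ρ a i k l hg) _ ?_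
  unfold TD.revC
  rw [c1, c3 k, c3 l]

lemma known_sound (h : T.chk1 = true) (ρ : G →* SL(2, ℂ)) (a : V2)
    (ha : (ρ (X T.m)).1.mulVec a = a) (K : List ℕ) (hK : KInv X T ρ a K)
    (i : Fin (T.k + 1)) (k l : Fin 4) (hk : T.known K i.1 k.1 l.1 = true) :
    GoodLink X T ρ a i k l := by
  unfold TD.known at hk
  rw [Bool.or_eq_true] at hk
  rcases hk with hk | hk
  · rw [List.any_eq_true] at hk
    obtain ⟨x, hx, hx2⟩ := hk
    have h3 := Nat.eq_of_beq_eq_true hx2
    rw [h3] at hx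
    exact hK i k l hx
  · rw [goodLink_iff X T h]
    exact Or.inl (powOK_sound X T a ha _ hk)

lemma g04_toFlag (i c : ℕ) (hi : i ≤ T.k) (hc : c < 12) :
    (T.toFlag (i, c)).1.1 = i ∧ ∀ j : Fin 4, ((T.toFlag (i, c)).2 j).1 = pmV c j.1 := by
  refine ⟨?_, fun j => pm_apply c (by omega) j⟩
  show i % (T.k + 1) = i
  exact Nat.mod_eq_of_lt (by omega)

lemma g04_flag_succ (h : T.chk1 = true) (i c : ℕ) (hi : i ≤ T.k) (hc : c < 12) (q : ℕ) :
    (T.comb X).flag (T.toFlag (i, c)) (q + 1) = (T.comb X).flag (T.toFlag (T.rotN (i, c))) q := by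
  unfold Comb.flag
  rw [Function.iterate_succ_apply, (rot_toFlag X T h (i, c) hi hc).1]

lemma g04_fN {α : Type*} (n : ℕ) (k : ℕ → α) : fN n k = k n := by
  cases n <;> rfl

lemma restOK_sound (h : T.chk1 = true) (ρ : G →* SL(2, ℂ)) (a : V2)
    (ha : (ρ (X T.m)).1.mulVec a = a) (K : List ℕ) (hK : KInv X T ρ a K) (d : ℕ) :
    ∀ (i c : ℕ), i ≤ T.k → c < 12 → T.restOK K d i c = true →
    ∀ q, q < d → GoodLink X T ρ a ((T.comb X).flag (T.toFlag (i, c)) q).1
      (((T.comb X).flag (T.toFlag (i, c)) q).2 2)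
      (((T.comb X).flag (T.toFlag (i, c)) q).2 0) := by
  induction d with
  | zero => intro i c _ _ _ q hq; omega
  | succ d ih =>
    intro i c hi hc hr q hq
    rw [TD.restOK, g04_fN, g04_fN, Bool.and_eq_true] at hr
    obtain ⟨_, r2, r3⟩ := rot_toFlag X T h (i, c) hi hc
    cases q with
    | zero =>
      obtain ⟨f1, f2⟩ := g04_toFlag T i c hi hc
      refine known_sound X T h ρ a ha K hK _ _ _ ?_
      show T.known K (T.toFlag (i, c)).1.1 ((T.toFlag (i, c)).2 2).1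
        ((T.toFlag (i, c)).2 0).1 = true
      rw [f1, f2 2, f2 0]
      exact hr.1
    | succ q =>
      rw [g04_flag_succ X T h i c hi hc]
      exact ih _ _ r2 r3 hr.2 q (by omega)

lemma vstep_sound (h : T.chk1 = true) (ρ : G →* SL(2, ℂ)) (a : V2)
    (ha : (ρ (X T.m)).1.mulVec a = a) (rel : List (List ℕ)) (hrel : ∀ r ∈ rel, evW X r = 1)
    (E : List Orb) (hE : (E.all fun o => T.orbOK rel o) = true) (K : List ℕ)
    (hK : KInv X T ρ a K) (o b : ℕ) (hs : (T.vstep E K o b).1 = true) :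
    KInv X T ρ a (T.vstep E K o b).2 := by
  unfold TD.vstep at hs ⊢
  simp only at hs ⊢
  set e := E.getD o ⟨0, 0, 0, 0, []⟩ with he
  rw [Bool.and_eq_true, Bool.and_eq_true] at hs
  obtain ⟨⟨s1, s2⟩, s3⟩ := hs
  have s1' := Nat.le_of_ble_eq_true s1
  have s2' := Nat.le_of_ble_eq_true s2
  have hmem : e ∈ E := by
    by_cases ho : o < E.length
    · rw [he, List.getD_eq_getElem _ _ ho]
      exact List.getElem_mem ho
    · have h0 : e = ⟨0, 0, 0, 0, []⟩ := by
        rw [he, List.getD_eq_default _ _ (by omega)]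
      rw [h0] at s2'
      exact absurd s2' (by simp)
  have hok : T.orbOK rel e = true := by
    rw [List.all_eq_true] at hE
    exact hE e hmem
  obtain ⟨o1, o2, o3, o4, o5, o6⟩ := orb_close X T h rel hrel e hok
  obtain ⟨g1, g2, g3, g4, g5⟩ := edgeGo_sound X T h b e.i e.c o3 o4 []
  rcases hp : T.edgeGo b e.i e.c [] with ⟨st, pi, pc⟩
  rw [hp] at s3 g1
  simp only at s3 g1
  rw [← g1] at g2 g3 g4
  simp only at g2 g3
  obtain ⟨k1, k2⟩ := flag_close T (T.comb X) (T.toFlag (e.i, e.c)) e.d b o1 o2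
  rw [g4] at k1 k2
  obtain ⟨_, r2, r3⟩ := rot_toFlag X T h (pi, pc) g2 g3
  have hgood := link_close X T h ρ a (T.toFlag (pi, pc)) e.d s2' k1 k2 (by
    intro q hq1 hq2
    obtain ⟨q, rfl⟩ : ∃ q', q = q' + 1 := ⟨q - 1, by omega⟩
    rw [g04_flag_succ X T h pi pc g2 g3]
    exact restOK_sound X T h ρ a ha K hK (e.d - 1) _ _ r2 r3 s3 q (by omega))
  obtain ⟨f1, f2⟩ := g04_toFlag T pi pc g2 g3
  have h9 := KInv_two X T h ρ a K hK _ _ _ hgood
  rw [f1, f2 2, f2 0] at h9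
  exact h9

lemma vsteps_sound (h : T.chk1 = true) (ρ : G →* SL(2, ℂ)) (a : V2)
    (ha : (ρ (X T.m)).1.mulVec a = a) (rel : List (List ℕ)) (hrel : ∀ r ∈ rel, evW X r = 1)
    (E : List Orb) (hE : (E.all fun o => T.orbOK rel o) = true) (S : List (ℕ × ℕ)) :
    ∀ (K : List ℕ), KInv X T ρ a K → (T.vsteps E S K).1 = true →
      KInv X T ρ a (T.vsteps E S K).2 := by
  induction S with
  | nil => intro K hK _; exact hK
  | cons s S ih =>
    obtain ⟨o, b⟩ := s
    intro K hK hs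
    rw [TD.vsteps] at hs ⊢
    have hv := vstep_sound X T h ρ a ha rel hrel E hE K hK o b
    rcases hp : T.vstep E K o b with ⟨b', K'⟩
    rw [hp] at hs hv
    simp only at hs hv ⊢
    cases b' with
    | true => exact ih K' (hv rfl) hs
    | false => simp at hs

lemma g04_evL0 (m : ℕ) : evL X (Nat.mul 2 m) = X m := by
  have h1 : Nat.mod (Nat.mul 2 m) 2 = 0 := by
    show 2 * m % 2 = 0
    omega
  have h2 : Nat.div (Nat.mul 2 m) 2 = m := by
    show 2 * m / 2 = m
    omega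
  unfold evL
  rw [h1, h2]
  try rfl

lemma g04_evL1 (m : ℕ) : evL X (Nat.add (Nat.mul 2 m) 1) = (X m)⁻¹ := by
  have h1 : Nat.mod (Nat.add (Nat.mul 2 m) 1) 2 = 1 := by
    show (2 * m + 1) % 2 = 1
    omega
  have h2 : Nat.div (Nat.add (Nat.mul 2 m) 1) 2 = m := by
    show (2 * m + 1) / 2 = m
    omega
  unfold evL
  rw [h1, h2]
  try rfl

lemma commOK_sound (rel : List (List ℕ)) (hrel : ∀ r ∈ rel, evW X r = 1) (i k l : ℕ)
    (c : List (List ℕ × ℕ)) (hc : T.commOK rel i k l c = true) :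
    evW X (T.linkW i k l).reverse * X T.m = X T.m * evW X (T.linkW i k l).reverse := by
  unfold TD.commOK at hc
  simp only at hc
  have h1 := isNil_sound _ hc
  have h2 := feedC_sound X rel hrel (feed (feed (feed (feed [] (T.linkW i k l).reverse)
    [Nat.mul 2 T.m]) (invW (T.linkW i k l).reverse)) [Nat.add (Nat.mul 2 T.m) 1]) c
  rw [h1, feed_sound, feed_sound, feed_sound, feed_sound, List.reverse_nil, evW_nil, one_mul,
    evW_invW, evW_cons, evW_cons, evW_nil, mul_one, mul_one, g04_evL0, g04_evL1] at h2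
  have h3 := (mul_inv_eq_one.1 h2.symm)
  exact mul_inv_eq_iff_eq_mul.1 h3

theorem vert_all {ρ : G →* SL(2, ℂ)} {A : ℕ → V2} {R : List Arc} {caps : List (ℕ × ℕ)}
    (F : Frame X ρ A R caps) (hm : T.m < 38) (ha : A T.m ≠ 0) (h : T.chk1 = true)
    (rel : List (List ℕ)) (hrel : ∀ r ∈ rel, evW X r = 1) (E : List Orb)
    (hE : (E.all fun o => T.orbOK rel o) = true) (S1 : List (ℕ × ℕ)) (i k l : ℕ)
    (c : List (List ℕ × ℕ)) (S2 : List (ℕ × ℕ)) (hv : T.vertOK rel E S1 i k l c S2 = true)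
    (i' : Fin (T.k + 1)) (k' l' : Fin 4) (hl : l' ≠ k') :
    GoodLink X T ρ (A T.m) i' k' l' := by
  have hfix : (ρ (X T.m)).1.mulVec (A T.m) = A T.m := by
    rw [F.hom T.m hm]
    exact PV_self _
  unfold TD.vertOK at hv
  have v1 := vsteps_sound X T h ρ (A T.m) hfix rel hrel E hE S1 [] (by intro i k l hm; simp at hm)
  rcases hp1 : T.vsteps E S1 [] with ⟨b1, K1⟩
  rw [hp1] at hv v1
  simp only at hv v1
  rw [Bool.and_eq_true, Bool.and_eq_true, Bool.and_eq_true, Bool.and_eq_true, Bool.and_eq_true] at hv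
  obtain ⟨⟨⟨w1, w2⟩, ⟨w3, w4⟩, w5⟩, w6⟩ := hv
  have hK1 := v1 w1
  have w3' := Nat.le_of_ble_eq_true w3
  have w4' := Nat.le_of_ble_eq_true w4
  have w5' := Nat.le_of_ble_eq_true w5
  have hcomm := commOK_sound X T rel hrel i k l c w2
  have hgood : GoodLink X T ρ (A T.m) ⟨i, by omega⟩ ⟨k, by omega⟩ ⟨l, by omega⟩ := by
    rw [goodLink_iff X T h]
    apply PV_comm _ _ ha
    rw [← F.hom T.m hm, ← map_mul, ← map_mul]
    exact congrArg ρ hcomm
  have hK2 := KInv_two X T h ρ (A T.m) K1 hK1 _ _ _ hgood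
  have v2 := vsteps_sound X T h ρ (A T.m) hfix rel hrel E hE S2 _ hK2
  simp only at v2
  rcases hp2 : T.vsteps E S2 (TD.linkC i k l :: T.revC i k l :: K1) with ⟨b2, K2⟩
  rw [hp2] at w6 v2
  simp only at w6 v2
  rw [Bool.and_eq_true] at w6
  obtain ⟨x1, x2⟩ := w6
  have hK3 := v2 x1
  rw [List.all_eq_true] at x2
  have x3 := x2 i'.1 (List.mem_range.2 i'.2)
  rw [List.all_eq_true] at x3
  have x4 := x3 k'.1 (List.mem_range.2 k'.2)
  rw [List.all_eq_true] at x4
  have x5 := x4 l'.1 (List.mem_range.2 l'.2)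
  rw [Bool.or_eq_true] at x5
  rcases x5 with x5 | x5
  · exact absurd (Fin.ext (Nat.eq_of_beq_eq_true x5)).symm hl
  · exact known_sound X T h ρ (A T.m) hfix K2 hK3 i' k' l' x5

end TorMut
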