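import Pool.Agent.Lib.MP_407fc5_gt.G01
import Pool.Agent.Lib.MP_407fc5_gt.G02
import Pool.Agent.Lib.MP_407fc5_gt.G04
import Pool.Agent.Lib.MP_407fc5_gt.B01

/-!
# G05: all tiles are connected (about 75 minutes)

`H = {g | (g, i₀) is connected with (1, i₀)}` is a subgroup (left translation preserves `Adj`; `Adj` is
symmetric by `comb_nb_nb`, `comb_h_h`).  `loopOK` gives `u X_f u⁻¹ ∈ H` for the arcs `f` of the loops, so
the subgroup `u⁻¹ H u` contains these `X f`; it contains all arcs of the list produced by `clos`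
(`X n = o^∓ c o^±`, `rp_sound`), hence the generators of `Frame.gen`, so `H = ⊤`.  Every tetrahedron is
reached by a path `(1, i₀) → (w, i)`, and `(g, i) = (g w⁻¹ w, i)`.
-/

namespace TorMut

open Tile Matrix MatrixGroups

variable {G : Type*} [Group G] (X : ℕ → G) (T : TD)

theorem G05_trans (C : Comb G (T.k + 1)) (g : G) (x y : G × Fin (T.k + 1))
    (h : Relation.ReflTransGen C.Adj x y) :
    Relation.ReflTransGen C.Adj (g * x.1, x.2) (g * y.1, y.2) := by
  induction h with
  | refl => exact Relation.ReflTransGen.refl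
  | tail _ hb ih =>
    refine ih.tail ?_
    obtain ⟨k, rfl⟩ := hb
    refine ⟨k, ?_⟩
    simp only [Comb.step, mul_assoc]

theorem G05_symm (h : T.chk1 = true) (x y : G × Fin (T.k + 1))
    (hxy : Relation.ReflTransGen (T.comb X).Adj x y) :
    Relation.ReflTransGen (T.comb X).Adj y x := by
  induction hxy with
  | refl => exact Relation.ReflTransGen.refl
  | @tail b c _ hb ih =>
    refine Relation.ReflTransGen.head ?_ ih
    obtain ⟨k, rfl⟩ := hb
    refine ⟨(T.comb X).s b.2 k k, ?_⟩
    have h1 := comb_nb_nb X T h b.2 k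
    have h2 := comb_h_h X T h b.2 k
    simp only [Comb.step]
    rw [h1, h2, mul_inv_cancel_right]

theorem G05_path (h : T.chk1 = true) (p : List ℕ) (i : ℕ) (hi : i ≤ T.k) (st : List ℕ)
    (hp : (p.all fun k => Nat.ble k 3) = true) :
    (T.pathGo p i st).2 ≤ T.k ∧
    Relation.ReflTransGen (T.comb X).Adj (evW X st.reverse, Fin.ofNat (T.k + 1) i)
      (evW X (T.pathGo p i st).1.reverse, Fin.ofNat (T.k + 1) (T.pathGo p i st).2) := by
  induction p generalizing i st with
  | nil => exact ⟨hi, Relation.ReflTransGen.refl⟩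
  | cons k p ih =>
    rw [List.all_cons, Bool.and_eq_true] at hp
    have hk : k ≤ 3 := Nat.le_of_ble_eq_true hp.1
    have hcod := comb_codes X T h (⟨i, by omega⟩ : Fin (T.k + 1)) (⟨k, by omega⟩ : Fin 4)
    have hnb : T.nbN i k ≤ T.k := hcod.2.1
    have h1 := ih (T.nbN i k) hnb (feed st (T.hN i k)) hp.2
    have hgo : T.pathGo (k :: p) i st = T.pathGo p (T.nbN i k) (feed st (T.hN i k)) := by
      rw [TD.pathGo, fN_eq]
    rw [hgo]
    refine ⟨h1.1, Relation.ReflTransGen.head ?_ h1.2⟩
    refine ⟨⟨k, by omega⟩, ?_⟩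
    have h2 : Fin.ofNat (T.k + 1) i = (⟨i, by omega⟩ : Fin (T.k + 1)) := by
      ext
      exact Nat.mod_eq_of_lt (by omega)
    rw [h2]
    simp only [Comb.step, TD.comb]
    rw [feed_sound]

/-- the conjugates `u g u⁻¹` are connected with the base tile -/
def G05_H (h : T.chk1 = true) (i₀ : Fin (T.k + 1)) : Subgroup G where
  carrier := {g | Relation.ReflTransGen (T.comb X).Adj (1, i₀) (g, i₀)}
  one_mem' := Relation.ReflTransGen.refl
  mul_mem' := by
    intro a b ha hb
    have h1 := G05_trans T (T.comb X) a _ _ hb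
    simp only [mul_one] at h1
    exact Relation.ReflTransGen.trans ha h1
  inv_mem' := by
    intro a ha
    have h1 := G05_trans T (T.comb X) a⁻¹ _ _ (G05_symm X T h _ _ ha)
    simp only [mul_one, inv_mul_cancel] at h1
    exact h1

theorem G05_mem (h : T.chk1 = true) (i₀ : Fin (T.k + 1)) (g : G) :
    g ∈ G05_H X T h i₀ ↔ Relation.ReflTransGen (T.comb X).Adj (1, i₀) (g, i₀) := Iff.rfl

theorem G05_loop (h : T.chk1 = true) (rel : List (List ℕ)) (hrel : ∀ r ∈ rel, evW X r = 1)
    (i0 : ℕ) (hi0 : i0 ≤ T.k) (u p : List ℕ) (a : ℕ) (c : List (List ℕ × ℕ))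
    (hl : T.loopOK rel i0 u p (Nat.mul 2 a) c = true) :
    evW X u * X a * (evW X u)⁻¹ ∈ G05_H X T h (Fin.ofNat (T.k + 1) i0) := by
  unfold TD.loopOK at hl
  have h1 := G05_path X T h p i0 hi0 []
  revert hl h1
  obtain ⟨st, i'⟩ := T.pathGo p i0 []
  intro h1 hl
  simp only [Bool.and_eq_true] at h1
  obtain ⟨⟨ha, hb⟩, hc⟩ := h1
  have h2 := (hl hb).2
  have h3 : i' = i0 := Nat.eq_of_beq_eq_true ha
  have h4 := isNil_sound _ hc
  have h5 := feedC_sound X rel hrel (feed (feed (feed st u) [flp (Nat.mul 2 a)]) (invW u)) c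
  rw [h4, feed_sound, feed_sound, feed_sound, evW_invW, evW_cons, evW_nil, evL_flp] at h5
  have h6 : evL X (Nat.mul 2 a) = X a := G01_even X a
  rw [h6, List.reverse_nil, evW_nil, mul_one] at h5
  have h7 : evW X st.reverse = evW X u * X a * (evW X u)⁻¹ := by
    have h8 : evW X st.reverse * (evW X u * (X a)⁻¹ * (evW X u)⁻¹) = 1 := by
      rw [h5]; simp only [mul_assoc]
    rw [eq_inv_of_mul_eq_one_left h8]
    group
  rw [G05_mem, ← h7]
  simp only [List.reverse_nil, evW_nil, h3] at h2
  exact h2

theorem G05_clos {ρ : G →* SL(2, ℂ)} {A : ℕ → V2} {R : List Arc} {caps : List (ℕ × ℕ)}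
    (F : Frame X ρ A R caps) (rp : List ℕ) (hrp : rpOK rp caps = true) (H : Subgroup G)
    (S : List (ℕ × Bool)) (K : List ℕ) (hK : ∀ x ∈ K, X x ∈ H)
    (hc : (TD.clos rp R S K).1 = true) : ∀ x ∈ (TD.clos rp R S K).2, X x ∈ H := by
  induction S generalizing K with
  | nil =>
    rw [TD.clos]
    exact hK
  | cons nb S ih =>
    obtain ⟨n, b⟩ := nb
    rw [TD.clos] at hc ⊢
    cases hR : R.getD n (.born 0) with
    | born k =>
      rw [hR] at hc
      exact absurd hc (by simp)
    | cross o s c =>
      rw [hR] at hc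
      have hn : n < R.length := by
        by_contra hcon
        rw [List.getD_eq_default _ _ (not_lt.1 hcon)] at hR
        exact absurd hR (by simp)
      have hR' : R[n]? = some (.cross o s c) := by
        rw [List.getD_eq_getElem _ _ hn] at hR
        rw [List.getElem?_eq_getElem hn, hR]
      have hwf := F02_wf_get R 0 F.wf n _ hR'
      rw [Nat.zero_add] at hwf
      obtain ⟨ho, hcn⟩ := F02_wf_cross hwf
      have hX := F.relX n o s c hR'
      have hn' : n < 38 := by rw [← F.len]; exact hn
      have e1 := rp_sound X rp caps F.capX hrp n hn'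
      have e2 := rp_sound X rp caps F.capX hrp o (by omega)
      have e3 := rp_sound X rp caps F.capX hrp c (by omega)
      have hany : ∀ y : ℕ, (K.any fun x => Nat.beq x y) = true → X y ∈ H := by
        intro y hy
        obtain ⟨x, hx, hxy⟩ := List.any_eq_true.1 hy
        rw [← Nat.eq_of_beq_eq_true hxy]
        exact hK x hx
      cases b with
      | true =>
        cases hb : ((K.any fun x => Nat.beq x (rp.getD o 0)) &&
            K.any fun x => Nat.beq x (rp.getD c 0)) with
        | true =>
          simp only [hb] at hc ⊢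
          rw [Bool.and_eq_true] at hb
          have ho' := hany _ hb.1
          have hc' := hany _ hb.2
          rw [e2] at ho'
          rw [e3] at hc'
          refine ih (rp.getD n 0 :: K) ?_ hc
          intro x hx
          rw [List.mem_cons] at hx
          rcases hx with rfl | hx
          · rw [e1, hX]
            cases s with
            | true => exact H.mul_mem (H.mul_mem (H.inv_mem ho') hc') ho'
            | false => exact H.mul_mem (H.mul_mem ho' hc') (H.inv_mem ho')
          · exact hK x hx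
        | false =>
          simp only [hb] at hc
          exact absurd hc (by simp)
      | false =>
        cases hb : ((K.any fun x => Nat.beq x (rp.getD o 0)) &&
            K.any fun x => Nat.beq x (rp.getD n 0)) with
        | true =>
          simp only [hb] at hc ⊢
          rw [Bool.and_eq_true] at hb
          have ho' := hany _ hb.1
          have hn'' := hany _ hb.2
          rw [e2] at ho'
          rw [e1] at hn''
          refine ih (rp.getD c 0 :: K) ?_ hc
          intro x hx
          rw [List.mem_cons] at hx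
          rcases hx with rfl | hx
          · rw [e3]
            cases s with
            | true =>
              have h1 : X c = X o * X n * (X o)⁻¹ := by
                rw [hX]; unfold opG; group
              rw [h1]
              exact H.mul_mem (H.mul_mem ho' hn'') (H.inv_mem ho')
            | false =>
              have h1 : X c = (X o)⁻¹ * X n * X o := by
                rw [hX]; unfold opG; group
              rw [h1]
              exact H.mul_mem (H.mul_mem (H.inv_mem ho') hn'') ho'
          · exact hK x hx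
        | false =>
          simp only [hb] at hc
          exact absurd hc (by simp)

theorem conn_all {ρ : G →* SL(2, ℂ)} {A : ℕ → V2} {R : List Arc} {caps : List (ℕ × ℕ)}
    (F : Frame X ρ A R caps) (h : T.chk1 = true) (rp : List ℕ) (hrp : rpOK rp caps = true)
    (rel : List (List ℕ)) (hrel : ∀ r ∈ rel, evW X r = 1) (i0 : ℕ) (hi0 : i0 ≤ T.k)
    (u : List ℕ) (loops : List (List ℕ × ℕ × List (List ℕ × ℕ))) (S : List (ℕ × Bool))
    (paths : List (List ℕ)) (hc : T.connOK rel rp R i0 u loops S paths = true) :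
    ∃ i₀ : Fin (T.k + 1), ∀ x : G × Fin (T.k + 1),
      Relation.ReflTransGen (T.comb X).Adj (1, i₀) x := by
  unfold TD.connOK at hc
  rw [Bool.and_eq_true, Bool.and_eq_true] at hc
  obtain ⟨⟨hl, hcl⟩, hpa⟩ := hc
  let H' : Subgroup G := (G05_H X T h (Fin.ofNat (T.k + 1) i0)).comap
    (MulAut.conj (evW X u)).toMonoidHom
  have hmem : ∀ g, g ∈ H' ↔ evW X u * g * (evW X u)⁻¹ ∈ G05_H X T h (Fin.ofNat (T.k + 1) i0) := by
    intro g
    exact Iff.rfl
  have hK : ∀ x ∈ loops.map fun l => l.2.1, X x ∈ H' := by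
    intro x hx
    obtain ⟨l, hl1, rfl⟩ := List.mem_map.1 hx
    rw [hmem]
    exact G05_loop X T h rel hrel i0 hi0 u l.1 l.2.1 l.2.2 (List.all_eq_true.1 hl l hl1)
  have hclos := G05_clos X F rp hrp H' S (loops.map fun l => l.2.1) hK
  revert hcl hclos
  obtain ⟨b, K⟩ := TD.clos rp R S (loops.map fun l => l.2.1)
  intro hcl hclos
  simp only [Bool.and_eq_true] at hcl
  have hgen : H' = ⊤ := by
    rw [eq_top_iff, ← F.gen, Subgroup.closure_le]
    rintro g ⟨f, hf, rfl⟩
    have h1 := List.all_eq_true.1 hcl.2 f hf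
    obtain ⟨x, hx, hxy⟩ := List.any_eq_true.1 h1
    have h2 := hclos hcl.1 x hx
    rw [Nat.eq_of_beq_eq_true hxy, rp_sound X rp caps F.capX hrp f ?_] at h2
    · exact h2
    · have h3 : ∀ f ∈ ([0, 1, 2, 9, 10] : List ℕ), f < 38 := by decide
      exact h3 f hf
  have hall : ∀ g : G, g ∈ G05_H X T h (Fin.ofNat (T.k + 1) i0) := by
    intro g
    have h1 : (evW X u)⁻¹ * g * evW X u ∈ H' := by
      rw [hgen]; exact Subgroup.mem_top _
    rw [hmem] at h1
    have h2 : evW X u * ((evW X u)⁻¹ * g * evW X u) * (evW X u)⁻¹ = g := by group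
    rw [h2] at h1
    exact h1
  refine ⟨Fin.ofNat (T.k + 1) i0, ?_⟩
  rintro ⟨g, i⟩
  have h1 := List.all_eq_true.1 hpa i.1 (List.mem_range.2 i.2)
  rw [Bool.and_eq_true] at h1
  have h2 := (G05_path X T h (paths.getD i.1 []) i0 hi0 [] h1.1).2
  have h3 : (T.pathGo (paths.getD i.1 []) i0 []).2 = i.1 := Nat.eq_of_beq_eq_true h1.2
  have h4 : Fin.ofNat (T.k + 1) i.1 = i := by
    ext
    exact Nat.mod_eq_of_lt i.2
  rw [h3, h4, List.reverse_nil, evW_nil] at h2
  have h5 := G05_trans T (T.comb X)
    (g * (evW X (T.pathGo (paths.getD i.1 []) i0 []).1.reverse)⁻¹) _ _ h2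
  simp only [mul_one, inv_mul_cancel_right] at h5
  exact Relation.ReflTransGen.trans (hall _) h5

end TorMut
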