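import Pool.Agent.Lib.MP_407fc5_gt.G01
import Pool.Agent.Lib.MP_407fc5_gt.B04

/-!
# G06: all vertices are equivalent to the vector `(1, 0)` (about 40 minutes)

Along the chain of arcs the vectors `A f` are equal to `± ρ(g) ![1, 0]`: for an arc `n = cross o s c`
one has `A n = opV s (A o) (A c) = ρ (X o)^∓ A c` (`opV_true`, `opV_false`, `Frame.hom`), for a minimum
`X f = X g`, so `PV (A f) = PV (A g)` and `A f = ± A g` (`PV_inj`); the chain begins with the arc `0`
and ends with the base arc `T.m`.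
-/

namespace TorMut

open Tile Matrix MatrixGroups

variable {G : Type*} [Group G] (X : ℕ → G) (T : TD)

/-- equivalent to `![1, 0]` up to sign -/
def G06Q {G : Type*} [Group G] (ρ : G →* SL(2, ℂ)) (a : V2) : Prop :=
  ∃ g : G, a = (ρ g).1.mulVec ![1, 0] ∨ a = -(ρ g).1.mulVec ![1, 0]

theorem G06_mul {ρ : G →* SL(2, ℂ)} (g h : G) (v : V2) :
    (ρ g).1.mulVec ((ρ h).1.mulVec v) = (ρ (g * h)).1.mulVec v := by
  rw [map_mul, B04_mul_mulVec]

theorem G06_smul {ρ : G →* SL(2, ℂ)} (h : G) {a : V2} (ha : G06Q ρ a) :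
    G06Q ρ ((ρ h).1.mulVec a) := by
  obtain ⟨g, hg | hg⟩ := ha
  · exact ⟨h * g, Or.inl (by rw [hg, G06_mul])⟩
  · exact ⟨h * g, Or.inr (by rw [hg, ← G06_mul, Matrix.mulVec_neg])⟩

theorem G06_neg {ρ : G →* SL(2, ℂ)} {a : V2} (ha : G06Q ρ a) : G06Q ρ (-a) := by
  obtain ⟨g, hg | hg⟩ := ha
  · exact ⟨g, Or.inr (by rw [hg])⟩
  · exact ⟨g, Or.inl (by rw [hg, neg_neg])⟩

theorem G06_inv {ρ : G →* SL(2, ℂ)} (h : G) {a b : V2} (hab : a = (ρ h).1.mulVec b)
    (ha : G06Q ρ a) : G06Q ρ b := by
  have h1 : b = (ρ h⁻¹).1.mulVec a := by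
    rw [hab, G06_mul, inv_mul_cancel, map_one, B04_one_mulVec]
  rw [h1]
  exact G06_smul h⁻¹ ha

/-- one arc is the image of the next one under an element of the group -/
theorem G06_cross {ρ : G →* SL(2, ℂ)} {A : ℕ → V2} {R : List Arc} {caps : List (ℕ × ℕ)}
    (F : Frame X ρ A R caps) {n : ℕ} (hn : n < 38) {o : ℕ} {s : Bool} {c : ℕ}
    (hr : R.getD n (.born 0) = .cross o s c) : ∃ h : G, A n = (ρ h).1.mulVec (A c) := by
  have hlen : n < R.length := by rw [F.len]; exact hn
  have h1 : R[n]? = some (.cross o s c) := by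
    rw [List.getD_eq_getElem _ _ hlen] at hr
    rw [List.getElem?_eq_getElem hlen, hr]
  have hwf := F02_wf_get R 0 F.wf n _ h1
  rw [Nat.zero_add] at hwf
  obtain ⟨ho, hc⟩ := F02_wf_cross hwf
  have h2 := F.relA n o s c h1
  have h3 := F.hom o (by omega)
  cases s with
  | true =>
    refine ⟨(X o)⁻¹, ?_⟩
    rw [h2, opV_true, map_inv, h3]
  | false =>
    refine ⟨X o, ?_⟩
    rw [h2, opV_false, h3]

theorem G06_chain (P : ℕ → Prop) (R : List Arc) (caps : List (ℕ × ℕ))
    (hstep : ∀ f g, ((match R.getD f (.born 0) with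
      | .born _ => false
      | .cross _ _ c => Nat.beq c g && Nat.ble f 37) ||
     (match R.getD g (.born 0) with
      | .born _ => false
      | .cross _ _ c => Nat.beq c f && Nat.ble g 37) ||
     caps.any fun c => (Nat.beq c.1 f && Nat.beq c.2 g) || (Nat.beq c.2 f && Nat.beq c.1 g)) =
      true → P f → P g) (chain : List ℕ) (hch : TD.chainOK R caps chain = true) :
    ∀ x, chain.head? = some x → P x → ∀ y, chain.getLast? = some y → P y := by
  induction chain with
  | nil =>
    intro x hx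
    exact absurd hx (by simp)
  | cons f chain ih =>
    cases chain with
    | nil =>
      intro x hx hP y hy
      have h1 : f = x := by simpa using hx
      have h2 : f = y := by simpa using hy
      rw [← h2, h1]
      exact hP
    | cons g l =>
      intro x hx hP y hy
      have h1 : f = x := by simpa using hx
      rw [TD.chainOK, Bool.and_eq_true] at hch
      rw [List.getLast?_cons_cons] at hy
      exact ih hch.2 g rfl (hstep f g hch.1 (by rw [h1]; exact hP)) y hy

theorem cusp_all {ρ : G →* SL(2, ℂ)} {A : ℕ → V2} {R : List Arc} {caps : List (ℕ × ℕ)}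
    (F : Frame X ρ A R caps) (hcaps : ∀ c ∈ caps, c.1 < 38 ∧ c.2 < 38) (chain : List ℕ)
    (hch : TD.chainOK R caps chain = true) (h0 : chain.head? = some 0)
    (hm : chain.getLast? = some T.m) (i : Fin (T.k + 1)) (k : Fin 4) :
    ∃ g : G, T.vtx X ρ (A T.m) i k = (ρ g).1.mulVec ![1, 0] ∨
      T.vtx X ρ (A T.m) i k = -(ρ g).1.mulVec ![1, 0] := by
  have hcap : ∀ f g, f < 38 → g < 38 → X f = X g → G06Q ρ (A f) → G06Q ρ (A g) := by
    intro f g hf hg hX hQ
    have h1 : PV (A f) = PV (A g) := by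
      rw [← F.hom f hf, ← F.hom g hg, hX]
    rcases PV_inj _ _ h1 with h2 | h2
    · rw [← h2]
      exact hQ
    · have h3 : A g = -A f := by rw [h2, neg_neg]
      rw [h3]
      exact G06_neg hQ
  have h1 : G06Q ρ (A T.m) := by
    refine G06_chain (fun f => G06Q ρ (A f)) R caps ?_ chain hch 0 h0 ?_ T.m hm
    · intro f g hfg hQ
      rw [Bool.or_eq_true, Bool.or_eq_true] at hfg
      rcases hfg with (hfg | hfg) | hfg
      · cases hR : R.getD f (.born 0) with
        | born k =>
          rw [hR] at hfg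
          exact absurd hfg (by simp)
        | cross o s c =>
          rw [hR] at hfg
          obtain ⟨h2, h3⟩ := (Bool.and_eq_true _ _ ▸ hfg : _ ∧ _)
          have hf : f < 38 := Nat.lt_succ_of_le (Nat.le_of_ble_eq_true h3)
          obtain ⟨h, hh⟩ := G06_cross X F hf hR
          rw [Nat.eq_of_beq_eq_true h2] at hh
          exact G06_inv h hh hQ
      · cases hR : R.getD g (.born 0) with
        | born k =>
          rw [hR] at hfg
          exact absurd hfg (by simp)
        | cross o s c =>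
          rw [hR] at hfg
          obtain ⟨h2, h3⟩ := (Bool.and_eq_true _ _ ▸ hfg : _ ∧ _)
          have hg : g < 38 := Nat.lt_succ_of_le (Nat.le_of_ble_eq_true h3)
          obtain ⟨h, hh⟩ := G06_cross X F hg hR
          rw [Nat.eq_of_beq_eq_true h2] at hh
          rw [hh]
          exact G06_smul h hQ
      · obtain ⟨c, hc, h2⟩ := List.any_eq_true.1 hfg
        rw [Bool.or_eq_true, Bool.and_eq_true, Bool.and_eq_true] at h2
        have hX := F.capX c hc
        obtain ⟨k1, k2⟩ := hcaps c hc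
        rcases h2 with ⟨h3, h4⟩ | ⟨h3, h4⟩
        · rw [← Nat.eq_of_beq_eq_true h3] at hQ
          rw [← Nat.eq_of_beq_eq_true h4]
          exact hcap _ _ k1 k2 hX hQ
        · rw [← Nat.eq_of_beq_eq_true h3] at hQ
          rw [← Nat.eq_of_beq_eq_true h4]
          exact hcap _ _ k2 k1 hX.symm hQ
    · refine ⟨1, Or.inl ?_⟩
      rw [F.base, map_one, B04_one_mulVec]
  exact G06_smul (evW X (T.WN i.1 k.1)) h1

end TorMut
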