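import Pool.Agent.Lib.MP_407fc5_gt.FDefs

/-!
# MP_407fc5_gt, part G: words, certificates, triangulations (definitions)

Words in the meridians `X f` of the arcs are lists of codes, `2 f` for `X f` and `2 f + 1` for
`(X f)⁻¹`.  A certificate is a list of pairs `(u, j)`,
    which stand for the conjugate `u r u⁻¹` of the
relator number `j / 2` (`j` even) or of its inverse (`j` odd).  All functions are evaluated by the
kernel.
-/

namespace TorMut

open Tile Matrix MatrixGroups

/-! ### words -/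

def evL {G : Type*} [Group G] (X : ℕ → G) (a : ℕ) : G :=
  match Nat.beq (Nat.mod a 2) 0 with
  | true => X (Nat.div a 2)
  | false => (X (Nat.div a 2))⁻¹

def evW {G : Type*} [Group G] (X : ℕ → G) (w : List ℕ) : G := (w.map (evL X)).prod

def flp (a : ℕ) : ℕ := Nat.xor a 1

def invW (w : List ℕ) : List ℕ := (w.map flp).reverse

/-- feed letters into a stack (the last letter is the head) and cancel -/
def feed : List ℕ → List ℕ → List ℕ
  | st, [] => st
  | [], a :: w => feed [a] w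
  | b :: st, a :: w =>
    match Nat.beq b (flp a) with
    | true => feed st w
    | false => feed (a :: b :: st) w

def getR (rel : List (List ℕ)) (j : ℕ) : List ℕ :=
  match Nat.beq (Nat.mod j 2) 0 with
  | true => rel.getD (Nat.div j 2) []
  | false => invW (rel.getD (Nat.div j 2) [])

def feedC (rel : List (List ℕ)) : List ℕ → List (List ℕ × ℕ) → List ℕ
  | st, [] => st
  | st, (u, j) :: c => feedC rel (feed (feed (feed st u) (getR rel j)) (invW u)) c

def isNil : List ℕ → Bool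
  | [] => true
  | _ :: _ => false

/-- the word `w` followed by the certificate is freely trivial -/
def certG (rel : List (List ℕ)) (w : List ℕ) (c : List (List ℕ × ℕ)) : Bool :=
  isNil (feedC rel (feed [] w) c)

/-! ### relators of the arcs -/

/-- the relator of the arc number `n`; `rp` is the table of the representatives of the arcs -/
def relA (rp : List ℕ) (n : ℕ) : Arc → List ℕ
  | .born _ => []
  | .cross o true c =>
    [Nat.add (Nat.mul 2 (rp.getD n 0)) 1, Nat.add (Nat.mul 2 (rp.getD o 0)) 1,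
      Nat.mul 2 (rp.getD c 0), Nat.mul 2 (rp.getD o 0)]
  | .cross o false c =>
    [Nat.add (Nat.mul 2 (rp.getD n 0)) 1, Nat.mul 2 (rp.getD o 0),
      Nat.mul 2 (rp.getD c 0), Nat.add (Nat.mul 2 (rp.getD o 0)) 1]

def relL (rp : List ℕ) : ℕ → List Arc → List (List ℕ)
  | _, [] => []
  | n, r :: R => relA rp n r :: relL rp (n + 1) R

/-- `rp` identifies only arcs which are joined by a minimum -/
def rpOK (rp : List ℕ) (caps : List (ℕ × ℕ)) : Bool :=
  (List.range 38).all fun f => Nat.beq (rp.getD f 0) f ||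
    caps.any fun c => (Nat.beq c.1 f && Nat.beq c.2 (rp.getD f 0)) ||
      (Nat.beq c.2 f && Nat.beq c.1 (rp.getD f 0))

/-! ### permutations of four letters -/

/-- the 24 permutations, even ones first; the number `a + 4 b + 16 c` stands for
`swap 0 a * swap 1 b * swap 2 c` -/
def pmC : List ℕ :=
  [36, 56, 60, 53, 41, 45, 42, 54, 46, 47, 55, 43, 52, 40, 44, 37, 57, 61, 58, 38, 62, 63, 39, 59]

/-- values of the permutations -/
def pmT : List (List ℕ) :=
  [[0, 1, 2, 3], [0, 2, 3, 1], [0, 3, 1, 2], [1, 0, 3, 2], [1, 2, 0, 3], [1, 3, 2, 0], [2, 0, 1,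
    3], [2, 1, 3, 0], [2, 3, 0, 1], [3, 0, 2, 1], [3, 1, 0, 2], [3, 2, 1, 0], [0, 1, 3, 2], [0,
    2, 1, 3], [0, 3, 2, 1], [1, 0, 2, 3], [1, 2, 3, 0], [1, 3, 0, 2], [2, 0, 3, 1], [2, 1, 0, 3],
    [2, 3, 1, 0], [3, 0, 1, 2], [3, 1, 2, 0], [3, 2, 0, 1]]

/-- multiplication table -/
def mulT : List (List ℕ) :=
  [[0, 1, 2, 3, 4, 5, 6, 7, 8, 9, 10, 11, 12, 13, 14, 15, 16, 17, 18, 19, 20, 21, 22, 23],
  [1, 2, 0, 6, 8, 7, 9, 11, 10, 3, 4, 5, 13, 14, 12, 18, 20, 19, 21, 23, 22, 15, 16, 17],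
  [2, 0, 1, 9, 10, 11, 3, 5, 4, 6, 8, 7, 14, 12, 13, 21, 22, 23, 15, 17, 16, 18, 20, 19],
  [3, 5, 4, 0, 2, 1, 10, 9, 11, 7, 6, 8, 15, 17, 16, 12, 14, 13, 22, 21, 23, 19, 18, 20],
  [4, 3, 5, 7, 6, 8, 0, 1, 2, 10, 11, 9, 16, 15, 17, 19, 18, 20, 12, 13, 14, 22, 23, 21],
  [5, 4, 3, 10, 11, 9, 7, 8, 6, 0, 2, 1, 17, 16, 15, 22, 23, 21, 19, 20, 18, 12, 14, 13],
  [6, 7, 8, 1, 0, 2, 4, 3, 5, 11, 9, 10, 18, 19, 20, 13, 12, 14, 16, 15, 17, 23, 21, 22],
  [7, 8, 6, 4, 5, 3, 11, 10, 9, 1, 0, 2, 19, 20, 18, 16, 17, 15, 23, 22, 21, 13, 12, 14],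
  [8, 6, 7, 11, 9, 10, 1, 2, 0, 4, 5, 3, 20, 18, 19, 23, 21, 22, 13, 14, 12, 16, 17, 15],
  [9, 11, 10, 2, 1, 0, 8, 6, 7, 5, 3, 4, 21, 23, 22, 14, 13, 12, 20, 18, 19, 17, 15, 16],
  [10, 9, 11, 5, 3, 4, 2, 0, 1, 8, 7, 6, 22, 21, 23, 17, 15, 16, 14, 12, 13, 20, 19, 18],
  [11, 10, 9, 8, 7, 6, 5, 4, 3, 2, 1, 0, 23, 22, 21, 20, 19, 18, 17, 16, 15, 14, 13, 12],
  [12, 14, 13, 15, 17, 16, 21, 22, 23, 18, 19, 20, 0, 2, 1, 3, 5, 4, 9, 10, 11, 6, 7, 8],
  [13, 12, 14, 18, 19, 20, 15, 16, 17, 21, 23, 22, 1, 0, 2, 6, 7, 8, 3, 4, 5, 9, 11, 10],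
  [14, 13, 12, 21, 23, 22, 18, 20, 19, 15, 17, 16, 2, 1, 0, 9, 11, 10, 6, 8, 7, 3, 5, 4],
  [15, 16, 17, 12, 13, 14, 19, 18, 20, 22, 21, 23, 3, 4, 5, 0, 1, 2, 7, 6, 8, 10, 9, 11],
  [16, 17, 15, 19, 20, 18, 22, 23, 21, 12, 13, 14, 4, 5, 3, 7, 8, 6, 10, 11, 9, 0, 1, 2],
  [17, 15, 16, 22, 21, 23, 12, 14, 13, 19, 20, 18, 5, 3, 4, 10, 9, 11, 0, 2, 1, 7, 8, 6],
  [18, 20, 19, 13, 14, 12, 23, 21, 22, 16, 15, 17, 6, 8, 7, 1, 2, 0, 11, 9, 10, 4, 3, 5],
  [19, 18, 20, 16, 15, 17, 13, 12, 14, 23, 22, 21, 7, 6, 8, 4, 3, 5, 1, 0, 2, 11, 10, 9],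
  [20, 19, 18, 23, 22, 21, 16, 17, 15, 13, 14, 12, 8, 7, 6, 11, 10, 9, 4, 5, 3, 1, 2, 0],
  [21, 22, 23, 14, 12, 13, 17, 15, 16, 20, 18, 19, 9, 10, 11, 2, 0, 1, 5, 3, 4, 8, 6, 7],
  [22, 23, 21, 17, 16, 15, 20, 19, 18, 14, 12, 13, 10, 11, 9, 5, 4, 3, 8, 7, 6, 2, 0, 1],
  [23, 21, 22, 20, 18, 19, 14, 13, 12, 17, 16, 15, 11, 9, 10, 8, 6, 7, 2, 1, 0, 5, 4, 3]]

/-- the permutation with the number `c` -/
def pm (c : ℕ) : Equiv.Perm (Fin 4) :=
  let x := pmC.getD c 0
  Equiv.swap 0 (Fin.ofNat 4 x) * Equiv.swap 1 (Fin.ofNat 4 (x / 4)) *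
    Equiv.swap 2 (Fin.ofNat 4 (x / 16))

def pmV (c j : ℕ) : ℕ := (pmT.getD c []).getD j 0

def pmM (c d : ℕ) : ℕ := (mulT.getD c []).getD d 0

/-- the number of the transposition of `2` and `3` -/
def sw23 : ℕ := 12

/-! ### triangulations -/

/-- combinatorial data; there are `k + 1` tetrahedra -/
structure TD where
  k : ℕ
  nb : List (List ℕ)
  s : List (List ℕ)
  h : List (List (List ℕ))
  W : List (List (List ℕ))
  m : ℕ

namespace TD

def nbN (T : TD) (i k : ℕ) : ℕ := (T.nb.getD i []).getD k 0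
def sN (T : TD) (i k : ℕ) : ℕ := (T.s.getD i []).getD k 0
def hN (T : TD) (i k : ℕ) : List ℕ := (T.h.getD i []).getD k []
def WN (T : TD) (i k : ℕ) : List ℕ := (T.W.getD i []).getD k []

/-- the combinatorial data of the tiling theorem -/
def comb {G : Type*} [Group G] (T : TD) (X : ℕ → G) : Comb G (T.k + 1) where
  nb i k := Fin.ofNat (T.k + 1) (T.nbN i.1 k.1)
  h i k := evW X (T.hN i.1 k.1)
  s i k := pm (T.sN i.1 k.1)

/-- the vertices -/
noncomputable def vtx {G : Type*} [Group G] (T : TD) (X : ℕ → G) (ρ : G →* SL(2, ℂ)) (a : V2)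
    (i : Fin (T.k + 1)) (k : Fin 4) : V2 :=
  (ρ (evW X (T.WN i.1 k.1))).1.mulVec a

/-- the neighbour relation is symmetric, the labels are inverse to each other, orientation -/
def chk1 (T : TD) : Bool :=
  (List.range (T.k + 1)).all fun i => (List.range 4).all fun k =>
    Nat.ble (T.nbN i k) T.k && Nat.ble 12 (T.sN i k) && Nat.ble (T.sN i k) 23 &&
    Nat.beq (T.nbN (T.nbN i k) (pmV (T.sN i k) k)) i &&
    Nat.beq (pmM (T.sN (T.nbN i k) (pmV (T.sN i k) k)) (T.sN i k)) 0 &&
    isNil (feed (feed [] (T.hN i k)) (T.hN (T.nbN i k) (pmV (T.sN i k) k)))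

/-- next flag when rotating about an edge; a flag is a pair (tetrahedron, code of a permutation) -/
def rotN (T : TD) (f : ℕ × ℕ) : ℕ × ℕ :=
  (T.nbN f.1 (pmV f.2 2), pmM (pmM (T.sN f.1 (pmV f.2 2)) f.2) sw23)

/-- rotate `d` times, feeding the labels into the stack -/
def edgeGo (T : TD) : ℕ → ℕ → ℕ → List ℕ → List ℕ × ℕ × ℕ
  | 0, i, c, st => (st, i, c)
  | d + 1, i, c, st =>
    fN (T.nbN i (pmV c 2)) fun i' => fN (pmM (pmM (T.sN i (pmV c 2)) c) sw23) fun c' =>
      edgeGo T d i' c' (feed st (T.hN i (pmV c 2)))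

/-- flags met when rotating `d` times, encoded as `12 i + c` -/
def orbL (T : TD) : ℕ → ℕ → ℕ → List ℕ
  | 0, _, _ => []
  | d + 1, i, c =>
    fN (T.nbN i (pmV c 2)) fun i' => fN (pmM (pmM (T.sN i (pmV c 2)) c) sw23) fun c' =>
      Nat.add (Nat.mul 12 i) c :: orbL T d i' c'

end TD

/-- an edge: first flag `(i, c)`, number `d` of the flags, number `r` of partial products with
positive imaginary part, certificate for the product of the labels -/
structure Orb where
  i : ℕ
  c : ℕ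
  d : ℕ
  r : ℕ
  cert : List (List ℕ × ℕ)

/-- a frame for a knot group `G`: the meridians `X f` of the 38 arcs, a representation `ρ` with
`ρ (X f) = PV (A f)`; `caps` are the pairs of arcs joined by the minima -/
structure Frame {G : Type*} [Group G] (X : ℕ → G) (ρ : G →* SL(2, ℂ)) (A : ℕ → V2)
    (R : List Arc) (caps : List (ℕ × ℕ)) : Prop where
  len : R.length = 38
  wf : wfR 0 R = true
  relX : ∀ (n o : ℕ) (s : Bool) (c : ℕ), R[n]? = some (.cross o s c) → X n = opG s (X o) (X c)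
  relA : ∀ (n o : ℕ) (s : Bool) (c : ℕ), R[n]? = some (.cross o s c) → A n = opV s (A o) (A c)
  capX : ∀ c ∈ caps, X c.1 = X c.2
  hom : ∀ f, f < 38 → ρ (X f) = PV (A f)
  gen : Subgroup.closure {g : G | ∃ f ∈ ([0, 1, 2, 9, 10] : List ℕ), g = X f} = ⊤
  base : A 0 = ![1, 0]

namespace TD

/-- the flag with the given code -/
def toFlag (T : TD) (f : ℕ × ℕ) : Fin (T.k + 1) × Equiv.Perm (Fin 4) :=
  (Fin.ofNat (T.k + 1) f.1, pm f.2)

/-- the edge closes up -/
def orbOK (T : TD) (rel : List (List ℕ)) (o : Orb) : Bool :=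
  match edgeGo T o.d o.i o.c [] with
  | (st, i', c') => Nat.beq i' o.i && Nat.beq c' o.c && Nat.ble o.i T.k && Nat.ble o.c 11 &&
      isNil (feedC rel st o.cert) && Nat.ble 1 o.r && Nat.ble (o.r + 2) o.d

/-- every flag belongs to an edge of the list -/
def covOK (T : TD) (E : List Orb) : Bool :=
  let L := E.map fun o => T.orbL o.d o.i o.c
  (List.range (12 * (T.k + 1))).all fun x => L.any fun l => l.any fun y => Nat.beq x y

/-! ### the vertices of neighbouring tetrahedra -/

/-- the word which has to fix the base vector up to sign, as a stack -/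
def linkW (T : TD) (i k l : ℕ) : List ℕ :=
  feed (feed (feed [] (invW (T.WN i l))) (T.hN i k)) (T.WN (T.nbN i k) (pmV (T.sN i k) l))

/-- a power of the base letter -/
def powOK (T : TD) (st : List ℕ) : Bool :=
  st.all (fun a => Nat.beq a (Nat.mul 2 T.m)) || st.all (fun a => Nat.beq a (Nat.add (Nat.mul 2 T.m) 1))

def linkC (i k l : ℕ) : ℕ := Nat.add (Nat.mul 16 i) (Nat.add (Nat.mul 4 k) l)

/-- the link `(i, k, l)` is a power of the base letter or in the list `K` -/
def known (T : TD) (K : List ℕ) (i k l : ℕ) : Bool :=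
  (K.any fun x => Nat.beq x (linkC i k l)) || T.powOK (T.linkW i k l)

/-- the code of the opposite link -/
def revC (T : TD) (i k l : ℕ) : ℕ :=
  linkC (T.nbN i k) (pmV (T.sN i k) k) (pmV (T.sN i k) l)

/-- the links of the flags number `1, …, d - 1` are known, where we start with the flag `(i, c)`
number `1` -/
def restOK (T : TD) (K : List ℕ) : ℕ → ℕ → ℕ → Bool
  | 0, _, _ => true
  | d + 1, i, c =>
    fN (T.nbN i (pmV c 2)) fun i' => fN (pmM (pmM (T.sN i (pmV c 2)) c) sw23) fun c' =>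
      T.known K i (pmV c 2) (pmV c 0) && restOK T K d i' c'

/-- one step of the closure: the links of all flags around the edge except the flag number `a` are
known; then the remaining one is known -/
def vstep (T : TD) (E : List Orb) (K : List ℕ) (o a : ℕ) : Bool × List ℕ :=
  let e := E.getD o ⟨0, 0, 0, 0, []⟩
  match edgeGo T a e.i e.c [] with
  | (_, i, c) =>
    (Nat.ble o (E.length - 1) && Nat.ble 1 e.d && restOK T K (e.d - 1) (T.rotN (i,
    c)).1 (T.rotN (i, c)).2,
      linkC i (pmV c 2) (pmV c 0) :: T.revC i (pmV c 2) (pmV c 0) :: K)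

/-- the list of known links after some steps -/
def vsteps (T : TD) (E : List Orb) : List (ℕ × ℕ) → List ℕ → Bool × List ℕ
  | [], K => (true, K)
  | (o, a) :: S, K =>
    match vstep T E K o a with
    | (b, K') => match b with
      | true => vsteps T E S K'
      | false => (false, K')

/-- certificate for the commutator of the word of a link with the base letter -/
def commOK (T : TD) (rel : List (List ℕ)) (i k l : ℕ) (c : List (List ℕ × ℕ)) : Bool :=
  let z := (T.linkW i k l).reverse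
  isNil (feedC rel (feed (feed (feed (feed [] z) [Nat.mul 2 T.m]) (invW z))
    [Nat.add (Nat.mul 2 T.m) 1]) c)

/-- all vertices of neighbouring tetrahedra agree up to sign: closure steps `S1`, one commutator,
closure steps `S2` -/
def vertOK (T : TD) (rel : List (List ℕ)) (E : List Orb) (S1 : List (ℕ × ℕ)) (i k l : ℕ)
    (c : List (List ℕ × ℕ)) (S2 : List (ℕ × ℕ)) : Bool :=
  match vsteps T E S1 [] with
  | (b1, K1) => b1 && T.commOK rel i k l c && (Nat.ble i T.k && Nat.ble k 3 && Nat.ble l 3) &&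
    match vsteps T E S2 (linkC i k l :: T.revC i k l :: K1) with
    | (b2, K2) => b2 && (List.range (T.k + 1)).all fun i => (List.range 4).all fun k =>
        (List.range 4).all fun l => Nat.beq k l || T.known K2 i k l

/-! ### connectedness -/

/-- follow a path of faces, feeding the labels into the stack -/
def pathGo (T : TD) : List ℕ → ℕ → List ℕ → List ℕ × ℕ
  | [], i, st => (st, i)
  | k :: p, i, st => fN (T.nbN i k) fun i' => pathGo T p i' (feed st (T.hN i k))

/-- a loop at the base tetrahedron whose label is `u a u⁻¹` -/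
def loopOK (T : TD) (rel : List (List ℕ)) (i0 : ℕ) (u : List ℕ) (p : List ℕ) (a : ℕ)
    (c : List (List ℕ × ℕ)) : Bool :=
  match pathGo T p i0 [] with
  | (st, i') => Nat.beq i' i0 && (p.all fun k => Nat.ble k 3) &&
      isNil (feedC rel (feed (feed (feed st u) [flp a]) (invW u)) c)

/-- the closure of a set of arcs: `(n, true)` adds the arc `n`, `(n,
    false)` adds the arc under which
`n` begins -/
def clos (rp : List ℕ) (R : List Arc) : List (ℕ × Bool) → List ℕ → Bool × List ℕ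
  | [], K => (true, K)
  | (n, b) :: S, K =>
    match R.getD n (.born 0) with
    | .born _ => (false, K)
    | .cross o _ c =>
      match b with
      | true => match (K.any fun x => Nat.beq x (rp.getD o 0)) && K.any fun x => Nat.beq x (rp.getD c 0) with
        | true => clos rp R S (rp.getD n 0 :: K)
        | false => (false, K)
      | false => match (K.any fun x => Nat.beq x (rp.getD o 0)) && K.any fun x => Nat.beq x (rp.getD n 0) with
        | true => clos rp R S (rp.getD c 0 :: K)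
        | false => (false, K)

/-- the loops generate the group and all tetrahedra can be reached -/
def connOK (T : TD) (rel : List (List ℕ)) (rp : List ℕ) (R : List Arc) (i0 : ℕ) (u : List ℕ)
    (loops : List (List ℕ × ℕ × List (List ℕ × ℕ))) (S : List (ℕ × Bool))
    (paths : List (List ℕ)) : Bool :=
  (loops.all fun l => T.loopOK rel i0 u l.1 (Nat.mul 2 l.2.1) l.2.2) &&
  (match clos rp R S (loops.map fun l => l.2.1) with
    | (b, K) => b && ([0, 1, 2, 9, 10].all fun f => K.any fun x => Nat.beq x (rp.getD f 0))) &&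
  (List.range (T.k + 1)).all fun i =>
    ((paths.getD i []).all fun k => Nat.ble k 3) &&
      Nat.beq (T.pathGo (paths.getD i []) i0 []).2 i

/-- a chain of arcs along the knot from the arc `0` to the base arc -/
def chainOK (R : List Arc) (caps : List (ℕ × ℕ)) : List ℕ → Bool
  | [] => false
  | [_] => true
  | f :: g :: l =>
    ((match R.getD f (.born 0) with
      | .born _ => false
      | .cross _ _ c => Nat.beq c g && Nat.ble f 37) ||
     (match R.getD g (.born 0) with
      | .born _ => false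
      | .cross _ _ c => Nat.beq c f && Nat.ble g 37) ||
     caps.any fun c => (Nat.beq c.1 f && Nat.beq c.2 g) || (Nat.beq c.2 f && Nat.beq c.1 g)) &&
    chainOK R caps (g :: l)

end TD

end TorMut
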