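import Pool.Agent.Lib.MP_407fc5_gt.Hyp

/-!
# MP_407fc5_gt: the statement (the conjecture is false)
-/

namespace TorMut

open Matrix MatrixGroups

/-- **Negation of the conjecture.**  There are two hyperbolic knots which are not mutants and have
the same hyperbolic torsion polynomial: for the lifts `α₁`, `α₂` (with meridian trace `2`) of the
holonomy representations, Wada's invariants agree as functions of `t`, and they do not vanish
identically. -/
def Goal : Prop :=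
  ∃ (D₁ D₂ : Word) (α₁ : LinkGroup D₁ →* SL(2, ℂ)) (α₂ : LinkGroup D₂ →* SL(2, ℂ))
    (φ₁ : LinkGroup D₁ →* Multiplicative ℤ) (φ₂ : LinkGroup D₂ →* Multiplicative ℤ),
    IsKnot D₁ ∧ IsKnot D₂ ∧ IsHolonomyLift D₁ α₁ ∧ IsHolonomyLift D₂ α₂ ∧
    Function.Surjective φ₁ ∧ Function.Surjective φ₂ ∧
    (∀ t : ℂˣ, wada D₁ α₁ φ₁ t = wada D₂ α₂ φ₂ t) ∧
    (∃ t : ℂˣ, t ≠ 1 ∧ wada D₁ α₁ φ₁ t ≠ 0) ∧
    ¬ Mutants D₁ D₂

end TorMut
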