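import Pool.Agent.Lib.MP_407fc5_gt.Defs

/-!
# MP_407fc5_gt: holonomy representations and the hyperbolic torsion polynomial
-/

namespace TorMut

open Matrix MatrixGroups

/-! ## The affine group and the Fox Jacobian -/

/-- affine transformations `x ↦ lin x + tr` of the plane `F²` -/
@[ext] structure Aff (F : Type*) [Field F] where
  lin : GL (Fin 2) F
  tr : Fin 2 → F

namespace Aff
variable {F : Type*} [Field F]

instance : Mul (Aff F) := ⟨fun a b => ⟨a.lin * b.lin, a.tr + a.lin.1.mulVec b.tr⟩⟩
instance : One (Aff F) := ⟨⟨1, 0⟩⟩
instance : Inv (Aff F) := ⟨fun a => ⟨a.lin⁻¹, -((a.lin⁻¹).1.mulVec a.tr)⟩⟩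

@[simp] lemma mul_lin (a b : Aff F) : (a * b).lin = a.lin * b.lin := rfl
@[simp] lemma mul_tr (a b : Aff F) : (a * b).tr = a.tr + a.lin.1.mulVec b.tr := rfl
@[simp] lemma one_lin : (1 : Aff F).lin = 1 := rfl
@[simp] lemma one_tr : (1 : Aff F).tr = 0 := rfl
@[simp] lemma inv_lin (a : Aff F) : (a⁻¹).lin = a.lin⁻¹ := rfl
@[simp] lemma inv_tr (a : Aff F) : (a⁻¹).tr = -((a.lin⁻¹).1.mulVec a.tr) := rfl

instance : Group (Aff F) :=
  Group.ofLeftAxioms
    (by
      intro a b c
      ext1
      · simp [mul_assoc]
      · simp only [mul_tr, mul_lin, Units.val_mul, Matrix.mulVec_add, ← Matrix.mulVec_mulVec,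
          add_assoc])
    (by
      intro a
      ext1
      · simp
      · simp)
    (by
      intro a
      ext1
      · simp
      · simp)

end Aff

section fox
variable {F : Type*} [Field F] {b : ℕ}

/-- The crossed homomorphism of the free group with values `z k` on the generators, written as a
homomorphism to the affine group.  By the fundamental formula of Fox calculus
`(foxHom Φ z w).tr = ∑ k, Φ(∂w/∂x_k) (z k)`. -/
noncomputable def foxHom (Φ : Fin b → GL (Fin 2) F) (z : Fin b → Fin 2 → F) :
    FreeGroup (Fin b) →* Aff F :=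
  FreeGroup.lift fun k => ⟨Φ k, z k⟩

end fox

variable {F : Type*} [Field F]

/-- The Fox Jacobian `Φ(∂ r_i / ∂ x_j)` of the presentation of the link group read off from `D`,
with the last relator and the first generator removed, as a square matrix over `F`
(the row `(i, r)` and the column `(j, s)` is the entry `(r, s)` of `Φ(∂ r_i / ∂ x_{j+1})`). -/
noncomputable def foxJac (D : Word) (Φ : Fin (births D) → GL (Fin 2) F) :
    Matrix (Fin (births D - 1) × Fin 2) (Fin (births D - 1) × Fin 2) F :=
  Matrix.of fun x y =>
    (foxHom Φ (fun k => if k.1 = y.1.1 + 1 then Pi.single y.2 1 else 0)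
      ((relators D).getD x.1.1 1)).tr x.2

/-! ## Twisted representations -/

/-- `g ↦ t ^ φ(g) α(g)` -/
noncomputable def twist {H : Type*} [Group H] (α : H →* SL(2, ℂ)) (φ : H →* Multiplicative ℤ)
    (t : ℂˣ) : H →* GL (Fin 2) ℂ where
  toFun g := GeneralLinearGroup.scalar (Fin 2) (t ^ (Multiplicative.toAdd (φ g))) *
    SpecialLinearGroup.toGL (α g)
  map_one' := by simp
  map_mul' x y := by
    have h := (GeneralLinearGroup.scalar_commute (n := Fin 2)
      (t ^ (Multiplicative.toAdd (φ y))) (SpecialLinearGroup.toGL (α x)))
    rw [map_mul φ, map_mul α, toAdd_mul, _root_.zpow_add, map_mul, map_mul, mul_assoc, mul_assoc]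
    congr 1
    rw [← mul_assoc, ← mul_assoc]
    congr 1

/-- **Wada's twisted Alexander invariant** of `t ^ φ α`, as a function of `t`: the determinant of
the Fox Jacobian divided by `det (t ^ φ(x₀) α(x₀) - 1)`.  It is well defined up to powers of `t`
(the dimension of the representation is even), and for the lift `α` of the holonomy its symmetric
normalisation is the hyperbolic torsion polynomial. -/
noncomputable def wada (D : Word) (α : LinkGroup D →* SL(2, ℂ))
    (φ : LinkGroup D →* Multiplicative ℤ) (t : ℂˣ) : ℂ :=
  (foxJac D fun k => twist α φ t (mer D k)).det /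
    ((twist α φ t (mer D 0)).1 - 1).det

/-! ## The longitude -/

/-- one step along the link: `(L, p, d)` is the strand at position `p` below the first `L` layers,
run downwards if `d = true` and upwards if `d = false`; `col L` is the list of colours below the
first `L` layers.  The second component is the colour of the over-strand (with the sign) if we pass
under a crossing. -/
def go {G : Type*} [Group G] (D : Word) (col : ℕ → List G) : ℕ × ℕ × Bool → (ℕ × ℕ × Bool) × G
  | (L, p, true) =>
    match D[L]? with
    | none => ((L, p, true), 1)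
    | some (.birth i) => (if p < i then (L + 1, p, true) else (L + 1, p + 2, true), 1)
    | some (.death i) =>
        (if p < i then (L + 1, p, true) else if p = i then (L, i + 1, false)
          else if p = i + 1 then (L, i, false) else (L + 1, p - 2, true), 1)
    | some (.cross i b) =>
        if p = i then
          ((L + 1, i + 1, true), if b then (col L).getD (i + 1) 1 else 1)
        else if p = i + 1 then
          ((L + 1, i, true), if b then 1 else ((col L).getD i 1)⁻¹)
        else ((L + 1, p, true), 1)
  | (0, p, false) => ((0, p, false), 1)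
  | (L + 1, p, false) =>
    match D[L]? with
    | none => ((L + 1, p, false), 1)
    | some (.birth i) =>
        (if p < i then (L, p, false) else if p = i then (L + 1, i + 1, true)
          else if p = i + 1 then (L + 1, i, true) else (L, p - 2, false), 1)
    | some (.death i) => (if p < i then (L, p, false) else (L, p + 2, false), 1)
    | some (.cross i b) =>
        if p = i + 1 then
          ((L, i, false), if b then ((col L).getD (i + 1) 1)⁻¹ else 1)
        else if p = i then
          ((L, i + 1, false), if b then 1 else (col L).getD i 1)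
        else ((L, p, false), 1)

/-- the colours below the first `L` layers -/
def colours {G : Type*} [Group G] (D : Word) (g : ℕ → G) (L : ℕ) : List G :=
  (run g 0 [] (D.take L)).1

/-- `n` steps along the link, starting at the left strand of the first local maximum (in the
direction of the maximum), with the product of the over-strands -/
def walk {G : Type*} [Group G] (D : Word) (g : ℕ → G) : ℕ → (ℕ × ℕ × Bool) × G
  | 0 => ((1, 0, false), 1)
  | n + 1 =>
    ((go D (colours D g) (walk D g n).1).1, (walk D g n).2 * (go D (colours D g) (walk D g n).1).2)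

/-- `l` is the product of the over-strands along the knot, starting and ending at the left strand
of the first local maximum (this is a longitude with respect to some framing) -/
def IsRawLongitude {G : Type*} [Group G] (D : Word) (g : ℕ → G) (l : G) : Prop :=
  ∃ n, 0 < n ∧ (walk D g n) = ((1, 0, false), l) ∧
    ∀ k, 0 < k → k < n → (walk D g k).1 ≠ (1, 0, false)

/-! ## Hyperbolic space and lattices -/

/-- the action of `SL(2, ℂ)` on the upper half space `{(z, t) : z ∈ ℂ, t > 0}` -/
noncomputable def act (g : SL(2, ℂ)) (p : ℂ × ℝ) : ℂ × ℝ :=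
  let a := g.1 0 0; let b := g.1 0 1; let c := g.1 1 0; let d := g.1 1 1
  let N : ℝ := ‖c * p.1 + d‖ ^ 2 + ‖c‖ ^ 2 * p.2 ^ 2
  (((a * p.1 + b) * (starRingEnd ℂ) (c * p.1 + d) + a * (starRingEnd ℂ) c * (p.2 : ℂ) ^ 2) / N,
    p.2 / N)

/-- the volume element of hyperbolic three-space is `dx dy dt / t ^ 3` -/
noncomputable def hypVol (A : Set (ℂ × ℝ)) : ENNReal :=
  ∫⁻ p in A, ENNReal.ofReal (1 / p.2 ^ 3)

/-- the image of `α` in `PSL(2, ℂ)` is discrete and `α` is injective modulo `± 1` -/
def DiscreteFaithful {H : Type*} [Group H] (α : H →* SL(2, ℂ)) : Prop :=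
  ∃ ε > 0, ∀ g : H, g ≠ 1 →
    (∃ i j, ε ≤ ‖(α g).1 i j - (1 : Matrix (Fin 2) (Fin 2) ℂ) i j‖) ∧
    (∃ i j, ε ≤ ‖(α g).1 i j + (1 : Matrix (Fin 2) (Fin 2) ℂ) i j‖)

/-- the image of `α` has finite covolume: a measurable set of finite hyperbolic volume meets every
orbit -/
def FiniteCovolume {H : Type*} [Group H] (α : H →* SL(2, ℂ)) : Prop :=
  ∃ A : Set (ℂ × ℝ), MeasurableSet A ∧ (∀ p ∈ A, 0 < p.2) ∧ hypVol A < ⊤ ∧
    ∀ p : ℂ × ℝ, 0 < p.2 → ∃ g : H, act (α g) p ∈ A

/-- `α` is the lift with meridian trace `2` of the holonomy of a complete hyperbolic structure of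
finite volume on the complement of the knot `D`: discrete and faithful modulo `± 1`, of finite
covolume, parabolic meridians of trace `+ 2`; the last condition fixes the orientation: if
`N = α(x₀) - 1`, then the longitude `l x₀^k` of linking number zero is mapped to `± (1 + c N)` with
`0 < Im c`. -/
structure IsHolonomyLift (D : Word) (α : LinkGroup D →* SL(2, ℂ)) : Prop where
  discreteFaithful : DiscreteFaithful α
  finiteCovolume : FiniteCovolume α
  trace : ∀ k, k < births D → (α (mer D k)).1.trace = 2
  orientation : ∃ (l : LinkGroup D) (k : ℤ) (φ : LinkGroup D →* Multiplicative ℤ) (c : ℂ),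
    IsRawLongitude D (mer D) l ∧ Function.Surjective φ ∧ φ (l * mer D 0 ^ k) = 1 ∧ 0 < c.im ∧
    ((α (l * mer D 0 ^ k)).1 = 1 + c • ((α (mer D 0)).1 - 1) ∨
      (α (l * mer D 0 ^ k)).1 = -(1 + c • ((α (mer D 0)).1 - 1)))

end TorMut
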