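import Pool.Agent.Lib.MP_407fc5_gt.TDefs

/-!
# K01: the two diagrams are knots (about 30 minutes)

`Tangle 0 0 D` is a computation (`decide` or `simp`).  The labels depend only on `l 0, …, l 4`:
unfold `labels` along the word (`simp [labels, D₁, …]`), then case distinction.
-/

namespace TorMut

theorem ok_D₁ : OK 0 D₁ := by
  simp [OK, D₁, top, box1, rib, bot, Layer.ok, Layer.out]

theorem ok_D₂ : OK 0 D₂ := by
  simp [OK, D₂, top, box2, rib, bot, Layer.ok, Layer.out]

theorem isKnot_D₁ : IsKnot D₁ := by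
  refine ⟨⟨ok_D₁, rfl⟩, by decide, ?_⟩
  intro l h k hk
  have h5 : births D₁ = 5 := rfl
  rw [h5] at hk
  simp [labels, D₁, top, box1, rib, bot] at h
  interval_cases k <;> simp_all

theorem isKnot_D₂ : IsKnot D₂ := by
  refine ⟨⟨ok_D₂, rfl⟩, by decide, ?_⟩
  intro l h k hk
  have h5 : births D₂ = 5 := rfl
  rw [h5] at hk
  simp [labels, D₂, top, box2, rib, bot] at h
  interval_cases k <;> simp_all

end TorMut
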