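import Pool.Agent.Lib.MP_407fc5_gt.Dat1

/-!
# Kernel computations for the knot number 1: combinatorics of the triangulation
-/

namespace TorMut

theorem rp1_ok : rpOK rp1 caps1 = true := by decide +kernel

theorem chk1_ok : T1.chk1 = true := by decide +kernel

theorem cov1_ok : T1.covOK E1 = true := by decide +kernel

theorem orb1_ok : (E1.all fun o => T1.orbOK rel1 o) = true := by decide +kernel

theorem conn1_ok :
    T1.connOK rel1 rp1 R₁ i01 u1 loops1 clo1 paths1 = true := by decide +kernel

theorem chain1_ok : TD.chainOK R₁ caps1 chain1 = true := by decide +kernel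

end TorMut
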