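import Pool.Agent.Lib.MP_407fc5_gt.Dat2

/-!
# Kernel computations for the knot number 2: combinatorics of the triangulation
-/

namespace TorMut

theorem rp2_ok : rpOK rp2 caps2 = true := by decide +kernel

theorem chk2_ok : T2.chk1 = true := by decide +kernel

theorem cov2_ok : T2.covOK E2 = true := by decide +kernel

theorem orb2_ok : (E2.all fun o => T2.orbOK rel2 o) = true := by decide +kernel

theorem conn2_ok :
    T2.connOK rel2 rp2 R₂ i02 u2 loops2 clo2 paths2 = true := by decide +kernel

theorem chain2_ok : TD.chainOK R₂ caps2 chain2 = true := by decide +kernel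

end TorMut
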