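import Pool.Agent.Lib.MP_407fc5_gt.ODat

/-!
# Kernel computations for the knot number 1: longitude
-/

namespace TorMut

theorem st1_ok : stTab D₁ = st1 := by decide +kernel

theorem walk1_ok : walkN D₁ st1 344 (1, 0, false) [] = some lon1 := by decide +kernel

theorem lon1_ok : lonOK AB1 lon1.reverse = true := by decide +kernel

end TorMut
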