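import Pool.Agent.Lib.MP_407fc5_gt.ODat

/-!
# Kernel computations for the knot number 2: longitude
-/

namespace TorMut

theorem st2_ok : stTab D₂ = st2 := by decide +kernel

theorem walk2_ok : walkN D₂ st2 344 (1, 0, false) [] = some lon2 := by decide +kernel

theorem lon2_ok : lonOK AB2 lon2.reverse = true := by decide +kernel

end TorMut
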