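import Pool.Agent.Lib.MP_407fc5_gt.ADefs
import Pool.Agent.Lib.MP_407fc5_gt.Dat1
import Pool.Agent.Lib.MP_407fc5_gt.VDat1

/-!
# Kernel computations for the knot number 1: enclosures of the vertices
-/

namespace TorMut

theorem tab1_ok : tabOK T1 AB1 (AB1 T1.m) VL1 UL1 = true := by decide +kernel

end TorMut
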