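import Pool.Agent.Lib.MP_407fc5_gt.ADefs
import Pool.Agent.Lib.MP_407fc5_gt.Dat2
import Pool.Agent.Lib.MP_407fc5_gt.VDat2

/-!
# Kernel computations for the knot number 2: enclosures of the vertices
-/

namespace TorMut

theorem tab2_ok : tabOK T2 AB2 (AB2 T2.m) VL2 UL2 = true := by decide +kernel

end TorMut
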