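import Pool.Agent.Lib.MP_407fc5_gt.Dat1

/-!
# Kernel computations for the knot number 1: vertices of neighbouring tetrahedra
-/

namespace TorMut

theorem vert1_ok :
    T1.vertOK rel1 E1 Sa1 cl1.1 cl1.2.1 cl1.2.2 cc1 Sb1 = true := by decide +kernel

end TorMut
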