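import Pool.Agent.Lib.MP_407fc5_gt.Dat2

/-!
# Kernel computations for the knot number 2: vertices of neighbouring tetrahedra
-/

namespace TorMut

theorem vert2_ok :
    T2.vertOK rel2 E2 Sa2 cl2.1 cl2.2.1 cl2.2.2 cc2 Sb2 = true := by decide +kernel

end TorMut
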