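import Pool.Agent.Lib.MP_407fc5_gt.WData

/-!
# Kernel computation: the Fox Jacobian of the first knot at `t = -1` is invertible
-/

namespace TorMut

theorem wada_ok : wadaOK aW = true := by decide +kernel

end TorMut
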