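import Pool.Agent.Lib.MP_407fc5_gt.VDat1

/-!
# Kernel computations for the knot number 1: volumes, convexity, definiteness
-/

namespace TorMut

theorem tet1_ok : ((List.range 23).all fun i => tetOK VL1 UL1 i) = true := by
  decide +kernel

end TorMut
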