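import Pool.Agent.Lib.MP_407fc5_gt.Dat1
import Pool.Agent.Lib.MP_407fc5_gt.VDat1

/-!
# Kernel computations for the knot number 1: dihedral angles around the edges
-/

namespace TorMut

theorem z1_ok : (E1.all fun o => zOK T1 VL1 o) = true := by decide +kernel

end TorMut
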