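import Pool.Agent.Lib.MP_407fc5_gt.NDefs

/-!
# N01: the total number of core colourings counts tuples of colours of the maxima (about 45 minutes)

By induction on `w`, for every `k`, `s`:
`ev w (fun _ => 1) s = Nat.card {c : Fin (births w) → G // crun (shifted c) k s w}`.
It is convenient to prove first, for `c : ℕ → G`, that `crun c k s w` depends only on `c n` for
`k ≤ n < k + births w` (`crun_congr`), and to split off the first colour at a birth
(`Fin.consEquiv`/`Fin.cons`, `Nat.card_congr`, `Nat.card_sigma`, `Finset.sum`).
-/

namespace TorMut.Core

variable {G : Type*} [Group G]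

/-- extend by `1` -/
def extF {n : ℕ} (c : Fin n → G) : ℕ → G := fun k => if h : k < n then c ⟨k, h⟩ else 1

theorem N01_births_birth (i : ℕ) (w : Word) : births (.birth i :: w) = births w + 1 := rfl
theorem N01_births_death (i : ℕ) (w : Word) : births (.death i :: w) = births w := rfl
theorem N01_births_cross (i : ℕ) (b : Bool) (w : Word) : births (.cross i b :: w) = births w := rfl

theorem crun_congr (c c' : ℕ → G) (k : ℕ) (s : List G) (w : Word)
    (h : ∀ n, k ≤ n → n < k + births w → c n = c' n) : crun c k s w ↔ crun c' k s w := by
  induction w generalizing k s with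
  | nil => exact Iff.rfl
  | cons l w ih =>
    cases l with
    | birth i =>
      rw [N01_births_birth] at h
      simp only [crun]
      rw [h k le_rfl (by omega)]
      exact ih (k + 1) _ fun n h1 h2 => h n (by omega) (by omega)
    | death i =>
      rw [N01_births_death] at h
      simp only [crun]
      exact and_congr_right fun _ => ih k _ h
    | cross i b =>
      rw [N01_births_cross] at h
      simp only [crun]
      exact ih k _ h

omit [Group G] in
theorem N01_split [Fintype G] {m : ℕ} (P : (Fin (m + 1) → G) → Prop) :
    Nat.card {c : Fin (m + 1) → G // P c}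
      = ∑ g : G, Nat.card {c : Fin m → G // P (Fin.cons g c)} := by
  classical
  have h1 : ∀ {α : Type _} [Fintype α] (Q : α → Prop), Nat.card {c // Q c}
      = ∑ c : α, if Q c then 1 else 0 := by
    intro α _ Q
    rw [Nat.card_eq_fintype_card, Fintype.card_subtype, Finset.card_filter]
  rw [h1, ← (Fin.consEquiv (fun _ => G)).sum_comp, Fintype.sum_prod_type]
  refine Finset.sum_congr rfl fun g _ => ?_
  rw [h1]
  rfl

theorem N01_ev [Fintype G] [DecidableEq G] (w : Word) (k : ℕ) (s : List G) :
    ev w (fun _ => 1) s
      = Nat.card {c : Fin (births w) → G // crun (fun n => extF c (n - k)) k s w} := by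
  classical
  induction w generalizing k s with
  | nil =>
    simp only [ev, crun]
    have : Unique {c : Fin (births []) → G // True} :=
      { default := ⟨fun i => i.elim0, trivial⟩
        uniq := by
          rintro ⟨c, _⟩
          apply Subtype.ext
          funext i
          exact i.elim0 }
    exact (Nat.card_unique).symm
  | cons l w ih =>
    cases l with
    | birth i =>
      simp only [ev]
      have h1 := N01_split (G := G) (m := births w)
        (fun c => crun (fun n => extF c (n - k)) k s (.birth i :: w))
      refine Eq.trans ?_ h1.symm
      refine Finset.sum_congr rfl fun g _ => ?_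
      rw [ih (k + 1) (ins i g s)]
      refine Nat.card_congr (Equiv.subtypeEquivRight fun c => ?_)
      simp only [crun]
      have h2 : extF (Fin.cons g c : Fin (births w + 1) → G) (k - k) = g := by
        rw [Nat.sub_self]
        simp [extF]
      rw [h2]
      refine crun_congr _ _ _ _ _ fun n h3 h4 => ?_
      have h5 : n - k = (n - (k + 1)) + 1 := by omega
      have h6 : n - (k + 1) < births w := by omega
      rw [h5]
      simp only [extF]
      rw [dif_pos h6, dif_pos (Nat.succ_lt_succ h6)]
      rfl
    | death i =>
      simp only [ev]
      by_cases h : s.getD i 1 = s.getD (i + 1) 1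
      · rw [if_pos h, ih k (rem i s)]
        refine Nat.card_congr (Equiv.subtypeEquivRight fun c => ?_)
        simp only [crun]
        exact ⟨fun h1 => ⟨h, h1⟩, fun h1 => h1.2⟩
      · rw [if_neg h]
        symm
        have : IsEmpty {c : Fin (births (.death i :: w)) → G //
            crun (fun n => extF c (n - k)) k s (.death i :: w)} := by
          refine ⟨?_⟩
          rintro ⟨c, hc⟩
          simp only [crun] at hc
          exact h hc.1
        exact Nat.card_of_isEmpty
    | cross i b =>
      simp only [ev]
      rw [ih k (cr i b s)]
      rfl

theorem total_eq_card [Fintype G] [DecidableEq G] (D : Word) :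
    total G D = Nat.card {c : Fin (births D) → G // Col D (extF c)} := by
  unfold total
  rw [N01_ev D 0 []]
  rfl

end TorMut.Core
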