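import Pool.Agent.Lib.MP_407fc5_gt.NDefs

/-!
# N02: functoriality of colourings, lifts form a module (about 60 minutes)

* `crun_map`: homomorphisms commute with `ins`, `rem`, `cr` (`List.map_take` etc., `List.getD_map`);
  conditions at minima are preserved, and reflected by injective homomorphisms.
* `col_prod`: the two projections are homomorphisms; conversely the pair of two valid colourings is
  valid (induction, generalize the lists: `s.map Prod.fst`, `s.map Prod.snd` and `s`).
* `lifts_…`: use the homomorphisms `SG M → A60`, `SG (M × M) → SG M × SG M` (injective),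
  `SG (M × M) → SG M`, `(v, g) ↦ (v.1 + v.2, g)`, `(v, g) ↦ (c v, g)`, `SG (Fin n → M) → SG M` (component).
  It may be easier to prove directly by induction: for lists `s`, `s'` of `SG M` with equal
  `A60`-parts, the pointwise sum (of the `M`-parts) behaves well under `cr`:
  `(x y⁻¹ x).v = x.v + κ • x.v - κ • y.v`, `κ = x.g y.g⁻¹`, is linear in the `M`-parts.
-/

namespace TorMut

open Core

section map
variable {G H : Type*} [Group G] [Group H]

theorem N02_getD (f : G →* H) (s : List G) (i : ℕ) : (s.map f).getD i 1 = f (s.getD i 1) := by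
  rw [← map_one f, List.getD_map]

theorem N02_ins (f : G →* H) (i : ℕ) (g : G) (s : List G) :
    ins i (f g) (s.map f) = (ins i g s).map f := by
  simp [ins, List.map_take, List.map_drop]

theorem N02_rem (f : G →* H) (i : ℕ) (s : List G) :
    rem i (s.map f) = (rem i s).map f := by
  simp [rem, List.map_take, List.map_drop]

theorem N02_cr (f : G →* H) (i : ℕ) (b : Bool) (s : List G) :
    cr i b (s.map f) = (cr i b s).map f := by
  cases b
  · simp only [cr, N02_getD, List.map_append, List.map_take, List.map_drop, List.map_cons,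
      List.map_nil, map_mul, map_inv]
  · simp only [cr, N02_getD, List.map_append, List.map_take, List.map_drop, List.map_cons,
      List.map_nil, map_mul, map_inv]

theorem crun_map (f : G →* H) (c : ℕ → G) (k : ℕ) (s : List G) (w : Word) (h : crun c k s w) :
    crun (fun n => f (c n)) k (s.map f) w := by
  induction w generalizing k s with
  | nil => trivial
  | cons l w ih =>
    cases l with
    | birth i =>
      simp only [crun] at h ⊢
      rw [N02_ins]
      exact ih _ _ h
    | death i =>
      simp only [crun] at h ⊢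
      rw [N02_rem, N02_getD, N02_getD, h.1]
      exact ⟨rfl, ih _ _ h.2⟩
    | cross i b =>
      simp only [crun] at h ⊢
      rw [N02_cr]
      exact ih _ _ h

theorem crun_map_iff (f : G →* H) (hf : Function.Injective f) (c : ℕ → G) (k : ℕ) (s : List G)
    (w : Word) : crun (fun n => f (c n)) k (s.map f) w ↔ crun c k s w := by
  induction w generalizing k s with
  | nil => exact Iff.rfl
  | cons l w ih =>
    cases l with
    | birth i =>
      simp only [crun]
      rw [N02_ins]
      exact ih _ _
    | death i =>
      simp only [crun]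
      rw [N02_rem, N02_getD, N02_getD, hf.eq_iff, ih]
    | cross i b =>
      simp only [crun]
      rw [N02_cr]
      exact ih _ _

/-- a jointly injective family of homomorphisms reflects colourings -/
theorem N02_joint {ι : Type*} {K : Type*} [Group K] (f0 : G →* K) (f : ι → (G →* H))
    (hinj : ∀ x y : G, f0 x = f0 y → (∀ j, f j x = f j y) → x = y) (c : ℕ → G) (k : ℕ)
    (s : List G) (w : Word) (h0 : crun (fun n => f0 (c n)) k (s.map f0) w)
    (h1 : ∀ j, crun (fun n => f j (c n)) k (s.map (f j)) w) : crun c k s w := by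
  induction w generalizing k s with
  | nil => trivial
  | cons l w ih =>
    cases l with
    | birth i =>
      simp only [crun] at h0 h1 ⊢
      rw [N02_ins] at h0
      refine ih _ _ h0 fun j => ?_
      rw [← N02_ins]
      exact h1 j
    | death i =>
      simp only [crun] at h0 h1 ⊢
      rw [N02_rem, N02_getD, N02_getD] at h0
      refine ⟨hinj _ _ h0.1 fun j => ?_, ih _ _ h0.2 fun j => ?_⟩
      · rw [← N02_getD, ← N02_getD]
        exact (h1 j).1
      · rw [← N02_rem]
        exact (h1 j).2
    | cross i b =>
      simp only [crun] at h0 h1 ⊢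
      rw [N02_cr] at h0
      refine ih _ _ h0 fun j => ?_
      rw [← N02_cr]
      exact h1 j

theorem col_prod (D : Word) (c : ℕ → G) (c' : ℕ → H) :
    Col D (fun k => (c k, c' k)) ↔ Col D c ∧ Col D c' := by
  constructor
  · intro h
    exact ⟨crun_map (MonoidHom.fst G H) _ 0 [] D h, crun_map (MonoidHom.snd G H) _ 0 [] D h⟩
  · rintro ⟨h1, h2⟩
    refine N02_joint (ι := Unit) (MonoidHom.fst G H) (fun _ => MonoidHom.snd G H) ?_ _ 0 [] D h1
      fun _ => h2
    intro x y hx hy
    exact Prod.ext hx (hy ())

end map

variable {M : Type*} [AddCommGroup M] [DistribMulAction A60 M]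

/-- projection to the group -/
def N02_pr (M : Type*) [AddCommGroup M] [DistribMulAction A60 M] : SG M →* A60 where
  toFun x := x.g
  map_one' := rfl
  map_mul' _ _ := rfl

/-- inclusion of the group -/
def N02_in (M : Type*) [AddCommGroup M] [DistribMulAction A60 M] : A60 →* SG M where
  toFun g := ⟨0, g⟩
  map_one' := rfl
  map_mul' g h := by
    ext1
    · simp
    · rfl

/-- homomorphism given by an equivariant additive map -/
def N02_map {M N : Type*} [AddCommGroup M] [DistribMulAction A60 M] [AddCommGroup N]
    [DistribMulAction A60 N] (f : M →+ N) (hf : ∀ (g : A60) (v : M), f (g • v) = g • f v) :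
    SG M →* SG N where
  toFun x := ⟨f x.v, x.g⟩
  map_one' := by
    ext1
    · exact map_zero f
    · rfl
  map_mul' x y := by
    ext1
    · simp [hf]
    · rfl

/-- the colours of a lift -/
def N02_c (D : Word) (h : ℕ → A60) (w : Fin (births D) → M) (k : ℕ) : SG M :=
  ⟨if hk : k < births D then w ⟨k, hk⟩ else 0, h k⟩

omit [DistribMulAction A60 M] in
theorem N02_cv (D : Word) (h : ℕ → A60) (w : Fin (births D) → M) (k : ℕ) :
    (N02_c D h w k).v = if hk : k < births D then w ⟨k, hk⟩ else 0 := rfl

theorem N02_lifts (D : Word) (h : ℕ → A60) (w : Fin (births D) → M) :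
    w ∈ Lifts M D h ↔ Col D (N02_c D h w) := Iff.rfl

theorem N02_maps {N : Type*} [AddCommGroup N]
    [DistribMulAction A60 N] (f : M →+ N) (hf : ∀ (g : A60) (v : M), f (g • v) = g • f v)
    (D : Word) (h : ℕ → A60) (w : Fin (births D) → M) (k : ℕ) :
    N02_map f hf (N02_c D h w k) = N02_c D h (fun i => f (w i)) k := by
  change (⟨f (N02_c D h w k).v, h k⟩ : SG N) = ⟨_, h k⟩
  rw [N02_cv]
  split_ifs with hk
  · rfl
  · rw [map_zero]

theorem N02_mapLifts {N : Type*} [AddCommGroup N]
    [DistribMulAction A60 N] (f : M →+ N) (hf : ∀ (g : A60) (v : M), f (g • v) = g • f v)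
    (D : Word) (h : ℕ → A60) (w : Fin (births D) → M) (hw : w ∈ Lifts M D h) :
    (fun i => f (w i)) ∈ Lifts N D h := by
  rw [N02_lifts] at hw ⊢
  have h1 := crun_map (N02_map f hf) _ 0 [] D hw
  have h2 : (fun n => N02_map f hf (N02_c D h w n)) = N02_c D h (fun i => f (w i)) := by
    funext k
    exact N02_maps f hf D h w k
  rw [h2] at h1
  exact h1

theorem lifts_col (D : Word) (h : ℕ → A60) (w : Fin (births D) → M) (hw : w ∈ Lifts M D h) :
    Col D h :=
  crun_map (N02_pr M) _ 0 [] D hw

theorem lifts_zero (D : Word) (h : ℕ → A60) (hc : Col D h) : (0 : Fin (births D) → M) ∈ Lifts M D h := by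
  rw [N02_lifts]
  have h1 := crun_map (N02_in M) _ 0 [] D hc
  have h2 : (fun n => N02_in M (h n)) = N02_c D h (0 : Fin (births D) → M) := by
    funext k
    apply SG.ext
    · rw [N02_cv]
      split_ifs <;> rfl
    · rfl
  rw [h2] at h1
  exact h1

theorem lifts_add (D : Word) (h : ℕ → A60) (w w' : Fin (births D) → M) (hw : w ∈ Lifts M D h)
    (hw' : w' ∈ Lifts M D h) : w + w' ∈ Lifts M D h := by
  have h1 : (fun i => (w i, w' i)) ∈ Lifts (M × M) D h := by
    rw [N02_lifts] at hw hw' ⊢
    refine N02_joint (ι := Unit) (N02_map (AddMonoidHom.fst M M) fun _ _ => rfl)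
      (fun _ => N02_map (AddMonoidHom.snd M M) fun _ _ => rfl) ?_ _ 0 [] D ?_ ?_
    · intro x y hx hy
      have h2 := congrArg SG.v hx
      have h3 := congrArg SG.v (hy ())
      have h4 := congrArg SG.g hx
      exact SG.ext (Prod.ext h2 h3) h4
    · have h2 : (fun n => N02_map (AddMonoidHom.fst M M) (fun _ _ => rfl)
          (N02_c D h (fun i => (w i, w' i)) n)) = N02_c D h w := by
        funext k
        exact N02_maps (AddMonoidHom.fst M M) (fun _ _ => rfl) D h (fun i => (w i, w' i)) k
      rw [h2]
      exact hw
    · intro _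
      have h2 : (fun n => N02_map (AddMonoidHom.snd M M) (fun _ _ => rfl)
          (N02_c D h (fun i => (w i, w' i)) n)) = N02_c D h w' := by
        funext k
        exact N02_maps (AddMonoidHom.snd M M) (fun _ _ => rfl) D h (fun i => (w i, w' i)) k
      rw [h2]
      exact hw'
  exact N02_mapLifts (AddMonoidHom.fst M M + AddMonoidHom.snd M M)
    (fun g v => (smul_add g v.1 v.2).symm) D h _ h1

theorem lifts_smul {p : ℕ} (D : Word) (h : ℕ → A60) (c : ZMod p) (w : Fin (births D) → PM p)
    (hw : w ∈ Lifts (PM p) D h) : c • w ∈ Lifts (PM p) D h :=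
  N02_mapLifts (DistribSMul.toAddMonoidHom (PM p) c) (fun _ _ => rfl) D h w hw

theorem lifts_pi (n : ℕ) (D : Word) (h : ℕ → A60) (w : Fin (births D) → (Fin n → M)) :
    w ∈ Lifts (Fin n → M) D h ↔ Col D h ∧ ∀ j, (fun k => w k j) ∈ Lifts M D h := by
  constructor
  · intro hw
    exact ⟨lifts_col D h w hw, fun j => N02_mapLifts
      (Pi.evalAddMonoidHom (fun _ : Fin n => M) j) (fun _ _ => rfl) D h w hw⟩
  · rintro ⟨hc, hj⟩
    rw [N02_lifts]
    refine N02_joint (N02_pr (Fin n → M)) (fun j : Fin n => N02_map
      (Pi.evalAddMonoidHom (fun _ : Fin n => M) j) (fun _ _ => rfl)) ?_ _ 0 [] D hc ?_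
    · intro x y hx hy
      refine SG.ext ?_ hx
      funext j
      exact congrArg SG.v (hy j)
    · intro j
      have h2 : (fun k => N02_map (Pi.evalAddMonoidHom (fun _ : Fin n => M) j) (fun _ _ => rfl)
          (N02_c D h w k)) = N02_c D h (fun k => w k j) := by
        funext k
        exact N02_maps (Pi.evalAddMonoidHom (fun _ : Fin n => M) j) (fun _ _ => rfl) D h w k
      rw [h2]
      exact hj j

end TorMut
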