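import Pool.Agent.Lib.MP_407fc5_gt.N01
import Pool.Agent.Lib.MP_407fc5_gt.N02

/-!
# N03: bounds for the total number of colourings by a semidirect product (about 60 minutes)

By `total_eq_card` the total is the number of `c : Fin (births D) → SG (Fin n → PM p)` which are
colourings.  Such a `c` is a pair `(w, h)`, `h : Fin (births D) → A60` a colouring and
`w ∈ Lifts (Fin n → PM p) D h`; by `lifts_pi` the number of `w` is the `n`-th power of
`Nat.card (Lifts (PM p) D h)`.  There are `60 ^ births D` choices of `h` (`Fintype.card A60 = 60`).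
(`Lifts` only depends on the values `h k`, `k < births D`: `crun_congr`.)
-/

namespace TorMut

open Core

lemma card_A60 : Fintype.card A60 = 60 := by
  have e : A60 ≃ Fin 60 := ⟨A60.val, A60.mk, fun _ => rfl, fun _ => rfl⟩
  rw [Fintype.card_congr e, Fintype.card_fin]

theorem lifts_congr {M : Type*} [AddCommGroup M] [DistribMulAction A60 M] (D : Word)
    (h h' : ℕ → A60) (hh : ∀ k, k < births D → h k = h' k) : Lifts M D h = Lifts M D h' := by
  ext w
  rw [N02_lifts, N02_lifts]
  refine crun_congr _ _ _ _ _ fun n _ hn => ?_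
  rw [Nat.zero_add] at hn
  refine SG.ext rfl ?_
  exact hh n hn

/-- lifts to a power of a module -/
def N03_equiv (p n : ℕ) (D : Word) (h : ℕ → A60) (hc : Col D h) :
    Lifts (Fin n → PM p) D h ≃ (Fin n → Lifts (PM p) D h) where
  toFun w := fun j => ⟨fun k => w.1 k j, ((lifts_pi n D h w.1).1 w.2).2 j⟩
  invFun u := ⟨fun k j => (u j).1 k, (lifts_pi n D h _).2 ⟨hc, fun j => (u j).2⟩⟩
  left_inv _ := rfl
  right_inv _ := rfl

theorem card_lifts_pi (p n : ℕ) [NeZero p] (D : Word) (h : ℕ → A60) (hc : Col D h) :
    Nat.card (Lifts (Fin n → PM p) D h) = Nat.card (Lifts (PM p) D h) ^ n := by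
  rw [Nat.card_congr (N03_equiv p n D h hc), Nat.card_fun, Nat.card_eq_fintype_card (α := Fin n),
    Fintype.card_fin]

theorem N03_ext {M : Type*} [AddCommGroup M] [DistribMulAction A60 M] (D : Word)
    (c : Fin (births D) → SG M) :
    N02_c D (extF fun k => (c k).g) (fun k => (c k).v) = extF c := by
  funext k
  by_cases hk : k < births D
  · refine SG.ext ?_ ?_
    · rw [N02_cv]
      simp only [extF, dif_pos hk]
    · change extF (fun k => (c k).g) k = _
      simp only [extF, dif_pos hk]
  · refine SG.ext ?_ ?_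
    · rw [N02_cv]
      simp only [extF, dif_neg hk]
      rfl
    · change extF (fun k => (c k).g) k = _
      simp only [extF, dif_neg hk]
      rfl

/-- colourings by a semidirect product -/
def N03_sigma {M : Type*} [AddCommGroup M] [DistribMulAction A60 M] (D : Word) :
    {c : Fin (births D) → SG M // Col D (extF c)} ≃
      Σ h : Fin (births D) → A60, Lifts M D (extF h) where
  toFun c := ⟨fun k => (c.1 k).g, ⟨fun k => (c.1 k).v, by
    rw [N02_lifts, N03_ext]
    exact c.2⟩⟩
  invFun x := ⟨fun k => ⟨x.2.1 k, x.1 k⟩, by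
    have h1 := x.2.2
    rw [N02_lifts] at h1
    rw [← N03_ext]
    exact h1⟩
  left_inv _ := rfl
  right_inv _ := rfl

theorem N03_total (p n : ℕ) [NeZero p] (D : Word) :
    total (SG (Fin n → PM p)) D
      = ∑ h : Fin (births D) → A60, Nat.card (Lifts (Fin n → PM p) D (extF h)) := by
  rw [total_eq_card, Nat.card_congr (N03_sigma D), Nat.card_sigma]

theorem total_le (p n B : ℕ) [NeZero p] (D : Word)
    (hB : ∀ h : ℕ → A60, Col D h → Nat.card (Lifts (PM p) D h) ≤ B) :
    total (SG (Fin n → PM p)) D ≤ 60 ^ births D * B ^ n := by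
  rw [N03_total]
  have h1 : ∀ h ∈ (Finset.univ : Finset (Fin (births D) → A60)),
      Nat.card (Lifts (Fin n → PM p) D (extF h)) ≤ B ^ n := by
    intro h _
    by_cases hc : Col D (extF h)
    · rw [card_lifts_pi p n D _ hc]
      exact Nat.pow_le_pow_left (hB _ hc) n
    · have : IsEmpty (Lifts (Fin n → PM p) D (extF h)) :=
        ⟨fun w => hc (lifts_col D _ w.1 w.2)⟩
      rw [Nat.card_of_isEmpty]
      exact Nat.zero_le _
  refine (Finset.sum_le_card_nsmul _ _ _ h1).trans ?_
  rw [Finset.card_univ, Fintype.card_fun, card_A60, Fintype.card_fin, smul_eq_mul]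

theorem le_total (p n B : ℕ) [NeZero p] (D : Word) (h : ℕ → A60) (hc : Col D h)
    (hB : B ≤ Nat.card (Lifts (PM p) D h)) : B ^ n ≤ total (SG (Fin n → PM p)) D := by
  rw [N03_total]
  have h1 : Lifts (Fin n → PM p) D (extF fun k : Fin (births D) => h k)
      = Lifts (Fin n → PM p) D h := by
    refine lifts_congr D _ _ fun k hk => ?_
    simp only [extF, dif_pos hk]
  have h2 : B ^ n ≤ Nat.card (Lifts (Fin n → PM p) D (extF fun k : Fin (births D) => h k)) := by
    rw [h1, card_lifts_pi p n D h hc]
    exact Nat.pow_le_pow_left hB n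
  exact h2.trans (Finset.single_le_sum
    (f := fun g : Fin (births D) → A60 => Nat.card (Lifts (Fin n → PM p) D (extF g)))
    (fun _ _ => Nat.zero_le _) (Finset.mem_univ fun k : Fin (births D) => h k))

end TorMut
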