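import Pool.Agent.Lib.MP_407fc5_gt.Hyp

/-!
# MP_407fc5_gt, part T: the two knots (definitions)

`D₁ = top ++ box1 ++ bot` and `D₂ = top ++ box2 ++ bot`.  `box1` is the antiparallel double of the
tangle word `[birth 1, σ₀³, σ₂⁻³, death 1]`, `box2` is the double of the same tangle rotated about the
vertical axis, `[birth 1, σ₂³, σ₀⁻³, death 1]`.
-/

namespace TorMut

/-- a crossing of two ribbons (four crossings of strands) at the positions `i, …, i + 3` -/
def rib (i : ℕ) (b : Bool) : Word := [.cross (i + 1) b, .cross i b, .cross (i + 2) b, .cross (i + 1) b]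

def box1 : Word :=
  [.birth 2, .birth 3] ++ rib 0 true ++ rib 0 true ++ rib 0 true ++ rib 4 false ++ rib 4 false
    ++ rib 4 false ++ [.death 3, .death 2]

def box2 : Word :=
  [.birth 2, .birth 3] ++ rib 4 true ++ rib 4 true ++ rib 4 true ++ rib 0 false ++ rib 0 false
    ++ rib 0 false ++ [.death 3, .death 2]

def top : Word :=
  [.birth 0, .birth 2, .birth 4, .cross 3 true, .cross 1 false, .cross 4 false, .cross 2 true,
    .cross 3 false, .cross 2 false]

def bot : Word := [.cross 3 true, .cross 1 true, .cross 1 true, .death 4, .death 2, .death 0]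

/-- the first knot -/
def D₁ : Word := top ++ box1 ++ bot

/-- the second knot -/
def D₂ : Word := top ++ box2 ++ bot

/-- exponents of the meridians at the local maxima under abelianisation -/
def eps : ℕ → ℤ
  | 0 => 1
  | 1 => -1
  | 2 => -1
  | 3 => 1
  | 4 => -1
  | _ => 0

/-- the colour of the `j`-th strand below `top` -/
def tc {G : Type*} [Group G] (g : ℕ → G) (j : ℕ) : G := (run g 0 [] top).1.getD j 1

end TorMut
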