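import Pool.Agent.Lib.MP_407fc5_gt.NDefs
import Pool.Agent.Lib.MP_407fc5_gt.TDefs

/-!
# MP_407fc5_gt, part N: kernel computations (enumeration of the colourings of the first knot)
-/

namespace TorMut

/-- conjunction over `k < n` -/
def allN (n : Nat) (f : Nat → Bool) : Bool := Nat.rec true (fun k ih => f k && ih) n

theorem allN_iff (n : Nat) (f : Nat → Bool) : allN n f = true ↔ ∀ k, k < n → f k = true := by
  induction n with
  | zero => simp [allN]
  | succ n ih =>
    change (f n && allN n f) = true ↔ _
    rw [Bool.and_eq_true, ih]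
    constructor
    · rintro ⟨h1, h2⟩ k hk
      rcases Nat.lt_succ_iff_lt_or_eq.mp hk with h | h
      · exact h2 k h
      · exact h ▸ h1
    · intro h
      exact ⟨h n (Nat.lt_succ_self n), fun k hk => h k (Nat.lt_succ_of_lt hk)⟩

/-- the relation `A U B = U`, `U = P S P⁻¹` (`S = A B`) -/
def relN (A B S P : Nat) : Bool :=
  forceN (mulN (mulN P S) (invN P)) fun U => Nat.beq (mulN (mulN A U) B) U

/-- the colourings of `D₁` by `A60` with first colour `1` and second colour a representative of a
conjugacy class -/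
def goodList : List (List Nat) :=
  [[0, 0, 0, 0, 0],
   [0, 16, 17, 24, 48],
   [0, 16, 20, 49, 48],
   [0, 16, 25, 2, 48],
   [0, 16, 31, 52, 48],
   [0, 16, 56, 6, 48],
   [0, 17, 16, 24, 36],
   [0, 17, 23, 37, 36],
   [0, 17, 26, 1, 36],
   [0, 17, 34, 40, 36],
   [0, 17, 44, 9, 36]]

/-- the conditions on the colours `h1, h2` (second and third local maximum) and the colours `c1`,
`c2 = P⁻¹ c1` of the inner local maxima, if the first colour is `0` -/
def enumOK (h1 : Nat) : Bool :=
  allN 60 fun h2 =>
    forceL (cendN [0, h1, h2] 0 [] top) fun t =>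
    forceN (mulN (t.getD 0 0) (invN (t.getD 1 0))) fun A1 =>
    forceN (mulN (invN (t.getD 0 0)) (t.getD 1 0)) fun A2 =>
    forceN (mulN (t.getD 2 0) (invN (t.getD 3 0))) fun B1 =>
    forceN (mulN (invN (t.getD 2 0)) (t.getD 3 0)) fun B2 =>
    forceN (coreN (t.getD 4 0) (t.getD 5 0)) fun e =>
    forceN (mulN A1 B1) fun S1 =>
    forceN (mulN A2 B2) fun S2 =>
    allN 60 fun P => !(relN A1 B1 S1 P) ||
      forceN (mulN (invN P) (mulN B1 P)) fun X1 =>
      forceN (mulN (invN P) (mulN (invN A1) P)) fun Y1 =>
      (if Nat.beq B1 0 && Nat.beq B2 0 then (fun f => f e) else allN 60) fun c1 =>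
        forceN (mulN (invN P) c1) fun c2 =>
        forceN (mulN (invN c1) c2) fun Q =>
        forceN (mulN (invN Q) (mulN (invN B2) Q)) fun X2 =>
        !(Nat.beq (mulN (mulN X1 c1) X2) e) ||
        !(relN A2 B2 S2 Q) ||
        forceN (mulN (mulN X1 c2) X2) fun δ1 =>
        forceN (mulN (invN Q) (mulN A2 Q)) fun Y2 =>
        forceN (coreN δ1 (mulN (mulN Y1 c2) Y2)) fun u =>
        !(Nat.beq (mulN (mulN Y1 c1) Y2) u) || !(Nat.beq (coreN u δ1) (t.getD 4 0)) ||
        !(Nat.beq (mulN (mulN (mulN (mulN P S1) (invN P)) (t.getD 2 0))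
          (invN (mulN (mulN Q S2) (invN Q)))) (t.getD 1 0)) ||
          goodList.contains [0, h1, h2, c1, c2]

set_option maxRecDepth 100000

theorem enumOK_0 : enumOK 0 = true := by decide +kernel
theorem enumOK_1 : enumOK 1 = true := by decide +kernel
theorem enumOK_3 : enumOK 3 = true := by decide +kernel
theorem enumOK_16 : enumOK 16 = true := by decide +kernel
theorem enumOK_17 : enumOK 17 = true := by decide +kernel

/-- every element is conjugate to one of the five representatives -/
def repOK : Bool :=
  allN 60 fun x => (List.range 60).any fun g =>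
    [0, 1, 3, 16, 17].contains (mulN (mulN g x) (invN g))

theorem repOK_true : repOK = true := by decide +kernel

end TorMut
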