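import Pool.Agent.Lib.MP_407fc5_gt.N02
import Pool.Agent.Lib.MP_407fc5_gt.NData

/-!
# N04: reduction to normalised colourings (about 60 minutes)

The map `x ↦ a x b` of a group commutes with `(x, y) ↦ x y⁻¹ x`, hence maps colourings to colourings.
In `SG M` with `a = (0, g)`, `b = (0, g')`: `a (w, h) b = (g w, g h g')`.  So `w ∈ Lifts M D h` iff
`g w ∈ Lifts M D (g h g')`, and the numbers of lifts agree.  Given `h`, first multiply from the right
by `(h 0)⁻¹`, then conjugate by some `g` such that `g (h 1)(h 0)⁻¹ g⁻¹` is one of the five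
representatives (`repOK_true`).
-/

namespace TorMut

open Core

theorem N04_getD {G : Type*} [Group G] (φ : G → G) (s : List G) (i : ℕ) (hi : i < s.length) :
    (s.map φ).getD i 1 = φ (s.getD i 1) := by
  simp [List.getD_eq_getElem?_getD, List.getElem?_map, List.getElem?_eq_getElem hi]

theorem N04_length_ins {G : Type*} [Group G] (i : ℕ) (g : G) (s : List G) :
    (ins i g s).length = s.length + 2 := by
  simp only [ins, List.length_append, List.length_take, List.length_drop, List.length_cons,
    List.length_nil]
  omega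

theorem N04_length_rem {G : Type*} [Group G] (i : ℕ) (s : List G) (h : i + 2 ≤ s.length) :
    (rem i s).length = s.length - 2 := by
  simp only [rem, List.length_append, List.length_take, List.length_drop]
  omega

theorem N04_length_cr {G : Type*} [Group G] (i : ℕ) (b : Bool) (s : List G) (h : i + 2 ≤ s.length) :
    (cr i b s).length = s.length := by
  cases b <;>
  · simp only [cr, List.length_append, List.length_take, List.length_drop, List.length_cons,
      List.length_nil]
    omega

theorem crun_trans {G : Type*} [Group G] (a b : G) (c : ℕ → G) (k : ℕ) (s : List G) (w : Word)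
    (h : crun c k s w) (hs : OK s.length w) :
    crun (fun n => a * c n * b) k (s.map fun x => a * x * b) w := by
  induction w generalizing k s with
  | nil => trivial
  | cons l w ih =>
    obtain ⟨h1, h2⟩ := hs
    cases l with
    | birth i =>
      have e : ins i (a * c k * b) (s.map fun x => a * x * b) = (ins i (c k) s).map fun x => a * x * b := by
        simp [ins, List.map_take, List.map_drop]
      change crun (fun n => a * c n * b) (k + 1) (ins i (a * c k * b) (s.map fun x => a * x * b)) w
      rw [e]
      refine ih _ _ h ?_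
      rw [N04_length_ins]
      exact h2
    | death i =>
      have h1' : i + 2 ≤ s.length := h1
      obtain ⟨h3, h4⟩ := h
      refine ⟨?_, ?_⟩
      · rw [N04_getD (fun x => a * x * b) s i (by omega), N04_getD (fun x => a * x * b) s (i + 1) (by omega), h3]
      · have e : rem i (s.map fun x => a * x * b) = (rem i s).map fun x => a * x * b := by
          simp [rem, List.map_take, List.map_drop]
        rw [e]
        refine ih _ _ h4 ?_
        rw [N04_length_rem i s h1']
        exact h2
    | cross i bb =>
      have h1' : i + 2 ≤ s.length := h1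
      have g1 := N04_getD (fun x => a * x * b) s i (by omega)
      have g2 := N04_getD (fun x => a * x * b) s (i + 1) (by omega)
      have e : cr i bb (s.map fun x => a * x * b) = (cr i bb s).map fun x => a * x * b := by
        cases bb
        · simp only [cr, g1, g2, List.map_append, List.map_take, List.map_drop, List.map_cons, List.map_nil]
          congr 3
          group
        · simp only [cr, g1, g2, List.map_append, List.map_take, List.map_drop, List.map_cons, List.map_nil]
          congr 4
          group
      change crun (fun n => a * c n * b) k (cr i bb (s.map fun x => a * x * b)) w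
      rw [e]
      refine ih _ _ h ?_
      rw [N04_length_cr i bb s h1']
      exact h2

theorem N04_mem (p : ℕ) [NeZero p] (D : Word) (hD : OK 0 D) (h : ℕ → A60) (g g' : A60)
    (w : Fin (births D) → PM p) (hw : w ∈ Lifts (PM p) D h) :
    (fun k => g • w k) ∈ Lifts (PM p) D fun k => g * h k * g' := by
  have h1 := crun_trans (⟨0, g⟩ : SG (PM p)) (⟨0, g'⟩ : SG (PM p)) _ 0 [] D hw hD
  have e : (fun n => (⟨0, g⟩ : SG (PM p)) * (⟨if hk : n < births D then w ⟨n, hk⟩ else 0, h n⟩ : SG (PM p))
      * (⟨0, g'⟩ : SG (PM p)))
      = fun k => (⟨if hk : k < births D then g • w ⟨k, hk⟩ else 0, g * h k * g'⟩ : SG (PM p)) := by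
    funext n
    ext1
    · simp only [SG.mul_v, SG.mul_g, zero_add, smul_zero, add_zero]
      split_ifs
      · rfl
      · rw [smul_zero]
    · rfl
  rw [e] at h1
  exact h1

theorem card_lifts_trans (p : ℕ) [NeZero p] (D : Word) (hD : OK 0 D) (h : ℕ → A60) (g g' : A60) :
    Nat.card (Lifts (PM p) D fun k => g * h k * g') = Nat.card (Lifts (PM p) D h) := by
  refine Nat.card_congr
    { toFun := fun w => ⟨fun k => g⁻¹ • w.1 k, ?_⟩
      invFun := fun w => ⟨fun k => g • w.1 k, N04_mem p D hD h g g' w.1 w.2⟩
      left_inv := fun w => Subtype.ext (funext fun k => smul_inv_smul g _)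
      right_inv := fun w => Subtype.ext (funext fun k => inv_smul_smul g _) }
  have h1 := N04_mem p D hD _ g⁻¹ g'⁻¹ w.1 w.2
  have e : (fun k => g⁻¹ * (g * h k * g') * g'⁻¹) = h := by
    funext k
    group
  rw [e] at h1
  exact h1

theorem card_lifts_reduce (p B : ℕ) [NeZero p] (D : Word) (hD : OK 0 D)
    (H : ∀ h : ℕ → A60, Col D h → (h 0).val.1 = 0 → (h 1).val.1 ∈ [0, 1, 3, 16, 17] →
      Nat.card (Lifts (PM p) D h) ≤ B) (h : ℕ → A60) (hc : Col D h) :
    Nat.card (Lifts (PM p) D h) ≤ B := by
  obtain ⟨g, hg⟩ : ∃ g : A60, (g * (h 1 * (h 0)⁻¹) * g⁻¹).val.1 ∈ [0, 1, 3, 16, 17] := by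
    have h1 := (allN_iff 60 _).1 repOK_true (h 1 * (h 0)⁻¹).val.1 (h 1 * (h 0)⁻¹).val.2
    rw [List.any_eq_true] at h1
    obtain ⟨g, hg1, hg2⟩ := h1
    rw [List.mem_range] at hg1
    refine ⟨⟨⟨g, hg1⟩⟩, ?_⟩
    rw [A60.mul_val, A60.mul_val, A60.inv_val]
    exact List.contains_iff_mem.1 hg2
  have h2 := card_lifts_trans p D hD h g ((h 0)⁻¹ * g⁻¹)
  rw [← h2]
  apply H
  · exact crun_trans g ((h 0)⁻¹ * g⁻¹) h 0 [] D hc hD
  · have : g * h 0 * ((h 0)⁻¹ * g⁻¹) = 1 := by group
    rw [this]
    rfl
  · have : g * h 1 * ((h 0)⁻¹ * g⁻¹) = g * (h 1 * (h 0)⁻¹) * g⁻¹ := by group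
    rw [this]
    exact hg

end TorMut
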