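import Pool.Agent.Lib.MP_407fc5_gt.T02

/-!
# T03: colours and relators of the two boxes (about 60 minutes)

Group identities, checked by computer in the free group.  Suggested proof: first compute one ribbon
crossing (`run_rib_true`, `run_rib_false`, with a prefix of length 0 or 4), then apply it six times
(`run_append` or `simp [run]` on the explicit lists), finally compare the results with `group` (or
`simp [mul_assoc]`).
-/

namespace TorMut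

variable {G : Type*} [Group G]

/-- ribbon crossing, positions 0 to 3 -/
theorem run_rib0_true (g : ℕ → G) (k : ℕ) (x1 x2 y1 y2 : G) (r : List G) (w : Word) :
    run g k (x1 :: x2 :: y1 :: y2 :: r) (rib 0 true ++ w) =
      run g k (y1 :: y2 :: ((y1 * y2)⁻¹ * x1 * (y1 * y2)) :: ((y1 * y2)⁻¹ * x2 * (y1 * y2)) :: r) w := by
  simp [rib, run, mul_assoc]

theorem run_rib0_false (g : ℕ → G) (k : ℕ) (x1 x2 y1 y2 : G) (r : List G) (w : Word) :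
    run g k (x1 :: x2 :: y1 :: y2 :: r) (rib 0 false ++ w) =
      run g k (((x1 * x2) * y1 * (x1 * x2)⁻¹) :: ((x1 * x2) * y2 * (x1 * x2)⁻¹) :: x1 :: x2 :: r) w := by
  simp [rib, run, mul_assoc]

theorem run_rib4_true (g : ℕ → G) (k : ℕ) (p q s t x1 x2 y1 y2 : G) (r : List G) (w : Word) :
    run g k (p :: q :: s :: t :: x1 :: x2 :: y1 :: y2 :: r) (rib 4 true ++ w) =
      run g k (p :: q :: s :: t :: y1 :: y2 :: ((y1 * y2)⁻¹ * x1 * (y1 * y2)) ::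
        ((y1 * y2)⁻¹ * x2 * (y1 * y2)) :: r) w := by
  simp [rib, run, mul_assoc]

theorem run_rib4_false (g : ℕ → G) (k : ℕ) (p q s t x1 x2 y1 y2 : G) (r : List G) (w : Word) :
    run g k (p :: q :: s :: t :: x1 :: x2 :: y1 :: y2 :: r) (rib 4 false ++ w) =
      run g k (p :: q :: s :: t :: ((x1 * x2) * y1 * (x1 * x2)⁻¹) ::
        ((x1 * x2) * y2 * (x1 * x2)⁻¹) :: x1 :: x2 :: r) w := by
  simp [rib, run, mul_assoc]

/-- the first box; `c1`, `c2` are the new generators, `A = a1 a2`, `B = b1 b2`, `C = c1 c2`,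
`U = C A B C⁻¹` -/
theorem run_box1 (g : ℕ → G) (k : ℕ) (a1 a2 b1 b2 : G) (r : List G) (A B C U : G)
    (hA : A = a1 * a2) (hB : B = b1 * b2) (hC : C = g k * g (k + 1)) (hU : U = C * A * B * C⁻¹) :
    run g k (a1 :: a2 :: b1 :: b2 :: r) box1 =
      (((C⁻¹ * A⁻¹ * C) * g k * (C⁻¹ * A⁻¹ * C)⁻¹) ::
        ((C⁻¹ * A⁻¹ * C) * g (k + 1) * (C⁻¹ * A⁻¹ * C)⁻¹) ::
        ((C⁻¹ * B * C) * (g (k + 1))⁻¹ * (C⁻¹ * B * C)⁻¹) ::
        ((C⁻¹ * B * C) * (g k)⁻¹ * (C⁻¹ * B * C)⁻¹) :: r,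
      [(C⁻¹ * A⁻¹ * C⁻¹) * ((A * a2 * A⁻¹) * (U * (B⁻¹ * b1 * B) * U⁻¹)) * (C⁻¹ * A⁻¹ * C⁻¹)⁻¹,
       (C⁻¹ * A⁻¹ * C⁻¹) * ((A * a1 * A⁻¹) * (U * (B⁻¹ * b2 * B) * U⁻¹)) * (C⁻¹ * A⁻¹ * C⁻¹)⁻¹]) := by
  subst hA hB hC hU
  have e : box1 = .birth 2 :: .birth 3 :: (rib 0 true ++ (rib 0 true ++ (rib 0 true ++
      (rib 4 false ++ (rib 4 false ++ (rib 4 false ++ [.death 3, .death 2])))))) := rfl
  have e1 : run g k (a1 :: a2 :: b1 :: b2 :: r) box1 =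
      run g (k + 2) (a1 :: a2 :: g k :: g (k + 1) :: (g (k + 1))⁻¹ :: (g k)⁻¹ :: b1 :: b2 :: r)
        (rib 0 true ++ (rib 0 true ++ (rib 0 true ++
      (rib 4 false ++ (rib 4 false ++ (rib 4 false ++ [.death 3, .death 2])))))) := by
    rw [e]
    simp [run]
  rw [e1, run_rib0_true, run_rib0_true, run_rib0_true, run_rib4_false, run_rib4_false,
    run_rib4_false]
  simp [run, mul_assoc]

/-- the second box; `e1`, `e2` are the new generators, `E = e1 e2`, `U = E⁻¹ A⁻¹ B⁻¹ E` -/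
theorem run_box2 (g : ℕ → G) (k : ℕ) (a1 a2 b1 b2 : G) (r : List G) (A B E U : G)
    (hA : A = a1 * a2) (hB : B = b1 * b2) (hE : E = g k * g (k + 1))
    (hU : U = E⁻¹ * A⁻¹ * B⁻¹ * E) :
    run g k (a1 :: a2 :: b1 :: b2 :: r) box2 =
      (((A * E * A * E⁻¹) * g k * (A * E * A * E⁻¹)⁻¹) ::
        ((A * E * A * E⁻¹) * g (k + 1) * (A * E * A * E⁻¹)⁻¹) ::
        ((B⁻¹ * E * B⁻¹ * E⁻¹) * (g (k + 1))⁻¹ * (B⁻¹ * E * B⁻¹ * E⁻¹)⁻¹) ::
        ((B⁻¹ * E * B⁻¹ * E⁻¹) * (g k)⁻¹ * (B⁻¹ * E * B⁻¹ * E⁻¹)⁻¹) :: r,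
      [(A * E) * ((A⁻¹ * a2 * A) * (U * (B * b1 * B⁻¹) * U⁻¹)) * (A * E)⁻¹,
       (A * E) * ((A⁻¹ * a1 * A) * (U * (B * b2 * B⁻¹) * U⁻¹)) * (A * E)⁻¹]) := by
  subst hA hB hE hU
  have e : box2 = .birth 2 :: .birth 3 :: (rib 4 true ++ (rib 4 true ++ (rib 4 true ++
      (rib 0 false ++ (rib 0 false ++ (rib 0 false ++ [.death 3, .death 2])))))) := rfl
  have e1 : run g k (a1 :: a2 :: b1 :: b2 :: r) box2 =
      run g (k + 2) (a1 :: a2 :: g k :: g (k + 1) :: (g (k + 1))⁻¹ :: (g k)⁻¹ :: b1 :: b2 :: r)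
        (rib 4 true ++ (rib 4 true ++ (rib 4 true ++
      (rib 0 false ++ (rib 0 false ++ (rib 0 false ++ [.death 3, .death 2])))))) := by
    rw [e]
    simp [run]
  rw [e1, run_rib4_true, run_rib4_true, run_rib4_true, run_rib0_false, run_rib0_false,
    run_rib0_false]
  simp [run, mul_assoc]

end TorMut
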