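import Pool.Agent.Lib.MP_407fc5_gt.TDefs

/-!
# T04: the group theoretic core (about 50 minutes)

Write `S = A B`, `U = C S C⁻¹`, `K = A M`, `E = A⁻¹ C⁻¹ M`.
* (i) `E⁻¹ A⁻¹ B⁻¹ E = M⁻¹ C A (B A)⁻¹ … = M⁻¹ C S⁻¹ C⁻¹ M = M⁻¹ U⁻¹ M = U`.
* (ii) both sides conjugated by `C`: the claim is `M' C⁻¹ M' A⁻¹ M'⁻¹ = A⁻¹ C A` with `M' = M`
  (`A E = C⁻¹ M`), i.e. `M C⁻¹ M A⁻¹ M⁻¹ = A⁻¹ C A`.  With `H = C K⁻¹`: `A = K M⁻¹`, and the claim becomes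
  `H⁻¹ M = C K² M⁻¹ = C K⁻¹ M⁻¹ = H M⁻¹` (`K³ = 1`), i.e. `M² = H²`.
* (iii) the claim is equivalent to `M S M⁻¹ = A⁻¹ U⁻¹ A`, i.e. `K S K⁻¹ = U⁻¹`; here `A U B = U` is used
  in the form `A⁻¹ B⁻¹ = A⁻¹ U⁻¹ A U`.
All identities were checked numerically.
* `box_eq`: with `e2 = h⁻¹ γ2 h`, `e1 = E e2⁻¹`, `h = A E A E⁻¹`: (ii) says `h E h⁻¹ = γ1 γ2`, hence
  `h e1 h⁻¹ = γ1`; (iii) gives the last two.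
-/

namespace TorMut

variable {G : Type*} [Group G]

theorem key_one (A B C M : G)
    (h1 : M⁻¹ * (C * A * B * C⁻¹)⁻¹ * M = C * A * B * C⁻¹) :
    (A⁻¹ * C⁻¹ * M)⁻¹ * A⁻¹ * B⁻¹ * (A⁻¹ * C⁻¹ * M) = C * A * B * C⁻¹ := by
  have e : (A⁻¹ * C⁻¹ * M)⁻¹ * A⁻¹ * B⁻¹ * (A⁻¹ * C⁻¹ * M) =
      M⁻¹ * (C * A * B * C⁻¹)⁻¹ * M := by group
  rw [e, h1]

theorem key_two (A C M E : G) (hE : E = A⁻¹ * C⁻¹ * M) (h2 : (A * M) ^ 3 = 1)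
    (h4 : M ^ 2 = (C * (A * M)⁻¹) ^ 2) :
    A * E * A * E * A⁻¹ * E⁻¹ * A⁻¹ = C⁻¹ * A⁻¹ * C * A * C := by
  have hK : (A * M)⁻¹ * (A * M)⁻¹ = A * M := by
    have : (A * M) * ((A * M) * (A * M)) = 1 := by
      rw [← h2, pow_succ, pow_two, ← mul_assoc (A * M) (A * M) (A * M)]
    have h5 : (A * M) * (A * M) = (A * M)⁻¹ := by
      rw [eq_inv_iff_mul_eq_one, mul_assoc]; exact this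
    rw [← mul_inv_rev, h5, inv_inv]
  have e1 : A * E * A * E * A⁻¹ * E⁻¹ * A⁻¹ =
      C⁻¹ * (M * (A * M)⁻¹ * (C * (A * M)⁻¹)⁻¹ * M ^ 2 * (A * M)⁻¹ * M⁻¹) * C := by
    rw [hE]; group
  have e2 : C⁻¹ * (M * (A * M)⁻¹ * (C * (A * M)⁻¹)⁻¹ * (C * (A * M)⁻¹) ^ 2 * (A * M)⁻¹ * M⁻¹) * C =
      C⁻¹ * (M * (A * M)⁻¹ * C * ((A * M)⁻¹ * (A * M)⁻¹) * M⁻¹) * C := by
    generalize A * M = K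
    rw [pow_two]
    group
  rw [e1, h4, e2, hK]
  group

theorem key_three (A B C M E : G) (hE : E = A⁻¹ * C⁻¹ * M)
    (hU : A * (C * A * B * C⁻¹) * B = C * A * B * C⁻¹)
    (h3 : (A * M) * (A * B) * (A * M)⁻¹ = (C * A * B * C⁻¹)⁻¹) :
    B⁻¹ * E * B⁻¹ * A⁻¹ * E⁻¹ * A⁻¹ = C⁻¹ * B * A * C := by
  have e1 : B⁻¹ * E * B⁻¹ * A⁻¹ * E⁻¹ * A⁻¹ =
      B⁻¹ * A⁻¹ * C⁻¹ * (A⁻¹ * ((A * M) * (A * B) * (A * M)⁻¹)⁻¹ * A) * C := by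
    rw [hE]; group
  have e2 : A⁻¹ * (C * A * B * C⁻¹) = (C * A * B * C⁻¹) * B := by
    calc A⁻¹ * (C * A * B * C⁻¹) = A⁻¹ * (A * (C * A * B * C⁻¹) * B) := by rw [hU]
      _ = (C * A * B * C⁻¹) * B := by group
  rw [e1, h3, inv_inv, e2]
  group

/-- the outputs of the two boxes agree -/
theorem box_eq (A B M c1 c2 C E h e1 e2 : G) (hC : C = c1 * c2) (hE : E = A⁻¹ * C⁻¹ * M)
    (hh : h = A * E * A * E⁻¹)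
    (he2 : e2 = h⁻¹ * ((C⁻¹ * A⁻¹ * C) * c2 * (C⁻¹ * A⁻¹ * C)⁻¹) * h) (he1 : e1 = E * e2⁻¹)
    (hU : A * (C * A * B * C⁻¹) * B = C * A * B * C⁻¹)
    (h2 : (A * M) ^ 3 = 1) (h3 : (A * M) * (A * B) * (A * M)⁻¹ = (C * A * B * C⁻¹)⁻¹)
    (h4 : M ^ 2 = (C * (A * M)⁻¹) ^ 2) :
    e1 * e2 = E ∧
    h * e1 * h⁻¹ = (C⁻¹ * A⁻¹ * C) * c1 * (C⁻¹ * A⁻¹ * C)⁻¹ ∧
    h * e2 * h⁻¹ = (C⁻¹ * A⁻¹ * C) * c2 * (C⁻¹ * A⁻¹ * C)⁻¹ ∧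
    (B⁻¹ * E * B⁻¹ * E⁻¹) * e2⁻¹ * (B⁻¹ * E * B⁻¹ * E⁻¹)⁻¹ =
      (C⁻¹ * B * C) * c2⁻¹ * (C⁻¹ * B * C)⁻¹ ∧
    (B⁻¹ * E * B⁻¹ * E⁻¹) * e1⁻¹ * (B⁻¹ * E * B⁻¹ * E⁻¹)⁻¹ =
      (C⁻¹ * B * C) * c1⁻¹ * (C⁻¹ * B * C)⁻¹ := by
  have k2 := key_two A C M E hE h2 h4
  have k3 := key_three A B C M E hE hU h3
  have q1 : e1 * e2 = E := by rw [he1]; group
  have q3 : h * e2 * h⁻¹ = (C⁻¹ * A⁻¹ * C) * c2 * (C⁻¹ * A⁻¹ * C)⁻¹ := by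
    rw [he2]; group
  have hEE : h * E * h⁻¹ = C⁻¹ * A⁻¹ * C * A * C := by
    rw [← k2, hh]; group
  have q2 : h * e1 * h⁻¹ = (C⁻¹ * A⁻¹ * C) * c1 * (C⁻¹ * A⁻¹ * C)⁻¹ := by
    have : h * e1 * h⁻¹ = (h * E * h⁻¹) * (h * e2 * h⁻¹)⁻¹ := by rw [he1]; group
    rw [this, hEE, q3, hC]; group
  have hk : B⁻¹ * E * B⁻¹ * E⁻¹ = (C⁻¹ * B * A * C) * h := by
    rw [← k3, hh]; group
  have q4 : ∀ e c : G, h * e * h⁻¹ = (C⁻¹ * A⁻¹ * C) * c * (C⁻¹ * A⁻¹ * C)⁻¹ →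
      (B⁻¹ * E * B⁻¹ * E⁻¹) * e⁻¹ * (B⁻¹ * E * B⁻¹ * E⁻¹)⁻¹ =
      (C⁻¹ * B * C) * c⁻¹ * (C⁻¹ * B * C)⁻¹ := by
    intro e c hec
    have : (C⁻¹ * B * A * C) * h * e⁻¹ * ((C⁻¹ * B * A * C) * h)⁻¹ =
        (C⁻¹ * B * A * C) * (h * e * h⁻¹)⁻¹ * (C⁻¹ * B * A * C)⁻¹ := by group
    rw [hk, this, hec]; group
  exact ⟨q1, q2, q3, q4 e2 c2 q3, q4 e1 c1 q2⟩

/-- the relators of the first box are trivial iff `b1 = U⁻¹ a2⁻¹ U`, `b2 = U⁻¹ a1⁻¹ U`; the same for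
the second box if its `U` is the same -/
theorem rel_box1 (a1 a2 b1 b2 A B U g : G) (hA : A = a1 * a2) (hB : B = b1 * b2)
    (h0 : g * ((A * a2 * A⁻¹) * (U * (B⁻¹ * b1 * B) * U⁻¹)) * g⁻¹ = 1)
    (h1 : g * ((A * a1 * A⁻¹) * (U * (B⁻¹ * b2 * B) * U⁻¹)) * g⁻¹ = 1) :
    a2 * U * b1 * U⁻¹ = 1 ∧ a1 * U * b2 * U⁻¹ = 1 ∧ A * U * B = U := by
  have h0' : (A * a2 * A⁻¹) * (U * (B⁻¹ * b1 * B) * U⁻¹) = 1 := by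
    have := conj_eq_one_iff.1 h0
    exact this
  have h1' : (A * a1 * A⁻¹) * (U * (B⁻¹ * b2 * B) * U⁻¹) = 1 := by
    have := conj_eq_one_iff.1 h1
    exact this
  have r0 : A * a2 * A⁻¹ = (U * (B⁻¹ * b1 * B) * U⁻¹)⁻¹ := eq_inv_of_mul_eq_one_left h0'
  have r1 : A * a1 * A⁻¹ = (U * (B⁻¹ * b2 * B) * U⁻¹)⁻¹ := eq_inv_of_mul_eq_one_left h1'
  have hAA : A = U * B⁻¹ * U⁻¹ := by
    calc A = (A * a1 * A⁻¹) * (A * a2 * A⁻¹) := by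
          have : (A * a1 * A⁻¹) * (A * a2 * A⁻¹) = A * (a1 * a2) * A⁻¹ := by group
          rw [this, ← hA]; group
      _ = U * B⁻¹ * (b1 * b2)⁻¹ * B * U⁻¹ := by rw [r0, r1]; group
      _ = U * B⁻¹ * U⁻¹ := by rw [← hB]; group
  have hU3 : A * U * B = U := by rw [hAA]; group
  refine ⟨?_, ?_, hU3⟩
  · have : a2 * U * b1 * U⁻¹ = A⁻¹ * ((A * a2 * A⁻¹) * (U * (B⁻¹ * b1 * B) * U⁻¹)) * A := by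
      rw [hAA]; group
    rw [this, h0']; group
  · have : a1 * U * b2 * U⁻¹ = A⁻¹ * ((A * a1 * A⁻¹) * (U * (B⁻¹ * b2 * B) * U⁻¹)) * A := by
      rw [hAA]; group
    rw [this, h1']; group

theorem rel_box2 (a1 a2 b1 b2 A B U g : G) (hA : A = a1 * a2) (hB : B = b1 * b2)
    (h0 : a2 * U * b1 * U⁻¹ = 1) (h1 : a1 * U * b2 * U⁻¹ = 1) :
    g * ((A⁻¹ * a2 * A) * (U * (B * b1 * B⁻¹) * U⁻¹)) * g⁻¹ = 1 ∧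
    g * ((A⁻¹ * a1 * A) * (U * (B * b2 * B⁻¹) * U⁻¹)) * g⁻¹ = 1 := by
  have r1 : b1 = U⁻¹ * a2⁻¹ * U := by
    calc b1 = U⁻¹ * a2⁻¹ * (a2 * U * b1 * U⁻¹) * U := by group
      _ = U⁻¹ * a2⁻¹ * U := by rw [h0]; group
  have r2 : b2 = U⁻¹ * a1⁻¹ * U := by
    calc b2 = U⁻¹ * a1⁻¹ * (a1 * U * b2 * U⁻¹) * U := by group
      _ = U⁻¹ * a1⁻¹ * U := by rw [h1]; group
  have hBB : B = U⁻¹ * A⁻¹ * U := by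
    rw [hB, r1, r2, hA]; group
  rw [hBB, r1, r2]
  constructor <;> group

end TorMut
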