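import Pool.Agent.Lib.MP_407fc5_gt.NDefs
import Pool.Agent.Lib.MP_407fc5_gt.TDefs
import Pool.Agent.Lib.MP_407fc5_gt.T03
import Pool.Agent.Lib.MP_407fc5_gt.T04

/-!
# N05: core colourings as representations by involutions (about 60 minutes)

`HG G` is the semidirect product of `G × G` with the group of order 2 which swaps the factors; `hatG x =
(x, x⁻¹) τ` is an involution and `hatG x * hatG y * hatG x = hatG (x y⁻¹ x)`,
`hatG x * hatG y = (x y⁻¹, x⁻¹ y)`.  Hence running a word with the colours `hatG (c k)` in the sense of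
`run` is the same as colouring in the sense of `crun`/`cend`.
`col_box`: apply `run_box1`, `rel_box1` to the word `D₁ = top ++ box1 ++ bot` in `HG G` and read off the
components.  With `t = cend c 0 [] top = [a1, a2, b1, b2, d1, d2]`, `P = c1 c2⁻¹`, `Q = c1⁻¹ c2`,
`A1 = a1 a2⁻¹`, `A2 = a1⁻¹ a2`, `B1`, `B2` similarly, `S1 = A1 B1`, `U1 = P S1 P⁻¹`, …:
the colours below `box1` are `γ_i = Y1 c_i Y2⁻¹` (`Y1 = P⁻¹ A1⁻¹ P`, `Y2 = Q⁻¹ A2⁻¹ Q`),
`δ1 = X1 c2 X2⁻¹`, `δ2 = X1 c1 X2⁻¹` (`X1 = P⁻¹ B1 P`, `X2 = Q⁻¹ B2 Q`), and `bot` gives the last three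
conditions.  (All conditions were tested by computer.)
-/

namespace TorMut

open Core

/-- `(G × G) ⋊ C₂` -/
@[ext] structure HG (G : Type*) where
  x : G
  y : G
  t : Bool

namespace HG
variable {G : Type*} [Group G]

instance : Mul (HG G) := ⟨fun a b => if a.t then ⟨a.x * b.y, a.y * b.x, !b.t⟩
  else ⟨a.x * b.x, a.y * b.y, b.t⟩⟩
instance : One (HG G) := ⟨⟨1, 1, false⟩⟩
instance : Inv (HG G) := ⟨fun a => if a.t then ⟨a.y⁻¹, a.x⁻¹, true⟩ else ⟨a.x⁻¹, a.y⁻¹, false⟩⟩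

omit [Group G] in
lemma n05_mul_t [Group G] (a b : HG G) (h : a.t = true) :
    a * b = ⟨a.x * b.y, a.y * b.x, !b.t⟩ := by
  change (if a.t then _ else _) = _
  rw [if_pos h]

lemma n05_mul_f (a b : HG G) (h : a.t = false) : a * b = ⟨a.x * b.x, a.y * b.y, b.t⟩ := by
  change (if a.t then _ else _) = _
  rw [if_neg (by rw [h]; decide)]

lemma n05_inv_t (a : HG G) (h : a.t = true) : a⁻¹ = ⟨a.y⁻¹, a.x⁻¹, true⟩ := by
  change (if a.t then _ else _) = _
  rw [if_pos h]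

lemma n05_inv_f (a : HG G) (h : a.t = false) : a⁻¹ = ⟨a.x⁻¹, a.y⁻¹, false⟩ := by
  change (if a.t then _ else _) = _
  rw [if_neg (by rw [h]; decide)]

lemma n05_one : (1 : HG G) = ⟨1, 1, false⟩ := rfl

instance : Group (HG G) :=
  Group.ofLeftAxioms
    (by
      rintro ⟨a1, a2, at'⟩ ⟨b1, b2, bt⟩ ⟨c1, c2, ct⟩
      cases at' <;> cases bt <;> cases ct <;>
        simp [n05_mul_t, n05_mul_f, mul_assoc])
    (by
      rintro ⟨a1, a2, at'⟩
      rw [n05_one, n05_mul_f _ _ rfl]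
      simp)
    (by
      rintro ⟨a1, a2, at'⟩
      cases at'
      · rw [n05_inv_f _ rfl, n05_mul_f _ _ rfl, n05_one]
        simp
      · rw [n05_inv_t _ rfl, n05_mul_t _ _ rfl, n05_one]
        simp)

end HG

variable {G : Type*} [Group G]

def hatG (x : G) : HG G := ⟨x, x⁻¹, true⟩

lemma hatG_mul (x y : G) : hatG x * hatG y = ⟨x * y⁻¹, x⁻¹ * y, false⟩ := by
  rw [HG.n05_mul_t _ _ rfl]
  rfl

lemma hatG_inv (x : G) : (hatG x)⁻¹ = hatG x := by
  rw [HG.n05_inv_t _ rfl]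
  simp [hatG]

lemma hatG_conj (x y : G) : hatG x * hatG y * (hatG x)⁻¹ = hatG (x * y⁻¹ * x) := by
  rw [hatG_mul, hatG_inv, HG.n05_mul_f _ _ rfl]
  simp [hatG, mul_assoc]

lemma n05_inj : Function.Injective (hatG : G → HG G) := fun x y h => congrArg HG.x h

lemma n05_getD (s : List G) (i : ℕ) (h : i < s.length) :
    (s.map hatG).getD i 1 = hatG (s.getD i 1) := by
  rw [List.getD_eq_getElem _ _ (by simpa using h), List.getD_eq_getElem _ _ h, List.getElem_map]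

/-- run with the hats -/
theorem run_hatG (c : ℕ → G) (k : ℕ) (s : List G) (w : Word) (hs : OK s.length w) :
    (run (fun n => hatG (c n)) k (s.map hatG) w).1 = (cend c k s w).map hatG ∧
      (crun c k s w ↔ ∀ r ∈ (run (fun n => hatG (c n)) k (s.map hatG) w).2, r = 1) := by
  induction w generalizing k s with
  | nil => simp [run, cend, crun]
  | cons l w ih =>
    obtain ⟨h1, h2⟩ := hs
    cases l with
    | birth i =>
      simp only [Layer.ok, Layer.out] at h1 h2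
      simp only [run, cend, crun]
      have e : (s.map hatG).take i ++ [hatG (c k), (hatG (c k))⁻¹] ++ (s.map hatG).drop i =
          (ins i (c k) s).map hatG := by
        simp [ins, hatG_inv]
      have hl : (ins i (c k) s).length = s.length + 2 := by
        simp [ins]; omega
      rw [e]
      exact ih (k + 1) _ (by rw [hl]; exact h2)
    | death i =>
      simp only [Layer.ok, Layer.out] at h1 h2
      simp only [run, cend, crun]
      have e : (s.map hatG).take i ++ (s.map hatG).drop (i + 2) = (rem i s).map hatG := by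
        simp [rem]
      have hl : (rem i s).length = s.length - 2 := by
        simp [rem]; omega
      rw [e]
      obtain ⟨h3, h4⟩ := ih k (rem i s) (by rw [hl]; exact h2)
      refine ⟨h3, ?_⟩
      rw [h4, List.forall_mem_cons, n05_getD s i (by omega), n05_getD s (i + 1) (by omega), hatG_mul]
      refine and_congr_left fun _ => ?_
      rw [HG.n05_one, HG.mk.injEq]
      constructor
      · intro h
        rw [h]; simp
      · rintro ⟨h, -, -⟩
        exact mul_inv_eq_one.1 h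
    | cross i b =>
      simp only [Layer.ok, Layer.out] at h1 h2
      have hl : (cr i b s).length = s.length := by
        cases b <;>
        · simp [cr]
          omega
      have e : (run (fun n => hatG (c n)) k (s.map hatG) (Layer.cross i b :: w)) =
          run (fun n => hatG (c n)) k ((cr i b s).map hatG) w := by
        cases b
        · simp only [run, cr]
          rw [n05_getD s i (by omega), n05_getD s (i + 1) (by omega), hatG_conj]
          simp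
        · simp only [run, cr]
          rw [n05_getD s i (by omega), n05_getD s (i + 1) (by omega)]
          have : (hatG (s.getD (i + 1) 1))⁻¹ * hatG (s.getD i 1) * hatG (s.getD (i + 1) 1) =
              hatG (s.getD (i + 1) 1 * (s.getD i 1)⁻¹ * s.getD (i + 1) 1) := by
            rw [← hatG_conj, hatG_inv]
          rw [this]
          simp
      rw [e]
      exact ih k (cr i b s) (by rw [hl]; exact h2)

lemma n05_crun_append (c : ℕ → G) (k : ℕ) (s : List G) (u v : Word) :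
    crun c k s (u ++ v) ↔ crun c k s u ∧ crun c (k + births u) (cend c k s u) v := by
  induction u generalizing k s with
  | nil => simp [crun, cend, births]
  | cons l u ih =>
    cases l with
    | birth i =>
      simp only [List.cons_append, crun, cend, births]
      rw [ih, show k + 1 + births u = k + (births u + 1) by omega]
    | death i =>
      simp only [List.cons_append, crun, cend, births]
      rw [ih, and_assoc]
    | cross i b =>
      simp only [List.cons_append, crun, cend, births]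
      rw [ih]

lemma n05_six (t : List G) (ht : t.length = 6) :
    t = [t.getD 0 1, t.getD 1 1, t.getD 2 1, t.getD 3 1, t.getD 4 1, t.getD 5 1] := by
  match t, ht with
  | [x0, x1, x2, x3, x4, x5], _ => rfl

lemma n05_cend_length (c : ℕ → G) (k : ℕ) (s : List G) (w : Word) (h : OK s.length w) :
    (cend c k s w).length = width s.length w := by
  induction w generalizing k s with
  | nil => simp [cend, width]
  | cons l w ih =>
    obtain ⟨h1, h2⟩ := h
    cases l with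
    | birth i =>
      simp only [Layer.ok, Layer.out] at h1 h2
      have hl : (ins i (c k) s).length = s.length + 2 := by
        simp [ins]; omega
      simp only [cend, width, Layer.out]
      rw [ih _ _ (by rw [hl]; exact h2), hl]
    | death i =>
      simp only [Layer.ok, Layer.out] at h1 h2
      have hl : (rem i s).length = s.length - 2 := by
        simp [rem]; omega
      simp only [cend, width, Layer.out]
      rw [ih _ _ (by rw [hl]; exact h2), hl]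
    | cross i b =>
      simp only [Layer.ok, Layer.out] at h1 h2
      have hl : (cr i b s).length = s.length := by
        cases b <;>
        · simp [cr]
          omega
      simp only [cend, width, Layer.out]
      rw [ih _ _ (by rw [hl]; exact h2), hl]

lemma n05_bot (c : ℕ → G) (γ1 γ2 δ1 δ2 d1 d2 : G) (h : crun c 5 [γ1, γ2, δ1, δ2, d1, d2] bot) :
    d1 * δ2⁻¹ * d1 = d2 ∧ (δ1 * γ2⁻¹ * δ1) * δ1⁻¹ * (δ1 * γ2⁻¹ * δ1) = d1 ∧
      γ1 = δ1 * γ2⁻¹ * δ1 := by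
  have e : crun c 5 [γ1, γ2, δ1, δ2, d1, d2] bot ↔ (d1 * δ2⁻¹ * d1 = d2 ∧
      (δ1 * γ2⁻¹ * δ1) * δ1⁻¹ * (δ1 * γ2⁻¹ * δ1) = d1 ∧ γ1 = δ1 * γ2⁻¹ * δ1 ∧ True) := Iff.rfl
  exact ⟨(e.1 h).1, (e.1 h).2.1, (e.1 h).2.2.1⟩

/-- necessary conditions for a colouring of `D₁` -/
theorem col_box (c : ℕ → G) (h : Col D₁ c) (t : List G) (ht : t = cend c 0 [] top)
    (a1 a2 b1 b2 d1 d2 c1 c2 A1 A2 B1 B2 P Q S1 S2 : G)
    (ha1 : a1 = t.getD 0 1) (ha2 : a2 = t.getD 1 1) (hb1 : b1 = t.getD 2 1) (hb2 : b2 = t.getD 3 1)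
    (hd1 : d1 = t.getD 4 1) (hd2 : d2 = t.getD 5 1) (hc1 : c1 = c 3) (hc2 : c2 = c 4)
    (hA1 : A1 = a1 * a2⁻¹) (hA2 : A2 = a1⁻¹ * a2) (hB1 : B1 = b1 * b2⁻¹) (hB2 : B2 = b1⁻¹ * b2)
    (hP : P = c1 * c2⁻¹) (hQ : Q = c1⁻¹ * c2) (hS1 : S1 = A1 * B1) (hS2 : S2 = A2 * B2) :
    A1 * (P * S1 * P⁻¹) * B1 = P * S1 * P⁻¹ ∧
    A2 * (Q * S2 * Q⁻¹) * B2 = Q * S2 * Q⁻¹ ∧
    (P * S1 * P⁻¹) * b1 * (Q * S2 * Q⁻¹)⁻¹ = a2 ∧
    (P⁻¹ * (B1 * P)) * c1 * (Q⁻¹ * (B2⁻¹ * Q)) = d1 * d2⁻¹ * d1 ∧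
    (∀ δ1 u : G, δ1 = (P⁻¹ * (B1 * P)) * c2 * (Q⁻¹ * (B2⁻¹ * Q)) →
      u = δ1 * ((P⁻¹ * (A1⁻¹ * P)) * c2 * (Q⁻¹ * (A2 * Q)))⁻¹ * δ1 →
      (P⁻¹ * (A1⁻¹ * P)) * c1 * (Q⁻¹ * (A2 * Q)) = u ∧ u * δ1⁻¹ * u = d1) := by
  have hD : D₁ = top ++ (box1 ++ bot) := by rw [D₁, List.append_assoc]
  rw [Col, hD, n05_crun_append, n05_crun_append] at h
  obtain ⟨-, h1, h2⟩ := h
  rw [← ht] at h1 h2
  have htl : t = [a1, a2, b1, b2, d1, d2] := by
    have hlen : t.length = 6 := by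
      rw [ht, n05_cend_length _ _ _ _ (by simp [top, OK, Layer.ok, Layer.out])]
      simp [top, width, Layer.out]
    rw [ha1, ha2, hb1, hb2, hd1, hd2]
    exact n05_six t hlen
  have hb : births top = 3 := rfl
  have hb' : births box1 = 2 := rfl
  rw [hb, Nat.zero_add] at h1 h2
  rw [hb'] at h2
  have hOK : OK t.length box1 := by
    rw [htl]
    simp [box1, rib, OK, Layer.ok, Layer.out]
  obtain ⟨r1, r2⟩ := run_hatG c 3 t box1 hOK
  have r3 := r2.1 h1
  have hrun := run_box1 (fun n => hatG (c n)) 3 (hatG a1) (hatG a2) (hatG b1) (hatG b2)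
    [hatG d1, hatG d2] ⟨A1, A2, false⟩ ⟨B1, B2, false⟩ ⟨P, Q, false⟩
    ⟨P * S1 * P⁻¹, Q * S2 * Q⁻¹, false⟩ (by rw [hatG_mul, hA1, hA2]) (by rw [hatG_mul, hB1, hB2])
    (by rw [hatG_mul, ← hc1, ← hc2, hP, hQ]) (by
      rw [HG.n05_mul_f _ _ rfl, HG.n05_mul_f _ _ rfl, HG.n05_inv_f _ rfl, HG.n05_mul_f _ _ rfl,
        hS1, hS2]
      simp only [mul_assoc])
  have hmap : t.map hatG = hatG a1 :: hatG a2 :: hatG b1 :: hatG b2 :: [hatG d1, hatG d2] := by
    rw [htl]; rfl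
  rw [hmap, hrun] at r1 r3
  simp only [List.mem_cons, List.not_mem_nil, or_false, forall_eq_or_imp, forall_eq] at r3
  obtain ⟨q1, q2⟩ := r3
  obtain ⟨k1, k2, k3⟩ := rel_box1 (hatG a1) (hatG a2) (hatG b1) (hatG b2) ⟨A1, A2, false⟩
    ⟨B1, B2, false⟩ ⟨P * S1 * P⁻¹, Q * S2 * Q⁻¹, false⟩ _
    (by rw [hatG_mul, hA1, hA2]) (by rw [hatG_mul, hB1, hB2]) q1 q2
  rw [HG.n05_mul_f _ _ rfl, HG.n05_mul_f _ _ rfl, HG.mk.injEq] at k3
  have e1 : A1 * (P * S1 * P⁻¹) * B1 = P * S1 * P⁻¹ := k3.1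
  have e2 : A2 * (Q * S2 * Q⁻¹) * B2 = Q * S2 * Q⁻¹ := k3.2.1
  have e3 : (P * S1 * P⁻¹) * b1 * (Q * S2 * Q⁻¹)⁻¹ = a2 := by
    rw [HG.n05_mul_t (hatG a2) _ rfl] at k1
    rw [HG.n05_mul_t _ (hatG b1) rfl, HG.n05_inv_f _ rfl, HG.n05_mul_f _ _ rfl, HG.n05_one,
      HG.mk.injEq] at k1
    have k := k1.2.1
    simp only [hatG] at k
    calc (P * S1 * P⁻¹) * b1 * (Q * S2 * Q⁻¹)⁻¹ =
        a2 * (a2⁻¹ * (P * S1 * P⁻¹) * b1 * (Q * S2 * Q⁻¹)⁻¹) := by group
      _ = a2 := by rw [k, mul_one]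
  -- conjugates
  have hconj : ∀ (M1 M2 R1 R2 : G) (x : G), (⟨P, Q, false⟩ : HG G)⁻¹ * ⟨R1, R2, false⟩ *
      ⟨P, Q, false⟩ * hatG x * ((⟨P, Q, false⟩ : HG G)⁻¹ * ⟨R1, R2, false⟩ * ⟨P, Q, false⟩)⁻¹ =
      hatG ((P⁻¹ * (R1 * P)) * x * (Q⁻¹ * (R2⁻¹ * Q))) := by
    intro _ _ R1 R2 x
    have e : (⟨P, Q, false⟩ : HG G)⁻¹ * ⟨R1, R2, false⟩ * ⟨P, Q, false⟩ =
        ⟨P⁻¹ * R1 * P, Q⁻¹ * R2 * Q, false⟩ := by
      rw [HG.n05_inv_f _ rfl, HG.n05_mul_f _ _ rfl, HG.n05_mul_f _ _ rfl]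
    rw [e, HG.n05_inv_f _ rfl, HG.n05_mul_f _ (hatG x) rfl, HG.n05_mul_t _ _ rfl]
    simp only [hatG, HG.mk.injEq]
    refine ⟨?_, ?_, rfl⟩
    · group
    · group
  have hinvA : (⟨A1, A2, false⟩ : HG G)⁻¹ = ⟨A1⁻¹, A2⁻¹, false⟩ := HG.n05_inv_f _ rfl
  have hcend : cend c 3 t box1 = [(P⁻¹ * (A1⁻¹ * P)) * c1 * (Q⁻¹ * (A2 * Q)),
      (P⁻¹ * (A1⁻¹ * P)) * c2 * (Q⁻¹ * (A2 * Q)), (P⁻¹ * (B1 * P)) * c2 * (Q⁻¹ * (B2⁻¹ * Q)),
      (P⁻¹ * (B1 * P)) * c1 * (Q⁻¹ * (B2⁻¹ * Q)), d1, d2] := by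
    apply List.map_injective_iff.2 n05_inj
    rw [← r1, hatG_inv, hatG_inv, ← hc1, ← hc2, hinvA, hconj 1 1, hconj 1 1, hconj 1 1, hconj 1 1,
      inv_inv]
    rfl
  rw [hcend] at h2
  obtain ⟨g1, g2, g3⟩ := n05_bot c _ _ _ _ _ _ h2
  refine ⟨e1, e2, e3, ?_, ?_⟩
  · generalize (P⁻¹ * (B1 * P)) * c1 * (Q⁻¹ * (B2⁻¹ * Q)) = z at g1 ⊢
    rw [← g1]
    group
  · intro δ1 u hδ hu
    rw [← hδ] at g2 g3
    rw [← hu] at g2 g3
    exact ⟨g3, g2⟩

end TorMut
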