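import Pool.Agent.Lib.MP_407fc5_gt.N05
import Pool.Agent.Lib.MP_407fc5_gt.NData

/-!
# N06: the list of all normalised colourings of the first knot (about 60 minutes)

`cendN_eq`: the tables compute `cend` (induction on the word; `forceL_eq`, `A60.mul_val`,
`A60.inv_val`).  `enum_all`: unfold `enumOK` at the value of `h 1` (five cases), instantiate
`allN_iff` at `h 2`, at `P = (c1 c2⁻¹).val` and (unless `B1 = B2 = 1`, in which case `c1 = e` by the
fourth condition of `col_box`) at `c1`; the conditions of `col_box` show that all alternatives except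
the last one fail.
-/

namespace TorMut

open Core

/-- the number of an element -/
def n06_f (x : A60) : ℕ := x.val.1

lemma n06_mul (x y : A60) : mulN (n06_f x) (n06_f y) = n06_f (x * y) := rfl

lemma n06_inv (x : A60) : invN (n06_f x) = n06_f x⁻¹ := rfl

lemma n06_core (x y : A60) : coreN (n06_f x) (n06_f y) = n06_f (x * y⁻¹ * x) := rfl

lemma n06_getD (s : List A60) (i : ℕ) : (s.map n06_f).getD i 0 = n06_f (s.getD i 1) := by
  rw [List.getD_eq_getElem?_getD, List.getD_eq_getElem?_getD, List.getElem?_map]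
  cases s[i]? with
  | none => rfl
  | some a => rfl

lemma n06_cendN (c : ℕ → A60) (l : List Nat) (k : ℕ) (s : List A60) (w : Word)
    (hl : ∀ n, k ≤ n → n < k + births w → l.getD n 0 = n06_f (c n)) :
    cendN l k (s.map n06_f) w = (cend c k s w).map n06_f := by
  induction w generalizing k s with
  | nil => rfl
  | cons a w ih =>
    cases a with
    | birth i =>
      simp only [births] at hl
      simp only [cendN, cend, forceL_eq]
      rw [hl k le_rfl (by omega)]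
      have e : (s.map n06_f).take i ++ [n06_f (c k), n06_f (c k)] ++ (s.map n06_f).drop i =
          (ins i (c k) s).map n06_f := by
        simp [ins]
      rw [e]
      exact ih _ _ fun n h1 h2 => hl n (by omega) (by omega)
    | death i =>
      simp only [births] at hl
      simp only [cendN, cend, forceL_eq]
      have e : (s.map n06_f).take i ++ (s.map n06_f).drop (i + 2) = (rem i s).map n06_f := by
        simp [rem]
      rw [e]
      exact ih _ _ hl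
    | cross i b =>
      simp only [births] at hl
      cases b
      · simp only [cendN, cend, forceL_eq]
        rw [n06_getD, n06_getD, n06_core]
        have e : (s.map n06_f).take i ++ [n06_f (s.getD i 1 * (s.getD (i + 1) 1)⁻¹ * s.getD i 1),
            n06_f (s.getD i 1)] ++ (s.map n06_f).drop (i + 2) = (cr i false s).map n06_f := by
          simp [cr]
        rw [e]
        exact ih _ _ hl
      · simp only [cendN, cend, forceL_eq]
        rw [n06_getD, n06_getD, n06_core]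
        have e : (s.map n06_f).take i ++ [n06_f (s.getD (i + 1) 1),
            n06_f (s.getD (i + 1) 1 * (s.getD i 1)⁻¹ * s.getD (i + 1) 1)] ++
              (s.map n06_f).drop (i + 2) = (cr i true s).map n06_f := by
          simp [cr]
        rw [e]
        exact ih _ _ hl

theorem cendN_eq (c : ℕ → A60) (l : List Nat) (k : ℕ) (s : List A60) (w : Word)
    (hl : ∀ n, k ≤ n → n < k + births w → l.getD n 0 = (c n).val.1) :
    cendN l k (s.map fun x => x.val.1) w = (cend c k s w).map fun x => x.val.1 :=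
  n06_cendN c l k s w hl

lemma n06_if (b : Bool) (e n : ℕ) (F : ℕ → Bool)
    (h : (if b then (fun f => f e) else allN 60) F = true) (hn : n < 60) (hb : b = true → e = n) :
    F n = true := by
  cases hb' : b
  · rw [hb'] at h
    exact (allN_iff 60 F).1 h n hn
  · rw [hb'] at h
    rw [← hb hb']
    exact h

lemma n06_beq (x : ℕ) : Nat.beq x x = true := Nat.beq_refl x

lemma n06_rel (A B S P : A60) (h : A * (P * S * P⁻¹) * B = P * S * P⁻¹) :
    relN (n06_f A) (n06_f B) (n06_f S) (n06_f P) = true := by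
  unfold relN
  rw [forceN_eq, n06_inv, n06_mul, n06_mul, n06_mul, n06_mul, h]
  exact Nat.beq_refl _

theorem enum_all (h : ℕ → A60) (hc : Col D₁ h) (h0 : (h 0).val.1 = 0)
    (h1 : (h 1).val.1 ∈ [0, 1, 3, 16, 17]) :
    [(h 0).val.1, (h 1).val.1, (h 2).val.1, (h 3).val.1, (h 4).val.1] ∈ goodList := by
  have key : enumOK (n06_f (h 1)) = true := by
    change n06_f (h 1) ∈ _ at h1
    simp only [List.mem_cons, List.not_mem_nil, or_false] at h1
    rcases h1 with e | e | e | e | e <;> rw [e]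
    exacts [enumOK_0, enumOK_1, enumOK_3, enumOK_16, enumOK_17]
  change [n06_f (h 0), n06_f (h 1), n06_f (h 2), n06_f (h 3), n06_f (h 4)] ∈ goodList
  change n06_f (h 0) = 0 at h0
  unfold enumOK at key
  rw [allN_iff] at key
  have k2 := key (n06_f (h 2)) (h 2).val.2
  rw [forceL_eq] at k2
  have ht : cendN [0, n06_f (h 1), n06_f (h 2)] 0 [] top = (cend h 0 [] top).map n06_f := by
    refine n06_cendN h _ 0 [] top ?_
    intro n _ hn
    have hb : births top = 3 := rfl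
    rw [hb] at hn
    have : n = 0 ∨ n = 1 ∨ n = 2 := by omega
    rcases this with e | e | e <;> rw [e]
    · exact h0.symm
    · rfl
    · rfl
  obtain ⟨t, htt⟩ : ∃ t, t = cend h 0 [] top := ⟨_, rfl⟩
  rw [ht, ← htt] at k2
  simp only [n06_getD] at k2
  obtain ⟨a1, ha1⟩ : ∃ x, x = t.getD 0 1 := ⟨_, rfl⟩
  obtain ⟨a2, ha2⟩ : ∃ x, x = t.getD 1 1 := ⟨_, rfl⟩
  obtain ⟨b1, hb1⟩ : ∃ x, x = t.getD 2 1 := ⟨_, rfl⟩
  obtain ⟨b2, hb2⟩ : ∃ x, x = t.getD 3 1 := ⟨_, rfl⟩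
  obtain ⟨d1, hd1⟩ : ∃ x, x = t.getD 4 1 := ⟨_, rfl⟩
  obtain ⟨d2, hd2⟩ : ∃ x, x = t.getD 5 1 := ⟨_, rfl⟩
  obtain ⟨c1, hc1⟩ : ∃ x, x = h 3 := ⟨_, rfl⟩
  obtain ⟨c2, hc2⟩ : ∃ x, x = h 4 := ⟨_, rfl⟩
  rw [← hc1, ← hc2]
  rw [← ha1, ← ha2, ← hb1, ← hb2, ← hd1, ← hd2] at k2
  obtain ⟨P, hP⟩ : ∃ x, x = c1 * c2⁻¹ := ⟨_, rfl⟩
  obtain ⟨Q, hQ⟩ : ∃ x, x = c1⁻¹ * c2 := ⟨_, rfl⟩
  obtain ⟨A1, hA1⟩ : ∃ x, x = a1 * a2⁻¹ := ⟨_, rfl⟩
  obtain ⟨A2, hA2⟩ : ∃ x, x = a1⁻¹ * a2 := ⟨_, rfl⟩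
  obtain ⟨B1, hB1⟩ : ∃ x, x = b1 * b2⁻¹ := ⟨_, rfl⟩
  obtain ⟨B2, hB2⟩ : ∃ x, x = b1⁻¹ * b2 := ⟨_, rfl⟩
  obtain ⟨S1, hS1⟩ : ∃ x, x = A1 * B1 := ⟨_, rfl⟩
  obtain ⟨S2, hS2⟩ : ∃ x, x = A2 * B2 := ⟨_, rfl⟩
  obtain ⟨e1, e2, e3, e4, e5⟩ := col_box h hc t htt a1 a2 b1 b2 d1 d2 c1 c2 A1 A2 B1 B2 P Q S1 S2
    ha1 ha2 hb1 hb2 hd1 hd2 hc1 hc2 hA1 hA2 hB1 hB2 hP hQ hS1 hS2
  rw [forceN_eq, forceN_eq, forceN_eq, forceN_eq, forceN_eq, forceN_eq, forceN_eq] at k2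
  rw [n06_inv a2, n06_mul a1 a2⁻¹, ← hA1, n06_inv a1, n06_mul a1⁻¹ a2, ← hA2, n06_inv b2,
    n06_mul b1 b2⁻¹, ← hB1, n06_inv b1, n06_mul b1⁻¹ b2, ← hB2, n06_core, n06_mul A1 B1,
    n06_mul A2 B2, ← hS1, ← hS2] at k2
  rw [allN_iff] at k2
  have k3 := k2 (n06_f P) P.val.2
  rw [n06_rel A1 B1 S1 P e1, Bool.not_true, Bool.false_or, forceN_eq, forceN_eq] at k3
  have k4 := n06_if _ _ (n06_f c1) _ k3 c1.val.2 (by
    intro hb
    rw [Bool.and_eq_true] at hb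
    have q1 : n06_f B1 = 0 := Nat.eq_of_beq_eq_true hb.1
    have q2 : n06_f B2 = 0 := Nat.eq_of_beq_eq_true hb.2
    have r1 : B1 = 1 := A60.ext' q1
    have r2 : B2 = 1 := A60.ext' q2
    rw [← e4, r1, r2]
    congr 1
    group)
  have hc2' : P⁻¹ * c1 = c2 := by rw [hP]; group
  rw [n06_inv P, n06_mul P⁻¹ c1, hc2', forceN_eq, n06_inv c1, n06_mul c1⁻¹ c2, ← hQ, forceN_eq,
    n06_inv B2, n06_mul B2⁻¹ Q, n06_inv Q, n06_mul Q⁻¹ (B2⁻¹ * Q), forceN_eq, n06_mul B1 P,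
    n06_mul P⁻¹ (B1 * P), n06_mul (P⁻¹ * (B1 * P)) c1, n06_mul _ (Q⁻¹ * (B2⁻¹ * Q)), e4,
    n06_beq, n06_rel A2 B2 S2 Q e2, Bool.not_true, Bool.false_or, Bool.false_or] at k4
  obtain ⟨δ1, hδ⟩ : ∃ x, x = (P⁻¹ * (B1 * P)) * c2 * (Q⁻¹ * (B2⁻¹ * Q)) := ⟨_, rfl⟩
  obtain ⟨u, hu⟩ : ∃ x, x = δ1 * ((P⁻¹ * (A1⁻¹ * P)) * c2 * (Q⁻¹ * (A2 * Q)))⁻¹ * δ1 := ⟨_, rfl⟩
  obtain ⟨g1, g2⟩ := e5 δ1 u hδ hu
  rw [n06_mul (P⁻¹ * (B1 * P)) c2, n06_mul _ (Q⁻¹ * (B2⁻¹ * Q)), ← hδ, forceN_eq, n06_mul A2 Q,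
    n06_mul Q⁻¹ (A2 * Q), forceN_eq, n06_inv A1, n06_mul A1⁻¹ P, n06_mul P⁻¹ (A1⁻¹ * P),
    n06_mul _ c2, n06_mul _ (Q⁻¹ * (A2 * Q)), n06_core, ← hu, forceN_eq, n06_mul _ c1,
    n06_mul _ (Q⁻¹ * (A2 * Q)), g1, n06_beq, n06_core, g2, n06_beq, n06_mul P S1, n06_mul _ P⁻¹,
    n06_mul _ b1, n06_mul Q S2, n06_mul _ Q⁻¹, n06_inv, n06_mul, e3, n06_beq] at k4
  simp only [Bool.not_true, Bool.false_or] at k4
  rw [h0]
  exact List.contains_iff_mem.1 k4

end TorMut
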