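import Pool.Agent.Lib.MP_407fc5_gt.NDefs

/-!
# N07: the linear equations for lifts

`evalF f w` is the value of the form `f` at the vector `w`.
-/

namespace TorMut

open Core

/-- the vector of the 25 coordinates -/
def coord {D : Word} (hD : births D = 5) (w : Fin (births D) → PM 13) (j : Fin 25) : ZMod 13 :=
  w ⟨j.1 / 5, by have := j.2; omega⟩ (⟨j.1 % 5, Nat.mod_lt _ (by norm_num)⟩ : Fin 5)

/-- value of a form -/
def evalF (f : Form) (x : Fin 25 → ZMod 13) : ZMod 13 := ∑ j : Fin 25, (f.getD j.1 0 : ZMod 13) * x j

/-- forms of length 25 with entries less than 13 -/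
def N07G (f : Form) : Prop := f.length = 25 ∧ ∀ a ∈ f, a < 13

lemma N07_zipWith_getD (F : ℕ → ℕ → ℕ) (f g : List ℕ) (hf : f.length = 25) (hg : g.length = 25)
    (j : ℕ) (hj : j < 25) :
    (List.zipWith F f g).getD j 0 = F (f.getD j 0) (g.getD j 0) := by
  have h1 : j < f.length := by omega
  have h2 : j < g.length := by omega
  have h3 : j < (List.zipWith F f g).length := by
    rw [List.length_zipWith]; omega
  rw [List.getD_eq_getElem _ _ h1, List.getD_eq_getElem _ _ h2, List.getD_eq_getElem _ _ h3,
    List.getElem_zipWith]

lemma N07_getD_lt {f : Form} (hf : N07G f) (j : ℕ) (hj : j < 25) : f.getD j 0 < 13 := by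
  have h1 : j < f.length := by rw [hf.1]; exact hj
  rw [List.getD_eq_getElem _ _ h1]
  exact hf.2 _ (List.getElem_mem h1)

lemma N07_fadd {f g : Form} (hf : N07G f) (hg : N07G g) : N07G (fadd f g) := by
  refine ⟨?_, ?_⟩
  · rw [fadd, List.length_zipWith, hf.1, hg.1]; rfl
  · intro a ha
    rw [fadd, List.mem_iff_getElem] at ha
    obtain ⟨i, hi, rfl⟩ := ha
    rw [List.getElem_zipWith]
    exact Nat.mod_lt _ (by norm_num)

lemma N07_fsub {f g : Form} (hf : N07G f) (hg : N07G g) : N07G (fsub f g) := by
  refine ⟨?_, ?_⟩
  · rw [fsub, List.length_zipWith, hf.1, hg.1]; rfl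
  · intro a ha
    rw [fsub, List.mem_iff_getElem] at ha
    obtain ⟨i, hi, rfl⟩ := ha
    rw [List.getElem_zipWith]
    exact Nat.mod_lt _ (by norm_num)

lemma N07_funit (j : ℕ) : N07G (funit j) := by
  refine ⟨?_, ?_⟩
  · simp [funit]
  · intro a ha
    rw [funit, List.mem_map] at ha
    obtain ⟨i, _, rfl⟩ := ha
    split_ifs <;> norm_num

lemma N07_evalF_fadd {f g : Form} (hf : N07G f) (hg : N07G g) (x : Fin 25 → ZMod 13) :
    evalF (fadd f g) x = evalF f x + evalF g x := by
  unfold evalF
  rw [← Finset.sum_add_distrib]
  refine Finset.sum_congr rfl fun j _ => ?_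
  rw [fadd, N07_zipWith_getD _ _ _ hf.1 hg.1 j.1 j.2, ← add_mul]
  congr 1
  change (((f.getD j.1 0 + g.getD j.1 0) % 13 : ℕ) : ZMod 13) = _
  rw [ZMod.natCast_mod, Nat.cast_add]

lemma N07_evalF_fsub {f g : Form} (hf : N07G f) (hg : N07G g) (x : Fin 25 → ZMod 13) :
    evalF (fsub f g) x = evalF f x - evalF g x := by
  unfold evalF
  rw [← Finset.sum_sub_distrib]
  refine Finset.sum_congr rfl fun j _ => ?_
  rw [fsub, N07_zipWith_getD _ _ _ hf.1 hg.1 j.1 j.2, ← sub_mul]
  congr 1
  change (((f.getD j.1 0 + (13 - g.getD j.1 0)) % 13 : ℕ) : ZMod 13) = _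
  have h := N07_getD_lt hg j.1 j.2
  rw [ZMod.natCast_mod, Nat.cast_add, Nat.cast_sub h.le]
  have h13 : ((13 : ℕ) : ZMod 13) = 0 := ZMod.natCast_self 13
  rw [h13]; ring

lemma N07_evalF_funit (j : Fin 25) (x : Fin 25 → ZMod 13) : evalF (funit j.1) x = x j := by
  unfold evalF
  rw [Finset.sum_eq_single j]
  · have : (funit j.1).getD j.1 0 = 1 := by
      have h : j.1 < (funit j.1).length := by rw [(N07_funit j.1).1]; exact j.2
      rw [List.getD_eq_getElem _ _ h]
      simp [funit]
    rw [this]; simp
  · intro i _ hij
    have : (funit j.1).getD i.1 0 = 0 := by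
      have h : i.1 < (funit j.1).length := by rw [(N07_funit j.1).1]; exact i.2
      rw [List.getD_eq_getElem _ _ h]
      have hne : i.1 ≠ j.1 := fun h => hij (Fin.ext h)
      simp [funit, hne]
    rw [this]; simp
  · intro h; exact absurd (Finset.mem_univ j) h

/-! ## the table -/

lemma N07_tab_lt : tabN < 2 ^ 21600 := by decide +kernel

lemma N07_mulN_lt (x y : ℕ) : mulN x y < 60 := by
  have h0 : mulN x y = (tabN >>> (6 * (60 * x + y))) % 64 := rfl
  set n := 60 * x + y with hn
  rcases lt_or_ge n 3600 with h | h
  · have h1 : mulN (n / 60) (n % 60) = (tabN >>> (6 * (60 * (n / 60) + n % 60))) % 64 := rfl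
    rw [Nat.div_add_mod] at h1
    rw [h0, ← h1]
    exact mulN_lt _ _ (by omega) (by omega)
  · rw [h0, Nat.shiftRight_eq_div_pow]
    have h2 : tabN / 2 ^ (6 * n) = 0 := by
      apply Nat.div_eq_of_lt
      refine lt_of_lt_of_le N07_tab_lt ?_
      exact Nat.pow_le_pow_right (by norm_num) (by omega)
    rw [h2]; norm_num

/-! ## good strands -/

/-- five good forms -/
def N07S (X : Nat × List Form) : Prop := X.2.length = 5 ∧ ∀ f ∈ X.2, N07G f

lemma N07S_getD {X : Nat × List Form} (h : N07S X) (i : ℕ) (hi : i < 5) : N07G (X.2.getD i []) := by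
  have h1 : i < X.2.length := by rw [h.1]; exact hi
  rw [List.getD_eq_getElem _ _ h1]
  exact h.2 _ (List.getElem_mem h1)

lemma N07_fcore_eq (x y : Nat × List Form) : fcore x y = (List.range 5).map fun i =>
    fadd (x.2.getD i []) (fsub (x.2.getD (ptN (mulN y.1 (invN x.1)) i) [])
      (y.2.getD (ptN (mulN y.1 (invN x.1)) i) [])) := by
  unfold fcore
  rw [forceN_eq]

lemma N07S_fcore (n : ℕ) {x y : Nat × List Form} (hx : N07S x) (hy : N07S y) :
    N07S (n, fcore x y) := by
  rw [N07_fcore_eq]
  refine ⟨by simp, ?_⟩
  intro f hf
  rw [List.mem_map] at hf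
  obtain ⟨i, hi, rfl⟩ := hf
  rw [List.mem_range] at hi
  have hp := ptN_lt (mulN y.1 (invN x.1)) i (N07_mulN_lt _ _) hi
  exact N07_fadd (N07S_getD hx i hi) (N07_fsub (N07S_getD hx _ hp) (N07S_getD hy _ hp))

lemma N07S_fbirth (c : List ℕ) (k n : ℕ) : N07S (n, (fbirth c k).2) := by
  refine ⟨by simp [fbirth], ?_⟩
  intro f hf
  simp only [fbirth, List.mem_map] at hf
  obtain ⟨i, _, rfl⟩ := hf
  exact N07_funit _

lemma N07_getD_mem {α : Type*} {P : α → Prop} {s : List α} (hs : ∀ X ∈ s, P X) (i : ℕ) (d : α)
    (hi : i < s.length) : P (s.getD i d) := by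
  rw [List.getD_eq_getElem _ _ hi]
  exact hs _ (List.getElem_mem hi)

/-- bounds, induction -/
lemma N07_bounds (c : List ℕ) : ∀ (D : Word) (k : ℕ) (S : List (Nat × List Form)) (eqs : List Form),
    OK S.length D → (∀ X ∈ S, N07S X) → frun c k S D = some eqs → ∀ f ∈ eqs, N07G f := by
  intro D
  induction D with
  | nil =>
    intro k S eqs _ _ he
    simp only [frun, Option.some.injEq] at he
    subst he; simp
  | cons l D ih =>
    intro k S eqs hOK hS he
    obtain ⟨hl, hOK'⟩ := hOK
    cases l with
    | birth i =>
      simp only [frun, forceN_eq, forceLL_eq, forceSp_eq] at he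
      have hi : i ≤ S.length := hl
      refine ih _ _ eqs ?_ ?_ he
      · convert hOK' using 1
        simp only [List.length_append, List.length_take, List.length_drop, List.length_cons,
          List.length_nil, Layer.out]
        omega
      · intro X hX
        simp only [List.mem_append, List.mem_cons, List.not_mem_nil, or_false] at hX
        rcases hX with (hX | hX) | hX
        · exact hS X (List.mem_of_mem_take hX)
        · rcases hX with rfl | rfl
          · exact N07S_fbirth c k _
          · exact N07S_fbirth c k _
        · exact hS X (List.mem_of_mem_drop hX)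
    | death i =>
      have hi : i + 2 ≤ S.length := hl
      simp only [frun] at he
      split_ifs at he with hcol
      rw [forceLL_eq] at he
      cases hr : frun c k (S.take i ++ S.drop (i + 2)) D with
      | none => rw [hr] at he; simp at he
      | some l =>
        rw [hr] at he
        simp only [Option.some.injEq] at he
        have hrec := ih k _ l (by
          convert hOK' using 1
          simp only [List.length_append, List.length_take, List.length_drop, Layer.out]
          omega) (by
            intro X hX
            rw [List.mem_append] at hX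
            rcases hX with hX | hX
            · exact hS X (List.mem_of_mem_take hX)
            · exact hS X (List.mem_of_mem_drop hX)) hr
        intro f hf
        rw [← he, List.mem_append] at hf
        rcases hf with hf | hf
        · rw [List.mem_map] at hf
          obtain ⟨j, hj, rfl⟩ := hf
          rw [List.mem_range] at hj
          exact N07_fsub (N07S_getD (N07_getD_mem hS i _ (by omega)) j hj)
            (N07S_getD (N07_getD_mem hS (i + 1) _ (by omega)) j hj)
        · exact hrec f hf
    | cross i b =>
      have hi : i + 2 ≤ S.length := hl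
      have h0 := N07_getD_mem hS i (0, []) (by omega)
      have h1 := N07_getD_mem hS (i + 1) (0, []) (by omega)
      cases b with
      | true =>
        simp only [frun, forceN_eq, forceLL_eq, forceSp_eq] at he
        refine ih _ _ eqs ?_ ?_ he
        · convert hOK' using 1
          simp only [List.length_append, List.length_take, List.length_drop, List.length_cons,
            List.length_nil, Layer.out]
          omega
        · intro X hX
          simp only [List.mem_append, List.mem_cons, List.not_mem_nil, or_false] at hX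
          rcases hX with (hX | hX) | hX
          · exact hS X (List.mem_of_mem_take hX)
          · rcases hX with rfl | rfl
            · exact h1
            · exact N07S_fcore _ h1 h0
          · exact hS X (List.mem_of_mem_drop hX)
      | false =>
        simp only [frun, forceN_eq, forceLL_eq, forceSp_eq] at he
        refine ih _ _ eqs ?_ ?_ he
        · convert hOK' using 1
          simp only [List.length_append, List.length_take, List.length_drop, List.length_cons,
            List.length_nil, Layer.out]
          omega
        · intro X hX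
          simp only [List.mem_append, List.mem_cons, List.not_mem_nil, or_false] at hX
          rcases hX with (hX | hX) | hX
          · exact hS X (List.mem_of_mem_take hX)
          · rcases hX with rfl | rfl
            · exact N07S_fcore _ h0 h1
            · exact h0
          · exact hS X (List.mem_of_mem_drop hX)

/-! ## the relation between colours and forms -/

/-- the strand `X` describes the colour `x` at the vector `w` -/
def N07R (w : Fin 25 → ZMod 13) (x : SG (PM 13)) (X : Nat × List Form) : Prop :=
  X.1 = x.g.val.1 ∧ N07S X ∧ ∀ i : Fin 5, evalF (X.2.getD i.1 []) w = x.v i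

lemma N07R_core (w : Fin 25 → ZMod 13) {x y : SG (PM 13)} {X Y : Nat × List Form}
    (hx : N07R w x X) (hy : N07R w y Y) :
    N07R w (x * y⁻¹ * x) (coreN X.1 Y.1, fcore X Y) := by
  obtain ⟨hx1, hx2, hx3⟩ := hx
  obtain ⟨hy1, hy2, hy3⟩ := hy
  refine ⟨?_, N07S_fcore _ hx2 hy2, ?_⟩
  · change coreN X.1 Y.1 = (x.g * y.g⁻¹ * x.g).val.1
    rw [A60.mul_val, A60.mul_val, A60.inv_val, ← hx1, ← hy1]
    rfl
  · intro i
    have hi : i.1 < 5 := i.2
    have hκ : mulN Y.1 (invN X.1) = (y.g * x.g⁻¹).val.1 := by
      rw [A60.mul_val, A60.inv_val, ← hx1, ← hy1]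
    have hpt : ptN (mulN Y.1 (invN X.1)) i.1 = (A60.pt (y.g * x.g⁻¹) i).1 := by
      rw [hκ]; rfl
    have hp : ptN (mulN Y.1 (invN X.1)) i.1 < 5 := by rw [hpt]; exact (A60.pt _ i).2
    change evalF ((fcore X Y).getD i.1 []) w = _
    rw [N07_fcore_eq]
    have hlen : i.1 < ((List.range 5).map fun i =>
      fadd (X.2.getD i []) (fsub (X.2.getD (ptN (mulN Y.1 (invN X.1)) i) [])
        (Y.2.getD (ptN (mulN Y.1 (invN X.1)) i) []))).length := by simp
    rw [List.getD_eq_getElem _ _ hlen, List.getElem_map, List.getElem_range]
    rw [N07_evalF_fadd (N07S_getD hx2 _ hi) (N07_fsub (N07S_getD hx2 _ hp) (N07S_getD hy2 _ hp)),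
      N07_evalF_fsub (N07S_getD hx2 _ hp) (N07S_getD hy2 _ hp), hx3 i, hpt, hx3, hy3]
    have hv : (x * y⁻¹ * x).v = x.v + x.g • (-(y.g⁻¹ • y.v)) + (x.g * y.g⁻¹) • x.v := rfl
    rw [hv, smul_neg, ← mul_smul]
    have hinv : (x.g * y.g⁻¹)⁻¹ = y.g * x.g⁻¹ := by group
    have e1 : ((x.g * y.g⁻¹) • x.v : PM 13) i = x.v (A60.pt (y.g * x.g⁻¹) i) := by
      rw [PM.smul_apply, hinv]
    have e2 : ((x.g * y.g⁻¹) • y.v : PM 13) i = y.v (A60.pt (y.g * x.g⁻¹) i) := by
      rw [PM.smul_apply, hinv]
    change _ = x.v i + -(((x.g * y.g⁻¹) • y.v : PM 13) i) + ((x.g * y.g⁻¹) • x.v : PM 13) i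
    rw [e1, e2]; ring

lemma N07R_eq (w : Fin 25 → ZMod 13) {x y : SG (PM 13)} {X Y : Nat × List Form}
    (hx : N07R w x X) (hy : N07R w y Y) (hcol : X.1 = Y.1) :
    x = y ↔ ∀ f ∈ (List.range 5).map (fun j => fsub (X.2.getD j []) (Y.2.getD j [])),
      evalF f w = 0 := by
  obtain ⟨hx1, hx2, hx3⟩ := hx
  obtain ⟨hy1, hy2, hy3⟩ := hy
  have hg : x.g = y.g := A60.ext' (by rw [← hx1, ← hy1, hcol])
  have key : ∀ j (hj : j < 5), evalF (fsub (X.2.getD j []) (Y.2.getD j [])) w =
      x.v ⟨j, hj⟩ - y.v ⟨j, hj⟩ := by
    intro j hj
    rw [N07_evalF_fsub (N07S_getD hx2 _ hj) (N07S_getD hy2 _ hj)]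
    have a := hx3 ⟨j, hj⟩
    have b := hy3 ⟨j, hj⟩
    simp only at a b
    rw [a, b]
  constructor
  · rintro rfl f hf
    rw [List.mem_map] at hf
    obtain ⟨j, hj, rfl⟩ := hf
    rw [List.mem_range] at hj
    rw [key j hj, sub_self]
  · intro h
    have hv : x.v = y.v := by
      funext j
      have := h _ (List.mem_map.2 ⟨j.1, List.mem_range.2 j.2, rfl⟩)
      rw [key j.1 j.2] at this
      exact sub_eq_zero.1 this
    exact SG.ext hv hg

lemma N07_forall₂_getD {α β : Type*} {R : α → β → Prop} {s : List α} {S : List β}
    (h : List.Forall₂ R s S) (i : ℕ) (a : α) (b : β) (hi : i < s.length) :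
    R (s.getD i a) (S.getD i b) := by
  have hi' : i < S.length := by rw [← h.length_eq]; exact hi
  rw [List.getD_eq_getElem _ _ hi, List.getD_eq_getElem _ _ hi']
  exact List.Forall₂.get h hi hi'

lemma N07_main (w : Fin 25 → ZMod 13) (cw : ℕ → SG (PM 13)) (c : List ℕ)
    (hc1 : ∀ k, k < 5 → c.getD k 0 = (cw k).g.val.1)
    (hc2 : ∀ k (hk : k < 5) (i : Fin 5), (cw k).v i = w ⟨5 * k + i.1, by have := i.2; omega⟩) :
    ∀ (D : Word) (k : ℕ) (s : List (SG (PM 13))) (S : List (Nat × List Form)) (eqs : List Form),
      births D + k = 5 → OK S.length D → List.Forall₂ (N07R w) s S → frun c k S D = some eqs →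
      (crun cw k s D ↔ ∀ f ∈ eqs, evalF f w = 0) := by
  intro D
  induction D with
  | nil =>
    intro k s S eqs _ _ _ he
    simp only [frun, Option.some.injEq] at he
    subst he; simp [crun]
  | cons l D ih =>
    intro k s S eqs hb hOK hS he
    obtain ⟨hl, hOK'⟩ := hOK
    have hlen := hS.length_eq
    cases l with
    | birth i =>
      have hi : i ≤ S.length := hl
      have hb' : births D + 1 + k = 5 := by simpa [births] using hb
      have hk : k < 5 := by omega
      simp only [frun, forceN_eq, forceLL_eq, forceSp_eq] at he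
      have hR : N07R w (cw k) (c.getD k 0, (fbirth c k).2) := by
        refine ⟨hc1 k hk, N07S_fbirth c k _, ?_⟩
        intro j
        have h1 : (fbirth c k).2.getD j.1 [] = funit (5 * k + j.1) := by
          have hl : j.1 < ((List.range 5).map fun i => funit (5 * k + i)).length := by simp
          change ((List.range 5).map fun i => funit (5 * k + i)).getD j.1 [] = _
          rw [List.getD_eq_getElem _ _ hl, List.getElem_map, List.getElem_range]
        change evalF ((fbirth c k).2.getD j.1 []) w = _
        rw [h1, hc2 k hk j]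
        exact N07_evalF_funit ⟨5 * k + j.1, by have := j.2; omega⟩ w
      have := ih (k + 1) (ins i (cw k) s) _ eqs (by omega) (by
        convert hOK' using 1
        simp only [List.length_append, List.length_take, List.length_drop, List.length_cons,
          List.length_nil, Layer.out]
        omega) (by
          unfold ins
          exact List.rel_append (List.rel_append (List.forall₂_take i hS)
            (List.Forall₂.cons hR (List.Forall₂.cons hR List.Forall₂.nil)))
            (List.forall₂_drop i hS)) he
      rw [← this]; rfl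
    | death i =>
      have hi : i + 2 ≤ S.length := hl
      have hb' : births D + k = 5 := by simpa [births] using hb
      have h0 := N07_forall₂_getD hS i 1 (0, []) (by omega)
      have h1 := N07_forall₂_getD hS (i + 1) 1 (0, []) (by omega)
      simp only [frun] at he
      split_ifs at he with hcol
      rw [forceLL_eq] at he
      have hcol' : (S.getD i (0, [])).1 = (S.getD (i + 1) (0, [])).1 := Nat.eq_of_beq_eq_true hcol
      cases hr : frun c k (S.take i ++ S.drop (i + 2)) D with
      | none => rw [hr] at he; simp at he
      | some l =>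
        rw [hr] at he
        simp only [Option.some.injEq] at he
        have hrec := ih k (rem i s) _ l hb' (by
          convert hOK' using 1
          simp only [List.length_append, List.length_take, List.length_drop, Layer.out]
          omega) (by
            unfold rem
            exact List.rel_append (List.forall₂_take i hS) (List.forall₂_drop (i + 2) hS)) hr
        change (s.getD i 1 = s.getD (i + 1) 1 ∧ crun cw k (rem i s) D) ↔ _
        rw [hrec, N07R_eq w h0 h1 hcol', ← he]
        simp only [List.mem_append]
        constructor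
        · rintro ⟨ha, hb⟩ f (hf | hf)
          · exact ha f hf
          · exact hb f hf
        · intro h
          exact ⟨fun f hf => h f (Or.inl hf), fun f hf => h f (Or.inr hf)⟩
    | cross i b =>
      have hi : i + 2 ≤ S.length := hl
      have hb' : births D + k = 5 := by simpa [births] using hb
      have h0 := N07_forall₂_getD hS i 1 (0, []) (by omega)
      have h1 := N07_forall₂_getD hS (i + 1) 1 (0, []) (by omega)
      cases b with
      | true =>
        simp only [frun, forceN_eq, forceLL_eq, forceSp_eq] at he
        have := ih k (cr i true s) _ eqs hb' (by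
          convert hOK' using 1
          simp only [List.length_append, List.length_take, List.length_drop, List.length_cons,
            List.length_nil, Layer.out]
          omega) (by
            unfold cr
            exact List.rel_append (List.rel_append (List.forall₂_take i hS)
              (List.Forall₂.cons h1 (List.Forall₂.cons (N07R_core w h1 h0) List.Forall₂.nil)))
              (List.forall₂_drop (i + 2) hS)) he
        rw [← this]; rfl
      | false =>
        simp only [frun, forceN_eq, forceLL_eq, forceSp_eq] at he
        have := ih k (cr i false s) _ eqs hb' (by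
          convert hOK' using 1
          simp only [List.length_append, List.length_take, List.length_drop, List.length_cons,
            List.length_nil, Layer.out]
          omega) (by
            unfold cr
            exact List.rel_append (List.rel_append (List.forall₂_take i hS)
              (List.Forall₂.cons (N07R_core w h0 h1) (List.Forall₂.cons h0 List.Forall₂.nil)))
              (List.forall₂_drop (i + 2) hS)) he
        rw [← this]; rfl

theorem frun_iff (D : Word) (hD : births D = 5) (hOK : OK 0 D) (h : ℕ → A60) (l : List Nat)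
    (hl : l = [(h 0).val.1, (h 1).val.1, (h 2).val.1, (h 3).val.1, (h 4).val.1])
    (eqs : List Form) (he : frun l 0 [] D = some eqs) (w : Fin (births D) → PM 13) :
    w ∈ Lifts (PM 13) D h ↔ ∀ f ∈ eqs, evalF f (coord hD w) = 0 := by
  have := N07_main (coord hD w)
    (fun k => (⟨if hk : k < births D then w ⟨k, hk⟩ else 0, h k⟩ : SG (PM 13))) l ?_ ?_ D 0 [] [] eqs
    (by rw [hD]) hOK List.Forall₂.nil he
  · exact this
  · intro k hk
    rw [hl]
    interval_cases k <;> rfl
  · intro k hk i
    have hk' : k < births D := by rw [hD]; exact hk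
    have hi := i.2
    change (if hk : k < births D then w ⟨k, hk⟩ else 0 : PM 13) i = _
    rw [dif_pos hk']
    unfold coord
    have e1 : (5 * k + i.1) / 5 = k := by omega
    have e2 : (5 * k + i.1) % 5 = i.1 := by omega
    exact congr (congrArg w (Fin.ext e1.symm)) (Fin.ext e2.symm)

/-- the equations have length 25 and entries less than 13 -/
theorem frun_bounds (D : Word) (hOK : OK 0 D) (l : List Nat) (eqs : List Form)
    (he : frun l 0 [] D = some eqs) : ∀ f ∈ eqs, f.length = 25 ∧ ∀ a ∈ f, a < 13 :=
  N07_bounds l D 0 [] eqs hOK (by simp) he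

end TorMut
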