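import Pool.Agent.Lib.MP_407fc5_gt.NData

/-!
# MP_407fc5_gt, part N: kernel computations (ranks)
-/

namespace TorMut

/-- linear combination of forms -/
def comb : List Nat → List Form → Form
  | c :: l, f :: m => forceL (comb l m) fun r =>
      forceL (List.zipWith (fun a b => Nat.mod (Nat.add (Nat.mul c a) b) 13) f r) fun x => x
  | _, _ => List.replicate 25 0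

/-- `m` (16 lists of multipliers) shows that the forms `eqs` determine the coordinates `9, …, 24` in
terms of the coordinates `0, …, 8` -/
def certOK (eqs : List Form) (m : List (List Nat)) : Bool :=
  allN 16 fun j => forceL ((comb (m.getD j []) eqs).drop 9) fun r => r == (funit (9 + j)).drop 9

/-- the linear equations of the colouring `h` of `D` satisfy the certificate `m` -/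
def colOK (D : Word) (h : List Nat) (m : List (List Nat)) : Bool :=
  match frun h 0 [] D with
  | none => false
  | some eqs => forceLL eqs fun eqs' => certOK eqs' m

/-- multipliers for the colourings in `goodList` -/
def certs : List (List Nat × List (List Nat)) :=
  [([0, 0, 0, 0, 0], [[0, 0, 0, 0, 1, 0, 0, 0, 0, 12, 0, 0, 0, 0, 0, 0, 0, 0, 0, 0, 0, 0, 0, 0, 0],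
    [0, 0, 0, 0, 0, 12, 0, 0, 0, 0, 0, 0, 0, 0, 0, 0, 0, 0, 0, 0, 0, 0, 0, 0, 0],
    [0, 0, 0, 0, 0, 0, 12, 0, 0, 0, 0, 0, 0, 0, 0, 0, 0, 0, 0, 0, 0, 0, 0, 0, 0],
    [0, 0, 0, 0, 0, 0, 0, 12, 0, 0, 0, 0, 0, 0, 0, 0, 0, 0, 0, 0, 0, 0, 0, 0, 0],
    [0, 0, 0, 0, 0, 0, 0, 0, 12, 0, 0, 0, 0, 0, 0, 0, 0, 0, 0, 0, 0, 0, 0, 0, 0],
    [0, 0, 0, 0, 0, 0, 0, 0, 0, 12, 0, 0, 0, 0, 0, 0, 0, 0, 0, 0, 0, 0, 0, 0, 0],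
    [5, 0, 0, 0, 0, 6, 0, 0, 0, 0, 12, 0, 0, 0, 0, 0, 0, 0, 0, 0, 0, 0, 0, 0, 0],
    [0, 5, 0, 0, 0, 0, 6, 0, 0, 0, 0, 12, 0, 0, 0, 0, 0, 0, 0, 0, 0, 0, 0, 0, 0],
    [0, 0, 5, 0, 0, 0, 0, 6, 0, 0, 0, 0, 12, 0, 0, 0, 0, 0, 0, 0, 0, 0, 0, 0, 0],
    [0, 0, 0, 5, 0, 0, 0, 0, 6, 0, 0, 0, 0, 12, 0, 0, 0, 0, 0, 0, 0, 0, 0, 0, 0],
    [0, 0, 0, 0, 5, 0, 0, 0, 0, 6, 0, 0, 0, 0, 12, 0, 0, 0, 0, 0, 0, 0, 0, 0, 0],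
    [8, 0, 0, 0, 0, 3, 0, 0, 0, 0, 0, 0, 0, 0, 0, 1, 0, 0, 0, 0, 0, 0, 0, 0, 0],
    [0, 8, 0, 0, 0, 0, 3, 0, 0, 0, 0, 0, 0, 0, 0, 0, 1, 0, 0, 0, 0, 0, 0, 0, 0],
    [0, 0, 8, 0, 0, 0, 0, 3, 0, 0, 0, 0, 0, 0, 0, 0, 0, 1, 0, 0, 0, 0, 0, 0, 0],
    [0, 0, 0, 8, 0, 0, 0, 0, 3, 0, 0, 0, 0, 0, 0, 0, 0, 0, 1, 0, 0, 0, 0, 0, 0],
    [0, 0, 0, 0, 8, 0, 0, 0, 0, 3, 0, 0, 0, 0, 0, 0, 0, 0, 0, 1, 0, 0, 0, 0, 0]]),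
   ([0, 16, 17, 24, 48], [[1, 1, 1, 1, 1, 12, 12, 12, 12, 12, 0, 0, 0, 0, 0, 0, 0, 0, 0, 0, 0, 0, 0, 0, 0],
    [10, 5, 10, 9, 8, 3, 7, 9, 9, 7, 3, 1, 9, 0, 0, 0, 9, 0, 4, 0, 0, 0, 0, 0, 0],
    [5, 9, 9, 4, 11, 8, 8, 0, 2, 8, 7, 3, 3, 0, 0, 9, 8, 0, 9, 0, 0, 0, 0, 0, 0],
    [1, 9, 0, 4, 11, 8, 8, 0, 0, 10, 7, 3, 3, 0, 0, 9, 8, 0, 9, 0, 0, 0, 0, 0, 0],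
    [9, 3, 1, 8, 1, 12, 12, 7, 3, 8, 6, 10, 10, 0, 0, 4, 5, 0, 4, 0, 0, 0, 0, 0, 0],
    [1, 0, 6, 1, 8, 7, 3, 9, 11, 5, 3, 9, 1, 0, 0, 4, 9, 0, 0, 0, 0, 0, 0, 0, 0],
    [1, 5, 12, 11, 3, 1, 4, 1, 3, 9, 11, 0, 1, 0, 0, 3, 7, 0, 3, 0, 0, 0, 0, 0, 0],
    [5, 4, 8, 12, 3, 4, 1, 1, 2, 10, 11, 1, 0, 0, 0, 3, 7, 0, 3, 0, 0, 0, 0, 0, 0],
    [10, 5, 2, 10, 2, 10, 10, 6, 8, 0, 5, 10, 10, 0, 0, 4, 5, 0, 4, 0, 0, 0, 0, 0, 0],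
    [12, 9, 0, 6, 4, 8, 8, 12, 12, 5, 11, 7, 7, 0, 0, 8, 10, 0, 8, 0, 0, 0, 0, 0, 0],
    [3, 9, 9, 6, 4, 8, 8, 12, 8, 9, 11, 7, 7, 0, 0, 8, 10, 0, 8, 0, 0, 0, 0, 0, 0],
    [1, 6, 12, 11, 5, 2, 0, 5, 5, 3, 11, 2, 0, 0, 0, 12, 11, 0, 4, 0, 0, 0, 0, 0, 0],
    [1, 0, 12, 4, 5, 0, 2, 5, 5, 3, 11, 0, 2, 0, 0, 4, 11, 0, 12, 0, 0, 0, 0, 0, 0],
    [4, 12, 2, 5, 12, 4, 10, 0, 12, 2, 8, 11, 7, 0, 0, 12, 5, 0, 10, 0, 0, 0, 0, 0, 0],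
    [3, 2, 0, 12, 0, 0, 0, 7, 8, 5, 1, 6, 6, 0, 0, 2, 10, 0, 2, 0, 0, 0, 0, 0, 0],
    [10, 0, 9, 4, 12, 10, 4, 0, 10, 4, 8, 7, 11, 0, 0, 10, 5, 0, 12, 0, 0, 0, 0, 0, 0]]),
   ([0, 16, 20, 49, 48], [[1, 1, 1, 1, 1, 12, 12, 12, 12, 12, 0, 0, 0, 0, 0, 0, 0, 0, 0, 0, 0, 0, 0, 0, 0],
    [3, 9, 4, 4, 5, 1, 0, 9, 8, 8, 3, 3, 7, 0, 0, 8, 0, 9, 0, 9, 0, 0, 0, 0, 0],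
    [3, 0, 4, 4, 1, 1, 0, 7, 10, 8, 3, 3, 7, 0, 0, 8, 0, 9, 0, 9, 0, 0, 0, 0, 0],
    [10, 2, 9, 9, 10, 5, 6, 8, 7, 11, 10, 10, 6, 0, 0, 5, 0, 4, 0, 4, 0, 0, 0, 0, 0],
    [2, 5, 0, 4, 0, 1, 10, 2, 6, 8, 9, 1, 3, 0, 0, 9, 0, 0, 0, 4, 0, 0, 0, 0, 0],
    [8, 10, 9, 5, 10, 4, 9, 12, 7, 3, 1, 9, 3, 0, 0, 9, 0, 4, 0, 0, 0, 0, 0, 0, 0],
    [2, 8, 12, 5, 5, 3, 1, 0, 10, 4, 1, 0, 11, 0, 0, 7, 0, 3, 0, 3, 0, 0, 0, 0, 0],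
    [10, 2, 10, 10, 10, 5, 6, 0, 0, 10, 10, 10, 5, 0, 0, 5, 0, 4, 0, 4, 0, 0, 0, 0, 0],
    [7, 0, 6, 6, 12, 10, 12, 10, 5, 8, 7, 7, 11, 0, 0, 10, 0, 8, 0, 8, 0, 0, 0, 0, 0],
    [7, 9, 6, 6, 3, 10, 12, 6, 9, 8, 7, 7, 11, 0, 0, 10, 0, 8, 0, 8, 0, 0, 0, 0, 0],
    [3, 12, 11, 5, 1, 6, 1, 1, 9, 1, 0, 1, 11, 0, 0, 7, 0, 3, 0, 3, 0, 0, 0, 0, 0],
    [11, 12, 4, 7, 1, 4, 5, 3, 3, 0, 0, 2, 11, 0, 0, 11, 0, 12, 0, 4, 0, 0, 0, 0, 0],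
    [7, 2, 5, 4, 4, 2, 0, 7, 2, 4, 11, 7, 8, 0, 0, 5, 0, 10, 0, 12, 0, 0, 0, 0, 0],
    [4, 1, 0, 0, 4, 11, 6, 8, 4, 12, 6, 6, 1, 0, 0, 10, 0, 2, 0, 2, 0, 0, 0, 0, 0],
    [7, 8, 3, 3, 9, 10, 1, 6, 5, 11, 7, 11, 8, 0, 0, 5, 0, 12, 0, 10, 0, 0, 0, 0, 0],
    [4, 12, 11, 7, 1, 2, 5, 3, 3, 2, 2, 0, 11, 0, 0, 11, 0, 4, 0, 12, 0, 0, 0, 0, 0]]),
   ([0, 16, 25, 2, 48], [[2, 12, 1, 2, 1, 0, 0, 11, 11, 12, 1, 1, 11, 0, 0, 0, 0, 0, 0, 0, 0, 0, 0, 0, 0],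
    [2, 11, 2, 2, 10, 0, 0, 0, 5, 6, 6, 11, 2, 10, 10, 4, 5, 4, 0, 0, 0, 0, 0, 0, 0],
    [7, 12, 9, 0, 9, 0, 0, 5, 12, 10, 5, 3, 8, 9, 1, 0, 9, 4, 0, 0, 0, 0, 0, 0, 0],
    [0, 12, 5, 7, 0, 0, 0, 3, 1, 10, 7, 1, 8, 1, 9, 4, 9, 0, 0, 0, 0, 0, 0, 0, 0],
    [9, 8, 0, 7, 1, 0, 0, 8, 5, 0, 3, 0, 4, 3, 3, 9, 8, 9, 0, 0, 0, 0, 0, 0, 0],
    [9, 7, 10, 11, 6, 0, 0, 8, 1, 12, 6, 12, 2, 3, 3, 9, 8, 9, 0, 0, 0, 0, 0, 0, 0],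
    [1, 8, 9, 10, 3, 0, 0, 3, 4, 12, 4, 5, 2, 7, 7, 8, 10, 8, 0, 0, 0, 0, 0, 0, 0],
    [10, 8, 0, 1, 12, 0, 0, 7, 0, 12, 8, 1, 2, 7, 7, 8, 10, 8, 0, 0, 0, 0, 0, 0, 0],
    [2, 2, 8, 2, 5, 0, 0, 3, 1, 1, 3, 11, 10, 0, 1, 3, 7, 3, 0, 0, 0, 0, 0, 0, 0],
    [0, 3, 11, 0, 0, 0, 0, 9, 12, 2, 3, 9, 12, 1, 0, 3, 7, 3, 0, 0, 0, 0, 0, 0, 0],
    [12, 9, 3, 12, 11, 0, 0, 3, 8, 5, 1, 6, 11, 10, 10, 4, 5, 4, 0, 0, 0, 0, 0, 0, 0],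
    [9, 12, 1, 9, 4, 0, 0, 6, 3, 6, 9, 6, 12, 6, 6, 2, 10, 2, 0, 0, 0, 0, 0, 0, 0],
    [0, 0, 2, 3, 4, 0, 0, 9, 6, 0, 11, 1, 9, 7, 11, 12, 5, 10, 0, 0, 0, 0, 0, 0, 0],
    [8, 0, 12, 1, 1, 0, 0, 7, 3, 5, 10, 8, 6, 2, 0, 4, 11, 12, 0, 0, 0, 0, 0, 0, 0],
    [12, 1, 11, 6, 0, 0, 0, 7, 7, 6, 9, 7, 8, 0, 2, 12, 11, 4, 0, 0, 0, 0, 0, 0, 0],
    [3, 0, 9, 0, 10, 0, 0, 1, 1, 0, 9, 3, 9, 11, 7, 10, 5, 12, 0, 0, 0, 0, 0, 0, 0]]),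
   ([0, 16, 31, 52, 48], [[1, 1, 0, 1, 2, 12, 0, 12, 12, 11, 0, 1, 0, 12, 0, 0, 0, 0, 0, 0, 0, 0, 0, 0, 0],
    [0, 9, 6, 9, 1, 5, 0, 10, 8, 3, 3, 5, 0, 2, 3, 8, 9, 0, 9, 0, 0, 0, 0, 0, 0],
    [2, 4, 9, 2, 10, 1, 0, 7, 11, 5, 10, 6, 0, 0, 10, 5, 4, 0, 4, 0, 0, 0, 0, 0, 0],
    [5, 4, 2, 9, 4, 1, 0, 6, 8, 12, 1, 5, 0, 11, 9, 9, 0, 0, 4, 0, 0, 0, 0, 0, 0],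
    [9, 12, 0, 5, 11, 1, 0, 8, 4, 1, 9, 7, 0, 9, 1, 9, 4, 0, 0, 0, 0, 0, 0, 0, 0],
    [10, 10, 8, 1, 1, 4, 0, 7, 7, 3, 3, 4, 0, 3, 3, 8, 9, 0, 9, 0, 0, 0, 0, 0, 0],
    [3, 6, 2, 3, 7, 0, 0, 12, 9, 8, 10, 1, 0, 4, 10, 5, 4, 0, 4, 0, 0, 0, 0, 0, 0],
    [0, 9, 0, 9, 0, 2, 0, 5, 8, 4, 7, 4, 0, 7, 7, 10, 8, 0, 8, 0, 0, 0, 0, 0, 0],
    [9, 9, 9, 0, 4, 2, 0, 9, 8, 0, 7, 8, 0, 3, 7, 10, 8, 0, 8, 0, 0, 0, 0, 0, 0],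
    [11, 3, 0, 7, 6, 8, 0, 10, 2, 3, 1, 2, 0, 9, 0, 7, 3, 0, 3, 0, 0, 0, 0, 0, 0],
    [8, 5, 12, 12, 8, 7, 0, 10, 4, 10, 0, 4, 0, 7, 1, 7, 3, 0, 3, 0, 0, 0, 0, 0, 0],
    [2, 0, 3, 9, 8, 8, 0, 2, 4, 1, 7, 9, 0, 12, 11, 5, 10, 0, 12, 0, 0, 0, 0, 0, 0],
    [1, 3, 5, 1, 12, 9, 0, 4, 12, 3, 6, 9, 0, 5, 6, 10, 2, 0, 2, 0, 0, 0, 0, 0, 0],
    [9, 12, 1, 2, 11, 8, 0, 4, 10, 6, 11, 11, 0, 10, 7, 5, 12, 0, 10, 0, 0, 0, 0, 0, 0],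
    [11, 12, 8, 11, 1, 8, 0, 4, 3, 5, 0, 9, 0, 2, 2, 11, 4, 0, 12, 0, 0, 0, 0, 0, 0],
    [12, 6, 8, 12, 10, 7, 0, 3, 0, 5, 2, 10, 0, 1, 0, 11, 12, 0, 4, 0, 0, 0, 0, 0, 0]]),
   ([0, 16, 56, 6, 48], [[1, 2, 2, 0, 0, 11, 12, 12, 12, 0, 0, 0, 0, 0, 0, 1, 0, 12, 0, 0, 0, 0, 0, 0, 0],
    [3, 7, 6, 0, 0, 4, 2, 3, 9, 4, 5, 11, 9, 1, 0, 6, 4, 3, 0, 0, 0, 0, 0, 0, 0],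
    [6, 5, 0, 0, 0, 0, 3, 8, 10, 6, 1, 2, 1, 9, 0, 9, 0, 0, 0, 4, 0, 0, 0, 0, 0],
    [6, 1, 5, 0, 0, 4, 3, 8, 0, 11, 5, 2, 3, 3, 0, 9, 9, 12, 0, 9, 0, 0, 0, 0, 0],
    [2, 1, 9, 0, 0, 6, 12, 8, 0, 0, 9, 11, 3, 3, 0, 0, 9, 8, 0, 9, 0, 0, 0, 0, 0],
    [9, 12, 6, 0, 0, 11, 5, 11, 6, 4, 6, 0, 10, 10, 0, 2, 4, 3, 0, 4, 0, 0, 0, 0, 0],
    [1, 12, 5, 0, 0, 3, 5, 8, 12, 4, 3, 8, 7, 7, 0, 9, 8, 1, 0, 8, 0, 0, 0, 0, 0],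
    [2, 0, 4, 0, 0, 11, 0, 4, 1, 2, 1, 10, 0, 1, 0, 12, 3, 8, 0, 3, 0, 0, 0, 0, 0],
    [7, 0, 12, 0, 0, 11, 8, 1, 1, 10, 9, 2, 1, 0, 0, 8, 3, 12, 0, 3, 0, 0, 0, 0, 0],
    [10, 12, 7, 0, 0, 3, 5, 10, 6, 10, 5, 0, 10, 10, 0, 2, 4, 3, 0, 4, 0, 0, 0, 0, 0],
    [10, 12, 9, 0, 0, 12, 1, 8, 12, 12, 7, 4, 7, 7, 0, 0, 8, 10, 0, 8, 0, 0, 0, 0, 0],
    [7, 6, 9, 0, 0, 0, 5, 4, 0, 6, 5, 3, 7, 11, 0, 9, 10, 9, 0, 12, 0, 0, 0, 0, 0],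
    [4, 0, 5, 0, 0, 5, 1, 0, 5, 4, 1, 10, 2, 0, 0, 12, 12, 12, 0, 4, 0, 0, 0, 0, 0],
    [10, 0, 12, 0, 0, 12, 5, 2, 5, 4, 8, 3, 0, 2, 0, 12, 4, 12, 0, 12, 0, 0, 0, 0, 0],
    [1, 4, 12, 0, 0, 12, 8, 11, 1, 1, 10, 11, 11, 7, 0, 1, 12, 4, 0, 10, 0, 0, 0, 0, 0],
    [0, 5, 4, 0, 0, 4, 11, 12, 6, 8, 1, 0, 6, 6, 0, 1, 2, 9, 0, 2, 0, 0, 0, 0, 0]]),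
   ([0, 17, 16, 24, 36], [[1, 1, 1, 1, 1, 12, 12, 12, 12, 12, 0, 0, 0, 0, 0, 0, 0, 0, 0, 0, 0, 0, 0, 0, 0],
    [9, 4, 9, 7, 8, 4, 8, 10, 8, 10, 3, 1, 9, 0, 0, 0, 9, 0, 0, 4, 0, 0, 0, 0, 0],
    [5, 9, 9, 11, 4, 8, 8, 0, 8, 2, 7, 3, 3, 0, 0, 9, 8, 0, 0, 9, 0, 0, 0, 0, 0],
    [1, 9, 0, 11, 4, 8, 8, 0, 10, 0, 7, 3, 3, 0, 0, 9, 8, 0, 0, 9, 0, 0, 0, 0, 0],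
    [1, 0, 6, 8, 1, 7, 3, 9, 5, 11, 3, 9, 1, 0, 0, 4, 9, 0, 0, 0, 0, 0, 0, 0, 0],
    [10, 4, 2, 2, 9, 11, 11, 6, 7, 2, 6, 10, 10, 0, 0, 4, 5, 0, 0, 4, 0, 0, 0, 0, 0],
    [1, 5, 12, 3, 11, 1, 4, 1, 9, 3, 11, 0, 1, 0, 0, 3, 7, 0, 0, 3, 0, 0, 0, 0, 0],
    [5, 4, 8, 3, 12, 4, 1, 1, 10, 2, 11, 1, 0, 0, 0, 3, 7, 0, 0, 3, 0, 0, 0, 0, 0],
    [10, 5, 2, 2, 10, 10, 10, 6, 0, 8, 5, 10, 10, 0, 0, 4, 5, 0, 0, 4, 0, 0, 0, 0, 0],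
    [3, 9, 9, 4, 6, 8, 8, 12, 9, 8, 11, 7, 7, 0, 0, 8, 10, 0, 0, 8, 0, 0, 0, 0, 0],
    [12, 9, 0, 4, 6, 8, 8, 12, 5, 12, 11, 7, 7, 0, 0, 8, 10, 0, 0, 8, 0, 0, 0, 0, 0],
    [1, 6, 12, 5, 11, 2, 0, 5, 3, 5, 11, 2, 0, 0, 0, 12, 11, 0, 0, 4, 0, 0, 0, 0, 0],
    [1, 0, 12, 5, 4, 0, 2, 5, 3, 5, 11, 0, 2, 0, 0, 4, 11, 0, 0, 12, 0, 0, 0, 0, 0],
    [3, 11, 1, 11, 4, 5, 11, 1, 3, 0, 8, 11, 7, 0, 0, 12, 5, 0, 0, 10, 0, 0, 0, 0, 0],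
    [10, 0, 9, 12, 4, 10, 4, 0, 4, 10, 8, 7, 11, 0, 0, 10, 5, 0, 0, 12, 0, 0, 0, 0, 0],
    [4, 3, 1, 1, 0, 12, 12, 6, 4, 7, 1, 6, 6, 0, 0, 2, 10, 0, 0, 2, 0, 0, 0, 0, 0]]),
   ([0, 17, 23, 37, 36], [[2, 1, 1, 1, 0, 11, 12, 0, 12, 12, 0, 0, 1, 12, 0, 0, 0, 0, 0, 0, 0, 0, 0, 0, 0],
    [7, 9, 4, 5, 0, 10, 0, 0, 8, 8, 3, 3, 11, 9, 0, 8, 0, 9, 9, 0, 0, 0, 0, 0, 0],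
    [7, 0, 4, 1, 0, 10, 0, 11, 8, 10, 3, 3, 11, 9, 0, 8, 0, 9, 9, 0, 0, 0, 0, 0, 0],
    [4, 1, 8, 9, 0, 11, 7, 4, 12, 8, 10, 10, 1, 5, 0, 5, 0, 4, 4, 0, 0, 0, 0, 0, 0],
    [0, 10, 9, 10, 0, 12, 9, 4, 3, 7, 1, 9, 8, 8, 0, 9, 0, 4, 0, 0, 0, 0, 0, 0, 0],
    [8, 6, 1, 1, 0, 8, 9, 6, 7, 5, 9, 1, 8, 8, 0, 9, 0, 0, 4, 0, 0, 0, 0, 0, 0],
    [7, 8, 12, 5, 0, 11, 1, 5, 4, 10, 1, 0, 3, 8, 0, 7, 0, 3, 3, 0, 0, 0, 0, 0, 0],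
    [7, 2, 10, 10, 0, 8, 6, 10, 10, 0, 10, 10, 2, 3, 0, 5, 0, 4, 4, 0, 0, 0, 0, 0, 0],
    [0, 0, 6, 12, 0, 4, 12, 3, 8, 5, 7, 7, 4, 7, 0, 10, 0, 8, 8, 0, 0, 0, 0, 0, 0],
    [8, 12, 11, 1, 0, 1, 1, 6, 1, 9, 0, 1, 3, 8, 0, 7, 0, 3, 3, 0, 0, 0, 0, 0, 0],
    [0, 9, 6, 3, 0, 4, 12, 12, 8, 9, 7, 7, 4, 7, 0, 10, 0, 8, 8, 0, 0, 0, 0, 0, 0],
    [5, 12, 4, 1, 0, 10, 5, 10, 0, 3, 0, 2, 5, 6, 0, 11, 0, 12, 4, 0, 0, 0, 0, 0, 0],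
    [11, 2, 5, 4, 0, 11, 0, 11, 4, 2, 11, 7, 12, 9, 0, 5, 0, 10, 12, 0, 0, 0, 0, 0, 0],
    [2, 0, 12, 3, 0, 0, 7, 8, 0, 5, 6, 6, 0, 1, 0, 10, 0, 2, 2, 0, 0, 0, 0, 0, 0],
    [11, 12, 11, 1, 0, 8, 5, 10, 2, 3, 2, 0, 5, 6, 0, 11, 0, 4, 12, 0, 0, 0, 0, 0, 0],
    [12, 9, 4, 10, 0, 5, 0, 9, 10, 4, 7, 11, 12, 9, 0, 5, 0, 12, 10, 0, 0, 0, 0, 0, 0]]),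
   ([0, 17, 26, 1, 36], [[2, 12, 1, 1, 2, 0, 0, 11, 12, 11, 1, 1, 11, 0, 0, 0, 0, 0, 0, 0, 0, 0, 0, 0, 0],
    [2, 11, 2, 10, 2, 0, 0, 0, 6, 5, 6, 11, 2, 10, 10, 4, 5, 4, 0, 0, 0, 0, 0, 0, 0],
    [7, 12, 9, 9, 0, 0, 0, 5, 10, 12, 5, 3, 8, 1, 9, 0, 9, 4, 0, 0, 0, 0, 0, 0, 0],
    [0, 12, 5, 0, 7, 0, 0, 3, 10, 1, 7, 1, 8, 9, 1, 4, 9, 0, 0, 0, 0, 0, 0, 0, 0],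
    [7, 8, 9, 5, 9, 0, 0, 10, 0, 3, 5, 11, 4, 3, 3, 9, 8, 9, 0, 0, 0, 0, 0, 0, 0],
    [11, 7, 1, 2, 9, 0, 0, 6, 12, 3, 4, 1, 2, 3, 3, 9, 8, 9, 0, 0, 0, 0, 0, 0, 0],
    [1, 8, 9, 3, 10, 0, 0, 3, 12, 4, 4, 5, 2, 7, 7, 8, 10, 8, 0, 0, 0, 0, 0, 0, 0],
    [10, 8, 0, 12, 1, 0, 0, 7, 12, 0, 8, 1, 2, 7, 7, 8, 10, 8, 0, 0, 0, 0, 0, 0, 0],
    [0, 3, 7, 4, 0, 0, 0, 5, 2, 3, 2, 10, 12, 1, 0, 3, 7, 3, 0, 0, 0, 0, 0, 0, 0],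
    [12, 9, 3, 11, 12, 0, 0, 3, 5, 8, 1, 6, 11, 10, 10, 4, 5, 4, 0, 0, 0, 0, 0, 0, 0],
    [2, 2, 12, 1, 2, 0, 0, 7, 1, 10, 4, 10, 10, 0, 1, 3, 7, 3, 0, 0, 0, 0, 0, 0, 0],
    [9, 12, 1, 4, 9, 0, 0, 6, 6, 3, 9, 6, 12, 6, 6, 2, 10, 2, 0, 0, 0, 0, 0, 0, 0],
    [0, 0, 2, 4, 3, 0, 0, 9, 0, 6, 11, 1, 9, 11, 7, 12, 5, 10, 0, 0, 0, 0, 0, 0, 0],
    [6, 1, 11, 0, 12, 0, 0, 9, 6, 5, 9, 7, 8, 0, 2, 4, 11, 12, 0, 0, 0, 0, 0, 0, 0],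
    [3, 0, 9, 10, 0, 0, 0, 1, 0, 1, 9, 3, 9, 7, 11, 10, 5, 12, 0, 0, 0, 0, 0, 0, 0],
    [1, 0, 12, 1, 8, 0, 0, 5, 5, 5, 10, 8, 6, 2, 0, 12, 11, 4, 0, 0, 0, 0, 0, 0, 0]]),
   ([0, 17, 34, 40, 36], [[1, 1, 1, 1, 1, 12, 12, 12, 12, 12, 0, 0, 0, 0, 0, 0, 0, 0, 0, 0, 0, 0, 0, 0, 0],
    [0, 9, 4, 3, 9, 5, 2, 10, 1, 8, 3, 7, 0, 3, 0, 8, 9, 0, 0, 9, 0, 0, 0, 0, 0],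
    [2, 4, 9, 10, 2, 1, 0, 7, 5, 11, 10, 6, 0, 10, 0, 5, 4, 0, 0, 4, 0, 0, 0, 0, 0],
    [5, 4, 4, 2, 9, 1, 11, 6, 1, 8, 1, 3, 0, 9, 0, 9, 0, 0, 0, 4, 0, 0, 0, 0, 0],
    [9, 9, 4, 3, 0, 5, 4, 8, 1, 8, 3, 7, 0, 3, 0, 8, 9, 0, 0, 9, 0, 0, 0, 0, 0],
    [10, 0, 5, 8, 6, 0, 8, 7, 4, 3, 9, 3, 0, 1, 0, 9, 4, 0, 0, 0, 0, 0, 0, 0, 0],
    [2, 5, 10, 10, 2, 1, 5, 0, 5, 10, 10, 5, 0, 10, 0, 5, 4, 0, 0, 4, 0, 0, 0, 0, 0],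
    [0, 9, 6, 7, 9, 2, 7, 5, 10, 8, 7, 11, 0, 7, 0, 10, 8, 0, 0, 8, 0, 0, 0, 0, 0],
    [9, 9, 6, 7, 0, 2, 3, 9, 10, 8, 7, 11, 0, 7, 0, 10, 8, 0, 0, 8, 0, 0, 0, 0, 0],
    [8, 5, 5, 2, 12, 7, 7, 10, 3, 4, 0, 11, 0, 1, 0, 7, 3, 0, 0, 3, 0, 0, 0, 0, 0],
    [12, 4, 5, 3, 8, 7, 8, 9, 6, 1, 1, 11, 0, 0, 0, 7, 3, 0, 0, 3, 0, 0, 0, 0, 0],
    [2, 0, 4, 7, 9, 8, 12, 2, 2, 4, 7, 8, 0, 11, 0, 5, 10, 0, 0, 12, 0, 0, 0, 0, 0],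
    [1, 3, 0, 4, 1, 9, 5, 4, 11, 12, 6, 1, 0, 6, 0, 10, 2, 0, 0, 2, 0, 0, 0, 0, 0],
    [8, 11, 3, 7, 1, 9, 11, 5, 10, 11, 11, 8, 0, 7, 0, 5, 12, 0, 0, 10, 0, 0, 0, 0, 0],
    [12, 6, 7, 11, 12, 7, 1, 3, 4, 0, 2, 11, 0, 0, 0, 11, 12, 0, 0, 4, 0, 0, 0, 0, 0],
    [12, 0, 7, 4, 12, 7, 1, 3, 2, 2, 0, 11, 0, 2, 0, 11, 4, 0, 0, 12, 0, 0, 0, 0, 0]]),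
   ([0, 17, 44, 9, 36], [[2, 1, 1, 0, 1, 11, 0, 12, 12, 12, 12, 1, 0, 0, 0, 0, 0, 0, 0, 0, 0, 0, 0, 0, 0],
    [11, 9, 8, 0, 9, 6, 12, 4, 8, 10, 9, 7, 9, 0, 1, 9, 4, 0, 0, 0, 0, 0, 0, 0, 0],
    [6, 5, 0, 0, 0, 0, 3, 8, 6, 10, 1, 2, 1, 0, 9, 9, 0, 0, 4, 0, 0, 0, 0, 0, 0],
    [7, 0, 4, 0, 1, 4, 4, 8, 10, 0, 4, 3, 3, 0, 3, 8, 9, 0, 9, 0, 0, 0, 0, 0, 0],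
    [6, 2, 9, 0, 10, 11, 2, 11, 7, 6, 9, 10, 10, 0, 10, 5, 4, 0, 4, 0, 0, 0, 0, 0, 0],
    [9, 10, 5, 0, 6, 4, 4, 7, 7, 12, 3, 4, 3, 0, 3, 8, 9, 0, 9, 0, 0, 0, 0, 0, 0],
    [0, 0, 6, 0, 12, 3, 4, 8, 5, 12, 4, 7, 7, 0, 7, 10, 8, 0, 8, 0, 0, 0, 0, 0, 0],
    [7, 8, 12, 0, 5, 11, 5, 4, 10, 1, 9, 2, 0, 0, 1, 7, 3, 0, 3, 0, 0, 0, 0, 0, 0],
    [6, 11, 10, 0, 0, 0, 9, 2, 10, 2, 9, 2, 1, 0, 0, 7, 3, 0, 3, 0, 0, 0, 0, 0, 0],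
    [0, 9, 6, 0, 3, 12, 4, 8, 9, 12, 4, 7, 7, 0, 7, 10, 8, 0, 8, 0, 0, 0, 0, 0, 0],
    [9, 3, 11, 0, 11, 1, 2, 9, 12, 5, 7, 11, 10, 0, 10, 5, 4, 0, 4, 0, 0, 0, 0, 0, 0],
    [11, 2, 5, 0, 4, 0, 9, 4, 2, 0, 1, 7, 7, 0, 11, 5, 10, 0, 12, 0, 0, 0, 0, 0, 0],
    [5, 12, 4, 0, 1, 5, 2, 0, 3, 5, 0, 11, 2, 0, 0, 11, 12, 0, 4, 0, 0, 0, 0, 0, 0],
    [9, 11, 10, 0, 0, 1, 6, 3, 4, 6, 8, 3, 0, 0, 2, 11, 4, 0, 12, 0, 0, 0, 0, 0, 0],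
    [4, 1, 0, 0, 4, 4, 2, 12, 4, 6, 10, 4, 6, 0, 6, 10, 2, 0, 2, 0, 0, 0, 0, 0, 0],
    [12, 9, 4, 0, 10, 10, 4, 10, 4, 0, 0, 8, 11, 0, 7, 5, 12, 0, 10, 0, 0, 0, 0, 0, 0]])]

theorem certs_fst : certs.map Prod.fst = goodList := by decide +kernel

set_option maxRecDepth 100000

def certsOK : Bool := certs.all fun x => colOK D₁ x.1 x.2

theorem certsOK_true : certsOK = true := by decide +kernel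

/-! ## The second knot -/

/-- a colouring of `D₂` -/
def h₂ : List Nat := [0, 16, 17, 53, 16]

/-- ten lifts of the colouring `h₂` -/
def basis₂ : List (List Nat) :=
  [[1, 0, 0, 0, 0, 0, 0, 0, 0, 1, 0, 9, 9, 9, 0, 0, 0, 0, 0, 1, 6, 1, 1, 6, 0],
   [0, 1, 0, 0, 0, 0, 0, 0, 0, 1, 0, 9, 9, 9, 0, 0, 1, 0, 0, 0, 6, 1, 1, 6, 0],
   [0, 0, 1, 0, 0, 0, 0, 0, 0, 1, 0, 9, 9, 9, 0, 0, 0, 1, 0, 0, 6, 1, 1, 6, 0],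
   [0, 0, 0, 1, 0, 0, 0, 0, 0, 1, 0, 9, 9, 10, 12, 0, 0, 1, 0, 0, 6, 1, 1, 6, 0],
   [0, 0, 0, 0, 1, 0, 0, 0, 0, 1, 0, 0, 0, 0, 1, 0, 0, 0, 0, 1, 0, 0, 0, 0, 1],
   [0, 0, 0, 0, 0, 1, 0, 0, 0, 12, 0, 0, 0, 1, 12, 1, 0, 0, 0, 12, 1, 0, 0, 0, 12],
   [0, 0, 0, 0, 0, 0, 1, 0, 0, 12, 0, 5, 4, 4, 0, 0, 0, 0, 0, 0, 7, 0, 12, 7, 0],
   [0, 0, 0, 0, 0, 0, 0, 1, 0, 12, 0, 4, 5, 4, 0, 0, 0, 0, 0, 0, 7, 12, 0, 7, 0],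
   [0, 0, 0, 0, 0, 0, 0, 0, 1, 12, 0, 4, 4, 4, 1, 0, 0, 12, 1, 0, 7, 12, 12, 8, 0],
   [0, 0, 0, 0, 0, 0, 0, 0, 0, 0, 1, 4, 4, 3, 1, 0, 0, 0, 0, 0, 7, 12, 12, 7, 1]]

/-- coordinates on which the ten lifts form the identity matrix -/
def free₂ : List Nat := [0, 1, 2, 3, 4, 5, 6, 7, 8, 10]

def dotN (x y : List Nat) : Nat :=
  Nat.mod ((List.zipWith (fun a b => Nat.mul a b) x y).foldr Nat.add 0) 13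

def basisOK : Bool :=
  (match frun h₂ 0 [] D₂ with
    | none => false
    | some eqs => forceLL eqs fun eqs' => eqs'.all fun f => basis₂.all fun v => Nat.beq (dotN f v) 0) &&
  (List.range 10).all fun i => (List.range 10).all fun j =>
    (basis₂.getD i []).getD (free₂.getD j 0) 0 == if i = j then 1 else 0

theorem basisOK_true : basisOK = true := by decide +kernel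

end TorMut
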