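import Pool.Agent.Lib.MP_407fc5_gt.N04
import Pool.Agent.Lib.MP_407fc5_gt.N06
import Pool.Agent.Lib.MP_407fc5_gt.N07
import Pool.Agent.Lib.MP_407fc5_gt.NData2

/-!
# N08: the numbers of lifts (about 75 minutes)

* `card_le_of_colOK`: if `colOK D l m = true`, two lifts which agree in the coordinates `0, …, 8` are
  equal: the difference `x` is a lift (`lifts_add`, `lifts_smul` with `-1`), all equations vanish at
  `x`, hence also the combinations `comb (m j) eqs` (`evalF (comb m eqs) x = ∑ m_r evalF (eqs r) x`), which are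
  `x (9 + j) + (terms in coordinates 0, …, 8)`; so `x = 0`.  Therefore the restriction map
  `Lifts → (Fin 9 → ZMod 13)` is injective.
* `card_lifts_D₁`: `card_lifts_reduce`, `enum_all`, `certs_fst`, `certsOK_true`.
* `card_lifts_D₂`: the colouring `h₂`; the linear combinations of the ten vectors of `basis₂` are
  lifts (`frun_iff` and `basisOK_true`, or `lifts_add`, `lifts_smul`), and they are pairwise different because of the
  identity matrix in the coordinates `free₂`.
-/

namespace TorMut

open Core

lemma N08_getD_zipWith (F : ℕ → ℕ → ℕ) (f r : List ℕ) (hf : f.length = 25) (hr : r.length = 25)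
    (i : ℕ) (hi : i < 25) : (List.zipWith F f r).getD i 0 = F (f.getD i 0) (r.getD i 0) := by
  have h1 : i < (List.zipWith F f r).length := by
    rw [List.length_zipWith, hf, hr]; simpa using hi
  rw [List.getD_eq_getElem _ _ h1, List.getD_eq_getElem _ _ (hf ▸ hi),
    List.getD_eq_getElem _ _ (hr ▸ hi), List.getElem_zipWith]

lemma N08_comb_cons (c : ℕ) (l : List ℕ) (f : Form) (m : List Form) :
    comb (c :: l) (f :: m)
      = List.zipWith (fun a b => Nat.mod (Nat.add (Nat.mul c a) b) 13) f (comb l m) := by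
  rw [comb, forceL_eq, forceL_eq]

lemma N08_comb_length (l : List ℕ) (m : List Form) (hm : ∀ f ∈ m, f.length = 25) :
    (comb l m).length = 25 := by
  induction l generalizing m with
  | nil => simp [comb]
  | cons c l ih =>
    cases m with
    | nil => simp [comb]
    | cons f m =>
      rw [N08_comb_cons, List.length_zipWith, ih m fun g hg => hm g (List.mem_cons_of_mem _ hg),
        hm f List.mem_cons_self]
      rfl

lemma N08_cast_mod (c a b : ℕ) :
    ((Nat.mod (Nat.add (Nat.mul c a) b) 13 : ℕ) : ZMod 13) = (c : ZMod 13) * a + b := by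
  have : Nat.mod (Nat.add (Nat.mul c a) b) 13 = (c * a + b) % 13 := rfl
  rw [this, ZMod.natCast_mod]
  push_cast
  ring

lemma N08_evalF_comb (x : Fin 25 → ZMod 13) (l : List ℕ) (m : List Form)
    (hm : ∀ f ∈ m, f.length = 25) (h0 : ∀ f ∈ m, evalF f x = 0) : evalF (comb l m) x = 0 := by
  have hrep : evalF (List.replicate 25 0) x = 0 := by
    unfold evalF
    refine Finset.sum_eq_zero fun j _ => ?_
    have : (List.replicate 25 0).getD j.1 0 = 0 := by
      rw [List.getD_eq_getElem _ _ (by simp), List.getElem_replicate]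
    rw [this]; simp
  induction l generalizing m with
  | nil => simpa [comb] using hrep
  | cons c l ih =>
    cases m with
    | nil => simpa [comb] using hrep
    | cons f m =>
      have hm' : ∀ g ∈ m, g.length = 25 := fun g hg => hm g (List.mem_cons_of_mem _ hg)
      have e1 := ih m hm' fun g hg => h0 g (List.mem_cons_of_mem _ hg)
      have e2 := h0 f List.mem_cons_self
      rw [N08_comb_cons]
      have : evalF (List.zipWith (fun a b => Nat.mod (Nat.add (Nat.mul c a) b) 13) f (comb l m)) x
          = (c : ZMod 13) * evalF f x + evalF (comb l m) x := by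
        unfold evalF
        rw [Finset.mul_sum, ← Finset.sum_add_distrib]
        refine Finset.sum_congr rfl fun j _ => ?_
        rw [N08_getD_zipWith _ _ _ (hm f List.mem_cons_self) (N08_comb_length l m hm') _ j.2,
          N08_cast_mod]
        ring
      rw [this, e1, e2]; ring

lemma N08_getD_drop (g : List ℕ) (i : ℕ) (hi : 9 ≤ i) :
    g.getD i 0 = (g.drop 9).getD (i - 9) 0 := by
  rw [List.getD_eq_getElem?_getD, List.getD_eq_getElem?_getD, List.getElem?_drop,
    Nat.add_sub_of_le hi]

lemma N08_getD_funit (j i : ℕ) (hi : i < 25) : (funit j).getD i 0 = if i = j then 1 else 0 := by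
  unfold funit
  have h1 : i < ((List.range 25).map fun i => if i = j then 1 else 0).length := by simpa using hi
  rw [List.getD_eq_getElem _ _ h1]
  simp

/-- the coordinates determine the vector -/
lemma N08_coord_inj {D : Word} (hD : births D = 5) (w w' : Fin (births D) → PM 13)
    (h : ∀ j, coord hD w j = coord hD w' j) : w = w' := by
  funext k i
  have hk : k.1 < 5 := hD ▸ k.2
  have hi : i.1 < 5 := i.2
  have := h ⟨5 * k.1 + i.1, by omega⟩
  unfold coord at this
  have e1 : (⟨(5 * k.1 + i.1) / 5, by omega⟩ : Fin (births D)) = k :=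
    Fin.ext (by change (5 * k.1 + i.1) / 5 = k.1; omega)
  have e2 : (⟨(5 * k.1 + i.1) % 5, Nat.mod_lt _ (by norm_num)⟩ : Fin 5) = i :=
    Fin.ext (by change (5 * k.1 + i.1) % 5 = i.1; omega)
  simp only [e1, e2] at this
  exact this

theorem card_le_of_colOK (D : Word) (hD : births D = 5) (hOK : OK 0 D) (h : ℕ → A60) (l : List Nat)
    (hl : l = [(h 0).val.1, (h 1).val.1, (h 2).val.1, (h 3).val.1, (h 4).val.1])
    (m : List (List Nat)) (hm : colOK D l m = true) :
    Nat.card (Lifts (PM 13) D h) ≤ 13 ^ 9 := by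
  obtain ⟨eqs, he, hc⟩ : ∃ eqs, frun l 0 [] D = some eqs ∧ certOK eqs m = true := by
    unfold colOK at hm
    cases hf : frun l 0 [] D with
    | none => rw [hf] at hm; exact absurd hm (by simp)
    | some eqs =>
      rw [hf] at hm
      refine ⟨eqs, rfl, ?_⟩
      have h2 : (forceLL eqs fun eqs' => certOK eqs' m) = true := hm
      rwa [forceLL_eq] at h2
  have hlen := fun f hf => (frun_bounds D hOK l eqs he f hf).1
  -- a lift which vanishes in the first nine coordinates vanishes
  have key : ∀ x ∈ Lifts (PM 13) D h, (∀ j : Fin 25, j.1 < 9 → coord hD x j = 0) →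
      ∀ j : Fin 25, coord hD x j = 0 := by
    intro x hx hx0 j
    by_cases hj : j.1 < 9
    · exact hx0 j hj
    · have hj25 := j.2
      have h1 := (frun_iff D hD hOK h l hl eqs he x).1 hx
      unfold certOK at hc
      rw [allN_iff] at hc
      have h2 := hc (j.1 - 9) (by omega)
      rw [forceL_eq, beq_iff_eq] at h2
      have h3 := N08_evalF_comb (coord hD x) (m.getD (j.1 - 9) []) eqs hlen h1
      have h4 : evalF (comb (m.getD (j.1 - 9) []) eqs) (coord hD x) = coord hD x j := by
        unfold evalF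
        rw [Finset.sum_eq_single j]
        · rw [N08_getD_drop _ _ (by omega), h2, ← N08_getD_drop _ _ (by omega),
            N08_getD_funit _ _ j.2, if_pos (by omega)]
          simp
        · intro i _ hij
          by_cases hi : i.1 < 9
          · rw [hx0 i hi, mul_zero]
          · rw [N08_getD_drop _ _ (by omega), h2, ← N08_getD_drop _ _ (by omega),
              N08_getD_funit _ _ i.2, if_neg]
            · simp
            · intro hh
              exact hij (Fin.ext (by omega))
        · intro hj'; exact absurd (Finset.mem_univ j) hj'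
      rw [← h4, h3]
  have hinj : Function.Injective (fun (w : Lifts (PM 13) D h) (j : Fin 9) =>
      coord hD w.1 ⟨j.1, lt_trans j.2 (by norm_num)⟩) := by
    intro w w' hww
    apply Subtype.ext
    apply N08_coord_inj hD
    have hx : w.1 + (-1 : ZMod 13) • w'.1 ∈ Lifts (PM 13) D h :=
      lifts_add D h _ _ w.2 (lifts_smul D h (-1) _ w'.2)
    have hc : ∀ j, coord hD (w.1 + (-1 : ZMod 13) • w'.1) j = coord hD w.1 j - coord hD w'.1 j := by
      intro j
      unfold coord
      change _ + (-1 : ZMod 13) * _ = _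
      ring
    have := key _ hx (fun j hj => by
      rw [hc]
      have := congrFun hww ⟨j.1, hj⟩
      exact sub_eq_zero.2 this)
    intro j
    have h5 := this j
    rw [hc] at h5
    exact sub_eq_zero.1 h5
  have h6 := Nat.card_le_card_of_injective _ hinj
  refine h6.trans (le_of_eq ?_)
  rw [Nat.card_eq_fintype_card, Fintype.card_fun, ZMod.card, Fintype.card_fin]

theorem card_lifts_D₁ (h : ℕ → A60) (hc : Col D₁ h) : Nat.card (Lifts (PM 13) D₁ h) ≤ 13 ^ 9 := by
  have hOK : OK 0 D₁ := by
    simp [OK, D₁, top, box1, bot, rib, Layer.ok, Layer.out]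
  refine card_lifts_reduce 13 (13 ^ 9) D₁ hOK (fun h hc h0 h1 => ?_) h hc
  have h2 := enum_all h hc h0 h1
  rw [← certs_fst, List.mem_map] at h2
  obtain ⟨x, hx, hx1⟩ := h2
  have h3 := certsOK_true
  unfold certsOK at h3
  rw [List.all_eq_true] at h3
  exact card_le_of_colOK D₁ rfl hOK h x.1 hx1 x.2 (h3 x hx)

/-- the colouring `h₂` -/
def hh₂ (k : ℕ) : A60 := ⟨⟨h₂.getD k 0 % 60, Nat.mod_lt _ (by norm_num)⟩⟩

lemma N08_OK₂ : OK 0 D₂ := by
  simp [OK, D₂, top, box2, bot, rib, Layer.ok, Layer.out]

lemma N08_hl₂ : h₂ = [(hh₂ 0).val.1, (hh₂ 1).val.1, (hh₂ 2).val.1, (hh₂ 3).val.1,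
    (hh₂ 4).val.1] := by decide

lemma N08_basis : ∃ eqs, frun h₂ 0 [] D₂ = some eqs ∧
    (∀ f ∈ eqs, ∀ v ∈ basis₂, dotN f v = 0) ∧
    ∀ i < 10, ∀ j < 10,
      (basis₂.getD i []).getD (free₂.getD j 0) 0 = if i = j then 1 else 0 := by
  have h := basisOK_true
  unfold basisOK at h
  rw [Bool.and_eq_true] at h
  obtain ⟨h1, h2⟩ := h
  cases hf : frun h₂ 0 [] D₂ with
  | none => rw [hf] at h1; exact absurd h1 (by decide)
  | some eqs =>
    rw [hf] at h1
    refine ⟨eqs, rfl, ?_, ?_⟩
    · have h3 : (forceLL eqs fun eqs' => eqs'.all fun f => basis₂.all fun v =>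
        Nat.beq (dotN f v) 0) = true := h1
      rw [forceLL_eq] at h3
      intro f hf v hv
      rw [List.all_eq_true] at h3
      have h4 := h3 f hf
      rw [List.all_eq_true] at h4
      exact Nat.eq_of_beq_eq_true (h4 v hv)
    · intro i hi j hj
      rw [List.all_eq_true] at h2
      have h4 := h2 i (List.mem_range.2 hi)
      rw [List.all_eq_true] at h4
      exact beq_iff_eq.1 (h4 j (List.mem_range.2 hj))

theorem col_hh₂ : Col D₂ hh₂ := by
  obtain ⟨eqs, he, -, -⟩ := N08_basis
  have h1 : (0 : Fin (births D₂) → PM 13) ∈ Lifts (PM 13) D₂ hh₂ := by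
    rw [frun_iff D₂ rfl N08_OK₂ hh₂ h₂ N08_hl₂ eqs he]
    intro f _
    unfold evalF
    refine Finset.sum_eq_zero fun j _ => ?_
    have : coord (D := D₂) rfl (0 : Fin (births D₂) → PM 13) j = 0 := rfl
    rw [this, mul_zero]
  exact lifts_col D₂ hh₂ _ h1

lemma N08_dot (f v : List ℕ) (hf : f.length = 25) (hv : v.length = 25) :
    ((dotN f v : ℕ) : ZMod 13)
      = ∑ j : Fin 25, (f.getD j.1 0 : ZMod 13) * (v.getD j.1 0 : ZMod 13) := by
  have h1 : ∀ (l : List ℕ), l.foldr Nat.add 0 = l.sum := by
    intro l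
    induction l with
    | nil => rfl
    | cons a l ih => rw [List.foldr_cons, ih, List.sum_cons]; rfl
  have h2 : dotN f v = (List.zipWith (fun a b => Nat.mul a b) f v).sum % 13 := by
    unfold dotN
    rw [h1]; rfl
  have h3 : (List.zipWith (fun a b => Nat.mul a b) f v).sum
      = ∑ j : Fin 25, f.getD j.1 0 * v.getD j.1 0 := by
    have hlen : (List.zipWith (fun a b => Nat.mul a b) f v).length = 25 := by
      rw [List.length_zipWith, hf, hv]; rfl
    have h4 : List.zipWith (fun a b => Nat.mul a b) f v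
        = List.ofFn (fun j : Fin 25 => f.getD j.1 0 * v.getD j.1 0) := by
      apply List.ext_getElem
      · rw [hlen, List.length_ofFn]
      · intro n hn1 hn2
        rw [List.getElem_ofFn, List.getElem_zipWith]
        rw [List.getD_eq_getElem _ _ (by rw [hf]; rw [hlen] at hn1; exact hn1),
          List.getD_eq_getElem _ _ (by rw [hv]; rw [hlen] at hn1; exact hn1)]
        rfl
    rw [h4, List.sum_ofFn]
  rw [h2, ZMod.natCast_mod, h3]
  push_cast
  rfl

theorem card_lifts_D₂ : 13 ^ 10 ≤ Nat.card (Lifts (PM 13) D₂ hh₂) := by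
  obtain ⟨eqs, he, hb, hi⟩ := N08_basis
  have hlen := fun f hf => (frun_bounds D₂ N08_OK₂ h₂ eqs he f hf).1
  have hblen : ∀ v ∈ basis₂, v.length = 25 := by decide
  let xx : (Fin 10 → ZMod 13) → Fin 25 → ZMod 13 := fun c j =>
    ∑ i : Fin 10, c i * ((basis₂.getD i.1 []).getD j.1 0 : ZMod 13)
  let ww : (Fin 10 → ZMod 13) → Fin (births D₂) → PM 13 := fun c k => (fun i : Fin 5 =>
    xx c ⟨5 * k.1 + i.1, by have h1 : k.1 < 5 := k.2; have h2 := i.2; omega⟩)
  have hcoord : ∀ c, coord (D := D₂) rfl (ww c) = xx c := by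
    intro c
    funext j
    exact congrArg (xx c) (Fin.ext (Nat.div_add_mod j.1 5))
  have hmem : ∀ c, ww c ∈ Lifts (PM 13) D₂ hh₂ := by
    intro c
    rw [frun_iff D₂ rfl N08_OK₂ hh₂ h₂ N08_hl₂ eqs he, hcoord]
    intro f hf
    unfold evalF
    simp only [xx, Finset.mul_sum]
    rw [Finset.sum_comm]
    refine Finset.sum_eq_zero fun i _ => ?_
    have hmemb : basis₂.getD i.1 [] ∈ basis₂ := by
      have hbl : i.1 < basis₂.length := i.2
      rw [List.getD_eq_getElem _ _ hbl]
      exact List.getElem_mem hbl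
    have h1 := N08_dot f (basis₂.getD i.1 []) (hlen f hf) (hblen _ hmemb)
    rw [hb f hf _ hmemb, Nat.cast_zero] at h1
    calc ∑ j : Fin 25, (f.getD j.1 0 : ZMod 13) * (c i * ((basis₂.getD i.1 []).getD j.1 0 : ZMod 13))
        = c i * ∑ j : Fin 25, (f.getD j.1 0 : ZMod 13) *
            ((basis₂.getD i.1 []).getD j.1 0 : ZMod 13) := by
          rw [Finset.mul_sum]
          exact Finset.sum_congr rfl fun j _ => by ring
      _ = 0 := by rw [← h1, mul_zero]
  have hinj : Function.Injective (fun c => (⟨ww c, hmem c⟩ : Lifts (PM 13) D₂ hh₂)) := by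
    intro c c' hcc
    have h1 : ww c = ww c' := congrArg Subtype.val hcc
    have h2 : xx c = xx c' := by rw [← hcoord, ← hcoord, h1]
    have h3 : ∀ (c : Fin 10 → ZMod 13) (j : Fin 10),
        xx c ⟨free₂.getD j.1 0, by revert j; decide⟩ = c j := by
      intro c j
      simp only [xx]
      rw [Finset.sum_eq_single j]
      · rw [hi j.1 j.2 j.1 j.2, if_pos rfl]; simp
      · intro i _ hij
        rw [hi i.1 i.2 j.1 j.2, if_neg fun h => hij (Fin.ext h)]; simp
      · intro hj; exact absurd (Finset.mem_univ j) hj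
    funext j
    rw [← h3 c j, ← h3 c' j, h2]
  have h6 := Nat.card_le_card_of_injective _ hinj
  refine le_trans (le_of_eq ?_) h6
  rw [Nat.card_eq_fintype_card, Fintype.card_fun, ZMod.card, Fintype.card_fin]

end TorMut
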