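import Pool.Agent.Lib.MP_407fc5_gt.C09
import Pool.Agent.Lib.MP_407fc5_gt.N03
import Pool.Agent.Lib.MP_407fc5_gt.N08

/-!
# N09: the two knots are not mutants (about 20 minutes)

`n = 8`: `total D₁ ≤ 60 ^ 5 * (13 ^ 9) ^ 8 < (13 ^ 10) ^ 8 ≤ total D₂`, because `60 ^ 5 < 13 ^ 8`;
`total_mutants`.
-/

namespace TorMut

theorem not_mutants : ¬ Mutants D₁ D₂ := by
  intro h
  have hm := Core.total_mutants (G := SG (Fin 8 → PM 13)) D₁ D₂ h
  have h1 := total_le 13 8 (13 ^ 9) D₁ card_lifts_D₁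
  have h2 := le_total 13 8 (13 ^ 10) D₂ hh₂ col_hh₂ card_lifts_D₂
  rw [← hm] at h2
  have hb : births D₁ = 5 := by decide +kernel
  rw [hb] at h1
  have h3 : (60 : ℕ) ^ 5 * (13 ^ 9) ^ 8 < (13 ^ 10) ^ 8 := by norm_num
  omega

end TorMut
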