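import Pool.Agent.Lib.MP_407fc5_gt.CDefs

/-!
# MP_407fc5_gt, part N: the alternating group of degree 5 by tables (definitions)

`A60` is the alternating group of degree 5, its elements numbered from `0` (the identity) to `59`; the
multiplication table is one natural number (six bits for each entry), so that it can be evaluated
quickly.  The group axioms follow from the faithful action `ptN` on `{0, …, 4}`.
-/

namespace TorMut

/-- multiplication table of the alternating group of degree 5 -/
def tabN : Nat := 0x108310518720928b30d38f41149351559761969b71d79f8218a39259a7a29aabb2dbafc31cb3d35db7e39ebb61969b71d79f8218a30c41400421c620a24b3d044c34e4d2516557aabb25926a27a6fb6edb7e31c32d33d7be7a3d044c34e4d25165576dc75865a7de82286300108310518720928ba27a6baac9259aebedd33d77db8c31cbaef934c3924d43d04555d60400861c80c41492ca9e8a64966aeab2eb6f6dc75865a7de822863cf5d30cb1eb9ef7db818720100210314b24a9259a7a29aabb2dbaf34c3924d43d04555d665869e7e06dc7618e2cb0c79ebbcf5d36e379e8a64966aeab2eb6f49350d30e40f45755618720100210314b24a7de81c6dd6586a38a1eb9ef5cf4cb0c78df6103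14718800108a2c965869e7e06dc7618e29649aaaec9e8a6dbee30d38f411493515597c72c36e37e7beb3d359649aaaec9e8a6dbee1c62040c504008b28979f81961a71b76386249350d30e40f457556e7beb2c70e36df5cf479f81961a71b763862aabb25926a27a6fb6e10314718800108a2c940f45349430d3965d5e36dfbe7ac72c34d7371b75f7a06196a28e140f45349430d3965d5aeab289e99649afbad0c41400421c620a24bdf8db4d73efae71c324d25103d134c397595a27a6baac9259aebed71b75f7a06196a28e10400861c80c41492cad74cfaef9df8db0cb1aeab289e99649afbad7de81c6dd6586a38a14d25103d134c3975951c62040c504008b289efae78df6d74cf2c7030e34f4505565d24d400204314424a2c61c86dd7186998a18df7a0cf4d70c72df6e3ae7b9e8a64966aeab2eb6f0c51000812892c718861a65b75c8628de7e030e34f4505565d24d4c70cb6df8cf4d79efa9649aaaec9e8a6dbee6dd7186998a18df7a03d140c38d5955d34940c51000812892c7188df6e34cf5c70cbbeb9aeab289e99649afbad08004928b0c510620738c3555973d1412513c31cb3d35db7e39ebb61a65b75c8628de7e0926967a68b6ebeaaecc31cb3d35db7e39ebb24a2c20011431081875565ce30d44f4144938628da61975b72079fb6ebe6925a67a2caab5565ce30d44f414493cf4d70c72df6e3ae7b08004928b0c510620775b72286361a65f81e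a67a2eb6f92696bb2a6986618a36dd71e81f14310a24b002047206db7e31c32d33d7be7a3d140c38d5955d3494aacae59a4bedba89e92892c50c40800481c6c70cb6df8cf4d79efa6986618a36dd71e81f38c3555973d14125139a592dbeeaacae7a68db7e31c32d33d7be7a8628da61975b72079f2892c50c40800481c65955d13d038c3544d2bedbacaab9a5929a2744f41655730e35351275b72286361a65f81ed33d77db8c31cbaef900204314424a2c61c8a299ebb2abafb64966d33d77db8c31cbaef95955d13d038c3544d28a18dd6dc6986607de24a2c2001143108187bafb69a27b2baa69258a18dd6dc6986607dedf6e34cf5c70cbbeb944f41655730e35351214310a24b002047206b2baafbada299e59a404200620724b28310534e31251355758f411926967a68b6ebeaaecc32c73d74e7aef6df861969b71d79f8218a3926967a68b6ebeaaec1881c10802c92840c54944cd38c5d55903d1e7aef2c31d73d38db779f81961a71b7638624944cd38c5d55903d19e9a249a5badbebaac04200620724b283105d73d3ae7bc32c77e3671b75f7a06196a28e138d3155d64944cf4500810092ca1881c3144cf5d30cb1eb9ef7db89e9a249a5badbebaac6dd7186998a18df7a024b2820402061c50c4c32c73d74e7aef6df838d3155d64944cf4509a496dbaf9e9a2ab2b6986618a36dd71e81fcf5d30cb1eb9ef7db855758e34c5124d13d024b2820402061c5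0c4badbe99e89a496caea8a18dd6dc6986607de2061cb24a0420041439a496dbaf9e9a2ab2bcb0c79ebbcf5d36e3734e31251355758f41165a61e81f86389b71dcb0c79ebbcf5d36e372c9288187081005103b6ebe6925a67a2caab55758e34c5124d13d086389a65881e7dd6dcb6ebe6925a67a2caabe7aef2c31d73d38db72061cb24a0420041435124d755634e31044f81e7e386265a61c75ba67a2eb6f92696bb2a5124d755634e31044feb9ef5cf4cb0c78df61881c10802c92840c57e079c75b8e285961a5d559449338d31140fd73d3ae7bc32c77e36a67a2eb6f92696bb2a0810092ca1881c314475c6e28e17e0798699eb9ef5cf4cb0c78df6badbe99e89a496caea5d559449338d31140f2c92881870810051038e28607de75c6da65865a61e81f86389b71d1050c720628b240042aacae59a4bedba89e9db8df1cb0ef9eb4cf53d044c34e4d25165571c81841432ca24100296692ab2bb6fba7a2965a61e81f86389b71dcb1c39efadb8df3d7434c3924d43d04555d6aacae59a4bedba89e97a07d96988e189c6dd1c81841432ca241002ef9eb8db7cb1c35d334d25103d134c3975951440ca2c91c81800816996218e27a07db75cc72c36e37e7beb3d3596692ab2bb6fba7a2930e34f4505565d24d4c72c36e37e7beb3d3528b24510320718200186389a65881e7dd6dcb6fba6964b2aae99e85565ce30d44f41449386389a65881e7dd6dcdb8df1cb0ef9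eb4cf51440ca2c91c8180081b2aaefb6e966928a6744f41655730e3535129a592dbeeaacae7a6820718b2891050c1080e7beb2c70e36df5cf47a07d96988e189c6dd4944cd38c5d55903d12ca2481c61440c2040cb1c39efadb8df3d749a592dbeeaacae7a686996218e27a07db75c38d3155d64944cf450e7beb2c70e36df5cf4b6fba6964b2aae99e82ca2481c61440c20408e18a079f69961d71b5d559449338d31140f81e7e386265a61c75bb2aaefb6e966928a67e36dfbe7ac72c34d731050c720628b2400424113d351259754c34ee36dfbe7ac72c34d738e18a079f69961d71bbedbacaab9a5929a2728b24510320718200159755140f51348e30dbedbacaab9a5929a27ef9eb8db7cb1c35d3381e7e386265a61c75b20718b2891050c10805134975954113cd38c4113d351259754c34e71d6df81e8a385865aa299ebb2abafb64966d35cf7e36ebbe70c7200108310518720928ba299ebb2abafb649664d449044f5d654d30e7e079c75b8e285961aebbe75d33e37db2c3118720100210314b24a7e079c75b8e285961aaecaa8a67beeb659264113d351259754c34ee37dbbeb9d35cf1cb010314718800108a2c975c6e28e17e07986994503d65d54d448c38ddf8db4d73efae71c32aecaa8a67beeb659260c51000812892c718859755140f51348e30dd35cf7e36ebbe70c7275c6e28e17e0798699a689eebedaecaa49a508004928b0c5106207df8db4d73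efae71c328a385d71b81f79a61959755140f51348e30dbeeb6caeaa689e69642892c50c40800481c65134975954113cd38ca689eebedaecaa49a5d74cfaef9df8db0cb171d6df81e8a385865a04200620724b283105d74cfaef9df8db0cb15d65544d24503ce34cbafb69a27b2baa69258a385d71b81f79a61924b2820402061c50c4bafb69a27b2baa6925ebbe75d33e37db2c315134975954113cd38c81f7a38a171d6d96982061cb24a042004143b2baafbada299e59a481f7a38a171d6d9698efae78df6d74cf2c704d449044f5d654d30e1c81841432ca2410028e28607de75c6da658e37dbbeb9d35cf1cb0b2baafbada299e59a44503d65d54d448c38d1440ca2c91c8180081efae78df6d74cf2c70beeb6caeaa689e69648e28607de75c6da6585d65544d24503ce34c2ca2481c61440c2040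

/-- action on five points -/
def ptabN : Nat := 0x5388170a0e10d40ca8c850266308c4c188b10b4234442146118d111831380a6604d085888b8816540e141a84305c4c188b11111a10b5086838540ca7014cc08c61464241c21a85a1085198132a06588888d18c229c06260b88129c0ca81330231831311160b8842d070a0d4214644688

/-- inverses -/
def itabN : Nat := 0xeec8eeddfd68754590bf883aae2a747174d1e6a86dd9ece76d254f9b167295a93060e34c2c71482842460c1080

/- `Nat.mod`, `Nat.shiftRight`, … are used without notation because the kernel evaluates them faster -/
def mulN (x y : Nat) : Nat :=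
  Nat.mod (Nat.shiftRight tabN (Nat.mul 6 (Nat.add (Nat.mul 60 x) y))) 64
def ptN (x i : Nat) : Nat := Nat.mod (Nat.shiftRight ptabN (Nat.mul 3 (Nat.add (Nat.mul 5 x) i))) 8
def invN (x : Nat) : Nat := Nat.mod (Nat.shiftRight itabN (Nat.mul 6 x)) 64

/-- check of the tables -/
def chkN : Bool :=
  (List.range 60).all fun x =>
    (invN x < 60 && mulN (invN x) x == 0) && ((List.range 60).all fun y =>
      mulN x y < 60 && ((List.range 5).all fun i => ptN (mulN x y) i == ptN x (ptN y i)))

def chkN2 : Bool :=
  (List.range 5).all (fun i => ptN 0 i == i) &&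
  ((List.range 60).all fun x => ((List.range 5).all fun i => ptN x i < 5) &&
    ((List.range 60).all fun y => (x == y) || !((List.range 5).all fun i => ptN x i == ptN y i)))

theorem chkN_true : chkN = true := by decide +kernel
theorem chkN2_true : chkN2 = true := by decide +kernel

lemma mulN_lt (x y : Nat) (hx : x < 60) (hy : y < 60) : mulN x y < 60 := by
  have h := chkN_true
  simp only [chkN, List.all_eq_true, List.mem_range, Bool.and_eq_true, decide_eq_true_eq,
    beq_iff_eq] at h
  exact ((h x hx).2 y hy).1

lemma ptN_mul (x y i : Nat) (hx : x < 60) (hy : y < 60) (hi : i < 5) :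
    ptN (mulN x y) i = ptN x (ptN y i) := by
  have h := chkN_true
  simp only [chkN, List.all_eq_true, List.mem_range, Bool.and_eq_true, decide_eq_true_eq,
    beq_iff_eq] at h
  exact ((h x hx).2 y hy).2 i hi

lemma invN_lt (x : Nat) (hx : x < 60) : invN x < 60 := by
  have h := chkN_true
  simp only [chkN, List.all_eq_true, List.mem_range, Bool.and_eq_true, decide_eq_true_eq,
    beq_iff_eq] at h
  exact (h x hx).1.1

lemma invN_mul (x : Nat) (hx : x < 60) : mulN (invN x) x = 0 := by
  have h := chkN_true
  simp only [chkN, List.all_eq_true, List.mem_range, Bool.and_eq_true, decide_eq_true_eq,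
    beq_iff_eq] at h
  exact (h x hx).1.2

lemma ptN_zero (i : Nat) (hi : i < 5) : ptN 0 i = i := by
  have h := chkN2_true
  simp only [chkN2, List.all_eq_true, List.mem_range, Bool.and_eq_true, decide_eq_true_eq,
    beq_iff_eq] at h
  exact h.1 i hi

lemma ptN_lt (x i : Nat) (hx : x < 60) (hi : i < 5) : ptN x i < 5 := by
  have h := chkN2_true
  simp only [chkN2, List.all_eq_true, List.mem_range, Bool.and_eq_true, decide_eq_true_eq,
    beq_iff_eq] at h
  exact (h.2 x hx).1 i hi

lemma ptN_inj (x y : Nat) (hx : x < 60) (hy : y < 60) (h : ∀ i, i < 5 → ptN x i = ptN y i) :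
    x = y := by
  have h' := chkN2_true
  simp only [chkN2, List.all_eq_true, List.mem_range, Bool.and_eq_true, decide_eq_true_eq,
    beq_iff_eq, Bool.or_eq_true, Bool.not_eq_true', List.all_eq_false] at h'
  rcases (h'.2 x hx).2 y hy with h1 | ⟨i, hi, h1⟩
  · exact h1
  · exact absurd (h i hi) h1

/-- the alternating group of degree 5 -/
structure A60 where
  val : Fin 60
deriving DecidableEq, Fintype

namespace A60

instance : Mul A60 := ⟨fun x y => ⟨⟨mulN x.val y.val, mulN_lt _ _ x.val.2 y.val.2⟩⟩⟩
instance : One A60 := ⟨⟨0⟩⟩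
instance : Inv A60 := ⟨fun x => ⟨⟨invN x.val, invN_lt _ x.val.2⟩⟩⟩

lemma mul_val (x y : A60) : (x * y).val.1 = mulN x.val y.val := rfl
lemma one_val : (1 : A60).val.1 = 0 := rfl
lemma inv_val (x : A60) : (x⁻¹).val.1 = invN x.val := rfl

lemma ext' {x y : A60} (h : x.val.1 = y.val.1) : x = y := by
  cases x; cases y; simp only [A60.mk.injEq]; exact Fin.ext h

/-- action on five points -/
def pt (x : A60) (i : Fin 5) : Fin 5 := ⟨ptN x.val i, ptN_lt _ _ x.val.2 i.2⟩

lemma pt_mul (x y : A60) (i : Fin 5) : pt (x * y) i = pt x (pt y i) :=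
  Fin.ext (ptN_mul _ _ _ x.val.2 y.val.2 i.2)

lemma pt_one (i : Fin 5) : pt 1 i = i := Fin.ext (ptN_zero _ i.2)

lemma pt_inj {x y : A60} (h : ∀ i, pt x i = pt y i) : x = y :=
  ext' (ptN_inj _ _ x.val.2 y.val.2 fun i hi => congrArg Fin.val (h ⟨i, hi⟩))

instance : Group A60 :=
  Group.ofLeftAxioms
    (fun x y z => pt_inj fun i => by rw [pt_mul, pt_mul, pt_mul, pt_mul])
    (fun x => pt_inj fun i => by rw [pt_mul, pt_one])
    (fun x => ext' (invN_mul _ x.val.2))

end A60

/-! ## Colourings -/

namespace Core

variable {G : Type*} [Group G]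

/-- `c` gives colours of the local maxima such that the conditions at all local minima hold -/
def crun (c : ℕ → G) : ℕ → List G → Word → Prop
  | _, _, [] => True
  | k, s, .birth i :: w => crun c (k + 1) (ins i (c k) s) w
  | k, s, .death i :: w => s.getD i 1 = s.getD (i + 1) 1 ∧ crun c k (rem i s) w
  | k, s, .cross i b :: w => crun c k (cr i b s) w

/-- core colouring of a closed diagram, given by the colours of the local maxima -/
def Col (D : Word) (c : ℕ → G) : Prop := crun c 0 [] D

/-- colours of the lower end points -/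
def cend (c : ℕ → G) : ℕ → List G → Word → List G
  | _, s, [] => s
  | k, s, .birth i :: w => cend c (k + 1) (ins i (c k) s) w
  | k, s, .death i :: w => cend c k (rem i s) w
  | k, s, .cross i b :: w => cend c k (cr i b s) w

end Core

/-! ## Semidirect products -/

/-- semidirect product of a module with the group `A60` -/
@[ext] structure SG (M : Type*) where
  v : M
  g : A60
deriving DecidableEq

namespace SG

variable {M : Type*} [AddCommGroup M] [DistribMulAction A60 M]

instance : Mul (SG M) := ⟨fun x y => ⟨x.v + x.g • y.v, x.g * y.g⟩⟩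
instance : One (SG M) := ⟨⟨0, 1⟩⟩
instance : Inv (SG M) := ⟨fun x => ⟨-(x.g⁻¹ • x.v), x.g⁻¹⟩⟩

@[simp] lemma mul_v (x y : SG M) : (x * y).v = x.v + x.g • y.v := rfl
@[simp] lemma mul_g (x y : SG M) : (x * y).g = x.g * y.g := rfl
omit [DistribMulAction A60 M] in
@[simp] lemma one_v : (1 : SG M).v = 0 := rfl
omit [DistribMulAction A60 M] in
@[simp] lemma one_g : (1 : SG M).g = 1 := rfl
@[simp] lemma inv_v (x : SG M) : (x⁻¹).v = -(x.g⁻¹ • x.v) := rfl
@[simp] lemma inv_g (x : SG M) : (x⁻¹).g = x.g⁻¹ := rfl

instance : Group (SG M) :=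
  Group.ofLeftAxioms
    (fun x y z => by ext1 <;> simp [mul_smul, add_assoc, mul_assoc])
    (fun x => by ext1 <;> simp)
    (fun x => by ext1 <;> simp)

/-- as a product type -/
def equivProd : SG M ≃ M × A60 where
  toFun x := (x.v, x.g)
  invFun x := ⟨x.1, x.2⟩
  left_inv _ := rfl
  right_inv _ := rfl

instance [Fintype M] : Fintype (SG M) := Fintype.ofEquiv (M × A60) equivProd.symm

end SG

/-- the permutation module of `A60`: functions on five points with values in `ZMod p` -/
def PM (p : ℕ) := Fin 5 → ZMod p

namespace PM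

variable {p : ℕ}

instance : AddCommGroup (PM p) := inferInstanceAs (AddCommGroup (Fin 5 → ZMod p))
instance : Module (ZMod p) (PM p) := inferInstanceAs (Module (ZMod p) (Fin 5 → ZMod p))
instance : DecidableEq (PM p) := inferInstanceAs (DecidableEq (Fin 5 → ZMod p))
instance [NeZero p] : Fintype (PM p) := inferInstanceAs (Fintype (Fin 5 → ZMod p))

instance : DistribMulAction A60 (PM p) where
  smul g w := fun i => w (A60.pt g⁻¹ i)
  one_smul w := by
    funext i
    change w (A60.pt (1 : A60)⁻¹ i) = w i
    rw [inv_one, A60.pt_one]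
  mul_smul g h w := by
    funext i
    change w (A60.pt (g * h)⁻¹ i) = w (A60.pt h⁻¹ (A60.pt g⁻¹ i))
    rw [mul_inv_rev, A60.pt_mul]
  smul_zero _ := rfl
  smul_add _ _ _ := rfl

lemma smul_apply (g : A60) (w : PM p) (i : Fin 5) : (g • w) i = w (A60.pt g⁻¹ i) := rfl

end PM

/-! ## Lifts of colourings -/

/-- lifts of the colouring `h` to the semidirect product with `M` -/
def Lifts (M : Type*) [AddCommGroup M] [DistribMulAction A60 M] (D : Word) (h : ℕ → A60) :
    Set (Fin (births D) → M) :=
  {w | Core.Col D (fun k => (⟨if hk : k < births D then w ⟨k, hk⟩ else 0, h k⟩ : SG M))}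

/-! ## Evaluation by tables

The functions `force…` are the identity followed by a function (`forceN_eq`, …); they make the
kernel evaluate intermediate results. -/

/-- evaluate the number first -/
def forceN {α : Type} (x : Nat) (f : Nat → α) : α := Nat.rec (f 0) (fun n _ => f (Nat.succ n)) x

/-- evaluate the list of numbers first -/
def forceL {α : Type} (l : List Nat) : (List Nat → α) → α :=
  List.rec (fun f => f []) (fun x _ ih f => forceN x fun x' => ih fun l' => f (x' :: l')) l

/-- evaluate the list of lists of numbers first -/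
def forceLL {α : Type} (l : List (List Nat)) : (List (List Nat) → α) → α :=
  List.rec (fun f => f []) (fun x _ ih f => forceL x fun x' => ih fun l' => f (x' :: l')) l

/-- evaluate the spine of the list first -/
def forceSp {β : Type} {α : Type} (l : List β) : (List β → α) → α :=
  List.rec (fun f => f []) (fun x _ ih f => ih fun l' => f (x :: l')) l

theorem forceN_eq {α : Type} (x : Nat) (f : Nat → α) : forceN x f = f x := by
  cases x <;> rfl

theorem forceL_eq {α : Type} (l : List Nat) (f : List Nat → α) : forceL l f = f l := by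
  induction l generalizing f with
  | nil => rfl
  | cons x l ih =>
    change forceN x (fun x' => forceL l fun l' => f (x' :: l')) = _
    rw [forceN_eq, ih]

theorem forceLL_eq {α : Type} (l : List (List Nat)) (f : List (List Nat) → α) :
    forceLL l f = f l := by
  induction l generalizing f with
  | nil => rfl
  | cons x l ih =>
    change forceL x (fun x' => forceLL l fun l' => f (x' :: l')) = _
    rw [forceL_eq, ih]

theorem forceSp_eq {β : Type} {α : Type} (l : List β) (f : List β → α) : forceSp l f = f l := by
  induction l generalizing f with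
  | nil => rfl
  | cons x l ih =>
    change forceSp l (fun l' => f (x :: l')) = _
    rw [ih]

def coreN (x y : Nat) : Nat := mulN (mulN x (invN y)) x

/-- colourings by `A60`, evaluated with the tables -/
def crunN (c : List Nat) : Nat → List Nat → Word → Bool
  | _, _, [] => true
  | k, s, .birth i :: w =>
      forceL (s.take i ++ [c.getD k 0, c.getD k 0] ++ s.drop i) fun s' => crunN c (k + 1) s' w
  | k, s, .death i :: w => (Nat.beq (s.getD i 0) (s.getD (i + 1) 0)) &&
      forceL (s.take i ++ s.drop (i + 2)) fun s' => crunN c k s' w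
  | k, s, .cross i true :: w =>
      forceL (s.take i ++ [s.getD (i + 1) 0, coreN (s.getD (i + 1) 0) (s.getD i 0)]
        ++ s.drop (i + 2)) fun s' => crunN c k s' w
  | k, s, .cross i false :: w =>
      forceL (s.take i ++ [coreN (s.getD i 0) (s.getD (i + 1) 0), s.getD i 0]
        ++ s.drop (i + 2)) fun s' => crunN c k s' w

/-- colours of the lower end points, evaluated with the tables -/
def cendN (c : List Nat) : Nat → List Nat → Word → List Nat
  | _, s, [] => s
  | k, s, .birth i :: w =>
      forceL (s.take i ++ [c.getD k 0, c.getD k 0] ++ s.drop i) fun s' => cendN c (k + 1) s' w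
  | k, s, .death i :: w => forceL (s.take i ++ s.drop (i + 2)) fun s' => cendN c k s' w
  | k, s, .cross i true :: w =>
      forceL (s.take i ++ [s.getD (i + 1) 0, coreN (s.getD (i + 1) 0) (s.getD i 0)]
        ++ s.drop (i + 2)) fun s' => cendN c k s' w
  | k, s, .cross i false :: w =>
      forceL (s.take i ++ [coreN (s.getD i 0) (s.getD (i + 1) 0), s.getD i 0]
        ++ s.drop (i + 2)) fun s' => cendN c k s' w

/-! ## Linear forms

A strand with the colour `g` and the five coordinates of the module part, each a linear form in the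
`25` coordinates of the module parts of the local maxima, with coefficients modulo `13` (lists of
length `25`).
-/

abbrev Form := List Nat

def fadd (x y : Form) : Form := List.zipWith (fun a b => Nat.mod (Nat.add a b) 13) x y
def fsub (x y : Form) : Form := List.zipWith (fun a b => Nat.mod (Nat.add a (Nat.sub 13 b)) 13) x y

/-- the coordinate form `j` -/
def funit (j : Nat) : Form := (List.range 25).map fun i => if i = j then 1 else 0

/-- module part of the colour of the under-strand `y` after passing under `x` -/
def fcore (x y : Nat × List Form) : List Form :=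
  forceN (mulN y.1 (invN x.1)) fun κi =>
  (List.range 5).map fun i =>
    fadd (x.2.getD i []) (fsub (x.2.getD (ptN κi i) []) (y.2.getD (ptN κi i) []))

def fbirth (c : List Nat) (k : Nat) : Nat × List Form :=
  (c.getD k 0, (List.range 5).map fun i => funit (5 * k + i))

/-- the linear equations for the module part (`none` if the colours do not match) -/
def frun (c : List Nat) : Nat → List (Nat × List Form) → Word → Option (List Form)
  | _, _, [] => some []
  | k, s, .birth i :: w =>
      forceN (c.getD k 0) fun n => forceLL (fbirth c k).2 fun l =>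
      forceSp (s.take i ++ [(n, l), (n, l)] ++ s.drop i) fun s' => frun c (k + 1) s' w
  | k, s, .death i :: w =>
      if Nat.beq (s.getD i (0, [])).1 (s.getD (i + 1) (0, [])).1 then
        forceLL ((List.range 5).map fun j =>
            fsub ((s.getD i (0, [])).2.getD j []) ((s.getD (i + 1) (0, [])).2.getD j [])) fun e =>
        match frun c k (s.take i ++ s.drop (i + 2)) w with
        | none => none
        | some l => some (e ++ l)
      else none
  | k, s, .cross i true :: w =>
      forceN (coreN (s.getD (i + 1) (0, [])).1 (s.getD i (0, [])).1) fun n =>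
      forceLL (fcore (s.getD (i + 1) (0, [])) (s.getD i (0, []))) fun l =>
      forceSp (s.take i ++ [s.getD (i + 1) (0, []), (n, l)] ++ s.drop (i + 2)) fun s' =>
        frun c k s' w
  | k, s, .cross i false :: w =>
      forceN (coreN (s.getD i (0, [])).1 (s.getD (i + 1) (0, [])).1) fun n =>
      forceLL (fcore (s.getD i (0, [])) (s.getD (i + 1) (0, []))) fun l =>
      forceSp (s.take i ++ [(n, l), s.getD i (0, [])] ++ s.drop (i + 2)) fun s' => frun c k s' w

end TorMut
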