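import Pool.Agent.Lib.MP_407fc5_gt.RDefs
import Pool.Agent.Lib.MP_407fc5_gt.F01
import Pool.Agent.Lib.MP_407fc5_gt.G01

/-!
# O01: the raw longitude as a word (about 75 minutes)

`goN` is `go` with the colours replaced by signed arcs: `colours D (mer D) L = (st L).map (col X)`
(`run_frun_take`), and `col X a = evL X (codeSA a)`.  The only difference is the default value of
`getD`: the positions in question exist, because the layer `cross i b` at the level `L` satisfies
`i + 2 ≤ width` (`OK`), so the list has an entry `i + 1`.  `walkN_sound`: induction on the number of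
steps; the letters are accumulated with the last one at the head; `walkN` returns `some` only if the
first return to `(1, 0, false)` happens after exactly `n` steps.
-/

namespace TorMut

theorem O01_code {G : Type*} [Group G] (X : ℕ → G) (a : SA) : evL X (codeSA a) = col X a := by
  obtain ⟨f, b⟩ := a
  cases b
  · exact G01_odd X f
  · exact G01_even X f

theorem O01_width (w : Word) : ∀ (m L : ℕ) (l : Layer), OK m w → w[L]? = some l →
    l.ok (width m (w.take L)) := by
  induction w with
  | nil => intro m L l _ h; simp at h
  | cons a w ih =>
    intro m L l hok h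
    cases L with
    | zero =>
      simp at h
      subst h
      exact hok.1
    | succ L =>
      rw [List.getElem?_cons_succ] at h
      rw [List.take_succ_cons]
      exact ih _ L l hok.2 h

theorem O01_col (D : Word) (hD : OK 0 D) (X : ℕ → LinkGroup D)
    (hX : IsSol opG (ori sg (mer D)) (arcRun sg 0 0 [] D).2.1 X) (st : List (List SA))
    (hst : stTab D = st) (L i : ℕ) (b : Bool) (h : D[L]? = some (.cross i b)) :
    (colours D (mer D) L).getD i 1 = evL X (codeSA (stAt st L i)) ∧
      (colours D (mer D) L).getD (i + 1) 1 = evL X (codeSA (stAt st L (i + 1))) := by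
  have hL : L < D.length := by
    by_contra hc
    rw [List.getElem?_eq_none (by omega)] at h
    exact absurd h (by simp)
  have hc : colours D (mer D) L = (arcRun sg 0 0 [] (D.take L)).1.map (col X) :=
    run_frun_take sg (mer D) X D hD L hX
  have hlen : (arcRun sg 0 0 [] (D.take L)).1.length = width 0 (D.take L) := by
    have h1 := run_length (mer D) 0 [] (D.take L) (F01_OK D 0 L hD)
    have h2 : (run (mer D) 0 [] (D.take L)).1 = (arcRun sg 0 0 [] (D.take L)).1.map (col X) := hc
    rw [h2, List.length_map] at h1
    exact h1
  have hw := O01_width D 0 L _ hD h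
  rw [← hlen] at hw
  have hw' : i + 2 ≤ (arcRun sg 0 0 [] (D.take L)).1.length := hw
  have hs : ∀ j, stAt st L j = (arcRun sg 0 0 [] (D.take L)).1.getD j sa0 := by
    intro j
    unfold stAt
    rw [← hst]
    unfold stTab
    have hget : ((List.range (D.length + 1)).map
        fun L => (arcRun sg 0 0 [] (D.take L)).1).getD L [] = (arcRun sg 0 0 [] (D.take L)).1 := by
      rw [List.getD_eq_getElem _ _ (by rw [List.length_map, List.length_range]; omega),
        List.getElem_map, List.getElem_range]
    rw [hget]
  rw [hc, O01_code, O01_code, hs, hs]
  exact ⟨F01_getD X _ i (by omega), F01_getD X _ (i + 1) (by omega)⟩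

theorem O01_one {G : Type*} [Group G] (X : ℕ → G) (a : ℕ) : evW X [a] = evL X a := by
  rw [evW_cons, evW_nil, mul_one]

theorem O01_blt {p i : ℕ} (h : p < i) : Nat.blt p i = true := by
  rw [Nat.blt_eq]; exact h

theorem O01_nblt {p i : ℕ} (h : ¬ p < i) : Nat.blt p i = false := by
  rw [← Bool.not_eq_true, Nat.blt_eq]; exact h

theorem O01_beq {p i : ℕ} (h : p = i) : Nat.beq p i = true := by
  rw [Nat.beq_eq]; exact h

theorem O01_nbeq {p i : ℕ} (h : ¬ p = i) : Nat.beq p i = false := by
  rw [← Bool.not_eq_true, Nat.beq_eq]; exact h

theorem go_sound (D : Word) (hD : OK 0 D) (X : ℕ → LinkGroup D)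
    (hX : IsSol opG (ori sg (mer D)) (arcRun sg 0 0 [] D).2.1 X) (st : List (List SA))
    (hst : stTab D = st) (x : ℕ × ℕ × Bool) (hx : x.1 ≤ D.length) :
    go D (colours D (mer D)) x = ((goN D st x).1, evW X (goN D st x).2) ∧
      (goN D st x).1.1 ≤ D.length := by
  obtain ⟨L, p, d⟩ := x
  have hlt : ∀ {K : ℕ} {l : Layer}, D[K]? = some l → K < D.length := by
    intro K l h
    by_contra hc
    rw [List.getElem?_eq_none (by omega)] at h
    exact absurd h (by simp)
  simp only at hx
  cases d with
  | true =>
    rw [go, goN]
    cases hl : D[L]? with
    | none =>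
      simp only
      exact ⟨rfl, hx⟩
    | some l =>
      have hL := hlt hl
      cases l with
      | birth i =>
        simp only
        by_cases h1 : p < i
        · rw [if_pos h1, O01_blt h1]
          exact ⟨rfl, hL⟩
        · rw [if_neg h1, O01_nblt h1]
          exact ⟨rfl, hL⟩
      | death i =>
        simp only
        by_cases h1 : p < i
        · rw [if_pos h1, O01_blt h1]
          exact ⟨rfl, hL⟩
        · rw [if_neg h1, O01_nblt h1]
          simp only
          by_cases h2 : p = i
          · rw [if_pos h2, O01_beq h2]
            exact ⟨rfl, hx⟩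
          · rw [if_neg h2, O01_nbeq h2]
            simp only
            by_cases h3 : p = i + 1
            · rw [if_pos h3, O01_beq h3]
              exact ⟨rfl, hx⟩
            · rw [if_neg h3, O01_nbeq h3]
              exact ⟨rfl, hL⟩
      | cross i b =>
        obtain ⟨c1, c2⟩ := O01_col D hD X hX st hst L i b hl
        simp only
        by_cases h1 : p = i
        · rw [if_pos h1, O01_beq h1]
          cases b
          · exact ⟨rfl, hL⟩
          · simp only
            rw [O01_one, ← c2]
            exact ⟨rfl, hL⟩
        · rw [if_neg h1, O01_nbeq h1]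
          simp only
          by_cases h2 : p = i + 1
          · rw [if_pos h2, O01_beq h2]
            cases b
            · simp only
              rw [O01_one, evL_flp, ← c1]
              exact ⟨rfl, hL⟩
            · exact ⟨rfl, hL⟩
          · rw [if_neg h2, O01_nbeq h2]
            exact ⟨rfl, hL⟩
  | false =>
    cases L with
    | zero =>
      rw [go, goN]
      exact ⟨rfl, hx⟩
    | succ L =>
      rw [go, goN]
      cases hl : D[L]? with
      | none =>
        simp only
        exact ⟨rfl, hx⟩
      | some l =>
        have hL := hlt hl
        cases l with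
        | birth i =>
          simp only
          by_cases h1 : p < i
          · rw [if_pos h1, O01_blt h1]
            exact ⟨rfl, hL.le⟩
          · rw [if_neg h1, O01_nblt h1]
            simp only
            by_cases h2 : p = i
            · rw [if_pos h2, O01_beq h2]
              exact ⟨rfl, hx⟩
            · rw [if_neg h2, O01_nbeq h2]
              simp only
              by_cases h3 : p = i + 1
              · rw [if_pos h3, O01_beq h3]
                exact ⟨rfl, hx⟩
              · rw [if_neg h3, O01_nbeq h3]
                exact ⟨rfl, hL.le⟩
        | death i =>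
          simp only
          by_cases h1 : p < i
          · rw [if_pos h1, O01_blt h1]
            exact ⟨rfl, hL.le⟩
          · rw [if_neg h1, O01_nblt h1]
            exact ⟨rfl, hL.le⟩
        | cross i b =>
          obtain ⟨c1, c2⟩ := O01_col D hD X hX st hst L i b hl
          simp only
          by_cases h1 : p = i + 1
          · rw [if_pos h1, O01_beq h1]
            cases b
            · exact ⟨rfl, hL.le⟩
            · simp only
              rw [O01_one, evL_flp, ← c2]
              exact ⟨rfl, hL.le⟩
          · rw [if_neg h1, O01_nbeq h1]
            simp only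
            by_cases h2 : p = i
            · rw [if_pos h2, O01_beq h2]
              cases b
              · simp only
                rw [O01_one, ← c1]
                exact ⟨rfl, hL.le⟩
              · exact ⟨rfl, hL.le⟩
            · rw [if_neg h2, O01_nbeq h2]
              exact ⟨rfl, hL.le⟩

theorem O01_rev (D : Word) (st : List (List SA)) (x : ℕ × ℕ × Bool) :
    (goN D st x).2.reverse = (goN D st x).2 := by
  obtain ⟨L, p, d⟩ := x
  cases d with
  | true =>
    rw [goN]
    cases hl : D[L]? with
    | none => rfl
    | some l =>
      cases l with
      | birth i =>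
        simp only
        cases Nat.blt p i <;> rfl
      | death i =>
        simp only
        cases Nat.blt p i
        · simp only
          cases Nat.beq p i
          · simp only
            cases Nat.beq p (i + 1) <;> rfl
          · rfl
        · rfl
      | cross i b =>
        simp only
        cases Nat.beq p i
        · simp only
          cases Nat.beq p (i + 1)
          · rfl
          · cases b <;> rfl
        · cases b <;> rfl
  | false =>
    cases L with
    | zero => rw [goN]; rfl
    | succ L =>
      rw [goN]
      cases hl : D[L]? with
      | none => rfl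
      | some l =>
        cases l with
        | birth i =>
          simp only
          cases Nat.blt p i
          · simp only
            cases Nat.beq p i
            · simp only
              cases Nat.beq p (i + 1) <;> rfl
            · rfl
          · rfl
        | death i =>
          simp only
          cases Nat.blt p i <;> rfl
        | cross i b =>
          simp only
          cases Nat.beq p (i + 1)
          · simp only
            cases Nat.beq p i
            · rfl
            · cases b <;> rfl
          · cases b <;> rfl

theorem O01_start (x : ℕ × ℕ × Bool) : isStart x = true ↔ x = (1, 0, false) := by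
  obtain ⟨a, b, c⟩ := x
  unfold isStart
  rw [Bool.and_eq_true, Bool.and_eq_true, Nat.beq_eq, Nat.beq_eq]
  constructor
  · rintro ⟨⟨h1, h2⟩, h3⟩
    simp only at h1 h2 h3
    rw [h1, h2]
    cases c
    · rfl
    · simp at h3
  · intro h
    rw [Prod.mk.injEq, Prod.mk.injEq] at h
    obtain ⟨h1, h2, h3⟩ := h
    subst h1 h2 h3
    exact ⟨⟨rfl, rfl⟩, rfl⟩

theorem O01_walk (D : Word) (hD : OK 0 D) (X : ℕ → LinkGroup D)
    (hX : IsSol opG (ori sg (mer D)) (arcRun sg 0 0 [] D).2.1 X) (st : List (List SA))
    (hst : stTab D = st) (w : List ℕ) : ∀ (n k : ℕ) (x : ℕ × ℕ × Bool) (acc : List ℕ),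
    walk D (mer D) k = (x, evW X acc.reverse) → x.1 ≤ D.length →
    (∀ j, 0 < j → j ≤ k → (walk D (mer D) j).1 ≠ (1, 0, false)) →
    walkN D st n x acc = some w →
    ∃ m, 0 < m ∧ walk D (mer D) m = ((1, 0, false), evW X w.reverse) ∧
      ∀ j, 0 < j → j < m → (walk D (mer D) j).1 ≠ (1, 0, false) := by
  intro n
  induction n with
  | zero => intro k x acc _ _ _ h; simp [walkN] at h
  | succ n ih =>
    intro k x acc hk hx hj h
    obtain ⟨g1, g2⟩ := go_sound D hD X hX st hst x hx
    have hrev := O01_rev D st x
    rw [walkN] at h
    obtain ⟨y, hy⟩ : ∃ y, y = (goN D st x).1 := ⟨_, rfl⟩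
    obtain ⟨u, hu⟩ : ∃ u, u = (goN D st x).2 := ⟨_, rfl⟩
    have hyu : goN D st x = (y, u) := by rw [hy, hu]
    rw [hyu] at h g1 g2 hrev
    simp only at h g1 g2 hrev
    have hk1 : walk D (mer D) (k + 1) = (y, evW X (u ++ acc).reverse) := by
      rw [walk, hk]
      simp only
      rw [g1, List.reverse_append, evW_append, hrev]
    cases hs : isStart y with
    | true =>
      rw [hs] at h
      simp only at h
      cases n with
      | zero =>
        simp only at h
        rw [Option.some.injEq] at h
        rw [O01_start] at hs
        refine ⟨k + 1, Nat.succ_pos k, ?_, fun j h1 h2 => hj j h1 (by omega)⟩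
        rw [hk1, hs, h]
      | succ n =>
        simp at h
    | false =>
      rw [hs] at h
      simp only at h
      have hne : y ≠ (1, 0, false) := by
        intro hc
        rw [← O01_start, hs] at hc
        exact Bool.false_ne_true hc
      refine ih (k + 1) y (u ++ acc) hk1 g2 ?_ h
      intro j h1 h2
      by_cases h3 : j ≤ k
      · exact hj j h1 h3
      · have : j = k + 1 := by omega
        rw [this, hk1]
        exact hne

theorem walkN_sound (D : Word) (hD : OK 0 D) (h1 : 1 ≤ D.length) (X : ℕ → LinkGroup D)
    (hX : IsSol opG (ori sg (mer D)) (arcRun sg 0 0 [] D).2.1 X) (st : List (List SA))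
    (hst : stTab D = st) (n : ℕ) (w : List ℕ) (h : walkN D st n (1, 0, false) [] = some w) :
    IsRawLongitude D (mer D) (evW X w.reverse) := by
  refine O01_walk D hD X hX st hst w n 0 (1, 0, false) [] ?_ h1 ?_ h
  · rfl
  · intro j h1 h2
    omega

end TorMut
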