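import Pool.Agent.Lib.MP_407fc5_gt.T02

/-!
# O02: the raw longitude commutes with the meridian (about 75 minutes)

Let `τ (L, p, true) = (colour L p)⁻¹` and `τ (L, p, false) = colour L p`.  One step `go` from `x` to `y`
with the factor `c` satisfies `c⁻¹ * τ x * c = τ y` if the position `x` is valid (`p < width` of the
level `L`), for colours in the link group (at a minimum the two colours are inverse to each other by
`run_eq_one`, at a maximum by definition), and `y` is valid.  So `l_n⁻¹ * mer D 0 * l_n = τ (x_n)` for the
walk starting at `(1, 0, false)`, whose colour is `mer D 0` because the first layer is `birth 0`.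
-/

namespace TorMut

section lists

variable {G : Type*} [Group G]

theorem O02_lt (s m : List G) (i j p : ℕ) (hi : i ≤ s.length) (hp : p < i) :
    (s.take i ++ m ++ s.drop j).getD p 1 = s.getD p 1 := by
  rw [List.getD_eq_getElem?_getD, List.getD_eq_getElem?_getD, List.append_assoc,
    List.getElem?_append_left (by rw [List.length_take]; omega), List.getElem?_take_of_lt hp]

theorem O02_mid (s m : List G) (i j q p : ℕ) (hi : i ≤ s.length) (hq : q < m.length)
    (hp : p = i + q) : (s.take i ++ m ++ s.drop j).getD p 1 = m.getD q 1 := by
  subst hp
  have h1 : (s.take i).length = i := by rw [List.length_take]; omega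
  rw [List.getD_eq_getElem?_getD, List.getD_eq_getElem?_getD, List.append_assoc,
    List.getElem?_append_right (by rw [h1]; omega), h1, Nat.add_sub_cancel_left,
    List.getElem?_append_left hq]

theorem O02_ge (s m : List G) (i j q p : ℕ) (hi : i ≤ s.length) (hp : p = i + m.length + q) :
    (s.take i ++ m ++ s.drop j).getD p 1 = s.getD (j + q) 1 := by
  subst hp
  have h1 : (s.take i ++ m).length = i + m.length := by
    rw [List.length_append, List.length_take]; omega
  rw [List.getD_eq_getElem?_getD, List.getD_eq_getElem?_getD,
    List.getElem?_append_right (by rw [h1]; omega), h1, Nat.add_sub_cancel_left,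
    List.getElem?_drop]

/-- signed colour of a strand -/
def O02_tau (c : ℕ → List G) (x : ℕ × ℕ × Bool) : G :=
  match x.2.2 with
  | true => ((c x.1).getD x.2.1 1)⁻¹
  | false => (c x.1).getD x.2.1 1

/-- the relation between the colours above and below a layer -/
def O02_rel (s s' : List G) : Layer → Prop
  | .birth i => i ≤ s.length ∧ s'.length = s.length + 2 ∧
      ∃ a : G, s' = s.take i ++ [a, a⁻¹] ++ s.drop i
  | .death i => i + 2 ≤ s.length ∧ s'.length + 2 = s.length ∧ s' = s.take i ++ s.drop (i + 2) ∧
      s.getD i 1 * s.getD (i + 1) 1 = 1
  | .cross i true => i + 2 ≤ s.length ∧ s'.length = s.length ∧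
      s' = s.take i ++ [s.getD (i + 1) 1,
        (s.getD (i + 1) 1)⁻¹ * s.getD i 1 * s.getD (i + 1) 1] ++ s.drop (i + 2)
  | .cross i false => i + 2 ≤ s.length ∧ s'.length = s.length ∧
      s' = s.take i ++ [s.getD i 1 * s.getD (i + 1) 1 * (s.getD i 1)⁻¹, s.getD i 1]
        ++ s.drop (i + 2)

theorem O02_go (D : Word) (c : ℕ → List G)
    (hc : ∀ L l, D[L]? = some l → O02_rel (c L) (c (L + 1)) l) (x : ℕ × ℕ × Bool)
    (hx : x.2.1 < (c x.1).length) :
    (go D c x).1.2.1 < (c (go D c x).1.1).length ∧
      (go D c x).2⁻¹ * O02_tau c x * (go D c x).2 = O02_tau c (go D c x).1 := by
  obtain ⟨L, p, d⟩ := x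
  simp only at hx
  cases d with
  | true =>
    rw [go]
    cases hl : D[L]? with
    | none =>
      simp only
      exact ⟨hx, by group⟩
    | some l =>
      have hr := hc L l hl
      cases l with
      | birth i =>
        obtain ⟨h1, h2, a, h3⟩ := hr
        simp only
        by_cases h4 : p < i
        · rw [if_pos h4]
          refine ⟨by simp only; omega, ?_⟩
          simp only [O02_tau]
          rw [h3, O02_lt _ _ _ _ _ h1 h4]
          group
        · rw [if_neg h4]
          refine ⟨by simp only; omega, ?_⟩
          simp only [O02_tau]
          rw [h3, O02_ge _ _ _ _ (p - i) _ h1 (by simp only [List.length_cons, List.length_nil]; omega),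
            show i + (p - i) = p by omega]
          group
      | death i =>
        obtain ⟨h1, h2, h3, h5⟩ := hr
        have h3' : c (L + 1) = (c L).take i ++ [] ++ (c L).drop (i + 2) := by
          rw [List.append_nil]; exact h3
        simp only
        by_cases h4 : p < i
        · rw [if_pos h4]
          refine ⟨by simp only; omega, ?_⟩
          simp only [O02_tau]
          rw [h3', O02_lt _ _ _ _ _ (by omega) h4]
          group
        · rw [if_neg h4]
          by_cases h6 : p = i
          · rw [if_pos h6]
            refine ⟨by simp only; omega, ?_⟩
            simp only [O02_tau]
            rw [h6, eq_inv_of_mul_eq_one_right h5]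
            group
          · rw [if_neg h6]
            by_cases h7 : p = i + 1
            · rw [if_pos h7]
              refine ⟨by simp only; omega, ?_⟩
              simp only [O02_tau]
              rw [h7, eq_inv_of_mul_eq_one_right h5]
              group
            · rw [if_neg h7]
              refine ⟨by simp only; omega, ?_⟩
              simp only [O02_tau]
              rw [h3', O02_ge _ _ _ _ (p - 2 - i) _ (by omega)
                (by simp only [List.length_nil]; omega),
                show i + 2 + (p - 2 - i) = p by omega]
              group
      | cross i b =>
        cases b with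
        | true =>
          obtain ⟨h1, h2, h3⟩ := hr
          simp only
          by_cases h4 : p = i
          · rw [if_pos h4]
            refine ⟨by simp only; omega, ?_⟩
            simp only [O02_tau, if_true]
            rw [h3, O02_mid _ _ _ _ 1 _ (by omega) (by simp) rfl, h4]
            simp only [List.getD_cons_succ, List.getD_cons_zero]
            group
          · rw [if_neg h4]
            by_cases h5 : p = i + 1
            · rw [if_pos h5]
              refine ⟨by simp only; omega, ?_⟩
              simp only [O02_tau, if_true]
              rw [h3, O02_mid _ _ _ _ 0 i (by omega) (by simp) rfl, h5]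
              simp only [List.getD_cons_zero]
              group
            · rw [if_neg h5]
              refine ⟨by simp only; omega, ?_⟩
              simp only [O02_tau]
              rw [h3]
              by_cases h6 : p < i
              · rw [O02_lt _ _ _ _ _ (by omega) h6]
                group
              · rw [O02_ge _ _ _ _ (p - i - 2) _ (by omega)
                  (by simp only [List.length_cons, List.length_nil]; omega),
                  show i + 2 + (p - i - 2) = p by omega]
                group
        | false =>
          obtain ⟨h1, h2, h3⟩ := hr
          simp only
          by_cases h4 : p = i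
          · rw [if_pos h4]
            refine ⟨by simp only; omega, ?_⟩
            simp only [O02_tau, Bool.false_eq_true, if_false]
            rw [h3, O02_mid _ _ _ _ 1 _ (by omega) (by simp) rfl, h4]
            simp only [List.getD_cons_succ, List.getD_cons_zero]
            group
          · rw [if_neg h4]
            by_cases h5 : p = i + 1
            · rw [if_pos h5]
              refine ⟨by simp only; omega, ?_⟩
              simp only [O02_tau, Bool.false_eq_true, if_false]
              rw [h3, O02_mid _ _ _ _ 0 i (by omega) (by simp) rfl, h5]
              simp only [List.getD_cons_zero]
              group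
            · rw [if_neg h5]
              refine ⟨by simp only; omega, ?_⟩
              simp only [O02_tau]
              rw [h3]
              by_cases h6 : p < i
              · rw [O02_lt _ _ _ _ _ (by omega) h6]
                group
              · rw [O02_ge _ _ _ _ (p - i - 2) _ (by omega)
                  (by simp only [List.length_cons, List.length_nil]; omega),
                  show i + 2 + (p - i - 2) = p by omega]
                group
  | false =>
    cases L with
    | zero =>
      rw [go]
      exact ⟨hx, by group⟩
    | succ L =>
      rw [go]
      cases hl : D[L]? with
      | none =>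
        simp only
        exact ⟨hx, by group⟩
      | some l =>
        have hr := hc L l hl
        cases l with
        | birth i =>
          obtain ⟨h1, h2, a, h3⟩ := hr
          simp only
          by_cases h4 : p < i
          · rw [if_pos h4]
            refine ⟨by simp only; omega, ?_⟩
            simp only [O02_tau]
            rw [h3, O02_lt _ _ _ _ _ h1 h4]
            group
          · rw [if_neg h4]
            by_cases h5 : p = i
            · rw [if_pos h5]
              refine ⟨by simp only; omega, ?_⟩
              simp only [O02_tau]
              rw [h3, O02_mid _ _ _ _ 1 (i + 1) h1 (by simp) rfl,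
                O02_mid _ _ _ _ 0 p h1 (by simp) (by omega)]
              simp only [List.getD_cons_succ, List.getD_cons_zero]
              group
            · rw [if_neg h5]
              by_cases h6 : p = i + 1
              · rw [if_pos h6]
                refine ⟨by simp only; omega, ?_⟩
                simp only [O02_tau]
                rw [h3, O02_mid _ _ _ _ 0 i h1 (by simp) rfl,
                  O02_mid _ _ _ _ 1 p h1 (by simp) (by omega)]
                simp only [List.getD_cons_succ, List.getD_cons_zero]
                group
              · rw [if_neg h6]
                refine ⟨by simp only; omega, ?_⟩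
                simp only [O02_tau]
                rw [h3, O02_ge _ _ _ _ (p - 2 - i) _ h1
                  (by simp only [List.length_cons, List.length_nil]; omega),
                  show i + (p - 2 - i) = p - 2 by omega]
                group
        | death i =>
          obtain ⟨h1, h2, h3, h5⟩ := hr
          have h3' : c (L + 1) = (c L).take i ++ [] ++ (c L).drop (i + 2) := by
            rw [List.append_nil]; exact h3
          simp only
          by_cases h4 : p < i
          · rw [if_pos h4]
            refine ⟨by simp only; omega, ?_⟩
            simp only [O02_tau]
            rw [h3', O02_lt _ _ _ _ _ (by omega) h4]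
            group
          · rw [if_neg h4]
            refine ⟨by simp only; omega, ?_⟩
            simp only [O02_tau]
            rw [h3', O02_ge _ _ _ _ (p - i) _ (by omega) (by simp only [List.length_nil]; omega),
              show i + 2 + (p - i) = p + 2 by omega]
            group
        | cross i b =>
          cases b with
          | true =>
            obtain ⟨h1, h2, h3⟩ := hr
            simp only
            by_cases h4 : p = i + 1
            · rw [if_pos h4]
              refine ⟨by simp only; omega, ?_⟩
              simp only [O02_tau, if_true]
              rw [h3, O02_mid _ _ _ _ 1 _ (by omega) (by simp) h4]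
              simp only [List.getD_cons_succ, List.getD_cons_zero]
              group
            · rw [if_neg h4]
              by_cases h5 : p = i
              · rw [if_pos h5]
                refine ⟨by simp only; omega, ?_⟩
                simp only [O02_tau, if_true]
                rw [h3, O02_mid _ _ _ _ 0 _ (by omega) (by simp) h5]
                simp only [List.getD_cons_zero]
                group
              · rw [if_neg h5]
                refine ⟨by simp only; omega, ?_⟩
                simp only [O02_tau]
                rw [h3]
                by_cases h6 : p < i
                · rw [O02_lt _ _ _ _ _ (by omega) h6]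
                  group
                · rw [O02_ge _ _ _ _ (p - i - 2) _ (by omega)
                    (by simp only [List.length_cons, List.length_nil]; omega),
                    show i + 2 + (p - i - 2) = p by omega]
                  group
          | false =>
            obtain ⟨h1, h2, h3⟩ := hr
            simp only
            by_cases h4 : p = i + 1
            · rw [if_pos h4]
              refine ⟨by simp only; omega, ?_⟩
              simp only [O02_tau, Bool.false_eq_true, if_false]
              rw [h3, O02_mid _ _ _ _ 1 _ (by omega) (by simp) h4]
              simp only [List.getD_cons_succ, List.getD_cons_zero]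
              group
            · rw [if_neg h4]
              by_cases h5 : p = i
              · rw [if_pos h5]
                refine ⟨by simp only; omega, ?_⟩
                simp only [O02_tau, Bool.false_eq_true, if_false]
                rw [h3, O02_mid _ _ _ _ 0 _ (by omega) (by simp) h5]
                simp only [List.getD_cons_zero]
                group
              · rw [if_neg h5]
                refine ⟨by simp only; omega, ?_⟩
                simp only [O02_tau]
                rw [h3]
                by_cases h6 : p < i
                · rw [O02_lt _ _ _ _ _ (by omega) h6]
                  group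
                · rw [O02_ge _ _ _ _ (p - i - 2) _ (by omega)
                    (by simp only [List.length_cons, List.length_nil]; omega),
                    show i + 2 + (p - i - 2) = p by omega]
                  group

theorem O02_ok (w : Word) : ∀ (m L : ℕ), OK m w → OK m (w.take L) := by
  induction w with
  | nil => intro m L _; simp [OK]
  | cons l w ih =>
    intro m L h
    cases L with
    | zero => simp [OK]
    | succ L =>
      rw [List.take_succ_cons]
      exact ⟨h.1, ih _ L h.2⟩

theorem O02_width (w : Word) : ∀ (m L : ℕ) (l : Layer), OK m w → w[L]? = some l →
    l.ok (width m (w.take L)) := by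
  induction w with
  | nil => intro m L l _ h; simp at h
  | cons a w ih =>
    intro m L l hok h
    cases L with
    | zero =>
      simp at h
      subst h
      exact hok.1
    | succ L =>
      rw [List.getElem?_cons_succ] at h
      rw [List.take_succ_cons]
      exact ih _ L l hok.2 h

theorem O02_split (w : Word) (L : ℕ) (l : Layer) (h : w[L]? = some l) :
    w.take (L + 1) = w.take L ++ [l] ∧ w = w.take L ++ (l :: w.drop (L + 1)) := by
  constructor
  · rw [List.take_add_one, h]
    rfl
  · have hL : L < w.length := by
      by_contra hc
      rw [List.getElem?_eq_none (by omega)] at h
      exact absurd h (by simp)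
    have h1 : w[L] = l := by
      rw [List.getElem?_eq_getElem hL, Option.some.injEq] at h
      exact h
    have h2 : w.drop L = l :: w.drop (L + 1) := by
      rw [List.drop_eq_getElem_cons hL, h1]
    rw [← h2, List.take_append_drop]

end lists

theorem O02_colours (D : Word) (hok : OK 0 D) (L : ℕ) (l : Layer) (h : D[L]? = some l) :
    O02_rel (colours D (mer D) L) (colours D (mer D) (L + 1)) l := by
  obtain ⟨hs1, hs2⟩ := O02_split D L l h
  have hlen : (colours D (mer D) L).length = width 0 (D.take L) := by
    have h1 := run_length (mer D) 0 [] (D.take L) (O02_ok D 0 L hok)
    exact h1
  have hw := O02_width D 0 L _ hok h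
  rw [← hlen] at hw
  have hrun : colours D (mer D) (L + 1) =
      (run (mer D) (0 + births (D.take L)) (colours D (mer D) L) [l]).1 := by
    unfold colours
    rw [hs1, run_append]
  have hmem : ∀ r, r ∈ (run (mer D) (0 + births (D.take L)) (colours D (mer D) L)
      (l :: D.drop (L + 1))).2 → r = 1 := by
    intro r hr
    apply run_eq_one D (MonoidHom.id (LinkGroup D)) r
    have h3 : (run (fun k => (MonoidHom.id (LinkGroup D)) (mer D k)) 0 [] D).2 =
        (run (mer D) 0 [] (D.take L ++ (l :: D.drop (L + 1)))).2 := by
      rw [← hs2]
      rfl
    rw [h3, run_append]
    exact List.mem_append_right _ hr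
  obtain ⟨s, hs⟩ : ∃ s, s = colours D (mer D) L := ⟨_, rfl⟩
  rw [← hs] at hw hrun hmem ⊢
  cases l with
  | birth i =>
    simp only [run] at hrun
    have hw' : i ≤ s.length := hw
    refine ⟨hw', ?_, mer D (0 + births (D.take L)), hrun⟩
    rw [hrun]
    simp
    omega
  | death i =>
    simp only [run] at hrun
    have hw' : i + 2 ≤ s.length := hw
    refine ⟨hw', ?_, hrun, ?_⟩
    · rw [hrun]
      simp
      omega
    · apply hmem
      simp only [run]
      exact List.mem_cons_self
  | cross i b =>
    have hw' : i + 2 ≤ s.length := hw
    cases b with
    | true =>
      simp only [run] at hrun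
      refine ⟨hw', ?_, hrun⟩
      rw [hrun]
      simp
      omega
    | false =>
      simp only [run] at hrun
      refine ⟨hw', ?_, hrun⟩
      rw [hrun]
      simp
      omega

theorem raw_comm (D D' : Word) (hD : D = .birth 0 :: D') (hok : OK 0 D) (l : LinkGroup D)
    (h : IsRawLongitude D (mer D) l) : l * mer D 0 = mer D 0 * l := by
  have h0 : colours D (mer D) 1 = [mer D 0, (mer D 0)⁻¹] := by
    unfold colours
    rw [hD]
    simp [run]
  have hc : ∀ L l, D[L]? = some l →
      O02_rel (colours D (mer D) L) (colours D (mer D) (L + 1)) l :=
    fun L l hl => O02_colours D hok L l hl
  have key : ∀ n, (walk D (mer D) n).1.2.1 < (colours D (mer D) (walk D (mer D) n).1.1).length ∧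
      (walk D (mer D) n).2⁻¹ * mer D 0 * (walk D (mer D) n).2 =
        O02_tau (colours D (mer D)) (walk D (mer D) n).1 := by
    intro n
    induction n with
    | zero =>
      rw [walk]
      simp only [O02_tau]
      rw [h0]
      refine ⟨by simp, by simp⟩
    | succ n ih =>
      obtain ⟨ih1, ih2⟩ := ih
      obtain ⟨g1, g2⟩ := O02_go D (colours D (mer D)) hc _ ih1
      rw [walk]
      refine ⟨g1, ?_⟩
      rw [← g2, ← ih2]
      simp only [mul_inv_rev, mul_assoc]
  obtain ⟨n, _, hn, _⟩ := h
  obtain ⟨_, k2⟩ := key n
  rw [hn] at k2
  simp only [O02_tau] at k2
  rw [h0, List.getD_cons_zero] at k2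
  have h1 : mer D 0 * l = l * mer D 0 := by
    calc mer D 0 * l = l * (l⁻¹ * mer D 0 * l) := by group
      _ = l * mer D 0 := by rw [k2]
  exact h1.symm

end TorMut
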