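import Pool.Agent.Lib.MP_407fc5_gt.RDefs
import Pool.Agent.Lib.MP_407fc5_gt.V01
import Pool.Agent.Lib.MP_407fc5_gt.B04

/-!
# O03: the orientation condition (about 60 minutes)

`α (mer D 0) = PV (A 0) = [[1, 1], [0, 1]]` (`A 0 = ![1, 0]`, arc `0` is the maximum `0` with the sign
`true`).  `α l` commutes with it, hence `α l = s [[1, c'], [0, 1]]` with `s = ± 1`; the second column of
`α l` is `(s c', s)`, which `lonOK` encloses, so `0 < Im c'`.  With `φ (l) = ofAdd j` take `k = - j`;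
`α (l * mer D 0 ^ k) = s [[1, c' + k], [0, 1]] = s (1 + (c' + k) N)`, `N = α (mer D 0) - 1`.
-/

namespace TorMut

open Tile Matrix MatrixGroups

/-- upper triangular unipotent elements -/
def O03_U (z : ℂ) : SL(2, ℂ) := ⟨!![1, z; 0, 1], by rw [Matrix.det_fin_two_of]; ring⟩

theorem O03_mul (z w : ℂ) : O03_U z * O03_U w = O03_U (z + w) := by
  apply Subtype.ext
  show !![1, z; 0, 1] * !![1, w; 0, 1] = !![1, z + w; 0, 1]
  rw [Matrix.mul_fin_two]
  ext i j
  fin_cases i <;> fin_cases j <;> simp [add_comm]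

theorem O03_zero : O03_U 0 = 1 := by
  apply Subtype.ext
  show !![1, (0 : ℂ); 0, 1] = 1
  rw [Matrix.one_fin_two]

theorem O03_inv (z : ℂ) : (O03_U z)⁻¹ = O03_U (-z) := by
  apply inv_eq_of_mul_eq_one_right
  rw [O03_mul, add_neg_cancel, O03_zero]

theorem O03_zpow (k : ℤ) : (O03_U 1) ^ k = O03_U (k : ℂ) := by
  induction k using Int.induction_on with
  | zero => rw [_root_.zpow_zero, Int.cast_zero, O03_zero]
  | succ i ih => rw [_root_.zpow_add_one, ih, O03_mul]; congr 1; push_cast; ring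
  | pred i ih => rw [_root_.zpow_sub_one, ih, O03_inv, O03_mul]; congr 1; push_cast; ring

theorem O03_PV {a : V2} (ha : a = ![1, 0]) : PV a = O03_U 1 := by
  subst ha
  apply Subtype.ext
  show !![1 - (![1, 0] : V2) 0 * (![1, 0] : V2) 1, (![1, 0] : V2) 0 ^ 2;
    -((![1, 0] : V2) 1) ^ 2, 1 + (![1, 0] : V2) 0 * (![1, 0] : V2) 1] = !![1, 1; 0, 1]
  simp

/-- an element commuting with `O03_U 1` -/
theorem O03_form (g : SL(2, ℂ)) (h : g * O03_U 1 = O03_U 1 * g) :
    (g.1 1 1 = 1 ∧ g = O03_U (g.1 0 1)) ∨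
      (g.1 1 1 = -1 ∧ g.1 = -(O03_U (-(g.1 0 1))).1) := by
  have hP : PV (![1, 0] : V2) = O03_U 1 := O03_PV rfl
  rw [← hP] at h
  have ha : (![1, 0] : V2) ≠ 0 := by
    intro h0
    have := congrFun h0 0
    simp at this
  have hdet : g.1 0 0 * g.1 1 1 - g.1 0 1 * g.1 1 0 = 1 := by
    rw [← Matrix.det_fin_two]
    exact g.2
  have e0 : g.1.mulVec (![1, 0] : V2) 0 = g.1 0 0 := by
    simp [Matrix.mulVec, dotProduct, Fin.sum_univ_two]
  have e1 : g.1.mulVec (![1, 0] : V2) 1 = g.1 1 0 := by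
    simp [Matrix.mulVec, dotProduct, Fin.sum_univ_two]
  rcases PV_comm g _ ha h with h1 | h1
  · left
    have h00 : g.1 0 0 = 1 := by rw [← e0, h1]; rfl
    have h10 : g.1 1 0 = 0 := by rw [← e1, h1]; rfl
    have h11 : g.1 1 1 = 1 := by
      rw [h00, h10] at hdet
      linear_combination hdet
    refine ⟨h11, ?_⟩
    apply Subtype.ext
    rw [Matrix.eta_fin_two g.1, h00, h10, h11]
    rfl
  · right
    have h00 : g.1 0 0 = -1 := by rw [← e0, h1]; rfl
    have h10 : g.1 1 0 = 0 := by rw [← e1, h1]; simp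
    have h11 : g.1 1 1 = -1 := by
      rw [h00, h10] at hdet
      linear_combination -hdet
    refine ⟨h11, ?_⟩
    show g.1 = -!![1, -(g.1 0 1); 0, 1]
    conv_lhs => rw [Matrix.eta_fin_two g.1, h00, h10, h11]
    ext i j
    fin_cases i <;> fin_cases j <;> simp

theorem O03_smul (c : ℂ) : (O03_U c).1 = 1 + c • ((O03_U 1).1 - 1) := by
  show !![1, c; 0, 1] = 1 + c • (!![1, 1; 0, 1] - 1)
  rw [Matrix.one_fin_two]
  ext i j
  fin_cases i <;> fin_cases j <;> simp

theorem orientation_of (D : Word) (R : List Arc) (caps : List (ℕ × ℕ)) (AB : ℕ → VB)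
    (α : LinkGroup D →* SL(2, ℂ)) (X : ℕ → LinkGroup D) (A : ℕ → V2)
    (h : Rep D R caps AB α X A) (h0 : R[0]? = some (.born 0)) (w : List ℕ)
    (hw : ∀ a ∈ w, a < 76) (hraw : IsRawLongitude D (mer D) (evW X w))
    (hcomm : evW X w * mer D 0 = mer D 0 * evW X w) (hlon : lonOK AB w = true)
    (φ : LinkGroup D →* Multiplicative ℤ) (hs : Function.Surjective φ)
    (hφ : φ (mer D 0) = Multiplicative.ofAdd 1) :
    ∃ (l : LinkGroup D) (k : ℤ) (φ : LinkGroup D →* Multiplicative ℤ) (c : ℂ),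
      IsRawLongitude D (mer D) l ∧ Function.Surjective φ ∧ φ (l * mer D 0 ^ k) = 1 ∧ 0 < c.im ∧
      ((α (l * mer D 0 ^ k)).1 = 1 + c • ((α (mer D 0)).1 - 1) ∨
        (α (l * mer D 0 ^ k)).1 = -(1 + c • ((α (mer D 0)).1 - 1))) := by
  have hX0 : X 0 = mer D 0 := h.sol 0 (.born 0) h0
  have hm : α (mer D 0) = O03_U 1 := by
    rw [← hX0, h.frame.hom 0 (by norm_num)]
    exact O03_PV h.frame.base
  obtain ⟨g, hg⟩ : ∃ g, g = α (evW X w) := ⟨_, rfl⟩
  have hc : g * O03_U 1 = O03_U 1 * g := by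
    rw [← hm, hg, ← map_mul, ← map_mul, hcomm]
  have henc : MemV (g.1.mulVec (![0, 1] : V2)) (appW AB w (CB.zero, CB.one)) := by
    rw [hg]
    exact appW_sound X h.frame.hom AB h.mem w hw _ _ ⟨mem_zero, mem_one⟩
  have e0 : g.1.mulVec (![0, 1] : V2) 0 = g.1 0 1 := by
    simp [Matrix.mulVec, dotProduct, Fin.sum_univ_two]
  have e1 : g.1.mulVec (![0, 1] : V2) 1 = g.1 1 1 := by
    simp [Matrix.mulVec, dotProduct, Fin.sum_univ_two]
  have hE0 : Mem (g.1 0 1) (appW AB w (CB.zero, CB.one)).1 := by rw [← e0]; exact henc.1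
  have hE1 : Mem (g.1 1 1) (appW AB w (CB.zero, CB.one)).2 := by rw [← e1]; exact henc.2
  unfold lonOK at hlon
  rw [fV_eq, Bool.or_eq_true, Bool.and_eq_true, Bool.and_eq_true] at hlon
  obtain ⟨j, hj⟩ : ∃ j : ℤ, j = Multiplicative.toAdd (φ (evW X w)) := ⟨_, rfl⟩
  have hφl : φ (evW X w * mer D 0 ^ (-j)) = 1 := by
    rw [map_mul, map_zpow, hφ, ← ofAdd_zsmul]
    apply Multiplicative.toAdd.injective
    rw [toAdd_mul, toAdd_ofAdd, toAdd_one, ← hj]
    simp
  have hα : α (evW X w * mer D 0 ^ (-j)) = g * O03_U ((-j : ℤ) : ℂ) := by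
    rw [map_mul, map_zpow, hm, O03_zpow, ← hg]
  rcases O03_form g hc with ⟨h11, hgf⟩ | ⟨h11, hgf⟩
  · have him : 0 < (g.1 0 1).im := by
      rcases hlon with hl | hl
      · exact imPos_sound hE0 hl.2
      · have := reNeg_sound hE1 hl.1
        rw [h11] at this
        norm_num at this
    refine ⟨evW X w, -j, φ, g.1 0 1 + ((-j : ℤ) : ℂ), hraw, hs, hφl, ?_, Or.inl ?_⟩
    · rw [Complex.add_im, Complex.intCast_im, add_zero]
      exact him
    · rw [hα, hm, ← O03_smul, ← O03_mul, ← hgf]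
  · have him : 0 < (-(g.1 0 1)).im := by
      rcases hlon with hl | hl
      · have := rePos_sound hE1 hl.1
        rw [h11] at this
        norm_num at this
      · have := imNeg_sound hE0 hl.2
        rw [Complex.neg_im]
        linarith
    refine ⟨evW X w, -j, φ, -(g.1 0 1) + ((-j : ℤ) : ℂ), hraw, hs, hφl, ?_, Or.inr ?_⟩
    · rw [Complex.add_im, Complex.intCast_im, add_zero]
      exact him
    · rw [hα, hm, ← O03_smul, ← O03_mul]
      show g.1 * (O03_U ((-j : ℤ) : ℂ)).1 = -((O03_U (-(g.1 0 1))).1 * (O03_U ((-j : ℤ) : ℂ)).1)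
      rw [← neg_mul, ← hgf]

end TorMut
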