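import Pool.Agent.Lib.MP_407fc5_gt.ODefs

/-!
# MP_407fc5_gt, part O: tables for the longitudes (generated by a computer)
-/

namespace TorMut

/-- signed arcs below the first `L` layers of the first knot -/
def st1 : List (List SA) :=
  [[],
   [(0, true), (0, false)],
   [(0, true), (0, false), (1, false), (1, true)],
   [(0, true), (0, false), (1, false), (1, true), (2, false), (2, true)],
   [(0, true), (0, false), (1, false), (2, false), (3, true), (2, true)],
   [(0, true), (4, false), (0, false), (2, false), (3, true), (2, true)],
   [(0, true), (4, false), (0, false), (2, false), (5, true), (3, true)],
   [(0, true), (4, false), (2, false), (6, false), (5, true), (3, true)],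
   [(0, true), (4, false), (2, false), (7, true), (6, false), (3, true)],
   [(0, true), (4, false), (8, true), (2, false), (6, false), (3, true)],
   [(0, true), (4, false), (9, true), (9, false), (8, true), (2, false), (6, false), (3, true)],
   [(0, true), (4, false), (9, true), (10, false), (10, true), (9, false), (8, true), (2,
    false), (6, false), (3, true)],
   [(0, true), (9, true), (11, false), (10, false), (10, true), (9, false), (8, true), (2,
    false), (6, false), (3, true)],
   [(9, true), (12, true), (11, false), (10, false), (10, true), (9, false), (8, true), (2,
    false), (6, false), (3, true)],
   [(9, true), (12, true), (10, false), (13, false), (10, true), (9, false), (8, true), (2,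
    false), (6, false), (3, true)],
   [(9, true), (10, false), (14, true), (13, false), (10, true), (9, false), (8, true), (2,
    false), (6, false), (3, true)],
   [(9, true), (14, true), (15, false), (13, false), (10, true), (9, false), (8, true), (2,
    false), (6, false), (3, true)],
   [(14, true), (16, true), (15, false), (13, false), (10, true), (9, false), (8, true), (2,
    false), (6, false), (3, true)],
   [(14, true), (16, true), (13, false), (17, false), (10, true), (9, false), (8, true), (2,
    false), (6, false), (3, true)],
   [(14, true), (13, false), (18, true), (17, false), (10, true), (9, false), (8, true), (2,
    false), (6, false), (3, true)],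
   [(14, true), (18, true), (19, false), (17, false), (10, true), (9, false), (8, true), (2,
    false), (6, false), (3, true)],
   [(18, true), (20, true), (19, false), (17, false), (10, true), (9, false), (8, true), (2,
    false), (6, false), (3, true)],
   [(18, true), (20, true), (17, false), (21, false), (10, true), (9, false), (8, true), (2,
    false), (6, false), (3, true)],
   [(18, true), (17, false), (22, true), (21, false), (10, true), (9, false), (8, true), (2,
    false), (6, false), (3, true)],
   [(18, true), (17, false), (22, true), (21, false), (10, true), (23, true), (9, false), (2,
    false), (6, false), (3, true)],
   [(18, true), (17, false), (22, true), (21, false), (24, true), (10, true), (9, false), (2,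
    false), (6, false), (3, true)],
   [(18, true), (17, false), (22, true), (21, false), (24, true), (10, true), (25, false), (9,
    false), (6, false), (3, true)],
   [(18, true), (17, false), (22, true), (21, false), (24, true), (26, false), (10, true), (9,
    false), (6, false), (3, true)],
   [(18, true), (17, false), (22, true), (21, false), (24, true), (27, true), (26, false), (9,
    false), (6, false), (3, true)],
   [(18, true), (17, false), (22, true), (21, false), (28, true), (24, true), (26, false), (9,
    false), (6, false), (3, true)],
   [(18, true), (17, false), (22, true), (21, false), (28, true), (24, true), (29, false), (26,
    false), (6, false), (3, true)],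
   [(18, true), (17, false), (22, true), (21, false), (28, true), (30, false), (24, true), (26,
    false), (6, false), (3, true)],
   [(18, true), (17, false), (22, true), (21, false), (28, true), (31, true), (30, false), (26,
    false), (6, false), (3, true)],
   [(18, true), (17, false), (22, true), (21, false), (32, true), (28, true), (30, false), (26,
    false), (6, false), (3, true)],
   [(18, true), (17, false), (22, true), (21, false), (32, true), (28, true), (33, false), (30,
    false), (6, false), (3, true)],
   [(18, true), (17, false), (22, true), (21, false), (32, true), (34, false), (28, true), (30,
    false), (6, false), (3, true)],
   [(18, true), (17, false), (22, true), (34, false), (28, true), (30, false), (6, false), (3,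
    true)],
   [(18, true), (17, false), (28, true), (30, false), (6, false), (3, true)],
   [(18, true), (17, false), (28, true), (6, false), (35, false), (3, true)],
   [(18, true), (28, true), (36, false), (6, false), (35, false), (3, true)],
   [(18, true), (36, false), (37, true), (6, false), (35, false), (3, true)],
   [(18, true), (36, false), (37, true), (6, false)],
   [(18, true), (36, false)],
   []]

/-- signed arcs below the first `L` layers of the second knot -/
def st2 : List (List SA) :=
  [[],
   [(0, true), (0, false)],
   [(0, true), (0, false), (1, false), (1, true)],
   [(0, true), (0, false), (1, false), (1, true), (2, false), (2, true)],
   [(0, true), (0, false), (1, false), (2, false), (3, true), (2, true)],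
   [(0, true), (4, false), (0, false), (2, false), (3, true), (2, true)],
   [(0, true), (4, false), (0, false), (2, false), (5, true), (3, true)],
   [(0, true), (4, false), (2, false), (6, false), (5, true), (3, true)],
   [(0, true), (4, false), (2, false), (7, true), (6, false), (3, true)],
   [(0, true), (4, false), (8, true), (2, false), (6, false), (3, true)],
   [(0, true), (4, false), (9, true), (9, false), (8, true), (2, false), (6, false), (3, true)],
   [(0, true), (4, false), (9, true), (10, false), (10, true), (9, false), (8, true), (2,
    false), (6, false), (3, true)],
   [(0, true), (4, false), (9, true), (10, false), (10, true), (8, true), (11, false), (2,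
    false), (6, false), (3, true)],
   [(0, true), (4, false), (9, true), (10, false), (8, true), (12, true), (11, false), (2,
    false), (6, false), (3, true)],
   [(0, true), (4, false), (9, true), (10, false), (8, true), (12, true), (2, false), (13,
    false), (6, false), (3, true)],
   [(0, true), (4, false), (9, true), (10, false), (8, true), (2, false), (14, true), (13,
    false), (6, false), (3, true)],
   [(0, true), (4, false), (9, true), (10, false), (8, true), (14, true), (15, false), (13,
    false), (6, false), (3, true)],
   [(0, true), (4, false), (9, true), (10, false), (14, true), (16, true), (15, false), (13,
    false), (6, false), (3, true)],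
   [(0, true), (4, false), (9, true), (10, false), (14, true), (16, true), (13, false), (17,
    false), (6, false), (3, true)],
   [(0, true), (4, false), (9, true), (10, false), (14, true), (13, false), (18, true), (17,
    false), (6, false), (3, true)],
   [(0, true), (4, false), (9, true), (10, false), (14, true), (18, true), (19, false), (17,
    false), (6, false), (3, true)],
   [(0, true), (4, false), (9, true), (10, false), (18, true), (20, true), (19, false), (17,
    false), (6, false), (3, true)],
   [(0, true), (4, false), (9, true), (10, false), (18, true), (20, true), (17, false), (21,
    false), (6, false), (3, true)],
   [(0, true), (4, false), (9, true), (10, false), (18, true), (17, false), (22, true), (21,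
    false), (6, false), (3, true)],
   [(0, true), (23, true), (4, false), (10, false), (18, true), (17, false), (22, true), (21,
    false), (6, false), (3, true)],
   [(24, true), (0, true), (4, false), (10, false), (18, true), (17, false), (22, true), (21,
    false), (6, false), (3, true)],
   [(24, true), (0, true), (25, false), (4, false), (18, true), (17, false), (22, true), (21,
    false), (6, false), (3, true)],
   [(24, true), (26, false), (0, true), (4, false), (18, true), (17, false), (22, true), (21,
    false), (6, false), (3, true)],
   [(24, true), (27, true), (26, false), (4, false), (18, true), (17, false), (22, true), (21,
    false), (6, false), (3, true)],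
   [(28, true), (24, true), (26, false), (4, false), (18, true), (17, false), (22, true), (21,
    false), (6, false), (3, true)],
   [(28, true), (24, true), (29, false), (26, false), (18, true), (17, false), (22, true), (21,
    false), (6, false), (3, true)],
   [(28, true), (30, false), (24, true), (26, false), (18, true), (17, false), (22, true), (21,
    false), (6, false), (3, true)],
   [(28, true), (31, true), (30, false), (26, false), (18, true), (17, false), (22, true), (21,
    false), (6, false), (3, true)],
   [(32, true), (28, true), (30, false), (26, false), (18, true), (17, false), (22, true), (21,
    false), (6, false), (3, true)],
   [(32, true), (28, true), (33, false), (30, false), (18, true), (17, false), (22, true), (21,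
    false), (6, false), (3, true)],
   [(32, true), (34, false), (28, true), (30, false), (18, true), (17, false), (22, true), (21,
    false), (6, false), (3, true)],
   [(32, true), (34, false), (28, true), (17, false), (22, true), (21, false), (6, false), (3,
    true)],
   [(32, true), (34, false), (22, true), (21, false), (6, false), (3, true)],
   [(32, true), (34, false), (22, true), (6, false), (35, false), (3, true)],
   [(32, true), (22, true), (36, false), (6, false), (35, false), (3, true)],
   [(32, true), (36, false), (37, true), (6, false), (35, false), (3, true)],
   [(32, true), (36, false), (37, true), (6, false)],
   [(32, true), (36, false)],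
   []]

/-- letters of the longitude of the first knot, last letter first -/
def lon1 : List ℕ :=
  [19, 20, 37, 34, 57, 60, 21, 18, 6, 13, 5, 19, 20, 61, 56, 35, 36, 21, 18, 0, 4, 13, 49, 52,
    29, 26, 56, 27, 28, 53, 48, 72, 5]

/-- letters of the longitude of the second knot, last letter first -/
def lon2 : List ℕ :=
  [53, 48, 27, 28, 6, 13, 5, 29, 26, 49, 52, 0, 4, 13, 35, 36, 5, 16, 9, 0, 61, 56, 44, 57, 60,
    1, 8, 17, 4, 37, 34, 72, 5]

end TorMut
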