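import Pool.Agent.Lib.MP_407fc5_gt.ADefs

/-!
# MP_407fc5_gt, part O: the longitude (definitions)
-/

namespace TorMut

/-- the code of a signed arc -/
def codeSA (a : SA) : ℕ :=
  match a.2 with
  | true => Nat.mul 2 a.1
  | false => Nat.add (Nat.mul 2 a.1) 1

/-- signed arcs below the first `L` layers, read off from a table -/
def stAt (st : List (List SA)) (L i : ℕ) : SA := (st.getD L []).getD i sa0

/-- one step along the link, together with the over-strand (a list of at most one letter) -/
def goN (D : Word) (st : List (List SA)) : ℕ × ℕ × Bool → (ℕ × ℕ × Bool) × List ℕ
  | (L, p, true) =>
    match D[L]? with
    | none => ((L, p, true), [])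
    | some (.birth i) =>
      match Nat.blt p i with
      | true => ((L + 1, p, true), [])
      | false => ((L + 1, p + 2, true), [])
    | some (.death i) =>
      match Nat.blt p i with
      | true => ((L + 1, p, true), [])
      | false => match Nat.beq p i with
        | true => ((L, i + 1, false), [])
        | false => match Nat.beq p (i + 1) with
          | true => ((L, i, false), [])
          | false => ((L + 1, p - 2, true), [])
    | some (.cross i b) =>
      match Nat.beq p i with
      | true => ((L + 1, i + 1, true), match b with
        | true => [codeSA (stAt st L (i + 1))]
        | false => [])
      | false => match Nat.beq p (i + 1) with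
        | true => ((L + 1, i, true), match b with
          | true => []
          | false => [flp (codeSA (stAt st L i))])
        | false => ((L + 1, p, true), [])
  | (0, p, false) => ((0, p, false), [])
  | (L + 1, p, false) =>
    match D[L]? with
    | none => ((L + 1, p, false), [])
    | some (.birth i) =>
      match Nat.blt p i with
      | true => ((L, p, false), [])
      | false => match Nat.beq p i with
        | true => ((L + 1, i + 1, true), [])
        | false => match Nat.beq p (i + 1) with
          | true => ((L + 1, i, true), [])
          | false => ((L, p - 2, false), [])
    | some (.death i) =>
      match Nat.blt p i with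
      | true => ((L, p, false), [])
      | false => ((L, p + 2, false), [])
    | some (.cross i b) =>
      match Nat.beq p (i + 1) with
      | true => ((L, i, false), match b with
        | true => [flp (codeSA (stAt st L (i + 1)))]
        | false => [])
      | false => match Nat.beq p i with
        | true => ((L, i + 1, false), match b with
          | true => []
          | false => [codeSA (stAt st L i)])
        | false => ((L, p, false), [])

/-- the start -/
def isStart (x : ℕ × ℕ × Bool) : Bool :=
  Nat.beq x.1 1 && Nat.beq x.2.1 0 && !x.2.2

/-- follow the link until the first return to the start, which has to happen after exactly `n`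
steps; the letters of the over-strands, last letter first -/
def walkN (D : Word) (st : List (List SA)) : ℕ → ℕ × ℕ × Bool → List ℕ → Option (List ℕ)
  | 0, _, _ => none
  | n + 1, x, acc =>
    match goN D st x with
    | (y, w) =>
      match isStart y with
      | true => match n with
        | 0 => some (w ++ acc)
        | _ + 1 => none
      | false => walkN D st n y (w ++ acc)

/-- the table of the strands -/
def stTab (D : Word) : List (List SA) :=
  (List.range (D.length + 1)).map fun L => (arcRun sg 0 0 [] (D.take L)).1

/-- `α(l) e₂` has the form `± (c', 1)` with `0 < Im c'` -/
def lonOK (AB : ℕ → VB) (w : List ℕ) : Bool :=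
  fV (appW AB w (CB.zero, CB.one)) fun v =>
    (CB.rePos v.2 && CB.imPos v.1) || (CB.reNeg v.2 && CB.imNeg v.1)

end TorMut
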