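import Pool.Agent.Lib.MP_407fc5_gt.P01

/-!
# P02: coordinates with respect to a tetrahedron
-/

namespace TorMut.Tile

open Matrix MatrixGroups ComplexConjugate

lemma p02_Lf_swap23 (a b c : V2) (P : Herm) : Lf a c b P = -Lf a b c P := by
  rw [← Lf_cyc a c b, Lf_swap, Lf_cyc]

lemma p02_N2 (a b c : V2) : Lf a b c (N b) = 0 := by
  rw [← Lf_cyc, Lf_N1]

lemma p02_N3 (a b c : V2) : Lf a b c (N c) = 0 := by
  rw [Lf_cyc c a b, Lf_N1]

lemma Lk_add (v : Fin 4 → V2) (k : Fin 4) (P Q : Herm) : Lk v k (P + Q) = Lk v k P + Lk v k Q := by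
  fin_cases k <;> simp only [Lk, Lf_add]

lemma Lk_smul (v : Fin 4 → V2) (k : Fin 4) (r : ℝ) (P : Herm) : Lk v k (r • P) = r * Lk v k P := by
  fin_cases k <;> simp only [Lk, Lf_smul]

lemma p02_diag0 (v : Fin 4 → V2) : Lf (v 1) (v 2) (v 3) (N (v 0)) = vol v := by
  change _ = Lf (v 0) (v 2) (v 1) (N (v 3))
  rw [Lf_N_swap, Lf_cyc (v 0) (v 1) (v 2), p02_Lf_swap23 (v 0) (v 1) (v 2)]

lemma p02_diag1 (v : Fin 4 → V2) : Lf (v 0) (v 3) (v 2) (N (v 1)) = vol v := by
  change _ = Lf (v 0) (v 2) (v 1) (N (v 3))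
  rw [p02_Lf_swap23 (v 0) (v 2) (v 3), Lf_N_swap, neg_neg]

lemma p02_diag2 (v : Fin 4 → V2) : Lf (v 0) (v 1) (v 3) (N (v 2)) = vol v := by
  change _ = Lf (v 0) (v 2) (v 1) (N (v 3))
  rw [Lf_N_swap, p02_Lf_swap23 (v 0) (v 1) (v 2)]

lemma Lk_N (v : Fin 4 → V2) (k l : Fin 4) : Lk v k (N (v l)) = if k = l then vol v else 0 := by
  fin_cases k <;> fin_cases l <;>
    simp [Lk, Lf_N1, p02_N2, p02_N3, p02_diag0, p02_diag1, p02_diag2] <;> rfl

lemma p02_perm_swap (v : Fin 4 → V2) (x y : Fin 4) (hxy : x ≠ y) (k : Fin 4) (P : Herm) :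
    Lk (fun l => v (Equiv.swap x y l)) k P = -Lk v (Equiv.swap x y k) P := by
  have h1 : ∀ a b c : V2, Lf b a c P = -Lf a b c P := fun a b c => Lf_swap a b c P
  have h2 : ∀ a b c : V2, Lf a c b P = -Lf a b c P := fun a b c => p02_Lf_swap23 a b c P
  have h3 : ∀ a b c : V2, Lf b c a P = Lf a b c P := fun a b c => Lf_cyc a b c P
  have h4 : ∀ a b c : V2, Lf c a b P = Lf a b c P := fun a b c => (Lf_cyc c a b P).symm
  have h5 : ∀ a b c : V2, Lf c b a P = -Lf a b c P := fun a b c => by rw [Lf_swap, h3]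
  have f1 := h1 (v 0) (v 1) (v 2)
  have f2 := h2 (v 0) (v 1) (v 2)
  have f3 := h3 (v 0) (v 1) (v 2)
  have f4 := h4 (v 0) (v 1) (v 2)
  have f5 := h5 (v 0) (v 1) (v 2)
  have f6 := h1 (v 0) (v 1) (v 3)
  have f7 := h2 (v 0) (v 1) (v 3)
  have f8 := h3 (v 0) (v 1) (v 3)
  have f9 := h4 (v 0) (v 1) (v 3)
  have f10 := h5 (v 0) (v 1) (v 3)
  have f11 := h1 (v 0) (v 2) (v 3)
  have f12 := h2 (v 0) (v 2) (v 3)
  have f13 := h3 (v 0) (v 2) (v 3)
  have f14 := h4 (v 0) (v 2) (v 3)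
  have f15 := h5 (v 0) (v 2) (v 3)
  have f16 := h1 (v 1) (v 2) (v 3)
  have f17 := h2 (v 1) (v 2) (v 3)
  have f18 := h3 (v 1) (v 2) (v 3)
  have f19 := h4 (v 1) (v 2) (v 3)
  have f20 := h5 (v 1) (v 2) (v 3)
  fin_cases x <;> fin_cases y <;> first | exact absurd rfl hxy | skip
  all_goals fin_cases k
  all_goals simp [Lk, Equiv.swap_apply_def]
  all_goals linarith

lemma Lk_perm (v : Fin 4 → V2) (σ : Equiv.Perm (Fin 4)) (k : Fin 4) (P : Herm) :
    Lk (fun l => v (σ l)) k P = (Equiv.Perm.sign σ : ℤ) * Lk v (σ k) P := by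
  induction σ using Equiv.Perm.swap_induction_on generalizing v k with
  | one => simp
  | swap_mul f x y hxy ih =>
    have h1 := ih (fun l => v (Equiv.swap x y l)) k
    have h2 := p02_perm_swap v x y hxy (f k) P
    have h3 : (fun l => v ((Equiv.swap x y * f) l)) =
        fun l => (fun l => v (Equiv.swap x y l)) (f l) := rfl
    rw [h3, h1, h2, Equiv.Perm.sign_mul, Equiv.Perm.sign_swap hxy]
    push_cast
    rw [Function.comp_apply]
    ring

lemma vol_perm (v : Fin 4 → V2) (σ : Equiv.Perm (Fin 4)) :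
    vol (fun l => v (σ l)) = (Equiv.Perm.sign σ : ℤ) * vol v := by
  change Lk (fun l => v (σ l)) 3 (N (v (σ 3))) = _
  rw [Lk_perm, Lk_N, if_pos rfl]

/-- the functional `Lk v k` depends only on the vectors `v l`, `l ≠ k`, up to sign -/
lemma Lk_congr (v v' : Fin 4 → V2) (k : Fin 4) (h : ∀ l, l ≠ k → v' l = v l ∨ v' l = -v l)
    (P : Herm) : Lk v' k P = Lk v k P := by
  fin_cases k
  · rcases h 1 (by decide) with h1 | h1 <;> rcases h 2 (by decide) with h2 | h2 <;>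
      rcases h 3 (by decide) with h3 | h3 <;>
      simp only [Lk, h1, h2, h3, Lf_neg1, Lf_neg2, Lf_neg3]
  · rcases h 0 (by decide) with h1 | h1 <;> rcases h 2 (by decide) with h2 | h2 <;>
      rcases h 3 (by decide) with h3 | h3 <;>
      simp only [Lk, h1, h2, h3, Lf_neg1, Lf_neg2, Lf_neg3]
  · rcases h 0 (by decide) with h1 | h1 <;> rcases h 1 (by decide) with h2 | h2 <;>
      rcases h 3 (by decide) with h3 | h3 <;>
      simp only [Lk, h1, h2, h3, Lf_neg1, Lf_neg2, Lf_neg3]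
  · rcases h 0 (by decide) with h1 | h1 <;> rcases h 1 (by decide) with h2 | h2 <;>
      rcases h 2 (by decide) with h3 | h3 <;>
      simp only [Lk, h1, h2, h3, Lf_neg1, Lf_neg2, Lf_neg3]

lemma co_N (v : Fin 4 → V2) (hv : vol v ≠ 0) (k l : Fin 4) :
    co v k (N (v l)) = if k = l then 1 else 0 := by
  unfold co
  rw [Lk_N]
  split_ifs
  · exact div_self hv
  · exact zero_div _

lemma p02_Lf_cast (a b c : V2) (P : Herm) : ((Lf a b c P : ℝ) : ℂ) * (2 * Complex.I) =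
    conj (Dt a c) * Dt b c * B P a b - Dt a c * conj (Dt b c) * conj (B P a b) := by
  have h := Complex.sub_conj (conj (Dt a c) * Dt b c * B P a b)
  simp only [map_mul, Complex.conj_conj] at h
  rw [h]
  unfold Lf
  push_cast
  ring

/-- the polynomial identity behind `expand` -/
lemma p02_expand (v : Fin 4 → V2) (P : Herm) :
    vol v • P = ∑ k, Lk v k P • N (v k) := by
  have hI : (2 * Complex.I : ℂ) ≠ 0 := by simp
  have e0 := p02_Lf_cast (v 1) (v 2) (v 3) P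
  have e1 := p02_Lf_cast (v 0) (v 3) (v 2) P
  have e2 := p02_Lf_cast (v 0) (v 1) (v 3) P
  have e3 := p02_Lf_cast (v 0) (v 2) (v 1) P
  have e4 := p02_Lf_cast (v 0) (v 2) (v 1) (N (v 3))
  rw [B_N] at e4
  simp only [B, Dt, map_add, map_sub, map_mul, Complex.conj_conj, Complex.conj_ofReal]
    at e0 e1 e2 e3 e4
  rw [Fin.sum_univ_four]
  simp only [vol, Lk]
  apply p01_ext
  · simp only [Prod.smul_fst, Prod.fst_add, smul_eq_mul, Complex.ofReal_mul, Complex.ofReal_add, N,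
      p01_nsq]
    apply mul_right_cancel₀ hI
    simp only [N] at e4
    linear_combination (P.1 : ℂ) * e4 - (v 0 0 * conj (v 0 0)) * e0 - (v 1 0 * conj (v 1 0)) * e1 -
      (v 2 0 * conj (v 2 0)) * e2 - (v 3 0 * conj (v 3 0)) * e3
  · simp only [Prod.smul_fst, Prod.smul_snd, Prod.fst_add, Prod.snd_add, smul_eq_mul,
      Complex.ofReal_mul, Complex.ofReal_add, N, p01_nsq]
    apply mul_right_cancel₀ hI
    simp only [N] at e4
    linear_combination (P.2.1 : ℂ) * e4 - (v 0 1 * conj (v 0 1)) * e0 -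
      (v 1 1 * conj (v 1 1)) * e1 - (v 2 1 * conj (v 2 1)) * e2 - (v 3 1 * conj (v 3 1)) * e3
  · simp only [Prod.smul_snd, Prod.snd_add, Complex.real_smul, N]
    apply mul_right_cancel₀ hI
    simp only [N] at e4
    linear_combination P.2.2 * e4 - (v 0 0 * conj (v 0 1)) * e0 -
      (v 1 0 * conj (v 1 1)) * e1 - (v 2 0 * conj (v 2 1)) * e2 - (v 3 0 * conj (v 3 1)) * e3

theorem expand (v : Fin 4 → V2) (hv : vol v ≠ 0) (P : Herm) :
    P = ∑ k, co v k P • N (v k) := by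
  have h := p02_expand v P
  have h1 : P = (vol v)⁻¹ • (vol v • P) := by rw [smul_smul, inv_mul_cancel₀ hv, one_smul]
  rw [h] at h1
  rw [Finset.smul_sum] at h1
  conv_lhs => rw [h1]
  refine Finset.sum_congr rfl fun k _ => ?_
  rw [smul_smul, co, div_eq_inv_mul]

lemma Ph_N (v : Fin 4 → V2) (hv : vol v ≠ 0) (k : Fin 4) : Ph v (N (v k)) = 1 := by
  unfold Ph
  simp only [co_N v hv]
  simp

/-- a linear functional is determined by its values at the four vertices -/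
theorem lin_ext (v : Fin 4 → V2) (hv : vol v ≠ 0) (f g : Herm → ℝ)
    (fa : ∀ P Q, f (P + Q) = f P + f Q) (fs : ∀ (r : ℝ) P, f (r • P) = r * f P)
    (ga : ∀ P Q, g (P + Q) = g P + g Q) (gs : ∀ (r : ℝ) P, g (r • P) = r * g P)
    (h : ∀ k, f (N (v k)) = g (N (v k))) (P : Herm) : f P = g P := by
  rw [expand v hv P, Fin.sum_univ_four]
  simp only [fa, fs, ga, gs, h]

lemma p02_Lk_act (v : Fin 4 → V2) (g : SL(2, ℂ)) (k : Fin 4) (P : Herm) :
    Lk (fun l => g.1.mulVec (v l)) k (hact g P) = Lk v k P := by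
  fin_cases k <;> simp only [Lk, Lf_act]

lemma co_act (v : Fin 4 → V2) (g : SL(2, ℂ)) (k : Fin 4) (P : Herm) :
    co (fun l => g.1.mulVec (v l)) k (hact g P) = co v k P := by
  unfold co vol
  rw [p02_Lk_act, ← hact_N, p02_Lk_act]

lemma Ph_act (v : Fin 4 → V2) (g : SL(2, ℂ)) (P : Herm) :
    Ph (fun l => g.1.mulVec (v l)) (hact g P) = Ph v P := by
  unfold Ph
  simp only [co_act]

end TorMut.Tile
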