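import Pool.Agent.Lib.MP_407fc5_gt.P02

/-!
# P03: positive definiteness in coordinates (about 50 minutes)

`hdet (∑ k, c k • N (v k)) = ∑_{k<l} c k c l |Dt (v k) (v l)|²` (polynomial identity: expand
`hdet` as a quadratic form; `hdet (N u) = 0` and the polarisation of `hdet` at `N u`, `N v` is
`|Dt u v|²`).  If two coordinates of a positive `P` vanish, `P = α N (v m) + β N (v n)` and
`hdet P = α β |Dt|² > 0`; the trace is positive, so `α, β > 0`.
-/

namespace TorMut.Tile

open Matrix MatrixGroups ComplexConjugate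

theorem p03_hdet4 (v : Fin 4 → V2) (c : Fin 4 → ℝ) :
    hdet (∑ k, c k • N (v k)) =
      c 0 * c 1 * Complex.normSq (Dt (v 0) (v 1)) + c 0 * c 2 * Complex.normSq (Dt (v 0) (v 2)) +
      c 0 * c 3 * Complex.normSq (Dt (v 0) (v 3)) + c 1 * c 2 * Complex.normSq (Dt (v 1) (v 2)) +
      c 1 * c 3 * Complex.normSq (Dt (v 1) (v 3)) + c 2 * c 3 * Complex.normSq (Dt (v 2) (v 3)) := by
  simp only [Fin.sum_univ_four, hdet, N, Dt, Complex.normSq_apply, Prod.fst_add, Prod.snd_add,
    Prod.smul_fst, Prod.smul_snd, smul_eq_mul, Complex.add_re, Complex.add_im, Complex.real_smul,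
    Complex.mul_re, Complex.mul_im, Complex.sub_re, Complex.sub_im, Complex.conj_re,
    Complex.conj_im, Complex.ofReal_re, Complex.ofReal_im]
  ring

theorem p03_fst4 (v : Fin 4 → V2) (c : Fin 4 → ℝ) :
    (∑ k, c k • N (v k)).1 = c 0 * Complex.normSq (v 0 0) + c 1 * Complex.normSq (v 1 0) +
      c 2 * Complex.normSq (v 2 0) + c 3 * Complex.normSq (v 3 0) := by
  simp [Fin.sum_univ_four, N]

lemma hdet_sum (v : Fin 4 → V2) (c : Fin 4 → ℝ) :
    hdet (∑ k, c k • N (v k)) =
      ∑ k, ∑ l, if k < l then c k * c l * Complex.normSq (Dt (v k) (v l)) else 0 := by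
  rw [p03_hdet4]
  have h01 : (0 : Fin 4) < 1 := by decide
  have h02 : (0 : Fin 4) < 2 := by decide
  have h03 : (0 : Fin 4) < 3 := by decide
  have h12 : (1 : Fin 4) < 2 := by decide
  have h13 : (1 : Fin 4) < 3 := by decide
  have h23 : (2 : Fin 4) < 3 := by decide
  simp only [Fin.sum_univ_four, h01, h02, h03, h12, h13, h23, not_lt_of_gt h01, not_lt_of_gt h02,
    not_lt_of_gt h03, not_lt_of_gt h12, not_lt_of_gt h13, not_lt_of_gt h23, lt_irrefl, if_true,
    if_false]
  ring

theorem p03_Dt_swap (u v : V2) : Dt v u = -Dt u v := by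
  unfold Dt
  ring

lemma Dt_ne_zero (v : Fin 4 → V2) (hv : vol v ≠ 0) (k l : Fin 4) (h : k ≠ l) :
    Dt (v k) (v l) ≠ 0 := by
  have h3 : vol v = (conj (Dt (v 0) (v 1)) * Dt (v 2) (v 1) *
      (Dt (v 0) (v 3) * conj (Dt (v 2) (v 3)))).im := by
    rw [← B_N]
    rfl
  have h0 : vol v = (conj (Dt (v 1) (v 3)) * Dt (v 2) (v 3) *
      (Dt (v 1) (v 0) * conj (Dt (v 2) (v 0)))).im := by
    have := Lk_N v 0 0
    rw [if_pos rfl] at this
    rw [← this, ← B_N]
    rfl
  have d01 : Dt (v 0) (v 1) ≠ 0 := fun h => hv (by rw [h3, h]; simp)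
  have d21 : Dt (v 2) (v 1) ≠ 0 := fun h => hv (by rw [h3, h]; simp)
  have d03 : Dt (v 0) (v 3) ≠ 0 := fun h => hv (by rw [h3, h]; simp)
  have d23 : Dt (v 2) (v 3) ≠ 0 := fun h => hv (by rw [h3, h]; simp)
  have d13 : Dt (v 1) (v 3) ≠ 0 := fun h => hv (by rw [h0, h]; simp)
  have d20 : Dt (v 2) (v 0) ≠ 0 := fun h => hv (by rw [h0, h]; simp)
  have e10 : Dt (v 1) (v 0) ≠ 0 := by rw [p03_Dt_swap]; exact neg_ne_zero.mpr d01
  have e12 : Dt (v 1) (v 2) ≠ 0 := by rw [p03_Dt_swap]; exact neg_ne_zero.mpr d21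
  have e30 : Dt (v 3) (v 0) ≠ 0 := by rw [p03_Dt_swap]; exact neg_ne_zero.mpr d03
  have e32 : Dt (v 3) (v 2) ≠ 0 := by rw [p03_Dt_swap]; exact neg_ne_zero.mpr d23
  have e31 : Dt (v 3) (v 1) ≠ 0 := by rw [p03_Dt_swap]; exact neg_ne_zero.mpr d13
  have e02 : Dt (v 0) (v 2) ≠ 0 := by rw [p03_Dt_swap]; exact neg_ne_zero.mpr d20
  fin_cases k <;> fin_cases l <;> first | exact absurd rfl h | assumption

theorem p03_sign {α β D A C : ℝ} (hD : 0 ≤ D) (hA : 0 ≤ A) (hC : 0 ≤ C)
    (h1 : 0 < α * β * D) (h2 : 0 < α * A + β * C) : 0 < α := by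
  by_contra h
  push Not at h
  rcases h.lt_or_eq with h | h
  · have hβ : β < 0 := by
      by_contra hb
      push Not at hb
      have : α * β * D ≤ 0 :=
        mul_nonpos_of_nonpos_of_nonneg (mul_nonpos_of_nonpos_of_nonneg h.le hb) hD
      linarith
    have a1 := mul_nonpos_of_nonpos_of_nonneg h.le hA
    have a2 := mul_nonpos_of_nonpos_of_nonneg hβ.le hC
    linarith
  · rw [h, zero_mul, zero_mul] at h1
    exact lt_irrefl _ h1

/-- two vanishing coordinates: the other two are positive -/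
theorem two_zero (v : Fin 4 → V2) (hv : vol v ≠ 0) (P : Herm) (hP : Pos P) (k l m : Fin 4)
    (hkl : k ≠ l) (hkm : m ≠ k) (hlm : m ≠ l) (hk : co v k P = 0) (hl : co v l P = 0) :
    0 < co v m P := by
  have e := expand v hv P
  have hd : hdet P = _ := (congrArg hdet e).trans (p03_hdet4 v (fun k => co v k P))
  have hf : P.1 = _ := (congrArg Prod.fst e).trans (p03_fst4 v (fun k => co v k P))
  obtain ⟨h1, h2⟩ := hP
  rw [hd] at h2
  rw [hf] at h1
  clear hd hf e hv
  have n01 := Complex.normSq_nonneg (Dt (v 0) (v 1))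
  have n02 := Complex.normSq_nonneg (Dt (v 0) (v 2))
  have n03 := Complex.normSq_nonneg (Dt (v 0) (v 3))
  have n12 := Complex.normSq_nonneg (Dt (v 1) (v 2))
  have n13 := Complex.normSq_nonneg (Dt (v 1) (v 3))
  have n23 := Complex.normSq_nonneg (Dt (v 2) (v 3))
  have m0 := Complex.normSq_nonneg (v 0 0)
  have m1 := Complex.normSq_nonneg (v 1 0)
  have m2 := Complex.normSq_nonneg (v 2 0)
  have m3 := Complex.normSq_nonneg (v 3 0)
  fin_cases k <;> fin_cases l <;> first | exact absurd rfl hkl | skip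
  all_goals
    simp only [Fin.zero_eta, Fin.mk_one, Fin.reduceFinMk] at hk hl hkm hlm
    rw [hk, hl] at h1 h2
  all_goals fin_cases m <;> first | exact absurd rfl hkm | exact absurd rfl hlm | skip
  all_goals simp only [Fin.zero_eta, Fin.mk_one, Fin.reduceFinMk]
  all_goals simp only [zero_mul, mul_zero, zero_add, add_zero] at h1 h2
  all_goals
    first
    | exact p03_sign (α := co v 0 P) (β := co v 1 P) n01 m0 m1 (by linarith) (by linarith)
    | exact p03_sign (α := co v 1 P) (β := co v 0 P) n01 m1 m0 (by linarith) (by linarith)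
    | exact p03_sign (α := co v 0 P) (β := co v 2 P) n02 m0 m2 (by linarith) (by linarith)
    | exact p03_sign (α := co v 2 P) (β := co v 0 P) n02 m2 m0 (by linarith) (by linarith)
    | exact p03_sign (α := co v 0 P) (β := co v 3 P) n03 m0 m3 (by linarith) (by linarith)
    | exact p03_sign (α := co v 3 P) (β := co v 0 P) n03 m3 m0 (by linarith) (by linarith)
    | exact p03_sign (α := co v 1 P) (β := co v 2 P) n12 m1 m2 (by linarith) (by linarith)
    | exact p03_sign (α := co v 2 P) (β := co v 1 P) n12 m2 m1 (by linarith) (by linarith)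
    | exact p03_sign (α := co v 1 P) (β := co v 3 P) n13 m1 m3 (by linarith) (by linarith)
    | exact p03_sign (α := co v 3 P) (β := co v 1 P) n13 m3 m1 (by linarith) (by linarith)
    | exact p03_sign (α := co v 2 P) (β := co v 3 P) n23 m2 m3 (by linarith) (by linarith)
    | exact p03_sign (α := co v 3 P) (β := co v 2 P) n23 m3 m2 (by linarith) (by linarith)

/-- positive combinations of the vertices are positive definite -/
theorem pos_sum (v : Fin 4 → V2) (hv : vol v ≠ 0) (c : Fin 4 → ℝ) (hc : ∀ k, 0 < c k) :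
    Pos (∑ k, c k • N (v k)) := by
  constructor
  · rw [p03_fst4]
    have m0 := mul_nonneg (hc 0).le (Complex.normSq_nonneg (v 0 0))
    have m1 := mul_nonneg (hc 1).le (Complex.normSq_nonneg (v 1 0))
    have m2 := mul_nonneg (hc 2).le (Complex.normSq_nonneg (v 2 0))
    have m3 := mul_nonneg (hc 3).le (Complex.normSq_nonneg (v 3 0))
    have h : 0 < Complex.normSq (v 0 0) ∨ 0 < Complex.normSq (v 1 0) := by
      by_contra h
      push Not at h
      have h1 : v 0 0 = 0 := Complex.normSq_eq_zero.mp (le_antisymm h.1 (Complex.normSq_nonneg _))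
      have h2 : v 1 0 = 0 := Complex.normSq_eq_zero.mp (le_antisymm h.2 (Complex.normSq_nonneg _))
      refine Dt_ne_zero v hv 0 1 (by decide) ?_
      unfold Dt
      rw [h1, h2]
      ring
    rcases h with h | h
    · have := mul_pos (hc 0) h
      linarith
    · have := mul_pos (hc 1) h
      linarith
  · rw [p03_hdet4]
    have p : ∀ k l : Fin 4, k ≠ l → 0 < c k * c l * Complex.normSq (Dt (v k) (v l)) :=
      fun k l h => mul_pos (mul_pos (hc k) (hc l)) (Complex.normSq_pos.mpr (Dt_ne_zero v hv k l h))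
    have p1 := p 0 1 (by decide)
    have p2 := p 0 2 (by decide)
    have p3 := p 0 3 (by decide)
    have p4 := p 1 2 (by decide)
    have p5 := p 1 3 (by decide)
    have p6 := p 2 3 (by decide)
    linarith

/-- bound of the product of two coordinates if all are nonnegative -/
theorem prod_le (v : Fin 4 → V2) (hv : vol v ≠ 0) (P : Herm) (hc : ∀ k, 0 ≤ co v k P)
    (k l : Fin 4) (h : k ≠ l) :
    co v k P * co v l P * Complex.normSq (Dt (v k) (v l)) ≤ hdet P := by
  have e := expand v hv P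
  have hd : hdet P = _ := (congrArg hdet e).trans (p03_hdet4 v (fun k => co v k P))
  rw [hd]
  have p : ∀ k l : Fin 4, 0 ≤ co v k P * co v l P * Complex.normSq (Dt (v k) (v l)) :=
    fun k l => mul_nonneg (mul_nonneg (hc k) (hc l)) (Complex.normSq_nonneg _)
  have sw : ∀ k l : Fin 4, co v l P * co v k P * Complex.normSq (Dt (v l) (v k)) =
      co v k P * co v l P * Complex.normSq (Dt (v k) (v l)) := fun k l => by
    rw [p03_Dt_swap (v k) (v l), Complex.normSq_neg]
    ring
  have p1 := p 0 1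
  have p2 := p 0 2
  have p3 := p 0 3
  have p4 := p 1 2
  have p5 := p 1 3
  have p6 := p 2 3
  have s1 := sw 0 1
  have s2 := sw 0 2
  have s3 := sw 0 3
  have s4 := sw 1 2
  have s5 := sw 1 3
  have s6 := sw 2 3
  fin_cases k <;> fin_cases l <;> first | exact absurd rfl h | skip
  all_goals
    simp only [Fin.zero_eta, Fin.mk_one, Fin.reduceFinMk]
    linarith

end TorMut.Tile
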