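import Pool.Agent.Lib.MP_407fc5_gt.P02

/-!
# P04: the neighbouring tile (about 60 minutes)

Let `j = nb i k`, `σ = s i k`, `g = ρ (h i k)`, and `v'' l := g • v j (σ l)` (the neighbour in the
frame of tile `i`, labelled by the labels of tile `i`): `v'' l = ± v i l` for `l ≠ k`, `u := v'' k`.
By `Lk_perm` (`σ` is odd) and `co_act`:
`Lk v'' k P = Lk (v i) k P` (`Lk_congr`) and `Lk v'' l P = - Lk (v j) (σ l) (hact g⁻¹ P)`,
`vol v'' = - vol (v j) < 0`.  Hence
* `co (v j) (σ k) (hact g⁻¹ P) = Lk (v i) k P / vol v'' = - (vol (v i) / vol (v j)) * co (v i) k P`;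
* for `l ≠ k` the functional `P ↦ co (v j) (σ l) (hact g⁻¹ P) - co (v i) l P` vanishes at the three
  `N (v i m)`, `m ≠ k`, hence is a multiple of `co (v i) k` (`lin_ext`);
* `P ↦ Ph (v j) (hact g⁻¹ P) - Ph (v i) P` also vanishes there; its value at `N u` is
  `1 - Ph (v i) (N u) < 0` and `co (v i) k (N u) < 0` (by the first item with `P = N u`:
  `co (v j) (σ k) (hact g⁻¹ (N u)) = 1`), so the multiple is positive.
-/

namespace TorMut.Tile

open Matrix MatrixGroups ComplexConjugate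

variable {G : Type*} [Group G] {ρ : G →* SL(2, ℂ)} {n : ℕ} {C : Comb G n} {v : Fin n → Fin 4 → V2}

lemma p04_hact_inv (g : SL(2, ℂ)) (P : Herm) : hact g (hact g⁻¹ P) = P := by
  rw [← hact_mul, mul_inv_cancel, hact_one]

lemma p04_co_inv (w : Fin 4 → V2) (g : SL(2, ℂ)) (m : Fin 4) (P : Herm) :
    co w m (hact g⁻¹ P) = co (fun l => g.1.mulVec (w l)) m P := by
  rw [← co_act w g m (hact g⁻¹ P), p04_hact_inv]

lemma p04_Ph_inv (w : Fin 4 → V2) (g : SL(2, ℂ)) (P : Herm) :
    Ph w (hact g⁻¹ P) = Ph (fun l => g.1.mulVec (w l)) P := by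
  rw [← Ph_act w g (hact g⁻¹ P), p04_hact_inv]

lemma p04_vol_act (w : Fin 4 → V2) (g : SL(2, ℂ)) :
    vol (fun l => g.1.mulVec (w l)) = vol w := by
  simp only [vol, Lk, ← hact_N, Lf_act]

lemma p04_co_add (w : Fin 4 → V2) (k : Fin 4) (P Q : Herm) :
    co w k (P + Q) = co w k P + co w k Q := by
  simp only [co, Lk_add, add_div]

lemma p04_co_smul (w : Fin 4 → V2) (k : Fin 4) (r : ℝ) (P : Herm) :
    co w k (r • P) = r * co w k P := by
  simp only [co, Lk_smul, mul_div_assoc]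

lemma p04_Ph_add (w : Fin 4 → V2) (P Q : Herm) :
    Ph w (P + Q) = Ph w P + Ph w Q := by
  simp only [Ph, p04_co_add, Finset.sum_add_distrib]

lemma p04_Ph_smul (w : Fin 4 → V2) (r : ℝ) (P : Herm) :
    Ph w (r • P) = r * Ph w P := by
  simp only [Ph, p04_co_smul, Finset.mul_sum]

/-- the vertices of the neighbour, moved to the frame of the tile -/
noncomputable def p04_w (ρ : G →* SL(2, ℂ)) (C : Comb G n) (v : Fin n → Fin 4 → V2)
    (i : Fin n) (k : Fin 4) (l : Fin 4) : V2 := (ρ (C.h i k)).1.mulVec (v (C.nb i k) l)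

lemma p04_vol_w (i : Fin n) (k : Fin 4) : vol (p04_w ρ C v i k) = vol (v (C.nb i k)) :=
  p04_vol_act _ _

lemma p04_co_w (i : Fin n) (k m : Fin 4) (P : Herm) :
    co (v (C.nb i k)) m (hact (ρ (C.h i k))⁻¹ P) = co (p04_w ρ C v i k) m P :=
  p04_co_inv _ _ _ _

lemma p04_Ph_w (i : Fin n) (k : Fin 4) (P : Herm) :
    Ph (v (C.nb i k)) (hact (ρ (C.h i k))⁻¹ P) = Ph (p04_w ρ C v i k) P :=
  p04_Ph_inv _ _ _

lemma p04_N_w (H : Good ρ C v) (i : Fin n) (k m : Fin 4) (hm : m ≠ k) :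
    N (v i m) = N (p04_w ρ C v i k (C.s i k m)) := by
  rcases H.vert i k m hm with h | h
  · rw [p04_w, h]
  · rw [p04_w, h, N_neg]

/-- the coordinate of the opposite vertex changes its sign -/
theorem co_opp (H : Good ρ C v) (i : Fin n) (k : Fin 4) :
    ∃ c > 0, ∀ P, co (v (C.nb i k)) (C.s i k k) (hact (ρ (C.h i k))⁻¹ P) = -(c * co (v i) k P) := by
  refine ⟨vol (v i) / vol (v (C.nb i k)), div_pos (H.vol_pos _) (H.vol_pos _), fun P => ?_⟩
  rw [p04_co_w]
  have h1 := Lk_perm (p04_w ρ C v i k) (C.s i k) k P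
  rw [H.odd i k] at h1
  have h2 : Lk (fun l => p04_w ρ C v i k (C.s i k l)) k P = Lk (v i) k P :=
    Lk_congr _ _ k (fun l hl => H.vert i k l hl) P
  rw [h2] at h1
  have h3 : Lk (p04_w ρ C v i k) (C.s i k k) P = -Lk (v i) k P := by
    rw [h1]; push_cast; ring
  have h4 := (H.vol_pos i).ne'
  have h5 := (H.vol_pos (C.nb i k)).ne'
  rw [co, h3, p04_vol_w, co]
  field_simp

/-- the other coordinates -/
theorem co_other (H : Good ρ C v) (i : Fin n) (k l : Fin 4) (hl : l ≠ k) :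
    ∃ c : ℝ, ∀ P, co (v (C.nb i k)) (C.s i k l) (hact (ρ (C.h i k))⁻¹ P) =
      co (v i) l P + c * co (v i) k P := by
  refine ⟨co (p04_w ρ C v i k) (C.s i k l) (N (v i k)), fun P => ?_⟩
  rw [p04_co_w]
  have hv := (H.vol_pos i).ne'
  have hw : vol (p04_w ρ C v i k) ≠ 0 := by rw [p04_vol_w]; exact (H.vol_pos _).ne'
  refine lin_ext (v i) hv (fun P => co (p04_w ρ C v i k) (C.s i k l) P)
    (fun P => co (v i) l P + co (p04_w ρ C v i k) (C.s i k l) (N (v i k)) * co (v i) k P)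
    (fun P Q => p04_co_add _ _ _ _) (fun r P => p04_co_smul _ _ _ _)
    (fun P Q => ?_) (fun r P => ?_) (fun m => ?_) P
  · simp only [p04_co_add]; ring
  · simp only [p04_co_smul]; ring
  · simp only [co_N (v i) hv]
    by_cases hm : m = k
    · subst hm
      rw [if_neg hl, if_pos rfl]; ring
    · rw [p04_N_w H i k m hm, co_N _ hw, if_neg (Ne.symm hm)]
      by_cases hlm : l = m
      · subst hlm; simp
      · rw [if_neg hlm, if_neg (fun h => hlm ((C.s i k).injective h))]; ring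

/-- the potential decreases when we cross a separating face -/
theorem Ph_step (H : Good ρ C v) (i : Fin n) (k : Fin 4) :
    ∃ c > 0, ∀ P, Ph (v (C.nb i k)) (hact (ρ (C.h i k))⁻¹ P) = Ph (v i) P + c * co (v i) k P := by
  have hv := (H.vol_pos i).ne'
  have hw : vol (p04_w ρ C v i k) ≠ 0 := by rw [p04_vol_w]; exact (H.vol_pos _).ne'
  have key : ∀ P, Ph (p04_w ρ C v i k) P =
      Ph (v i) P + (Ph (p04_w ρ C v i k) (N (v i k)) - 1) * co (v i) k P := by
    intro P
    refine lin_ext (v i) hv (fun P => Ph (p04_w ρ C v i k) P)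
      (fun P => Ph (v i) P + (Ph (p04_w ρ C v i k) (N (v i k)) - 1) * co (v i) k P)
      (fun P Q => p04_Ph_add _ _ _) (fun r P => p04_Ph_smul _ _ _)
      (fun P Q => ?_) (fun r P => ?_) (fun m => ?_) P
    · simp only [p04_co_add, p04_Ph_add]; ring
    · simp only [p04_co_smul, p04_Ph_smul]; ring
    · simp only [co_N (v i) hv, Ph_N (v i) hv]
      by_cases hm : m = k
      · subst hm
        rw [if_pos rfl]; ring
      · rw [p04_N_w H i k m hm, Ph_N _ hw, if_neg (Ne.symm hm)]; ring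
  refine ⟨Ph (p04_w ρ C v i k) (N (v i k)) - 1, ?_, fun P => ?_⟩
  · obtain ⟨c, hc, h1⟩ := co_opp H i k
    have h2 := h1 (N (p04_w ρ C v i k (C.s i k k)))
    rw [p04_co_w, co_N _ hw, if_pos rfl] at h2
    have h3 := key (N (p04_w ρ C v i k (C.s i k k)))
    rw [Ph_N _ hw] at h3
    have h4 : 1 < Ph (v i) (N (p04_w ρ C v i k (C.s i k k))) := H.convex i k
    have h5 : co (v i) k (N (p04_w ρ C v i k (C.s i k k))) < 0 := by
      by_contra h
      push Not at h
      nlinarith [mul_nonneg hc.le h]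
    by_contra h
    push Not at h
    nlinarith [mul_nonneg_of_nonpos_of_nonpos h h5.le]
  · rw [p04_Ph_w]; exact key P

/-- with one constant for all faces -/
theorem Ph_step_unif (H : Good ρ C v) :
    ∃ c > 0, ∀ (i : Fin n) (k : Fin 4) (P : Herm), co (v i) k P ≤ 0 →
      Ph (v (C.nb i k)) (hact (ρ (C.h i k))⁻¹ P) ≤ Ph (v i) P + c * co (v i) k P := by
  choose c hc h using fun i k => Ph_step H i k
  rcases isEmpty_or_nonempty (Fin n) with he | he
  · exact ⟨1, one_pos, fun i => (he.false i).elim⟩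
  · obtain ⟨p, hp⟩ := Finite.exists_min (fun p : Fin n × Fin 4 => c p.1 p.2)
    refine ⟨c p.1 p.2, hc _ _, fun i k P hP => ?_⟩
    rw [h i k P]
    have := mul_le_mul_of_nonpos_right (hp (i, k)) hP
    simpa using this

/-- `rel` of the neighbour -/
lemma rel_step (x : G × Fin n) (k : Fin 4) (P : Herm) :
    rel ρ (C.step x k) P = hact (ρ (C.h x.2 k))⁻¹ (rel ρ x P) := by
  rw [rel, rel, Comb.step, ← hact_mul]
  congr 1
  rw [← map_inv, ← map_mul]
  congr 1
  simp

lemma step_step (H : Good ρ C v) (x : G × Fin n) (k : Fin 4) :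
    C.step (C.step x k) (C.s x.2 k k) = x := by
  simp only [Comb.step, H.nb_nb, H.h_h, mul_inv_cancel_right]

/-- for a point on no wall two adjacent tiles are comparable -/
theorem red_or_red (H : Good ρ C v) (P : Herm) (x : G × Fin n) (k : Fin 4)
    (hne : co (v x.2) k (rel ρ x P) ≠ 0) :
    Red ρ C v P x (C.step x k) ∨ Red ρ C v P (C.step x k) x := by
  rcases lt_or_gt_of_ne hne with h | h
  · exact Or.inl ⟨k, h, rfl⟩
  · refine Or.inr ⟨C.s x.2 k k, ?_, (step_step H x k).symm⟩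
    obtain ⟨c, hc, h1⟩ := co_opp H x.2 k
    rw [rel_step]
    have h2 := h1 (rel ρ x P)
    have h3 : (C.step x k).2 = C.nb x.2 k := rfl
    rw [h3, h2]
    have := mul_pos hc h
    linarith

end TorMut.Tile
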