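import Mathlib

/-!
# P05: a lemma on rays in the plane (about 45 minutes)

`cr x y = x ∧ y = Im (conj x * y)`.  Rays `w 0, w 1, …, w d = w 0` (up to a positive real factor it
would be enough; here equality), consecutive ones positively oriented, the first half turn up to the
index `r`, the second half turn afterwards.  A point `p` strictly inside the sector opposite to the
first one: `w 0 ∧ p < 0`, `0 < w 1 ∧ p`, on none of the lines.  Then going forward from the first
sector and going backward from it one reaches the same sector.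

Proof.  WLOG nothing.  (1) for `1 ≤ q < r`: `0 < w q ∧ p` implies `0 < w (q+1) ∧ p`.  Write
`p = -(α w 0 + β w q)` with `α, β > 0` (Cramer: `(w 0 ∧ w q) p = (p ∧ w q) w 0 + (w 0 ∧ p) w q`), then
`w (q+1) ∧ p = α (w 0 ∧ w (q+1)) + β (w q ∧ w (q+1)) > 0`.  So `0 < w q ∧ p` for `1 ≤ q ≤ r`.
(2) for `r < q < d`: `w q ∧ p < 0` implies `w (q+1) ∧ p < 0`: `w (q+1) = α w q + β w 0` with `β > 0`,
`α ≥ 0` (from `w q ∧ w (q+1) > 0`, `w q ∧ w 0 > 0`, `w (q+1) ∧ w 0 ≥ 0`), and `w 0 ∧ p < 0`.
Take `t` = the least index `> r` with `w (t) ∧ p < 0` (`t ≤ d` exists since `w d = w 0`); then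
`0 < w q ∧ p` for `1 ≤ q < t` and `w q ∧ p < 0` for `t ≤ q ≤ d`.
-/

namespace TorMut.Tile

open ComplexConjugate

/-- cross product in the plane -/
def wedge (x y : ℂ) : ℝ := x.re * y.im - x.im * y.re

theorem p05_pluecker (a b c p : ℂ) :
    wedge a b * wedge c p = wedge a c * wedge b p - wedge b c * wedge a p := by
  unfold wedge
  ring

theorem sectors (w : ℕ → ℂ) (d r : ℕ) (p : ℂ) (hr : 1 ≤ r) (hrd : r + 1 < d) (hd : w d = w 0)
    (hc : ∀ q, q < d → 0 < wedge (w q) (w (q + 1)))
    (h1 : ∀ q, 1 ≤ q → q ≤ r → 0 < wedge (w 0) (w q))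
    (h2 : ∀ q, r < q → q < d → wedge (w 0) (w q) < 0)
    (hp0 : wedge (w 0) p < 0) (hp1 : 0 < wedge (w 1) p)
    (hne : ∀ q, q ≤ d → wedge (w q) p ≠ 0) :
    ∃ t, 2 ≤ t ∧ t ≤ d ∧ (∀ q, 1 ≤ q → q < t → 0 < wedge (w q) p) ∧
      (∀ q, t ≤ q → q ≤ d → wedge (w q) p < 0) := by
  classical
  have hpos : ∀ q, 1 ≤ q → q ≤ r → 0 < wedge (w q) p := by
    intro q hq
    induction q, hq using Nat.le_induction with
    | base => intro _; exact hp1
    | succ q hq ih =>
      intro hqr
      have ih := ih (by omega)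
      have e := p05_pluecker (w 0) (w q) (w (q + 1)) p
      have a1 := h1 q hq (by omega)
      have a2 := h1 (q + 1) (by omega) hqr
      have a3 := hc q (by omega)
      have a4 : 0 < wedge (w 0) (w q) * wedge (w (q + 1)) p := by
        rw [e]
        have b1 := mul_pos a2 ih
        have b2 := mul_neg_of_pos_of_neg a3 hp0
        linarith
      exact (pos_iff_pos_of_mul_pos a4).mp a1
  have hneg : ∀ q, r < q → q < d → wedge (w q) p < 0 → wedge (w (q + 1)) p < 0 := by
    intro q hq hqd hw
    have e := p05_pluecker (w 0) (w q) (w (q + 1)) p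
    have a1 := h2 q hq hqd
    have a3 := hc q hqd
    have a2 : wedge (w 0) (w (q + 1)) ≤ 0 := by
      rcases Nat.lt_or_ge (q + 1) d with h | h
      · exact (h2 (q + 1) (by omega) h).le
      · have : q + 1 = d := by omega
        rw [this, hd]
        unfold wedge
        apply le_of_eq
        ring
    have a4 : 0 < wedge (w 0) (w q) * wedge (w (q + 1)) p := by
      rw [e]
      have b1 := mul_nonneg_of_nonpos_of_nonpos a2 hw.le
      have b2 := mul_neg_of_pos_of_neg a3 hp0
      linarith
    by_contra hcon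
    push Not at hcon
    have := mul_nonpos_of_nonpos_of_nonneg a1.le hcon
    linarith
  have hex : ∃ t, r < t ∧ wedge (w t) p < 0 := ⟨d, by omega, by rw [hd]; exact hp0⟩
  have hspec := Nat.find_spec hex
  have hmin : ∀ q, q < Nat.find hex → ¬ (r < q ∧ wedge (w q) p < 0) := fun q hq =>
    Nat.find_min hex hq
  have hle : Nat.find hex ≤ d := Nat.find_min' hex ⟨by omega, by rw [hd]; exact hp0⟩
  refine ⟨Nat.find hex, by omega, hle, ?_, ?_⟩
  · intro q hq1 hqt
    rcases Nat.lt_or_ge r q with h | h
    · have h3 := hmin q hqt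
      have h4 : ¬ wedge (w q) p < 0 := fun h5 => h3 ⟨h, h5⟩
      exact lt_of_le_of_ne (not_lt.mp h4) (hne q (by omega)).symm
    · exact hpos q hq1 h
  · intro q hq
    induction q, hq using Nat.le_induction with
    | base => intro _; exact hspec.2
    | succ q hq ih =>
      intro hqd
      exact hneg q (by omega) (by omega) (ih (by omega))

end TorMut.Tile
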