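import Pool.Agent.Lib.MP_407fc5_gt.P03
import Pool.Agent.Lib.MP_407fc5_gt.P04
import Pool.Agent.Lib.MP_407fc5_gt.P05

/-!
# P06: rotating about an edge (about 75 minutes)

Fix a flag `f = (i, π)`, `π` even, and put `g r = ρ (C.hprod f r)`, `(i r, π r) = C.flag f r`.
* `vx r l := g r • v (i r) (π r l)` (vectors in the frame of tile `i`).  From `Good.vert` and the
  definition of `rot`: `vx (r+1) 0 = ± vx r 0`, `vx (r+1) 1 = ± vx r 1`, `vx (r+1) 2 = ± vx r 3`
  (all three labels are different from `π r 2`).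
* `ray r := Dt (vx 0 1) (vx r 2) / Dt (vx 0 0) (vx r 2)`; all denominators are nonzero
  (`Dt_ne_zero`, `Dt_act`).  Then `ray (r+1) = ray r * zr (v (i r)) (π r)` (signs cancel), hence
  `ray r = ray 0 * zprod r`.
* `0 < wedge (ray r) (ray (r+1))`: equivalent to `0 < (zr (v (i r)) (π r)).im`, which is `vol > 0`
  for an even `π r` (use `vol_perm`; `(zr v π).im` is a positive multiple of `vol (v ∘ π)`); `π r`
  stays even because `s` is odd and `swap` is odd.
* the point `P` gives `pt := B P (vx 0 1) (vx 0 0) / B P (vx 0 0) (vx 0 0)`, and the coordinates of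
  `P` in the tile number `r` satisfy (`hact (g r)⁻¹ P` is the point seen from tile `r`):
  `co (v (i r)) (π r 3) (hact (g r)⁻¹ P)` has the sign of `wedge (ray r) pt`,
  `co (v (i r)) (π r 2) (hact (g r)⁻¹ P)` has the sign of `- wedge (ray (r+1)) pt`
  (`Lf` is the wedge product up to a positive factor; `Lk_perm` moves the vertices to standard
  position).
-/

namespace TorMut.Tile

open Matrix MatrixGroups ComplexConjugate

variable {G : Type*} [Group G] {ρ : G →* SL(2, ℂ)} {n : ℕ} {C : Comb G n} {v : Fin n → Fin 4 → V2}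

/-- the vertices of the `r`-th tile around the edge, in the frame of the first tile -/
noncomputable def vx (ρ : G →* SL(2, ℂ)) (C : Comb G n) (v : Fin n → Fin 4 → V2)
    (f : Fin n × Equiv.Perm (Fin 4)) (r : ℕ) (l : Fin 4) : V2 :=
  (ρ (C.hprod f r)).1.mulVec (v (C.flag f r).1 ((C.flag f r).2 l))

noncomputable def ray (ρ : G →* SL(2, ℂ)) (C : Comb G n) (v : Fin n → Fin 4 → V2)
    (f : Fin n × Equiv.Perm (Fin 4)) (r : ℕ) : ℂ :=
  Dt (vx ρ C v f 0 1) (vx ρ C v f r 2) / Dt (vx ρ C v f 0 0) (vx ρ C v f r 2)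

noncomputable def pt (ρ : G →* SL(2, ℂ)) (C : Comb G n) (v : Fin n → Fin 4 → V2)
    (f : Fin n × Equiv.Perm (Fin 4)) (P : Herm) : ℂ :=
  B P (vx ρ C v f 0 1) (vx ρ C v f 0 0) / B P (vx ρ C v f 0 0) (vx ρ C v f 0 0)


lemma p06_flag_succ (f : Fin n × Equiv.Perm (Fin 4)) (r : ℕ) :
    C.flag f (r + 1) = C.rot (C.flag f r) := by
  unfold Comb.flag
  rw [Function.iterate_succ_apply']

lemma p06_hprod_succ (f : Fin n × Equiv.Perm (Fin 4)) (r : ℕ) :
    C.hprod f (r + 1) = C.hprod f r * C.h (C.flag f r).1 ((C.flag f r).2 2) := rfl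

lemma p06_zprod_succ (f : Fin n × Equiv.Perm (Fin 4)) (r : ℕ) :
    C.zprod v f (r + 1) = C.zprod v f r * zr (v (C.flag f r).1) (C.flag f r).2 := rfl

lemma flag_even (H : Good ρ C v) (i : Fin n) (π : Equiv.Perm (Fin 4))
    (hπ : Equiv.Perm.sign π = 1) (r : ℕ) : Equiv.Perm.sign (C.flag (i, π) r).2 = 1 := by
  induction r with
  | zero => exact hπ
  | succ r ih =>
    rw [p06_flag_succ]
    simp only [Comb.rot]
    rw [Equiv.Perm.sign_mul, Equiv.Perm.sign_mul, ih, H.odd,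
      Equiv.Perm.sign_swap (by decide : (2 : Fin 4) ≠ 3)]
    norm_num

lemma p06_mulVec (g h : SL(2, ℂ)) (w : V2) :
    (g * h).1.mulVec w = g.1.mulVec (h.1.mulVec w) := by
  rw [Matrix.mulVec_mulVec]; rfl

lemma p06_vx_gen (H : Good ρ C v) (f : Fin n × Equiv.Perm (Fin 4)) (r : ℕ) (l : Fin 4)
    (hl : Equiv.swap (2 : Fin 4) 3 l ≠ 2) :
    vx ρ C v f (r + 1) l = vx ρ C v f r (Equiv.swap (2 : Fin 4) 3 l) ∨
      vx ρ C v f (r + 1) l = -vx ρ C v f r (Equiv.swap (2 : Fin 4) 3 l) := by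
  unfold vx
  rw [p06_flag_succ, p06_hprod_succ]
  simp only [Comb.rot]
  rw [map_mul, p06_mulVec]
  have hne : (C.flag f r).2 (Equiv.swap (2 : Fin 4) 3 l) ≠ (C.flag f r).2 2 :=
    fun h => hl ((C.flag f r).2.injective h)
  have h := H.vert (C.flag f r).1 ((C.flag f r).2 2) ((C.flag f r).2 (Equiv.swap (2 : Fin 4) 3 l))
    hne
  simp only [Equiv.Perm.mul_apply]
  rcases h with h | h
  · left; rw [h]
  · right; rw [h, Matrix.mulVec_neg]

lemma vx_succ (H : Good ρ C v) (f : Fin n × Equiv.Perm (Fin 4)) (r : ℕ) :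
    (vx ρ C v f (r + 1) 0 = vx ρ C v f r 0 ∨ vx ρ C v f (r + 1) 0 = -vx ρ C v f r 0) ∧
    (vx ρ C v f (r + 1) 1 = vx ρ C v f r 1 ∨ vx ρ C v f (r + 1) 1 = -vx ρ C v f r 1) ∧
    (vx ρ C v f (r + 1) 2 = vx ρ C v f r 3 ∨ vx ρ C v f (r + 1) 2 = -vx ρ C v f r 3) := by
  refine ⟨?_, ?_, ?_⟩
  · have := p06_vx_gen H f r 0 (by decide)
    rwa [show Equiv.swap (2 : Fin 4) 3 0 = 0 by decide] at this
  · have := p06_vx_gen H f r 1 (by decide)
    rwa [show Equiv.swap (2 : Fin 4) 3 1 = 1 by decide] at this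
  · have := p06_vx_gen H f r 2 (by decide)
    rwa [show Equiv.swap (2 : Fin 4) 3 2 = 3 by decide] at this

lemma p06_vx0 (H : Good ρ C v) (f : Fin n × Equiv.Perm (Fin 4)) (r : ℕ) :
    vx ρ C v f r 0 = vx ρ C v f 0 0 ∨ vx ρ C v f r 0 = -vx ρ C v f 0 0 := by
  induction r with
  | zero => left; rfl
  | succ r ih =>
    rcases (vx_succ H f r).1 with h | h <;> rcases ih with h' | h' <;> rw [h, h']
    · left; rfl
    · right; rfl
    · right; rfl
    · left; simp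

lemma p06_vx1 (H : Good ρ C v) (f : Fin n × Equiv.Perm (Fin 4)) (r : ℕ) :
    vx ρ C v f r 1 = vx ρ C v f 0 1 ∨ vx ρ C v f r 1 = -vx ρ C v f 0 1 := by
  induction r with
  | zero => left; rfl
  | succ r ih =>
    rcases (vx_succ H f r).2.1 with h | h <;> rcases ih with h' | h' <;> rw [h, h']
    · left; rfl
    · right; rfl
    · right; rfl
    · left; simp

lemma p06_Dt_neg_left (u w : V2) : Dt (-u) w = -Dt u w := by
  simp only [Dt, Pi.neg_apply]; ring

lemma p06_Dt_neg_right (u w : V2) : Dt u (-w) = -Dt u w := by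
  simp only [Dt, Pi.neg_apply]; ring

/-- determinants of the vectors `vx r` are those of `v (i r) (π r)` -/
lemma p06_Dt_vx (f : Fin n × Equiv.Perm (Fin 4)) (r : ℕ) (k l : Fin 4) :
    Dt (vx ρ C v f r k) (vx ρ C v f r l) =
      Dt (v (C.flag f r).1 ((C.flag f r).2 k)) (v (C.flag f r).1 ((C.flag f r).2 l)) := by
  unfold vx
  rw [Dt_act]

lemma p06_Dt_vx_ne (H : Good ρ C v) (f : Fin n × Equiv.Perm (Fin 4)) (r : ℕ) (k l : Fin 4)
    (hkl : k ≠ l) : Dt (vx ρ C v f r k) (vx ρ C v f r l) ≠ 0 := by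
  rw [p06_Dt_vx]
  exact Dt_ne_zero _ (H.vol_pos _).ne' _ _ (fun h => hkl ((C.flag f r).2.injective h))

/-- `Dt (vx 0 0) (vx r l)` up to sign -/
lemma p06_Dt0 (H : Good ρ C v) (f : Fin n × Equiv.Perm (Fin 4)) (r : ℕ) (w : V2) :
    Dt (vx ρ C v f r 0) w = Dt (vx ρ C v f 0 0) w ∨
      Dt (vx ρ C v f r 0) w = -Dt (vx ρ C v f 0 0) w := by
  rcases p06_vx0 H f r with h | h
  · left; rw [h]
  · right; rw [h, p06_Dt_neg_left]

lemma p06_Dt1 (H : Good ρ C v) (f : Fin n × Equiv.Perm (Fin 4)) (r : ℕ) (w : V2) :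
    Dt (vx ρ C v f r 1) w = Dt (vx ρ C v f 0 1) w ∨
      Dt (vx ρ C v f r 1) w = -Dt (vx ρ C v f 0 1) w := by
  rcases p06_vx1 H f r with h | h
  · left; rw [h]
  · right; rw [h, p06_Dt_neg_left]

lemma p06_D0ne (H : Good ρ C v) (f : Fin n × Equiv.Perm (Fin 4)) (r : ℕ) (l : Fin 4)
    (hl : 0 ≠ l) : Dt (vx ρ C v f 0 0) (vx ρ C v f r l) ≠ 0 := by
  have h := p06_Dt_vx_ne H f r 0 l hl
  rcases p06_Dt0 H f r (vx ρ C v f r l) with h' | h'
  · rwa [h'] at h
  · rw [h'] at h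
    exact neg_ne_zero.1 h

lemma p06_D1ne (H : Good ρ C v) (f : Fin n × Equiv.Perm (Fin 4)) (r : ℕ) (l : Fin 4)
    (hl : 1 ≠ l) : Dt (vx ρ C v f 0 1) (vx ρ C v f r l) ≠ 0 := by
  have h := p06_Dt_vx_ne H f r 1 l hl
  rcases p06_Dt1 H f r (vx ρ C v f r l) with h' | h'
  · rwa [h'] at h
  · rw [h'] at h
    exact neg_ne_zero.1 h

lemma p06_ray_three (H : Good ρ C v) (f : Fin n × Equiv.Perm (Fin 4)) (r : ℕ) :
    ray ρ C v f (r + 1) =
      Dt (vx ρ C v f 0 1) (vx ρ C v f r 3) / Dt (vx ρ C v f 0 0) (vx ρ C v f r 3) := by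
  unfold ray
  rcases (vx_succ H f r).2.2 with h | h
  · rw [h]
  · rw [h, p06_Dt_neg_right, p06_Dt_neg_right, neg_div_neg_eq]

lemma p06_zr_vx (H : Good ρ C v) (f : Fin n × Equiv.Perm (Fin 4)) (r : ℕ) :
    zr (v (C.flag f r).1) (C.flag f r).2 =
      Dt (vx ρ C v f 0 1) (vx ρ C v f r 3) * Dt (vx ρ C v f 0 0) (vx ρ C v f r 2) /
        (Dt (vx ρ C v f 0 0) (vx ρ C v f r 3) * Dt (vx ρ C v f 0 1) (vx ρ C v f r 2)) := by
  unfold zr
  rw [← p06_Dt_vx (ρ := ρ) f r 1 3, ← p06_Dt_vx (ρ := ρ) f r 0 2, ← p06_Dt_vx (ρ := ρ) f r 0 3,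
    ← p06_Dt_vx (ρ := ρ) f r 1 2]
  have e0 : ∃ e : ℂ, e ≠ 0 ∧ ∀ w, Dt (vx ρ C v f r 0) w = e * Dt (vx ρ C v f 0 0) w := by
    rcases p06_vx0 H f r with h | h
    · exact ⟨1, one_ne_zero, fun w => by rw [h]; ring⟩
    · exact ⟨-1, by norm_num, fun w => by rw [h, p06_Dt_neg_left]; ring⟩
  have e1 : ∃ e : ℂ, e ≠ 0 ∧ ∀ w, Dt (vx ρ C v f r 1) w = e * Dt (vx ρ C v f 0 1) w := by
    rcases p06_vx1 H f r with h | h
    · exact ⟨1, one_ne_zero, fun w => by rw [h]; ring⟩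
    · exact ⟨-1, by norm_num, fun w => by rw [h, p06_Dt_neg_left]; ring⟩
  obtain ⟨a, ha, h0⟩ := e0
  obtain ⟨b, hb, h1⟩ := e1
  rw [h0, h0, h1, h1]
  have n1 := p06_D0ne H f r 3 (by decide)
  have n2 := p06_D1ne H f r 2 (by decide)
  field_simp

lemma p06_ray_succ (H : Good ρ C v) (f : Fin n × Equiv.Perm (Fin 4)) (r : ℕ) :
    ray ρ C v f (r + 1) = ray ρ C v f r * zr (v (C.flag f r).1) (C.flag f r).2 := by
  rw [p06_ray_three H, p06_zr_vx H]
  unfold ray
  have n1 := p06_D0ne H f r 3 (by decide)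
  have n2 := p06_D1ne H f r 2 (by decide)
  have n3 := p06_D0ne H f r 2 (by decide)
  field_simp

lemma p06_Lf_swap23 (a b c : V2) (P : Herm) : Lf a c b P = -Lf a b c P := by
  rw [Lf_cyc b a c P, Lf_swap a b c P]

/-- the imaginary part of the cross ratio of an even flag is positive -/
lemma p06_zr_im (w : Fin 4 → V2) (hw : 0 < vol w) (π : Equiv.Perm (Fin 4))
    (hπ : Equiv.Perm.sign π = 1) : 0 < (zr w π).im := by
  have hv : vol (fun l => w (π l)) = vol w := by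
    rw [vol_perm, hπ]; simp
  have h1 : Lf (w (π 0)) (w (π 1)) (w (π 2)) (N (w (π 3))) = -vol w := by
    rw [← hv]
    unfold vol Lk
    simp only
    rw [p06_Lf_swap23]
  have n1 : Dt (w (π 0)) (w (π 3)) ≠ 0 :=
    Dt_ne_zero _ hw.ne' _ _ (fun h => absurd (π.injective h) (by decide))
  have n2 : Dt (w (π 1)) (w (π 2)) ≠ 0 :=
    Dt_ne_zero _ hw.ne' _ _ (fun h => absurd (π.injective h) (by decide))
  unfold Lf at h1
  rw [B_N] at h1
  unfold zr
  set A := Dt (w (π 1)) (w (π 3))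
  set E := Dt (w (π 0)) (w (π 2))
  set F := Dt (w (π 0)) (w (π 3))
  set K := Dt (w (π 1)) (w (π 2))
  have h2 : A * E / (F * K) = (A * E * conj (F * K)) / ((Complex.normSq (F * K) : ℝ) : ℂ) := by
    have h3 : F * K ≠ 0 := mul_ne_zero n1 n2
    rw [← Complex.mul_conj (F * K)]
    have h4 : conj (F * K) ≠ 0 := (map_ne_zero _).2 h3
    field_simp
  rw [h2, Complex.div_ofReal_im]
  apply div_pos _ (Complex.normSq_pos.2 (mul_ne_zero n1 n2))
  have h5 : (conj E * K * (F * conj A)).im = -(A * E * conj (F * K)).im := by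
    have : conj E * K * (F * conj A) = conj (A * E * conj (F * K)) := by
      simp only [map_mul, Complex.conj_conj]; ring
    rw [this, Complex.conj_im]
  rw [h5] at h1
  linarith

/-- the functional of a plane as a wedge product -/
lemma p06_wedge (a b t : V2) (P : Herm) (hP : Pos P) (hb : Dt b t ≠ 0) :
    ∃ c > 0, Lf a b t P = c * wedge (Dt a t / Dt b t) (B P a b / B P b b) := by
  have hb0 : b ≠ 0 := by
    rintro rfl
    exact hb (by simp [Dt])
  obtain ⟨hre, him⟩ := B_pos P hP b hb0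
  have hB : B P b b = (((B P b b).re : ℝ) : ℂ) := by
    apply Complex.ext
    · simp
    · simpa using him
  refine ⟨Complex.normSq (Dt b t) * (B P b b).re, mul_pos (Complex.normSq_pos.2 hb) hre, ?_⟩
  rw [hB]
  have hw : ∀ x y : ℂ, wedge x y = (conj x * y).im := by
    intro x y
    simp only [wedge, Complex.mul_im, Complex.conj_re, Complex.conj_im]
    ring
  rw [hw]
  set β := (B P b b).re with hβ
  have h1 : conj (Dt a t / Dt b t) * (B P a b / ((β : ℝ) : ℂ)) =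
      (conj (Dt a t) * Dt b t * B P a b) / ((Complex.normSq (Dt b t) * β : ℝ) : ℂ) := by
    rw [Complex.ofReal_mul, ← Complex.mul_conj (Dt b t), map_div₀]
    have h2 : conj (Dt b t) ≠ 0 := (map_ne_zero _).2 hb
    have h3 : ((β : ℝ) : ℂ) ≠ 0 := by
      exact_mod_cast hre.ne'
    field_simp
  rw [Complex.ofReal_re, h1, Complex.div_ofReal_im]
  unfold Lf
  have h4 : Complex.normSq (Dt b t) ≠ 0 := (Complex.normSq_pos.2 hb).ne'
  have h5 : β ≠ 0 := hre.ne'
  field_simp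

lemma p06_hact_cancel (g : SL(2, ℂ)) (P : Herm) : hact g (hact g⁻¹ P) = P := by
  rw [← hact_mul, mul_inv_cancel, hact_one]

theorem ray_zprod (H : Good ρ C v) (i : Fin n) (π : Equiv.Perm (Fin 4))
    (hπ : Equiv.Perm.sign π = 1) (r : ℕ) :
    ray ρ C v (i, π) r = ray ρ C v (i, π) 0 * C.zprod v (i, π) r := by
  induction r with
  | zero => simp [Comb.zprod]
  | succ r ih => rw [p06_ray_succ H, ih, p06_zprod_succ, mul_assoc]

theorem ray_ne_zero (H : Good ρ C v) (i : Fin n) (π : Equiv.Perm (Fin 4)) (r : ℕ) :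
    ray ρ C v (i, π) r ≠ 0 := by
  unfold ray
  exact div_ne_zero (p06_D1ne H _ r 2 (by decide)) (p06_D0ne H _ r 2 (by decide))

theorem ray_wedge (H : Good ρ C v) (i : Fin n) (π : Equiv.Perm (Fin 4))
    (hπ : Equiv.Perm.sign π = 1) (r : ℕ) :
    0 < wedge (ray ρ C v (i, π) r) (ray ρ C v (i, π) (r + 1)) := by
  rw [p06_ray_succ H]
  have h1 := p06_zr_im (v (C.flag (i, π) r).1) (H.vol_pos _) (C.flag (i, π) r).2
    (flag_even H i π hπ r)
  have h2 := Complex.normSq_pos.2 (ray_ne_zero H i π r)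
  set x := ray ρ C v (i, π) r
  set z := zr (v (C.flag (i, π) r).1) (C.flag (i, π) r).2
  have h3 : wedge x (x * z) = Complex.normSq x * z.im := by
    simp only [wedge, Complex.mul_im, Complex.mul_re, Complex.normSq_apply]
    ring
  rw [h3]
  exact mul_pos h2 h1

/-- sign of the coordinate of the vertex `π r 3` -/
theorem co_three (H : Good ρ C v) (i : Fin n) (π : Equiv.Perm (Fin 4))
    (hπ : Equiv.Perm.sign π = 1) (r : ℕ) (P : Herm) (hP : Pos P) :
    ∃ c > 0, co (v (C.flag (i, π) r).1) ((C.flag (i, π) r).2 3)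
      (hact (ρ (C.hprod (i, π) r))⁻¹ P) = c * wedge (ray ρ C v (i, π) r) (pt ρ C v (i, π) P) := by
  set f := ((i, π) : Fin n × Equiv.Perm (Fin 4)) with hf
  obtain ⟨c, hc, h⟩ := p06_wedge (vx ρ C v f 0 1) (vx ρ C v f 0 0) (vx ρ C v f r 2) P hP
    (p06_D0ne H f r 2 (by decide))
  have hv := H.vol_pos (C.flag f r).1
  refine ⟨c / vol (v (C.flag f r).1), div_pos hc hv, ?_⟩
  have h1 : Lk (v (C.flag f r).1) ((C.flag f r).2 3) (hact (ρ (C.hprod f r))⁻¹ P) =
      Lf (vx ρ C v f 0 1) (vx ρ C v f 0 0) (vx ρ C v f r 2) P := by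
    have h2 := Lk_perm (v (C.flag f r).1) (C.flag f r).2 3 (hact (ρ (C.hprod f r))⁻¹ P)
    rw [flag_even H i π hπ r] at h2
    simp only [Units.val_one, Int.cast_one, one_mul] at h2
    rw [← h2]
    have h3 : Lk (fun l => v (C.flag f r).1 ((C.flag f r).2 l)) 3
        (hact (ρ (C.hprod f r))⁻¹ P) = Lf (vx ρ C v f r 0) (vx ρ C v f r 2) (vx ρ C v f r 1) P := by
      unfold Lk
      simp only
      rw [← Lf_act (ρ (C.hprod f r)), p06_hact_cancel]
      rfl
    rw [h3]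
    have h4 : Lf (vx ρ C v f r 0) (vx ρ C v f r 2) (vx ρ C v f r 1) P =
        Lf (vx ρ C v f 0 0) (vx ρ C v f r 2) (vx ρ C v f 0 1) P := by
      rcases p06_vx0 H f r with h | h <;> rcases p06_vx1 H f r with h' | h' <;> rw [h, h']
      · rw [Lf_neg3]
      · rw [Lf_neg1]
      · rw [Lf_neg1, Lf_neg3]
    rw [h4, p06_Lf_swap23, Lf_swap, neg_neg]
  unfold co
  rw [h1, h]
  unfold ray pt
  ring

/-- sign of the coordinate of the vertex `π r 2` -/
theorem co_two (H : Good ρ C v) (i : Fin n) (π : Equiv.Perm (Fin 4))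
    (hπ : Equiv.Perm.sign π = 1) (r : ℕ) (P : Herm) (hP : Pos P) :
    ∃ c > 0, co (v (C.flag (i, π) r).1) ((C.flag (i, π) r).2 2)
      (hact (ρ (C.hprod (i, π) r))⁻¹ P) =
        -(c * wedge (ray ρ C v (i, π) (r + 1)) (pt ρ C v (i, π) P)) := by
  set f := ((i, π) : Fin n × Equiv.Perm (Fin 4)) with hf
  obtain ⟨c, hc, h⟩ := p06_wedge (vx ρ C v f 0 1) (vx ρ C v f 0 0) (vx ρ C v f (r + 1) 2) P hP
    (p06_D0ne H f (r + 1) 2 (by decide))
  have hv := H.vol_pos (C.flag f r).1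
  refine ⟨c / vol (v (C.flag f r).1), div_pos hc hv, ?_⟩
  have h1 : Lk (v (C.flag f r).1) ((C.flag f r).2 2) (hact (ρ (C.hprod f r))⁻¹ P) =
      -Lf (vx ρ C v f 0 1) (vx ρ C v f 0 0) (vx ρ C v f (r + 1) 2) P := by
    have h2 := Lk_perm (v (C.flag f r).1) (C.flag f r).2 2 (hact (ρ (C.hprod f r))⁻¹ P)
    rw [flag_even H i π hπ r] at h2
    simp only [Units.val_one, Int.cast_one, one_mul] at h2
    rw [← h2]
    have h3 : Lk (fun l => v (C.flag f r).1 ((C.flag f r).2 l)) 2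
        (hact (ρ (C.hprod f r))⁻¹ P) = Lf (vx ρ C v f r 0) (vx ρ C v f r 1) (vx ρ C v f r 3) P := by
      unfold Lk
      simp only
      rw [← Lf_act (ρ (C.hprod f r)), p06_hact_cancel]
      rfl
    rw [h3]
    have h4 : Lf (vx ρ C v f r 0) (vx ρ C v f r 1) (vx ρ C v f r 3) P =
        Lf (vx ρ C v f 0 0) (vx ρ C v f 0 1) (vx ρ C v f r 3) P := by
      rcases p06_vx0 H f r with h | h <;> rcases p06_vx1 H f r with h' | h' <;> rw [h, h']
      · rw [Lf_neg2]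
      · rw [Lf_neg1]
      · rw [Lf_neg1, Lf_neg2]
    rw [h4]
    have h5 : Lf (vx ρ C v f 0 1) (vx ρ C v f 0 0) (vx ρ C v f (r + 1) 2) P =
        Lf (vx ρ C v f 0 1) (vx ρ C v f 0 0) (vx ρ C v f r 3) P := by
      rcases (vx_succ H f r).2.2 with h | h <;> rw [h]
      rw [Lf_neg3]
    rw [h5, Lf_swap]
  unfold co
  rw [h1, h]
  unfold ray pt
  ring

end TorMut.Tile
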