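import Pool.Agent.Lib.MP_407fc5_gt.P03
import Pool.Agent.Lib.MP_407fc5_gt.P04

/-!
# P08: termination (about 90 minutes)

There is no infinite sequence of reductions `x 0 → x 1 → ⋯` for a positive `P`.  Proof.  Let `k m` be
the faces, `Q m = rel ρ (x m) P`, `i m = (x m).2`.  By `Ph_step_unif` and `definite` (`0 ≤ Ph`),
`∑ (- co (k m) (Q m))` converges, so `co (v (i m)) (k m) (Q m) → 0`; `Ph (Q m)` decreases strictly.
By `definite` the `Q m` are bounded (all `κ i ≥ κ > 0`; `hdet (Q m) = hdet P`, `Pos (Q m)`, so the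
third entry is bounded too).  Take an ultrafilter `U ≤ atTop` on `ℕ`.  For every `j` the pair
`(i (m+j), k (m+j))` is constant `= (I j, K j)` for `U`-almost all `m` (finite types), and
`Q (m+j) → R j` along `U` (compactness), `hdet (R j) = hdet P > 0`, `Pos (R j)`;
`R (j+1) = hact (ρ (h (I j) (K j)))⁻¹ (R j)`, `I (j+1) = nb (I j) (K j)`; `co (v (I j)) (K j) (R j) = 0`.
At the tile `j + 1` also the coordinate of the entry label `E (j+1) = s (I j) (K j) (K j)` vanishes
(`co_opp`), and `K (j+1) ≠ E (j+1)` because before the limit the coordinate of `E` is positive and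
that of `K` negative.  By `two_zero` exactly these two coordinates of `R (j+1)` vanish.  Since
`co` of `s (I j) (K j) l` at `R (j+1)` is `co l` at `R j` for `l ≠ K j` (`co_other`,
`co (K j) (R j) = 0`), the vanishing labels at `j + 2` are `E (j+2)` and `s (E (j+1))`, hence
`K (j+2) = s (I (j+1)) (K (j+1)) (E (j+1))`: the sequence rotates about one edge:
with the flag `(I 1, π)`, `π 2 = K 1`, `π 3 = E 1`, one has `C.flag (I 1, π) r = (I (r+1), π r)`
with `π r 2 = K (r+1)`, `π r 3 = E (r+1)`.  (Choose the order of the other two labels so that `π`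
is even.)  By `edge` after `d` steps the product of labels is `1`
and the tile is the same: for `U`-almost all `m`: `x (m+1+d) = x (m+1)` (the labels and faces of the
true sequence are those of the limit for `j ≤ d + 1`), contradicting the strict decrease of `Ph`.
-/

namespace TorMut.Tile

open Matrix MatrixGroups ComplexConjugate

variable {G : Type*} [Group G] {ρ : G →* SL(2, ℂ)} {n : ℕ} {C : Comb G n} {v : Fin n → Fin 4 → V2}

lemma p08_B_cont (u w : V2) : Continuous (fun P : Herm => B P u w) := by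
  unfold B
  have h1 : Continuous (fun P : Herm => ((P.1 : ℝ) : ℂ)) :=
    Complex.continuous_ofReal.comp continuous_fst
  have h2 : Continuous (fun P : Herm => ((P.2.1 : ℝ) : ℂ)) :=
    Complex.continuous_ofReal.comp (continuous_fst.comp continuous_snd)
  have h3 : Continuous (fun P : Herm => P.2.2) := continuous_snd.comp continuous_snd
  have h4 : Continuous (fun P : Herm => conj P.2.2) := Complex.continuous_conj.comp h3
  exact ((((h1.mul continuous_const).mul continuous_const).sub
    ((h3.mul continuous_const).mul continuous_const)).sub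
    ((h4.mul continuous_const).mul continuous_const)).add
    ((h2.mul continuous_const).mul continuous_const)

lemma p08_Lf_cont (a b c : V2) : Continuous (fun P : Herm => Lf a b c P) := by
  unfold Lf
  exact Complex.continuous_im.comp (continuous_const.mul (p08_B_cont a b))

lemma p08_co_cont (v : Fin 4 → V2) (k : Fin 4) : Continuous (fun P : Herm => co v k P) := by
  unfold co
  refine Continuous.div_const ?_ _
  fin_cases k
  · exact p08_Lf_cont _ _ _
  · exact p08_Lf_cont _ _ _
  · exact p08_Lf_cont _ _ _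
  · exact p08_Lf_cont _ _ _

lemma p08_hact_cont (g : SL(2, ℂ)) : Continuous (fun P : Herm => hact g P) := by
  unfold hact
  have h1 : Continuous (fun P : Herm => ((P.1 : ℝ) : ℂ)) :=
    Complex.continuous_ofReal.comp continuous_fst
  have h2 : Continuous (fun P : Herm => ((P.2.1 : ℝ) : ℂ)) :=
    Complex.continuous_ofReal.comp (continuous_fst.comp continuous_snd)
  have h3 : Continuous (fun P : Herm => P.2.2) := continuous_snd.comp continuous_snd
  have h4 : Continuous (fun P : Herm => conj P.2.2) := Complex.continuous_conj.comp h3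
  have h5 : Continuous (fun P : Herm => P.1) := continuous_fst
  have h6 : Continuous (fun P : Herm => P.2.1) := continuous_fst.comp continuous_snd
  refine Continuous.prodMk ?_ (Continuous.prodMk ?_ ?_)
  · exact ((continuous_const.mul h5).add (continuous_const.mul
      (Complex.continuous_re.comp (continuous_const.mul h3)))).add (continuous_const.mul h6)
  · exact ((continuous_const.mul h5).add (continuous_const.mul
      (Complex.continuous_re.comp (continuous_const.mul h3)))).add (continuous_const.mul h6)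
  · exact (((continuous_const.mul h1).add (continuous_const.mul h3)).add
      (continuous_const.mul h4)).add (continuous_const.mul h2)

lemma p08_hdet_cont : Continuous (fun P : Herm => hdet P) := by
  unfold hdet
  have h3 : Continuous (fun P : Herm => P.2.2) := continuous_snd.comp continuous_snd
  have h5 : Continuous (fun P : Herm => P.1) := continuous_fst
  have h6 : Continuous (fun P : Herm => P.2.1) := continuous_fst.comp continuous_snd
  exact (h5.mul h6).sub (Complex.continuous_normSq.comp h3)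

lemma p08_perm : ∀ a b : Fin 4, a ≠ b → ∃ π : Equiv.Perm (Fin 4),
    Equiv.Perm.sign π = 1 ∧ π 2 = a ∧ π 3 = b := by
  decide

lemma p08_snd_pos (P : Herm) (hP : Pos P) : 0 < P.2.1 := by
  obtain ⟨h1, h2⟩ := hP
  unfold hdet at h2
  have h3 : 0 ≤ Complex.normSq P.2.2 := Complex.normSq_nonneg _
  by_contra hc
  push Not at hc
  nlinarith

/-- the limit sequence rotates about one edge -/
theorem p08_rotate (H : Good ρ C v) (I : ℕ → Fin n) (K : ℕ → Fin 4) (R : ℕ → Herm)
    (hI : ∀ j, I (j + 1) = C.nb (I j) (K j))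
    (hR : ∀ j, R (j + 1) = hact (ρ (C.h (I j) (K j)))⁻¹ (R j))
    (hpos : ∀ j, Pos (R j)) (hco : ∀ j, co (v (I j)) (K j) (R j) = 0)
    (hne : ∀ j, K (j + 1) ≠ C.s (I j) (K j) (K j)) (j : ℕ) :
    K (j + 2) = C.s (I (j + 1)) (K (j + 1)) (C.s (I j) (K j) (K j)) := by
  set E : Fin 4 := C.s (I j) (K j) (K j) with hE
  -- the coordinate of `E` at `R (j + 1)` vanishes
  have h1 : co (v (I (j + 1))) E (R (j + 1)) = 0 := by
    obtain ⟨c, _, hc⟩ := co_opp H (I j) (K j)
    have := hc (R j)
    rw [← hI, ← hR, hco j, mul_zero, neg_zero] at this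
    exact this
  -- the same at `j + 2`
  set E2 : Fin 4 := C.s (I (j + 1)) (K (j + 1)) (K (j + 1)) with hE2
  have h2 : co (v (I (j + 2))) E2 (R (j + 2)) = 0 := by
    obtain ⟨c, _, hc⟩ := co_opp H (I (j + 1)) (K (j + 1))
    have := hc (R (j + 1))
    rw [← hI, ← hR, hco (j + 1), mul_zero, neg_zero] at this
    exact this
  have hEne : E ≠ K (j + 1) := (hne j).symm
  have h3 : co (v (I (j + 2))) (C.s (I (j + 1)) (K (j + 1)) E) (R (j + 2)) = 0 := by
    obtain ⟨c, hc⟩ := co_other H (I (j + 1)) (K (j + 1)) E hEne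
    have := hc (R (j + 1))
    rw [← hI, ← hR, hco (j + 1), mul_zero, add_zero, h1] at this
    exact this
  have h4 : C.s (I (j + 1)) (K (j + 1)) E ≠ E2 := by
    intro h
    exact hEne ((C.s (I (j + 1)) (K (j + 1))).injective h)
  by_contra hcon
  have h5 := two_zero (v (I (j + 2))) (H.vol_pos _).ne' (R (j + 2)) (hpos _) (K (j + 2)) E2
    (C.s (I (j + 1)) (K (j + 1)) E) (hne (j + 1)) (fun h => hcon h.symm) h4 (hco (j + 2)) h2
  rw [h3] at h5
  exact lt_irrefl _ h5

theorem p08_flag (H : Good ρ C v) (I : ℕ → Fin n) (K : ℕ → Fin 4) (R : ℕ → Herm)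
    (hI : ∀ j, I (j + 1) = C.nb (I j) (K j))
    (hR : ∀ j, R (j + 1) = hact (ρ (C.h (I j) (K j)))⁻¹ (R j))
    (hpos : ∀ j, Pos (R j)) (hco : ∀ j, co (v (I j)) (K j) (R j) = 0)
    (hne : ∀ j, K (j + 1) ≠ C.s (I j) (K j) (K j)) :
    ∃ d, 1 ≤ d ∧ I (d + 1) = I 1 ∧ ∃ f : Fin n × Equiv.Perm (Fin 4),
      C.hprod f d = 1 ∧ ∀ r, (C.flag f r).1 = I (r + 1) ∧ (C.flag f r).2 2 = K (r + 1) := by
  obtain ⟨π, hπ1, hπ2, hπ3⟩ := p08_perm (K 1) (C.s (I 0) (K 0) (K 0)) (hne 0)
  obtain ⟨d, r, _, hr1, hrd, hflag, hprod, _, _⟩ := H.edge (I 1) π hπ1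
  have key : ∀ r, (C.flag (I 1, π) r).1 = I (r + 1) ∧ (C.flag (I 1, π) r).2 2 = K (r + 1) ∧
      (C.flag (I 1, π) r).2 3 = C.s (I r) (K r) (K r) := by
    intro r
    induction r with
    | zero => exact ⟨rfl, hπ2, hπ3⟩
    | succ r ih =>
      obtain ⟨h1, h2, h3⟩ := ih
      have h4 : C.flag (I 1, π) (r + 1) = C.rot (C.flag (I 1, π) r) :=
        Function.iterate_succ_apply' _ _ _
      rw [h4]
      refine ⟨?_, ?_, ?_⟩
      · change C.nb (C.flag (I 1, π) r).1 ((C.flag (I 1, π) r).2 2) = _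
        rw [h1, h2, ← hI]
      · change (C.s (C.flag (I 1, π) r).1 ((C.flag (I 1, π) r).2 2))
          ((C.flag (I 1, π) r).2 (Equiv.swap 2 3 2)) = _
        rw [Equiv.swap_apply_left, h1, h2, h3]
        exact (p08_rotate H I K R hI hR hpos hco hne r).symm
      · change (C.s (C.flag (I 1, π) r).1 ((C.flag (I 1, π) r).2 2))
          ((C.flag (I 1, π) r).2 (Equiv.swap 2 3 3)) = _
        rw [Equiv.swap_apply_right, h1, h2]
  refine ⟨d, by omega, ?_, (I 1, π), hprod, fun r => ⟨(key r).1, (key r).2.1⟩⟩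
  rw [← (key d).1, hflag]

theorem no_infinite (H : Good ρ C v) (P : Herm) (hP : Pos P) (x : ℕ → G × Fin n)
    (hx : ∀ m, Red ρ C v P (x m) (x (m + 1))) : False := by
  classical
  choose k hk using hx
  obtain ⟨c, hc0, hc⟩ := Ph_step_unif H
  set Q : ℕ → Herm := fun m => rel ρ (x m) P with hQ
  have hQs : ∀ m, Q (m + 1) = hact (ρ (C.h (x m).2 (k m)))⁻¹ (Q m) := by
    intro m
    simp only [hQ]
    rw [(hk m).2, rel_step]
  have his : ∀ m, (x (m + 1)).2 = C.nb (x m).2 (k m) := by
    intro m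
    rw [(hk m).2]
    rfl
  have hkm : ∀ m, co (v (x m).2) (k m) (Q m) < 0 := fun m => (hk m).1
  have hQpos : ∀ m, Pos (Q m) := fun m => Pos_act _ _ hP
  have hQdet : ∀ m, hdet (Q m) = hdet P := fun m => hdet_act _ _
  set φ : ℕ → ℝ := fun m => Ph (v (x m).2) (Q m) with hφ
  have hφs : ∀ m, φ (m + 1) ≤ φ m + c * co (v (x m).2) (k m) (Q m) := by
    intro m
    have := hc (x m).2 (k m) (Q m) (hkm m).le
    rw [← his, ← hQs] at this
    exact this
  have hφlt : ∀ m, φ (m + 1) < φ m := by
    intro m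
    have := hφs m
    have := mul_neg_of_pos_of_neg hc0 (hkm m)
    linarith
  have hφanti : StrictAnti φ := strictAnti_nat_of_succ_lt hφlt
  -- definiteness
  choose κ hκ0 hκ using H.definite
  have hφ0 : ∀ m, 0 ≤ φ m := by
    intro m
    refine le_trans ?_ (hκ (x m).2 (Q m) (hQpos m))
    have h1 := (hQpos m).1
    have h2 := p08_snd_pos _ (hQpos m)
    have h3 := hκ0 (x m).2
    positivity
  -- convergence of the coordinate to zero
  have hφconv : ∃ L, Filter.Tendsto φ Filter.atTop (nhds L) :=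
    ⟨_, tendsto_atTop_ciInf hφanti.antitone ⟨0, by rintro _ ⟨m, rfl⟩; exact hφ0 m⟩⟩
  obtain ⟨L, hL⟩ := hφconv
  have hdiff : Filter.Tendsto (fun m => φ m - φ (m + 1)) Filter.atTop (nhds 0) := by
    have h1 := hL.sub (hL.comp (Filter.tendsto_add_atTop_nat 1))
    rw [sub_self] at h1
    exact h1
  have hcoz : Filter.Tendsto (fun m => co (v (x m).2) (k m) (Q m)) Filter.atTop (nhds 0) := by
    have h1 : Filter.Tendsto (fun m => -(c⁻¹ * (φ m - φ (m + 1)))) Filter.atTop (nhds 0) := by
      have := (hdiff.const_mul c⁻¹).neg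
      rw [mul_zero, neg_zero] at this
      exact this
    refine tendsto_of_tendsto_of_tendsto_of_le_of_le h1 tendsto_const_nhds ?_ ?_
    · intro m
      have h2 := hφs m
      have h3 : c * -(c⁻¹ * (φ m - φ (m + 1))) ≤ c * co (v (x m).2) (k m) (Q m) := by
        have : c * -(c⁻¹ * (φ m - φ (m + 1))) = -(φ m - φ (m + 1)) := by
          field_simp
        rw [this]
        linarith
      exact le_of_mul_le_mul_left h3 hc0
    · intro m
      exact (hkm m).le
  -- boundedness
  obtain ⟨i0⟩ : Nonempty (Fin n) := ⟨(x 0).2⟩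
  obtain ⟨i1, _, hi1⟩ := Finset.exists_min_image Finset.univ κ ⟨i0, Finset.mem_univ _⟩
  set Bd : ℝ := φ 0 / κ i1 with hBd
  have hBd' : ∀ m, (Q m).1 + (Q m).2.1 ≤ Bd := by
    intro m
    have h1 := (hQpos m).1
    have h2 := p08_snd_pos _ (hQpos m)
    rw [hBd, le_div_iff₀ (hκ0 i1)]
    have h3 := hκ (x m).2 (Q m) (hQpos m)
    have h4 : φ m ≤ φ 0 := hφanti.antitone (Nat.zero_le m)
    have h5 : κ i1 * ((Q m).1 + (Q m).2.1) ≤ κ (x m).2 * ((Q m).1 + (Q m).2.1) :=
      mul_le_mul_of_nonneg_right (hi1 _ (Finset.mem_univ _)) (by positivity)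
    have h6 : κ (x m).2 * ((Q m).1 + (Q m).2.1) ≤ φ m := h3
    linarith
  set S : Set Herm := Set.Icc (0 : ℝ) Bd ×ˢ (Set.Icc (0 : ℝ) Bd ×ˢ Metric.closedBall (0 : ℂ) Bd)
    with hS
  have hScomp : IsCompact S :=
    isCompact_Icc.prod (isCompact_Icc.prod (isCompact_closedBall _ _))
  have hQS : ∀ m, Q m ∈ S := by
    intro m
    have h1 := (hQpos m).1
    have h2 := p08_snd_pos _ (hQpos m)
    have h3 := hBd' m
    have h4 : 0 < hdet (Q m) := (hQpos m).2
    refine ⟨⟨h1.le, by linarith⟩, ⟨h2.le, by linarith⟩, ?_⟩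
    rw [mem_closedBall_zero_iff]
    unfold hdet at h4
    rw [Complex.normSq_eq_norm_sq] at h4
    have h5 : 0 ≤ ‖(Q m).2.2‖ := norm_nonneg _
    by_contra hcon
    push Not at hcon
    nlinarith
  -- the ultrafilter
  set U : Ultrafilter ℕ := Ultrafilter.of Filter.atTop with hU
  have hUle : (U : Filter ℕ) ≤ Filter.atTop := Ultrafilter.of_le _
  have hlim : ∀ j, ∃ R ∈ S, Filter.Tendsto (fun m => Q (m + j)) U (nhds R) := by
    intro j
    obtain ⟨R, hR, hR'⟩ := hScomp.ultrafilter_le_nhds' (U.map (fun m => Q (m + j)))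
      (Filter.Eventually.of_forall (fun m => hQS (m + j)) : ∀ᶠ m in (U : Filter ℕ), Q (m + j) ∈ S)
    exact ⟨R, hR, hR'⟩
  choose R hRS hRlim using hlim
  have hfin : ∀ j, ∃ a : Fin n × Fin 4, ∀ᶠ m in (U : Filter ℕ), ((x (m + j)).2, k (m + j)) = a := by
    intro j
    obtain ⟨a, ha⟩ := (U.map (fun m => ((x (m + j)).2, k (m + j)))).eq_pure_of_finite
    refine ⟨a, ?_⟩
    have h1 : ({a} : Set (Fin n × Fin 4)) ∈ U.map (fun m => ((x (m + j)).2, k (m + j))) := by
      rw [ha]
      exact Set.mem_singleton a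
    exact h1
  choose a ha using hfin
  set I : ℕ → Fin n := fun j => (a j).1 with hI
  set K : ℕ → Fin 4 := fun j => (a j).2 with hK
  have haI : ∀ j, ∀ᶠ m in (U : Filter ℕ), (x (m + j)).2 = I j ∧ k (m + j) = K j := by
    intro j
    filter_upwards [ha j] with m hm
    exact ⟨congrArg Prod.fst hm, congrArg Prod.snd hm⟩
  have hIs : ∀ j, I (j + 1) = C.nb (I j) (K j) := by
    intro j
    obtain ⟨m, ⟨h1, h2⟩, h3, _⟩ := ((haI j).and (haI (j + 1))).exists
    have h4 := his (m + j)
    rw [h1, h2] at h4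
    rw [← h3]
    exact h4
  have hRs : ∀ j, R (j + 1) = hact (ρ (C.h (I j) (K j)))⁻¹ (R j) := by
    intro j
    have h1 : Filter.Tendsto (fun m => hact (ρ (C.h (I j) (K j)))⁻¹ (Q (m + j))) U
        (nhds (hact (ρ (C.h (I j) (K j)))⁻¹ (R j))) :=
      ((p08_hact_cont _).tendsto _).comp (hRlim j)
    refine tendsto_nhds_unique (hRlim (j + 1)) (h1.congr' ?_)
    filter_upwards [haI j] with m hm
    have h4 := hQs (m + j)
    rw [hm.1, hm.2] at h4
    exact h4.symm
  have hRco : ∀ j, co (v (I j)) (K j) (R j) = 0 := by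
    intro j
    have h1 : Filter.Tendsto (fun m => co (v (I j)) (K j) (Q (m + j))) U
        (nhds (co (v (I j)) (K j) (R j))) :=
      ((p08_co_cont _ _).tendsto _).comp (hRlim j)
    have h2 : Filter.Tendsto (fun m => co (v (x (m + j)).2) (k (m + j)) (Q (m + j))) U (nhds 0) :=
      (hcoz.comp (Filter.tendsto_add_atTop_nat j)).mono_left hUle
    refine tendsto_nhds_unique h1 (h2.congr' ?_)
    filter_upwards [haI j] with m hm
    rw [hm.1, hm.2]
  have hRdet : ∀ j, hdet (R j) = hdet P := by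
    intro j
    have h1 : Filter.Tendsto (fun m => hdet (Q (m + j))) U (nhds (hdet (R j))) :=
      (p08_hdet_cont.tendsto _).comp (hRlim j)
    refine tendsto_nhds_unique h1 ?_
    simp only [hQdet]
    exact tendsto_const_nhds
  have hRpos : ∀ j, Pos (R j) := by
    intro j
    have h1 : 0 < hdet (R j) := by
      rw [hRdet]
      exact hP.2
    refine ⟨?_, h1⟩
    obtain ⟨⟨h2, _⟩, ⟨h3, _⟩, _⟩ := hRS j
    unfold hdet at h1
    have h4 : 0 ≤ Complex.normSq (R j).2.2 := Complex.normSq_nonneg _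
    rcases h2.lt_or_eq with h5 | h5
    · exact h5
    · rw [← h5] at h1
      linarith
  have hKne : ∀ j, K (j + 1) ≠ C.s (I j) (K j) (K j) := by
    intro j h
    obtain ⟨m, ⟨h1, h2⟩, h3, h4⟩ := ((haI j).and (haI (j + 1))).exists
    obtain ⟨c', hc'0, hc'⟩ := co_opp H (I j) (K j)
    have h5 := hc' (Q (m + j))
    have h6 := hQs (m + j)
    rw [h1, h2] at h6
    rw [← h6, ← hIs, ← h] at h5
    have h7 := hkm (m + (j + 1))
    rw [h3, h4] at h7
    have h8 := hkm (m + j)
    rw [h1, h2] at h8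
    have h9 : co (v (I (j + 1))) (K (j + 1)) (Q (m + j + 1)) < 0 := h7
    rw [h5] at h9
    have h10 := mul_neg_of_pos_of_neg hc'0 h8
    linarith
  obtain ⟨d, hd1, hId, f, hprod, hflag⟩ := p08_flag H I K R hIs hRs hRpos hRco hKne
  -- all labels up to `d + 1` are the limit ones
  have hall : ∀ᶠ m in (U : Filter ℕ), ∀ j ∈ Finset.range (d + 2),
      ((x (m + j)).2 = I j ∧ k (m + j) = K j) :=
    (Filter.eventually_all_finset (Finset.range (d + 2))).2 (fun j _ => haI j)
  obtain ⟨m, hm⟩ := hall.exists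
  have hxr : ∀ r, r ≤ d → (x (m + 1 + r)).1 = (x (m + 1)).1 * C.hprod f r := by
    intro r
    induction r with
    | zero =>
      intro _
      change (x (m + 1)).1 = (x (m + 1)).1 * 1
      rw [mul_one]
    | succ r ih =>
      intro hr
      have h1 := ih (by omega)
      have h2 := (hk (m + 1 + r)).2
      have h3 := hm (1 + r) (Finset.mem_range.2 (by omega))
      rw [← Nat.add_assoc] at h3
      have h4 : x (m + 1 + (r + 1)) = C.step (x (m + 1 + r)) (k (m + 1 + r)) := h2
      rw [h4]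
      change (x (m + 1 + r)).1 * C.h (x (m + 1 + r)).2 (k (m + 1 + r)) =
        (x (m + 1)).1 * (C.hprod f r * C.h (C.flag f r).1 ((C.flag f r).2 2))
      rw [h1, h3.1, h3.2, (hflag r).1, (hflag r).2, Nat.add_comm 1 r, mul_assoc]
  have hxd : x (m + 1 + d) = x (m + 1) := by
    refine Prod.ext ?_ ?_
    · rw [hxr d le_rfl, hprod, mul_one]
    · have h3 := hm (1 + d) (Finset.mem_range.2 (by omega))
      have h4 := hm 1 (Finset.mem_range.2 (by omega))
      rw [← Nat.add_assoc] at h3
      rw [h3.1, h4.1, Nat.add_comm 1 d, hId]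
  have hfinal : φ (m + 1 + d) < φ (m + 1) := hφanti (by omega)
  simp only [hφ, hQ] at hfinal
  rw [hxd] at hfinal
  exact lt_irrefl _ hfinal

theorem wf_red (H : Good ρ C v) (P : Herm) (hP : Pos P) :
    WellFounded (fun y x => Red ρ C v P x y) := by
  rw [wellFounded_iff_isEmpty_descending_chain]
  refine ⟨fun s => ?_⟩
  exact no_infinite H P hP s.1 s.2

end TorMut.Tile
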