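import Pool.Agent.Lib.MP_407fc5_gt.P07
import Pool.Agent.Lib.MP_407fc5_gt.P08

/-!
# P09: Newman's lemma and uniqueness of the tile containing a point (about 50 minutes)

* `newman`: well-founded + locally confluent implies: elements in the same connected component
  with no further reduction are equal.  (Show confluence by well-founded induction, then by
  induction on `EqvGen`/`ReflTransGen` that any two connected elements have a common descendant.)
* `tile_unique`: for `P` off the walls every adjacency is a reduction in one direction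
  (`red_or_red`), all tiles are connected with the base tile (`conn`), a tile whose coordinates of
  `P` are all positive is irreducible.
* `tile_exists`: a reduction sequence ends in a tile whose coordinates are all `≥ 0`.
-/

namespace TorMut.Tile

open Matrix MatrixGroups ComplexConjugate

lemma p09_confl {α : Type*} (r : α → α → Prop) (wf : WellFounded (fun y x => r x y))
    (lc : ∀ x y z, r x y → r x z →
      ∃ w, Relation.ReflTransGen r y w ∧ Relation.ReflTransGen r z w) (x : α) :
    ∀ y z, Relation.ReflTransGen r x y → Relation.ReflTransGen r x z →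
      ∃ w, Relation.ReflTransGen r y w ∧ Relation.ReflTransGen r z w := by
  induction x using wf.induction with
  | _ x ih =>
    intro y z hy hz
    rcases hy.cases_head with rfl | ⟨y₁, h1, h1'⟩
    · exact ⟨z, hz, .refl⟩
    rcases hz.cases_head with rfl | ⟨z₁, h2, h2'⟩
    · exact ⟨y, .refl, hy⟩
    obtain ⟨w₁, hw1, hw2⟩ := lc x y₁ z₁ h1 h2
    obtain ⟨u, hu1, hu2⟩ := ih y₁ h1 y w₁ h1' hw1
    obtain ⟨t, ht1, ht2⟩ := ih z₁ h2 z u h2' (hw2.trans hu2)
    exact ⟨t, hu1.trans ht2, ht1⟩

theorem newman {α : Type*} (r : α → α → Prop) (wf : WellFounded (fun y x => r x y))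
    (lc : ∀ x y z, r x y → r x z →
      ∃ w, Relation.ReflTransGen r y w ∧ Relation.ReflTransGen r z w)
    (a b : α) (hab : Relation.EqvGen r a b) (ha : ∀ c, ¬ r a c) (hb : ∀ c, ¬ r b c) : a = b := by
  have key : ∃ w, Relation.ReflTransGen r a w ∧ Relation.ReflTransGen r b w := by
    clear ha hb
    induction hab with
    | rel x y h => exact ⟨y, .single h, .refl⟩
    | refl x => exact ⟨x, .refl, .refl⟩
    | symm x y _ ih => obtain ⟨w, h1, h2⟩ := ih; exact ⟨w, h2, h1⟩
    | trans x y z _ _ ih1 ih2 =>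
      obtain ⟨w, h1, h2⟩ := ih1
      obtain ⟨w', h3, h4⟩ := ih2
      obtain ⟨t, ht1, ht2⟩ := p09_confl r wf lc y w w' h2 h3
      exact ⟨t, h1.trans ht1, h4.trans ht2⟩
  obtain ⟨w, h1, h2⟩ := key
  rcases h1.cases_head with rfl | ⟨c, hc, _⟩
  · rcases h2.cases_head with h | ⟨c, hc, _⟩
    · exact h.symm
    · exact absurd hc (hb c)
  · exact absurd hc (ha c)

variable {G : Type*} [Group G] {ρ : G →* SL(2, ℂ)} {n : ℕ} {C : Comb G n} {v : Fin n → Fin 4 → V2}

theorem tile_unique (H : Good ρ C v) (P : Herm) (hP : Pos P) (hne : OffWalls ρ v P)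
    (x y : G × Fin n) (hx : ∀ k, 0 < co (v x.2) k (rel ρ x P))
    (hy : ∀ k, 0 < co (v y.2) k (rel ρ y P)) : x = y := by
  obtain ⟨i₀, hi⟩ := H.conn
  have hE : ∀ z, Relation.EqvGen (Red ρ C v P) (1, i₀) z := by
    intro z
    have h := hi z
    induction h with
    | refl => exact .refl _
    | tail _ hbc ih =>
      obtain ⟨k, rfl⟩ := hbc
      refine .trans _ _ _ ih ?_
      rcases red_or_red H P _ k (hne _ k) with h | h
      · exact .rel _ _ h
      · exact .symm _ _ (.rel _ _ h)
  refine newman (Red ρ C v P) (wf_red H P hP)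
    (fun x y z h1 h2 => local_confluence H P hP hne x y z h1 h2) x y
    (.trans _ _ _ (.symm _ _ (hE x)) (hE y)) ?_ ?_
  · rintro c ⟨k, hk, _⟩
    exact absurd hk (not_lt.2 (hx k).le)
  · rintro c ⟨k, hk, _⟩
    exact absurd hk (not_lt.2 (hy k).le)

theorem tile_exists (H : Good ρ C v) (P : Herm) (hP : Pos P) :
    ∃ x : G × Fin n, ∀ k, 0 ≤ co (v x.2) k (rel ρ x P) := by
  obtain ⟨i₀, _⟩ := H.conn
  obtain ⟨x, _, hx⟩ := (wf_red H P hP).has_min Set.univ ⟨(1, i₀), Set.mem_univ _⟩
  refine ⟨x, fun k => ?_⟩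
  by_contra h
  exact hx (C.step x k) (Set.mem_univ _) ⟨k, not_le.1 h, rfl⟩

end TorMut.Tile
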