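import Pool.Agent.Lib.MP_407fc5_gt.P02
import Pool.Agent.Lib.MP_407fc5_gt.P07

/-!
# P10: generic points (about 45 minutes)

Points near `P₀ = ∑ N (v k)`: the curve `P s = P₀ + s • E₁ + s² • E₂ + s³ • E₃ + s⁴ • E₄` with
`E₁ = (1,0,0)`, `E₂ = (0,1,0)`, `E₃ = (0,0,1)`, `E₄ = (0,0,I)` (a basis of `Herm` over `ℝ`).  For a
nonzero linear functional `L` the function `s ↦ L (P s)` is a nonzero polynomial of degree `≤ 4`,
hence has finitely many zeros; `G × Fin n × Fin 4` is countable, so all walls together exclude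
countably many `s`, and `(0, δ)` is uncountable.  The functional
`P ↦ co (v i) k (rel ρ (g, i) P)` is nonzero (it takes the value `1` at
`hact (ρ g) (N (v i k))`).
-/

namespace TorMut.Tile

open Matrix MatrixGroups ComplexConjugate

variable {G : Type*} [Group G] {ρ : G →* SL(2, ℂ)} {n : ℕ} {C : Comb G n} {v : Fin n → Fin 4 → V2}

noncomputable def curve (P₀ : Herm) (s : ℝ) : Herm :=
  P₀ + s • ((1, 0, 0) : Herm) + s ^ 2 • ((0, 1, 0) : Herm) + s ^ 3 • ((0, 0, 1) : Herm)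
    + s ^ 4 • ((0, 0, Complex.I) : Herm)

lemma p10_fin (a0 a1 a2 a3 a4 : ℝ) (h : ¬ (a1 = 0 ∧ a2 = 0 ∧ a3 = 0 ∧ a4 = 0)) :
    {s : ℝ | a0 + s * a1 + s ^ 2 * a2 + s ^ 3 * a3 + s ^ 4 * a4 = 0}.Finite := by
  set p : Polynomial ℝ := Polynomial.C a0 + Polynomial.C a1 * Polynomial.X
    + Polynomial.C a2 * Polynomial.X ^ 2 + Polynomial.C a3 * Polynomial.X ^ 3
    + Polynomial.C a4 * Polynomial.X ^ 4 with hp
  have hp0 : p ≠ 0 := by
    intro h0
    apply h
    have c1 := congrArg (fun q => Polynomial.coeff q 1) h0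
    have c2 := congrArg (fun q => Polynomial.coeff q 2) h0
    have c3 := congrArg (fun q => Polynomial.coeff q 3) h0
    have c4 := congrArg (fun q => Polynomial.coeff q 4) h0
    simp [hp, Polynomial.coeff_X, Polynomial.coeff_X_pow, Polynomial.coeff_C] at c1 c2 c3 c4
    exact ⟨c1, c2, c3, c4⟩
  refine (Polynomial.finite_setOf_isRoot hp0).subset fun s hs => ?_
  simp only [Set.mem_setOf_eq] at hs ⊢
  rw [Polynomial.IsRoot, hp]
  simp only [Polynomial.eval_add, Polynomial.eval_mul, Polynomial.eval_C, Polynomial.eval_X,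
    Polynomial.eval_pow]
  linarith

lemma p10_add (x : G × Fin n) (k : Fin 4) (P Q : Herm) :
    co (v x.2) k (rel ρ x (P + Q)) = co (v x.2) k (rel ρ x P) + co (v x.2) k (rel ρ x Q) := by
  simp only [rel, hact_add, co, Lk_add, add_div]

lemma p10_smul (x : G × Fin n) (k : Fin 4) (r : ℝ) (P : Herm) :
    co (v x.2) k (rel ρ x (r • P)) = r * co (v x.2) k (rel ρ x P) := by
  simp only [rel, hact_smul, co, Lk_smul, mul_div_assoc]

lemma p10_basis (P : Herm) : P = P.1 • ((1, 0, 0) : Herm) + P.2.1 • ((0, 1, 0) : Herm)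
    + P.2.2.re • ((0, 0, 1) : Herm) + P.2.2.im • ((0, 0, Complex.I) : Herm) := by
  refine Prod.ext ?_ (Prod.ext ?_ (Complex.ext ?_ ?_)) <;> simp

lemma p10_wall (H : Good ρ C v) (P₀ : Herm) (x : G × Fin n) (k : Fin 4) :
    {s : ℝ | co (v x.2) k (rel ρ x (curve P₀ s)) = 0}.Finite := by
  have h : ¬ (co (v x.2) k (rel ρ x ((1, 0, 0) : Herm)) = 0 ∧
      co (v x.2) k (rel ρ x ((0, 1, 0) : Herm)) = 0 ∧
      co (v x.2) k (rel ρ x ((0, 0, 1) : Herm)) = 0 ∧
      co (v x.2) k (rel ρ x ((0, 0, Complex.I) : Herm)) = 0) := by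
    rintro ⟨h1, h2, h3, h4⟩
    have h0 : ∀ P : Herm, co (v x.2) k (rel ρ x P) = 0 := by
      intro P
      have h6 := p10_basis P
      rw [h6]
      simp only [p10_add, p10_smul, h1, h2, h3, h4, mul_zero, add_zero]
    have h5 := h0 (hact (ρ x.1) (N (v x.2 k)))
    rw [rel, map_inv, ← hact_mul, inv_mul_cancel, hact_one,
      co_N _ (H.vol_pos _).ne', if_pos rfl] at h5
    exact one_ne_zero h5
  refine (p10_fin (co (v x.2) k (rel ρ x P₀)) _ _ _ _ h).subset fun s hs => ?_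
  simp only [Set.mem_setOf_eq] at hs ⊢
  rw [curve] at hs
  simp only [p10_add, p10_smul] at hs
  exact hs

theorem generic [Countable G] (H : Good ρ C v) (P₀ : Herm) (δ : ℝ) (hδ : 0 < δ) :
    ∃ s, 0 < s ∧ s < δ ∧ OffWalls ρ v (curve P₀ s) := by
  have hc : (⋃ p : (G × Fin n) × Fin 4,
      {s : ℝ | co (v p.1.2) p.2 (rel ρ p.1 (curve P₀ s)) = 0}).Countable :=
    Set.countable_iUnion fun p => (p10_wall H P₀ p.1 p.2).countable
  obtain ⟨s, hs, hs'⟩ := (hc.dense_compl ℝ).exists_mem_open (isOpen_Ioo (a := (0 : ℝ)) (b := δ))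
    ⟨δ / 2, by constructor <;> linarith⟩
  refine ⟨s, hs'.1, hs'.2, fun x k h => ?_⟩
  exact hs (Set.mem_iUnion.2 ⟨(x, k), h⟩)

end TorMut.Tile
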