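import Pool.Agent.Lib.MP_407fc5_gt.P09
import Pool.Agent.Lib.MP_407fc5_gt.P10

/-!
# P11: discreteness and faithfulness (about 60 minutes)

Let `i₀` be the base tile, `P₀ = ∑ k, N (v i₀ k)` (all coordinates `1`).  The functions
`(A, s) ↦ co (v i₀) k (hact A (curve P₀ s))` are continuous in the entries of `A` and in `s` and
equal to `1` at `A = ± 1`, `s = 0`.  So there are `ε, δ > 0` such that they are positive if all
entries of `A ∓ 1` are `< ε` and `|s| < δ`; shrink `δ` so that `Pos (curve P₀ s)`.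
Let `g ≠ 1` with all entries of `ρ g - 1` (or `ρ g + 1`) small (then the same holds for
`A = ρ g⁻¹`, whose entries are those of `ρ g` permuted with signs: `SL2_inv_expl`).  Choose a
generic `s` (P10): the tiles `(1, i₀)` and `(g, i₀)` both contain `curve P₀ s` in the interior, so
`g = 1` by `tile_unique`.
-/

namespace TorMut.Tile

open Matrix MatrixGroups ComplexConjugate

variable {G : Type*} [Group G] {ρ : G →* SL(2, ℂ)} {n : ℕ} {C : Comb G n} {v : Fin n → Fin 4 → V2}

/-- the action of an arbitrary matrix -/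
noncomputable def p11_act (A : Fin 2 → Fin 2 → ℂ) (P : Herm) : Herm :=
  (Complex.normSq (A 0 0) * P.1 + 2 * (A 0 0 * conj (A 0 1) * P.2.2).re +
      Complex.normSq (A 0 1) * P.2.1,
   Complex.normSq (A 1 0) * P.1 + 2 * (A 1 0 * conj (A 1 1) * P.2.2).re +
      Complex.normSq (A 1 1) * P.2.1,
   A 0 0 * conj (A 1 0) * P.1 + A 0 0 * conj (A 1 1) * P.2.2 +
      A 0 1 * conj (A 1 0) * conj P.2.2 + A 0 1 * conj (A 1 1) * P.2.1)

lemma p11_act_eq (g : SL(2, ℂ)) (P : Herm) : p11_act g.1 P = hact g P := rfl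

lemma p11_curve_zero (P₀ : Herm) : curve P₀ 0 = P₀ := by
  simp [curve]

lemma p11_curve_cont (P₀ : Herm) : Continuous (curve P₀) := by
  unfold curve
  fun_prop

lemma p11_act_cont (P₀ : Herm) :
    Continuous fun x : (Fin 2 → Fin 2 → ℂ) × ℝ => p11_act x.1 (curve P₀ x.2) := by
  have h := p11_curve_cont P₀
  have h0 : Continuous fun x : (Fin 2 → Fin 2 → ℂ) × ℝ => curve P₀ x.2 := h.comp continuous_snd
  have hA : ∀ i j : Fin 2, Continuous fun x : (Fin 2 → Fin 2 → ℂ) × ℝ => x.1 i j := by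
    intro i j
    fun_prop
  have h1 : Continuous fun x : (Fin 2 → Fin 2 → ℂ) × ℝ => (curve P₀ x.2).1 := h0.fst
  have h2 : Continuous fun x : (Fin 2 → Fin 2 → ℂ) × ℝ => (curve P₀ x.2).2.1 := h0.snd.fst
  have h3 : Continuous fun x : (Fin 2 → Fin 2 → ℂ) × ℝ => (curve P₀ x.2).2.2 := h0.snd.snd
  have c3 := Complex.continuous_conj.comp h3
  have cA := fun i j => Complex.continuous_conj.comp (hA i j)
  have nA := fun i j => Complex.continuous_normSq.comp (hA i j)
  have r1 := Complex.continuous_ofReal.comp h1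
  have r2 := Complex.continuous_ofReal.comp h2
  unfold p11_act
  refine Continuous.prodMk ?_ (Continuous.prodMk ?_ ?_)
  · exact ((((nA 0 0).mul h1).add (continuous_const.mul
      (Complex.continuous_re.comp (((hA 0 0).mul (cA 0 1)).mul h3)))).add ((nA 0 1).mul h2))
  · exact ((((nA 1 0).mul h1).add (continuous_const.mul
      (Complex.continuous_re.comp (((hA 1 0).mul (cA 1 1)).mul h3)))).add ((nA 1 1).mul h2))
  · exact (((((hA 0 0).mul (cA 1 0)).mul r1).add (((hA 0 0).mul (cA 1 1)).mul h3)).add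
      (((hA 0 1).mul (cA 1 0)).mul c3)).add (((hA 0 1).mul (cA 1 1)).mul r2)

lemma p11_B_cont (u w : V2) : Continuous fun P : Herm => B P u w := by
  unfold B
  have h1 : Continuous fun P : Herm => P.1 := continuous_fst
  have h2 : Continuous fun P : Herm => P.2.1 := continuous_snd.fst
  have h3 : Continuous fun P : Herm => P.2.2 := continuous_snd.snd
  have c3 := Complex.continuous_conj.comp h3
  have r1 := Complex.continuous_ofReal.comp h1
  have r2 := Complex.continuous_ofReal.comp h2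
  exact ((((r1.mul continuous_const).mul continuous_const).sub
    ((h3.mul continuous_const).mul continuous_const)).sub
    ((c3.mul continuous_const).mul continuous_const)).add
    ((r2.mul continuous_const).mul continuous_const)

lemma p11_Lf_cont (a b c : V2) : Continuous fun P : Herm => Lf a b c P := by
  unfold Lf
  exact Complex.continuous_im.comp (continuous_const.mul (p11_B_cont a b))

lemma p11_co_cont (u : Fin 4 → V2) (k : Fin 4) : Continuous fun P : Herm => co u k P := by
  unfold co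
  refine Continuous.div_const ?_ _
  fin_cases k <;> simp only [Lk] <;> exact p11_Lf_cont _ _ _

lemma p11_hdet_cont : Continuous hdet := by
  unfold hdet
  have h1 : Continuous fun P : Herm => P.1 := continuous_fst
  have h2 : Continuous fun P : Herm => P.2.1 := continuous_snd.fst
  have h3 : Continuous fun P : Herm => P.2.2 := continuous_snd.snd
  exact (h1.mul h2).sub (Complex.continuous_normSq.comp h3)

lemma p11_act_one (P : Herm) : p11_act (1 : Matrix (Fin 2) (Fin 2) ℂ) P = P := by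
  have h := hact_one P
  rw [← p11_act_eq] at h
  simpa using h

lemma p11_act_neg_one (P : Herm) : p11_act (-(1 : Matrix (Fin 2) (Fin 2) ℂ)) P = P := by
  have h : p11_act (-(1 : Matrix (Fin 2) (Fin 2) ℂ)) P = p11_act (1 : Matrix (Fin 2) (Fin 2) ℂ) P := by
    unfold p11_act
    simp
  rw [h, p11_act_one]

lemma p11_co_sum (u : Fin 4 → V2) (hu : vol u ≠ 0) (k : Fin 4) :
    co u k (∑ l, N (u l)) = 1 := by
  have hadd : ∀ P Q : Herm, co u k (P + Q) = co u k P + co u k Q := by
    intro P Q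
    unfold co
    rw [Lk_add, add_div]
  rw [Fin.sum_univ_four, hadd, hadd, hadd, co_N u hu, co_N u hu, co_N u hu, co_N u hu]
  fin_cases k <;> simp

/-- positivity near a fixed matrix -/
lemma p11_near (u : Fin 4 → V2) (P₀ : Herm) (A₀ : Fin 2 → Fin 2 → ℂ)
    (h : ∀ k, 0 < co u k (p11_act A₀ P₀)) :
    ∃ ε > 0, ∀ (A : Fin 2 → Fin 2 → ℂ) (s : ℝ), (∀ i j, ‖A i j - A₀ i j‖ < ε) → |s| < ε →
      ∀ k, 0 < co u k (p11_act A (curve P₀ s)) := by
  have key : ∀ k, ∃ ε > 0, ∀ x : (Fin 2 → Fin 2 → ℂ) × ℝ, dist x (A₀, 0) < ε →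
      0 < co u k (p11_act x.1 (curve P₀ x.2)) := by
    intro k
    have hc : Continuous fun x : (Fin 2 → Fin 2 → ℂ) × ℝ => co u k (p11_act x.1 (curve P₀ x.2)) :=
      (p11_co_cont u k).comp (p11_act_cont P₀)
    have h0 : 0 < co u k (p11_act A₀ (curve P₀ 0)) := by
      rw [p11_curve_zero]
      exact h k
    have hev := (hc.continuousAt (x := (A₀, 0))).eventually (lt_mem_nhds h0)
    obtain ⟨ε, hε, hb⟩ := Metric.eventually_nhds_iff.1 hev
    exact ⟨ε, hε, fun x hx => hb hx⟩
  choose e he hb using key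
  refine ⟨min (min (e 0) (e 1)) (min (e 2) (e 3)),
    lt_min (lt_min (he 0) (he 1)) (lt_min (he 2) (he 3)), fun A s hA hs k => ?_⟩
  have hk : min (min (e 0) (e 1)) (min (e 2) (e 3)) ≤ e k := by
    fin_cases k
    · exact (min_le_left _ _).trans (min_le_left _ _)
    · exact (min_le_left _ _).trans (min_le_right _ _)
    · exact (min_le_right _ _).trans (min_le_left _ _)
    · exact (min_le_right _ _).trans (min_le_right _ _)
  refine hb k (A, s) ?_
  rw [Prod.dist_eq, max_lt_iff]
  constructor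
  · refine (dist_pi_lt_iff (he k)).2 fun i => (dist_pi_lt_iff (he k)).2 fun j => ?_
    rw [dist_eq_norm]
    exact (hA i j).trans_le hk
  · have := hs.trans_le hk
    simpa [Real.dist_eq] using this

theorem discreteFaithful [Countable G] (H : Good ρ C v) (i₀ : Fin n) : DiscreteFaithful ρ := by
  have hv : vol (v i₀) ≠ 0 := (H.vol_pos i₀).ne'
  set P₀ : Herm := ∑ l, N (v i₀ l) with hP₀
  have hco : ∀ k, co (v i₀) k P₀ = 1 := fun k => p11_co_sum (v i₀) hv k
  have hpos₀ : Pos P₀ := by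
    have := pos_sum (v i₀) hv (fun _ => 1) (fun _ => one_pos)
    simpa [hP₀] using this
  obtain ⟨ε₁, hε₁, h1⟩ := p11_near (v i₀) P₀ (1 : Matrix (Fin 2) (Fin 2) ℂ) (fun k => by
    rw [p11_act_one, hco]; exact one_pos)
  obtain ⟨ε₂, hε₂, h2⟩ := p11_near (v i₀) P₀ (-(1 : Matrix (Fin 2) (Fin 2) ℂ)) (fun k => by
    rw [p11_act_neg_one, hco]; exact one_pos)
  have hP : ∃ δ > 0, ∀ s : ℝ, |s| < δ → Pos (curve P₀ s) := by
    have hU : IsOpen {s : ℝ | Pos (curve P₀ s)} := by
      have : {s : ℝ | Pos (curve P₀ s)} =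
          {s | 0 < (curve P₀ s).1} ∩ {s | 0 < hdet (curve P₀ s)} := by
        ext s
        simp [Pos]
      rw [this]
      exact (isOpen_lt continuous_const (p11_curve_cont P₀).fst).inter
        (isOpen_lt continuous_const (p11_hdet_cont.comp (p11_curve_cont P₀)))
    have hmem : (0 : ℝ) ∈ {s : ℝ | Pos (curve P₀ s)} := by
      simpa [p11_curve_zero] using hpos₀
    obtain ⟨δ, hδ, hb⟩ := Metric.isOpen_iff.1 hU _ hmem
    exact ⟨δ, hδ, fun s hs => hb (by simpa [Real.dist_eq] using hs)⟩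
  obtain ⟨δ, hδ, hPs⟩ := hP
  set δ' := min δ (min ε₁ ε₂) with hδ'
  have hδ'pos : 0 < δ' := lt_min hδ (lt_min hε₁ hε₂)
  obtain ⟨s, hs0, hsδ, hoff⟩ := generic H P₀ δ' hδ'pos
  have habs : |s| < δ' := by rwa [abs_of_pos hs0]
  have hsδ1 : |s| < δ := lt_of_lt_of_le habs (min_le_left _ _)
  have hsε1 : |s| < ε₁ := lt_of_lt_of_le habs ((min_le_right _ _).trans (min_le_left _ _))
  have hsε2 : |s| < ε₂ := lt_of_lt_of_le habs ((min_le_right _ _).trans (min_le_right _ _))
  have hbase : ∀ k, 0 < co (v (1, i₀).2) k (rel ρ ((1 : G), i₀) (curve P₀ s)) := by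
    intro k
    have := h1 (1 : Matrix (Fin 2) (Fin 2) ℂ) s (fun i j => by simpa using hε₁) hsε1 k
    rw [p11_act_one] at this
    simpa [rel, hact_one] using this
  have hinv : ∀ g : G, (ρ g⁻¹).1 = !![(ρ g).1 1 1, -(ρ g).1 0 1; -(ρ g).1 1 0, (ρ g).1 0 0] := by
    intro g
    rw [map_inv]
    exact congrArg Subtype.val (SpecialLinearGroup.SL2_inv_expl (ρ g))
  have huniq : ∀ g : G, (∀ k, 0 < co (v i₀) k (p11_act (ρ g⁻¹).1 (curve P₀ s))) → g = 1 := by
    intro g hg
    have := tile_unique H (curve P₀ s) (hPs s hsδ1) hoff (g, i₀) (1, i₀) (fun k => hg k) hbase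
    exact (Prod.ext_iff.1 this).1
  refine ⟨min ε₁ ε₂, lt_min hε₁ hε₂, fun g hg => ⟨?_, ?_⟩⟩
  · by_contra hcon
    push Not at hcon
    apply hg
    apply huniq
    intro k
    refine h1 (ρ g⁻¹).1 s ?_ hsε1 k
    have hc : ∀ i j, ‖(ρ g).1 i j - (1 : Matrix (Fin 2) (Fin 2) ℂ) i j‖ < ε₁ := fun i j =>
      lt_of_lt_of_le (hcon i j) (min_le_left _ _)
    rw [hinv]
    intro i j
    fin_cases i <;> fin_cases j
    · simpa using hc 1 1
    · simpa using hc 0 1
    · simpa using hc 1 0
    · simpa using hc 0 0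
  · by_contra hcon
    push Not at hcon
    apply hg
    apply huniq
    intro k
    refine h2 (ρ g⁻¹).1 s ?_ hsε2 k
    have hc : ∀ i j, ‖(ρ g).1 i j + (1 : Matrix (Fin 2) (Fin 2) ℂ) i j‖ < ε₂ := fun i j =>
      lt_of_lt_of_le (hcon i j) (min_le_right _ _)
    rw [hinv]
    intro i j
    fin_cases i <;> fin_cases j
    · simpa using hc 1 1
    · simpa using hc 0 1
    · simpa using hc 1 0
    · simpa using hc 0 0

end TorMut.Tile
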