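import Pool.Agent.Lib.MP_407fc5_gt.P09

/-!
# P12: finite covolume (about 90 minutes)

* `herm p = (1/t) [[|z|²+t², z], [conj z, 1]]` for `p = (z, t)`, `t > 0`: `Pos`, `hdet = 1`;
  `herm_act`: `herm (act g p) = hact g (herm p)` and `0 < (act g p).2`.
* `box R ε = {(z, t) | ‖z‖ ≤ R, ε ≤ t}` has finite hyperbolic volume (`∫∫ 1/t³ = area / (2 ε²)`;
  e.g. `lintegral_prod`, `∫_{ε}^∞ t⁻³ < ∞`).
* for `p` take the tile `x = (g, i)` with nonnegative coordinates `c l` of `herm p` (`tile_exists`), let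
  `c k` be the largest one; `c l ≤ 1 / |Dt (v i k) (v i l)|` for `l ≠ k` (`prod_le`, `hdet = 1`).
  Let `v i k = ± ρ(γ) (1, 0)` (`cusp`).  Seen from `g γ` the point is `Q = ∑ c l N (γ⁻¹ v i l)` with
  `N (γ⁻¹ v i k) = (1, 0, 0)`.  Its second entry is `∑_{l ≠ k} c l |Dt (v i k) (v i l)|² ≤ const`
  and its third entry divided by the second one is a convex combination of the finitely many numbers
  `(γ⁻¹ v i l)₀ / (γ⁻¹ v i l)₁`.  So `act (ρ (g γ)⁻¹) p` lies in a fixed box.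
-/

namespace TorMut.Tile

open Matrix MatrixGroups ComplexConjugate

/-- the Hermitian matrix of a point of the upper half space -/
noncomputable def herm (p : ℂ × ℝ) : Herm :=
  ((Complex.normSq p.1 + p.2 ^ 2) / p.2, 1 / p.2, p.1 / p.2)

lemma herm_pos (p : ℂ × ℝ) (hp : 0 < p.2) : Pos (herm p) ∧ hdet (herm p) = 1 := by
  have h0 : p.2 ≠ 0 := hp.ne'
  have h1 : hdet (herm p) = 1 := by
    unfold hdet herm
    simp only [Complex.normSq_div, Complex.normSq_ofReal]
    field_simp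
    ring
  refine ⟨⟨?_, by rw [h1]; exact one_pos⟩, h1⟩
  unfold herm
  have h2 : 0 ≤ Complex.normSq p.1 := Complex.normSq_nonneg _
  simp only
  positivity

lemma p12_N_pos (g : SL(2, ℂ)) (p : ℂ × ℝ) (hp : 0 < p.2) :
    0 < ‖g.1 1 0 * p.1 + g.1 1 1‖ ^ 2 + ‖g.1 1 0‖ ^ 2 * p.2 ^ 2 := by
  by_cases hc : g.1 1 0 = 0
  · have hd : g.1 1 1 ≠ 0 := by
      intro hd
      have h1 := g.2
      rw [Matrix.det_fin_two, hc, hd] at h1
      simp at h1
    rw [hc]
    have : 0 < ‖(0 : ℂ) * p.1 + g.1 1 1‖ := by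
      rw [zero_mul, zero_add]
      exact norm_pos_iff.2 hd
    positivity
  · have : 0 < ‖g.1 1 0‖ := norm_pos_iff.2 hc
    positivity

lemma act_pos (g : SL(2, ℂ)) (p : ℂ × ℝ) (hp : 0 < p.2) : 0 < (act g p).2 := by
  unfold act
  exact div_pos hp (p12_N_pos g p hp)

theorem herm_act (g : SL(2, ℂ)) (p : ℂ × ℝ) (hp : 0 < p.2) :
    herm (act g p) = hact g (herm p) := by
  have hN := p12_N_pos g p hp
  have hp' := act_pos g p hp
  have h0 : p.2 ≠ 0 := hp.ne'
  have hd1 := (herm_pos (act g p) hp').2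
  have hd2 : hdet (hact g (herm p)) = 1 := by
    rw [hdet_act]
    exact (herm_pos p hp).2
  set N : ℝ := ‖g.1 1 0 * p.1 + g.1 1 1‖ ^ 2 + ‖g.1 1 0‖ ^ 2 * p.2 ^ 2 with hNdef
  have e2 : (herm (act g p)).2.1 = (hact g (herm p)).2.1 := by
    have h1 : (herm (act g p)).2.1 = N / p.2 := by
      change 1 / (p.2 / N) = N / p.2
      rw [one_div_div]
    rw [h1, hNdef]
    unfold hact herm
    simp only
    rw [← Complex.normSq_eq_norm_sq, ← Complex.normSq_eq_norm_sq, Complex.normSq_apply,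
      Complex.normSq_apply, Complex.normSq_apply, Complex.normSq_apply]
    simp only [Complex.add_re, Complex.mul_re, Complex.add_im, Complex.mul_im, Complex.conj_re,
      Complex.conj_im, Complex.div_ofReal_re, Complex.div_ofReal_im]
    field_simp
    ring
  have e3 : (herm (act g p)).2.2 = (hact g (herm p)).2.2 := by
    have h1 : (herm (act g p)).2.2 = ((g.1 0 0 * p.1 + g.1 0 1) *
        (starRingEnd ℂ) (g.1 1 0 * p.1 + g.1 1 1) +
        g.1 0 0 * (starRingEnd ℂ) (g.1 1 0) * (p.2 : ℂ) ^ 2) / (p.2 : ℂ) := by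
      change ((g.1 0 0 * p.1 + g.1 0 1) * (starRingEnd ℂ) (g.1 1 0 * p.1 + g.1 1 1) +
        g.1 0 0 * (starRingEnd ℂ) (g.1 1 0) * (p.2 : ℂ) ^ 2) / (N : ℂ) / ((p.2 / N : ℝ) : ℂ) = _
      have hNc : (N : ℂ) ≠ 0 := Complex.ofReal_ne_zero.2 hN.ne'
      have hpc : (p.2 : ℂ) ≠ 0 := Complex.ofReal_ne_zero.2 h0
      push_cast
      field_simp
    rw [h1]
    unfold hact herm
    simp only
    have hpc : (p.2 : ℂ) ≠ 0 := Complex.ofReal_ne_zero.2 h0
    have h3 : ((Complex.normSq p.1 : ℝ) : ℂ) = p.1 * (starRingEnd ℂ) p.1 :=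
      (Complex.mul_conj p.1).symm
    have h4 : (starRingEnd ℂ) (p.1 / (p.2 : ℂ)) = (starRingEnd ℂ) p.1 / (p.2 : ℂ) := by
      rw [map_div₀, Complex.conj_ofReal]
    rw [h4]
    push_cast
    rw [h3, map_add, map_mul]
    field_simp
    ring
  have e1 : (herm (act g p)).1 = (hact g (herm p)).1 := by
    unfold hdet at hd1 hd2
    rw [← e2, ← e3] at hd2
    have h5 : (herm (act g p)).2.1 ≠ 0 := by
      have : 0 < (herm (act g p)).2.1 := one_div_pos.2 hp'
      exact this.ne'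
    have h6 : ((herm (act g p)).1 - (hact g (herm p)).1) * (herm (act g p)).2.1 = 0 := by
      linarith
    rcases mul_eq_zero.1 h6 with h7 | h7
    · linarith
    · exact absurd h7 h5
  exact Prod.ext e1 (Prod.ext e2 e3)

def box (R ε : ℝ) : Set (ℂ × ℝ) := {p | ‖p.1‖ ≤ R ∧ ε ≤ p.2}

theorem p12_box_eq (R ε : ℝ) : box R ε = Metric.closedBall (0 : ℂ) R ×ˢ Set.Ici ε := by
  ext p
  simp [box, Set.mem_prod]

theorem hypVol_box (R ε : ℝ) (hε : 0 < ε) : hypVol (box R ε) < ⊤ := by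
  unfold hypVol
  rw [p12_box_eq, MeasureTheory.Measure.volume_eq_prod, ← MeasureTheory.Measure.prod_restrict]
  have hm : Measurable (fun p : ℂ × ℝ => ENNReal.ofReal (1 / p.2 ^ 3)) := by
    refine ENNReal.measurable_ofReal.comp ?_
    exact measurable_const.div (measurable_snd.pow_const 3)
  rw [MeasureTheory.lintegral_prod _ hm.aemeasurable]
  simp only
  rw [MeasureTheory.lintegral_const]
  refine ENNReal.mul_lt_top ?_ ?_
  · have h1 : MeasureTheory.IntegrableOn (fun t : ℝ => t ^ (-3 : ℝ)) (Set.Ioi ε) :=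
      integrableOn_Ioi_rpow_of_lt (by norm_num) hε
    have h2 : MeasureTheory.IntegrableOn (fun t : ℝ => 1 / t ^ 3) (Set.Ici ε) := by
      rw [integrableOn_Ici_iff_integrableOn_Ioi]
      refine h1.congr_fun (fun t ht => ?_) measurableSet_Ioi
      have ht0 : 0 < t := hε.trans ht
      simp only
      rw [Real.rpow_neg ht0.le, one_div]
      norm_cast
    exact h2.lintegral_lt_top
  · rw [MeasureTheory.Measure.restrict_apply MeasurableSet.univ, Set.univ_inter]
    exact MeasureTheory.measure_closedBall_lt_top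

variable {G : Type*} [Group G] {ρ : G →* SL(2, ℂ)} {n : ℕ} {C : Comb G n} {v : Fin n → Fin 4 → V2}

lemma p12_hact_sum (g : SL(2, ℂ)) (c : Fin 4 → ℝ) (w : Fin 4 → V2) :
    hact g (∑ k, c k • N (w k)) = ∑ k, c k • N (g.1.mulVec (w k)) := by
  simp only [Fin.sum_univ_four, hact_add, hact_smul, hact_N]

lemma p12_snd (c : Fin 4 → ℝ) (w : Fin 4 → V2) :
    (∑ k, c k • N (w k)).2.1 = ∑ k, c k * Complex.normSq (w k 1) := by
  simp [Fin.sum_univ_four, N]

lemma p12_trd (c : Fin 4 → ℝ) (w : Fin 4 → V2) :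
    (∑ k, c k • N (w k)).2.2 = ∑ k, (c k : ℂ) * (w k 0 * conj (w k 1)) := by
  simp [Fin.sum_univ_four, N]

/-- the estimate at one cusp -/
theorem p12_local (H : Good ρ C v) (i : Fin n) (k : Fin 4) :
    ∃ (γ : G) (R M : ℝ), 0 ≤ R ∧ 0 ≤ M ∧ ∀ P : Herm, Pos P → hdet P = 1 →
      (∀ l, 0 ≤ co (v i) l P) → (∀ l, co (v i) l P ≤ co (v i) k P) →
      ‖(hact (ρ γ⁻¹) P).2.2‖ ≤ R * (hact (ρ γ⁻¹) P).2.1 ∧ (hact (ρ γ⁻¹) P).2.1 ≤ M := by
  obtain ⟨γ, hγ⟩ := H.cusp i k
  have hv : vol (v i) ≠ 0 := (H.vol_pos i).ne'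
  set w : Fin 4 → V2 := fun l => (ρ γ⁻¹).1.mulVec (v i l) with hw
  have hinv : (ρ γ⁻¹).1 * (ρ γ).1 = 1 := by
    have h : ρ γ⁻¹ * ρ γ = 1 := by rw [← map_mul, inv_mul_cancel, map_one]
    exact congrArg (fun A : SL(2, ℂ) => A.1) h
  have hwk : w k = ![1, 0] ∨ w k = -![1, 0] := by
    rcases hγ with h | h
    · left
      rw [hw]
      simp only
      rw [h, Matrix.mulVec_mulVec, hinv, Matrix.one_mulVec]
    · right
      rw [hw]
      simp only
      rw [h, Matrix.mulVec_neg, Matrix.mulVec_mulVec, hinv, Matrix.one_mulVec]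
  have hwk1 : w k 1 = 0 := by
    rcases hwk with h | h <;> rw [h] <;> simp
  have hD : ∀ l, Complex.normSq (w l 1) = Complex.normSq (Dt (v i k) (v i l)) := by
    intro l
    have h1 : Dt (w k) (w l) = Dt (v i k) (v i l) := Dt_act _ _ _
    rw [← h1]
    unfold Dt
    rcases hwk with h | h <;> rw [h] <;> simp
  have hD0 : ∀ l, l ≠ k → 0 < Complex.normSq (w l 1) := by
    intro l hl
    rw [hD l]
    exact Complex.normSq_pos.2 (Dt_ne_zero (v i) hv k l (Ne.symm hl))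
  refine ⟨γ, ∑ l, ‖w l 0‖ / ‖w l 1‖, ∑ l, ‖w l 1‖, Finset.sum_nonneg fun l _ => by positivity,
    Finset.sum_nonneg fun l _ => norm_nonneg _, ?_⟩
  intro P hP hP1 hc hmax
  set c : Fin 4 → ℝ := fun l => co (v i) l P with hcdef
  have hQ : hact (ρ γ⁻¹) P = ∑ l, c l • N (w l) := by
    conv_lhs => rw [expand (v i) hv P]
    exact p12_hact_sum _ _ _
  rw [hQ, p12_snd, p12_trd]
  constructor
  · refine (norm_sum_le _ _).trans ?_
    rw [Finset.mul_sum]
    refine Finset.sum_le_sum fun l _ => ?_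
    rw [norm_mul, norm_mul, Complex.norm_real, Real.norm_of_nonneg (hc l), RCLike.norm_conj]
    by_cases hl : l = k
    · rw [hl, hwk1]
      simp
    · have h1 : 0 < ‖w l 1‖ := by
        rw [norm_pos_iff]
        exact Complex.normSq_pos.1 (hD0 l hl)
      have h2 : ‖w l 0‖ / ‖w l 1‖ ≤ ∑ l, ‖w l 0‖ / ‖w l 1‖ :=
        Finset.single_le_sum (f := fun l => ‖w l 0‖ / ‖w l 1‖)
          (fun l _ => by positivity) (Finset.mem_univ l)
      rw [Complex.normSq_eq_norm_sq]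
      calc c l * (‖w l 0‖ * ‖w l 1‖) = ‖w l 0‖ / ‖w l 1‖ * (c l * ‖w l 1‖ ^ 2) := by
            field_simp
        _ ≤ (∑ l, ‖w l 0‖ / ‖w l 1‖) * (c l * ‖w l 1‖ ^ 2) :=
            mul_le_mul_of_nonneg_right h2 (mul_nonneg (hc l) (by positivity))
  · refine Finset.sum_le_sum fun l _ => ?_
    by_cases hl : l = k
    · rw [hl, hwk1]
      simp
    · have h1 : 0 < ‖w l 1‖ := by
        rw [norm_pos_iff]
        exact Complex.normSq_pos.1 (hD0 l hl)
      have h2 := prod_le (v i) hv P hc k l (Ne.symm hl)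
      rw [hP1, ← hD l, Complex.normSq_eq_norm_sq] at h2
      rw [Complex.normSq_eq_norm_sq]
      have h3 : c l * c l * ‖w l 1‖ ^ 2 ≤ 1 := by
        refine le_trans ?_ h2
        refine mul_le_mul_of_nonneg_right ?_ (by positivity)
        exact mul_le_mul_of_nonneg_right (hmax l) (hc l)
      have h4 : c l * ‖w l 1‖ ≤ 1 := by
        have h5 : 0 ≤ c l * ‖w l 1‖ := mul_nonneg (hc l) h1.le
        nlinarith
      calc c l * ‖w l 1‖ ^ 2 = (c l * ‖w l 1‖) * ‖w l 1‖ := by ring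
        _ ≤ 1 * ‖w l 1‖ := mul_le_mul_of_nonneg_right h4 h1.le
        _ = ‖w l 1‖ := one_mul _

theorem exists_box (H : Good ρ C v) :
    ∃ R ε : ℝ, 0 < ε ∧ ∀ p : ℂ × ℝ, 0 < p.2 → ∃ g : G, act (ρ g) p ∈ box R ε := by
  choose γ R M hR hM hRM using fun (q : Fin n × Fin 4) => p12_local H q.1 q.2
  set R' : ℝ := ∑ q, R q with hR'
  set M' : ℝ := 1 + ∑ q, M q with hM'
  have hM'0 : 0 < M' := by
    have : 0 ≤ ∑ q, M q := Finset.sum_nonneg fun q _ => hM q
    linarith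
  refine ⟨R', 1 / M', by positivity, fun p hp => ?_⟩
  obtain ⟨hpos, hdet1⟩ := herm_pos p hp
  obtain ⟨x, hx⟩ := tile_exists H (herm p) hpos
  obtain ⟨k, _, hk⟩ := Finset.exists_max_image Finset.univ
    (fun l => co (v x.2) l (rel ρ x (herm p))) Finset.univ_nonempty
  have hP : Pos (rel ρ x (herm p)) := Pos_act _ _ hpos
  have hP1 : hdet (rel ρ x (herm p)) = 1 := by
    unfold rel
    rw [hdet_act]
    exact hdet1
  obtain ⟨h1, h2⟩ := hRM (x.2, k) (rel ρ x (herm p)) hP hP1 hx (fun l => hk l (Finset.mem_univ l))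
  set g' : G := (γ (x.2, k))⁻¹ * x.1⁻¹ with hg'
  have hQ : hact (ρ (γ (x.2, k))⁻¹) (rel ρ x (herm p)) = herm (act (ρ g') p) := by
    rw [herm_act _ _ hp, hg', map_mul, hact_mul]
    rfl
  rw [hQ] at h1 h2
  have ht := act_pos (ρ g') p hp
  refine ⟨g', ?_, ?_⟩
  · have h3 : (herm (act (ρ g') p)).2.1 = 1 / (act (ρ g') p).2 := rfl
    have h4 : (herm (act (ρ g') p)).2.2 = (act (ρ g') p).1 / ((act (ρ g') p).2 : ℂ) := rfl
    rw [h3, h4, norm_div, Complex.norm_real, Real.norm_of_nonneg ht.le, mul_one_div,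
      div_le_div_iff_of_pos_right ht] at h1
    exact h1.trans (Finset.single_le_sum (f := R) (fun q _ => hR q) (Finset.mem_univ _))
  · have h3 : (herm (act (ρ g') p)).2.1 = 1 / (act (ρ g') p).2 := rfl
    rw [h3] at h2
    have h5 : M (x.2, k) ≤ M' := by
      have := Finset.single_le_sum (f := M) (fun q _ => hM q) (Finset.mem_univ (x.2, k))
      linarith
    have h6 := h2.trans h5
    rw [div_le_iff₀ ht] at h6
    rw [div_le_iff₀ hM'0]
    linarith

theorem finiteCovolume (H : Good ρ C v) : FiniteCovolume ρ := by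
  obtain ⟨R, ε, hε, hbox⟩ := exists_box H
  refine ⟨box R ε, ?_, fun p hp => hε.trans_le hp.2, hypVol_box R ε hε, hbox⟩
  rw [p12_box_eq]
  exact measurableSet_closedBall.prod measurableSet_Ici

end TorMut.Tile
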