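import Pool.Agent.Lib.MP_407fc5_gt.Hyp

/-!
# MP_407fc5_gt, part P: the tiling theorem (a combinatorial Poincaré theorem), definitions

Points of hyperbolic space are positive definite Hermitian matrices `[[p, w], [conj w, q]]` (of
arbitrary positive determinant), written as triples `(p, q, w) : ℝ × ℝ × ℂ`; the ideal point of the
vector `u ∈ ℂ²` (up to sign) is the matrix `u u*`; `g` acts by `P ↦ g P g*`.
-/

namespace TorMut.Tile

open Matrix MatrixGroups ComplexConjugate

/-- vectors of `ℂ²` -/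
abbrev V2 := Fin 2 → ℂ

/-- Hermitian matrices `[[p, w], [conj w, q]]` as triples `(p, q, w)` -/
abbrev Herm := ℝ × ℝ × ℂ

/-- determinant of two vectors -/
def Dt (u v : V2) : ℂ := u 0 * v 1 - u 1 * v 0

/-- the Hermitian matrix `u u*` -/
noncomputable def N (u : V2) : Herm := (Complex.normSq (u 0), Complex.normSq (u 1), u 0 * conj (u 1))

/-- determinant -/
noncomputable def hdet (P : Herm) : ℝ := P.1 * P.2.1 - Complex.normSq P.2.2

/-- positive definite -/
def Pos (P : Herm) : Prop := 0 < P.1 ∧ 0 < hdet P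

/-- the action `P ↦ g P g*` -/
noncomputable def hact (g : SL(2, ℂ)) (P : Herm) : Herm :=
  let a := g.1 0 0; let b := g.1 0 1; let c := g.1 1 0; let d := g.1 1 1
  (Complex.normSq a * P.1 + 2 * (a * conj b * P.2.2).re + Complex.normSq b * P.2.1,
   Complex.normSq c * P.1 + 2 * (c * conj d * P.2.2).re + Complex.normSq d * P.2.1,
   a * conj c * P.1 + a * conj d * P.2.2 + b * conj c * conj P.2.2 + b * conj d * P.2.1)

/-- the sesquilinear form `u^⊥ P (v^⊥)*` with `u^⊥ = (-u₁, u₀)`; one has
`B (N x) u v = Dt u x * conj (Dt v x)` -/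
noncomputable def B (P : Herm) (u v : V2) : ℂ :=
  P.1 * u 1 * conj (v 1) - P.2.2 * u 1 * conj (v 0) - conj P.2.2 * u 0 * conj (v 1)
    + P.2.1 * u 0 * conj (v 0)

/-- the linear functional which vanishes on the plane through the ideal points `a`, `b`, `c` -/
noncomputable def Lf (a b c : V2) (P : Herm) : ℝ :=
  (conj (Dt a c) * Dt b c * B P a b).im

/-- the functional of the face opposite to the vertex `k` of the tetrahedron `v` -/
noncomputable def Lk (v : Fin 4 → V2) (k : Fin 4) (P : Herm) : ℝ :=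
  match k with
  | 0 => Lf (v 1) (v 2) (v 3) P
  | 1 => Lf (v 0) (v 3) (v 2) P
  | 2 => Lf (v 0) (v 1) (v 3) P
  | 3 => Lf (v 0) (v 2) (v 1) P

/-- positive iff the ideal tetrahedron is positively oriented and nondegenerate -/
noncomputable def vol (v : Fin 4 → V2) : ℝ := Lk v 3 (N (v 3))

/-- the coordinates of `P` with respect to the four vertices: `P = ∑ k, co v k P • N (v k)` -/
noncomputable def co (v : Fin 4 → V2) (k : Fin 4) (P : Herm) : ℝ := Lk v k P / vol v

/-- the linear functional with value `1` at the four vertices -/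
noncomputable def Ph (v : Fin 4 → V2) (P : Herm) : ℝ := ∑ k, co v k P

/-- the cross ratio of the edge `(π 0, π 1)` seen from the vertices `π 2`, `π 3` -/
noncomputable def zr (v : Fin 4 → V2) (π : Equiv.Perm (Fin 4)) : ℂ :=
  Dt (v (π 1)) (v (π 3)) * Dt (v (π 0)) (v (π 2)) /
    (Dt (v (π 0)) (v (π 3)) * Dt (v (π 1)) (v (π 2)))

/-- combinatorial data of a triangulation with labels in `G` -/
structure Comb (G : Type*) [Group G] (n : ℕ) where
  nb : Fin n → Fin 4 → Fin n
  h : Fin n → Fin 4 → G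
  s : Fin n → Fin 4 → Equiv.Perm (Fin 4)

namespace Comb
variable {G : Type*} [Group G] {n : ℕ} (C : Comb G n)

/-- rotate about an edge: leave the tetrahedron through the face opposite to `π 2` -/
def rot (f : Fin n × Equiv.Perm (Fin 4)) : Fin n × Equiv.Perm (Fin 4) :=
  (C.nb f.1 (f.2 2), C.s f.1 (f.2 2) * f.2 * Equiv.swap 2 3)

/-- the flags met when rotating about an edge -/
def flag (f : Fin n × Equiv.Perm (Fin 4)) (r : ℕ) : Fin n × Equiv.Perm (Fin 4) := C.rot^[r] f

/-- the product of the labels met when rotating -/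
def hprod (f : Fin n × Equiv.Perm (Fin 4)) : ℕ → G
  | 0 => 1
  | r + 1 => hprod f r * C.h (C.flag f r).1 ((C.flag f r).2 2)

/-- the product of the cross ratios met when rotating -/
noncomputable def zprod (v : Fin n → Fin 4 → V2) (f : Fin n × Equiv.Perm (Fin 4)) : ℕ → ℂ
  | 0 => 1
  | r + 1 => zprod v f r * zr (v (C.flag f r).1) (C.flag f r).2

/-- the neighbour of a tile across the face `k` -/
def step (x : G × Fin n) (k : Fin 4) : G × Fin n := (x.1 * C.h x.2 k, C.nb x.2 k)

/-- adjacency of tiles -/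
def Adj (x y : G × Fin n) : Prop := ∃ k, y = C.step x k

end Comb

/-- The hypotheses of the tiling theorem. -/
structure Good {G : Type*} [Group G] (ρ : G →* SL(2, ℂ)) {n : ℕ} (C : Comb G n)
    (v : Fin n → Fin 4 → V2) : Prop where
  nb_nb : ∀ i k, C.nb (C.nb i k) (C.s i k k) = i
  h_h : ∀ i k, C.h (C.nb i k) (C.s i k k) = (C.h i k)⁻¹
  s_s : ∀ i k, C.s (C.nb i k) (C.s i k k) = (C.s i k)⁻¹
  odd : ∀ i k, Equiv.Perm.sign (C.s i k) = -1
  /-- the vertices of neighbouring tiles agree up to sign -/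
  vert : ∀ i k l, l ≠ k → (ρ (C.h i k)).1.mulVec (v (C.nb i k) (C.s i k l)) = v i l ∨
    (ρ (C.h i k)).1.mulVec (v (C.nb i k) (C.s i k l)) = -v i l
  vol_pos : ∀ i, 0 < vol (v i)
  /-- Epstein-Penner convexity -/
  convex : ∀ i k, 1 < Ph (v i) (N ((ρ (C.h i k)).1.mulVec (v (C.nb i k) (C.s i k k))))
  /-- the supporting functionals are positive definite -/
  definite : ∀ i, ∃ κ > 0, ∀ P, Pos P → κ * (P.1 + P.2.1) ≤ Ph (v i) P
  /-- every edge closes up after exactly one full turn (the halves of the turn may be counted from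
  any of the flags around the edge) -/
  edge : ∀ (i : Fin n) (π : Equiv.Perm (Fin 4)), Equiv.Perm.sign π = 1 →
    ∃ d r s : ℕ, 1 ≤ r ∧ r + 1 < d ∧ C.flag (i, π) d = (i, π) ∧ C.hprod (i, π) d = 1 ∧
      (∀ q, 1 ≤ q → q ≤ r → 0 < (C.zprod v (C.flag (i, π) s) q).im) ∧
      (∀ q, r < q → q < d → (C.zprod v (C.flag (i, π) s) q).im < 0)
  /-- all tiles are connected with a base tile -/
  conn : ∃ i₀, ∀ x : G × Fin n, Relation.ReflTransGen C.Adj (1, i₀) x
  /-- all ideal vertices are equivalent to the vector `(1, 0)` -/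
  cusp : ∀ i k, ∃ g : G, v i k = (ρ g).1.mulVec ![1, 0] ∨ v i k = -(ρ g).1.mulVec ![1, 0]

/-- the point `P` seen from the tile `x` -/
noncomputable def rel {G : Type*} [Group G] (ρ : G →* SL(2, ℂ)) {n : ℕ} (x : G × Fin n)
    (P : Herm) : Herm := hact (ρ x.1⁻¹) P

/-- one reduction step: cross a face which separates the tile from `P` -/
def Red {G : Type*} [Group G] (ρ : G →* SL(2, ℂ)) {n : ℕ} (C : Comb G n)
    (v : Fin n → Fin 4 → V2) (P : Herm) (x y : G × Fin n) : Prop :=
  ∃ k, co (v x.2) k (rel ρ x P) < 0 ∧ y = C.step x k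

end TorMut.Tile
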