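import Pool.Agent.Lib.MP_407fc5_gt.T10

/-!
# T11: the representation of the second knot group and equality of Wada's invariants (90 minutes)

* `exists_phi`: `eps` defines a surjective homomorphism to `Multiplicative ℤ` (`exists_hom` with
  `g k = Multiplicative.ofAdd (eps k)`; the relators are trivial by `decide`/`rfl`: `run` in the
  commutative group `Multiplicative ℤ`; use `simp [run, D₁, top, …]` or evaluate exponents).
* `alpha2`: given `α₁` put `g k = α₁ (mer D₁ k)` for `k < 3`, `g 4 = h⁻¹ γ2 h`, `g 3 = E (g 4)⁻¹` as in `fox_det_eq`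
  (all in `SL(2, ℂ)`), `a = g-colours …`.  The relators of `D₂` are trivial: `run_append`, `run_box2`,
  `mSL_props`, `key_one`, `rel_box1`, `rel_box2`, `box_eq`, and `run_eq_one` for `D₁`.
* `wada_eq`: apply `fox_det_eq` to `Φ k = twist α₁ φ₁ t (mer D₁ k)`: the scalars cancel in the products
  `A`, `B`, `C` (`eps`-exponents of `tc 0 * tc 1` etc. are zero; the scalar matrices are central), the
  relators are trivial because `twist` is a homomorphism (`run_eq_one`), `Φ' k = twist α₂ φ₂ t (mer D₂ k)`.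
  The denominators agree since `mer 0` has the same image.
-/

namespace TorMut

open Matrix MatrixGroups

section aux
variable {G H : Type*} [Group G] [Group H]

lemma t11_list6 (l : List G) (h : l.length = 6) :
    l = [l.getD 0 1, l.getD 1 1, l.getD 2 1, l.getD 3 1, l.getD 4 1, l.getD 5 1] := by
  match l, h with
  | [a, b, c, d, e, f], _ => rfl

omit [Group G] in
lemma t11_ok_top : OK ([] : List G).length top := by
  simp [OK, top, Layer.ok, Layer.out]

lemma t11_top_out (g : ℕ → G) :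
    (run g 0 [] top).1 = [tc g 0, tc g 1, tc g 2, tc g 3, tc g 4, tc g 5] := by
  apply t11_list6
  rw [run_length g 0 [] top t11_ok_top]
  rfl

lemma t11_top_rel (g : ℕ → G) : (run g 0 [] top).2 = [] := by
  simp [run, top]

lemma t11_births_top : births top = 3 := rfl

lemma t11_births_box1 : births box1 = 2 := rfl

lemma t11_births_box2 : births box2 = 2 := rfl

lemma t11_births_bot : births bot = 0 := rfl

lemma t11_births₁ : births D₁ = 5 := rfl

lemma t11_births₂ : births D₂ = 5 := rfl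

/-- the relators of a knot with the given box -/
lemma t11_rel (g : ℕ → G) (box : Word) (hb : births box = 2) :
    (run g 0 [] (top ++ box ++ bot)).2 =
      (run g 3 [tc g 0, tc g 1, tc g 2, tc g 3, tc g 4, tc g 5] box).2 ++
        (run g 5 (run g 3 [tc g 0, tc g 1, tc g 2, tc g 3, tc g 4, tc g 5] box).1 bot).2 := by
  rw [List.append_assoc, run_append, run_append, t11_top_out, t11_top_rel, t11_births_top, hb]
  simp

lemma t11_tc_map (f : G →* H) (g : ℕ → G) (j : ℕ) : tc (fun k => f (g k)) j = f (tc g j) := by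
  unfold tc
  have h := run_map f g 0 [] top
  rw [List.map_nil] at h
  rw [h]
  simp only
  rw [List.getD_eq_getElem?_getD, List.getD_eq_getElem?_getD, List.getElem?_map]
  cases (run g 0 [] top).1[j]? with
  | none => simp
  | some x => simp

lemma t11_tc_congr (g g' : ℕ → G) (h : ∀ k, k < 3 → g k = g' k) (j : ℕ) : tc g j = tc g' j := by
  unfold tc
  rw [run_congr g g' 0 [] top]
  intro n _ hn
  apply h
  rw [t11_births_top] at hn
  omega

end aux

lemma t11_surj {L : Type*} [Group L] (φ : L →* Multiplicative ℤ) (x : L)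
    (h : φ x = Multiplicative.ofAdd 1) : Function.Surjective φ := by
  intro y
  refine ⟨x ^ (Multiplicative.toAdd y), ?_⟩
  rw [map_zpow, h, ← ofAdd_zsmul]
  simp

theorem exists_phi₁ : ∃ φ : LinkGroup D₁ →* Multiplicative ℤ, Function.Surjective φ ∧
    ∀ k, k < 5 → φ (mer D₁ k) = Multiplicative.ofAdd (eps k) := by
  have h : ∀ r ∈ (run (fun k => Multiplicative.ofAdd (eps k)) 0 [] D₁).2, r = 1 := by
    decide
  obtain ⟨φ, hφ⟩ := exists_hom D₁ (fun k => Multiplicative.ofAdd (eps k)) h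
  have hφ' : ∀ k, k < 5 → φ (mer D₁ k) = Multiplicative.ofAdd (eps k) :=
    fun k hk => hφ k (by rw [t11_births₁]; exact hk)
  exact ⟨φ, t11_surj φ (mer D₁ 0) (hφ' 0 (by norm_num)), hφ'⟩

theorem exists_phi₂ : ∃ φ : LinkGroup D₂ →* Multiplicative ℤ, Function.Surjective φ ∧
    ∀ k, k < 5 → φ (mer D₂ k) = Multiplicative.ofAdd (eps k) := by
  have h : ∀ r ∈ (run (fun k => Multiplicative.ofAdd (eps k)) 0 [] D₂).2, r = 1 := by
    decide
  obtain ⟨φ, hφ⟩ := exists_hom D₂ (fun k => Multiplicative.ofAdd (eps k)) h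
  have hφ' : ∀ k, k < 5 → φ (mer D₂ k) = Multiplicative.ofAdd (eps k) :=
    fun k hk => hφ k (by rw [t11_births₂]; exact hk)
  exact ⟨φ, t11_surj φ (mer D₂ 0) (hφ' 0 (by norm_num)), hφ'⟩

/-- colours of the second knot in terms of those of the first (in any group `SL(2, F)`) -/
noncomputable def second (g : ℕ → SL(2, ℂ)) : ℕ → SL(2, ℂ) := fun k =>
  let a := tc g 0 * tc g 1
  let b := tc g 2 * tc g 3
  let c := g 3 * g 4
  let E := a⁻¹ * c⁻¹ * mSL a b c
  let h := a * E * a * E⁻¹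
  let e2 := h⁻¹ * ((c⁻¹ * a⁻¹ * c) * g 4 * (c⁻¹ * a⁻¹ * c)⁻¹) * h
  if k < 3 then g k else if k = 3 then E * e2⁻¹ else e2

/-- the trace condition -/
def TraceOK (g : ℕ → SL(2, ℂ)) : Prop :=
  ((g 3 * g 4) * (tc g 0 * tc g 1) * (tc g 2 * tc g 3) * (g 3 * g 4)⁻¹).1.trace ≠ 2

theorem exists_alpha2 (α₁ : LinkGroup D₁ →* SL(2, ℂ)) (ht : TraceOK fun k => α₁ (mer D₁ k)) :
    ∃ α₂ : LinkGroup D₂ →* SL(2, ℂ),
      ∀ k, k < 5 → α₂ (mer D₂ k) = second (fun k => α₁ (mer D₁ k)) k := by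
  set g : ℕ → SL(2, ℂ) := fun k => α₁ (mer D₁ k) with hg
  -- notation
  obtain ⟨a, ha⟩ : ∃ a, a = tc g 0 * tc g 1 := ⟨_, rfl⟩
  obtain ⟨b, hb⟩ : ∃ b, b = tc g 2 * tc g 3 := ⟨_, rfl⟩
  obtain ⟨c, hc⟩ : ∃ c, c = g 3 * g 4 := ⟨_, rfl⟩
  obtain ⟨m, hm⟩ : ∃ m, m = mSL a b c := ⟨_, rfl⟩
  obtain ⟨E, hE⟩ : ∃ E, E = a⁻¹ * c⁻¹ * m := ⟨_, rfl⟩
  obtain ⟨h, hh⟩ : ∃ h, h = a * E * a * E⁻¹ := ⟨_, rfl⟩
  obtain ⟨e2, he2⟩ : ∃ e2, e2 = h⁻¹ * ((c⁻¹ * a⁻¹ * c) * g 4 * (c⁻¹ * a⁻¹ * c)⁻¹) * h :=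
    ⟨_, rfl⟩
  obtain ⟨e1, he1⟩ : ∃ e1, e1 = E * e2⁻¹ := ⟨_, rfl⟩
  obtain ⟨g', hg'⟩ : ∃ g', g' = second g := ⟨_, rfl⟩
  have hsec : ∀ k, g' k = if k < 3 then g k else if k = 3 then e1 else e2 := by
    intro k
    rw [hg']
    unfold second
    simp only
    rw [← ha, ← hb, ← hc, ← hm, ← hE, ← hh, ← he2, ← he1]
  have g'3 : g' 3 = e1 := by rw [hsec]; norm_num
  have g'4 : g' 4 = e2 := by rw [hsec]; norm_num
  have g'lt : ∀ k, k < 3 → g' k = g k := by
    intro k hk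
    rw [hsec, if_pos hk]
  have htr : (c * a * b * c⁻¹).1.trace ≠ 2 := by
    have h1 : c * a * b * c⁻¹ = (g 3 * g 4) * (tc g 0 * tc g 1) * (tc g 2 * tc g 3) *
        (g 3 * g 4)⁻¹ := by rw [hc, ha, hb]
    rw [h1]
    exact ht
  -- the relators of the first knot
  have hR1 : ∀ r ∈ (run g 0 [] D₁).2, r = 1 := fun r hr => run_eq_one D₁ α₁ r hr
  unfold D₁ at hR1
  rw [t11_rel g box1 t11_births_box1] at hR1
  obtain ⟨U, hU⟩ : ∃ U, U = c * a * b * c⁻¹ := ⟨_, rfl⟩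
  have hbox1 := run_box1 g 3 (tc g 0) (tc g 1) (tc g 2) (tc g 3) [tc g 4, tc g 5] a b c U
    ha hb hc hU
  rw [hbox1] at hR1
  simp only [List.cons_append, List.nil_append, List.forall_mem_cons] at hR1
  obtain ⟨r1, r2, r3⟩ := hR1
  obtain ⟨q1, q2, q3⟩ := rel_box1 (tc g 0) (tc g 1) (tc g 2) (tc g 3) a b U _ ha hb r1 r2
  have hrel : a * (c * a * b * c⁻¹) * b = c * a * b * c⁻¹ := by rw [← hU]; exact q3
  obtain ⟨p1, p2, p3, p4, -, -⟩ := mSL_props a b c hrel htr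
  rw [← hm] at p1 p2 p3 p4
  have hk1 := key_one a b c m p1
  rw [← hE, ← hU] at hk1
  obtain ⟨o0, o1, o2, o3, o4⟩ := box_eq a b m (g 3) (g 4) c E h e1 e2 hc hE hh he2 he1 hrel
    p2 p3 p4
  have hR2 : ∀ r ∈ (run g' 0 [] D₂).2, r = 1 := by
    unfold D₂
    rw [t11_rel g' box2 t11_births_box2]
    simp only [t11_tc_congr g' g g'lt]
    have hbox2 := run_box2 g' 3 (tc g 0) (tc g 1) (tc g 2) (tc g 3) [tc g 4, tc g 5] a b E U
      ha hb (by rw [g'3, g'4, o0]) hk1.symm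
    rw [hbox2, g'3, g'4]
    simp only [List.cons_append, List.nil_append, List.forall_mem_cons]
    obtain ⟨s1, s2⟩ := rel_box2 (tc g 0) (tc g 1) (tc g 2) (tc g 3) a b U (a * E) ha hb q1 q2
    refine ⟨s1, s2, ?_⟩
    rw [← hh, o1, o2, o3, o4]
    rw [run_congr g' g 5 _ bot (fun n h1 h2 => by rw [t11_births_bot] at h2; omega)]
    exact r3
  obtain ⟨α₂, hα₂⟩ := exists_hom D₂ g' hR2
  refine ⟨α₂, fun k hk => ?_⟩
  rw [hα₂ k (by rw [t11_births₂]; exact hk), hg']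

theorem wada_eq (α₁ : LinkGroup D₁ →* SL(2, ℂ)) (ht : TraceOK fun k => α₁ (mer D₁ k))
    (α₂ : LinkGroup D₂ →* SL(2, ℂ))
    (h₂ : ∀ k, k < 5 → α₂ (mer D₂ k) = second (fun k => α₁ (mer D₁ k)) k)
    (φ₁ : LinkGroup D₁ →* Multiplicative ℤ)
    (hφ₁ : ∀ k, k < 5 → φ₁ (mer D₁ k) = Multiplicative.ofAdd (eps k))
    (φ₂ : LinkGroup D₂ →* Multiplicative ℤ)
    (hφ₂ : ∀ k, k < 5 → φ₂ (mer D₂ k) = Multiplicative.ofAdd (eps k)) (t : ℂˣ) :
    wada D₁ α₁ φ₁ t = wada D₂ α₂ φ₂ t := by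
  set g : ℕ → SL(2, ℂ) := fun k => α₁ (mer D₁ k) with hg
  obtain ⟨a, ha⟩ : ∃ a, a = tc g 0 * tc g 1 := ⟨_, rfl⟩
  obtain ⟨b, hb⟩ : ∃ b, b = tc g 2 * tc g 3 := ⟨_, rfl⟩
  obtain ⟨c, hc⟩ : ∃ c, c = g 3 * g 4 := ⟨_, rfl⟩
  obtain ⟨E, hE⟩ : ∃ E, E = a⁻¹ * c⁻¹ * mSL a b c := ⟨_, rfl⟩
  obtain ⟨h', hh⟩ : ∃ h', h' = a * E * a * E⁻¹ := ⟨_, rfl⟩
  obtain ⟨e2, he2⟩ : ∃ e2, e2 = h'⁻¹ * ((c⁻¹ * a⁻¹ * c) * g 4 * (c⁻¹ * a⁻¹ * c)⁻¹) * h' :=
    ⟨_, rfl⟩
  have hsec : ∀ k, second g k = if k < 3 then g k else if k = 3 then E * e2⁻¹ else e2 := by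
    intro k
    unfold second
    simp only
    rw [← ha, ← hb, ← hc, ← hE, ← hh, ← he2]
  have htr : (c * a * b * c⁻¹).1.trace ≠ 2 := by
    have h1 : c * a * b * c⁻¹ = (g 3 * g 4) * (tc g 0 * tc g 1) * (tc g 2 * tc g 3) *
        (g 3 * g 4)⁻¹ := by rw [hc, ha, hb]
    rw [h1]
    exact ht
  have htw : ∀ {L : Type} [Group L] (α : L →* SL(2, ℂ)) (φ : L →* Multiplicative ℤ) (x : L),
      φ x = 1 → twist α φ t x = SpecialLinearGroup.toGL (α x) := by
    intro L _ α φ x hx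
    show GeneralLinearGroup.scalar (Fin 2) (t ^ (Multiplicative.toAdd (φ x))) *
      SpecialLinearGroup.toGL (α x) = _
    rw [hx]
    simp
  have hval : ∀ {L : Type} [Group L] (α : L →* SL(2, ℂ)) (φ : L →* Multiplicative ℤ) (x : L),
      twist α φ t x = GeneralLinearGroup.scalar (Fin 2) (t ^ (Multiplicative.toAdd (φ x))) *
      SpecialLinearGroup.toGL (α x) := fun _ _ _ => rfl
  have hφtc : ∀ j, φ₁ (tc (mer D₁) j) = tc (fun k => Multiplicative.ofAdd (eps k)) j := by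
    intro j
    rw [← t11_tc_map φ₁ (mer D₁) j]
    exact t11_tc_congr _ _ (fun k hk => hφ₁ k (by omega)) j
  have hαtc : ∀ j, α₁ (tc (mer D₁) j) = tc g j := fun j => (t11_tc_map α₁ (mer D₁) j).symm
  have hdet := fox_det_eq (F := ℂ) (by norm_num) (fun k => twist α₁ φ₁ t (mer D₁ k))
    (fun k => twist α₂ φ₂ t (mer D₂ k)) a b c
    (by
      rw [t11_tc_map (twist α₁ φ₁ t) (mer D₁) 0, t11_tc_map (twist α₁ φ₁ t) (mer D₁) 1,
        ← map_mul, htw, map_mul, hαtc, hαtc, ha]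
      rw [map_mul, hφtc, hφtc]
      decide)
    (by
      rw [t11_tc_map (twist α₁ φ₁ t) (mer D₁) 2, t11_tc_map (twist α₁ φ₁ t) (mer D₁) 3,
        ← map_mul, htw, map_mul, hαtc, hαtc, hb]
      rw [map_mul, hφtc, hφtc]
      decide)
    (by
      rw [← map_mul, htw, map_mul, hc]
      rw [map_mul, hφ₁ 3 (by norm_num), hφ₁ 4 (by norm_num)]
      decide)
    htr
    (fun r hr => run_eq_one D₁ (twist α₁ φ₁ t) r hr)
    (by
      intro k hk
      rw [hval, hval, hφ₁ k (by omega), hφ₂ k (by omega), h₂ k (by omega), hsec, if_pos hk])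
    E h' hE hh
    (by
      rw [hval, hval, hφ₁ 4 (by norm_num), hφ₂ 4 (by norm_num), h₂ 4 (by norm_num), hsec,
        if_neg (by norm_num), if_neg (by norm_num), he2]
      have hcomm : ∀ x : GL (Fin 2) ℂ, x * GeneralLinearGroup.scalar (Fin 2)
          (t ^ (Multiplicative.toAdd (Multiplicative.ofAdd (eps 4)))) =
          GeneralLinearGroup.scalar (Fin 2)
          (t ^ (Multiplicative.toAdd (Multiplicative.ofAdd (eps 4)))) * x := fun x =>
        (GeneralLinearGroup.scalar_commute (n := Fin 2) _ x).symm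
      have hg4 : α₁ (mer D₁ 4) = g 4 := rfl
      rw [hg4]
      generalize GeneralLinearGroup.scalar (Fin 2)
          (t ^ (Multiplicative.toAdd (Multiplicative.ofAdd (eps 4)))) = s at hcomm ⊢
      simp only [map_mul, map_inv, mul_assoc]
      simp only [← mul_assoc, hcomm]
      )
    (by
      rw [hval, hval, hφ₂ 3 (by norm_num), hφ₂ 4 (by norm_num), h₂ 3 (by norm_num),
        h₂ 4 (by norm_num), hsec, hsec, if_neg (by norm_num), if_pos rfl,
        if_neg (by norm_num), if_neg (by norm_num)]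
      have h34 : GeneralLinearGroup.scalar (Fin 2)
          (t ^ (Multiplicative.toAdd (Multiplicative.ofAdd (eps 4)))) =
          (GeneralLinearGroup.scalar (Fin 2)
          (t ^ (Multiplicative.toAdd (Multiplicative.ofAdd (eps 3)))))⁻¹ := by
        rw [← map_inv]
        congr 1
      have hcomm : ∀ x : GL (Fin 2) ℂ, x * GeneralLinearGroup.scalar (Fin 2)
          (t ^ (Multiplicative.toAdd (Multiplicative.ofAdd (eps 3)))) =
          GeneralLinearGroup.scalar (Fin 2)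
          (t ^ (Multiplicative.toAdd (Multiplicative.ofAdd (eps 3)))) * x := fun x =>
        (GeneralLinearGroup.scalar_commute (n := Fin 2) _ x).symm
      rw [h34]
      generalize GeneralLinearGroup.scalar (Fin 2)
          (t ^ (Multiplicative.toAdd (Multiplicative.ofAdd (eps 3)))) = s at hcomm ⊢
      rw [_root_.mul_inv_rev, inv_inv, ← mul_assoc, hcomm, map_mul, map_inv]
      )
  unfold wada
  have hden : twist α₁ φ₁ t (mer D₁ 0) = twist α₂ φ₂ t (mer D₂ 0) := by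
    rw [hval, hval, hφ₁ 0 (by norm_num), hφ₂ 0 (by norm_num), h₂ 0 (by norm_num), hsec,
      if_pos (by norm_num)]
  rw [hden]
  congr 1

end TorMut
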