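import Pool.Agent.Lib.MP_407fc5_gt.ADefs

/-!
# MP_407fc5_gt, part W: Wada's invariant of the first knot at `t = -1` (definitions)

At `t = -1` the arc `f` acts by `-PV (A f)`.  A crossed homomorphism with values in `ℂ²` is a family of
vectors `y f`, i.e. `X f ↦ (x ↦ - PV (A f) x + y f)` in the affine group; the eight columns of the Fox
Jacobian are treated together, the index `2 j + s` stands for the column `(j, s)`.
-/

namespace TorMut

open Tile Matrix MatrixGroups

/-- the linear part `- PV a` -/
noncomputable def nP (a : V2) : GL (Fin 2) ℂ :=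
  GeneralLinearGroup.scalar (Fin 2) (-1 : ℂˣ) * SpecialLinearGroup.toGL (PV a)

/-- translation part of the operation: for `X_n = X_o⁻¹ X_c X_o` it is
`- P_o⁻¹ (y_c - P_c y_o - y_o)`, for `X_n = X_o X_c X_o⁻¹` it is `y_o - P_o (y_c - P_c P_o⁻¹ y_o)` -/
noncomputable def opY (s : Bool) (o c yo yc : V2) : V2 :=
  match s with
  | true => -((PV o)⁻¹).1.mulVec (yc - (PV c).1.mulVec yo - yo)
  | false => yo - (PV o).1.mulVec (yc - (PV c).1.mulVec (((PV o)⁻¹).1.mulVec yo))

/-- spinor and eight translation parts -/
abbrev WV := V2 × (Fin 8 → V2)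

noncomputable def opWV (s : Bool) (o c : WV) : WV :=
  (opV s o.1 c.1, fun j => opY s o.1 c.1 (o.2 j) (c.2 j))

/-- values at the maxima: the column `2 j + s` has the value `e_s` at the generator `j + 1`; if the
sign is negative, the arc is the inverse of the generator and the translation part is `PV b e_s` -/
noncomputable def bWV (x : E7) (k : ℕ) : WV :=
  (bV x k, fun q =>
    if k = q.1 / 2 + 1 then
      (match sg k with
        | true => Pi.single (Fin.ofNat 2 q.1) 1
        | false => (PV (bV x k)).1.mulVec (Pi.single (Fin.ofNat 2 q.1) 1))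
    else 0)

/-- the same for balls -/
abbrev WB := VB × List VB

def negV : VB → VB
  | (x, y) => (CB.neg x, CB.neg y)

def opYB (s : Bool) (o c yo yc : VB) : VB :=
  match s with
  | true => fV (PB true c yo) fun u => fV (subV (subV yc u) yo) fun w => negV (PB false o w)
  | false => fV (PB false o yo) fun u => fV (PB true c u) fun w => fV (subV yc w) fun w' =>
      subV yo (PB true o w')

def zipV {α : Type*} (f : VB → VB → VB) : List VB → List VB → (List VB → α) → α
  | a :: s, b :: t, k => fV (f a b) fun x => zipV f s t fun l => k (x :: l)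
  | [], _, k => k []
  | _ :: _, [], k => k []

def opW (s : Bool) (o c : WB) : WB :=
  match o, c with
  | (a, yo), (b, yc) => fV (opB s a b) fun x => zipV (opYB s a b) yo yc fun l => (x, l)

def e0B : VB := (CB.one, CB.zero)
def e1B : VB := (CB.zero, CB.one)

def bW : ℕ → WB
  | 0 => (bB xBK 0, [vb0, vb0, vb0, vb0, vb0, vb0, vb0, vb0])
  | 1 => (bB xBK 1, [PB true (bB xBK 1) e0B, PB true (bB xBK 1) e1B, vb0, vb0, vb0, vb0, vb0, vb0])
  | 2 => (bB xBK 2, [vb0, vb0, PB true (bB xBK 2) e0B, PB true (bB xBK 2) e1B, vb0, vb0, vb0, vb0])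
  | 3 => (bB xBK 3, [vb0, vb0, vb0, vb0, e0B, e1B, vb0, vb0])
  | _ => (bB xBK 4, [vb0, vb0, vb0, vb0, vb0, vb0, PB true (bB xBK 4) e0B, PB true (bB xBK 4) e1B])

def frcW (x : WB) (k : WB → List WB) : List WB :=
  match x with
  | (a, l) => fV a fun a' => zipV (fun u _ => u) l l fun l' => k (a', l')

def arcsW : List WB := evalR frcW opW bW (vb0, []) R₁ 0 []

/-- the first four relators: `X21⁻¹ X32`, `X22 X34⁻¹`, `X35⁻¹ X3`, `X37 X6⁻¹` -/
def relW (s : Bool) (p q : WB) : List VB :=
  match s with
  | true => zipV (fun y z => subV y (PB true p.1 (PB false q.1 z))) p.2 q.2 fun l => l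
  | false => zipV (fun y z => negV (PB false p.1 (subV z y))) p.2 q.2 fun l => l

/-- the rows of the Jacobian: `2 i + r` is the component `r` of the relator `i` -/
def rowsW : List (List CB) :=
  let n := nth ((vb0, []) : WB) arcsW
  [(relW false (n 21) (n 32)), (relW true (n 22) (n 34)), (relW false (n 35) (n 3)),
    (relW true (n 37) (n 6))].flatMap fun l => [l.map fun v => v.1, l.map fun v => v.2]

/-- the row sums of `1 - A J` are less than `1` -/
def wadaOK (A : List (List CB)) : Bool :=
  let J := rowsW
  (List.range 8).all fun i =>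
    Nat.blt (((List.range 8).map fun j =>
      CB.up (CB.sub (match Nat.beq i j with | true => CB.one | false => CB.zero)
        (dotB (A.getD i []) (J.map fun r => r.getD j CB.zero) CB.zero))).foldl Nat.add 0)
      (Nat.pow 2 sc)

end TorMut
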