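import Pool.Agent.Lib.MP_407fc5_gt.ODefs
import Pool.Agent.Lib.MP_407fc5_gt.WDefs
import Pool.Agent.Lib.MP_407fc5_gt.T11

/-!
# MP_407fc5_gt: representations with enclosures (definitions)
-/

namespace TorMut

open Tile Matrix MatrixGroups

/-- a representation of the group of the knot `D`, the meridians of the arcs, their spinors, and
enclosures of the spinors -/
structure Rep (D : Word) (R : List Arc) (caps : List (ℕ × ℕ)) (AB : ℕ → VB)
    (α : LinkGroup D →* SL(2, ℂ)) (X : ℕ → LinkGroup D) (A : ℕ → V2) : Prop where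
  frame : Frame X α A R caps
  sol : IsSol opG (ori sg (mer D)) R X
  mem : ∀ f, f < 38 → MemV (A f) (AB f)

/-- the element which conjugates the meridians at the maxima `3`, `4` of the first knot into those of
the second knot -/
noncomputable def kap (g : ℕ → SL(2, ℂ)) : SL(2, ℂ) :=
  (tc g 0 * tc g 1)⁻¹ * (g 3 * g 4)⁻¹ *
    mSL (tc g 0 * tc g 1) (tc g 2 * tc g 3) (g 3 * g 4) ^ 2 * (tc g 0 * tc g 1) *
    mSL (tc g 0 * tc g 1) (tc g 2 * tc g 3) (g 3 * g 4) * (g 3 * g 4)

/-- spinors of the maxima of the second knot -/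
noncomputable def bV2 (x : E7) (κ : SL(2, ℂ)) : ℕ → V2
  | 0 => bV x 0
  | 1 => bV x 1
  | 2 => bV x 2
  | 3 => κ.1.mulVec (bV x 3)
  | _ => κ.1.mulVec (bV x 4)

end TorMut
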