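import Pool.Agent.Lib.MP_407fc5_gt.SDefs
import Pool.Agent.Lib.MP_407fc5_gt.B01

/-!
# S01: slopes, ring operations (about 50 minutes)

Product rule: `q x p x - q y p y = q x (p x - p y) + (q x - q y) p y`, so the slopes are
`q x * τ j + σ j * p y`.  `zipF` is `List.zipWith` (both lists have length 7).
-/

namespace TorMut

open Tile

theorem zipF_eq {α : Type*} (f : CB → CB → CB) (s t : List CB) (k : List CB → α) :
    zipF f s t k = k (List.zipWith f s t) := by
  induction s generalizing t k with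
  | nil => cases t <;> rfl
  | cons a s ih =>
    cases t with
    | nil => rfl
    | cons b t =>
      rw [zipF, fC_eq, ih]
      rfl

theorem fL_eq {α : Type*} (l : List CB) (k : List CB → α) : fL l k = k l := by
  induction l generalizing k with
  | nil => rfl
  | cons a l ih => rw [fL, fC_eq, ih]

theorem S01_add {α : Type*} (b c : SB) (k : SB → α) :
    SB.addF b c k = k ⟨CB.add b.v c.v, List.zipWith CB.add b.s c.s⟩ := by
  obtain ⟨v, s⟩ := b
  obtain ⟨w, t⟩ := c
  change fC (CB.add v w) (fun x => zipF CB.add s t fun l => k ⟨x, l⟩) = _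
  rw [fC_eq, zipF_eq]

theorem S01_sub {α : Type*} (b c : SB) (k : SB → α) :
    SB.subF b c k = k ⟨CB.sub b.v c.v, List.zipWith CB.sub b.s c.s⟩ := by
  obtain ⟨v, s⟩ := b
  obtain ⟨w, t⟩ := c
  change fC (CB.sub v w) (fun x => zipF CB.sub s t fun l => k ⟨x, l⟩) = _
  rw [fC_eq, zipF_eq]

theorem S01_mul {α : Type*} (b c : SB) (k : SB → α) :
    SB.mulF b c k = k ⟨CB.mul b.v c.v,
      List.zipWith (fun p q => CB.add (CB.mul b.v q) (CB.mul p c.v)) b.s c.s⟩ := by
  obtain ⟨v, s⟩ := b
  obtain ⟨w, t⟩ := c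
  change fC (CB.mul v w) (fun x =>
    zipF (fun p q => CB.add (CB.mul v q) (CB.mul p w)) s t fun l => k ⟨x, l⟩) = _
  rw [fC_eq, zipF_eq]

theorem S01_getD (f : CB → CB → CB) (s t : List CB) (hs : s.length = 7) (ht : t.length = 7)
    (j : Fin 7) (d : CB) :
    (List.zipWith f s t).getD j d = f (s.getD j d) (t.getD j d) := by
  have h1 : j.1 < s.length := by
    rw [hs]
    exact j.2
  have h2 : j.1 < t.length := by
    rw [ht]
    exact j.2
  have h3 : j.1 < (List.zipWith f s t).length := by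
    rw [List.length_zipWith]
    omega
  rw [List.getD_eq_getElem _ _ h3, List.getD_eq_getElem _ _ h1, List.getD_eq_getElem _ _ h2,
    List.getElem_zipWith]

theorem addF_eq {α : Type*} (b c : SB) (k : SB → α) :
    SB.addF b c k = k (SB.addF b c fun x => x) := by
  rw [S01_add, S01_add]

theorem subF_eq {α : Type*} (b c : SB) (k : SB → α) :
    SB.subF b c k = k (SB.subF b c fun x => x) := by
  rw [S01_sub, S01_sub]

theorem mulF_eq {α : Type*} (b c : SB) (k : SB → α) :
    SB.mulF b c k = k (SB.mulF b c fun x => x) := by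
  rw [S01_mul, S01_mul]

variable {xB : List CB} {q p : E7 → ℂ} {b c : SB}

theorem smem_add (hq : SMem xB q b) (hp : SMem xB p c) :
    SMem xB (fun x => q x + p x) (SB.addF b c fun x => x) := by
  rw [S01_add]
  refine ⟨fun x hx => mem_add (hq.1 x hx) (hp.1 x hx), ?_, fun x hx y hy => ?_⟩
  · rw [List.length_zipWith, hq.2.1, hp.2.1]
    rfl
  · obtain ⟨σ, hσ, h1⟩ := hq.2.2 x hx y hy
    obtain ⟨τ, hτ, h2⟩ := hp.2.2 x hx y hy
    refine ⟨fun j => σ j + τ j, fun j => ?_, ?_⟩
    · rw [S01_getD _ _ _ hq.2.1 hp.2.1]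
      exact mem_add (hσ j) (hτ j)
    · have h3 : ∑ j, (σ j + τ j) * (x j - y j)
          = (∑ j, σ j * (x j - y j)) + ∑ j, τ j * (x j - y j) := by
        rw [← Finset.sum_add_distrib]
        refine Finset.sum_congr rfl fun j _ => ?_
        ring
      rw [h3, ← h1, ← h2]
      ring

theorem smem_sub (hq : SMem xB q b) (hp : SMem xB p c) :
    SMem xB (fun x => q x - p x) (SB.subF b c fun x => x) := by
  rw [S01_sub]
  refine ⟨fun x hx => mem_sub (hq.1 x hx) (hp.1 x hx), ?_, fun x hx y hy => ?_⟩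
  · rw [List.length_zipWith, hq.2.1, hp.2.1]
    rfl
  · obtain ⟨σ, hσ, h1⟩ := hq.2.2 x hx y hy
    obtain ⟨τ, hτ, h2⟩ := hp.2.2 x hx y hy
    refine ⟨fun j => σ j - τ j, fun j => ?_, ?_⟩
    · rw [S01_getD _ _ _ hq.2.1 hp.2.1]
      exact mem_sub (hσ j) (hτ j)
    · have h3 : ∑ j, (σ j - τ j) * (x j - y j)
          = (∑ j, σ j * (x j - y j)) - ∑ j, τ j * (x j - y j) := by
        rw [← Finset.sum_sub_distrib]
        refine Finset.sum_congr rfl fun j _ => ?_
        ring
      rw [h3, ← h1, ← h2]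
      ring

theorem smem_mul (hq : SMem xB q b) (hp : SMem xB p c) :
    SMem xB (fun x => q x * p x) (SB.mulF b c fun x => x) := by
  rw [S01_mul]
  refine ⟨fun x hx => mem_mul (hq.1 x hx) (hp.1 x hx), ?_, fun x hx y hy => ?_⟩
  · rw [List.length_zipWith, hq.2.1, hp.2.1]
    rfl
  · obtain ⟨σ, hσ, h1⟩ := hq.2.2 x hx y hy
    obtain ⟨τ, hτ, h2⟩ := hp.2.2 x hx y hy
    refine ⟨fun j => q x * τ j + σ j * p y, fun j => ?_, ?_⟩
    · rw [S01_getD _ _ _ hq.2.1 hp.2.1]
      exact mem_add (mem_mul (hq.1 x hx) (hτ j)) (mem_mul (hσ j) (hp.1 y hy))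
    · have h3 : ∑ j, (q x * τ j + σ j * p y) * (x j - y j)
          = q x * (∑ j, τ j * (x j - y j)) + (∑ j, σ j * (x j - y j)) * p y := by
        rw [Finset.mul_sum, Finset.sum_mul, ← Finset.sum_add_distrib]
        refine Finset.sum_congr rfl fun j _ => ?_
        ring
      rw [h3, ← h1, ← h2]
      ring

theorem smem_const (z : ℂ) (v : CB) (h : Mem z v) : SMem xB (fun _ => z) (constS v) := by
  refine ⟨fun _ _ => h, rfl, fun x _ y _ => ⟨fun _ => 0, fun j => ?_, ?_⟩⟩
  · fin_cases j <;> exact mem_zero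
  · simp

theorem smem_var (j : Fin 7) : SMem xB (fun x => x j) (varS xB j.1) := by
  refine ⟨fun x hx => hx j, ?_, fun x _ y _ => ⟨fun i => if i = j then 1 else 0, fun i => ?_, ?_⟩⟩
  · unfold varS
    rw [List.length_map, List.length_range]
  · have h1 : (varS xB j.1).s.getD i CB.zero = if i = j then CB.one else CB.zero := by
      fin_cases i <;> fin_cases j <;> rfl
    rw [h1]
    change Mem (if i = j then 1 else 0) _
    by_cases hij : i = j
    · rw [if_pos hij, if_pos hij]
      exact mem_one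
    · rw [if_neg hij, if_neg hij]
      exact mem_zero
  · simp

end TorMut
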