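import Pool.Agent.Lib.MP_407fc5_gt.S01

/-!
# S02: slopes of the quandle operation and of the spinors of the maxima (about 30 minutes)
-/

namespace TorMut

open Tile

variable {xB : List CB}

theorem DtS_eq {α : Type*} (u v : SV) (k : SB → α) : DtS u v k = k (DtS u v fun x => x) := by
  obtain ⟨u0, u1⟩ := u
  obtain ⟨v0, v1⟩ := v
  simp only [DtS]
  rw [mulF_eq u0 v1, mulF_eq u1 v0, subF_eq]
  conv_rhs => rw [mulF_eq u0 v1, mulF_eq u1 v0]

theorem smem_Dt {p q : E7 → V2} {u v : SV} (hu : SMemV xB p u) (hv : SMemV xB q v) :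
    SMem xB (fun x => Dt (p x) (q x)) (DtS u v fun x => x) := by
  obtain ⟨u0, u1⟩ := u
  obtain ⟨v0, v1⟩ := v
  simp only [DtS]
  rw [mulF_eq u0 v1, mulF_eq u1 v0]
  exact smem_sub (smem_mul hu.1 hv.2) (smem_mul hu.2 hv.1)

theorem smemV_op (s : Bool) {o c : E7 → V2} {u v : SV} (ho : SMemV xB o u) (hc : SMemV xB c v) :
    SMemV xB (fun x => opV s (o x) (c x)) (opS s u v) := by
  have hd := smem_Dt ho hc
  unfold opS opSF
  rw [DtS_eq]
  generalize (DtS u v fun x => x) = d at hd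
  obtain ⟨u0, u1⟩ := u
  obtain ⟨v0, v1⟩ := v
  simp only
  rw [mulF_eq d u0, mulF_eq d u1]
  cases s
  · simp only
    rw [addF_eq v0, addF_eq v1]
    exact ⟨smem_add hc.1 (smem_mul hd ho.1), smem_add hc.2 (smem_mul hd ho.2)⟩
  · simp only
    rw [subF_eq v0, subF_eq v1]
    exact ⟨smem_sub hc.1 (smem_mul hd ho.1), smem_sub hc.2 (smem_mul hd ho.2)⟩

theorem frcS_eq (x : SV) (k : SV → List SV) : frcS x k = k x := rfl

theorem smemV_bS (k : ℕ) : SMemV xB (fun x => bV x k) (bS xB k) := by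
  match k with
  | 0 => exact ⟨smem_const 1 _ mem_one, smem_const 0 _ mem_zero⟩
  | 1 => exact ⟨smem_const 0 _ mem_zero, smem_var 0⟩
  | 2 => exact ⟨smem_var 1, smem_var 2⟩
  | 3 => exact ⟨smem_var 3, smem_var 4⟩
  | _ + 4 => exact ⟨smem_var 5, smem_var 6⟩

theorem memV_bB (x : E7) (hx : x ∈ Box xB) (k : ℕ) : MemV (bV x k) (bB xB k) := by
  match k with
  | 0 => exact ⟨mem_one, mem_zero⟩
  | 1 => exact ⟨mem_zero, hx 0⟩
  | 2 => exact ⟨hx 1, hx 2⟩
  | 3 => exact ⟨hx 3, hx 4⟩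
  | _ + 4 => exact ⟨hx 5, hx 6⟩

/-- the seven equations -/
theorem smem_F7 (A : ℕ → E7 → V2) (L : ℕ → SV) (hA : ∀ f < 38, SMemV xB (A f) (L f))
    (k : List SB → Bool) (hk : F7S L k = true) :
    ∃ E : List SB, k E = true ∧ E.length = 7 ∧
      ∀ i : Fin 7, SMem xB (fun x => F7 (fun f => A f x) i) (E.getD i.1 ⟨CB.zero, []⟩) := by
  unfold F7S at hk
  rw [addF_eq, addF_eq, addF_eq, addF_eq, subF_eq, subF_eq, DtS_eq] at hk
  refine ⟨_, hk, rfl, ?_⟩
  intro i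
  fin_cases i
  · exact smem_add (hA 21 (by norm_num)).1 (hA 32 (by norm_num)).1
  · exact smem_add (hA 21 (by norm_num)).2 (hA 32 (by norm_num)).2
  · exact smem_add (hA 22 (by norm_num)).1 (hA 34 (by norm_num)).1
  · exact smem_add (hA 22 (by norm_num)).2 (hA 34 (by norm_num)).2
  · exact smem_sub (hA 35 (by norm_num)).1 (hA 3 (by norm_num)).1
  · exact smem_sub (hA 35 (by norm_num)).2 (hA 3 (by norm_num)).2
  · exact smem_Dt (hA 37 (by norm_num)) (hA 6 (by norm_num))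

end TorMut
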