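import Mathlib

/-!
# S03: the theorem of Krawczyk (about 60 minutes)

`N x = x - A (f x)` maps the closed box to itself and contracts it with the factor `1 / 2`
(`N x - N y = (1 - A S)(x - y)`), so it has a fixed point (`ContractingWith.exists_fixedPoint'` or the
version for complete subsets; the sup norm on `Fin n → ℂ`), at which `A (f x) = 0`.  `A` is injective:
`‖1 - A S‖ < 1` in the operator norm for the sup norm, so `A S` is injective, so `det A ≠ 0`
(`near_one`).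
-/

namespace TorMut

open Matrix

/-- a matrix near the identity is invertible -/
theorem near_one {n : Type*} [Fintype n] [DecidableEq n] (M : Matrix n n ℂ)
    (h : ∀ i, ∑ j, ‖(1 - M) i j‖ < 1) : M.det ≠ 0 := by
  intro hdet
  obtain ⟨v, hv0, hv⟩ := Matrix.exists_mulVec_eq_zero_iff.2 hdet
  obtain ⟨i₁, hi₁⟩ := Function.ne_iff.1 hv0
  have : Nonempty n := ⟨i₁⟩
  obtain ⟨i, hi⟩ := Finite.exists_max (fun i => ‖v i‖)
  have hpos : 0 < ‖v i‖ := lt_of_lt_of_le (norm_pos_iff.2 hi₁) (hi i₁)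
  have h1 : v i = ∑ j, (1 - M) i j * v j := by
    have h2 : ((1 - M).mulVec v) i = v i := by
      rw [Matrix.sub_mulVec, Matrix.one_mulVec, hv, sub_zero]
    exact h2.symm
  have h3 : ‖v i‖ ≤ (∑ j, ‖(1 - M) i j‖) * ‖v i‖ := by
    conv_lhs => rw [h1]
    rw [Finset.sum_mul]
    refine (norm_sum_le _ _).trans (Finset.sum_le_sum fun j _ => ?_)
    rw [norm_mul]
    exact mul_le_mul_of_nonneg_left (hi j) (norm_nonneg _)
  have h4 := h i
  nlinarith

theorem s03_bound {n : ℕ} (M : Matrix (Fin n) (Fin n) ℂ) (q t : ℝ) (ht : 0 ≤ t)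
    (h : ∀ i, ∑ j, ‖M i j‖ ≤ q) (v : Fin n → ℂ) (hv : ∀ j, ‖v j‖ ≤ t) (i : Fin n) :
    ‖(M.mulVec v) i‖ ≤ q * t := by
  change ‖∑ j, M i j * v j‖ ≤ _
  calc ‖∑ j, M i j * v j‖ ≤ ∑ j, ‖M i j‖ * t := by
        refine (norm_sum_le _ _).trans (Finset.sum_le_sum fun j _ => ?_)
        rw [norm_mul]
        exact mul_le_mul_of_nonneg_left (hv j) (norm_nonneg _)
    _ = (∑ j, ‖M i j‖) * t := by rw [Finset.sum_mul]
    _ ≤ q * t := mul_le_mul_of_nonneg_right (h i) ht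

theorem krawczyk {n : ℕ} (c : Fin n → ℂ) (r : ℝ) (hr : 0 < r) (f : (Fin n → ℂ) → (Fin n → ℂ))
    (A : Matrix (Fin n) (Fin n) ℂ)
    (h1 : ∀ x y : Fin n → ℂ, (∀ j, ‖x j - c j‖ ≤ r) → (∀ j, ‖y j - c j‖ ≤ r) →
      ∃ S : Matrix (Fin n) (Fin n) ℂ, f x - f y = S.mulVec (x - y) ∧
        ∀ i, ∑ j, ‖(1 - A * S) i j‖ ≤ 1 / 2)
    (h2 : ∀ i, ‖(A.mulVec (f c)) i‖ ≤ r / 2) :
    ∃ x : Fin n → ℂ, (∀ j, ‖x j - c j‖ ≤ r) ∧ f x = 0 := by
  have hball : ∀ x : Fin n → ℂ, x ∈ Metric.closedBall c r ↔ ∀ j, ‖x j - c j‖ ≤ r := by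
    intro x
    rw [mem_closedBall_iff_norm, pi_norm_le_iff_of_nonneg hr.le]
    rfl
  -- the iteration
  let N : (Fin n → ℂ) → (Fin n → ℂ) := fun x => x - A.mulVec (f x)
  have hN : ∀ x y : Fin n → ℂ, (∀ j, ‖x j - c j‖ ≤ r) → (∀ j, ‖y j - c j‖ ≤ r) →
      ‖N x - N y‖ ≤ 1 / 2 * ‖x - y‖ := by
    intro x y hx hy
    obtain ⟨S, hS, hS2⟩ := h1 x y hx hy
    have e1 : N x - N y = (1 - A * S).mulVec (x - y) := by
      rw [Matrix.sub_mulVec, Matrix.one_mulVec, ← Matrix.mulVec_mulVec, ← hS, Matrix.mulVec_sub]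
      change x - A.mulVec (f x) - (y - A.mulVec (f y)) = _
      abel
    rw [e1, pi_norm_le_iff_of_nonneg (by positivity)]
    intro i
    exact s03_bound _ _ _ (norm_nonneg _) hS2 _ (fun j => norm_le_pi_norm (x - y) j) i
  have hcc : ∀ j, ‖c j - c j‖ ≤ r := fun j => by rw [sub_self, norm_zero]; exact hr.le
  have hmaps : Set.MapsTo N (Metric.closedBall c r) (Metric.closedBall c r) := by
    intro x hx
    have hx' := (hball x).1 hx
    rw [mem_closedBall_iff_norm] at hx ⊢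
    have e2 : N x - c = (N x - N c) + (N c - c) := by abel
    have e3 : ‖N c - c‖ ≤ r / 2 := by
      have e4 : N c - c = -(A.mulVec (f c)) := by
        change c - A.mulVec (f c) - c = _
        abel
      rw [e4, norm_neg, pi_norm_le_iff_of_nonneg (by linarith)]
      exact h2
    have e5 := hN x c hx' hcc
    calc ‖N x - c‖ ≤ ‖N x - N c‖ + ‖N c - c‖ := by rw [e2]; exact norm_add_le _ _
      _ ≤ r := by linarith
  have hcontr : ContractingWith (1 / 2 : NNReal) (hmaps.restrict N _ _) := by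
    refine ⟨by
      rw [← NNReal.coe_lt_coe]
      norm_num, ?_⟩
    refine LipschitzWith.of_dist_le_mul ?_
    rintro ⟨x, hx⟩ ⟨y, hy⟩
    have := hN x y ((hball x).1 hx) ((hball y).1 hy)
    rw [Subtype.dist_eq, Subtype.dist_eq, dist_eq_norm, dist_eq_norm]
    change ‖N x - N y‖ ≤ ((1 / 2 : NNReal) : ℝ) * ‖x - y‖
    have e6 : ((1 / 2 : NNReal) : ℝ) = 1 / 2 := by norm_num
    rw [e6]
    exact this
  obtain ⟨x, hx, hfix, -⟩ := hcontr.exists_fixedPoint'
    (Metric.isClosed_closedBall.isComplete) hmaps (Metric.mem_closedBall_self hr.le)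
    (edist_ne_top _ _)
  have hx' := (hball x).1 hx
  refine ⟨x, hx', ?_⟩
  have hA0 : A.mulVec (f x) = 0 := by
    have h3 : x - A.mulVec (f x) = x := hfix
    have h4 : A.mulVec (f x) = x - (x - A.mulVec (f x)) := by abel
    rw [h4, h3, sub_self]
  obtain ⟨S, -, hS2⟩ := h1 x x hx' hx'
  have hdet : (A * S).det ≠ 0 := near_one _ fun i => lt_of_le_of_lt (hS2 i) (by norm_num)
  rw [Matrix.det_mul] at hdet
  have hA : A.det ≠ 0 := left_ne_zero_of_mul hdet
  by_contra hne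
  exact hA (Matrix.exists_mulVec_eq_zero_iff.1 ⟨f x, hne, hA0⟩)

end TorMut
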