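import Pool.Agent.Lib.MP_407fc5_gt.SData

/-!
# S05: Krawczyk's test for the first knot (kernel computation)
-/

namespace TorMut

theorem kraw1_true : kraw1 R₁ xBK aK = true := by decide +kernel

theorem kraw2_true : kraw2 R₁ x0K radK aK = true := by decide +kernel

end TorMut
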