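import Pool.Agent.Lib.MP_407fc5_gt.SData
import Pool.Agent.Lib.MP_407fc5_gt.S02
import Pool.Agent.Lib.MP_407fc5_gt.S03
import Pool.Agent.Lib.MP_407fc5_gt.S05
import Pool.Agent.Lib.MP_407fc5_gt.B02
import Pool.Agent.Lib.MP_407fc5_gt.B03
import Pool.Agent.Lib.MP_407fc5_gt.F02

/-!
# S04: existence of a solution of the seven equations (about 75 minutes)

`krawczyk` with `c j` = the `j`-th entry of `x0K` (midpoint divided by `2^sc`), `r = radK / 2^sc`,
`f x = F7 (the solution of the arc equations with the values `bV x` at the maxima)` (one solution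
`A : ℕ → E7 → V2` for the pointwise operation, from `exists_sol` for the type `E7 → V2`), the matrix
`A` from `aK`.  `h1` from `kraw1 = true` (`kraw1_true` in `S05`): `evalR_rel` with `Rl := SMemV xBK`,
`smem_F7`; the slopes of the seven equations give `S`; `rowsOK` says that the row sums of `1 - A S` are
at most `1 / 2` (`up_sound`).  `h2` from `kraw2 = true`: `evalR_rel` with `Rl := MemV`, at the centre.
-/

namespace TorMut

open Tile

/-- the midpoint lies in the ball -/
theorem s04_memc (b : CB) : Mem (b.val / 2 ^ sc) b := by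
  rw [mem_iff_norm, sub_self, norm_zero]
  positivity

/-- soundness of `dotB` -/
theorem s04_dot : ∀ (s t : List CB) (acc : CB) (z : ℂ) (u v : ℕ → ℂ), s.length = t.length →
    (∀ k < s.length, Mem (u k) (s.getD k CB.zero)) →
    (∀ k < s.length, Mem (v k) (t.getD k CB.zero)) →
    Mem z acc → Mem (z + ∑ k ∈ Finset.range s.length, u k * v k) (dotB s t acc)
  | [], t, acc, z, u, v, _, _, _, hz => by
    have h : dotB [] t acc = acc := by
      unfold dotB
      rfl
    rw [h]
    simpa using hz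
  | a :: s, [], acc, z, u, v, hl, _, _, _ => by
    simp at hl
  | a :: s, b :: t, acc, z, u, v, hl, hu, hv, hz => by
    have h : dotB (a :: s) (b :: t) acc = dotB s t (CB.add acc (CB.mul a b)) := by
      rw [dotB, fC_eq]
    have hl' : s.length = t.length := by simpa using hl
    have h0 : Mem (z + u 0 * v 0) (CB.add acc (CB.mul a b)) := by
      refine mem_add hz (mem_mul ?_ ?_)
      · exact hu 0 (by simp)
      · exact hv 0 (by simp)
    have ih := s04_dot s t (CB.add acc (CB.mul a b)) (z + u 0 * v 0) (fun k => u (k + 1))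
      (fun k => v (k + 1)) hl'
      (fun k hk => hu (k + 1) (by simpa using hk))
      (fun k hk => hv (k + 1) (by simpa using hk)) h0
    rw [h, List.length_cons, Finset.sum_range_succ']
    have e : z + (∑ k ∈ Finset.range s.length, u (k + 1) * v (k + 1) + u 0 * v 0) =
        z + u 0 * v 0 + ∑ k ∈ Finset.range s.length, u (k + 1) * v (k + 1) := by ring
    rw [e]
    exact ih

/-- the same for lists of length seven -/
theorem s04_dot7 (s t : List CB) (u v : Fin 7 → ℂ) (hs : s.length = 7) (ht : t.length = 7)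
    (hu : ∀ k : Fin 7, Mem (u k) (s.getD k.1 CB.zero))
    (hv : ∀ k : Fin 7, Mem (v k) (t.getD k.1 CB.zero)) :
    Mem (∑ k, u k * v k) (dotB s t CB.zero) := by
  have h := s04_dot s t CB.zero 0 (fun k => if h : k < 7 then u ⟨k, h⟩ else 0)
    (fun k => if h : k < 7 then v ⟨k, h⟩ else 0) (by rw [hs, ht])
    (fun k hk => by
      rw [hs] at hk
      rw [dif_pos hk]
      exact hu ⟨k, hk⟩)
    (fun k hk => by
      rw [hs] at hk
      rw [dif_pos hk]
      exact hv ⟨k, hk⟩) mem_zero
  rw [hs, zero_add, Finset.sum_range] at h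
  have e : ∀ i : Fin 7, (if h : (i : ℕ) < 7 then u ⟨i, h⟩ else 0) *
      (if h : (i : ℕ) < 7 then v ⟨i, h⟩ else 0) = u i * v i := by
    intro i
    rw [dif_pos i.2, dif_pos i.2]
  simp only [e] at h
  exact h

theorem s04_fold (g : ℕ → ℕ) :
    ((List.range 7).map g).foldl Nat.add 0 = ∑ j : Fin 7, g j.1 := by
  rw [Fin.sum_univ_seven]
  change 0 + g 0 + g 1 + g 2 + g 3 + g 4 + g 5 + g 6 = _
  rw [zero_add]
  rfl

theorem s04_lenA : ∀ i < 7, (aK.getD i []).length = 7 := by decide +kernel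

theorem s04_data : ∀ j < 7, (xBK.getD j CB.zero).re = (x0K.getD j CB.zero).re ∧
    (xBK.getD j CB.zero).im = (x0K.getD j CB.zero).im ∧
    (xBK.getD j CB.zero).rad = radK := by decide +kernel

theorem s04_box (x : E7) : x ∈ Box xBK ↔ ∀ j : Fin 7,
    ‖x j - (x0K.getD j.1 CB.zero).val / 2 ^ sc‖ ≤ (radK : ℝ) / 2 ^ sc := by
  have h : ∀ j : Fin 7, Mem (x j) (xBK.getD j CB.zero) ↔
      ‖x j - (x0K.getD j.1 CB.zero).val / 2 ^ sc‖ ≤ (radK : ℝ) / 2 ^ sc := by
    intro j
    obtain ⟨h1, h2, h3⟩ := s04_data j.1 j.2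
    rw [mem_iff_norm, h3]
    have h4 : (xBK.getD j.1 CB.zero).val = (x0K.getD j.1 CB.zero).val := by
      unfold CB.val
      rw [h1, h2]
    rw [h4]
  exact forall_congr' h

/-- the midpoint of the box -/
noncomputable def s04_c : E7 := fun j => (x0K.getD j.1 CB.zero).val / 2 ^ sc

/-- the approximate inverse -/
noncomputable def s04_A : Matrix (Fin 7) (Fin 7) ℂ :=
  Matrix.of fun i k => ((aK.getD i.1 []).getD k.1 CB.zero).val / 2 ^ sc

theorem s04_F7 (A B : ℕ → V2) (h : ∀ f < 38, A f = B f) : F7 A = F7 B := by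
  unfold F7
  rw [h 21 (by norm_num), h 32 (by norm_num), h 22 (by norm_num), h 34 (by norm_num),
    h 35 (by norm_num), h 3 (by norm_num), h 37 (by norm_num), h 6 (by norm_num)]

/-- balls for the seven equations -/
theorem s04_F7B (B : ℕ → V2) (L : ℕ → VB) (hV : ∀ f < 38, MemV (B f) (L f)) (k : Fin 7) :
    Mem (F7 B k) ((F7B L).getD k.1 CB.zero) := by
  have h21 := hV 21 (by norm_num)
  have h32 := hV 32 (by norm_num)
  have h22 := hV 22 (by norm_num)
  have h34 := hV 34 (by norm_num)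
  have h35 := hV 35 (by norm_num)
  have h3 := hV 3 (by norm_num)
  have h37 := hV 37 (by norm_num)
  have h6 := hV 6 (by norm_num)
  fin_cases k
  · exact mem_add h21.1 h32.1
  · exact mem_add h21.2 h32.2
  · exact mem_add h22.1 h34.1
  · exact mem_add h22.2 h34.2
  · exact mem_sub h35.1 h3.1
  · exact mem_sub h35.2 h3.2
  · exact memV_Dt h37 h6

theorem s04_F7B_len (L : ℕ → VB) : (F7B L).length = 7 := rfl

theorem s04_col (E : List SB) (j k : ℕ) (hk : k < E.length) :
    (colS E j).getD k CB.zero = (E.getD k ⟨CB.zero, []⟩).s.getD j CB.zero := by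
  unfold colS
  rw [List.getD_eq_getElem _ _ (by rw [List.length_map]; exact hk),
    List.getD_eq_getElem _ _ hk, List.getElem_map]

/-- the row sums -/
theorem s04_rows (E : List SB) (hE : E.length = 7) (h : rowsOK aK E = true)
    (S : Matrix (Fin 7) (Fin 7) ℂ)
    (hS : ∀ i j : Fin 7, Mem (S i j) ((E.getD i.1 ⟨CB.zero, []⟩).s.getD j.1 CB.zero)) (i : Fin 7) :
    ∑ j, ‖(1 - s04_A * S) i j‖ ≤ 1 / 2 := by
  unfold rowsOK at h
  rw [List.all_eq_true] at h
  have h1 := Nat.le_of_ble_eq_true (h i.1 (List.mem_range.2 i.2))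
  rw [s04_fold] at h1
  have h2 : ∀ j : Fin 7, ‖(1 - s04_A * S) i j‖ * (2 : ℝ) ^ sc ≤
      ((CB.up (CB.sub (match Nat.beq i.1 j.1 with | true => CB.one | false => CB.zero)
        (dotB (aK.getD i.1 []) (colS E j.1) CB.zero)) : ℕ) : ℝ) := by
    intro j
    apply up_sound
    rw [Matrix.sub_apply]
    apply mem_sub
    · by_cases hij : i = j
      · subst hij
        rw [Matrix.one_apply_eq]
        have : Nat.beq i.1 i.1 = true := Nat.beq_refl _
        rw [this]
        exact mem_one
      · rw [Matrix.one_apply_ne hij]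
        have : Nat.beq i.1 j.1 = false := by
          rw [← Bool.not_eq_true, Nat.beq_eq]
          exact fun hh => hij (Fin.ext hh)
        rw [this]
        exact mem_zero
    · rw [Matrix.mul_apply]
      refine s04_dot7 (aK.getD i.1 []) (colS E j.1) (fun k => s04_A i k) (fun k => S k j)
        (s04_lenA i.1 i.2) ?_ ?_ ?_
      · unfold colS
        rw [List.length_map, hE]
      · intro k
        exact s04_memc _
      · intro k
        have h3 : (colS E j.1).getD k.1 CB.zero =
            (E.getD k.1 ⟨CB.zero, []⟩).s.getD j.1 CB.zero := by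
          have hk : k.1 < E.length := by rw [hE]; exact k.2
          exact s04_col E j.1 k.1 hk
        rw [h3]
        exact hS k j
  have h4 : (∑ j, ‖(1 - s04_A * S) i j‖) * (2 : ℝ) ^ sc ≤
      ((∑ j : Fin 7, CB.up (CB.sub (match Nat.beq i.1 j.1 with | true => CB.one | false => CB.zero)
        (dotB (aK.getD i.1 []) (colS E j.1) CB.zero)) : ℕ) : ℝ) := by
    rw [Finset.sum_mul, Nat.cast_sum]
    exact Finset.sum_le_sum fun j _ => h2 j
  have h5 : (2 : ℝ) * ((∑ j : Fin 7, CB.up (CB.sub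
      (match Nat.beq i.1 j.1 with | true => CB.one | false => CB.zero)
        (dotB (aK.getD i.1 []) (colS E j.1) CB.zero)) : ℕ) : ℝ) ≤ (2 : ℝ) ^ sc := by
    have h6 : (((2 * ∑ j : Fin 7, CB.up (CB.sub
      (match Nat.beq i.1 j.1 with | true => CB.one | false => CB.zero)
        (dotB (aK.getD i.1 []) (colS E j.1) CB.zero)) : ℕ)) : ℝ) ≤ ((2 ^ sc : ℕ) : ℝ) :=
      Nat.cast_le.2 h1
    rw [Nat.cast_mul, Nat.cast_pow] at h6
    exact h6
  have hpos : (0 : ℝ) < 2 ^ sc := by positivity
  have h7 : (∑ j, ‖(1 - s04_A * S) i j‖) * (2 : ℝ) ^ sc ≤ 1 / 2 * (2 : ℝ) ^ sc := by linarith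
  exact le_of_mul_le_mul_right h7 hpos

theorem exists_zero : ∃ x : E7, x ∈ Box xBK ∧
    ∀ A : ℕ → V2, IsSol opV (bV x) R₁ A → F7 A = 0 := by
  obtain ⟨A, hA⟩ := exists_sol (fun (s : Bool) (o c : E7 → V2) (x : E7) => opV s (o x) (c x))
    (fun k x => bV x k) R₁ wf_R₁
  have hAx : ∀ x : E7, IsSol opV (bV x) R₁ (fun f => A f x) := by
    intro x f r hr
    have h := hA f r hr
    cases r with
    | born k => exact congrFun h x
    | cross o s c => exact congrFun h x
  have huniq : ∀ (x : E7) (A' : ℕ → V2), IsSol opV (bV x) R₁ A' → ∀ f < 38, A' f = A f x := by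
    intro x A' hA' f hf
    exact sol_hom Eq opV opV (bV x) (bV x) (by
      intro s o c o' c' h1 h2
      rw [h1, h2]) R₁ (fun _ _ => rfl) wf_R₁ A' _ hA' (hAx x) f
      (by rw [len_R₁]; exact hf)
  have hS : ∀ f < 38, SMemV xBK (A f) (nth sv0 (evalR frcS opS (bS xBK) sv0 R₁ 0 []) f) := by
    intro f hf
    have h := evalR_rel (SMemV xBK)
      (fun (s : Bool) (o c : E7 → V2) (x : E7) => opV s (o x) (c x)) opS
      (fun k x => bV x k) (bS xBK) sv0 frcS frcS_eq
      (fun s o c o' c' h1 h2 => smemV_op s h1 h2) R₁ (fun k _ => smemV_bS k) wf_R₁ A hA f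
      (by rw [len_R₁]; exact hf)
    rw [len_R₁] at h
    exact h
  obtain ⟨E, hE1, hE2, hE3⟩ := smem_F7 A (nth sv0 (evalR frcS opS (bS xBK) sv0 R₁ 0 [])) hS
    (fun E => rowsOK aK E) kraw1_true
  have hr : (0 : ℝ) < (radK : ℝ) / 2 ^ sc := by
    have : (0 : ℝ) < (radK : ℝ) := by
      unfold radK
      positivity
    positivity
  obtain ⟨x, hx1, hx2⟩ := krawczyk s04_c ((radK : ℝ) / 2 ^ sc) hr
    (fun x => F7 (fun f => A f x)) s04_A (by
      intro x y hx hy
      have hxB : x ∈ Box xBK := (s04_box x).2 hx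
      have hyB : y ∈ Box xBK := (s04_box y).2 hy
      have h1 : ∀ i : Fin 7, ∃ σ : Fin 7 → ℂ,
          (∀ j : Fin 7, Mem (σ j) ((E.getD i.1 ⟨CB.zero, []⟩).s.getD j CB.zero)) ∧
          F7 (fun f => A f x) i - F7 (fun f => A f y) i = ∑ j, σ j * (x j - y j) := by
        intro i
        exact (hE3 i).2.2 x hxB y hyB
      choose S hS1 hS2 using h1
      refine ⟨Matrix.of S, ?_, ?_⟩
      · funext i
        exact hS2 i
      · intro i
        exact s04_rows E hE2 hE1 (Matrix.of S) hS1 i) (by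
      intro i
      have hk := kraw2_true
      unfold kraw2 at hk
      rw [fL_eq, List.all_eq_true] at hk
      have h1 := Nat.le_of_ble_eq_true (hk i.1 (List.mem_range.2 i.2))
      have hc : s04_c ∈ Box x0K := fun j => s04_memc _
      have hV : ∀ f < 38, MemV (A f s04_c) (nth vb0 (evalR fV opB (bB x0K) vb0 R₁ 0 []) f) := by
        intro f hf
        have h := evalR_rel MemV opV opB (bV s04_c) (bB x0K) vb0 fV fV_eq
          (fun s o c o' c' h1 h2 => memV_opB s h1 h2) R₁ (fun k _ => memV_bB s04_c hc k) wf_R₁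
          (fun f => A f s04_c) (hAx s04_c) f (by rw [len_R₁]; exact hf)
        rw [len_R₁] at h
        exact h
      have hF := s04_F7B (fun f => A f s04_c) _ hV
      have h2 := s04_dot7 (aK.getD i.1 []) (F7B (nth vb0 (evalR fV opB (bB x0K) vb0 R₁ 0 [])))
        (fun k => s04_A i k) (fun k => F7 (fun f => A f s04_c) k) (s04_lenA i.1 i.2)
        (s04_F7B_len _) (fun k => s04_memc _) hF
      have h3 := up_sound h2
      have h4 : (2 : ℝ) * ((CB.up (dotB (aK.getD i.1 [])
          (F7B (nth vb0 (evalR fV opB (bB x0K) vb0 R₁ 0 []))) CB.zero) : ℕ) : ℝ) ≤ (radK : ℝ) := by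
        have h5 := (Nat.cast_le (α := ℝ)).2 h1
        change (((2 * CB.up (dotB (aK.getD i.1 [])
          (F7B (nth vb0 (evalR fV opB (bB x0K) vb0 R₁ 0 []))) CB.zero) : ℕ)) : ℝ) ≤ _ at h5
        rw [Nat.cast_mul] at h5
        exact h5
      have hpos : (0 : ℝ) < 2 ^ sc := by positivity
      change ‖∑ k, s04_A i k * F7 (fun f => A f s04_c) k‖ ≤ _
      rw [div_div, le_div_iff₀ (by positivity)]
      have h6 : ‖∑ k, s04_A i k * F7 (fun f => A f s04_c) k‖ * (2 ^ sc * 2) =
        2 * (‖∑ k, s04_A i k * F7 (fun f => A f s04_c) k‖ * 2 ^ sc) := by ring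
      rw [h6]
      linarith)
  refine ⟨x, (s04_box x).2 hx1, ?_⟩
  intro A' hA'
  rw [s04_F7 A' (fun f => A f x) (huniq x A' hA')]
  exact hx2

end TorMut
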