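import Pool.Agent.Lib.MP_407fc5_gt.TDefs

/-!
# T01: linearity of the Fox derivatives (about 45 minutes)

`foxHom Φ z w` is an affine transformation with linear part `FreeGroup.lift Φ w`; its translation part
is linear in `z`.  Proofs by `FreeGroup.induction_on` (or: the pairs `(foxHom Φ z w, foxHom Φ z' w)`,
induction with the cases `1`, `of`, `of⁻¹`, product).  `foxJac_mulVec`: write `y = ∑ y_{j,s} e_{j,s}`
and use linearity (`Finset.sum` version by induction on finite sums).
-/

namespace TorMut

open Matrix

variable {F : Type*} [Field F] {b : ℕ}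

/-- the linear part as a homomorphism -/
def t01_linHom (F : Type*) [Field F] : Aff F →* GL (Fin 2) F where
  toFun := Aff.lin
  map_one' := rfl
  map_mul' _ _ := rfl

lemma fox_lin (Φ : Fin b → GL (Fin 2) F) (z : Fin b → Fin 2 → F) (w : FreeGroup (Fin b)) :
    (foxHom Φ z w).lin = FreeGroup.lift Φ w := by
  have h : (t01_linHom F).comp (foxHom Φ z) = FreeGroup.lift Φ := by
    apply FreeGroup.ext_hom
    intro a
    simp [foxHom, t01_linHom]
  exact DFunLike.congr_fun h w

lemma fox_add (Φ : Fin b → GL (Fin 2) F) (z z' : Fin b → Fin 2 → F) (w : FreeGroup (Fin b)) :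
    (foxHom Φ (z + z') w).tr = (foxHom Φ z w).tr + (foxHom Φ z' w).tr := by
  induction w using FreeGroup.induction_on with
  | C1 => simp
  | of x => simp [foxHom]
  | inv_of x _ => simp [foxHom, Matrix.mulVec_add, add_comm]
  | mul x y hx hy =>
    simp only [map_mul, Aff.mul_tr, fox_lin, hx, hy, Matrix.mulVec_add]
    abel

lemma fox_smul (Φ : Fin b → GL (Fin 2) F) (c : F) (z : Fin b → Fin 2 → F)
    (w : FreeGroup (Fin b)) : (foxHom Φ (c • z) w).tr = c • (foxHom Φ z w).tr := by
  induction w using FreeGroup.induction_on with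
  | C1 => simp
  | of x => simp [foxHom]
  | inv_of x _ =>
    rw [map_inv, map_inv, Aff.inv_tr, Aff.inv_tr, fox_lin, fox_lin]
    simp only [foxHom, FreeGroup.lift_apply_of, Pi.smul_apply, Matrix.mulVec_smul, smul_neg]
  | mul x y hx hy =>
    simp only [map_mul, Aff.mul_tr, fox_lin, hx, hy, Matrix.mulVec_smul, smul_add]

lemma t01_fox_sum {ι : Type*} (Φ : Fin b → GL (Fin 2) F) (s : Finset ι) (c : ι → F)
    (z : ι → Fin b → Fin 2 → F) (w : FreeGroup (Fin b)) :
    (foxHom Φ (∑ i ∈ s, c i • z i) w).tr = ∑ i ∈ s, c i • (foxHom Φ (z i) w).tr := by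
  classical
  induction s using Finset.induction_on with
  | empty =>
    have h := fox_smul Φ (0 : F) (0 : Fin b → Fin 2 → F) w
    rw [zero_smul, zero_smul] at h
    simpa using h
  | insert a s ha ih =>
    rw [Finset.sum_insert ha, Finset.sum_insert ha, fox_add, fox_smul, ih]

/-- extend a vector by zero at the first generator -/
def ext0 {n : ℕ} (y : Fin (n - 1) → Fin 2 → F) : Fin n → Fin 2 → F :=
  fun k => if h : 0 < k.1 then y ⟨k.1 - 1, by have := k.2; omega⟩ else 0

theorem foxJac_mulVec (D : Word) (Φ : Fin (births D) → GL (Fin 2) F)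
    (y : Fin (births D - 1) → Fin 2 → F) (i : Fin (births D - 1)) (r : Fin 2) :
    (foxJac D Φ).mulVec (fun x => y x.1 x.2) (i, r) =
      (foxHom Φ (ext0 y) ((relators D).getD i.1 1)).tr r := by
  have h : ext0 y = ∑ x : Fin (births D - 1) × Fin 2, y x.1 x.2 •
      (fun k : Fin (births D) => if k.1 = x.1.1 + 1 then (Pi.single x.2 1 : Fin 2 → F)
        else 0) := by
    funext k s
    rw [Finset.sum_apply, Finset.sum_apply, Fintype.sum_prod_type]
    unfold ext0
    by_cases hk : 0 < k.1
    · rw [dif_pos hk]
      have hk2 := k.2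
      rw [Finset.sum_eq_single (⟨k.1 - 1, by omega⟩ : Fin (births D - 1))]
      · have h1 : k.1 = k.1 - 1 + 1 := by omega
        rw [Finset.sum_eq_single s]
        · simp [← h1]
        · intro s' _ hs'
          simp [← h1, hs'.symm]
        · intro hs'
          exact absurd (Finset.mem_univ _) hs'
      · intro j _ hj
        have h1 : ¬ (k.1 = j.1 + 1) := by
          intro hc
          apply hj
          apply Fin.ext
          show j.1 = k.1 - 1
          omega
        simp [h1]
      · intro hc
        exact absurd (Finset.mem_univ _) hc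
    · rw [dif_neg hk]
      symm
      apply Finset.sum_eq_zero
      intro j _
      apply Finset.sum_eq_zero
      intro s' _
      have h1 : ¬ (k.1 = j.1 + 1) := by omega
      simp [h1]
  rw [h, t01_fox_sum, Finset.sum_apply]
  unfold Matrix.mulVec dotProduct
  refine Finset.sum_congr rfl fun x _ => ?_
  rw [Pi.smul_apply, smul_eq_mul, mul_comm]
  rfl

end TorMut
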