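import Pool.Agent.Lib.MP_407fc5_gt.TDefs

/-!
# T05: the linear part: identities in `SL(2, F)` (about 75 minutes)

Let `a, b, c ∈ SL(2, F)`, `s = a b`, `u = c s c⁻¹`, `a u b = u`, so `b = u⁻¹ a⁻¹ u`,
`s = a u⁻¹ a⁻¹ u`; `τ = tr u = tr s = tr (s u⁻¹)` (`s u⁻¹ = a u⁻¹ a⁻¹`), `δ = 2 - τ ≠ 0`.
Put `k = δ⁻¹ (s - 1)(1 - u⁻¹)` and `m = a⁻¹ k`.  Proofs (Cayley–Hamilton: `x + x⁻¹ = tr x`,
`tr (x y) + tr (x y⁻¹) = tr x tr y`):
* `tr k = -1`, `det k = 1`: `tr ((s-1)(1-u⁻¹)) = tr s - tr (s u⁻¹) - 2 + tr u⁻¹ = τ - 2`,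
  `det (s-1) = det (1-u⁻¹) = δ`.  Hence `k² + k + 1 = 0`, `k³ = 1`.
* `tr m = 0`: `δ a⁻¹ k = u⁻¹a⁻¹u - u⁻¹a⁻¹ - a⁻¹u + (1-δ)a⁻¹` up to the order of terms, trace
  `tr a (1 + 1 - δ) - tr a tr u = 0`.  `det m = 1`.  Hence `m² = -1`.
* `m u = u⁻¹ m`: `k = δ⁻¹ (s - s u⁻¹ + u⁻¹ - 1)`, insert `s = a u⁻¹ a⁻¹ u` and use
  `u² = τ u - 1`, `u⁻² = τ u⁻¹ - 1`.
* `k s = u⁻¹ k`: use `s² = τ s - 1`, `s u⁻¹ s = τ s - u`, `u⁻¹ s u⁻¹ = τ u⁻¹ - s⁻¹`.
* `tr (c k⁻¹) = 0`: `k⁻¹ = -1 - k`, `tr (c k) = - tr c` because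
  `c (s-1) = (u-1) c` and `(1-u⁻¹)(u-1) = τ - 2`.  Hence `(c k⁻¹)² = -1`.
* `(a u a⁻¹ - 1)(k + 1) = u - 1`: `k + 1 = a (u-1)⁻¹ a⁻¹ (u-1)`, `(u-1)⁻¹ = δ⁻¹ (u⁻¹ - 1)`.
It may be easiest to do everything in entries with `linear_combination`, or to work in the ring
`Matrix (Fin 2) (Fin 2) F` with the lemmas above.  All identities were checked numerically.
-/

namespace TorMut

open Matrix MatrixGroups

variable {F : Type*} [Field F]


section Ring

variable {R : Type*} [Ring R]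

theorem t05_P4 (a u v : R) (hvu : v * u = 1) (hc : a * (u + v) = (u + v) * a) :
    (v * a * u - v * a - a + a * v) * u = v * (v * a * u - v * a - a + a * v) := by
  have h1 : v * a * u * u + v * a * v * u = v * u * a * u + v * v * a * u := by
    have := congrArg (fun z => v * z * u) hc
    simpa [mul_add, add_mul, mul_assoc] using this
  have h2 : v * a * u + v * a * v = v * u * a + v * v * a := by
    have := congrArg (fun z => v * z) hc
    simpa [mul_add, add_mul, mul_assoc] using this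
  linear_combination (norm := noncomm_ring) h1 - h2 - (v * a - a) * hvu + hvu * (a * u - a)

theorem t05_P5 (s s' u v t : R) (hss : s' * s = 1) (huv : u * v = 1)
    (hs : s + s' = t) (hu : u + v = t) (h3 : s * v + u * s' = t) (h4 : v * s + s' * u = t) :
    (s - 1) * (1 - v) * s = v * ((s - 1) * (1 - v)) := by
  have e1 : s * s = t * s - 1 := by
    rw [← hs, add_mul, hss]; noncomm_ring
  have e2 : s * v * s = t * s - u := by
    have : (s * v + u * s') * s = t * s := by rw [h3]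
    rw [add_mul, mul_assoc u, hss, mul_one] at this
    rw [← this]; noncomm_ring
  have e3 : v * s * v = t * v - s' := by
    have : (v * s + s' * u) * v = t * v := by rw [h4]
    rw [add_mul, mul_assoc s', huv, mul_one] at this
    rw [← this]; noncomm_ring
  have e4 : v * v = t * v - 1 := by
    rw [← hu, add_mul, huv]; noncomm_ring
  have e5 : (s - 1) * (1 - v) * s - v * ((s - 1) * (1 - v)) =
      s * s - s * v * s + v * s * v - s + v - v * v := by noncomm_ring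
  rw [← sub_eq_zero, e5, e1, e2, e3, e4]
  have e6 : s' = t - s := by rw [← hs]; noncomm_ring
  have e7 : u = t - v := by rw [← hu]; noncomm_ring
  rw [e6, e7]
  noncomm_ring

theorem t05_P7 (a a' s u v t : R) (haa : a' * a = 1) (haa' : a * a' = 1) (huv : u * v = 1)
    (hs : s = a * v * a' * u) (hu : u + v = t) (hta : t * a' = a' * t) :
    (a * u * a' - 1) * ((s - 1) * (1 - v) + (1 + 1 - t)) = (1 + 1 - t) * (u - 1) := by
  have e1 : a * u * a' * s = u := by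
    rw [hs]
    calc a * u * a' * (a * v * a' * u) = a * u * (a' * a) * v * a' * u := by noncomm_ring
      _ = a * (u * v) * a' * u := by rw [haa]; noncomm_ring
      _ = a * a' * u := by rw [huv]; noncomm_ring
      _ = u := by rw [haa', one_mul]
  have e2 : a * u * a' * u + s = t * u := by
    rw [hs]
    calc a * u * a' * u + a * v * a' * u = a * ((u + v) * a') * u := by noncomm_ring
      _ = a * (a' * t) * u := by rw [hu, hta]
      _ = (a * a') * t * u := by noncomm_ring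
      _ = t * u := by rw [haa', one_mul]
  have e3 : (s - 1) * (1 - v) + (1 + 1 - t) = (s - u) * (1 - v) := by
    rw [← hu]
    have : (s - 1) * (1 - v) + (1 + 1 - (u + v)) - (s - u) * (1 - v) = 1 - u * v := by
      noncomm_ring
    rw [← sub_eq_zero, this, huv, sub_self]
  rw [e3, ← mul_assoc]
  have e4 : (a * u * a' - 1) * (s - u) = (1 + 1 - t) * u := by
    have : (a * u * a' - 1) * (s - u) = a * u * a' * s - (a * u * a' * u + s) + u := by noncomm_ring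
    rw [this, e1, e2]; noncomm_ring
  rw [e4, mul_assoc]
  have e5 : u * (1 - v) = u - 1 := by rw [mul_sub, mul_one, huv]
  rw [e5]

end Ring

section SL

theorem t05_inv (x : SL(2, F)) : (x⁻¹).1 = x.1.adjugate := Matrix.SpecialLinearGroup.coe_inv x

theorem t05_mul (x y : SL(2, F)) : (x * y).1 = x.1 * y.1 := Matrix.SpecialLinearGroup.coe_mul x y

theorem t05_one : (1 : SL(2, F)).1 = 1 := Matrix.SpecialLinearGroup.coe_one

theorem t05_det (x : SL(2, F)) : x.1 0 0 * x.1 1 1 - x.1 0 1 * x.1 1 0 = 1 := by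
  rw [← Matrix.det_fin_two]; exact x.2

theorem t05_mul_inv (x : SL(2, F)) : x.1 * (x⁻¹).1 = 1 := by
  rw [← t05_mul, mul_inv_cancel, t05_one]

theorem t05_inv_mul (x : SL(2, F)) : (x⁻¹).1 * x.1 = 1 := by
  rw [← t05_mul, inv_mul_cancel, t05_one]

theorem t05_add_inv (x : SL(2, F)) : x.1 + (x⁻¹).1 = x.1.trace • (1 : Matrix (Fin 2) (Fin 2) F) := by
  rw [t05_inv, Matrix.adjugate_fin_two]
  ext i j
  fin_cases i <;> fin_cases j <;> simp [Matrix.trace_fin_two, add_comm]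

theorem t05_sq (x : SL(2, F)) : x.1 * x.1 = x.1.trace • x.1 - 1 := by
  have h := t05_add_inv x
  have h2 : x.1 * (x.1 + (x⁻¹).1) = x.1 * (x.1.trace • (1 : Matrix (Fin 2) (Fin 2) F)) := by rw [h]
  rw [mul_add, t05_mul_inv, Matrix.mul_smul, mul_one] at h2
  rw [← h2]; abel

theorem t05_trace_inv (x : SL(2, F)) : (x⁻¹).1.trace = x.1.trace := by
  rw [t05_inv, Matrix.adjugate_fin_two, Matrix.trace_fin_two, Matrix.trace_fin_two]
  simp [add_comm]

theorem t05_trace_comm (x y : SL(2, F)) : (x * y).1.trace = (y * x).1.trace := by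
  rw [t05_mul, t05_mul, Matrix.trace_mul_comm]

theorem t05_trace_conj (x y : SL(2, F)) : (y * x * y⁻¹).1.trace = x.1.trace := by
  rw [t05_trace_comm, ← mul_assoc, inv_mul_cancel, one_mul]

/-- `1 - u` is invertible if `tr u ≠ 2` -/
theorem det_one_sub (u : SL(2, F)) : (1 - u.1).det = 2 - u.1.trace := by
  have h := t05_det u
  rw [Matrix.det_fin_two, Matrix.trace_fin_two]
  simp only [Matrix.sub_apply, Matrix.one_apply_eq]
  rw [Matrix.one_apply_ne (by decide), Matrix.one_apply_ne (by decide)]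
  linear_combination h

theorem t05_det_sub_one (u : SL(2, F)) : (u.1 - 1).det = 2 - u.1.trace := by
  have h := t05_det u
  rw [Matrix.det_fin_two, Matrix.trace_fin_two]
  simp only [Matrix.sub_apply, Matrix.one_apply_eq]
  rw [Matrix.one_apply_ne (by decide), Matrix.one_apply_ne (by decide)]
  linear_combination h

/-- consequences of the relation -/
theorem t05_rel (a b c : SL(2, F)) (h : a * (c * a * b * c⁻¹) * b = c * a * b * c⁻¹) :
    a * b = a * (c * a * b * c⁻¹)⁻¹ * a⁻¹ * (c * a * b * c⁻¹) ∧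
    (a * b).1.trace = (c * a * b * c⁻¹).1.trace := by
  constructor
  · have h1 : b = (c * a * b * c⁻¹)⁻¹ * a⁻¹ * (c * a * b * c⁻¹) := by
      generalize c * a * b * c⁻¹ = u at h
      calc b = u⁻¹ * a⁻¹ * (a * u * b) := by group
        _ = u⁻¹ * a⁻¹ * u := by rw [h]
    calc a * b = a * ((c * a * b * c⁻¹)⁻¹ * a⁻¹ * (c * a * b * c⁻¹)) := by rw [← h1]
      _ = _ := by group
  · rw [show c * a * b * c⁻¹ = c * (a * b) * c⁻¹ by group, t05_trace_conj]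

end SL

/-- the matrix `m = a⁻¹ δ⁻¹ (s - 1)(1 - u⁻¹)`, `s = a b`, `u = c s c⁻¹`, `δ = 2 - tr u` -/
noncomputable def mMat (a b c : SL(2, F)) : Matrix (Fin 2) (Fin 2) F :=
  (2 - (c * a * b * c⁻¹).1.trace)⁻¹ •
    ((a⁻¹).1 * ((a * b).1 - 1) * (1 - ((c * a * b * c⁻¹)⁻¹).1))

theorem mMat_det (a b c : SL(2, F)) (h : a * (c * a * b * c⁻¹) * b = c * a * b * c⁻¹)
    (ht : (c * a * b * c⁻¹).1.trace ≠ 2) : (mMat a b c).det = 1 := by
  obtain ⟨-, h2⟩ := t05_rel a b c h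
  have hd : (2 - (c * a * b * c⁻¹).1.trace) ≠ 0 := sub_ne_zero.2 ht.symm
  rw [mMat, Matrix.det_smul, Matrix.det_mul, Matrix.det_mul, t05_det_sub_one, det_one_sub,
    t05_trace_inv, h2, (a⁻¹).2, Fintype.card_fin]
  field_simp

open Classical in
/-- the same as an element of `SL(2, F)` -/
noncomputable def mSL (a b c : SL(2, F)) : SL(2, F) :=
  if h : (mMat a b c).det = 1 then ⟨mMat a b c, h⟩ else 1

theorem mSL_coe (a b c : SL(2, F)) (h : a * (c * a * b * c⁻¹) * b = c * a * b * c⁻¹)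
    (ht : (c * a * b * c⁻¹).1.trace ≠ 2) : (mSL a b c).1 = mMat a b c := by
  rw [mSL, dif_pos (mMat_det a b c h ht)]

theorem t05_core (a c u s m : SL(2, F)) (hs : s = a * u⁻¹ * a⁻¹ * u)
    (htr : s.1.trace = u.1.trace) (hcs : c * s = u * c) (ht : u.1.trace ≠ 2)
    (hcoe : m.1 = (2 - u.1.trace)⁻¹ • ((a⁻¹).1 * (s.1 - 1) * (1 - (u⁻¹).1))) :
    m⁻¹ * u⁻¹ * m = u ∧
    (a * m) ^ 3 = 1 ∧
    (a * m) * s * (a * m)⁻¹ = u⁻¹ ∧
    m ^ 2 = (c * (a * m)⁻¹) ^ 2 ∧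
    ((a * u * a⁻¹).1 - 1) * ((a * m).1 + 1) = u.1 - 1 ∧
    (a * m).1.trace = -1 := by
  obtain ⟨δ, hδ⟩ : ∃ δ : F, δ = 2 - u.1.trace := ⟨_, rfl⟩
  have hd : δ ≠ 0 := by rw [hδ]; exact sub_ne_zero.2 ht.symm
  rw [← hδ] at hcoe
  obtain ⟨τ, hτ⟩ : ∃ τ : F, τ = u.1.trace := ⟨_, rfl⟩
  obtain ⟨T, hT⟩ : ∃ T : Matrix (Fin 2) (Fin 2) F, T = τ • (1 : Matrix (Fin 2) (Fin 2) F) :=
    ⟨_, rfl⟩
  have hTc : ∀ x : Matrix (Fin 2) (Fin 2) F, T * x = x * T := by
    intro x; rw [hT, Matrix.smul_mul, Matrix.mul_smul, one_mul, mul_one]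
  have huT : u.1 + (u⁻¹).1 = T := by rw [hT, hτ]; exact t05_add_inv u
  have hsT : s.1 + (s⁻¹).1 = T := by rw [t05_add_inv s, htr, hT, hτ]
  -- the matrix of `k = a m`
  have hk : (a * m).1 = δ⁻¹ • ((s.1 - 1) * (1 - (u⁻¹).1)) := by
    rw [t05_mul, hcoe, Matrix.mul_smul, ← mul_assoc, ← mul_assoc, t05_mul_inv, one_mul]
  have htrsu : (s * u⁻¹).1.trace = τ := by
    have : s * u⁻¹ = a * u⁻¹ * a⁻¹ := by rw [hs]; group
    rw [this, t05_trace_conj, t05_trace_inv, hτ]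
  have htrus : (u⁻¹ * s).1.trace = τ := by rw [t05_trace_comm, htrsu]
  have hktr : (a * m).1.trace = -1 := by
    rw [hk, Matrix.trace_smul]
    have e : (s.1 - 1) * (1 - (u⁻¹).1) = s.1 - (s * u⁻¹).1 - 1 + (u⁻¹).1 := by
      rw [t05_mul s u⁻¹]; noncomm_ring
    rw [e, Matrix.trace_add, Matrix.trace_sub, Matrix.trace_sub, htrsu, t05_trace_inv, htr,
      Matrix.trace_one, Fintype.card_fin, smul_eq_mul, ← hτ]
    rw [hδ, ← hτ] at hd ⊢
    push_cast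
    field_simp
    ring
  have hmtr : m.1.trace = 0 := by
    rw [hcoe, Matrix.trace_smul]
    have e : (a⁻¹).1 * (s.1 - 1) * (1 - (u⁻¹).1) =
        (a⁻¹ * s).1 - (a⁻¹ * s * u⁻¹).1 - (a⁻¹).1 + (a⁻¹ * u⁻¹).1 := by
      rw [t05_mul (a⁻¹ * s) u⁻¹, t05_mul a⁻¹ s, t05_mul a⁻¹ u⁻¹]; noncomm_ring
    have e1 : (a⁻¹ * s).1.trace = (a⁻¹).1.trace := by
      have : a⁻¹ * s = u⁻¹ * a⁻¹ * (u⁻¹)⁻¹ := by rw [hs]; group
      rw [this, t05_trace_conj]
    have e2 : (a⁻¹ * s * u⁻¹).1.trace = (a⁻¹ * u⁻¹).1.trace := by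
      have : a⁻¹ * s * u⁻¹ = u⁻¹ * a⁻¹ := by rw [hs]; group
      rw [this, t05_trace_comm]
    rw [e, Matrix.trace_add, Matrix.trace_sub, Matrix.trace_sub, e1, e2]
    simp
  have hsq : ∀ x : SL(2, F), x.1.trace = 0 → (x ^ 2).1 = -1 := by
    intro x hx
    rw [pow_two, t05_mul, t05_sq, hx, zero_smul, zero_sub]
  refine ⟨?_, ?_, ?_, ?_, ?_, hktr⟩
  · -- `m u = u⁻¹ m`
    have e : m * u = u⁻¹ * m := by
      apply Subtype.ext
      show (m * u).1 = (u⁻¹ * m).1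
      rw [t05_mul, t05_mul, hcoe, Matrix.smul_mul, Matrix.mul_smul]
      congr 1
      have e1 : (a⁻¹).1 * (s.1 - 1) * (1 - (u⁻¹).1) =
          (u⁻¹).1 * (a⁻¹).1 * u.1 - (u⁻¹).1 * (a⁻¹).1 - (a⁻¹).1 + (a⁻¹).1 * (u⁻¹).1 := by
        have e2 : (a⁻¹).1 * s.1 = (u⁻¹).1 * (a⁻¹).1 * u.1 := by
          rw [← t05_mul, ← t05_mul, ← t05_mul]
          congr 1
          rw [hs]; group
        have e3 : (u⁻¹).1 * (a⁻¹).1 * u.1 * (u⁻¹).1 = (u⁻¹).1 * (a⁻¹).1 := by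
          rw [mul_assoc ((u⁻¹).1 * (a⁻¹).1), t05_mul_inv, mul_one]
        calc (a⁻¹).1 * (s.1 - 1) * (1 - (u⁻¹).1) =
            (a⁻¹).1 * s.1 - (a⁻¹).1 * s.1 * (u⁻¹).1 - (a⁻¹).1 + (a⁻¹).1 * (u⁻¹).1 := by
              noncomm_ring
          _ = _ := by rw [e2, e3]
      rw [e1]
      refine t05_P4 (a⁻¹).1 u.1 (u⁻¹).1 (t05_inv_mul u) ?_
      rw [huT, hTc]
    calc m⁻¹ * u⁻¹ * m = m⁻¹ * (u⁻¹ * m) := by group
      _ = m⁻¹ * (m * u) := by rw [e]
      _ = u := by group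
  · -- `k³ = 1`
    apply Subtype.ext
    show ((a * m) ^ 3).1 = (1 : SL(2, F)).1
    have e := t05_sq (a * m)
    rw [hktr] at e
    have e' : (a * m).1 * (a * m).1 * (a * m).1 = 1 := by
      rw [e, sub_mul, Matrix.smul_mul, e]; simp
    rw [pow_succ, pow_two, t05_mul ((a * m) * (a * m)), t05_mul (a * m) (a * m), e', t05_one]
  · -- `k s k⁻¹ = u⁻¹`
    have e : (a * m) * s = u⁻¹ * (a * m) := by
      apply Subtype.ext
      show ((a * m) * s).1 = (u⁻¹ * (a * m)).1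
      rw [t05_mul (a * m) s, t05_mul u⁻¹ (a * m), hk, Matrix.smul_mul, Matrix.mul_smul]
      congr 1
      refine t05_P5 s.1 (s⁻¹).1 u.1 (u⁻¹).1 T (t05_inv_mul s) (t05_mul_inv u) hsT huT ?_ ?_
      · have := t05_add_inv (s * u⁻¹)
        rw [htrsu, _root_.mul_inv_rev, inv_inv, t05_mul, t05_mul, ← hT] at this
        exact this
      · have := t05_add_inv (u⁻¹ * s)
        rw [htrus, _root_.mul_inv_rev, inv_inv, t05_mul, t05_mul, ← hT] at this
        exact this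
    calc a * m * s * (a * m)⁻¹ = u⁻¹ * (a * m) * (a * m)⁻¹ := by rw [e]
      _ = u⁻¹ := by group
  · -- `m² = (c k⁻¹)²`
    apply Subtype.ext
    show (m ^ 2).1 = ((c * (a * m)⁻¹) ^ 2).1
    rw [hsq m hmtr, hsq]
    have e1 : ((a * m)⁻¹).1 = -1 - (a * m).1 := by
      have := t05_add_inv (a * m)
      rw [hktr] at this
      rw [eq_sub_iff_add_eq, add_comm, this]
      simp
    have e2 : (c.1 * ((s.1 - 1) * (1 - (u⁻¹).1))).trace = (τ - 2) * c.1.trace := by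
      have e3 : c.1 * s.1 = u.1 * c.1 := by
        rw [← t05_mul, ← t05_mul, hcs]
      have e4 : c.1 * ((s.1 - 1) * (1 - (u⁻¹).1)) = (u.1 - 1) * (c.1 * (1 - (u⁻¹).1)) := by
        calc c.1 * ((s.1 - 1) * (1 - (u⁻¹).1)) = (c.1 * s.1 - c.1) * (1 - (u⁻¹).1) := by
              noncomm_ring
          _ = _ := by rw [e3]; noncomm_ring
      have e5 : (1 - (u⁻¹).1) * (u.1 - 1) = T - 1 - 1 := by
        rw [← huT]
        have : (1 - (u⁻¹).1) * (u.1 - 1) = u.1 + (u⁻¹).1 - 1 - (u⁻¹).1 * u.1 := by noncomm_ring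
        rw [this, t05_inv_mul]
      rw [e4, Matrix.trace_mul_comm, mul_assoc, e5, hT]
      have e6 : c.1 * (τ • (1 : Matrix (Fin 2) (Fin 2) F) - 1 - 1) = τ • c.1 - c.1 - c.1 := by
        rw [mul_sub, mul_sub, mul_one, Matrix.mul_smul, mul_one]
      rw [e6, Matrix.trace_sub, Matrix.trace_sub, Matrix.trace_smul, smul_eq_mul]
      ring
    rw [t05_mul, e1, hk]
    have e7 : c.1 * (-1 - δ⁻¹ • ((s.1 - 1) * (1 - (u⁻¹).1))) =
        -c.1 - δ⁻¹ • (c.1 * ((s.1 - 1) * (1 - (u⁻¹).1))) := by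
      rw [mul_sub, Matrix.mul_smul]; simp
    rw [e7, Matrix.trace_sub, Matrix.trace_neg, Matrix.trace_smul, e2, smul_eq_mul]
    rw [hδ, ← hτ] at hd ⊢
    field_simp
    ring
  · rw [hk, t05_mul, t05_mul]
    have e := t05_P7 a.1 (a⁻¹).1 s.1 u.1 (u⁻¹).1 T (t05_inv_mul a) (t05_mul_inv a) (t05_mul_inv u)
      (by rw [hs, t05_mul, t05_mul, t05_mul]) huT (hTc _)
    have e2 : (1 + 1 - T) = δ • (1 : Matrix (Fin 2) (Fin 2) F) := by
      have e4 : (2 : F) • (1 : Matrix (Fin 2) (Fin 2) F) = 1 + 1 := two_smul F _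
      rw [hT, hδ, ← hτ, sub_smul, e4]
    rw [e2, Matrix.smul_mul, one_mul] at e
    have e3 : δ⁻¹ • ((s.1 - 1) * (1 - (u⁻¹).1)) + 1 =
        δ⁻¹ • ((s.1 - 1) * (1 - (u⁻¹).1) + δ • (1 : Matrix (Fin 2) (Fin 2) F)) := by
      rw [smul_add, smul_smul, inv_mul_cancel₀ hd, one_smul]
    rw [e3, Matrix.mul_smul, e, smul_smul, inv_mul_cancel₀ hd, one_smul]

theorem mSL_props (a b c : SL(2, F)) (h : a * (c * a * b * c⁻¹) * b = c * a * b * c⁻¹)
    (ht : (c * a * b * c⁻¹).1.trace ≠ 2) :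
    (mSL a b c)⁻¹ * (c * a * b * c⁻¹)⁻¹ * mSL a b c = c * a * b * c⁻¹ ∧
    (a * mSL a b c) ^ 3 = 1 ∧
    (a * mSL a b c) * (a * b) * (a * mSL a b c)⁻¹ = (c * a * b * c⁻¹)⁻¹ ∧
    (mSL a b c) ^ 2 = (c * (a * mSL a b c)⁻¹) ^ 2 ∧
    ((a * (c * a * b * c⁻¹) * a⁻¹).1 - 1) * ((a * mSL a b c).1 + 1) = (c * a * b * c⁻¹).1 - 1 ∧
    (a * mSL a b c).1.trace = -1 := by
  obtain ⟨hs, htr⟩ := t05_rel a b c h
  exact t05_core a c (c * a * b * c⁻¹) (a * b) (mSL a b c) hs htr (by group) ht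
    (mSL_coe a b c h ht)

end TorMut
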