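import Pool.Agent.Lib.MP_407fc5_gt.T05

/-!
# T06: the affine version (about 75 minutes)

`A, B, C ∈ Aff F` with linear parts `a, b, c ∈ SL(2, F)` which satisfy the linear relation, and
`U = C A B C⁻¹`.  `x = fixU = (1 - u)⁻¹ tr U` is the fixed point of `U`; `M = Maff` is the affine map with
linear part `m = mSL a b c` and fixed point `x`.
* (1) `M⁻¹ U⁻¹ M = U` without further assumptions: same linear part (`mSL_props`), both fix `x`
  (two affine maps with the same linear part which agree at a point are equal).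
* (2) If moreover `A U B = U` in `Aff F`: let `p` be the fixed point of `S = A B` (exists, since
  `1 - s` is invertible: `tr s = tr u ≠ 2`).  Then `C p = x` (both sides are the fixed point of
  `U`).  `S = A U⁻¹ A⁻¹ U` fixes `p`: put `y = A x`; `A U⁻¹ A⁻¹` fixes `y` and has linear part
  `a u⁻¹ a⁻¹`, and `U p = x + u (p - x)`; so `p - y = a u⁻¹ a⁻¹ (U p - y)`, i.e.
  `(a u a⁻¹ - 1)(y - p) = (u - 1)(x - p)`, hence `y - p = (k + 1)(x - p)` by `mSL_props`
  (`k = a m`; `a u a⁻¹ - 1` is invertible).  Then `K p = A (x + m (p - x)) = y + k (p - x) = x`.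
  - `K³ = 1`: linear part `1`, and `K` has a fixed point (`det (1 - k) = 2 - tr k = 3 ≠ 0`).
  - `K S K⁻¹ = U⁻¹`: linear parts agree, both fix `x = K p`.
  - `M² = (C K⁻¹)²`: linear parts agree, both fix `x` (`K⁻¹ x = p`, `C p = x`).
-/

namespace TorMut

open Matrix MatrixGroups

variable {F : Type*} [Field F]

/-- the fixed point of an affine map whose linear part has no eigenvalue `1` -/
noncomputable def fixPt (U : Aff F) : Fin 2 → F := ((1 - U.lin.1)⁻¹).mulVec U.tr

/-- the affine map with linear part `m` and fixed point `x` -/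
def affAt (m : GL (Fin 2) F) (x : Fin 2 → F) : Aff F := ⟨m, x - m.1.mulVec x⟩

/-- `M` -/
noncomputable def Maff (A B C : Aff F) (a b c : SL(2, F)) : Aff F :=
  affAt (SpecialLinearGroup.toGL (mSL a b c)) (fixPt (C * A * B * C⁻¹))

/-- the action on the plane -/
def t06act (A : Aff F) (x : Fin 2 → F) : Fin 2 → F := A.tr + A.lin.1.mulVec x

theorem t06_mul (A B : Aff F) (x : Fin 2 → F) : t06act (A * B) x = t06act A (t06act B x) := by
  simp only [t06act, Aff.mul_tr, Aff.mul_lin, Units.val_mul, Matrix.mulVec_add,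
    ← Matrix.mulVec_mulVec, add_assoc]

theorem t06_one (x : Fin 2 → F) : t06act (1 : Aff F) x = x := by
  simp [t06act]

theorem t06_inv_of {A : Aff F} {x y : Fin 2 → F} (h : t06act A x = y) : t06act A⁻¹ y = x := by
  rw [← h, ← t06_mul, inv_mul_cancel, t06_one]

theorem t06_ext {A B : Aff F} (h : A.lin = B.lin) (x : Fin 2 → F) (hx : t06act A x = t06act B x) :
    A = B := by
  apply Aff.ext h
  simp only [t06act, h] at hx
  exact add_right_cancel hx

theorem t06_sub (A : Aff F) (x y : Fin 2 → F) :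
    t06act A x = t06act A y + A.lin.1.mulVec (x - y) := by
  simp only [t06act, Matrix.mulVec_sub]; abel

theorem t06_fix (U : Aff F) (hd : (1 - U.lin.1).det ≠ 0) : t06act U (fixPt U) = fixPt U := by
  have h1 : (1 - U.lin.1).mulVec (fixPt U) = U.tr := by
    rw [fixPt, Matrix.mulVec_mulVec, Matrix.mul_nonsing_inv _ (isUnit_iff_ne_zero.2 hd),
      Matrix.one_mulVec]
  rw [Matrix.sub_mulVec, Matrix.one_mulVec] at h1
  rw [t06act, ← h1]; abel

theorem t06_inj {N : Matrix (Fin 2) (Fin 2) F} (hd : N.det ≠ 0) {v w : Fin 2 → F}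
    (h : N.mulVec v = N.mulVec w) : v = w := by
  have h1 : (N⁻¹).mulVec (N.mulVec v) = (N⁻¹).mulVec (N.mulVec w) := by rw [h]
  rwa [Matrix.mulVec_mulVec, Matrix.mulVec_mulVec, Matrix.nonsing_inv_mul _
    (isUnit_iff_ne_zero.2 hd), Matrix.one_mulVec, Matrix.one_mulVec] at h1

theorem t06_uniq (U : Aff F) (hd : (1 - U.lin.1).det ≠ 0) {x y : Fin 2 → F}
    (hx : t06act U x = x) (hy : t06act U y = y) : x = y := by
  apply t06_inj hd
  have h := t06_sub U x y
  rw [hx, hy, Matrix.mulVec_sub] at h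
  rw [Matrix.sub_mulVec, Matrix.sub_mulVec, Matrix.one_mulVec, Matrix.one_mulVec]
  generalize U.lin.1.mulVec x = v at h ⊢
  generalize U.lin.1.mulVec y = w at h ⊢
  rw [h]
  abel

theorem t06_affAt (m : GL (Fin 2) F) (x : Fin 2 → F) : t06act (affAt m x) x = x := by
  simp only [t06act, affAt, sub_add_cancel]

theorem t06_val (a : SL(2, F)) : (SpecialLinearGroup.toGL a).1 = a.1 := rfl

theorem t06_linU (A B C : Aff F) (a b c : SL(2, F)) (hA : A.lin = SpecialLinearGroup.toGL a)
    (hB : B.lin = SpecialLinearGroup.toGL b) (hC : C.lin = SpecialLinearGroup.toGL c) :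
    (C * A * B * C⁻¹).lin = SpecialLinearGroup.toGL (c * a * b * c⁻¹) := by
  simp only [Aff.mul_lin, Aff.inv_lin, hA, hB, hC, map_mul, map_inv]

theorem Maff_one (A B C : Aff F) (a b c : SL(2, F)) (hA : A.lin = SpecialLinearGroup.toGL a)
    (hB : B.lin = SpecialLinearGroup.toGL b) (hC : C.lin = SpecialLinearGroup.toGL c)
    (h : a * (c * a * b * c⁻¹) * b = c * a * b * c⁻¹) (ht : (c * a * b * c⁻¹).1.trace ≠ 2) :
    (Maff A B C a b c)⁻¹ * (C * A * B * C⁻¹)⁻¹ * Maff A B C a b c = C * A * B * C⁻¹ := by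
  have hU := t06_linU A B C a b c hA hB hC
  obtain ⟨h1, -⟩ := mSL_props a b c h ht
  have hM : (Maff A B C a b c).lin = SpecialLinearGroup.toGL (mSL a b c) := rfl
  have hMx : t06act (Maff A B C a b c) (fixPt (C * A * B * C⁻¹)) = fixPt (C * A * B * C⁻¹) :=
    t06_affAt _ _
  generalize Maff A B C a b c = M at hM hMx ⊢
  generalize C * A * B * C⁻¹ = U at hU hMx ⊢
  generalize mSL a b c = m at h1 hM
  generalize c * a * b * c⁻¹ = u at hU h1 ht
  have hd : (1 - U.lin.1).det ≠ 0 := by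
    rw [hU, t06_val, det_one_sub]; exact sub_ne_zero.2 ht.symm
  have hUx := t06_fix U hd
  apply t06_ext (x := fixPt U)
  · rw [Aff.mul_lin, Aff.mul_lin, Aff.inv_lin, Aff.inv_lin, hM, hU, ← map_inv, ← map_inv,
      ← map_mul, ← map_mul, h1]
  · rw [t06_mul, t06_mul, hMx, t06_inv_of hUx, t06_inv_of hMx, hUx]

theorem Maff_two (h3 : (3 : F) ≠ 0) (A B C : Aff F) (a b c : SL(2, F))
    (hA : A.lin = SpecialLinearGroup.toGL a)
    (hB : B.lin = SpecialLinearGroup.toGL b) (hC : C.lin = SpecialLinearGroup.toGL c)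
    (h : a * (c * a * b * c⁻¹) * b = c * a * b * c⁻¹) (ht : (c * a * b * c⁻¹).1.trace ≠ 2)
    (hU : A * (C * A * B * C⁻¹) * B = C * A * B * C⁻¹) :
    (A * Maff A B C a b c) ^ 3 = 1 ∧
    (A * Maff A B C a b c) * (A * B) * (A * Maff A B C a b c)⁻¹ = (C * A * B * C⁻¹)⁻¹ ∧
    (Maff A B C a b c) ^ 2 = (C * (A * Maff A B C a b c)⁻¹) ^ 2 := by
  have hUl := t06_linU A B C a b c hA hB hC
  obtain ⟨-, h1, h2, h4, h5, h6⟩ := mSL_props a b c h ht
  obtain ⟨-, htr⟩ := t05_rel a b c h
  have hM : (Maff A B C a b c).lin = SpecialLinearGroup.toGL (mSL a b c) := rfl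
  have hMx : t06act (Maff A B C a b c) (fixPt (C * A * B * C⁻¹)) = fixPt (C * A * B * C⁻¹) :=
    t06_affAt _ _
  have hSl : (A * B).lin = SpecialLinearGroup.toGL (a * b) := by
    rw [Aff.mul_lin, hA, hB, map_mul]
  have hCS : C * A * B * C⁻¹ = C * (A * B) * C⁻¹ := by group
  have hS : (A * (C * A * B * C⁻¹) * A⁻¹) * (A * B) = C * A * B * C⁻¹ := by
    calc A * (C * A * B * C⁻¹) * A⁻¹ * (A * B) = A * (C * A * B * C⁻¹) * B := by group
      _ = _ := hU
  generalize Maff A B C a b c = M at hM hMx ⊢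
  generalize C * A * B * C⁻¹ = U at hU hUl hMx hCS hS ⊢
  generalize A * B = S at hSl hCS hS ⊢
  generalize mSL a b c = m at h1 h2 h4 h5 h6 hM
  generalize c * a * b * c⁻¹ = u at h hUl h1 h2 h4 h5 ht htr
  have hdU : (1 - U.lin.1).det ≠ 0 := by
    rw [hUl, t06_val, det_one_sub]; exact sub_ne_zero.2 ht.symm
  have hdS : (1 - S.lin.1).det ≠ 0 := by
    rw [hSl, t06_val, det_one_sub, htr]; exact sub_ne_zero.2 ht.symm
  have hUx := t06_fix U hdU
  have hSp := t06_fix S hdS
  set x := fixPt U with hx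
  set p := fixPt S with hp
  have hCp : t06act C p = x := by
    apply t06_uniq U hdU _ hUx
    rw [hCS, t06_mul, t06_mul, t06_inv_of (rfl : t06act C p = t06act C p), hSp]
  -- `K p = x`
  have hKp : t06act (A * M) p = x := by
    obtain ⟨y, hy⟩ : ∃ y, y = t06act A x := ⟨_, rfl⟩
    have hVy : t06act (A * U * A⁻¹) y = y := by
      rw [t06_mul, t06_mul, t06_inv_of hy.symm, hUx, hy]
    have e1 : t06act (A * U * A⁻¹) p = t06act U p := by
      have := congrArg (fun Z => t06act Z p) hS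
      simp only [t06_mul _ S, hSp] at this
      exact this
    have hVl : (A * U * A⁻¹).lin = SpecialLinearGroup.toGL (a * u * a⁻¹) := by
      rw [Aff.mul_lin, Aff.mul_lin, Aff.inv_lin, hA, hUl, ← map_inv, ← map_mul, ← map_mul]
    have e2 := t06_sub (A * U * A⁻¹) p y
    have e3 := t06_sub U p x
    rw [hVy, hVl, t06_val] at e2
    rw [hUx, hUl, t06_val] at e3
    rw [e1, e3] at e2
    have e4 : ((a * u * a⁻¹).1 - 1).mulVec (p - y) = (u.1 - 1).mulVec (p - x) := by
      rw [Matrix.sub_mulVec, Matrix.sub_mulVec, Matrix.one_mulVec, Matrix.one_mulVec]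
      have : (a * u * a⁻¹).1.mulVec (p - y) = x + u.1.mulVec (p - x) - y := by rw [e2]; abel
      rw [this]; abel
    rw [← h5, ← Matrix.mulVec_mulVec] at e4
    have hd : ((a * u * a⁻¹).1 - 1).det ≠ 0 := by
      rw [t05_det_sub_one, t05_trace_conj]; exact sub_ne_zero.2 ht.symm
    have e5 := t06_inj hd e4
    have e6 := t06_sub M p x
    rw [hMx, hM, t06_val] at e6
    have e7 := t06_sub A (t06act M p) x
    rw [← hy, hA, t06_val, e6] at e7
    rw [t06_mul, e6, e7, add_sub_cancel_left, Matrix.mulVec_mulVec, ← t05_mul]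
    rw [Matrix.add_mulVec, Matrix.one_mulVec] at e5
    have e8 : (a * m).1.mulVec (p - x) = p - y - (p - x) := by rw [e5]; abel
    rw [e8]; abel
  have hKl : (A * M).lin = SpecialLinearGroup.toGL (a * m) := by
    rw [Aff.mul_lin, hA, hM, map_mul]
  generalize A * M = K at hKp hKl ⊢
  generalize a * m = k at h1 h2 h4 h5 h6 hKl
  have hpow : ∀ (X : Aff F) (y : SL(2, F)) (n : ℕ), X.lin = SpecialLinearGroup.toGL y →
      (X ^ n).lin = SpecialLinearGroup.toGL (y ^ n) := by
    intro X y n hX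
    induction n with
    | zero => rw [pow_zero, pow_zero, map_one, Aff.one_lin]
    | succ n ih => rw [pow_succ, pow_succ, Aff.mul_lin, ih, hX, map_mul]
  refine ⟨?_, ?_, ?_⟩
  · have hdK : (1 - K.lin.1).det ≠ 0 := by
      rw [hKl, t06_val, det_one_sub, h6]
      intro h0
      apply h3
      linear_combination h0
    have hKq := t06_fix K hdK
    apply t06_ext (x := fixPt K)
    · rw [hpow K k 3 hKl, h1, map_one, Aff.one_lin]
    · rw [pow_succ, pow_two, t06_mul, t06_mul, hKq, hKq, hKq, t06_one]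
  · apply t06_ext (x := x)
    · rw [Aff.mul_lin, Aff.mul_lin, Aff.inv_lin, Aff.inv_lin, hKl, hSl, hUl, ← map_inv, ← map_inv,
        ← map_mul, ← map_mul, h2]
    · rw [t06_mul, t06_mul, t06_inv_of hKp, hSp, hKp, t06_inv_of hUx]
  · apply t06_ext (x := x)
    · have e : (C * K⁻¹).lin = SpecialLinearGroup.toGL (c * k⁻¹) := by
        rw [Aff.mul_lin, Aff.inv_lin, hC, hKl, map_mul, map_inv]
      rw [hpow M m 2 hM, hpow _ _ 2 e, h4]
    · have e : t06act (C * K⁻¹) x = x := by rw [t06_mul, t06_inv_of hKp, hCp]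
      rw [pow_two, pow_two, t06_mul, t06_mul (C * K⁻¹), hMx, hMx, e, e]

end TorMut
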