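import Pool.Agent.Lib.MP_407fc5_gt.TDefs

/-!
# T07: linear algebra for the comparison of the determinants (about 75 minutes)

`V n = Fin n → Fin 2 → F`.
* `det_update`: `f` changes only the component `j`, by `z j ↦ M z j + (function of the other
  components)`.  (Matrix with respect to the standard basis `Fin n × Fin 2`: block triangular; or:
  write `f = shear ∘ block`; or induction.)
* `exists_factor`: linear maps with `ker ρ ≤ ker o` factor, `o = K ∘ ρ`.
* `det_main`: let `X z = (x z, y z, L1 z 2, L1 z 3)`.  Then `L1 = N1 ∘ X` with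
  `N1 (x, y, o) = (g1 (x + (1 - a2) A⁻¹ τ), g1 (y + (1 - a1) A⁻¹ τ), o)`, `τ = a1 x + y`, which is a product
  of maps as in `det_update`: `y ↦ y + a1 x` (now the second component is `τ`), then
  `x ↦ x + (1 - a2) A⁻¹ τ =: x'`, then `τ ↦ A⁻¹ τ - a1 x'` (this is
  `y + (1 - a1) A⁻¹ τ`, because `1 + a1 (1 - a2) A⁻¹ + (1 - a1) A⁻¹ = A⁻¹` as `a1 a2 = A`), then `g1` on both
  components.  So `det N1 = det g1 ² det A⁻¹ = 1`.  In the same way
  `L2 ∘ T = N2 ∘ X`, `N2 (x, y, o) = (g2 (x - (1 - a2) τ), g2 (y - (1 - a1) τ), o + K (x, y))` with `K` from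
  `exists_factor` applied to the difference of the last two components; the second component in terms
  of `x' = x - (1 - a2) τ` and `τ` is `A τ - a1 x'`; `det N2 = det g2 ² det A = 1`.
-/

namespace TorMut

open Matrix

variable {F : Type*} [Field F]

abbrev VV (F : Type*) (n : ℕ) := Fin n → Fin 2 → F

theorem t07_shear {V W : Type*} [AddCommGroup V] [Module F V] [Module.Finite F V]
    [AddCommGroup W] [Module F W] [Module.Finite F W] (A : W →ₗ[F] V) (B : V →ₗ[F] W)
    (h : B ∘ₗ A = 0) : LinearMap.det (1 + A ∘ₗ B) = 1 := by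
  classical
  let b := Module.finBasis F V
  let c := Module.finBasis F W
  rw [← LinearMap.det_toMatrix b]
  have e1 : LinearMap.toMatrix b b (1 + A ∘ₗ B) =
      1 + LinearMap.toMatrix c b A * LinearMap.toMatrix b c B := by
    rw [map_add, LinearMap.toMatrix_comp b c b, LinearMap.toMatrix_one]
  rw [e1, Matrix.det_one_add_mul_comm, ← LinearMap.toMatrix_comp c b c, h, map_zero, add_zero,
    Matrix.det_one]

theorem det_update {n : ℕ} (j : Fin n) (M : Matrix (Fin 2) (Fin 2) F) (f : VV F n →ₗ[F] VV F n)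
    (g : VV F n → Fin 2 → F) (hf : ∀ z i, i ≠ j → f z i = z i)
    (hj : ∀ z, f z j = M.mulVec (z j) + g z) (hg : ∀ z v, g (Function.update z j v) = g z) :
    LinearMap.det f = M.det := by
  classical
  let G : VV F n →ₗ[F] (Fin 2 → F) :=
    LinearMap.proj j ∘ₗ f - M.mulVecLin ∘ₗ LinearMap.proj j
  have hG : ∀ z, G z = g z := by
    intro z
    show f z j - M.mulVec (z j) = g z
    rw [hj z]
    abel
  let Bl : VV F n →ₗ[F] VV F n :=
    LinearMap.pi fun i => (if i = j then M.mulVecLin else LinearMap.id) ∘ₗ LinearMap.proj i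
  have hBl : LinearMap.det Bl = M.det := by
    rw [LinearMap.det_pi]
    rw [Finset.prod_eq_single j]
    · rw [if_pos rfl, ← Matrix.toLin'_apply', LinearMap.det_toLin']
    · intro i _ hi
      rw [if_neg hi, LinearMap.det_id]
    · intro h
      exact absurd (Finset.mem_univ _) h
  have hBlz : ∀ z i, Bl z i = if i = j then M.mulVec (z j) else z i := by
    intro z i
    show ((if i = j then M.mulVecLin else LinearMap.id) : (Fin 2 → F) →ₗ[F] (Fin 2 → F)) (z i) = _
    split_ifs with h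
    · rw [h]; rfl
    · rfl
  have hBlu : ∀ z, Bl z = Function.update z j (M.mulVec (z j)) := by
    intro z
    funext i
    rw [hBlz]
    by_cases h : i = j
    · subst h; simp
    · simp [h]
  have hcomp : f = (1 + (LinearMap.single F (fun _ : Fin n => Fin 2 → F) j) ∘ₗ G) ∘ₗ Bl := by
    apply LinearMap.ext
    intro z
    funext i
    have e : ((1 + (LinearMap.single F (fun _ : Fin n => Fin 2 → F) j) ∘ₗ G) ∘ₗ Bl :
        VV F n →ₗ[F] VV F n) z i = Bl z i + (Pi.single j (G (Bl z)) : VV F n) i := rfl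
    rw [e, hG, hBlu, hg]
    by_cases h : i = j
    · subst h
      rw [hj z]
      simp
    · rw [hf z i h]
      simp [h]
  rw [hcomp, LinearMap.det_comp, hBl, t07_shear, one_mul]
  apply LinearMap.ext
  intro v
  show G (Pi.single j v) = 0
  have h1 : (Pi.single j v : VV F n) = Function.update (0 : VV F n) j v := rfl
  rw [hG, h1, hg, ← hG, map_zero]

theorem exists_factor {V W W' : Type*} [AddCommGroup V] [Module F V] [AddCommGroup W] [Module F W]
    [AddCommGroup W'] [Module F W'] (ρ : V →ₗ[F] W) (o : V →ₗ[F] W')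
    (h : ∀ z, ρ z = 0 → o z = 0) : ∃ K : W →ₗ[F] W', ∀ z, o z = K (ρ z) := by
  obtain ⟨s, hs⟩ := ρ.rangeRestrict.exists_rightInverse_of_surjective
    (LinearMap.range_rangeRestrict ρ)
  obtain ⟨K, hK⟩ := LinearMap.exists_extend (o ∘ₗ s)
  refine ⟨K, fun z => ?_⟩
  have h1 : K (ρ z) = o (s ⟨ρ z, LinearMap.mem_range_self ρ z⟩) := by
    have := LinearMap.congr_fun hK ⟨ρ z, LinearMap.mem_range_self ρ z⟩
    exact this
  have h2 : ρ (s ⟨ρ z, LinearMap.mem_range_self ρ z⟩) = ρ z := by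
    have := LinearMap.congr_fun hs ⟨ρ z, LinearMap.mem_range_self ρ z⟩
    exact congrArg Subtype.val this
  have h3 : o (z - s ⟨ρ z, LinearMap.mem_range_self ρ z⟩) = 0 := by
    apply h
    rw [map_sub, h2, sub_self]
  rw [map_sub, sub_eq_zero] at h3
  rw [h1, h3]

/-- the linear map which changes the component `j` by `z j ↦ M z j + G z` -/
def t07_upd {n : ℕ} (j : Fin n) (M : Matrix (Fin 2) (Fin 2) F) (G : VV F n →ₗ[F] (Fin 2 → F)) :
    VV F n →ₗ[F] VV F n where
  toFun z := Function.update z j (M.mulVec (z j) + G z)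
  map_add' z w := by
    funext i
    by_cases h : i = j
    · subst h
      rw [Function.update_self, Pi.add_apply, Matrix.mulVec_add, map_add, Pi.add_apply,
        Function.update_self, Function.update_self]
      abel
    · simp [h]
  map_smul' c z := by
    funext i
    by_cases h : i = j
    · subst h
      rw [RingHom.id_apply, Function.update_self, Pi.smul_apply, Matrix.mulVec_smul, map_smul,
        Pi.smul_apply, Function.update_self, smul_add]
    · simp [h]

lemma t07_upd_apply {n : ℕ} (j : Fin n) (M : Matrix (Fin 2) (Fin 2) F)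
    (G : VV F n →ₗ[F] (Fin 2 → F)) (z : VV F n) :
    t07_upd j M G z = Function.update z j (M.mulVec (z j) + G z) := rfl

lemma t07_det {n : ℕ} (j : Fin n) (M : Matrix (Fin 2) (Fin 2) F)
    (G : VV F n →ₗ[F] (Fin 2 → F)) (h : ∀ z v, G (Function.update z j v) = G z) :
    LinearMap.det (t07_upd j M G) = M.det := by
  refine det_update j M _ (fun z => G z) ?_ ?_ h
  · intro z i hi
    rw [t07_upd_apply, Function.update_of_ne hi]
  · intro z
    rw [t07_upd_apply, Function.update_self]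

lemma t07_five (a B Q g : Matrix (Fin 2) (Fin 2) F) (dQ : Q.det = 1) (dg : g.det = 1) :
    ∃ N : VV F 4 →ₗ[F] VV F 4, LinearMap.det N = 1 ∧ ∀ w : VV F 4,
      N w 0 = g.mulVec (w 0 + B.mulVec (w 1 + a.mulVec (w 0))) ∧
      N w 1 = g.mulVec (Q.mulVec (w 1 + a.mulVec (w 0)) -
        a.mulVec (w 0 + B.mulVec (w 1 + a.mulVec (w 0)))) ∧
      N w 2 = w 2 ∧ N w 3 = w 3 := by
  have h10 : (1 : Fin 4) ≠ 0 := by decide
  have h01 : (0 : Fin 4) ≠ 1 := by decide
  have h20 : (2 : Fin 4) ≠ 0 := by decide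
  have h21 : (2 : Fin 4) ≠ 1 := by decide
  have h30 : (3 : Fin 4) ≠ 0 := by decide
  have h31 : (3 : Fin 4) ≠ 1 := by decide
  refine ⟨t07_upd 1 g 0 ∘ₗ t07_upd 0 g 0 ∘ₗ
    t07_upd 1 Q (-(a.mulVecLin ∘ₗ LinearMap.proj 0)) ∘ₗ
    t07_upd 0 1 (B.mulVecLin ∘ₗ LinearMap.proj 1) ∘ₗ
    t07_upd 1 1 (a.mulVecLin ∘ₗ LinearMap.proj 0), ?_, ?_⟩
  · have d1 : LinearMap.det (t07_upd (n := 4) 1 1 (a.mulVecLin ∘ₗ LinearMap.proj 0)) = 1 := by
      rw [t07_det, Matrix.det_one]
      intro z v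
      show a.mulVec (Function.update z 1 v 0) = a.mulVec (z 0)
      rw [Function.update_of_ne h01]
    have d2 : LinearMap.det (t07_upd (n := 4) 0 1 (B.mulVecLin ∘ₗ LinearMap.proj 1)) = 1 := by
      rw [t07_det, Matrix.det_one]
      intro z v
      show B.mulVec (Function.update z 0 v 1) = B.mulVec (z 1)
      rw [Function.update_of_ne h10]
    have d3 : LinearMap.det (t07_upd (n := 4) 1 Q (-(a.mulVecLin ∘ₗ LinearMap.proj 0))) = 1 := by
      rw [t07_det, dQ]
      intro z v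
      show -(a.mulVec (Function.update z 1 v 0)) = -(a.mulVec (z 0))
      rw [Function.update_of_ne h01]
    have d4 : LinearMap.det (t07_upd (n := 4) 0 g 0) = 1 := by
      rw [t07_det _ _ _ (fun z v => rfl), dg]
    have d5 : LinearMap.det (t07_upd (n := 4) 1 g 0) = 1 := by
      rw [t07_det _ _ _ (fun z v => rfl), dg]
    rw [LinearMap.det_comp, LinearMap.det_comp, LinearMap.det_comp, LinearMap.det_comp, d1, d2, d3,
      d4, d5]
    ring
  · intro w
    simp only [LinearMap.comp_apply, t07_upd_apply]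
    have g3 : ∀ z : VV F 4, (-(a.mulVecLin ∘ₗ LinearMap.proj 0) : VV F 4 →ₗ[F] (Fin 2 → F)) z =
      -(a.mulVec (z 0)) := fun z => rfl
    have g4 : ∀ z : VV F 4, (0 : VV F 4 →ₗ[F] (Fin 2 → F)) z = 0 := fun z => rfl
    simp only [g3, g4, Matrix.one_mulVec, Function.update_self, Function.update_of_ne h10,
      Function.update_of_ne h01, Function.update_of_ne h20, Function.update_of_ne h21,
      Function.update_of_ne h30, Function.update_of_ne h31, add_zero, and_self, and_true]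
    rw [sub_eq_add_neg]
    exact ⟨rfl, rfl⟩

lemma t07_v1 (a1 a2 B : Matrix (Fin 2) (Fin 2) F) (hB : a1 * a2 * B = 1)
    (x y t : Fin 2 → F) (ht : t = a1.mulVec x + y) :
    y + (1 - a1).mulVec (B.mulVec t) =
      B.mulVec t - a1.mulVec (x + (1 - a2).mulVec (B.mulVec t)) := by
  have h1 : a1.mulVec (a2.mulVec (B.mulVec t)) = t := by
    rw [Matrix.mulVec_mulVec, Matrix.mulVec_mulVec, hB, Matrix.one_mulVec]
  have h2 : y = t - a1.mulVec x := by rw [ht]; abel
  rw [Matrix.sub_mulVec, Matrix.sub_mulVec, Matrix.one_mulVec, Matrix.mulVec_add,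
    Matrix.mulVec_sub, h1, h2]
  abel

lemma t07_v2 (a1 a2 A : Matrix (Fin 2) (Fin 2) F) (hA : A = a1 * a2)
    (x y t : Fin 2 → F) (ht : t = a1.mulVec x + y) :
    y - (1 - a1).mulVec t = A.mulVec t - a1.mulVec (x + (-(1 - a2)).mulVec t) := by
  have h1 : a1.mulVec (a2.mulVec t) = A.mulVec t := by rw [Matrix.mulVec_mulVec, hA]
  have h2 : y = t - a1.mulVec x := by rw [ht]; abel
  rw [Matrix.neg_mulVec, Matrix.sub_mulVec, Matrix.sub_mulVec, Matrix.one_mulVec,
    Matrix.mulVec_add, Matrix.mulVec_neg, Matrix.mulVec_sub, h1, h2]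
  abel

lemma t07_two (K2 K3 : (Fin 2 → F) × (Fin 2 → F) →ₗ[F] (Fin 2 → F)) :
    ∃ N : VV F 4 →ₗ[F] VV F 4, LinearMap.det N = 1 ∧ ∀ w : VV F 4,
      N w 0 = w 0 ∧ N w 1 = w 1 ∧ N w 2 = w 2 + K2 (w 0, w 1) ∧ N w 3 = w 3 + K3 (w 0, w 1) := by
  have h02 : (0 : Fin 4) ≠ 2 := by decide
  have h12 : (1 : Fin 4) ≠ 2 := by decide
  have h32 : (3 : Fin 4) ≠ 2 := by decide
  have h03 : (0 : Fin 4) ≠ 3 := by decide
  have h13 : (1 : Fin 4) ≠ 3 := by decide
  have h23 : (2 : Fin 4) ≠ 3 := by decide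
  let pr : VV F 4 →ₗ[F] (Fin 2 → F) × (Fin 2 → F) := (LinearMap.proj 0).prod (LinearMap.proj 1)
  have hpr : ∀ z, pr z = (z 0, z 1) := fun z => rfl
  refine ⟨t07_upd 3 1 (K3 ∘ₗ pr) ∘ₗ t07_upd 2 1 (K2 ∘ₗ pr), ?_, ?_⟩
  · have d1 : LinearMap.det (t07_upd 2 1 (K2 ∘ₗ pr)) = 1 := by
      rw [t07_det, Matrix.det_one]
      intro z v
      rw [LinearMap.comp_apply, LinearMap.comp_apply, hpr, hpr, Function.update_of_ne h02,
        Function.update_of_ne h12]
    have d2 : LinearMap.det (t07_upd 3 1 (K3 ∘ₗ pr)) = 1 := by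
      rw [t07_det, Matrix.det_one]
      intro z v
      rw [LinearMap.comp_apply, LinearMap.comp_apply, hpr, hpr, Function.update_of_ne h03,
        Function.update_of_ne h13]
    rw [LinearMap.det_comp, d1, d2, one_mul]
  · intro w
    simp only [LinearMap.comp_apply, t07_upd_apply, hpr, Matrix.one_mulVec, Function.update_self,
      Function.update_of_ne h02, Function.update_of_ne h12, Function.update_of_ne h32,
      Function.update_of_ne h03, Function.update_of_ne h13, Function.update_of_ne h23, and_self]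

theorem det_main (L1 L2 T : VV F 4 →ₗ[F] VV F 4) (x y : VV F 4 →ₗ[F] (Fin 2 → F))
    (a1 a2 A g1 g2 : Matrix (Fin 2) (Fin 2) F) (hA : A = a1 * a2) (dA : A.det = 1)
    (dg1 : g1.det = 1) (dg2 : g2.det = 1) (dT : LinearMap.det T = 1)
    (H10 : ∀ z, L1 z 0 = g1.mulVec (x z + (1 - a2).mulVec (A⁻¹.mulVec (a1.mulVec (x z) + y z))))
    (H11 : ∀ z, L1 z 1 = g1.mulVec (y z + (1 - a1).mulVec (A⁻¹.mulVec (a1.mulVec (x z) + y z))))
    (H20 : ∀ z, L2 (T z) 0 = g2.mulVec (x z - (1 - a2).mulVec (a1.mulVec (x z) + y z)))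
    (H21 : ∀ z, L2 (T z) 1 = g2.mulVec (y z - (1 - a1).mulVec (a1.mulVec (x z) + y z)))
    (H3 : ∀ z, x z = 0 → y z = 0 → L2 (T z) 2 = L1 z 2 ∧ L2 (T z) 3 = L1 z 3) :
    LinearMap.det L1 = LinearMap.det L2 := by
  have uA : IsUnit A.det := by rw [dA]; exact isUnit_one
  have hAi : a1 * a2 * A⁻¹ = 1 := by rw [← hA]; exact Matrix.mul_nonsing_inv A uA
  have dAi : A⁻¹.det = 1 := by rw [Matrix.det_nonsing_inv, dA, Ring.inverse_one]
  -- the map `X`
  let X : VV F 4 →ₗ[F] VV F 4 := LinearMap.pi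
    ![x, y, LinearMap.proj 2 ∘ₗ L1, LinearMap.proj 3 ∘ₗ L1]
  have X0 : ∀ z, X z 0 = x z := fun z => rfl
  have X1 : ∀ z, X z 1 = y z := fun z => rfl
  have X2 : ∀ z, X z 2 = L1 z 2 := fun z => rfl
  have X3 : ∀ z, X z 3 = L1 z 3 := fun z => rfl
  -- first map
  obtain ⟨N1, dN1, hN1⟩ := t07_five a1 ((1 - a2) * A⁻¹) A⁻¹ g1 dAi dg1
  have e1 : L1 = N1 ∘ₗ X := by
    apply LinearMap.ext
    intro z
    obtain ⟨q0, q1, q2, q3⟩ := hN1 (X z)
    rw [X0, X1] at q0 q1
    funext i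
    rw [LinearMap.comp_apply]
    fin_cases i
    · show L1 z 0 = N1 (X z) 0
      rw [H10, q0, ← Matrix.mulVec_mulVec, add_comm (y z)]
    · show L1 z 1 = N1 (X z) 1
      rw [H11, q1, ← Matrix.mulVec_mulVec, add_comm (y z) (a1.mulVec (x z)),
        t07_v1 a1 a2 A⁻¹ hAi (x z) (y z) _ rfl]
    · show L1 z 2 = N1 (X z) 2
      rw [q2, X2]
    · show L1 z 3 = N1 (X z) 3
      rw [q3, X3]
  have d1 : LinearMap.det L1 = LinearMap.det X := by
    have h : LinearMap.det L1 = LinearMap.det (N1 ∘ₗ X) := congrArg _ e1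
    rw [h, LinearMap.det_comp, dN1, one_mul]
  -- second map
  obtain ⟨K, hK⟩ := exists_factor (x.prod y)
    ((LinearMap.proj 2 ∘ₗ L2 ∘ₗ T - LinearMap.proj 2 ∘ₗ L1).prod
      (LinearMap.proj 3 ∘ₗ L2 ∘ₗ T - LinearMap.proj 3 ∘ₗ L1)) (by
      intro z hz
      have h1 : x z = 0 := congrArg Prod.fst hz
      have h2 : y z = 0 := congrArg Prod.snd hz
      obtain ⟨h3, h4⟩ := H3 z h1 h2
      show (L2 (T z) 2 - L1 z 2, L2 (T z) 3 - L1 z 3) = (0, 0)
      rw [h3, h4, sub_self, sub_self])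
  have hK2 : ∀ z, L2 (T z) 2 - L1 z 2 = (K (x z, y z)).1 := fun z => congrArg Prod.fst (hK z)
  have hK3 : ∀ z, L2 (T z) 3 - L1 z 3 = (K (x z, y z)).2 := fun z => congrArg Prod.snd (hK z)
  obtain ⟨N2, dN2, hN2⟩ := t07_five a1 (-(1 - a2)) A g2 dA dg2
  obtain ⟨N3, dN3, hN3⟩ := t07_two (LinearMap.fst F _ _ ∘ₗ K) (LinearMap.snd F _ _ ∘ₗ K)
  have e2 : L2 ∘ₗ T = (N2 ∘ₗ N3) ∘ₗ X := by
    apply LinearMap.ext
    intro z
    obtain ⟨q0, q1, q2, q3⟩ := hN2 (N3 (X z))
    obtain ⟨r0, r1, r2, r3⟩ := hN3 (X z)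
    rw [r0, r1, X0, X1] at q0 q1
    rw [r2, X0, X1, X2] at q2
    rw [r3, X0, X1, X3] at q3
    funext i
    rw [LinearMap.comp_apply, LinearMap.comp_apply, LinearMap.comp_apply]
    fin_cases i
    · show L2 (T z) 0 = N2 (N3 (X z)) 0
      rw [H20, q0, add_comm (y z), Matrix.neg_mulVec, sub_eq_add_neg]
    · show L2 (T z) 1 = N2 (N3 (X z)) 1
      rw [H21, q1, add_comm (y z) (a1.mulVec (x z)), t07_v2 a1 a2 A hA (x z) (y z) _ rfl]
    · show L2 (T z) 2 = N2 (N3 (X z)) 2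
      rw [q2]
      have := hK2 z
      show L2 (T z) 2 = L1 z 2 + (K (x z, y z)).1
      rw [← this]
      abel
    · show L2 (T z) 3 = N2 (N3 (X z)) 3
      rw [q3]
      have := hK3 z
      show L2 (T z) 3 = L1 z 3 + (K (x z, y z)).2
      rw [← this]
      abel
  have d2 : LinearMap.det L2 = LinearMap.det X := by
    have h : LinearMap.det (L2 ∘ₗ T) = LinearMap.det ((N2 ∘ₗ N3) ∘ₗ X) := by rw [e2]
    rw [LinearMap.det_comp, LinearMap.det_comp, LinearMap.det_comp, dT, dN2, dN3, mul_one, one_mul,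
      one_mul] at h
    exact h
  rw [d1, d2]

end TorMut
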