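import Pool.Agent.Lib.MP_407fc5_gt.TDefs

/-!
# T08: translation parts of the inner relators (about 60 minutes)

`x`, `y` are the translation parts of `a2 U b1 U⁻¹` and `a1 U b2 U⁻¹` (linear parts `1`), and
`τ = a1 x + y` is the translation part of `A U B U⁻¹ = (a1 (a2 U b1 U⁻¹) a1⁻¹) (a1 U b2 U⁻¹)`.
* conjugation by `g` of a translation by `v` is the translation by `g v`;
* `U B⁻¹ = t⁻¹ A U` with the translation `t = A U B U⁻¹` up to conjugation: precisely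
  `U B U⁻¹ = A⁻¹ t`, so `U (B⁻¹ b1 B) U⁻¹ = t⁻¹ A (U b1 U⁻¹) A⁻¹ t` and
  `(A a2 A⁻¹) t⁻¹ A (U b1 U⁻¹) A⁻¹ t = A [a2 (A⁻¹ t⁻¹ A) (U b1 U⁻¹) (A⁻¹ t A)] A⁻¹`, whose translation
  part is `A (x - a2 A⁻¹ τ + A⁻¹ τ)`;
* `U (B b1 B⁻¹) U⁻¹ = A⁻¹ t (U b1 U⁻¹) t⁻¹ A`, so `(A⁻¹ a2 A) (…) = A⁻¹ [a2 t (U b1 U⁻¹) t⁻¹] A`, translation
  part `A⁻¹ (x + a2 τ - τ)`.
All four formulas were checked numerically.
-/

namespace TorMut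

open Matrix

variable {F : Type*} [Field F]

lemma trans_mul (s t : Aff F) (hs : s.lin = 1) (ht : t.lin = 1) :
    (s * t).lin = 1 ∧ (s * t).tr = s.tr + t.tr := by
  constructor
  · rw [Aff.mul_lin, hs, ht, mul_one]
  · rw [Aff.mul_tr, hs, Units.val_one, Matrix.one_mulVec]

lemma trans_inv (t : Aff F) (ht : t.lin = 1) :
    (t⁻¹).lin = 1 ∧ (t⁻¹).tr = -t.tr := by
  constructor
  · rw [Aff.inv_lin, ht, inv_one]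
  · rw [Aff.inv_tr, ht, inv_one, Units.val_one, Matrix.one_mulVec]

lemma conj_trans (g t : Aff F) (ht : t.lin = 1) :
    (g * t * g⁻¹).lin = 1 ∧ (g * t * g⁻¹).tr = g.lin.1.mulVec t.tr := by
  have h1 : (g * t * g⁻¹).lin = 1 := by
    rw [Aff.mul_lin, Aff.mul_lin, Aff.inv_lin, ht]; group
  refine ⟨h1, ?_⟩
  have h2 : (g * t * g⁻¹ * g).tr = (g * t * g⁻¹).tr + g.tr := by
    rw [Aff.mul_tr, h1, Units.val_one, Matrix.one_mulVec]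
  have h3 : g * t * g⁻¹ * g = g * t := by group
  rw [h3, Aff.mul_tr, add_comm] at h2
  exact (add_right_cancel h2).symm

/-- the common computation -/
lemma rows_core (a X T g : Aff F) (hX : X.lin = 1) (hT : T.lin = 1) :
    (g * (a * T * a⁻¹ * X * T⁻¹) * g⁻¹).tr =
      g.lin.1.mulVec (X.tr - (1 - a.lin.1).mulVec T.tr) := by
  have e1 := conj_trans a T hT
  have e2 := trans_mul (a * T * a⁻¹) X e1.1 hX
  have e3 := trans_inv T hT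
  have e4 := trans_mul (a * T * a⁻¹ * X) T⁻¹ e2.1 e3.1
  rw [(conj_trans g _ e4.1).2, e4.2, e2.2, e1.2, e3.2, Matrix.sub_mulVec, Matrix.one_mulVec]
  congr 1
  abel

lemma rows_tau (a1 a2 b1 b2 U A B : Aff F) (hA : A = a1 * a2) (hB : B = b1 * b2) :
    A * (U * B * U⁻¹) = a1 * (a2 * U * b1 * U⁻¹) * a1⁻¹ * (a1 * U * b2 * U⁻¹) := by
  rw [hA, hB]; group

lemma rows_tau' (a1 X Y T A : Aff F) (hT : T = a1 * X * a1⁻¹ * Y) (hX : X.lin = 1)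
    (hY : Y.lin = 1) : T.lin = 1 ∧ T.tr = a1.lin.1.mulVec X.tr + Y.tr ∧
      (A⁻¹ * T⁻¹ * A).lin = 1 ∧
      (A⁻¹ * T⁻¹ * A).tr = -((A.lin.1)⁻¹.mulVec (a1.lin.1.mulVec X.tr + Y.tr)) := by
  have e1 := conj_trans a1 X hX
  have e2 := trans_mul (a1 * X * a1⁻¹) Y e1.1 hY
  rw [← hT, e1.2] at e2
  have e3 := trans_inv T e2.1
  have e4 := conj_trans A⁻¹ T⁻¹ e3.1
  rw [inv_inv] at e4
  refine ⟨e2.1, e2.2, e4.1, ?_⟩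
  rw [e4.2, e3.2, e2.2, Matrix.mulVec_neg, Aff.inv_lin, Matrix.coe_units_inv]

theorem rows_one (a1 a2 b1 b2 U g A B : Aff F) (hA : A = a1 * a2) (hB : B = b1 * b2)
    (hx : (a2 * U * b1 * U⁻¹).lin = 1) (hy : (a1 * U * b2 * U⁻¹).lin = 1) (x y : Fin 2 → F)
    (hx' : x = (a2 * U * b1 * U⁻¹).tr) (hy' : y = (a1 * U * b2 * U⁻¹).tr) :
    (g * ((A * a2 * A⁻¹) * (U * (B⁻¹ * b1 * B) * U⁻¹)) * g⁻¹).tr =
      (g * A).lin.1.mulVec (x + (1 - a2.lin.1).mulVec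
        ((A.lin.1)⁻¹.mulVec (a1.lin.1.mulVec x + y))) ∧
    (g * ((A * a1 * A⁻¹) * (U * (B⁻¹ * b2 * B) * U⁻¹)) * g⁻¹).tr =
      (g * A).lin.1.mulVec (y + (1 - a1.lin.1).mulVec
        ((A.lin.1)⁻¹.mulVec (a1.lin.1.mulVec x + y))) := by
  have hT := rows_tau a1 a2 b1 b2 U A B hA hB
  obtain ⟨t1, t2, t3, t4⟩ := rows_tau' a1 (a2 * U * b1 * U⁻¹) (a1 * U * b2 * U⁻¹)
    (A * (U * B * U⁻¹)) A hT hx hy
  constructor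
  · have e : g * ((A * a2 * A⁻¹) * (U * (B⁻¹ * b1 * B) * U⁻¹)) * g⁻¹ =
        (g * A) * (a2 * (A⁻¹ * (A * (U * B * U⁻¹))⁻¹ * A) * a2⁻¹ * (a2 * U * b1 * U⁻¹) *
          (A⁻¹ * (A * (U * B * U⁻¹))⁻¹ * A)⁻¹) * (g * A)⁻¹ := by group
    rw [e, rows_core a2 _ _ (g * A) hx t3, t4, ← hx', ← hy', Matrix.mulVec_neg, sub_neg_eq_add]
  · have e : g * ((A * a1 * A⁻¹) * (U * (B⁻¹ * b2 * B) * U⁻¹)) * g⁻¹ =
        (g * A) * (a1 * (A⁻¹ * (A * (U * B * U⁻¹))⁻¹ * A) * a1⁻¹ * (a1 * U * b2 * U⁻¹) *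
          (A⁻¹ * (A * (U * B * U⁻¹))⁻¹ * A)⁻¹) * (g * A)⁻¹ := by group
    rw [e, rows_core a1 _ _ (g * A) hy t3, t4, ← hx', ← hy', Matrix.mulVec_neg, sub_neg_eq_add]

theorem rows_two (a1 a2 b1 b2 U g A B : Aff F) (hA : A = a1 * a2) (hB : B = b1 * b2)
    (hx : (a2 * U * b1 * U⁻¹).lin = 1) (hy : (a1 * U * b2 * U⁻¹).lin = 1) (x y : Fin 2 → F)
    (hx' : x = (a2 * U * b1 * U⁻¹).tr) (hy' : y = (a1 * U * b2 * U⁻¹).tr) :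
    (g * ((A⁻¹ * a2 * A) * (U * (B * b1 * B⁻¹) * U⁻¹)) * g⁻¹).tr =
      (g * A⁻¹).lin.1.mulVec (x - (1 - a2.lin.1).mulVec (a1.lin.1.mulVec x + y)) ∧
    (g * ((A⁻¹ * a1 * A) * (U * (B * b2 * B⁻¹) * U⁻¹)) * g⁻¹).tr =
      (g * A⁻¹).lin.1.mulVec (y - (1 - a1.lin.1).mulVec (a1.lin.1.mulVec x + y)) := by
  have hT := rows_tau a1 a2 b1 b2 U A B hA hB
  obtain ⟨t1, t2, t3, t4⟩ := rows_tau' a1 (a2 * U * b1 * U⁻¹) (a1 * U * b2 * U⁻¹)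
    (A * (U * B * U⁻¹)) A hT hx hy
  constructor
  · have e : g * ((A⁻¹ * a2 * A) * (U * (B * b1 * B⁻¹) * U⁻¹)) * g⁻¹ =
        (g * A⁻¹) * (a2 * (A * (U * B * U⁻¹)) * a2⁻¹ * (a2 * U * b1 * U⁻¹) *
          (A * (U * B * U⁻¹))⁻¹) * (g * A⁻¹)⁻¹ := by group
    rw [e, rows_core a2 _ _ (g * A⁻¹) hx t1, t2, ← hx', ← hy']
  · have e : g * ((A⁻¹ * a1 * A) * (U * (B * b2 * B⁻¹) * U⁻¹)) * g⁻¹ =
        (g * A⁻¹) * (a1 * (A * (U * B * U⁻¹)) * a1⁻¹ * (a1 * U * b2 * U⁻¹) *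
          (A * (U * B * U⁻¹))⁻¹) * (g * A⁻¹)⁻¹ := by group
    rw [e, rows_core a1 _ _ (g * A⁻¹) hy t1, t2, ← hx', ← hy']

end TorMut
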