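import Pool.Agent.Lib.MP_407fc5_gt.T02
import Pool.Agent.Lib.MP_407fc5_gt.T06
import Pool.Agent.Lib.MP_407fc5_gt.T07

/-!
# T09: families of affine maps which depend linearly on a parameter (about 90 minutes)

`LF V` is the subgroup of the group of functions `V → Aff F` consisting of the families
`z ↦ ⟨L, ℓ z⟩` with a constant linear part `L` and a linear map `ℓ`.  Everything that is built from the
generators by `run` and group operations is in `LF`, and also `z ↦ Maff (A z) (B z) (C z) a b c`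
(the fixed point depends linearly on the translation part).

`subst_det`: the substitution `T z = (z 0, z 1, tr (e1 z), tr (e2 z))`.  Write `x_C = tr (C z) =
z 2 + Φ3 (z 3)`.  `tr (M z) = (1 - m)(1 - u)⁻¹ tr (U z)`, `tr (U z) = (1 - u) x_C + c tr (S z)`, and
`tr (E z) = a⁻¹ c⁻¹ tr M - a⁻¹ c⁻¹ x_C - a⁻¹ tr A`, so `tr (E z) = - (a⁻¹ c⁻¹ m) x_C + (function of z 0, z 1)`.
`tr (e2 z) = h⁻¹ g (z 3) + (function of z 0, z 1, x_C)` (with `h`, `g` the linear parts of
`A E A E⁻¹`, `C⁻¹ A⁻¹ C`), `tr (e1 z) = tr (E z) - Φ'3 tr (e2 z)`.  So `T` is the product of the maps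
(numbering of `VV F 4`): `z 2 ↦ z 2 + Φ3 z 3` (this is `x_C`); `z 3 ↦ h⁻¹ g z 3 + …`; `z 2 ↦ - (a⁻¹c⁻¹m) z 2 + …`
(this is `tr E`); `z 2 ↦ z 2 - Φ'3 z 3`.  All have determinant `1` by `det_update`.
-/

namespace TorMut

open Matrix MatrixGroups

variable {F : Type*} [Field F] {V : Type*} [AddCommGroup V] [Module F V]

/-- families of affine maps with constant linear part and linear translation part -/
def LF (F : Type*) [Field F] (V : Type*) [AddCommGroup V] [Module F V] : Subgroup (V → Aff F) where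
  carrier := {X | ∃ (L : GL (Fin 2) F) (ℓ : V →ₗ[F] (Fin 2 → F)), ∀ z, X z = ⟨L, ℓ z⟩}
  mul_mem' := by
    rintro X Y ⟨L, ℓ, h⟩ ⟨L', ℓ', h'⟩
    refine ⟨L * L', ℓ + (Matrix.mulVecLin L.1) ∘ₗ ℓ', fun z => ?_⟩
    rw [Pi.mul_apply, h z, h' z]
    rfl
  one_mem' := ⟨1, 0, fun _ => rfl⟩
  inv_mem' := by
    rintro X ⟨L, ℓ, h⟩
    refine ⟨L⁻¹, -((Matrix.mulVecLin (L⁻¹).1) ∘ₗ ℓ), fun z => ?_⟩
    rw [Pi.inv_apply, h z]
    rfl

theorem mem_LF {X : V → Aff F} : X ∈ LF F V ↔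
    ∃ (L : GL (Fin 2) F) (ℓ : V →ₗ[F] (Fin 2 → F)), ∀ z, X z = ⟨L, ℓ z⟩ := Iff.rfl

/-- `run` stays in a subgroup -/
theorem run_mem {G : Type*} [Group G] (K : Subgroup G) (g : ℕ → G) (k : ℕ) (s : List G) (w : Word)
    (hg : ∀ n, g n ∈ K) (hs : ∀ x ∈ s, x ∈ K) :
    (∀ x ∈ (run g k s w).1, x ∈ K) ∧ ∀ x ∈ (run g k s w).2, x ∈ K := by
  induction w generalizing k s with
  | nil => exact ⟨fun x hx => hs x hx, fun x hx => absurd hx (by simp [run])⟩
  | cons l w ih =>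
    have hget : ∀ i, s.getD i 1 ∈ K := by
      intro i
      rw [List.getD_eq_getElem?_getD]
      rcases hi : s[i]? with _ | y
      · simpa using K.one_mem
      · simpa using hs y (List.mem_of_getElem? hi)
    have htake : ∀ i, ∀ x ∈ s.take i, x ∈ K := fun i x hx => hs x (List.mem_of_mem_take hx)
    have hdrop : ∀ i, ∀ x ∈ s.drop i, x ∈ K := fun i x hx => hs x (List.mem_of_mem_drop hx)
    cases l with
    | birth i =>
      simp only [run]
      apply ih
      intro x hx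
      simp only [List.mem_append, List.mem_cons, List.not_mem_nil, or_false] at hx
      rcases hx with (hx | hx | hx) | hx
      · exact htake i x hx
      · rw [hx]; exact hg k
      · rw [hx]; exact K.inv_mem (hg k)
      · exact hdrop i x hx
    | death i =>
      simp only [run]
      have h1 : ∀ x ∈ s.take i ++ s.drop (i + 2), x ∈ K := by
        intro x hx
        rcases List.mem_append.mp hx with hx | hx
        · exact htake i x hx
        · exact hdrop (i + 2) x hx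
      refine ⟨(ih k _ h1).1, ?_⟩
      intro x hx
      rcases List.mem_cons.mp hx with hx | hx
      · rw [hx]; exact K.mul_mem (hget i) (hget (i + 1))
      · exact (ih k _ h1).2 x hx
    | cross i b =>
      cases b with
      | true =>
        simp only [run]
        apply ih
        intro x hx
        simp only [List.mem_append, List.mem_cons, List.not_mem_nil, or_false] at hx
        rcases hx with (hx | hx | hx) | hx
        · exact htake i x hx
        · rw [hx]; exact hget (i + 1)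
        · rw [hx]
          exact K.mul_mem (K.mul_mem (K.inv_mem (hget (i + 1))) (hget i)) (hget (i + 1))
        · exact hdrop (i + 2) x hx
      | false =>
        simp only [run]
        apply ih
        intro x hx
        simp only [List.mem_append, List.mem_cons, List.not_mem_nil, or_false] at hx
        rcases hx with (hx | hx | hx) | hx
        · exact htake i x hx
        · rw [hx]
          exact K.mul_mem (K.mul_mem (hget i) (hget (i + 1))) (K.inv_mem (hget i))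
        · rw [hx]; exact hget i
        · exact hdrop (i + 2) x hx

theorem Maff_mem (A B C : V → Aff F) (a b c : SL(2, F)) (hA : A ∈ LF F V) (hB : B ∈ LF F V)
    (hC : C ∈ LF F V) : (fun z => Maff (A z) (B z) (C z) a b c) ∈ LF F V := by
  have hU : C * A * B * C⁻¹ ∈ LF F V :=
    (LF F V).mul_mem ((LF F V).mul_mem ((LF F V).mul_mem hC hA) hB) ((LF F V).inv_mem hC)
  obtain ⟨L, ℓ, h⟩ := hU
  have hfix : ∀ z, fixPt (C z * A z * B z * (C z)⁻¹) =
      ((Matrix.mulVecLin ((1 - L.1)⁻¹)) ∘ₗ ℓ) z := by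
    intro z
    have h2 : C z * A z * B z * (C z)⁻¹ = ⟨L, ℓ z⟩ := h z
    rw [h2]
    rfl
  refine ⟨SpecialLinearGroup.toGL (mSL a b c),
    ((Matrix.mulVecLin ((1 - L.1)⁻¹)) ∘ₗ ℓ) -
      (Matrix.mulVecLin (SpecialLinearGroup.toGL (mSL a b c)).1) ∘ₗ
        ((Matrix.mulVecLin ((1 - L.1)⁻¹)) ∘ₗ ℓ), fun z => ?_⟩
  show affAt _ (fixPt (C z * A z * B z * (C z)⁻¹)) = _
  rw [hfix z]
  rfl

theorem t09_det_two (T : VV F 4 →ₗ[F] VV F 4) (α β : Matrix (Fin 2) (Fin 2) F)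
    (g f : VV F 4 → Fin 2 → F) (h0 : ∀ z, T z 0 = z 0) (h1 : ∀ z, T z 1 = z 1)
    (h2 : ∀ z, T z 2 = α.mulVec (z 2) + g z) (h3 : ∀ z, T z 3 = β.mulVec (z 3) + f z)
    (hg2 : ∀ z v, g (Function.update z 2 v) = g z) (hg3 : ∀ z v, g (Function.update z 3 v) = g z)
    (hf : ∀ z v, f (Function.update z 3 v) = f z) : LinearMap.det T = α.det * β.det := by
  let P : VV F 4 →ₗ[F] VV F 4 := LinearMap.pi fun i =>
    if i = 2 then (LinearMap.proj 2) ∘ₗ T else LinearMap.proj i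
  let Q : VV F 4 →ₗ[F] VV F 4 := LinearMap.pi fun i =>
    if i = 3 then (LinearMap.proj 3) ∘ₗ T else LinearMap.proj i
  have hP : ∀ z i, P z i = if i = 2 then T z 2 else z i := by
    intro z i
    by_cases hi : i = 2
    · simp [P, hi]
    · simp [P, hi]
  have hQ : ∀ z i, Q z i = if i = 3 then T z 3 else z i := by
    intro z i
    by_cases hi : i = 3
    · simp [Q, hi]
    · simp [Q, hi]
  have dP : LinearMap.det P = α.det := by
    apply det_update 2 α P g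
    · intro z i hi
      rw [hP, if_neg hi]
    · intro z
      rw [hP, if_pos rfl, h2]
    · exact hg2
  have dQ : LinearMap.det Q = β.det := by
    apply det_update 3 β Q f
    · intro z i hi
      rw [hQ, if_neg hi]
    · intro z
      rw [hQ, if_pos rfl, h3]
    · exact hf
  have hPQ : T = P ∘ₗ Q := by
    apply LinearMap.ext
    intro z
    have hQz : Q z = Function.update z 3 (T z 3) := by
      funext i
      rw [hQ]
      by_cases hi : i = 3
      · rw [if_pos hi, hi, Function.update_self]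
      · rw [if_neg hi, Function.update_of_ne hi]
    funext i
    rw [LinearMap.comp_apply, hP]
    have hcases : i = 0 ∨ i = 1 ∨ i = 2 ∨ i = 3 := by
      revert i; decide
    rcases hcases with hi | hi | hi | hi
    · subst hi
      rw [if_neg (by decide), hQz, Function.update_of_ne (by decide), h0]
    · subst hi
      rw [if_neg (by decide), hQz, Function.update_of_ne (by decide), h1]
    · subst hi
      rw [if_pos rfl, hQz, h2 (Function.update z 3 (T z 3)), hg3,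
        Function.update_of_ne (by decide), h2 z]
    · subst hi
      rw [if_neg (by decide), hQz, Function.update_self]
  rw [hPQ, LinearMap.det_comp, dP, dQ]

theorem t09_shear (N : Matrix (Fin 2) (Fin 2) F) : ∃ S : VV F 4 →ₗ[F] VV F 4,
    LinearMap.det S = 1 ∧ (∀ z i, i ≠ 2 → S z i = z i) ∧ ∀ z, S z 2 = z 2 + N.mulVec (z 3) := by
  let S : VV F 4 →ₗ[F] VV F 4 := LinearMap.pi fun i =>
    if i = 2 then LinearMap.proj 2 + (Matrix.mulVecLin N) ∘ₗ
      (LinearMap.proj (R := F) (φ := fun _ : Fin 4 => Fin 2 → F) 3)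
    else LinearMap.proj i
  have h1 : ∀ z i, i ≠ 2 → S z i = z i := by
    intro z i hi
    simp [S, hi]
  have h2 : ∀ z, S z 2 = z 2 + N.mulVec (z 3) := by
    intro z
    simp [S]
  refine ⟨S, ?_, h1, h2⟩
  rw [← Matrix.det_one (n := Fin 2) (R := F)]
  apply det_update 2 1 S (fun z => N.mulVec (z 3)) h1
  · intro z
    rw [h2, Matrix.one_mulVec]
  · intro z v
    simp only [Function.update_of_ne (show (3 : Fin 4) ≠ 2 by decide)]

theorem t09_gl_inv (a : SL(2, F)) : (SpecialLinearGroup.toGL a)⁻¹ =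
    SpecialLinearGroup.toGL a⁻¹ := (map_inv _ a).symm

theorem t09_trE (A B C : Aff F) (a b c : SL(2, F))
    (hA : A.lin = SpecialLinearGroup.toGL a) (hB : B.lin = SpecialLinearGroup.toGL b)
    (hC : C.lin = SpecialLinearGroup.toGL c) (ht : (c * a * b * c⁻¹).1.trace ≠ 2)
    (m : Matrix (Fin 2) (Fin 2) F) (hm : m = (mSL a b c).1) :
    (A⁻¹ * C⁻¹ * Maff A B C a b c).tr =
      (-(((a⁻¹).1 * (c⁻¹).1) * m)).mulVec C.tr +
        (-((a⁻¹).1.mulVec A.tr) + ((a⁻¹).1 * (c⁻¹).1).mulVec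
          ((1 - (c * a * b * c⁻¹).1)⁻¹.mulVec (c.1.mulVec (A * B).tr) -
            m.mulVec ((1 - (c * a * b * c⁻¹).1)⁻¹.mulVec (c.1.mulVec (A * B).tr)))) := by
  subst hm
  have hdet : IsUnit (1 - (c * a * b * c⁻¹).1).det := by
    rw [det_one_sub, isUnit_iff_ne_zero]
    exact sub_ne_zero.mpr ht.symm
  have hU : (C * A * B * C⁻¹).lin = SpecialLinearGroup.toGL (c * a * b * c⁻¹) := by
    simp only [Aff.mul_lin, Aff.inv_lin, hA, hB, hC, map_mul, map_inv]
  have hUtr : (C * A * B * C⁻¹).tr = (1 - (c * a * b * c⁻¹).1).mulVec C.tr +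
      c.1.mulVec (A * B).tr := by
    have h1 : (C * A * B * C⁻¹) = C * (A * B) * C⁻¹ := by group
    rw [h1]
    simp only [Aff.mul_tr, Aff.mul_lin, Aff.inv_tr, hA, hB, hC]
    rw [t09_gl_inv, Matrix.mulVec_neg, Matrix.mulVec_mulVec, Matrix.sub_mulVec,
      Matrix.one_mulVec]
    have h2 : ((SpecialLinearGroup.toGL c) * ((SpecialLinearGroup.toGL a) *
        (SpecialLinearGroup.toGL b))).1 * (SpecialLinearGroup.toGL c⁻¹).1 =
        (c * a * b * c⁻¹).1 := by
      rw [← Units.val_mul, ← map_mul, ← map_mul, ← map_mul]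
      simp only [mul_assoc]
      rfl
    rw [h2]
    have h3 : (SpecialLinearGroup.toGL c).1 = c.1 := rfl
    rw [h3]
    abel
  have hfix : fixPt (C * A * B * C⁻¹) = C.tr +
      (1 - (c * a * b * c⁻¹).1)⁻¹.mulVec (c.1.mulVec (A * B).tr) := by
    unfold fixPt
    rw [hU, hUtr]
    have h3 : (SpecialLinearGroup.toGL (c * a * b * c⁻¹)).1 = (c * a * b * c⁻¹).1 := rfl
    rw [h3, Matrix.mulVec_add, Matrix.mulVec_mulVec, Matrix.nonsing_inv_mul _ hdet,
      Matrix.one_mulVec]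
  have h4 : (Maff A B C a b c).tr = fixPt (C * A * B * C⁻¹) -
      (mSL a b c).1.mulVec (fixPt (C * A * B * C⁻¹)) := rfl
  simp only [Aff.mul_tr, Aff.mul_lin, Aff.inv_tr, Aff.inv_lin, hA, hC, h4, hfix, t09_gl_inv]
  have h5 : ∀ x : SL(2, F), (SpecialLinearGroup.toGL x).1 = x.1 := fun _ => rfl
  rw [Units.val_mul]
  simp only [h5, Matrix.mulVec_neg, Matrix.neg_mulVec, Matrix.mulVec_sub, Matrix.mulVec_add,
    ← Matrix.mulVec_mulVec]
  abel

theorem subst_det (A B : VV F 4 → Aff F) (a b c : SL(2, F))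
    (hA : A ∈ LF F (VV F 4)) (hB : B ∈ LF F (VV F 4))
    (hAd : ∀ z z' : VV F 4, z 0 = z' 0 → z 1 = z' 1 → A z = A z' ∧ B z = B z')
    (hAl : ∀ z, (A z).lin = SpecialLinearGroup.toGL a)
    (hBl : ∀ z, (B z).lin = SpecialLinearGroup.toGL b)
    (Φ3 Φ4 : GL (Fin 2) F) (hC : Φ3 * Φ4 = SpecialLinearGroup.toGL c)
    (h : a * (c * a * b * c⁻¹) * b = c * a * b * c⁻¹) (ht : (c * a * b * c⁻¹).1.trace ≠ 2)
    (c1 c2 C M E h' e1 e2 : VV F 4 → Aff F) (hc1 : ∀ z, c1 z = ⟨Φ3, z 2⟩)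
    (hc2 : ∀ z, c2 z = ⟨Φ4, z 3⟩) (hCz : ∀ z, C z = c1 z * c2 z)
    (hM : ∀ z, M z = Maff (A z) (B z) (C z) a b c) (hE : ∀ z, E z = (A z)⁻¹ * (C z)⁻¹ * M z)
    (hh : ∀ z, h' z = A z * E z * A z * (E z)⁻¹)
    (he2 : ∀ z, e2 z = (h' z)⁻¹ *
      (((C z)⁻¹ * (A z)⁻¹ * C z) * c2 z * ((C z)⁻¹ * (A z)⁻¹ * C z)⁻¹) * h' z)
    (he1 : ∀ z, e1 z = E z * (e2 z)⁻¹) :
    ∃ T : VV F 4 →ₗ[F] VV F 4, LinearMap.det T = 1 ∧
      ∀ z, T z 0 = z 0 ∧ T z 1 = z 1 ∧ T z 2 = (e1 z).tr ∧ T z 3 = (e2 z).tr := by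
  have _h := h
  have mc1 : c1 ∈ LF F (VV F 4) := ⟨Φ3, LinearMap.proj 2, fun z => hc1 z⟩
  have mc2 : c2 ∈ LF F (VV F 4) := ⟨Φ4, LinearMap.proj 3, fun z => hc2 z⟩
  have mC : C ∈ LF F (VV F 4) := by
    have h1 : C = c1 * c2 := funext hCz
    rw [h1]
    exact (LF F (VV F 4)).mul_mem mc1 mc2
  have mM : M ∈ LF F (VV F 4) := by
    have h1 : M = fun z => Maff (A z) (B z) (C z) a b c := funext hM
    rw [h1]
    exact Maff_mem A B C a b c hA hB mC
  have mE : E ∈ LF F (VV F 4) := by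
    have h1 : E = A⁻¹ * C⁻¹ * M := funext hE
    rw [h1]
    exact mul_mem (mul_mem (inv_mem hA) (inv_mem mC)) mM
  have mh : h' ∈ LF F (VV F 4) := by
    have h1 : h' = A * E * A * E⁻¹ := funext hh
    rw [h1]
    exact mul_mem (mul_mem (mul_mem hA mE) hA) (inv_mem mE)
  have mg : (C⁻¹ * A⁻¹ * C) ∈ LF F (VV F 4) :=
    mul_mem (mul_mem (inv_mem mC) (inv_mem hA)) mC
  have me2 : e2 ∈ LF F (VV F 4) := by
    have h1 : e2 = h'⁻¹ * ((C⁻¹ * A⁻¹ * C) * c2 * (C⁻¹ * A⁻¹ * C)⁻¹) * h' := funext he2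
    rw [h1]
    exact mul_mem (mul_mem (inv_mem mh) (mul_mem (mul_mem mg mc2) (inv_mem mg))) mh
  have me1 : e1 ∈ LF F (VV F 4) := by
    have h1 : e1 = E * e2⁻¹ := funext he1
    rw [h1]
    exact mul_mem mE (inv_mem me2)
  obtain ⟨L1, ℓ1, hl1⟩ := me1
  obtain ⟨L2, ℓ2, hl2⟩ := me2
  -- the linear parts
  have hClin : ∀ z, (C z).lin = SpecialLinearGroup.toGL c := by
    intro z
    rw [hCz, hc1, hc2, ← hC]
    rfl
  have hElin : ∀ z, (E z).lin = SpecialLinearGroup.toGL (a⁻¹ * c⁻¹ * mSL a b c) := by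
    intro z
    rw [hE, hM]
    simp only [Aff.mul_lin, Aff.inv_lin, hAl, hClin, map_mul, map_inv]
    rfl
  obtain ⟨e, he⟩ : ∃ e, e = a⁻¹ * c⁻¹ * mSL a b c := ⟨_, rfl⟩
  rw [← he] at hElin
  have hhlin : ∀ z, (h' z).lin = SpecialLinearGroup.toGL (a * e * a * e⁻¹) := by
    intro z
    rw [hh]
    simp only [Aff.mul_lin, Aff.inv_lin, hAl, hElin, map_mul, map_inv]
  have hXlin : ∀ z, ((h' z)⁻¹ * ((C z)⁻¹ * (A z)⁻¹ * C z)).lin =
      SpecialLinearGroup.toGL ((a * e * a * e⁻¹)⁻¹ * (c⁻¹ * a⁻¹ * c)) := by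
    intro z
    simp only [Aff.mul_lin, Aff.inv_lin, hAl, hClin, hhlin, map_mul, map_inv]
  obtain ⟨x, hx⟩ : ∃ x, x = (a * e * a * e⁻¹)⁻¹ * (c⁻¹ * a⁻¹ * c) := ⟨_, rfl⟩
  rw [← hx] at hXlin
  obtain ⟨σ, dσ, σ1, σ2⟩ := t09_shear (-Φ3.1)
  obtain ⟨ρ, dρ, ρ1, ρ2⟩ := t09_shear L1.1
  let T : VV F 4 →ₗ[F] VV F 4 := LinearMap.pi ![LinearMap.proj 0, LinearMap.proj 1, ℓ1, ℓ2]
  have hT0 : ∀ z, T z 0 = z 0 := fun z => rfl
  have hT1 : ∀ z, T z 1 = z 1 := fun z => rfl
  have hT2 : ∀ z, T z 2 = (e1 z).tr := fun z => by rw [hl1]; rfl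
  have hT3 : ∀ z, T z 3 = (e2 z).tr := fun z => by rw [hl2]; rfl
  refine ⟨T, ?_, fun z => ⟨hT0 z, hT1 z, hT2 z, hT3 z⟩⟩
  -- dependence only on the first two components
  have dep2 : ∀ w v, A (σ (Function.update w 2 v)) = A (σ w) ∧
      B (σ (Function.update w 2 v)) = B (σ w) := by
    intro w v
    apply hAd
    · rw [σ1 _ 0 (by decide), σ1 _ 0 (by decide), Function.update_of_ne (by decide)]
    · rw [σ1 _ 1 (by decide), σ1 _ 1 (by decide), Function.update_of_ne (by decide)]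
  have dep3 : ∀ w v, A (σ (Function.update w 3 v)) = A (σ w) ∧
      B (σ (Function.update w 3 v)) = B (σ w) := by
    intro w v
    apply hAd
    · rw [σ1 _ 0 (by decide), σ1 _ 0 (by decide), Function.update_of_ne (by decide)]
    · rw [σ1 _ 1 (by decide), σ1 _ 1 (by decide), Function.update_of_ne (by decide)]
  have hCσ : ∀ w, C (σ w) = ⟨SpecialLinearGroup.toGL c, w 2⟩ := by
    intro w
    apply Aff.ext
    · exact hClin _
    · rw [hCz, hc1, hc2]
      show (σ w) 2 + Φ3.1.mulVec ((σ w) 3) = w 2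
      rw [σ2, σ1 _ 3 (by decide), Matrix.neg_mulVec]
      abel
  have depC : ∀ w v, C (σ (Function.update w 3 v)) = C (σ w) := by
    intro w v
    rw [hCσ, hCσ, Function.update_of_ne (by decide)]
  have depE : ∀ w v, E (σ (Function.update w 3 v)) = E (σ w) := by
    intro w v
    rw [hE, hE, hM, hM, (dep3 w v).1, (dep3 w v).2, depC]
  have dephh : ∀ w v, h' (σ (Function.update w 3 v)) = h' (σ w) := by
    intro w v
    rw [hh, hh, (dep3 w v).1, depE]
  have key : LinearMap.det (ρ ∘ₗ T ∘ₗ σ) =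
      (-(((a⁻¹).1 * (c⁻¹).1) * (mSL a b c).1)).det * x.1.det := by
    apply t09_det_two (ρ ∘ₗ T ∘ₗ σ) (-(((a⁻¹).1 * (c⁻¹).1) * (mSL a b c).1)) x.1
      (fun w => (-((a⁻¹).1.mulVec (A (σ w)).tr) + ((a⁻¹).1 * (c⁻¹).1).mulVec
          ((1 - (c * a * b * c⁻¹).1)⁻¹.mulVec (c.1.mulVec (A (σ w) * B (σ w)).tr) -
            (mSL a b c).1.mulVec ((1 - (c * a * b * c⁻¹).1)⁻¹.mulVec
              (c.1.mulVec (A (σ w) * B (σ w)).tr)))))
      (fun w => ((h' (σ w))⁻¹ * ((C (σ w))⁻¹ * (A (σ w))⁻¹ * C (σ w))).tr +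
        x.1.mulVec (Φ4.1.mulVec
          (((h' (σ w))⁻¹ * ((C (σ w))⁻¹ * (A (σ w))⁻¹ * C (σ w)))⁻¹).tr))
    · intro z
      rw [LinearMap.comp_apply, LinearMap.comp_apply, ρ1 _ 0 (by decide), hT0,
        σ1 _ 0 (by decide)]
    · intro z
      rw [LinearMap.comp_apply, LinearMap.comp_apply, ρ1 _ 1 (by decide), hT1,
        σ1 _ 1 (by decide)]
    · intro z
      rw [LinearMap.comp_apply, LinearMap.comp_apply, ρ2, hT2, hT3]
      have h1 : (e1 (σ z)).tr + L1.1.mulVec (e2 (σ z)).tr = (E (σ z)).tr := by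
        have h2 : E (σ z) = e1 (σ z) * e2 (σ z) := by rw [he1]; group
        rw [h2, Aff.mul_tr]
        congr 3
        rw [hl1]
      rw [h1, hE, hM, t09_trE _ _ _ a b c (hAl _) (hBl _) (hClin _) ht _ rfl]
      rw [hCσ z]
    · intro z
      rw [LinearMap.comp_apply, LinearMap.comp_apply, ρ1 _ 3 (by decide), hT3]
      have h1 : e2 (σ z) = ((h' (σ z))⁻¹ * ((C (σ z))⁻¹ * (A (σ z))⁻¹ * C (σ z))) * c2 (σ z) *
          ((h' (σ z))⁻¹ * ((C (σ z))⁻¹ * (A (σ z))⁻¹ * C (σ z)))⁻¹ := by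
        rw [he2]
        group
      have h5 := hXlin (σ z)
      rw [h1]
      generalize (h' (σ z))⁻¹ * ((C (σ z))⁻¹ * (A (σ z))⁻¹ * C (σ z)) = X at h5 ⊢
      rw [Aff.mul_tr, Aff.mul_tr, Aff.mul_lin, h5, hc2]
      have h3 : (SpecialLinearGroup.toGL x).1 = x.1 := rfl
      rw [Units.val_mul, h3, ← Matrix.mulVec_mulVec]
      show _ + x.1.mulVec ((σ z) 3) + _ = _
      rw [σ1 _ 3 (by decide)]
      abel
    · intro z v
      simp only [(dep2 z v).1, (dep2 z v).2]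
    · intro z v
      simp only [(dep3 z v).1, (dep3 z v).2]
    · intro z v
      simp only [(dep3 z v).1, (dep3 z v).2, depC, dephh]
  rw [LinearMap.det_comp, LinearMap.det_comp, dσ, dρ, one_mul, mul_one] at key
  rw [key]
  have hneg : (-(((a⁻¹).1 * (c⁻¹).1) * (mSL a b c).1)).det = 1 := by
    rw [Matrix.det_neg, Matrix.det_mul, Matrix.det_mul, (a⁻¹).2, (c⁻¹).2, (mSL a b c).2]
    simp
  rw [hneg, x.2, one_mul]

end TorMut
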