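import Pool.Agent.Lib.MP_407fc5_gt.T01
import Pool.Agent.Lib.MP_407fc5_gt.T03
import Pool.Agent.Lib.MP_407fc5_gt.T04
import Pool.Agent.Lib.MP_407fc5_gt.T08
import Pool.Agent.Lib.MP_407fc5_gt.T09

/-!
# T10: the determinants of the two Fox Jacobians agree (about 120 minutes)

`births D₁ = births D₂ = 5` (`rfl`), so the matrices are indexed by `Fin 4 × Fin 2`.
Let `L1 : VV F 4 → VV F 4` be given by `L1 z i = tr (relator i)` where the relators are those of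
`run (gens Φ z) 0 [] D₁`, `gens Φ z k = ⟨Φ k, 0 or z (k-1)⟩`; similarly `L2` with `Φ'`, `D₂`.  They are linear
(`foxJac_mulVec`, `fox_add`, `fox_smul`, `run_relators`), and `det (foxJac D₁ Φ) = LinearMap.det L1`
(currying of the index set).
`D₁ = top ++ box1 ++ bot`: `run_append` three times; `top` contains no deaths, `run_box1` gives the first two
relators and the colours above `bot`; `run_length` (list of length 6 below `top`).  The same for `D₂`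
with the generators `e1 z`, `e2 z` (`gens Φ' (T z)`), where `e1`, `e2` come from `subst_det`
(`Φ' 3`, `Φ' 4` are the linear parts of `e1 z`, `e2 z`: hypotheses `h'3`, `h'4`).
Apply `det_main` with `x z = tr (a2 U b1 U⁻¹)`, `y z = tr (a1 U b2 U⁻¹)`,
`g1 = lin (C⁻¹ A⁻¹ C⁻¹ A)`, `g2 = lin (A E A⁻¹)` (determinant 1), `rows_one`, `rows_two`
(the `U` of the second box is the same by `Maff_one` and `key_one`).  `H3`: if `x z = y z = 0` then
`a2 U b1 U⁻¹ = 1 = a1 U b2 U⁻¹` in `Aff F`, hence `A U B = U`, and by `Maff_two` and `box_eq` the outputs of the two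
boxes agree, so the remaining relators (of `bot`) agree.
Linear relations: `hrel` says that all relators have linear part `1`; by `rel_box1` (in `GL`) this gives
the hypotheses `hx`, `hy` of T08 and `a (c a b c⁻¹) b = c a b c⁻¹`.
-/

namespace TorMut

open Matrix MatrixGroups

variable {F : Type*} [Field F]


section group
variable {G H : Type*} [Group G] [Group H]

theorem t10_nodeath (g : ℕ → G) (k : ℕ) (s : List G) (w : Word)
    (h : ∀ i, Layer.death i ∉ w) : (run g k s w).2 = [] := by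
  induction w generalizing k s with
  | nil => rfl
  | cons l w ih =>
    have h' : ∀ i, Layer.death i ∉ w := fun i hi => h i (List.mem_cons_of_mem _ hi)
    cases l with
    | birth i => exact ih _ _ h'
    | death i => exact absurd List.mem_cons_self (h i)
    | cross i b =>
      cases b with
      | true => exact ih _ _ h'
      | false => exact ih _ _ h'

theorem t10_list6 (l : List G) (h : l.length = 6) :
    l = [l.getD 0 1, l.getD 1 1, l.getD 2 1, l.getD 3 1, l.getD 4 1, l.getD 5 1] := by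
  match l, h with
  | [_, _, _, _, _, _], _ => rfl

theorem t10_top (g : ℕ → G) :
    run g 0 [] top = ([tc g 0, tc g 1, tc g 2, tc g 3, tc g 4, tc g 5], []) := by
  have h1 : (run g 0 [] top).2 = [] := by
    apply t10_nodeath
    intro i hi
    simp [top] at hi
  have h2 : (run g 0 [] top).1.length = 6 := by
    rw [run_length g 0 [] top (by simp [top, OK, Layer.ok, Layer.out])]
    simp [top, width, Layer.out]
  have h3 := t10_list6 _ h2
  exact Prod.ext h3 h1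

theorem t10_tc_map (f : G →* H) (g : ℕ → G) (j : ℕ) : f (tc g j) = tc (fun n => f (g n)) j := by
  have h := run_map f g 0 [] top
  rw [List.map_nil] at h
  unfold tc
  rw [h]
  simp only [List.getD_eq_getElem?_getD, List.getElem?_map]
  rcases (run g 0 [] top).1[j]? with _ | y
  · simp
  · simp

theorem t10_tc_congr (g g' : ℕ → G) (h : ∀ n, n < 3 → g n = g' n) (j : ℕ) :
    tc g j = tc g' j := by
  unfold tc
  rw [run_congr g g' 0 [] top (fun n _ hn => h n (by simpa [top, births] using hn))]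

theorem t10_bot (g g' : ℕ → G) (k k' : ℕ) (s : List G) (hk : k = k') :
    run g k s bot = run g' k' s bot := by
  subst hk
  apply run_congr
  intro n h1 h2
  exact absurd h2 (by simp [bot, births, h1])

theorem t10_D1 (g : ℕ → G) (A B C U : G) (hA : A = tc g 0 * tc g 1) (hB : B = tc g 2 * tc g 3)
    (hC : C = g 3 * g 4) (hU : U = C * A * B * C⁻¹) :
    (run g 0 [] D₁).2 =
      (C⁻¹ * A⁻¹ * C⁻¹) * ((A * tc g 1 * A⁻¹) * (U * (B⁻¹ * tc g 2 * B) * U⁻¹)) *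
        (C⁻¹ * A⁻¹ * C⁻¹)⁻¹ ::
      (C⁻¹ * A⁻¹ * C⁻¹) * ((A * tc g 0 * A⁻¹) * (U * (B⁻¹ * tc g 3 * B) * U⁻¹)) *
        (C⁻¹ * A⁻¹ * C⁻¹)⁻¹ ::
      (run g 5 (((C⁻¹ * A⁻¹ * C) * g 3 * (C⁻¹ * A⁻¹ * C)⁻¹) ::
        ((C⁻¹ * A⁻¹ * C) * g 4 * (C⁻¹ * A⁻¹ * C)⁻¹) ::
        ((C⁻¹ * B * C) * (g 4)⁻¹ * (C⁻¹ * B * C)⁻¹) ::
        ((C⁻¹ * B * C) * (g 3)⁻¹ * (C⁻¹ * B * C)⁻¹) :: [tc g 4, tc g 5]) bot).2 := by
  have hb1 : 0 + births top = 3 := rfl
  have hb2 : 0 + births (top ++ box1) = 5 := rfl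
  unfold D₁
  rw [run_append, run_append, t10_top, hb1, hb2]
  simp only [List.nil_append]
  rw [run_box1 g 3 (tc g 0) (tc g 1) (tc g 2) (tc g 3) [tc g 4, tc g 5] A B C U hA hB hC hU]
  rfl

theorem t10_D2 (g : ℕ → G) (A B E U : G) (hA : A = tc g 0 * tc g 1) (hB : B = tc g 2 * tc g 3)
    (hE : E = g 3 * g 4) (hU : U = E⁻¹ * A⁻¹ * B⁻¹ * E) :
    (run g 0 [] D₂).2 =
      (A * E) * ((A⁻¹ * tc g 1 * A) * (U * (B * tc g 2 * B⁻¹) * U⁻¹)) * (A * E)⁻¹ ::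
      (A * E) * ((A⁻¹ * tc g 0 * A) * (U * (B * tc g 3 * B⁻¹) * U⁻¹)) * (A * E)⁻¹ ::
      (run g 5 (((A * E * A * E⁻¹) * g 3 * (A * E * A * E⁻¹)⁻¹) ::
        ((A * E * A * E⁻¹) * g 4 * (A * E * A * E⁻¹)⁻¹) ::
        ((B⁻¹ * E * B⁻¹ * E⁻¹) * (g 4)⁻¹ * (B⁻¹ * E * B⁻¹ * E⁻¹)⁻¹) ::
        ((B⁻¹ * E * B⁻¹ * E⁻¹) * (g 3)⁻¹ * (B⁻¹ * E * B⁻¹ * E⁻¹)⁻¹) :: [tc g 4, tc g 5]) bot).2 := by
  have hb1 : 0 + births top = 3 := rfl
  have hb2 : 0 + births (top ++ box2) = 5 := rfl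
  unfold D₂
  rw [run_append, run_append, t10_top, hb1, hb2]
  simp only [List.nil_append]
  rw [run_box2 g 3 (tc g 0) (tc g 1) (tc g 2) (tc g 3) [tc g 4, tc g 5] A B E U hA hB hE hU]
  rfl

theorem t10_getD2 (x y : G) (l : List G) : (x :: y :: l).getD 2 1 = l.getD 0 1 := rfl

theorem t10_getD3 (x y : G) (l : List G) : (x :: y :: l).getD 3 1 = l.getD 1 1 := rfl

end group

attribute [local irreducible] tc run

/-- the generators in the affine group -/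
def t10_gens (Φ : ℕ → GL (Fin 2) F) (z : VV F 4) (k : ℕ) : Aff F :=
  ⟨Φ k, if h : 0 < k ∧ k < 5 then z ⟨k - 1, by omega⟩ else 0⟩

theorem t10_det (D : Word) (hD : births D = 5) (Φ : ℕ → GL (Fin 2) F) :
    ∃ L : VV F 4 →ₗ[F] VV F 4, LinearMap.det L = (foxJac D fun k => Φ k.1).det ∧
      ∀ z i, L z i = ((run (t10_gens Φ z) 0 [] D).2.getD i.1 1).tr := by
  classical
  let e : Fin (births D - 1) ≃ Fin 4 := finCongr (by omega)
  let e2 : Fin (births D - 1) × Fin 2 ≃ Fin 4 × Fin 2 := e.prodCongr (Equiv.refl _)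
  let J := Matrix.reindex e2 e2 (foxJac D fun k => Φ k.1)
  let cu : (Fin 4 × Fin 2 → F) ≃ₗ[F] (Fin 4 → Fin 2 → F) := LinearEquiv.curry F F (Fin 4) (Fin 2)
  refine ⟨cu.toLinearMap ∘ₗ (Matrix.toLin' J) ∘ₗ cu.symm.toLinearMap, ?_, ?_⟩
  · rw [LinearMap.det_conj, LinearMap.det_toLin', Matrix.det_reindex_self]
  · intro z i
    have h1 : (foxHom (fun k : Fin (births D) => Φ k.1) (ext0 (fun j => z (e j)))
        ((relators D).getD (e.symm i).1 1)) =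
        ((run (t10_gens Φ z) 0 [] D).2.getD i.1 1) := by
      have h2 := run_relators D (fun k => Φ k.1) (ext0 (fun j => z (e j)))
      have h3 : (run (t10_gens Φ z) 0 [] D) =
          run (fun k => if h : k < births D then
            (⟨Φ (⟨k, h⟩ : Fin (births D)).1, ext0 (fun j => z (e j)) ⟨k, h⟩⟩ : Aff F) else 1)
            0 [] D := by
        apply run_congr
        intro n _ hn
        have hn' : n < births D := by omega
        rw [dif_pos hn']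
        unfold t10_gens ext0
        congr 1
        by_cases h0 : 0 < n
        · rw [dif_pos ⟨h0, by omega⟩, dif_pos h0]
          rfl
        · rw [dif_neg (by omega), dif_neg h0]
      rw [h3, ← h2]
      simp only [List.getD_eq_getElem?_getD, List.getElem?_map]
      have h4 : (e.symm i).1 = i.1 := rfl
      rw [h4]
      rcases (relators D)[i.1]? with _ | y
      · simp
      · simp
    rw [← h1]
    funext r
    rw [← foxJac_mulVec]
    show (J.mulVec (fun x => z x.1 x.2)) (i, r) = _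
    unfold Matrix.mulVec dotProduct
    rw [← Equiv.sum_comp e2]
    rfl

theorem fox_det_eq (h3 : (3 : F) ≠ 0) (Φ Φ' : ℕ → GL (Fin 2) F) (a b c : SL(2, F))
    (hA : tc Φ 0 * tc Φ 1 = SpecialLinearGroup.toGL a)
    (hB : tc Φ 2 * tc Φ 3 = SpecialLinearGroup.toGL b)
    (hC : Φ 3 * Φ 4 = SpecialLinearGroup.toGL c)
    (ht : (c * a * b * c⁻¹).1.trace ≠ 2)
    (hrel : ∀ r ∈ (run Φ 0 [] D₁).2, r = 1)
    (h'012 : ∀ k, k < 3 → Φ' k = Φ k)
    (E h' : SL(2, F)) (hE : E = a⁻¹ * c⁻¹ * mSL a b c) (hh : h' = a * E * a * E⁻¹)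
    (h'4 : Φ' 4 = (SpecialLinearGroup.toGL h')⁻¹ *
      (SpecialLinearGroup.toGL (c⁻¹ * a⁻¹ * c) * Φ 4 * (SpecialLinearGroup.toGL (c⁻¹ * a⁻¹ * c))⁻¹) *
        SpecialLinearGroup.toGL h')
    (h'3 : Φ' 3 = SpecialLinearGroup.toGL E * (Φ' 4)⁻¹) :
    (foxJac D₁ fun k => Φ k.1).det = (foxJac D₂ fun k => Φ' k.1).det := by
  classical
  obtain ⟨L1, dL1, hL1⟩ := t10_det (F := F) D₁ rfl Φ
  obtain ⟨L2, dL2, hL2⟩ := t10_det (F := F) D₂ rfl Φ'
  rw [← dL1, ← dL2]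
  -- families
  let G0 : ℕ → VV F 4 → Aff F := fun k z => t10_gens Φ z k
  have hG0 : ∀ k, G0 k ∈ LF F (VV F 4) := by
    intro k
    by_cases hk : 0 < k ∧ k < 5
    · refine ⟨Φ k, LinearMap.proj ⟨k - 1, by omega⟩, fun z => ?_⟩
      show t10_gens Φ z k = _
      unfold t10_gens
      rw [dif_pos hk]
      rfl
    · refine ⟨Φ k, 0, fun z => ?_⟩
      show t10_gens Φ z k = _
      unfold t10_gens
      rw [dif_neg hk]
      rfl
  have htcm : ∀ j, tc G0 j ∈ LF F (VV F 4) := by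
    intro j
    have h1 := (run_mem (LF F (VV F 4)) G0 0 [] top hG0 (by simp)).1
    unfold tc
    rw [List.getD_eq_getElem?_getD]
    rcases hj : (run G0 0 [] top).1[j]? with _ | y
    · simpa using one_mem _
    · simpa using h1 y (List.mem_of_getElem? hj)
  have htcz : ∀ j z, tc G0 j z = tc (t10_gens Φ z) j := fun j z =>
    t10_tc_map (Pi.evalMonoidHom (fun _ : VV F 4 => Aff F) z) G0 j
  have htcl : ∀ j z, (tc G0 j z).lin = tc Φ j := by
    intro j z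
    rw [htcz]
    exact t10_tc_map (t01_linHom F) (t10_gens Φ z) j
  have htcd : ∀ j (z z' : VV F 4), z 0 = z' 0 → z 1 = z' 1 → tc G0 j z = tc G0 j z' := by
    intro j z z' h0 h1
    rw [htcz, htcz]
    apply t10_tc_congr
    intro n hn
    unfold t10_gens
    congr 1
    have hn' : n = 0 ∨ n = 1 ∨ n = 2 := by omega
    rcases hn' with hn' | hn' | hn'
    · subst hn'; rfl
    · subst hn'; exact h0
    · subst hn'; exact h1
  obtain ⟨a1, ha1⟩ : ∃ a1, a1 = tc G0 0 := ⟨_, rfl⟩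
  obtain ⟨a2, ha2⟩ : ∃ a2, a2 = tc G0 1 := ⟨_, rfl⟩
  obtain ⟨b1, hb1⟩ : ∃ b1, b1 = tc G0 2 := ⟨_, rfl⟩
  obtain ⟨b2, hb2⟩ : ∃ b2, b2 = tc G0 3 := ⟨_, rfl⟩
  obtain ⟨c1, hc1⟩ : ∃ c1, c1 = G0 3 := ⟨_, rfl⟩
  obtain ⟨c2, hc2⟩ : ∃ c2, c2 = G0 4 := ⟨_, rfl⟩
  obtain ⟨A, hAdef⟩ : ∃ A, A = a1 * a2 := ⟨_, rfl⟩
  obtain ⟨B, hBdef⟩ : ∃ B, B = b1 * b2 := ⟨_, rfl⟩
  obtain ⟨C, hCdef⟩ : ∃ C, C = c1 * c2 := ⟨_, rfl⟩
  obtain ⟨M, hMdef⟩ : ∃ M, M = fun z => Maff (A z) (B z) (C z) a b c := ⟨_, rfl⟩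
  obtain ⟨Ef, hEdef⟩ : ∃ Ef, Ef = A⁻¹ * C⁻¹ * M := ⟨_, rfl⟩
  obtain ⟨hf, hhdef⟩ : ∃ hf, hf = A * Ef * A * Ef⁻¹ := ⟨_, rfl⟩
  obtain ⟨e2, he2def⟩ : ∃ e2, e2 = hf⁻¹ * ((C⁻¹ * A⁻¹ * C) * c2 * (C⁻¹ * A⁻¹ * C)⁻¹) * hf :=
    ⟨_, rfl⟩
  obtain ⟨e1, he1def⟩ : ∃ e1, e1 = Ef * e2⁻¹ := ⟨_, rfl⟩
  obtain ⟨U, hUdef⟩ : ∃ U, U = C * A * B * C⁻¹ := ⟨_, rfl⟩
  have mA : A ∈ LF F (VV F 4) := by
    rw [hAdef, ha1, ha2]; exact mul_mem (htcm 0) (htcm 1)
  have mB : B ∈ LF F (VV F 4) := by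
    rw [hBdef, hb1, hb2]; exact mul_mem (htcm 2) (htcm 3)
  have mC : C ∈ LF F (VV F 4) := by
    rw [hCdef, hc1, hc2]; exact mul_mem (hG0 3) (hG0 4)
  have mU : U ∈ LF F (VV F 4) := by
    rw [hUdef]; exact mul_mem (mul_mem (mul_mem mC mA) mB) (inv_mem mC)
  -- linear parts
  have la1 : ∀ z, (a1 z).lin = tc Φ 0 := fun z => by rw [ha1]; exact htcl 0 z
  have la2 : ∀ z, (a2 z).lin = tc Φ 1 := fun z => by rw [ha2]; exact htcl 1 z
  have lb1 : ∀ z, (b1 z).lin = tc Φ 2 := fun z => by rw [hb1]; exact htcl 2 z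
  have lb2 : ∀ z, (b2 z).lin = tc Φ 3 := fun z => by rw [hb2]; exact htcl 3 z
  have lA : ∀ z, (A z).lin = SpecialLinearGroup.toGL a := fun z => by
    rw [hAdef, Pi.mul_apply, Aff.mul_lin, la1, la2, hA]
  have lB : ∀ z, (B z).lin = SpecialLinearGroup.toGL b := fun z => by
    rw [hBdef, Pi.mul_apply, Aff.mul_lin, lb1, lb2, hB]
  have lc1 : ∀ z, (c1 z).lin = Φ 3 := fun z => by rw [hc1]; rfl
  have lc2 : ∀ z, (c2 z).lin = Φ 4 := fun z => by rw [hc2]; rfl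
  have lC : ∀ z, (C z).lin = SpecialLinearGroup.toGL c := fun z => by
    rw [hCdef, Pi.mul_apply, Aff.mul_lin, lc1, lc2, hC]
  have lU : ∀ z, (U z).lin = SpecialLinearGroup.toGL (c * a * b * c⁻¹) := fun z => by
    rw [hUdef, Pi.mul_apply, Pi.mul_apply, Pi.mul_apply, Pi.inv_apply]
    simp only [Aff.mul_lin, Aff.inv_lin, lA, lB, lC, map_mul, map_inv]
  -- the relations of the linear parts
  have hD1 := t10_D1 Φ (SpecialLinearGroup.toGL a) (SpecialLinearGroup.toGL b)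
    (SpecialLinearGroup.toGL c) (SpecialLinearGroup.toGL (c * a * b * c⁻¹)) hA.symm hB.symm
    hC.symm (by simp only [map_mul, map_inv])
  obtain ⟨rx, ry, rU⟩ := rel_box1 (tc Φ 0) (tc Φ 1) (tc Φ 2) (tc Φ 3)
    (SpecialLinearGroup.toGL a) (SpecialLinearGroup.toGL b)
    (SpecialLinearGroup.toGL (c * a * b * c⁻¹))
    ((SpecialLinearGroup.toGL c)⁻¹ * (SpecialLinearGroup.toGL a)⁻¹ * (SpecialLinearGroup.toGL c)⁻¹)
    hA.symm hB.symm
    (hrel _ (by rw [hD1]; exact List.mem_cons_self))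
    (hrel _ (by rw [hD1]; exact List.mem_cons_of_mem _ List.mem_cons_self))
  have hrelSL : a * (c * a * b * c⁻¹) * b = c * a * b * c⁻¹ := by
    apply SpecialLinearGroup.toGL_injective
    rw [map_mul, map_mul]
    exact rU
  -- the substitution
  obtain ⟨T, dT, hT⟩ := subst_det A B a b c mA mB
    (by
      intro z z' h0 h1
      rw [hAdef, hBdef]
      simp only [Pi.mul_apply, ha1, ha2, hb1, hb2]
      rw [htcd 0 z z' h0 h1, htcd 1 z z' h0 h1, htcd 2 z z' h0 h1, htcd 3 z z' h0 h1]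
      exact ⟨rfl, rfl⟩) lA lB (Φ 3) (Φ 4) hC hrelSL ht c1 c2 C M Ef hf e1 e2
    (fun z => by rw [hc1]; rfl) (fun z => by rw [hc2]; rfl) (fun z => by rw [hCdef]; rfl)
    (fun z => by rw [hMdef]) (fun z => by rw [hEdef]; rfl) (fun z => by rw [hhdef]; rfl)
    (fun z => by rw [he2def]; rfl) (fun z => by rw [he1def]; rfl)
  have lM : ∀ z, (M z).lin = SpecialLinearGroup.toGL (mSL a b c) := fun z => by
    rw [hMdef]; rfl
  have lE : ∀ z, (Ef z).lin = SpecialLinearGroup.toGL E := fun z => by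
    rw [hEdef, hE, Pi.mul_apply, Pi.mul_apply, Pi.inv_apply, Pi.inv_apply]
    simp only [Aff.mul_lin, Aff.inv_lin, lA, lC, lM, map_mul, map_inv]
  have lh : ∀ z, (hf z).lin = SpecialLinearGroup.toGL h' := fun z => by
    rw [hhdef, hh, Pi.mul_apply, Pi.mul_apply, Pi.mul_apply, Pi.inv_apply]
    simp only [Aff.mul_lin, Aff.inv_lin, lA, lE, map_mul, map_inv]
  have le2 : ∀ z, (e2 z).lin = Φ' 4 := fun z => by
    rw [he2def, h'4]
    simp only [Pi.mul_apply, Pi.inv_apply, Aff.mul_lin, Aff.inv_lin, lA, lC, lc2, lh, map_mul,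
      map_inv]
  have le1 : ∀ z, (e1 z).lin = Φ' 3 := fun z => by
    rw [he1def, h'3]
    simp only [Pi.mul_apply, Pi.inv_apply, Aff.mul_lin, Aff.inv_lin, lE, le2]
  -- colours of the second diagram
  have g3 : ∀ z, t10_gens Φ' (T z) 3 = e1 z := by
    intro z
    apply Aff.ext
    · rw [le1]; rfl
    · rw [← (hT z).2.2.1]; rfl
  have g4 : ∀ z, t10_gens Φ' (T z) 4 = e2 z := by
    intro z
    apply Aff.ext
    · rw [le2]; rfl
    · rw [← (hT z).2.2.2]; rfl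
  have htc' : ∀ j z, tc (t10_gens Φ' (T z)) j = tc G0 j z := by
    intro j z
    rw [htcz]
    apply t10_tc_congr
    intro n hn
    have hn' : n = 0 ∨ n = 1 ∨ n = 2 := by omega
    rcases hn' with hn' | hn' | hn'
    · subst hn'
      apply Aff.ext
      · exact h'012 0 (by omega)
      · rfl
    · subst hn'
      apply Aff.ext
      · exact h'012 1 (by omega)
      · exact (hT z).1
    · subst hn'
      apply Aff.ext
      · exact h'012 2 (by omega)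
      · exact (hT z).2.1
  have hee : ∀ z, Ef z = e1 z * e2 z := by
    intro z
    rw [he1def, Pi.mul_apply, Pi.inv_apply]
    group
  have hU2 : ∀ z, U z = (Ef z)⁻¹ * (A z)⁻¹ * (B z)⁻¹ * Ef z := by
    intro z
    have h1 := key_one (A z) (B z) (C z) (M z) (by
      rw [hMdef]
      exact Maff_one (A z) (B z) (C z) a b c (lA z) (lB z) (lC z) hrelSL ht)
    have h2 : Ef z = (A z)⁻¹ * (C z)⁻¹ * M z := by rw [hEdef]; rfl
    rw [h2, h1, hUdef]
    rfl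
  -- x and y
  have mx : a2 * U * b1 * U⁻¹ ∈ LF F (VV F 4) := by
    rw [ha2, hb1]
    exact mul_mem (mul_mem (mul_mem (htcm 1) mU) (htcm 2)) (inv_mem mU)
  have my : a1 * U * b2 * U⁻¹ ∈ LF F (VV F 4) := by
    rw [ha1, hb2]
    exact mul_mem (mul_mem (mul_mem (htcm 0) mU) (htcm 3)) (inv_mem mU)
  obtain ⟨Lx, x, hx⟩ := mx
  obtain ⟨Ly, y, hy⟩ := my
  have hx1 : ∀ z, a2 z * U z * b1 z * (U z)⁻¹ = ⟨Lx, x z⟩ := hx
  have hy1 : ∀ z, a1 z * U z * b2 z * (U z)⁻¹ = ⟨Ly, y z⟩ := hy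
  have hlx : ∀ z, (a2 z * U z * b1 z * (U z)⁻¹).lin = 1 := by
    intro z
    simp only [Aff.mul_lin, Aff.inv_lin, la2, lU, lb1]
    exact rx
  have hly : ∀ z, (a1 z * U z * b2 z * (U z)⁻¹).lin = 1 := by
    intro z
    simp only [Aff.mul_lin, Aff.inv_lin, la1, lU, lb2]
    exact ry
  have hxt : ∀ z, x z = (a2 z * U z * b1 z * (U z)⁻¹).tr := fun z => by rw [hx1]
  have hyt : ∀ z, y z = (a1 z * U z * b2 z * (U z)⁻¹).tr := fun z => by rw [hy1]
  -- the relators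
  have R1 : ∀ z, (run (t10_gens Φ z) 0 [] D₁).2 = _ := fun z =>
    t10_D1 (t10_gens Φ z) (A z) (B z) (C z) (U z)
      (by rw [hAdef, Pi.mul_apply, ha1, ha2, htcz, htcz])
      (by rw [hBdef, Pi.mul_apply, hb1, hb2, htcz, htcz])
      (by rw [hCdef, Pi.mul_apply, hc1, hc2])
      (by rw [hUdef]; rfl)
  have R2 : ∀ z, (run (t10_gens Φ' (T z)) 0 [] D₂).2 = _ := fun z =>
    t10_D2 (t10_gens Φ' (T z)) (A z) (B z) (Ef z) (U z)
      (by rw [hAdef, Pi.mul_apply, ha1, ha2, htc', htc'])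
      (by rw [hBdef, Pi.mul_apply, hb1, hb2, htc', htc'])
      (by rw [g3, g4]; exact hee z)
      (hU2 z)
  have Rows1 : ∀ z, _ := fun z => rows_one (a1 z) (a2 z) (b1 z) (b2 z) (U z)
    ((C z)⁻¹ * (A z)⁻¹ * (C z)⁻¹) (A z) (B z) (by rw [hAdef]; rfl) (by rw [hBdef]; rfl)
    (hlx z) (hly z) (x z) (y z) (hxt z) (hyt z)
  have Rows2 : ∀ z, _ := fun z => rows_two (a1 z) (a2 z) (b1 z) (b2 z) (U z)
    (A z * Ef z) (A z) (B z) (by rw [hAdef]; rfl) (by rw [hBdef]; rfl)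
    (hlx z) (hly z) (x z) (y z) (hxt z) (hyt z)
  have lg1 : ∀ z, ((C z)⁻¹ * (A z)⁻¹ * (C z)⁻¹ * A z).lin =
      SpecialLinearGroup.toGL (c⁻¹ * a⁻¹ * c⁻¹ * a) := by
    intro z
    simp only [Aff.mul_lin, Aff.inv_lin, lA, lC, map_mul, map_inv]
  have lg2 : ∀ z, (A z * Ef z * (A z)⁻¹).lin = SpecialLinearGroup.toGL (a * E * a⁻¹) := by
    intro z
    simp only [Aff.mul_lin, Aff.inv_lin, lA, lE, map_mul, map_inv]
  have toGL1 : ∀ q : SL(2, F), (SpecialLinearGroup.toGL q).1 = q.1 := fun _ => rfl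
  apply det_main L1 L2 T x y (tc Φ 0).1 (tc Φ 1).1 a.1 (c⁻¹ * a⁻¹ * c⁻¹ * a).1 (a * E * a⁻¹).1
    (by rw [← toGL1, ← hA]; rfl) a.2 (c⁻¹ * a⁻¹ * c⁻¹ * a).2 (a * E * a⁻¹).2 dT
  · intro z
    rw [hL1, R1]
    have h1 := (Rows1 z).1
    rw [lg1, la1, la2, lA] at h1
    rw [ha2, hb1, htcz, htcz] at h1
    exact h1
  · intro z
    rw [hL1, R1]
    have h1 := (Rows1 z).2
    rw [lg1, la1, lA] at h1
    rw [ha1, hb2, htcz, htcz] at h1
    exact h1
  · intro z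
    rw [hL2, R2]
    have h1 := (Rows2 z).1
    rw [lg2, la1, la2] at h1
    rw [ha2, hb1, ← htc', ← htc'] at h1
    exact h1
  · intro z
    rw [hL2, R2]
    have h1 := (Rows2 z).2
    rw [lg2, la1] at h1
    rw [ha1, hb2, ← htc', ← htc'] at h1
    exact h1
  · intro z hxz hyz
    have e1x : a2 z * U z * b1 z * (U z)⁻¹ = 1 := by
      apply Aff.ext
      · exact hlx z
      · rw [← hxt, hxz]; rfl
    have e1y : a1 z * U z * b2 z * (U z)⁻¹ = 1 := by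
      apply Aff.ext
      · exact hly z
      · rw [← hyt, hyz]; rfl
    have hAUB : A z * (C z * A z * B z * (C z)⁻¹) * B z = C z * A z * B z * (C z)⁻¹ := by
      have hUz : C z * A z * B z * (C z)⁻¹ = U z := by rw [hUdef]; rfl
      have hAz : A z = a1 z * a2 z := by rw [hAdef]; rfl
      have hBz : B z = b1 z * b2 z := by rw [hBdef]; rfl
      rw [hUz, hAz, hBz]
      have h1 : a2 z * U z * b1 z = U z := by
        rw [← mul_inv_eq_one]; exact e1x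
      have h2 : a1 z * U z * b2 z = U z := by
        rw [← mul_inv_eq_one]; exact e1y
      calc a1 z * a2 z * U z * (b1 z * b2 z) = a1 z * (a2 z * U z * b1 z) * b2 z := by group
        _ = U z := by rw [h1, h2]
    obtain ⟨m2, m3, m4⟩ := Maff_two h3 (A z) (B z) (C z) a b c (lA z) (lB z) (lC z) hrelSL ht hAUB
    have hMz : M z = Maff (A z) (B z) (C z) a b c := by rw [hMdef]
    rw [← hMz] at m2 m3 m4
    obtain ⟨q1, q2, q3, q4, q5⟩ := box_eq (A z) (B z) (M z) (c1 z) (c2 z) (C z) (Ef z) (hf z)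
      (e1 z) (e2 z) (by rw [hCdef]; rfl) (by rw [hEdef]; rfl) (by rw [hhdef]; rfl)
      (by rw [he2def]; rfl) (by rw [he1def]; rfl) hAUB m2 m3 m4
    have hhz : hf z = A z * Ef z * A z * (Ef z)⁻¹ := by rw [hhdef]; rfl
    have hg3 : t10_gens Φ z 3 = c1 z := by rw [hc1]
    have hg4 : t10_gens Φ z 4 = c2 z := by rw [hc2]
    have hR : ∀ (s s' : List (Aff F)), s = s' →
        (run (t10_gens Φ' (T z)) 5 s bot).2 = (run (t10_gens Φ z) 5 s' bot).2 := by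
      intro s s' hs
      rw [hs, t10_bot (t10_gens Φ' (T z)) (t10_gens Φ z) 5 5 s' rfl]
    have k12 : L1 z 2 = ((run (t10_gens Φ z) 0 [] D₁).2.getD 2 1).tr := hL1 z 2
    have k13 : L1 z 3 = ((run (t10_gens Φ z) 0 [] D₁).2.getD 3 1).tr := hL1 z 3
    have k22 : L2 (T z) 2 = ((run (t10_gens Φ' (T z)) 0 [] D₂).2.getD 2 1).tr := hL2 (T z) 2
    have k23 : L2 (T z) 3 = ((run (t10_gens Φ' (T z)) 0 [] D₂).2.getD 3 1).tr := hL2 (T z) 3
    have hlists : ((A z * Ef z * A z * (Ef z)⁻¹) * t10_gens Φ' (T z) 3 *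
          (A z * Ef z * A z * (Ef z)⁻¹)⁻¹) ::
        ((A z * Ef z * A z * (Ef z)⁻¹) * t10_gens Φ' (T z) 4 *
          (A z * Ef z * A z * (Ef z)⁻¹)⁻¹) ::
        (((B z)⁻¹ * Ef z * (B z)⁻¹ * (Ef z)⁻¹) * (t10_gens Φ' (T z) 4)⁻¹ *
          ((B z)⁻¹ * Ef z * (B z)⁻¹ * (Ef z)⁻¹)⁻¹) ::
        (((B z)⁻¹ * Ef z * (B z)⁻¹ * (Ef z)⁻¹) * (t10_gens Φ' (T z) 3)⁻¹ *
          ((B z)⁻¹ * Ef z * (B z)⁻¹ * (Ef z)⁻¹)⁻¹) ::
        [tc (t10_gens Φ' (T z)) 4, tc (t10_gens Φ' (T z)) 5] =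
        (((C z)⁻¹ * (A z)⁻¹ * C z) * t10_gens Φ z 3 * ((C z)⁻¹ * (A z)⁻¹ * C z)⁻¹) ::
        (((C z)⁻¹ * (A z)⁻¹ * C z) * t10_gens Φ z 4 * ((C z)⁻¹ * (A z)⁻¹ * C z)⁻¹) ::
        (((C z)⁻¹ * B z * C z) * (t10_gens Φ z 4)⁻¹ * ((C z)⁻¹ * B z * C z)⁻¹) ::
        (((C z)⁻¹ * B z * C z) * (t10_gens Φ z 3)⁻¹ * ((C z)⁻¹ * B z * C z)⁻¹) ::
        [tc (t10_gens Φ z) 4, tc (t10_gens Φ z) 5] := by
      rw [g3, g4, hg3, hg4, ← hhz, q2, q3, q4, q5, htc', htc', htcz, htcz]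
    rw [k12, k13, k22, k23, R1, R2, t10_getD2, t10_getD2, t10_getD3, t10_getD3, hR _ _ hlists]
    exact ⟨rfl, rfl⟩

end TorMut
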