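import Pool.Agent.Lib.MP_407fc5_gt.VDefs
import Pool.Agent.Lib.MP_407fc5_gt.B02
import Pool.Agent.Lib.MP_407fc5_gt.B03
import Pool.Agent.Lib.MP_407fc5_gt.P01

/-!
# V02: volume, convexity, definiteness of one tetrahedron (about 90 minutes)

`LcB` encloses `conj (Dt a c) * Dt b c * (Dt a u * conj (Dt b u))`, whose imaginary part is
`Lf a b c (N u)` (`B_N` in `P01`: `B (N u) a b = Dt a u * conj (Dt b u)`), `SuB` encloses a number with the
imaginary part `S u = ∑ k, Lk v k (N u)`, and `Ph v P = (∑ k, Lk v k P) / vol v`.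
Definiteness: `Ph v P = A p + C q + x Re w + y Im w` is real linear in `P = (p, q, w)` (with the values
divided by `vol`): `A = S (1,0)`, `C = S (0,1)`, `x = S (1,1) - A - C`, `y = S (i,1) - A - C`; from
`A, C > 0`, `4 A C > x² + y²` and `|w|² < p q` one gets `Ph v P ≥ κ (p + q)` (for example with
`|x Re w + y Im w| ≤ sqrt (x² + y²) sqrt (p q)` and `sqrt (x² + y²) = 2 θ sqrt (A C)`, `θ < 1`,
`Ph ≥ (1 - θ) (A p + C q)`).
-/

namespace TorMut

open Tile Matrix MatrixGroups ComplexConjugate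

noncomputable def V02_lc (a b c u : V2) : ℂ := conj (Dt a c) * Dt b c * (Dt a u * conj (Dt b u))

theorem V02_lc_im (a b c u : V2) : (V02_lc a b c u).im = Lf a b c (N u) := by
  unfold V02_lc Lf
  rw [B_N]

theorem V02_mem_lc {a b c u : V2} {a' b' c' u' : VB} (ha : MemV a a') (hb : MemV b b')
    (hc : MemV c c') (hu : MemV u u') : Mem (V02_lc a b c u) (LcB a' b' c' u') := by
  unfold LcB
  simp only [fC_eq]
  exact mem_mul (mem_mul (mem_cj (memV_Dt ha hc)) (memV_Dt hb hc))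
    (mem_mul (memV_Dt ha hu) (mem_cj (memV_Dt hb hu)))

/-- the number with imaginary part `∑ k, Lk v k (N u)` -/
noncomputable def V02_su (v : Fin 4 → V2) (u : V2) : ℂ :=
  V02_lc (v 1) (v 2) (v 3) u + V02_lc (v 0) (v 3) (v 2) u +
    (V02_lc (v 0) (v 1) (v 3) u + V02_lc (v 0) (v 2) (v 1) u)

noncomputable def V02_S (v : Fin 4 → V2) (P : Herm) : ℝ := ∑ k, Lk v k P

theorem V02_S_eq (v : Fin 4 → V2) (P : Herm) : V02_S v P =
    Lf (v 1) (v 2) (v 3) P + Lf (v 0) (v 3) (v 2) P +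
      (Lf (v 0) (v 1) (v 3) P + Lf (v 0) (v 2) (v 1) P) := by
  unfold V02_S
  rw [Fin.sum_univ_four]
  show Lf (v 1) (v 2) (v 3) P + Lf (v 0) (v 3) (v 2) P + Lf (v 0) (v 1) (v 3) P +
    Lf (v 0) (v 2) (v 1) P = _
  ring

theorem V02_su_im (v : Fin 4 → V2) (u : V2) : (V02_su v u).im = V02_S v (N u) := by
  rw [V02_S_eq]
  unfold V02_su
  rw [Complex.add_im, Complex.add_im, Complex.add_im, V02_lc_im, V02_lc_im, V02_lc_im, V02_lc_im]

theorem V02_mem_su {v : Fin 4 → V2} {v0 v1 v2 v3 : VB} {u : V2} {u' : VB}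
    (h0 : MemV (v 0) v0) (h1 : MemV (v 1) v1) (h2 : MemV (v 2) v2) (h3 : MemV (v 3) v3)
    (hu : MemV u u') : Mem (V02_su v u) (SuB v0 v1 v2 v3 u') := by
  unfold SuB
  simp only [fC_eq]
  exact mem_add (mem_add (V02_mem_lc h1 h2 h3 hu) (V02_mem_lc h0 h3 h2 hu))
    (mem_add (V02_mem_lc h0 h1 h3 hu) (V02_mem_lc h0 h2 h1 hu))

theorem V02_Ph (v : Fin 4 → V2) (P : Herm) : Ph v P = V02_S v P / vol v := by
  unfold Ph V02_S co
  rw [Finset.sum_div]

theorem V02_S_add (v : Fin 4 → V2) (P Q : Herm) : V02_S v (P + Q) = V02_S v P + V02_S v Q := by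
  rw [V02_S_eq, V02_S_eq, V02_S_eq, Lf_add, Lf_add, Lf_add, Lf_add]
  ring

theorem V02_S_smul (v : Fin 4 → V2) (r : ℝ) (P : Herm) : V02_S v (r • P) = r * V02_S v P := by
  rw [V02_S_eq, V02_S_eq, Lf_smul, Lf_smul, Lf_smul, Lf_smul]
  ring

/-- `imB` encloses the imaginary part -/
theorem V02_mem_im {x : ℂ} {b : CB} (h : Mem x b) : Mem ((x.im : ℝ) : ℂ) (imB b) := by
  have h1 := B02_im_le h
  show ‖((x.im : ℝ) : ℂ) * 2 ^ sc - (imB b).val‖ ≤ ((imB b).rad : ℝ)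
  have h2 : (imB b).val = (((b.im : ℤ) : ℝ) : ℂ) := by
    unfold imB CB.val
    apply Complex.ext
    · simp
    · simp
  have h3 : ((imB b).rad : ℝ) = (b.rad : ℝ) := rfl
  rw [h2, h3, B02_cast, ← Complex.ofReal_mul, ← Complex.ofReal_sub, Complex.norm_real,
    Real.norm_eq_abs]
  exact h1

theorem V02_mem_i : Mem Complex.I iB := by
  have h : Mem ((⟨((0 : ℤ) : ℝ), ((Int.ofNat (Nat.pow 2 sc) : ℤ) : ℝ)⟩ : ℂ) / 2 ^ sc)
      (CB.exact 0 (Int.ofNat (Nat.pow 2 sc))) := mem_exact _ _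
  have h1 : ((⟨((0 : ℤ) : ℝ), ((Int.ofNat (Nat.pow 2 sc) : ℤ) : ℝ)⟩ : ℂ) / 2 ^ sc) =
      Complex.I := by
    rw [div_eq_iff B02_ne]
    have h2 : ((Int.ofNat (Nat.pow 2 sc) : ℤ) : ℝ) = (2 : ℝ) ^ sc := by
      have h3 : (Int.ofNat (Nat.pow 2 sc) : ℤ) = ((2 ^ sc : ℕ) : ℤ) := rfl
      rw [h3, Int.cast_natCast, Nat.cast_pow, Nat.cast_ofNat]
    rw [h2, B02_cast]
    apply Complex.ext
    · simp only [Int.cast_zero]
      rw [Complex.re_mul_ofReal, Complex.I_re, zero_mul]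
    · rw [Complex.im_mul_ofReal, Complex.I_im, one_mul]
  rw [h1] at h
  exact h

/-- a real number in a ball -/
theorem V02_re {x : ℝ} {b : CB} (h : Mem ((x : ℝ) : ℂ) b) (hb : b.rePos = true) : 0 < x := by
  have := rePos_sound h hb
  rwa [Complex.ofReal_re] at this

theorem V02_N10 : N ![(1 : ℂ), 0] = ((1 : ℝ), (0 : ℝ), (0 : ℂ)) := by
  unfold N
  simp

theorem V02_N01 : N ![(0 : ℂ), 1] = ((0 : ℝ), (1 : ℝ), (0 : ℂ)) := by
  unfold N
  simp

theorem V02_N11 : N ![(1 : ℂ), 1] = ((1 : ℝ), (1 : ℝ), (1 : ℂ)) := by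
  unfold N
  simp

theorem V02_Ni1 : N ![Complex.I, 1] = ((1 : ℝ), (1 : ℝ), Complex.I) := by
  unfold N
  simp

theorem V02_lin (v : Fin 4 → V2) (P : Herm) : V02_S v P =
    V02_S v (N ![(1 : ℂ), 0]) * P.1 + V02_S v (N ![(0 : ℂ), 1]) * P.2.1 +
      (V02_S v (N ![(1 : ℂ), 1]) - (V02_S v (N ![(1 : ℂ), 0]) + V02_S v (N ![(0 : ℂ), 1]))) *
        P.2.2.re +
      (V02_S v (N ![Complex.I, 1]) - (V02_S v (N ![(1 : ℂ), 0]) + V02_S v (N ![(0 : ℂ), 1]))) *
        P.2.2.im := by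
  have h : P = (P.1 - P.2.2.re - P.2.2.im) • N ![(1 : ℂ), 0] +
      ((P.2.1 - P.2.2.re - P.2.2.im) • N ![(0 : ℂ), 1] +
        (P.2.2.re • N ![(1 : ℂ), 1] + P.2.2.im • N ![Complex.I, 1])) := by
    rw [V02_N10, V02_N01, V02_N11, V02_Ni1]
    refine Prod.ext ?_ (Prod.ext ?_ ?_)
    · simp
    · simp
    · apply Complex.ext
      · simp
      · simp
  conv_lhs => rw [h]
  rw [V02_S_add, V02_S_add, V02_S_add, V02_S_smul, V02_S_smul, V02_S_smul, V02_S_smul]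
  ring

/-- positivity of a real quadratic form on positive definite matrices -/
theorem V02_form {A C x y p q r s : ℝ} (hA : 0 < A) (hC : 0 < C)
    (h : x ^ 2 + y ^ 2 < 4 * (A * C)) (hp : 0 < p) (hq : 0 < q) (hw : r ^ 2 + s ^ 2 < p * q) :
    0 < A * p + C * q + x * r + y * s := by
  have h1 : 0 < A * p + C * q := by positivity
  have h2 : (x * r + y * s) ^ 2 ≤ (x ^ 2 + y ^ 2) * (r ^ 2 + s ^ 2) := by
    nlinarith [sq_nonneg (x * s - y * r)]
  have h3 : (x ^ 2 + y ^ 2) * (r ^ 2 + s ^ 2) < 4 * (A * C) * (p * q) := by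
    have h4 : 0 ≤ x ^ 2 + y ^ 2 := by positivity
    have h5 : 0 ≤ r ^ 2 + s ^ 2 := by positivity
    have h6 : 0 < p * q := by positivity
    calc (x ^ 2 + y ^ 2) * (r ^ 2 + s ^ 2) ≤ (x ^ 2 + y ^ 2) * (p * q) :=
          mul_le_mul_of_nonneg_left hw.le h4
      _ < 4 * (A * C) * (p * q) := mul_lt_mul_of_pos_right h h6
  have h4 : 4 * (A * C) * (p * q) ≤ (A * p + C * q) ^ 2 := by
    nlinarith [sq_nonneg (A * p - C * q)]
  have h5 : (x * r + y * s) ^ 2 < (A * p + C * q) ^ 2 := lt_of_le_of_lt h2 (lt_of_lt_of_le h3 h4)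
  have h6 := abs_lt_of_sq_lt_sq h5 h1.le
  have h7 := (abs_lt.1 h6).1
  linarith

theorem V02_kappa {A C x y : ℝ} (hA : 0 < A) (hC : 0 < C) (h : x ^ 2 + y ^ 2 < 4 * (A * C)) :
    ∃ κ > 0, ∀ p q r s : ℝ, 0 < p → 0 < q → r ^ 2 + s ^ 2 < p * q →
      κ * (p + q) ≤ A * p + C * q + x * r + y * s := by
  obtain ⟨E, hE⟩ : ∃ E, E = 4 * (A * C) - (x ^ 2 + y ^ 2) := ⟨_, rfl⟩
  have hE0 : 0 < E := by rw [hE]; linarith
  have hAC : 0 < A + C := by positivity
  obtain ⟨κ, hκ⟩ : ∃ κ, κ = E / (8 * (A + C)) := ⟨_, rfl⟩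
  have hκ0 : 0 < κ := by rw [hκ]; positivity
  have hκE : κ * (A + C) = E / 8 := by
    rw [hκ]
    field_simp
  have hEle : E ≤ 4 * (A * C) := by
    rw [hE]
    nlinarith [sq_nonneg x, sq_nonneg y]
  have hκA : κ < A := by
    have h1 : κ * (A + C) < A * (A + C) := by
      rw [hκE]
      nlinarith [mul_pos hA hC, mul_pos hA hA]
    exact lt_of_mul_lt_mul_right h1 hAC.le
  have hκC : κ < C := by
    have h1 : κ * (A + C) < C * (A + C) := by
      rw [hκE]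
      nlinarith [mul_pos hA hC, mul_pos hC hC]
    exact lt_of_mul_lt_mul_right h1 hAC.le
  refine ⟨κ, hκ0, ?_⟩
  intro p q r s hp hq hw
  have h1 : x ^ 2 + y ^ 2 < 4 * ((A - κ) * (C - κ)) := by
    have h2 : 4 * ((A - κ) * (C - κ)) = 4 * (A * C) - 4 * (κ * (A + C)) + 4 * κ ^ 2 := by ring
    rw [h2, hκE]
    have h3 : x ^ 2 + y ^ 2 = 4 * (A * C) - E := by rw [hE]; ring
    rw [h3]
    nlinarith [sq_nonneg κ]
  have h2 := V02_form (sub_pos.2 hκA) (sub_pos.2 hκC) h1 hp hq hw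
  nlinarith

theorem tet_sound (VL UL : LT) (i : ℕ) (h : tetOK VL UL i = true) (v u : Fin 4 → V2)
    (hv : ∀ k : Fin 4, MemV (v k) (getV VL i k.1)) (hu : ∀ k : Fin 4, MemV (u k) (getV UL i k.1)) :
    0 < vol v ∧ (∀ k, 1 < Ph v (N (u k))) ∧
      ∃ κ > 0, ∀ P, Pos P → κ * (P.1 + P.2.1) ≤ Ph v P := by
  have h0 : MemV (v 0) (getV VL i 0) := hv 0
  have h1 : MemV (v 1) (getV VL i 1) := hv 1
  have h2 : MemV (v 2) (getV VL i 2) := hv 2
  have h3 : MemV (v 3) (getV VL i 3) := hv 3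
  unfold tetOK at h
  simp only [fV_eq, fC_eq] at h
  generalize getV VL i 0 = v0 at *
  generalize getV VL i 1 = v1 at *
  generalize getV VL i 2 = v2 at *
  generalize getV VL i 3 = v3 at *
  rw [Bool.and_eq_true, Bool.and_eq_true] at h
  obtain ⟨⟨hvol, hconv⟩, hdef⟩ := h
  have hmv : Mem (V02_lc (v 0) (v 2) (v 1) (v 3)) (LkB v0 v1 v2 v3 3 v3) := V02_mem_lc h0 h2 h1 h3
  have hvi : (V02_lc (v 0) (v 2) (v 1) (v 3)).im = vol v := V02_lc_im _ _ _ _
  have hvpos : 0 < vol v := by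
    rw [← hvi]
    exact imPos_sound hmv hvol
  refine ⟨hvpos, ?_, ?_⟩
  · intro k
    have hk := List.all_eq_true.1 hconv k.1 (List.mem_range.2 k.2)
    have hs : Mem (V02_su v (u k)) (SuB v0 v1 v2 v3 (getV UL i k.1)) := V02_mem_su h0 h1 h2 h3 (hu k)
    have hp := imPos_sound (mem_sub hs hmv) hk
    rw [Complex.sub_im, V02_su_im, hvi] at hp
    rw [V02_Ph, one_lt_div hvpos]
    linarith
  · rw [Bool.and_eq_true, Bool.and_eq_true] at hdef
    obtain ⟨⟨hA, hC⟩, hQ⟩ := hdef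
    have mN : ∀ {a b : ℂ} {a' b' : CB}, Mem a a' → Mem b b' →
        Mem (((V02_S v (N ![a, b]) : ℝ)) : ℂ) (imB (SuB v0 v1 v2 v3 (a', b'))) := by
      intro a b a' b' ha hb
      have hab : MemV ![a, b] (a', b') := ⟨ha, hb⟩
      have := V02_mem_im (V02_mem_su (v := v) h0 h1 h2 h3 hab)
      rw [V02_su_im] at this
      exact this
    have mA := mN mem_one mem_zero
    have mC := mN mem_zero mem_one
    have mX := mem_sub (mN mem_one mem_one) (mem_add mA mC)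
    have mY := mem_sub (mN V02_mem_i mem_one) (mem_add mA mC)
    have pA := V02_re mA hA
    have pC := V02_re mC hC
    have mP := mem_mul mA mC
    have mT := rePos_sound (mem_sub (mem_add (mem_add mP mP) (mem_add mP mP))
      (mem_add (mem_mul mX mX) (mem_mul mY mY))) hQ
    have hlin := V02_lin v
    generalize V02_S v (N ![(1 : ℂ), 0]) = A at *
    generalize V02_S v (N ![(0 : ℂ), 1]) = C at *
    generalize V02_S v (N ![(1 : ℂ), 1]) = X at *
    generalize V02_S v (N ![Complex.I, 1]) = Y at *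
    have hform : (X - (A + C)) ^ 2 + (Y - (A + C)) ^ 2 < 4 * (A * C) := by
      have he : ((A : ℂ) * C + A * C + (A * C + A * C) -
          ((X - (A + C)) * (X - (A + C)) + (Y - (A + C)) * (Y - (A + C)))) =
          (((4 * (A * C) - ((X - (A + C)) ^ 2 + (Y - (A + C)) ^ 2) : ℝ)) : ℂ) := by
        push_cast
        ring
      rw [he, Complex.ofReal_re] at mT
      linarith
    obtain ⟨κ, hκ, hall⟩ := V02_kappa pA pC hform
    refine ⟨κ / vol v, div_pos hκ hvpos, ?_⟩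
    intro P hP
    obtain ⟨hp, hd⟩ := hP
    have hd2 : P.2.2.re ^ 2 + P.2.2.im ^ 2 < P.1 * P.2.1 := by
      unfold hdet at hd
      rw [Complex.normSq_apply] at hd
      nlinarith
    have hq : 0 < P.2.1 := by
      have h5 : 0 < P.1 * P.2.1 := lt_of_le_of_lt (by positivity) hd2
      exact (mul_pos_iff_of_pos_left hp).1 h5
    have h6 := hall P.1 P.2.1 P.2.2.re P.2.2.im hp hq hd2
    rw [V02_Ph, hlin P, div_mul_eq_mul_div]
    exact div_le_div_of_nonneg_right h6 hvpos.le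

end TorMut
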