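import Pool.Agent.Lib.MP_407fc5_gt.VDefs
import Pool.Agent.Lib.MP_407fc5_gt.B02
import Pool.Agent.Lib.MP_407fc5_gt.B03
import Pool.Agent.Lib.MP_407fc5_gt.G02
import Pool.Agent.Lib.MP_407fc5_gt.G03

/-!
# V03: the partial products of the cross ratios around an edge (about 60 minutes)

`znB` encloses `zr v π * ‖Dt (v π0) (v π3) * Dt (v π1) (v π2)‖²` (a positive multiple of the cross ratio,
if the denominator is not zero), so `zGo` computes enclosures of positive multiples of the partial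
products; the hypothesis `hne` (all determinants of two different vertices are nonzero) is
`Dt_ne_zero` of `P02`.
-/

namespace TorMut

open Tile Matrix MatrixGroups ComplexConjugate

theorem V03_znB (VL : LT) (i c : ℕ) (w : Fin 4 → V2) (π : Equiv.Perm (Fin 4))
    (h0 : MemV (w (π 0)) (getV VL i (pmV c 0))) (h1 : MemV (w (π 1)) (getV VL i (pmV c 1)))
    (h2 : MemV (w (π 2)) (getV VL i (pmV c 2))) (h3 : MemV (w (π 3)) (getV VL i (pmV c 3)))
    (hne : ∀ k l, k ≠ l → Dt (w k) (w l) ≠ 0) :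
    ∃ x : ℝ, 0 < x ∧ Mem ((x : ℂ) * zr w π) (znB VL i c) := by
  have hD : Dt (w (π 0)) (w (π 3)) * Dt (w (π 1)) (w (π 2)) ≠ 0 := by
    refine mul_ne_zero (hne _ _ ?_) (hne _ _ ?_)
    · intro h
      exact absurd (π.injective h) (by decide)
    · intro h
      exact absurd (π.injective h) (by decide)
  refine ⟨Complex.normSq (Dt (w (π 0)) (w (π 3)) * Dt (w (π 1)) (w (π 2))),
    Complex.normSq_pos.2 hD, ?_⟩
  have hx : ((Complex.normSq (Dt (w (π 0)) (w (π 3)) * Dt (w (π 1)) (w (π 2))) : ℝ) : ℂ) * zr w π =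
      (Dt (w (π 1)) (w (π 3)) * Dt (w (π 0)) (w (π 2))) *
        conj (Dt (w (π 0)) (w (π 3)) * Dt (w (π 1)) (w (π 2))) := by
    rw [← Complex.mul_conj]
    unfold zr
    generalize conj (Dt (w (π 0)) (w (π 3)) * Dt (w (π 1)) (w (π 2))) = E
    rw [mul_comm _ E, mul_assoc, mul_div_cancel₀ _ hD, mul_comm]
  rw [hx]
  unfold znB
  rw [fV_eq, fV_eq, fV_eq, fV_eq, fC_eq, fC_eq, fC_eq, fC_eq, fC_eq, fC_eq]
  exact mem_mul (mem_mul (memV_Dt h1 h3) (memV_Dt h0 h2))
    (mem_cj (mem_mul (memV_Dt h0 h3) (memV_Dt h1 h2)))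

variable {G : Type*} [Group G] (X : ℕ → G) (T : TD)

theorem V03_go (h : T.chk1 = true) (VL : LT) (v : Fin (T.k + 1) → Fin 4 → V2)
    (hv : ∀ i k, MemV (v i k) (getV VL i.1 k.1))
    (hne : ∀ i k l, k ≠ l → Dt (v i k) (v i l) ≠ 0) (r : ℕ)
    (f : Fin (T.k + 1) × Equiv.Perm (Fin 4)) (n : ℕ) :
    ∀ (q i c : ℕ) (p : CB), i ≤ T.k → c < 12 → (T.comb X).flag f q = T.toFlag (i, c) →
      (∃ x : ℝ, 0 < x ∧ Mem ((x : ℂ) * (T.comb X).zprod v f q) p) →
      zGo T VL r n (q + 1) i c p = true →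
      ∀ m, q + 1 ≤ m → m < q + 1 + n →
        (m ≤ r → 0 < ((T.comb X).zprod v f m).im) ∧
        (r < m → ((T.comb X).zprod v f m).im < 0) := by
  induction n with
  | zero =>
    intro q i c p _ _ _ _ _ m hm hm'
    exact absurd hm' (by omega)
  | succ n ih =>
    intro q i c p hi hc hf hp hz m hm hm'
    obtain ⟨x, hx, hxp⟩ := hp
    have hiv : (Fin.ofNat (T.k + 1) i).1 = i := Nat.mod_eq_of_lt (Nat.lt_succ_of_le hi)
    have hpm : ∀ j : Fin 4, (pm c j).1 = pmV c j.1 := fun j => pm_apply c (by omega) j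
    have hmem : ∀ j : Fin 4, MemV (v (Fin.ofNat (T.k + 1) i) (pm c j)) (getV VL i (pmV c j.1)) := by
      intro j
      have h1 := hv (Fin.ofNat (T.k + 1) i) (pm c j)
      rw [hiv, hpm j] at h1
      exact h1
    obtain ⟨y, hy, hyz⟩ := V03_znB VL i c (v (Fin.ofNat (T.k + 1) i)) (pm c) (hmem 0) (hmem 1)
      (hmem 2) (hmem 3) (hne _)
    have hsucc : (T.comb X).zprod v f (q + 1) =
        (T.comb X).zprod v f q * zr (v (Fin.ofNat (T.k + 1) i)) (pm c) := by
      show (T.comb X).zprod v f q * zr (v ((T.comb X).flag f q).1) ((T.comb X).flag f q).2 = _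
      rw [hf]
      rfl
    have hmem2 : Mem (((x * y : ℝ) : ℂ) * (T.comb X).zprod v f (q + 1)) (CB.mul p (znB VL i c)) := by
      have h1 : ((x * y : ℝ) : ℂ) * (T.comb X).zprod v f (q + 1) =
          ((x : ℂ) * (T.comb X).zprod v f q) * ((y : ℂ) * zr (v (Fin.ofNat (T.k + 1) i)) (pm c)) := by
        rw [hsucc]
        push_cast
        ring
      rw [h1]
      exact mem_mul hxp hyz
    have hxy : 0 < x * y := mul_pos hx hy
    unfold zGo at hz
    rw [fC_eq, fN_eq, fN_eq, Bool.and_eq_true] at hz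
    obtain ⟨hz1, hz2⟩ := hz
    rcases Nat.lt_or_ge (q + 1) m with hlt | hge
    · have hrot := rot_toFlag X T h (i, c) hi hc
      refine ih (q + 1) _ _ _ hrot.2.1 hrot.2.2 ?_ ⟨x * y, hxy, hmem2⟩ hz2 m hlt (by omega)
      show (T.comb X).rot^[q + 1] f = _
      rw [Function.iterate_succ_apply']
      have h2 : (T.comb X).rot^[q] f = T.toFlag (i, c) := hf
      rw [h2, hrot.1]
    · have hmq : m = q + 1 := by omega
      subst hmq
      have him : (((x * y : ℝ) : ℂ) * (T.comb X).zprod v f (q + 1)).im =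
          (x * y) * ((T.comb X).zprod v f (q + 1)).im := Complex.im_ofReal_mul _ _
      constructor
      · intro hr
        have hb : Nat.ble (q + 1) r = true := Nat.ble_eq_true_of_le hr
        rw [hb] at hz1
        have h3 := imPos_sound hmem2 hz1
        rw [him] at h3
        exact (pos_iff_pos_of_mul_pos h3).1 hxy
      · intro hr
        have hb : Nat.ble (q + 1) r = false := by
          rw [Bool.eq_false_iff]
          intro hh
          exact absurd (Nat.le_of_ble_eq_true hh) (by omega)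
        rw [hb] at hz1
        have h3 := imNeg_sound hmem2 hz1
        rw [him] at h3
        by_contra hcon
        exact absurd h3 (not_lt.2 (mul_nonneg hxy.le (not_lt.1 hcon)))

theorem z_sound (h : T.chk1 = true) (VL : LT) (v : Fin (T.k + 1) → Fin 4 → V2)
    (hv : ∀ i k, MemV (v i k) (getV VL i.1 k.1))
    (hne : ∀ i k l, k ≠ l → Dt (v i k) (v i l) ≠ 0) (o : Orb) (hi : o.i ≤ T.k) (hc : o.c < 12)
    (hz : zOK T VL o = true) :
    (∀ q, 1 ≤ q → q ≤ o.r → q < o.d →
      0 < ((T.comb X).zprod v (T.toFlag (o.i, o.c)) q).im) ∧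
    (∀ q, o.r < q → q < o.d →
      ((T.comb X).zprod v (T.toFlag (o.i, o.c)) q).im < 0) := by
  have key := V03_go X T h VL v hv hne o.r (T.toFlag (o.i, o.c)) (o.d - 1) 0 o.i o.c CB.one hi hc rfl
    ⟨1, one_pos, by
      have h1 : ((1 : ℝ) : ℂ) * (T.comb X).zprod v (T.toFlag (o.i, o.c)) 0 = 1 := by
        show ((1 : ℝ) : ℂ) * 1 = 1
        rw [Complex.ofReal_one, one_mul]
      rw [h1]
      exact mem_one⟩ hz
  constructor
  · intro q hq hqr hqd
    exact (key q hq (by omega)).1 hqr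
  · intro q hqr hqd
    exact (key q (by omega) (by omega)).2 hqr

end TorMut
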