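import Pool.Agent.Lib.MP_407fc5_gt.V01
import Pool.Agent.Lib.MP_407fc5_gt.V02
import Pool.Agent.Lib.MP_407fc5_gt.V03
import Pool.Agent.Lib.MP_407fc5_gt.G04
import Pool.Agent.Lib.MP_407fc5_gt.G05
import Pool.Agent.Lib.MP_407fc5_gt.G06

/-!
# V04: the hypotheses of the tiling theorem from the checks (about 40 minutes)

Assembly.  For the edge condition of a flag `f = flag f₀ a`, `a < d`, take the start `s = d - a`:
`flag f (d - a) = flag f₀ d = f₀`.
-/

namespace TorMut

open Tile Matrix MatrixGroups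

variable {G : Type*} [Group G] (X : ℕ → G) (T : TD)

theorem good_of_checks {ρ : G →* SL(2, ℂ)} {A : ℕ → V2} {R : List Arc} {caps : List (ℕ × ℕ)}
    (F : Frame X ρ A R caps) (hcaps : ∀ c ∈ caps, c.1 < 38 ∧ c.2 < 38)
    (hm : T.m < 38) (ha : A T.m ≠ 0) (rp : List ℕ) (hrp : rpOK rp caps = true)
    (h1 : T.chk1 = true) (hl : lettersOK T = true)
    (E : List Orb) (hE : (E.all fun o => T.orbOK (relL rp 0 R) o) = true)
    (hcov : T.covOK E = true)
    (S1 S2 : List (ℕ × ℕ)) (i k l : ℕ) (c : List (List ℕ × ℕ))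
    (hv : T.vertOK (relL rp 0 R) E S1 i k l c S2 = true)
    (i0 : ℕ) (hi0 : i0 ≤ T.k) (u : List ℕ) (loops : List (List ℕ × ℕ × List (List ℕ × ℕ)))
    (S : List (ℕ × Bool)) (paths : List (List ℕ))
    (hc : T.connOK (relL rp 0 R) rp R i0 u loops S paths = true)
    (chain : List ℕ) (hch : TD.chainOK R caps chain = true) (h0 : chain.head? = some 0)
    (hlast : chain.getLast? = some T.m)
    (AB : ℕ → VB) (hAB : ∀ f, f < 38 → MemV (A f) (AB f)) (VL UL : LT)
    (ht : tabOK T AB (AB T.m) VL UL = true)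
    (hx : ((List.range (T.k + 1)).all fun i => tetOK VL UL i) = true)
    (hz : (E.all fun o => zOK T VL o) = true) :
    Good ρ (T.comb X) (T.vtx X ρ (A T.m)) := by
  have hrel := relL_sound X F rp hrp
  have htab := tab_sound X T F.hom AB hAB h1 hl (A T.m) (AB T.m) (hAB _ hm) VL UL ht
  have htet : ∀ i : Fin (T.k + 1), tetOK VL UL i.1 = true := fun i =>
    List.all_eq_true.1 hx i.1 (List.mem_range.2 i.2)
  have hts : ∀ i : Fin (T.k + 1), 0 < vol (T.vtx X ρ (A T.m) i) ∧
      (∀ k, 1 < Ph (T.vtx X ρ (A T.m) i) (N ((ρ ((T.comb X).h i k)).1.mulVec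
        (T.vtx X ρ (A T.m) ((T.comb X).nb i k) ((T.comb X).s i k k))))) ∧
      ∃ κ > 0, ∀ P, Pos P → κ * (P.1 + P.2.1) ≤ Ph (T.vtx X ρ (A T.m) i) P := fun i =>
    tet_sound VL UL i.1 (htet i) (T.vtx X ρ (A T.m) i) (fun k => (ρ ((T.comb X).h i k)).1.mulVec
        (T.vtx X ρ (A T.m) ((T.comb X).nb i k) ((T.comb X).s i k k))) (fun k => (htab i k).1)
        (fun k => (htab i k).2)
  refine
    { nb_nb := comb_nb_nb X T h1
      h_h := comb_h_h X T h1
      s_s := comb_s_s X T h1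
      odd := comb_odd X T h1
      vert := ?_
      vol_pos := fun i => (hts i).1
      convex := fun i => (hts i).2.1
      definite := fun i => (hts i).2.2
      edge := ?_
      conn := conn_all X T F h1 rp hrp _ hrel i0 hi0 u loops S paths hc
      cusp := cusp_all X T F hcaps chain hch h0 hlast }
  · intro i' k' l' hl'
    exact vert_all X T F hm ha h1 _ hrel E hE S1 i k l c S2 hv i' k' l' hl'
  · intro i' π hπ
    obtain ⟨o, ho, a, hao, hf, hcl1, hcl2⟩ := edge_all X T h1 _ hrel E hE hcov i' π hπ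
    have ho1 : T.orbOK (relL rp 0 R) o = true := List.all_eq_true.1 hE o ho
    have ho2 : zOK T VL o = true := List.all_eq_true.1 hz o ho
    obtain ⟨e1, _, e3, e4, e5, e6⟩ := orb_close X T h1 _ hrel o ho1
    have hne : ∀ (i : Fin (T.k + 1)) (k l : Fin 4), k ≠ l →
        Dt (T.vtx X ρ (A T.m) i k) (T.vtx X ρ (A T.m) i l) ≠ 0 := fun i k l hkl =>
      Dt_ne_zero _ (hts i).1.ne' k l hkl
    have hzz := z_sound X T h1 VL (T.vtx X ρ (A T.m)) (fun i k => (htab i k).1) hne o e3 e4 ho2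
    have hs : (T.comb X).flag (i', π) (o.d - a) = T.toFlag (o.i, o.c) := by
      rw [hf, ← p07_flag_add, Nat.add_sub_cancel' hao.le]
      exact e1
    refine ⟨o.d, o.r, o.d - a, e5, by omega, hcl1, hcl2, ?_, ?_⟩
    · intro q hq1 hq2
      rw [hs]
      exact hzz.1 q hq1 hq2 (by omega)
    · intro q hq1 hq2
      rw [hs]
      exact hzz.2 q hq1 hq2

end TorMut
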