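import Pool.Agent.Lib.MP_407fc5_gt.GDefs
import Pool.Agent.Lib.MP_407fc5_gt.SDefs

/-!
# MP_407fc5_gt, part V: numerical verification of the tiling hypotheses (definitions)
-/

namespace TorMut

open Tile Matrix MatrixGroups

/-- apply the letters of a list one after the other to a vector; `AB f` is a ball for the spinor of
the arc `f` -/
def appR (AB : ℕ → VB) : List ℕ → VB → VB
  | [], v => v
  | a :: w, v => fV (PB (Nat.beq (Nat.mod a 2) 0) (AB (Nat.div a 2)) v) fun v' => appR AB w v'

/-- apply the element given by the word `w` -/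
def appW (AB : ℕ → VB) (w : List ℕ) (v : VB) : VB := appR AB w.reverse v

/-- the ball `b` is contained in the ball `c` -/
def inB (b c : CB) : Bool :=
  match b, c with
  | ⟨x, y, r⟩, ⟨x', y', r'⟩ =>
    Nat.ble (Nat.add (Nat.add (Int.natAbs (Int.sub x x')) (Int.natAbs (Int.sub y y'))) r) r'

def inV (b c : VB) : Bool := inB b.1 c.1 && inB b.2 c.2

/-- low precision vectors: numbers with 120 bits after the point, radius `2 ^ (-50)`
(the factor `2 ^ 680 + 1` instead of `2 ^ 680` gives the numbers different hash values) -/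
def lowV (x : (Int × Int) × (Int × Int)) : VB :=
  let s : Int := Int.ofNat (Nat.succ (Nat.pow 2 680))
  (⟨Int.mul x.1.1 s, Int.mul x.1.2 s, Nat.pow 2 750⟩,
    ⟨Int.mul x.2.1 s, Int.mul x.2.2 s, Nat.pow 2 750⟩)

/-- tables of low precision vectors -/
abbrev LT := List (List ((Int × Int) × (Int × Int)))

def getV (L : LT) (i k : ℕ) : VB := lowV ((L.getD i []).getD k ((0, 0), (0, 0)))

/-- the table `VL` of the vertices contains the vectors computed with high precision (`a` is the base
vector), and `UL` contains the opposite vertices of the neighbours -/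
def tabOK (T : TD) (AB : ℕ → VB) (a : VB) (VL UL : LT) : Bool :=
  (List.range (T.k + 1)).all fun i => (List.range 4).all fun k =>
    fV (appW AB (T.WN i k) a) fun v => inV v (getV VL i k) &&
      -- the vertex `k` of `i` is the opposite vertex of its neighbour across the face `k`
      fN (T.nbN i k) fun j => fN (pmV (T.sN i k) k) fun k' =>
        inV (appW AB (T.hN j k') v) (getV UL j k')

/-- `conj (Dt a c) * Dt b c * (Dt a u * conj (Dt b u))`; its imaginary part is `Lf a b c (N u)` -/
def LcB (a b c u : VB) : CB :=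
  fC (CB.cj (DtB a c)) fun p => fC (DtB b c) fun q =>
  fC (DtB a u) fun s => fC (CB.cj (DtB b u)) fun t =>
  fC (CB.mul p q) fun x => fC (CB.mul s t) fun y => CB.mul x y

/-- a ball for a number whose imaginary part is `Lk v k (N u)` -/
def LkB (v0 v1 v2 v3 : VB) (k : ℕ) (u : VB) : CB :=
  match k with
  | 0 => LcB v1 v2 v3 u
  | 1 => LcB v0 v3 v2 u
  | 2 => LcB v0 v1 v3 u
  | _ => LcB v0 v2 v1 u

/-- the sum of the four functionals -/
def SuB (v0 v1 v2 v3 : VB) (u : VB) : CB :=
  fC (LkB v0 v1 v2 v3 0 u) fun a => fC (LkB v0 v1 v2 v3 1 u) fun b =>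
  fC (LkB v0 v1 v2 v3 2 u) fun c => fC (LkB v0 v1 v2 v3 3 u) fun d =>
    CB.add (CB.add a b) (CB.add c d)

/-- the imaginary part as a ball around a real number -/
def imB (x : CB) : CB := ⟨x.im, 0, x.rad⟩

def iB : CB := ⟨0, Int.ofNat (Nat.pow 2 sc), 0⟩

/-- volume, convexity and definiteness for one tetrahedron -/
def tetOK (VL UL : LT) (i : ℕ) : Bool :=
  fV (getV VL i 0) fun v0 => fV (getV VL i 1) fun v1 => fV (getV VL i 2) fun v2 =>
  fV (getV VL i 3) fun v3 =>
  fC (LkB v0 v1 v2 v3 3 v3) fun vol =>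
    CB.imPos vol &&
    ((List.range 4).all fun k => fV (getV UL i k) fun u =>
      CB.imPos (CB.sub (SuB v0 v1 v2 v3 u) vol)) &&
    fC (imB (SuB v0 v1 v2 v3 (CB.one, CB.zero))) fun A =>
    fC (imB (SuB v0 v1 v2 v3 (CB.zero, CB.one))) fun C =>
    fC (CB.sub (imB (SuB v0 v1 v2 v3 (CB.one, CB.one))) (CB.add A C)) fun x =>
    fC (CB.sub (imB (SuB v0 v1 v2 v3 (iB, CB.one))) (CB.add A C)) fun y =>
    fC (CB.mul A C) fun p =>
      CB.rePos A && CB.rePos C &&
        CB.rePos (CB.sub (CB.add (CB.add p p) (CB.add p p)) (CB.add (CB.mul x x) (CB.mul y y)))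

/-- a positive multiple of the cross ratio of a flag -/
def znB (VL : LT) (i c : ℕ) : CB :=
  fV (getV VL i (pmV c 0)) fun v0 => fV (getV VL i (pmV c 1)) fun v1 =>
  fV (getV VL i (pmV c 2)) fun v2 => fV (getV VL i (pmV c 3)) fun v3 =>
  fC (DtB v1 v3) fun a => fC (DtB v0 v2) fun b =>
  fC (DtB v0 v3) fun e => fC (DtB v1 v2) fun f =>
  fC (CB.mul a b) fun x => fC (CB.cj (CB.mul e f)) fun y => CB.mul x y

/-- signs of the imaginary parts of the partial products number `q, …, q + n - 1`; `p` is the partial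
product number `q - 1`, the flag number `q - 1` is `(i, c)` -/
def zGo (T : TD) (VL : LT) (r : ℕ) : ℕ → ℕ → ℕ → ℕ → CB → Bool
  | 0, _, _, _, _ => true
  | n + 1, q, i, c, p =>
    fC (CB.mul p (znB VL i c)) fun p' =>
      (match Nat.ble q r with
        | true => CB.imPos p'
        | false => CB.imNeg p') &&
      fN (T.nbN i (pmV c 2)) fun i' => fN (pmM (pmM (T.sN i (pmV c 2)) c) sw23) fun c' =>
        zGo T VL r n (q + 1) i' c' p'

def zOK (T : TD) (VL : LT) (o : Orb) : Bool := zGo T VL o.r (o.d - 1) 1 o.i o.c CB.one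

end TorMut
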