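import Pool.Agent.Lib.MP_407fc5_gt.WDefs
import Pool.Agent.Lib.MP_407fc5_gt.B03
import Pool.Agent.Lib.MP_407fc5_gt.B04

/-!
# W01: the arc operation in the affine group (about 40 minutes)
-/

namespace TorMut

open Tile Matrix MatrixGroups

theorem W01_z_mul (g : GL (Fin 2) ℂ) :
    GeneralLinearGroup.scalar (Fin 2) (-1 : ℂˣ) * g =
      g * GeneralLinearGroup.scalar (Fin 2) (-1 : ℂˣ) :=
  (GeneralLinearGroup.scalar_commute (n := Fin 2) (-1 : ℂˣ) g)

theorem W01_z_val : (GeneralLinearGroup.scalar (Fin 2) (-1 : ℂˣ)).1 = -1 := by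
  ext i j
  fin_cases i <;> fin_cases j <;> simp [GeneralLinearGroup.scalar]

theorem W01_z_inv : (GeneralLinearGroup.scalar (Fin 2) (-1 : ℂˣ))⁻¹ =
    GeneralLinearGroup.scalar (Fin 2) (-1 : ℂˣ) := by
  rw [← map_inv, inv_neg, inv_one]

theorem nP_mulVec (a v : V2) : (nP a).1.mulVec v = -(PV a).1.mulVec v := by
  unfold nP
  rw [Units.val_mul, W01_z_val, neg_one_mul, Matrix.neg_mulVec]
  rfl

theorem nP_inv_mulVec (a v : V2) : ((nP a)⁻¹).1.mulVec v = -((PV a)⁻¹).1.mulVec v := by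
  unfold nP
  rw [_root_.mul_inv_rev, W01_z_inv, ← W01_z_mul, Units.val_mul, W01_z_val, neg_one_mul,
    Matrix.neg_mulVec, ← map_inv]
  rfl

theorem W01_nP_op (s : Bool) (o c : V2) : nP (opV s o c) = opG s (nP o) (nP c) := by
  unfold nP
  rw [PV_opV]
  have hz := W01_z_mul
  set z := GeneralLinearGroup.scalar (Fin 2) (-1 : ℂˣ) with hzdef
  cases s
  · change z * SpecialLinearGroup.toGL (PV o * PV c * (PV o)⁻¹) =
      (z * SpecialLinearGroup.toGL (PV o)) * (z * SpecialLinearGroup.toGL (PV c)) *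
        (z * SpecialLinearGroup.toGL (PV o))⁻¹
    rw [map_mul, map_mul, map_inv]
    generalize SpecialLinearGroup.toGL (PV o) = A
    generalize SpecialLinearGroup.toGL (PV c) = B
    rw [_root_.mul_inv_rev, hz B]
    have h2 : z * A⁻¹ = A⁻¹ * z := hz _
    have h3 : z * A * (B * z) * (A⁻¹ * z⁻¹) = z * A * B * (z * A⁻¹) * z⁻¹ := by group
    rw [h3, h2]
    group
  · change z * SpecialLinearGroup.toGL ((PV o)⁻¹ * PV c * PV o) =
      (z * SpecialLinearGroup.toGL (PV o))⁻¹ * (z * SpecialLinearGroup.toGL (PV c)) *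
        (z * SpecialLinearGroup.toGL (PV o))
    rw [map_mul, map_mul, map_inv]
    generalize SpecialLinearGroup.toGL (PV o) = A
    generalize SpecialLinearGroup.toGL (PV c) = B
    rw [_root_.mul_inv_rev]
    have h1 : A⁻¹ * z⁻¹ * (z * B) * (z * A) = A⁻¹ * B * (z * A) := by group
    rw [h1, ← mul_assoc (A⁻¹ * B) z A, ← hz (A⁻¹ * B), mul_assoc z]

theorem aff_op (s : Bool) (o c yo yc : V2) :
    (⟨nP (opV s o c), opY s o c yo yc⟩ : Aff ℂ) =
      opG s (⟨nP o, yo⟩ : Aff ℂ) ⟨nP c, yc⟩ := by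
  apply Aff.ext
  · change nP (opV s o c) = _
    rw [W01_nP_op]
    cases s <;> rfl
  · cases s
    · change yo - (PV o).1.mulVec (yc - (PV c).1.mulVec (((PV o)⁻¹).1.mulVec yo)) =
        ((⟨nP o, yo⟩ : Aff ℂ) * ⟨nP c, yc⟩ * (⟨nP o, yo⟩ : Aff ℂ)⁻¹).tr
      rw [Aff.mul_tr, Aff.mul_tr, Aff.inv_tr, Aff.mul_lin]
      change _ = yo + (nP o).1.mulVec yc + (nP o * nP c).1.mulVec (-((nP o)⁻¹.1.mulVec yo))
      rw [Units.val_mul, ← Matrix.mulVec_mulVec, nP_inv_mulVec, neg_neg, nP_mulVec, nP_mulVec,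
        nP_mulVec, Matrix.mulVec_neg, neg_neg, Matrix.mulVec_sub]
      abel
    · change -((PV o)⁻¹).1.mulVec (yc - (PV c).1.mulVec yo - yo) =
        ((⟨nP o, yo⟩ : Aff ℂ)⁻¹ * ⟨nP c, yc⟩ * (⟨nP o, yo⟩ : Aff ℂ)).tr
      rw [Aff.mul_tr, Aff.mul_tr, Aff.inv_tr, Aff.mul_lin, Aff.inv_lin]
      change _ = -((nP o)⁻¹.1.mulVec yo) + ((nP o)⁻¹).1.mulVec yc +
        ((nP o)⁻¹ * nP c).1.mulVec yo
      rw [Units.val_mul, ← Matrix.mulVec_mulVec, nP_inv_mulVec, nP_inv_mulVec, nP_inv_mulVec,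
        nP_mulVec, Matrix.mulVec_neg, neg_neg, neg_neg, Matrix.mulVec_sub, Matrix.mulVec_sub]
      abel

theorem memV_negV {u : V2} {a : VB} (hu : MemV u a) : MemV (-u) (negV a) := by
  obtain ⟨a0, a1⟩ := a
  exact ⟨mem_neg hu.1, mem_neg hu.2⟩

/-- enclosures for the translation part -/
theorem memV_opYB {o c yo yc : V2} {ob cb yob ycb : VB} (s : Bool) (ho : MemV o ob)
    (hc : MemV c cb) (hyo : MemV yo yob) (hyc : MemV yc ycb) :
    MemV (opY s o c yo yc) (opYB s ob cb yob ycb) := by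
  cases s
  · unfold opY opYB
    simp only [fV_eq]
    exact memV_sub hyo (memV_PB_true ho (memV_sub hyc (memV_PB_true hc (memV_PB_false ho hyo))))
  · unfold opY opYB
    simp only [fV_eq]
    exact memV_negV (memV_PB_false ho (memV_sub (memV_sub hyc (memV_PB_true hc hyo)) hyo))

end TorMut
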