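import Pool.Agent.Lib.MP_407fc5_gt.W01
import Pool.Agent.Lib.MP_407fc5_gt.S02
import Pool.Agent.Lib.MP_407fc5_gt.F02

/-!
# W02: enclosures of the translation parts of all arcs (about 45 minutes)

`evalR_rel` with the relation `MemW`.
-/

namespace TorMut

open Tile Matrix MatrixGroups

/-- enclosure of a spinor and eight translation parts -/
def MemW (a : WV) (b : WB) : Prop :=
  MemV a.1 b.1 ∧ b.2.length = 8 ∧ ∀ j : Fin 8, MemV (a.2 j) (b.2.getD j.1 vb0)

theorem zipV_eq {α : Type*} (f : VB → VB → VB) (s t : List VB) (k : List VB → α) :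
    zipV f s t k = k (List.zipWith f s t) := by
  induction s generalizing t k with
  | nil => rfl
  | cons a s ih =>
    cases t with
    | nil => rfl
    | cons b t =>
      rw [zipV, fV_eq, ih, List.zipWith_cons_cons]

theorem W02_zip_self (l : List VB) : List.zipWith (fun u _ : VB => u) l l = l := by
  induction l with
  | nil => rfl
  | cons a l ih => rw [List.zipWith_cons_cons, ih]

theorem frcW_eq (x : WB) (k : WB → List WB) (hx : x.2.length = 8) : frcW x k = k x := by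
  obtain ⟨a, l⟩ := x
  rw [frcW, fV_eq, zipV_eq, W02_zip_self]

theorem W02_getD (f : VB → VB → VB) (s t : List VB) (j : ℕ) (hs : j < s.length)
    (ht : j < t.length) :
    (List.zipWith f s t).getD j vb0 = f (s.getD j vb0) (t.getD j vb0) := by
  rw [List.getD_eq_getElem _ _ (by rw [List.length_zipWith]; omega), List.getElem_zipWith,
    List.getD_eq_getElem _ _ hs, List.getD_eq_getElem _ _ ht]

theorem memW_op (s : Bool) {o c : WV} {ob cb : WB} (ho : MemW o ob) (hc : MemW c cb) :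
    MemW (opWV s o c) (opW s ob cb) := by
  obtain ⟨a, yo⟩ := ob
  obtain ⟨b, yc⟩ := cb
  obtain ⟨ho1, ho2, ho3⟩ := ho
  obtain ⟨hc1, hc2, hc3⟩ := hc
  simp only at ho1 ho2 ho3 hc1 hc2 hc3
  have e : opW s (a, yo) (b, yc) = (opB s a b, List.zipWith (opYB s a b) yo yc) := by
    rw [opW, fV_eq, zipV_eq]
  rw [e]
  refine ⟨memV_opB s ho1 hc1, ?_, fun j => ?_⟩
  · rw [List.length_zipWith, ho2, hc2]
    rfl
  · rw [W02_getD _ _ _ _ (by rw [ho2]; exact j.2) (by rw [hc2]; exact j.2)]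
    exact memV_opYB s ho1 hc1 (ho3 j) (hc3 j)

theorem W02_e0 : MemV (Pi.single (0 : Fin 2) (1 : ℂ)) e0B := by
  refine ⟨?_, ?_⟩
  · rw [Pi.single_eq_same]
    exact mem_one
  · rw [Pi.single_eq_of_ne (by decide)]
    exact mem_zero

theorem W02_e1 : MemV (Pi.single (1 : Fin 2) (1 : ℂ)) e1B := by
  refine ⟨?_, ?_⟩
  · rw [Pi.single_eq_of_ne (by decide)]
    exact mem_zero
  · rw [Pi.single_eq_same]
    exact mem_one

theorem W02_0 : MemV (0 : V2) vb0 := ⟨mem_zero, mem_zero⟩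

theorem W02_zero (x : E7) (k : ℕ) (j : Fin 8) (h : k ≠ j.1 / 2 + 1) : (bWV x k).2 j = 0 :=
  if_neg h

theorem W02_neg (x : E7) (k : ℕ) (j : Fin 8) (h : k = j.1 / 2 + 1) (hs : sg k = false)
    (i : Fin 2) (hi : Fin.ofNat 2 j.1 = i) :
    (bWV x k).2 j = (PV (bV x k)).1.mulVec (Pi.single i 1) := by
  simp only [bWV]
  rw [if_pos h, hs, hi]

theorem W02_pos (x : E7) (k : ℕ) (j : Fin 8) (h : k = j.1 / 2 + 1) (hs : sg k = true)
    (i : Fin 2) (hi : Fin.ofNat 2 j.1 = i) : (bWV x k).2 j = Pi.single i 1 := by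
  simp only [bWV]
  rw [if_pos h, hs, hi]

theorem W02_l8 (y : Fin 8 → V2) (p0 p1 p2 p3 p4 p5 p6 p7 : VB) (h0 : MemV (y 0) p0)
    (h1 : MemV (y 1) p1) (h2 : MemV (y 2) p2) (h3 : MemV (y 3) p3) (h4 : MemV (y 4) p4)
    (h5 : MemV (y 5) p5) (h6 : MemV (y 6) p6) (h7 : MemV (y 7) p7) (j : Fin 8) :
    MemV (y j) ([p0, p1, p2, p3, p4, p5, p6, p7].getD j.1 vb0) := by
  fin_cases j
  · exact h0
  · exact h1
  · exact h2
  · exact h3
  · exact h4
  · exact h5
  · exact h6
  · exact h7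

theorem memW_b (x : E7) (hx : x ∈ Box xBK) (k : ℕ) (hk : k < 5) : MemW (bWV x k) (bW k) := by
  have h1 := memV_bB x hx 1
  have h2 := memV_bB x hx 2
  have h4 := memV_bB x hx 4
  match k, hk with
  | 0, _ =>
    refine ⟨memV_bB x hx 0, rfl, W02_l8 _ _ _ _ _ _ _ _ _ ?_ ?_ ?_ ?_ ?_ ?_ ?_ ?_⟩
    · rw [W02_zero x 0 0 (by decide)]
      exact W02_0
    · rw [W02_zero x 0 1 (by decide)]
      exact W02_0
    · rw [W02_zero x 0 2 (by decide)]
      exact W02_0
    · rw [W02_zero x 0 3 (by decide)]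
      exact W02_0
    · rw [W02_zero x 0 4 (by decide)]
      exact W02_0
    · rw [W02_zero x 0 5 (by decide)]
      exact W02_0
    · rw [W02_zero x 0 6 (by decide)]
      exact W02_0
    · rw [W02_zero x 0 7 (by decide)]
      exact W02_0
  | 1, _ =>
    refine ⟨memV_bB x hx 1, rfl, W02_l8 _ _ _ _ _ _ _ _ _ ?_ ?_ ?_ ?_ ?_ ?_ ?_ ?_⟩
    · rw [W02_neg x 1 0 rfl rfl 0 rfl]
      exact memV_PB_true h1 W02_e0
    · rw [W02_neg x 1 1 rfl rfl 1 rfl]
      exact memV_PB_true h1 W02_e1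
    · rw [W02_zero x 1 2 (by decide)]
      exact W02_0
    · rw [W02_zero x 1 3 (by decide)]
      exact W02_0
    · rw [W02_zero x 1 4 (by decide)]
      exact W02_0
    · rw [W02_zero x 1 5 (by decide)]
      exact W02_0
    · rw [W02_zero x 1 6 (by decide)]
      exact W02_0
    · rw [W02_zero x 1 7 (by decide)]
      exact W02_0
  | 2, _ =>
    refine ⟨memV_bB x hx 2, rfl, W02_l8 _ _ _ _ _ _ _ _ _ ?_ ?_ ?_ ?_ ?_ ?_ ?_ ?_⟩
    · rw [W02_zero x 2 0 (by decide)]
      exact W02_0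
    · rw [W02_zero x 2 1 (by decide)]
      exact W02_0
    · rw [W02_neg x 2 2 rfl rfl 0 rfl]
      exact memV_PB_true h2 W02_e0
    · rw [W02_neg x 2 3 rfl rfl 1 rfl]
      exact memV_PB_true h2 W02_e1
    · rw [W02_zero x 2 4 (by decide)]
      exact W02_0
    · rw [W02_zero x 2 5 (by decide)]
      exact W02_0
    · rw [W02_zero x 2 6 (by decide)]
      exact W02_0
    · rw [W02_zero x 2 7 (by decide)]
      exact W02_0
  | 3, _ =>
    refine ⟨memV_bB x hx 3, rfl, W02_l8 _ _ _ _ _ _ _ _ _ ?_ ?_ ?_ ?_ ?_ ?_ ?_ ?_⟩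
    · rw [W02_zero x 3 0 (by decide)]
      exact W02_0
    · rw [W02_zero x 3 1 (by decide)]
      exact W02_0
    · rw [W02_zero x 3 2 (by decide)]
      exact W02_0
    · rw [W02_zero x 3 3 (by decide)]
      exact W02_0
    · rw [W02_pos x 3 4 rfl rfl 0 rfl]
      exact W02_e0
    · rw [W02_pos x 3 5 rfl rfl 1 rfl]
      exact W02_e1
    · rw [W02_zero x 3 6 (by decide)]
      exact W02_0
    · rw [W02_zero x 3 7 (by decide)]
      exact W02_0
  | 4, _ =>
    refine ⟨memV_bB x hx 4, rfl, W02_l8 _ _ _ _ _ _ _ _ _ ?_ ?_ ?_ ?_ ?_ ?_ ?_ ?_⟩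
    · rw [W02_zero x 4 0 (by decide)]
      exact W02_0
    · rw [W02_zero x 4 1 (by decide)]
      exact W02_0
    · rw [W02_zero x 4 2 (by decide)]
      exact W02_0
    · rw [W02_zero x 4 3 (by decide)]
      exact W02_0
    · rw [W02_zero x 4 4 (by decide)]
      exact W02_0
    · rw [W02_zero x 4 5 (by decide)]
      exact W02_0
    · rw [W02_neg x 4 6 rfl rfl 0 rfl]
      exact memV_PB_true h4 W02_e0
    · rw [W02_neg x 4 7 rfl rfl 1 rfl]
      exact memV_PB_true h4 W02_e1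

def W02_bd (a : Arc) : Bool :=
  match a with
  | .born k => Nat.blt k 5
  | .cross _ _ _ => true

theorem W02_bd_R : R₁.all W02_bd = true := by decide +kernel

theorem W02_born (k : ℕ) (hk : Arc.born k ∈ R₁) : k < 5 :=
  Nat.blt_eq.mp (List.all_eq_true.mp W02_bd_R _ hk)

theorem arcsW_mem (x : E7) (hx : x ∈ Box xBK) (B : ℕ → WV) (hB : IsSol opWV (bWV x) R₁ B)
    (f : ℕ) (hf : f < 38) : MemW (B f) (nth (vb0, []) arcsW f) := by
  have h := evalR_rel MemW opWV opW (bWV x) bW (vb0, []) frcW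
    (fun x k => by
      obtain ⟨a, l⟩ := x
      rw [frcW, fV_eq, zipV_eq, W02_zip_self])
    (fun s o c o' c' ho hc => memW_op s ho hc) R₁ (fun k hk => memW_b x hx k (W02_born k hk))
    wf_R₁ B hB f (by rw [len_R₁]; exact hf)
  rw [len_R₁] at h
  exact h

end TorMut
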