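import Pool.Agent.Lib.MP_407fc5_gt.W02
import Pool.Agent.Lib.MP_407fc5_gt.KW
import Pool.Agent.Lib.MP_407fc5_gt.S03
import Pool.Agent.Lib.MP_407fc5_gt.F01
import Pool.Agent.Lib.MP_407fc5_gt.F03
import Pool.Agent.Lib.MP_407fc5_gt.E02
import Pool.Agent.Lib.MP_407fc5_gt.T02
import Pool.Agent.Lib.MP_407fc5_gt.B02

/-!
# W03: Wada's invariant of the first knot does not vanish at `t = -1` (about 90 minutes)

`t = -1`, `Φ k = twist α φ (-1) (mer D₁ k)`, which is `nP (bV x k)` for `sg k = true` and its inverse for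
`sg k = false` (`eps k` is odd).  Fix a column `(j, s)` of the Jacobian, `z k = e_s` for `k = j + 1` and `0`
otherwise, `g k = ⟨Φ k, z k⟩ : Aff ℂ`; `foxHom Φ z` maps the relators to the relators of `run g 0 [] D₁`
(`run_map` in T02).  Let `B` be a solution of `opWV` for `bWV x` (`exists_sol`) and
`Y f = ⟨nP (B f).1, (B f).2 (2 j + s)⟩ : Aff ℂ`; by `aff_op` it is a solution for `opG` with
`ori sg g k` at the maxima, so by `run_frun` the relators are `col Y p * col Y q` for the pairs of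
`caps_D₁`: `Y21⁻¹ Y32`, `Y22 Y34⁻¹`, `Y35⁻¹ Y3`, `Y37 Y6⁻¹` (the fifth one is not used).  Their translation
parts are enclosed by `rowsW` (`relW`).  `wada_ok` and `near_one` (S03) for the matrix `A J` (index
`Fin 4 × Fin 2`, number `2 i + r`, `finProdFinEquiv`) give `det J ≠ 0`.  The denominator is
`det (nP (bV x 0) - 1) = 4`.
-/

namespace TorMut

open Tile Matrix MatrixGroups

theorem w03_births : births D₁ = 5 := rfl

theorem w03_OK : OK 0 D₁ := by
  simp [OK, D₁, top, box1, bot, rib, Layer.ok, Layer.out]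

theorem w03_scalar_inv :
    (GeneralLinearGroup.scalar (Fin 2) (-1 : ℂˣ))⁻¹ = GeneralLinearGroup.scalar (Fin 2) (-1 : ℂˣ) := by
  rw [← map_inv]
  congr 1

theorem w03_inv (P : SL(2, ℂ)) :
    (GeneralLinearGroup.scalar (Fin 2) (-1 : ℂˣ) * SpecialLinearGroup.toGL P)⁻¹ =
      GeneralLinearGroup.scalar (Fin 2) (-1 : ℂˣ) * SpecialLinearGroup.toGL P⁻¹ := by
  rw [_root_.mul_inv_rev, w03_scalar_inv, map_inv]
  exact (GeneralLinearGroup.scalar_commute (n := Fin 2) (-1 : ℂˣ)
    (SpecialLinearGroup.toGL P)⁻¹).symm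

/-- the twisted representation at the maxima -/
theorem w03_twist (x : E7) (α : LinkGroup D₁ →* SL(2, ℂ))
    (hα : ∀ k, k < 5 → α (mer D₁ k) = ori sg (fun k => PV (bV x k)) k)
    (φ : LinkGroup D₁ →* Multiplicative ℤ)
    (hφ : ∀ k, k < 5 → φ (mer D₁ k) = Multiplicative.ofAdd (eps k)) (k : ℕ) (hk : k < 5) :
    twist α φ (-1) (mer D₁ k) = ori sg (fun k => nP (bV x k)) k := by
  have e : twist α φ (-1) (mer D₁ k) =
      GeneralLinearGroup.scalar (Fin 2) ((-1 : ℂˣ) ^ (Multiplicative.toAdd (φ (mer D₁ k)))) *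
        SpecialLinearGroup.toGL (α (mer D₁ k)) := rfl
  have h1 : (-1 : ℂˣ) ^ (eps k) = -1 := by
    interval_cases k <;> simp [eps]
  rw [e, hα k hk, hφ k hk, toAdd_ofAdd, h1]
  unfold ori
  cases sg k
  · exact (w03_inv (PV (bV x k))).symm
  · rfl

/-- the values at the maxima -/
noncomputable def w03_z (j : ℕ) (s : Fin 2) (k : ℕ) : Fin 2 → ℂ :=
  if k = j + 1 then Pi.single s 1 else 0

theorem w03_born (x : E7) (g : ℕ → Aff ℂ) (j : ℕ) (s : Fin 2) (k : ℕ)
    (hg : g k = ⟨ori sg (fun k => nP (bV x k)) k, w03_z j s k⟩) (q : Fin 8) (hq : q.1 = s.1 + 2 * j) :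
    (⟨nP (bWV x k).1, (bWV x k).2 q⟩ : Aff ℂ) = ori sg g k := by
  have h1 : q.1 / 2 = j := by omega
  have h2 : Fin.ofNat 2 q.1 = s := by
    apply Fin.ext
    change q.1 % 2 = s.1
    omega
  unfold ori at hg ⊢
  cases hs : sg k
  · rw [hs] at hg
    simp only at hg ⊢
    rw [hg]
    ext1
    · simp [bWV]
    · simp only [bWV, Aff.inv_tr, inv_inv, h1, h2, w03_z, hs]
      split_ifs with hk
      · rw [nP_mulVec, neg_neg]
      · simp
  · rw [hs] at hg
    simp only at hg ⊢
    rw [hg]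
    ext1
    · simp [bWV]
    · simp only [bWV, h1, h2, w03_z, hs]

/-- the translation part of a relator -/
noncomputable def w03_rel (s : Bool) (p q : WV) (c : Fin 8) : V2 :=
  match s with
  | true => p.2 c - (PV p.1).1.mulVec (((PV q.1)⁻¹).1.mulVec (q.2 c))
  | false => -((PV p.1)⁻¹).1.mulVec (q.2 c - p.2 c)

theorem w03_tr_true (p q : WV) (c : Fin 8) :
    ((⟨nP p.1, p.2 c⟩ : Aff ℂ) * (⟨nP q.1, q.2 c⟩ : Aff ℂ)⁻¹).tr = w03_rel true p q c := by
  rw [Aff.mul_tr, Aff.inv_tr]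
  change p.2 c + (nP p.1).1.mulVec (-(((nP q.1)⁻¹).1.mulVec (q.2 c))) = _
  rw [nP_inv_mulVec, neg_neg, nP_mulVec, ← sub_eq_add_neg]
  rfl

theorem w03_tr_false (p q : WV) (c : Fin 8) :
    ((⟨nP p.1, p.2 c⟩ : Aff ℂ)⁻¹ * (⟨nP q.1, q.2 c⟩ : Aff ℂ)).tr = w03_rel false p q c := by
  rw [Aff.mul_tr, Aff.inv_tr]
  change -(((nP p.1)⁻¹).1.mulVec (p.2 c)) + ((nP p.1)⁻¹).1.mulVec (q.2 c) = _
  rw [nP_inv_mulVec, nP_inv_mulVec, neg_neg]
  change _ = -((PV p.1)⁻¹).1.mulVec (q.2 c - p.2 c)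
  rw [Matrix.mulVec_sub, neg_sub, sub_eq_add_neg]

theorem w03_memneg {u : V2} {b : VB} (h : MemV u b) : MemV (-u) (negV b) := by
  obtain ⟨b0, b1⟩ := b
  exact ⟨mem_neg h.1, mem_neg h.2⟩

theorem w03_zipWith (f : VB → VB → VB) (s t : List VB) (hs : s.length = 8) (ht : t.length = 8)
    (c : ℕ) (hc : c < 8) :
    (List.zipWith f s t).getD c vb0 = f (s.getD c vb0) (t.getD c vb0) := by
  rw [List.getD_eq_getElem _ _ (by rw [List.length_zipWith, hs, ht]; exact hc),
    List.getD_eq_getElem _ _ (by rw [hs]; exact hc), List.getD_eq_getElem _ _ (by rw [ht]; exact hc),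
    List.getElem_zipWith]

theorem w03_rel_eq (s : Bool) (p q : WB) : relW s p q = match s with
    | true => List.zipWith (fun y z => subV y (PB true p.1 (PB false q.1 z))) p.2 q.2
    | false => List.zipWith (fun y z => negV (PB false p.1 (subV z y))) p.2 q.2 := by
  cases s
  · simp only [relW]
    rw [zipV_eq]
  · simp only [relW]
    rw [zipV_eq]

theorem w03_memrel (s : Bool) {p q : WV} {pb qb : WB} (hp : MemW p pb) (hq : MemW q qb) :
    (relW s pb qb).length = 8 ∧
      ∀ c : Fin 8, MemV (w03_rel s p q c) ((relW s pb qb).getD c.1 vb0) := by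
  obtain ⟨hp1, hp2, hp3⟩ := hp
  obtain ⟨hq1, hq2, hq3⟩ := hq
  rw [w03_rel_eq]
  cases s
  · simp only
    refine ⟨by rw [List.length_zipWith, hp2, hq2]; rfl, fun c => ?_⟩
    rw [w03_zipWith _ _ _ hp2 hq2 c.1 c.2]
    exact w03_memneg (memV_PB_false hp1 (memV_sub (hq3 c) (hp3 c)))
  · simp only
    refine ⟨by rw [List.length_zipWith, hp2, hq2]; rfl, fun c => ?_⟩
    rw [w03_zipWith _ _ _ hp2 hq2 c.1 c.2]
    exact memV_sub (hp3 c) (memV_PB_true hp1 (memV_PB_false hq1 (hq3 c)))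

/-- the relators -/
noncomputable def w03_r (B : ℕ → WV) (c : Fin 8) : ℕ → V2
  | 0 => w03_rel false (B 21) (B 32) c
  | 1 => w03_rel true (B 22) (B 34) c
  | 2 => w03_rel false (B 35) (B 3) c
  | _ => w03_rel true (B 37) (B 6) c

/-- the Jacobian -/
noncomputable def w03_M (B : ℕ → WV) : Matrix (Fin 8) (Fin 8) ℂ :=
  Matrix.of fun i c => w03_r B c (i.1 / 2) (Fin.ofNat 2 i.1)

theorem w03_map1 (l : List VB) (hl : l.length = 8) (c : ℕ) (hc : c < 8) :
    (l.map fun v => v.1).getD c CB.zero = (l.getD c vb0).1 := by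
  rw [List.getD_eq_getElem _ _ (by rw [List.length_map, hl]; exact hc),
    List.getD_eq_getElem _ _ (by rw [hl]; exact hc), List.getElem_map]

theorem w03_map2 (l : List VB) (hl : l.length = 8) (c : ℕ) (hc : c < 8) :
    (l.map fun v => v.2).getD c CB.zero = (l.getD c vb0).2 := by
  rw [List.getD_eq_getElem _ _ (by rw [List.length_map, hl]; exact hc),
    List.getD_eq_getElem _ _ (by rw [hl]; exact hc), List.getElem_map]

theorem w03_flat (l0 l1 l2 l3 : List VB) :
    ([l0, l1, l2, l3].flatMap fun l => [l.map fun v => v.1, l.map fun v => v.2]) =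
      [l0.map fun v => v.1, l0.map fun v => v.2, l1.map fun v => v.1, l1.map fun v => v.2,
        l2.map fun v => v.1, l2.map fun v => v.2, l3.map fun v => v.1, l3.map fun v => v.2] := rfl

theorem w03_rows_gen (M : Matrix (Fin 8) (Fin 8) ℂ) (l0 l1 l2 l3 : List VB)
    (k0 : l0.length = 8) (k1 : l1.length = 8) (k2 : l2.length = 8) (k3 : l3.length = 8)
    (h0 : ∀ c : Fin 8, Mem (M 0 c) (l0.getD c.1 vb0).1 ∧ Mem (M 1 c) (l0.getD c.1 vb0).2)
    (h1 : ∀ c : Fin 8, Mem (M 2 c) (l1.getD c.1 vb0).1 ∧ Mem (M 3 c) (l1.getD c.1 vb0).2)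
    (h2 : ∀ c : Fin 8, Mem (M 4 c) (l2.getD c.1 vb0).1 ∧ Mem (M 5 c) (l2.getD c.1 vb0).2)
    (h3 : ∀ c : Fin 8, Mem (M 6 c) (l3.getD c.1 vb0).1 ∧ Mem (M 7 c) (l3.getD c.1 vb0).2)
    (J : List (List CB))
    (hJ : J = [l0, l1, l2, l3].flatMap fun l => [l.map fun v => v.1, l.map fun v => v.2]) :
    J.length = 8 ∧ ∀ i c : Fin 8, Mem (M i c) ((J.getD i.1 []).getD c.1 CB.zero) := by
  rw [w03_flat] at hJ
  refine ⟨by rw [hJ]; rfl, ?_⟩
  intro i c
  rw [hJ]
  clear hJ
  have g0 := h0 c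
  have g1 := h1 c
  have g2 := h2 c
  have g3 := h3 c
  obtain ⟨i, hi⟩ := i
  interval_cases i
  · rw [List.getD_cons_zero]
    rw [w03_map1 l0 k0 c.1 c.2]
    exact g0.1
  · rw [List.getD_cons_succ, List.getD_cons_zero]
    rw [w03_map2 l0 k0 c.1 c.2]
    exact g0.2
  · rw [List.getD_cons_succ, List.getD_cons_succ, List.getD_cons_zero]
    rw [w03_map1 l1 k1 c.1 c.2]
    exact g1.1
  · rw [List.getD_cons_succ, List.getD_cons_succ, List.getD_cons_succ, List.getD_cons_zero]
    rw [w03_map2 l1 k1 c.1 c.2]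
    exact g1.2
  · rw [List.getD_cons_succ, List.getD_cons_succ, List.getD_cons_succ, List.getD_cons_succ, List.getD_cons_zero]
    rw [w03_map1 l2 k2 c.1 c.2]
    exact g2.1
  · rw [List.getD_cons_succ, List.getD_cons_succ, List.getD_cons_succ, List.getD_cons_succ, List.getD_cons_succ, List.getD_cons_zero]
    rw [w03_map2 l2 k2 c.1 c.2]
    exact g2.2
  · rw [List.getD_cons_succ, List.getD_cons_succ, List.getD_cons_succ, List.getD_cons_succ, List.getD_cons_succ, List.getD_cons_succ, List.getD_cons_zero]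
    rw [w03_map1 l3 k3 c.1 c.2]
    exact g3.1
  · rw [List.getD_cons_succ, List.getD_cons_succ, List.getD_cons_succ, List.getD_cons_succ, List.getD_cons_succ, List.getD_cons_succ, List.getD_cons_succ, List.getD_cons_zero]
    rw [w03_map2 l3 k3 c.1 c.2]
    exact g3.2

theorem w03_rows (B : ℕ → WV) (hB : ∀ f < 38, MemW (B f) (nth (vb0, []) arcsW f)) :
    rowsW.length = 8 ∧
      ∀ i c : Fin 8, Mem (w03_M B i c) ((rowsW.getD i.1 []).getD c.1 CB.zero) := by
  obtain ⟨l0, h0⟩ := w03_memrel false (hB 21 (by norm_num)) (hB 32 (by norm_num))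
  obtain ⟨l1, h1⟩ := w03_memrel true (hB 22 (by norm_num)) (hB 34 (by norm_num))
  obtain ⟨l2, h2⟩ := w03_memrel false (hB 35 (by norm_num)) (hB 3 (by norm_num))
  obtain ⟨l3, h3⟩ := w03_memrel true (hB 37 (by norm_num)) (hB 6 (by norm_num))
  refine w03_rows_gen (w03_M B) _ _ _ _ l0 l1 l2 l3 h0 h1 h2 h3 rowsW ?_
  unfold rowsW
  rfl

/-- the midpoint lies in the ball -/
theorem w03_memc (b : CB) : Mem (b.val / 2 ^ sc) b := by
  rw [mem_iff_norm, sub_self, norm_zero]
  positivity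

/-- soundness of `dotB` -/
theorem w03_dot : ∀ (s t : List CB) (acc : CB) (z : ℂ) (u v : ℕ → ℂ), s.length = t.length →
    (∀ k < s.length, Mem (u k) (s.getD k CB.zero)) →
    (∀ k < s.length, Mem (v k) (t.getD k CB.zero)) →
    Mem z acc → Mem (z + ∑ k ∈ Finset.range s.length, u k * v k) (dotB s t acc)
  | [], t, acc, z, u, v, _, _, _, hz => by
    have h : dotB [] t acc = acc := by
      unfold dotB
      rfl
    rw [h]
    simpa using hz
  | a :: s, [], acc, z, u, v, hl, _, _, _ => by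
    simp at hl
  | a :: s, b :: t, acc, z, u, v, hl, hu, hv, hz => by
    have h : dotB (a :: s) (b :: t) acc = dotB s t (CB.add acc (CB.mul a b)) := by
      rw [dotB, fC_eq]
    have hl' : s.length = t.length := by simpa using hl
    have h0 : Mem (z + u 0 * v 0) (CB.add acc (CB.mul a b)) := by
      refine mem_add hz (mem_mul ?_ ?_)
      · exact hu 0 (by simp)
      · exact hv 0 (by simp)
    have ih := w03_dot s t (CB.add acc (CB.mul a b)) (z + u 0 * v 0) (fun k => u (k + 1))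
      (fun k => v (k + 1)) hl'
      (fun k hk => hu (k + 1) (by simpa using hk))
      (fun k hk => hv (k + 1) (by simpa using hk)) h0
    rw [h, List.length_cons, Finset.sum_range_succ']
    have e : z + (∑ k ∈ Finset.range s.length, u (k + 1) * v (k + 1) + u 0 * v 0) =
        z + u 0 * v 0 + ∑ k ∈ Finset.range s.length, u (k + 1) * v (k + 1) := by ring
    rw [e]
    exact ih

/-- the same for lists of length eight -/
theorem w03_dot8 (s t : List CB) (u v : Fin 8 → ℂ) (hs : s.length = 8) (ht : t.length = 8)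
    (hu : ∀ k : Fin 8, Mem (u k) (s.getD k.1 CB.zero))
    (hv : ∀ k : Fin 8, Mem (v k) (t.getD k.1 CB.zero)) :
    Mem (∑ k, u k * v k) (dotB s t CB.zero) := by
  have h := w03_dot s t CB.zero 0 (fun k => if h : k < 8 then u ⟨k, h⟩ else 0)
    (fun k => if h : k < 8 then v ⟨k, h⟩ else 0) (by rw [hs, ht])
    (fun k hk => by
      rw [hs] at hk
      rw [dif_pos hk]
      exact hu ⟨k, hk⟩)
    (fun k hk => by
      rw [hs] at hk
      rw [dif_pos hk]
      exact hv ⟨k, hk⟩) mem_zero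
  rw [hs, zero_add, Finset.sum_range] at h
  have e : ∀ i : Fin 8, (if h : (i : ℕ) < 8 then u ⟨i, h⟩ else 0) *
      (if h : (i : ℕ) < 8 then v ⟨i, h⟩ else 0) = u i * v i := by
    intro i
    rw [dif_pos i.2, dif_pos i.2]
  simp only [e] at h
  exact h

theorem w03_fold (g : ℕ → ℕ) :
    ((List.range 8).map g).foldl Nat.add 0 = ∑ j : Fin 8, g j.1 := by
  rw [Fin.sum_univ_eight]
  change 0 + g 0 + g 1 + g 2 + g 3 + g 4 + g 5 + g 6 + g 7 = _
  rw [zero_add]
  rfl

theorem w03_lenA : ∀ i < 8, (aW.getD i []).length = 8 := by decide +kernel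

/-- the approximate inverse -/
noncomputable def w03_A : Matrix (Fin 8) (Fin 8) ℂ :=
  Matrix.of fun i k => ((aW.getD i.1 []).getD k.1 CB.zero).val / 2 ^ sc

theorem w03_col (J : List (List CB)) (j k : ℕ) (hk : k < J.length) :
    (J.map fun r => r.getD j CB.zero).getD k CB.zero = (J.getD k []).getD j CB.zero := by
  rw [List.getD_eq_getElem _ _ (by rw [List.length_map]; exact hk),
    List.getD_eq_getElem J _ hk, List.getElem_map]

theorem w03_det (M : Matrix (Fin 8) (Fin 8) ℂ) (J : List (List CB)) (hJ : J.length = 8)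
    (hM : ∀ i c : Fin 8, Mem (M i c) ((J.getD i.1 []).getD c.1 CB.zero))
    (h : ((List.range 8).all fun i =>
      Nat.blt (((List.range 8).map fun j =>
        CB.up (CB.sub (match Nat.beq i j with | true => CB.one | false => CB.zero)
          (dotB (aW.getD i []) (J.map fun r => r.getD j CB.zero) CB.zero))).foldl Nat.add 0)
        (Nat.pow 2 sc)) = true) : M.det ≠ 0 := by
  have key : (w03_A * M).det ≠ 0 := by
    apply near_one
    intro i
    rw [List.all_eq_true] at h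
    have h1 := Nat.blt_eq.mp (h i.1 (List.mem_range.2 i.2))
    rw [w03_fold] at h1
    have h2 : ∀ j : Fin 8, ‖(1 - w03_A * M) i j‖ * (2 : ℝ) ^ sc ≤
        ((CB.up (CB.sub (match Nat.beq i.1 j.1 with | true => CB.one | false => CB.zero)
          (dotB (aW.getD i.1 []) (J.map fun r => r.getD j.1 CB.zero) CB.zero)) : ℕ) : ℝ) := by
      intro j
      apply up_sound
      rw [Matrix.sub_apply]
      apply mem_sub
      · by_cases hij : i = j
        · subst hij
          rw [Matrix.one_apply_eq]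
          have : Nat.beq i.1 i.1 = true := Nat.beq_refl _
          rw [this]
          exact mem_one
        · rw [Matrix.one_apply_ne hij]
          have : Nat.beq i.1 j.1 = false := by
            rw [← Bool.not_eq_true, Nat.beq_eq]
            exact fun hh => hij (Fin.ext hh)
          rw [this]
          exact mem_zero
      · rw [Matrix.mul_apply]
        refine w03_dot8 (aW.getD i.1 []) (J.map fun r => r.getD j.1 CB.zero)
          (fun k => w03_A i k) (fun k => M k j) (w03_lenA i.1 i.2) ?_ ?_ ?_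
        · rw [List.length_map, hJ]
        · intro k
          exact w03_memc _
        · intro k
          rw [w03_col J j.1 k.1 (by rw [hJ]; exact k.2)]
          exact hM k j
    have h4 : (∑ j, ‖(1 - w03_A * M) i j‖) * (2 : ℝ) ^ sc ≤
        ((∑ j : Fin 8, CB.up (CB.sub
          (match Nat.beq i.1 j.1 with | true => CB.one | false => CB.zero)
          (dotB (aW.getD i.1 []) (J.map fun r => r.getD j.1 CB.zero) CB.zero)) : ℕ) : ℝ) := by
      rw [Finset.sum_mul, Nat.cast_sum]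
      exact Finset.sum_le_sum fun j _ => h2 j
    have h5 : ((∑ j : Fin 8, CB.up (CB.sub
        (match Nat.beq i.1 j.1 with | true => CB.one | false => CB.zero)
          (dotB (aW.getD i.1 []) (J.map fun r => r.getD j.1 CB.zero) CB.zero)) : ℕ) : ℝ) <
        (2 : ℝ) ^ sc := by
      have h6 := (Nat.cast_lt (α := ℝ)).2 h1
      have h7 : ((Nat.pow 2 sc : ℕ) : ℝ) = (2 : ℝ) ^ sc := by
        change ((2 ^ sc : ℕ) : ℝ) = _
        rw [Nat.cast_pow]
        rfl
      rw [h7] at h6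
      exact h6
    have hpos : (0 : ℝ) < 2 ^ sc := by positivity
    have h8 : (∑ j, ‖(1 - w03_A * M) i j‖) * (2 : ℝ) ^ sc < 1 * (2 : ℝ) ^ sc := by linarith
    exact lt_of_mul_lt_mul_right h8 hpos.le
  intro h0
  apply key
  rw [Matrix.det_mul, h0, mul_zero]

/-- the maxima are numbered by `0, …, 4` -/
def w03_bok : Arc → Bool
  | .born k => Nat.blt k 5
  | .cross _ _ _ => true

theorem w03_bornlt (k : ℕ) (h : Arc.born k ∈ R₁) : k < 5 := by
  have h1 : R₁.all w03_bok = true := by decide +kernel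
  exact Nat.blt_eq.mp (List.all_eq_true.1 h1 _ h)

/-- numbering of rows and columns -/
def w03_e : Fin (births D₁ - 1) × Fin 2 ≃ Fin 8 :=
  (finProdFinEquiv (m := births D₁ - 1) (n := 2)).trans (finCongr rfl)

theorem w03_e_val (i : Fin (births D₁ - 1)) (r : Fin 2) : (w03_e (i, r)).1 = r.1 + 2 * i.1 := rfl

theorem w03_jac (x : E7) (B : ℕ → WV) (hB : IsSol opWV (bWV x) R₁ B)
    (Φ : Fin (births D₁) → GL (Fin 2) ℂ)
    (hΦ : ∀ k : Fin (births D₁), Φ k = ori sg (fun k => nP (bV x k)) k.1) :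
    foxJac D₁ Φ = (w03_M B).submatrix w03_e w03_e := by
  ext ⟨i, r⟩ ⟨j, s⟩
  have hi : i.1 < 4 := i.2
  have hj : j.1 < 4 := j.2
  rw [Matrix.submatrix_apply]
  change (foxHom Φ (fun k => if k.1 = j.1 + 1 then Pi.single s 1 else 0)
      ((relators D₁).getD i.1 1)).tr r = w03_r B (w03_e (j, s)) ((w03_e (i, r)).1 / 2)
        (Fin.ofNat 2 (w03_e (i, r)).1)
  set c : Fin 8 := w03_e (j, s) with hc
  have hcv : c.1 = s.1 + 2 * j.1 := w03_e_val j s
  have h1 : (w03_e (i, r)).1 / 2 = i.1 := by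
    rw [w03_e_val]
    omega
  have h2 : Fin.ofNat 2 (w03_e (i, r)).1 = r := by
    rw [w03_e_val]
    apply Fin.ext
    change (r.1 + 2 * i.1) % 2 = r.1
    omega
  rw [h1, h2]
  set z : Fin (births D₁) → Fin 2 → ℂ := fun k => if k.1 = j.1 + 1 then Pi.single s 1 else 0
    with hz
  set g : ℕ → Aff ℂ := fun k => if h : k < births D₁ then (⟨Φ ⟨k, h⟩, z ⟨k, h⟩⟩ : Aff ℂ) else 1
    with hg
  have hR := run_relators D₁ Φ z
  rw [← hg] at hR
  have hY : ∀ (a : ℕ) (t : Arc), R₁[a]? = some t →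
      (⟨nP (B (0 + a)).1, (B (0 + a)).2 c⟩ : Aff ℂ) =
        t.eval opG (ori sg g) (fun f => (⟨nP (B f).1, (B f).2 c⟩ : Aff ℂ)) := by
    intro a t ht
    rw [Nat.zero_add, hB a t ht]
    cases t with
    | born k =>
      have hk : k < 5 := w03_bornlt k (List.mem_of_getElem? ht)
      refine w03_born x g j.1 s k ?_ c hcv
      rw [hg]
      have hk' : k < births D₁ := hk
      simp only [dif_pos hk', hΦ, hz]
      rfl
    | cross o s' c' =>
      exact aff_op s' (B o).1 (B c').1 ((B o).2 c) ((B c').2 c)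
  have hrun := run_frun sg g (fun f => (⟨nP (B f).1, (B f).2 c⟩ : Aff ℂ)) 0 0 [] D₁ w03_OK hY
  rw [List.map_nil] at hrun
  rw [hrun, caps_D₁] at hR
  have h3 : foxHom Φ z ((relators D₁).getD i.1 1) =
      ((relators D₁).map (foxHom Φ z)).getD i.1 1 := (map_getD _ _ _).symm
  rw [h3, hR]
  generalize i.1 = n at hi
  interval_cases n
  · exact congrFun (w03_tr_false (B 21) (B 32) c) r
  · exact congrFun (w03_tr_true (B 22) (B 34) c) r
  · exact congrFun (w03_tr_false (B 35) (B 3) c) r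
  · exact congrFun (w03_tr_true (B 37) (B 6) c) r

theorem wada_ne_zero (x : E7) (hx : x ∈ Box xBK) (α : LinkGroup D₁ →* SL(2, ℂ))
    (hα : ∀ k, k < 5 → α (mer D₁ k) = ori sg (fun k => PV (bV x k)) k)
    (φ : LinkGroup D₁ →* Multiplicative ℤ)
    (hφ : ∀ k, k < 5 → φ (mer D₁ k) = Multiplicative.ofAdd (eps k)) :
    wada D₁ α φ (-1) ≠ 0 := by
  obtain ⟨B, hB⟩ := exists_sol opWV (bWV x) R₁ wf_R₁
  have hmem := arcsW_mem x hx B hB
  obtain ⟨hlen, hrows⟩ := w03_rows B hmem
  have hdet := w03_det (w03_M B) rowsW hlen hrows wada_ok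
  unfold wada
  apply div_ne_zero
  · rw [w03_jac x B hB _ (fun k => w03_twist x α hα φ hφ k.1 k.2), Matrix.det_submatrix_equiv_self]
    exact hdet
  · rw [w03_twist x α hα φ hφ 0 (by norm_num)]
    change ((nP (bV x 0)).1 - 1).det ≠ 0
    have h1 : (nP (bV x 0)).1 = -(PV (bV x 0)).1 := by
      apply Matrix.ext_of_mulVec_single
      intro i
      rw [nP_mulVec, Matrix.neg_mulVec]
    rw [h1, Matrix.det_fin_two]
    simp [PV, bV]
    norm_num

end TorMut
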