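import Pool.Agent.Lib.MP_407fc5_gt.WDefs

/-!
# MP_407fc5_gt, part W: approximate inverse of the Fox Jacobian at `t = -1`
-/

namespace TorMut

/-- entries times `2 ^ 60` -/
def aW0 : List (List (Int × Int)) :=
  [[((-74482450545112088576), 21720031703231602688),
    ((-37400568123696979968), (-1928143385801837312)),
    (29692420976897445888, (-7838674066118946816)),
    (14778921546380898304, 1142162481854492160),
    (3034128806065308672, 5494799878440392704),
    (499999376006360576, 2975796335035096064),
    ((-1454216599165509120), 1854827979400655872),
    ((-954578131389956096), 616022367115912576)],
   [(515080679878356631552, (-467203816015783002112)),
    (308992331117144309760, (-131153303595551440896)),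
    ((-10148079233163476992), (-131086581246942674944)),
    (16194567259323863040, (-61342148349779320832)),
    ((-12051131378683297792), 10488214657823993856),
    ((-7052503541246897152), 2816214635557905408),
    (4137416025205600256, 145092858235619328),
    (1863387445484755200, 708390388106259968)],
   [(1348973095588738629632, 1085223734199492673536),
    (442519558897936629760, 708933378301029777408),
    (322004274623315247104, (-10621004962102239232)),
    (148412936611332587520, 46301447814752567296),
    ((-55276346404913283072), 111218840314235904),
    ((-25009935188445904896), (-8512176810338365440)),
    ((-14197394376851572736), 10064972451971471360),
    ((-8024999711376142336), 2351549319423622144)],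
   [((-2908624010892607488000), (-2078265095331709976576)),
    ((-995712500487513309184), (-1409311855864680808448)),
    ((-646066691299908648960), 30089729437462659072),
    ((-299165767602957778944), (-88900477147746975744)),
    (112316658575155167232, (-3998382576205906944)),
    (51385300034898657280, 15583849453429850112),
    (26823158596372103168, (-23001640069981724672)),
    (15783889913462243328, (-6255555365108182016))],
   [(1742087009704529100800, (-55848583168901045551104)),
    (9664845486735153430528, (-25180298593988696342528)),
    ((-5883084608910176288768), (-9175693520227730980864)),
    ((-1223306936592010838016), (-5115488487096048418816)),
    (1052353520936605712384, 1561762061410262843392),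
    (233482789680137109504, 868868746118899695616),
    (550133278545984880640, 162791488627453886464),
    (224483006299052965888, 160043806723376087040)],
   [(36326448057167671984128, 108347270102864627761152),
    ((-651055659345250091008), 55157000161024897187840),
    (17800434351370286399488, 13427523851543237361664),
    (5978302498888028782592, 8945788810067960659968),
    ((-3127868572742129287168), (-2248453279687955185664)),
    ((-1064965949604607295488), (-1500886123800827265024)),
    ((-1171411823010966536192), 78734906764704514048),
    ((-544554255344981573632), (-147517184004165795840))],
   [(63872820017358281113600, (-254048268746951296548864)),
    (69466651852104559230976, (-105655377350456349032448)),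
    ((-17910955429390941421568), (-47598113501608465661952)),
    ((-601244310773291679744), (-24533694334629968871424)),
    (3194621320938055008256, 8201935580850727944192),
    (173530172723720880128, 4200218327765606203392),
    (2444062196967545503744, 1098107694753355530240),
    (938718976417705230336, 880958250805699674112)],
   [(55341856934695985479680, 536027483162219152146432),
    ((-59914511010276235542528), 253123190276640143835136),
    (68123340097762025799680, 79399200275619051995136),
    (18430243238285072662528, 46999766045044896694272),
    ((-11947869951531639898112), (-13605684101399367909376)),
    ((-3291658190706347868160), (-7996784730350839398400)),
    ((-5497333115057756700672), (-402193217043299631104)),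
    ((-2434663289034508861440), (-1042094596461763624960))]]

def aW : List (List CB) :=
  aW0.map fun r => r.map fun z => ⟨Int.mul z.1 (Int.ofNat (Nat.succ (Nat.pow 2 740))),
    Int.mul z.2 (Int.ofNat (Nat.succ (Nat.pow 2 740))), 0⟩

end TorMut
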