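import Pool.Agent.Lib.MP_407fc5_gt.V04
import Pool.Agent.Lib.MP_407fc5_gt.P11
import Pool.Agent.Lib.MP_407fc5_gt.P12
import Pool.Agent.Lib.MP_407fc5_gt.RDefs
import Pool.Agent.Lib.MP_407fc5_gt.KG1
import Pool.Agent.Lib.MP_407fc5_gt.KG2
import Pool.Agent.Lib.MP_407fc5_gt.KV1
import Pool.Agent.Lib.MP_407fc5_gt.KV2
import Pool.Agent.Lib.MP_407fc5_gt.KX1
import Pool.Agent.Lib.MP_407fc5_gt.KX2
import Pool.Agent.Lib.MP_407fc5_gt.KZ1
import Pool.Agent.Lib.MP_407fc5_gt.KZ2
import Pool.Agent.Lib.MP_407fc5_gt.KT1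
import Pool.Agent.Lib.MP_407fc5_gt.KT2
import Pool.Agent.Lib.MP_407fc5_gt.KO1
import Pool.Agent.Lib.MP_407fc5_gt.KO2
import Pool.Agent.Lib.MP_407fc5_gt.O01
import Pool.Agent.Lib.MP_407fc5_gt.O02
import Pool.Agent.Lib.MP_407fc5_gt.O03
import Pool.Agent.Lib.MP_407fc5_gt.K01

/-!
# Z01: both representations are lifts of the holonomy (about 60 minutes)

`good_of_checks` (V04) with the kernel computations, `discreteFaithful` (P11; the link group is
countable), `finiteCovolume` (P12); the trace condition is `PV_trace`; the orientation is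
`orientation_of` (O03) with `walkN_sound` (O01), `raw_comm` (O02), `exists_phi₁`, `exists_phi₂` (T11).
-/

namespace TorMut

open Tile Matrix MatrixGroups

theorem z01_countable_free (b : ℕ) : Countable (FreeGroup (Fin b)) := by
  have h : Function.Surjective (FreeGroup.mk : List (Fin b × Bool) → FreeGroup (Fin b)) :=
    Quot.mk_surjective
  exact h.countable

theorem z01_countable (D : Word) : Countable (LinkGroup D) := by
  have : Countable (FreeGroup (Fin (births D))) := z01_countable_free _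
  exact (PresentedGroup.mk_surjective {r | r ∈ relators D}).countable

theorem z01_trace (σ : ℕ → Bool) (b : ℕ → V2) (k : ℕ) :
    (ori σ (fun k => PV (b k)) k).1.trace = 2 := by
  unfold ori
  cases σ k
  · exact PV_inv_trace _
  · exact PV_trace _

theorem z01_letters1 : lettersOK T1 = true := by decide +kernel

theorem z01_letters2 : lettersOK T2 = true := by decide +kernel

theorem z01_ne1 : CB.ne0 (AB1 T1.m).2 = true := by decide +kernel

theorem z01_ne2 : CB.ne0 (AB2 T2.m).2 = true := by decide +kernel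

theorem z01_ne {a : V2} {b : VB} (h : MemV a b) (hb : CB.ne0 b.2 = true) : a ≠ 0 := by
  rintro rfl
  exact ne0_sound h.2 hb rfl

theorem z01_caps1 : ∀ c ∈ caps1, c.1 < 38 ∧ c.2 < 38 := by decide +kernel

theorem z01_caps2 : ∀ c ∈ caps2, c.1 < 38 ∧ c.2 < 38 := by decide +kernel

theorem z01_m1 : T1.m < 38 := by decide +kernel

theorem z01_m2 : T2.m < 38 := by decide +kernel

theorem z01_i1 : i01 ≤ T1.k := by decide +kernel

theorem z01_i2 : i02 ≤ T2.k := by decide +kernel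

theorem z01_head1 : chain1.head? = some 0 := by decide +kernel

theorem z01_head2 : chain2.head? = some 0 := by decide +kernel

theorem z01_last1 : chain1.getLast? = some T1.m := by decide +kernel

theorem z01_last2 : chain2.getLast? = some T2.m := by decide +kernel

theorem z01_born1 : R₁[0]? = some (.born 0) := by decide +kernel

theorem z01_born2 : R₂[0]? = some (.born 0) := by decide +kernel

theorem z01_lon1 : ∀ a ∈ lon1.reverse, a < 76 := by decide +kernel

theorem z01_lon2 : ∀ a ∈ lon2.reverse, a < 76 := by decide +kernel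

theorem z01_good1 (α : LinkGroup D₁ →* SL(2, ℂ)) (X : ℕ → LinkGroup D₁) (A : ℕ → V2)
    (h : Rep D₁ R₁ caps1 AB1 α X A) : Good α (T1.comb X) (T1.vtx X α (A T1.m)) :=
  good_of_checks X T1 h.frame z01_caps1 z01_m1 (z01_ne (h.mem _ z01_m1) z01_ne1) rp1 rp1_ok
    chk1_ok z01_letters1 E1 orb1_ok cov1_ok Sa1 Sb1 cl1.1 cl1.2.1 cl1.2.2 cc1 vert1_ok i01 z01_i1
    u1 loops1 clo1 paths1 conn1_ok chain1 chain1_ok z01_head1 z01_last1 AB1 h.mem VL1 UL1 tab1_ok
    tet1_ok z1_ok

theorem z01_good2 (α : LinkGroup D₂ →* SL(2, ℂ)) (X : ℕ → LinkGroup D₂) (A : ℕ → V2)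
    (h : Rep D₂ R₂ caps2 AB2 α X A) : Good α (T2.comb X) (T2.vtx X α (A T2.m)) :=
  good_of_checks X T2 h.frame z01_caps2 z01_m2 (z01_ne (h.mem _ z01_m2) z01_ne2) rp2 rp2_ok
    chk2_ok z01_letters2 E2 orb2_ok cov2_ok Sa2 Sb2 cl2.1 cl2.2.1 cl2.2.2 cc2 vert2_ok i02 z01_i2
    u2 loops2 clo2 paths2 conn2_ok chain2 chain2_ok z01_head2 z01_last2 AB2 h.mem VL2 UL2 tab2_ok
    tet2_ok z2_ok

theorem z01_births1 : births D₁ = 5 := rfl

theorem z01_births2 : births D₂ = 5 := rfl

theorem lift_D₁ (α : LinkGroup D₁ →* SL(2, ℂ)) (X : ℕ → LinkGroup D₁) (A : ℕ → V2)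
    (b : ℕ → V2) (hα : ∀ k, k < 5 → α (mer D₁ k) = ori sg (fun k => PV (b k)) k)
    (h : Rep D₁ R₁ caps1 AB1 α X A) : IsHolonomyLift D₁ α := by
  have hg := z01_good1 α X A h
  have hc : Countable (LinkGroup D₁) := z01_countable D₁
  obtain ⟨φ, hs, hφ⟩ := exists_phi₁
  have hraw : IsRawLongitude D₁ (mer D₁) (evW X lon1.reverse) :=
    walkN_sound D₁ ok_D₁ (by decide) X h.sol st1 st1_ok 344 lon1 walk1_ok
  refine ⟨discreteFaithful hg 0, finiteCovolume hg, ?_, ?_⟩
  · intro k hk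
    rw [z01_births1] at hk
    rw [hα k hk]
    exact z01_trace sg b k
  · exact orientation_of D₁ R₁ caps1 AB1 α X A h z01_born1 lon1.reverse z01_lon1 hraw
      (raw_comm D₁ D₁.tail rfl ok_D₁ _ hraw) lon1_ok φ hs (hφ 0 (by norm_num))

theorem lift_D₂ (α : LinkGroup D₂ →* SL(2, ℂ)) (X : ℕ → LinkGroup D₂) (A : ℕ → V2)
    (b : ℕ → V2) (hα : ∀ k, k < 5 → α (mer D₂ k) = ori sg (fun k => PV (b k)) k)
    (h : Rep D₂ R₂ caps2 AB2 α X A) : IsHolonomyLift D₂ α := by
  have hg := z01_good2 α X A h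
  have hc : Countable (LinkGroup D₂) := z01_countable D₂
  obtain ⟨φ, hs, hφ⟩ := exists_phi₂
  have hraw : IsRawLongitude D₂ (mer D₂) (evW X lon2.reverse) :=
    walkN_sound D₂ ok_D₂ (by decide) X h.sol st2 st2_ok 344 lon2 walk2_ok
  refine ⟨discreteFaithful hg 0, finiteCovolume hg, ?_, ?_⟩
  · intro k hk
    rw [z01_births2] at hk
    rw [hα k hk]
    exact z01_trace sg b k
  · exact orientation_of D₂ R₂ caps2 AB2 α X A h z01_born2 lon2.reverse z01_lon2 hraw
      (raw_comm D₂ D₂.tail rfl ok_D₂ _ hraw) lon2_ok φ hs (hφ 0 (by norm_num))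

end TorMut
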