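import Pool.Agent.Lib.MP_407fc5_gt.Goal
import Pool.Agent.Lib.MP_407fc5_gt.Z01
import Pool.Agent.Lib.MP_407fc5_gt.A04
import Pool.Agent.Lib.MP_407fc5_gt.W03
import Pool.Agent.Lib.MP_407fc5_gt.N09

/-!
# Z02: the conjecture is false
-/

namespace TorMut

theorem goal : Goal := by
  obtain ⟨x, α₁, X₁, A₁, hx, hA₁, hα₁, h₁⟩ := exists_rep1
  obtain ⟨α₂, X₂, A₂, hsec, hα₂, h₂⟩ := exists_rep2 x hx α₁ X₁ A₁ hα₁ h₁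
  obtain ⟨φ₁, hs₁, hφ₁⟩ := exists_phi₁
  obtain ⟨φ₂, hs₂, hφ₂⟩ := exists_phi₂
  refine ⟨D₁, D₂, α₁, α₂, φ₁, φ₂, isKnot_D₁, isKnot_D₂, lift_D₁ α₁ X₁ A₁ _ hα₁ h₁,
    lift_D₂ α₂ X₂ A₂ _ hα₂ h₂, hs₁, hs₂, ?_, ?_, not_mutants⟩
  · exact wada_eq α₁ (traceOK_of_rep α₁ X₁ A₁ caps1 h₁) α₂ hsec φ₁ hφ₁ φ₂ hφ₂
  · refine ⟨-1, ?_, wada_ne_zero x hx α₁ hα₁ φ₁ hφ₁⟩
    intro h
    have h2 := congrArg Units.val h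
    norm_num at h2

end TorMut
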